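import Mathlib

/-!
Extensions from slices with a singular bound.
-/

set_option autoImplicit false

namespace Pool.Agent.P157C

/-- `e ζ` is a holomorphic extension of the restriction of `1 / G` to the slice over `ζ`, `ζ ∈ A`,
with a singular bound -/
structure ExtS {E : Type} [NormedAddCommGroup E] [NormedSpace ℂ E] (D : Set (ℂ × E)) (A : Set ℂ)
    (G : ℂ × E → ℂ) (M : ℝ) (e : ℂ → ℂ × E → ℂ) : Prop where
  meas : ∀ y : E, Measurable (fun q : ℂ × ℂ => e q.1 (q.2, y))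
  self : ∀ ζ ∈ A, ∀ y : E, (ζ, y) ∈ D → e ζ (ζ, y) = (G (ζ, y))⁻¹
  diff : ∀ ζ ∈ A, DifferentiableOn ℂ (e ζ) D
  bd : ∀ ζ ∈ A, ∀ p ∈ D, ‖e ζ p‖ ≤ M * (1 + √(ζ.im / ‖p.1 - ζ‖))
  qbd : ∃ M' : ℝ, ∀ ζ ∈ A, ∀ p ∈ D, ‖e ζ p‖ ≤ M'

end Pool.Agent.P157C
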