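import Mathlib
import Pool.Agent.P157C.DefsX

set_option autoImplicit false

open MeasureTheory Metric Set Filter Topology Complex

namespace Pool.Agent.P157C

lemma aux_inj_U7a {g : ℂ → ℂ} {U : Set ℂ} (hU : IsOpen U) (hg : DifferentiableOn ℂ g U) {x : ℂ}
    (hx : x ∈ U) (hd : deriv g x ≠ 0) : ∃ V : Set ℂ, IsOpen V ∧ x ∈ V ∧ V ⊆ U ∧ InjOn g V := by
  have han : AnalyticAt ℂ g x := hg.analyticAt (hU.mem_nhds hx)
  have hs : HasStrictDerivAt g (deriv g x) x := han.hasStrictDerivAt
  let R : OpenPartialHomeomorph ℂ ℂ := (hs.hasStrictFDerivAt_equiv hd).toOpenPartialHomeomorph _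
  have hxR : x ∈ R.source := HasStrictFDerivAt.mem_toOpenPartialHomeomorph_source _
  refine ⟨R.source ∩ U, R.open_source.inter hU, ⟨hxR, hx⟩, inter_subset_right, ?_⟩
  intro a ha b hb hab
  exact R.injOn ha.1 hb.1 hab

lemma aux_det_U7a (z : ℂ) :
    (((ContinuousLinearMap.toSpanSingleton ℂ z : ℂ →L[ℂ] ℂ).restrictScalars ℝ)).det = ‖z‖ ^ 2 := by
  simp [ContinuousLinearMap.det, LinearMap.det_restrictScalars,
      Algebra.norm_complex_eq, Complex.normSq_eq_norm_sq]

lemma aux_meas_U7a {g : ℂ → ℂ} {U : Set ℂ} (hU : IsOpen U) (hg : ContinuousOn g U) {B : Set ℂ}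
    (hB : MeasurableSet B) : MeasurableSet (U ∩ g ⁻¹' B) := by
  have h1 : Measurable (U.domRestrict g) := (continuousOn_iff_continuous_domRestrict.1 hg).measurable
  have h2 : MeasurableSet ((U.domRestrict g) ⁻¹' B) := h1 hB
  have h3 := hU.measurableSet.subtype_image h2
  convert h3 using 1
  ext x
  simp only [mem_inter_iff, mem_preimage, mem_image, Subtype.exists, exists_and_right, exists_eq_right]
  constructor
  · rintro ⟨h, h'⟩
    exact ⟨h, h'⟩
  · rintro ⟨h, h'⟩
    exact ⟨h, h'⟩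

/-- **TARGET 1** -/
theorem area_val {g : ℂ → ℂ} {U : Set ℂ} (hU : IsOpen U) (hg : DifferentiableOn ℂ g U) {d : ℕ}
    (hd : ∀ (ω : ℂ) (s : Finset ℂ), (∀ y ∈ s, y ∈ U ∧ g y = ω) → s.card ≤ d) {B : Set ℂ}
    (hB : MeasurableSet B) :
    ∫⁻ η in U ∩ g ⁻¹' B, ENNReal.ofReal (‖deriv g η‖ ^ 2) ≤ d * volume B := by
  classical
  have hcg : ContinuousOn g U := hg.continuousOn
  have hcd : ContinuousOn (deriv g) U := (hg.deriv hU).continuousOn
  set E : Set ℂ := U ∩ (deriv g) ⁻¹' {0}ᶜ with hE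
  have hEo : IsOpen E := hcd.isOpen_inter_preimage hU isOpen_compl_singleton
  -- local injectivity
  have hloc : ∀ x : ℂ, ∃ V : Set ℂ, x ∈ E → (IsOpen V ∧ x ∈ V ∧ V ⊆ E ∧ InjOn g V) := by
    intro x
    by_cases hx : x ∈ E
    · obtain ⟨V, h1, h2, h3, h4⟩ := aux_inj_U7a hEo (hg.mono inter_subset_left) hx hx.2
      exact ⟨V, fun _ => ⟨h1, h2, h3, h4⟩⟩
    · exact ⟨∅, fun h => absurd h hx⟩
  choose V hV using hloc
  obtain ⟨t, htE, htc, htcov⟩ := TopologicalSpace.countable_cover_nhdsWithin (s := E) (f := V)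
    (fun x hx => mem_nhdsWithin_of_mem_nhds ((hV x hx).1.mem_nhds (hV x hx).2.1))
  obtain ⟨W, hWo, hWE, hWinj, hWcov⟩ : ∃ W : ℕ → Set ℂ, (∀ n, IsOpen (W n)) ∧ (∀ n, W n ⊆ E) ∧
      (∀ n, InjOn g (W n)) ∧ E ⊆ ⋃ n, W n := by
    by_cases hne : t.Nonempty
    · obtain ⟨f, hf⟩ := htc.exists_eq_range hne
      refine ⟨fun n => V (f n), fun n => ?_, fun n => ?_, fun n => ?_, ?_⟩
      · exact (hV _ (htE (hf ▸ mem_range_self n))).1
      · exact (hV _ (htE (hf ▸ mem_range_self n))).2.2.1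
      · exact (hV _ (htE (hf ▸ mem_range_self n))).2.2.2
      · intro x hx
        obtain ⟨i, hi⟩ := mem_iUnion.1 (htcov hx)
        obtain ⟨hit, hxi⟩ := mem_iUnion.1 hi
        rw [hf] at hit
        obtain ⟨n, rfl⟩ := hit
        exact mem_iUnion.2 ⟨n, hxi⟩
    · rw [not_nonempty_iff_eq_empty] at hne
      rw [hne] at htcov
      refine ⟨fun _ => ∅, fun _ => isOpen_empty, fun _ => empty_subset _, fun _ => injOn_empty _, ?_⟩
      simpa using htcov
  set D : ℕ → Set ℂ := disjointed W with hD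
  have hDW : ∀ n, D n ⊆ W n := fun n => disjointed_subset W n
  have hDdis : Pairwise (Function.onFun Disjoint D) := disjoint_disjointed W
  have hDU : ⋃ n, D n = ⋃ n, W n := iUnion_disjointed
  have hDm : ∀ n, MeasurableSet (D n) := fun n =>
    MeasurableSet.disjointed (fun i => (hWo i).measurableSet) n
  set S : ℕ → Set ℂ := fun n => D n ∩ (E ∩ g ⁻¹' B) with hS
  have hEB : MeasurableSet (E ∩ g ⁻¹' B) := aux_meas_U7a hEo (hcg.mono inter_subset_left) hB
  have hUB : MeasurableSet (U ∩ g ⁻¹' B) := aux_meas_U7a hU hcg hB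
  have hSm : ∀ n, MeasurableSet (S n) := fun n => (hDm n).inter hEB
  have hSdis : Pairwise (Function.onFun Disjoint S) := by
    intro i j hij
    exact (hDdis hij).mono inter_subset_left inter_subset_left
  have hSU : ⋃ n, S n = E ∩ g ⁻¹' B := by
    rw [hS, ← iUnion_inter, hDU]
    apply inter_eq_right.2
    exact inter_subset_left.trans hWcov
  have hSinj : ∀ n, InjOn g (S n) := fun n => (hWinj n).mono (inter_subset_left.trans (hDW n))
  have hder : ∀ n, ∀ x ∈ S n, HasFDerivWithinAt g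
      ((ContinuousLinearMap.toSpanSingleton ℂ (deriv g x) : ℂ →L[ℂ] ℂ).restrictScalars ℝ) (S n) x := by
    intro n x hx
    have hxU : x ∈ U := hx.2.1.1
    have h1 : HasDerivAt g (deriv g x) x := (hg.differentiableAt (hU.mem_nhds hxU)).hasDerivAt
    exact (h1.hasFDerivAt.restrictScalars ℝ).hasFDerivWithinAt
  have harea : ∀ n, ∫⁻ η in S n, ENNReal.ofReal (‖deriv g η‖ ^ 2) = volume (g '' S n) := by
    intro n
    rw [← lintegral_abs_det_fderiv_eq_addHaar_image volume (hSm n) (hder n) (hSinj n)]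
    refine lintegral_congr (fun x => ?_)
    rw [aux_det_U7a, abs_of_nonneg (by positivity)]
  have himm : ∀ n, MeasurableSet (g '' S n) := fun n =>
    measurable_image_of_fderivWithin (hSm n) (hder n) (hSinj n)
  -- reduce to E
  have hred : ∫⁻ η in U ∩ g ⁻¹' B, ENNReal.ofReal (‖deriv g η‖ ^ 2) =
      ∫⁻ η in E ∩ g ⁻¹' B, ENNReal.ofReal (‖deriv g η‖ ^ 2) := by
    rw [← lintegral_indicator hUB, ← lintegral_indicator hEB]
    refine lintegral_congr (fun η => ?_)
    by_cases h1 : η ∈ E ∩ g ⁻¹' B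
    · rw [indicator_of_mem h1, indicator_of_mem (show η ∈ U ∩ g ⁻¹' B from ⟨h1.1.1, h1.2⟩)]
    · rw [indicator_of_notMem h1]
      by_cases h2 : η ∈ U ∩ g ⁻¹' B
      · rw [indicator_of_mem h2]
        have h3 : deriv g η = 0 := by
          by_contra h
          exact h1 ⟨⟨h2.1, h⟩, h2.2⟩
        simp [h3]
      · rw [indicator_of_notMem h2]
  rw [hred, ← hSU, lintegral_iUnion hSm hSdis]
  simp_rw [harea]
  have h2 : ∀ n, volume (g '' S n) = ∫⁻ ω, (g '' S n).indicator 1 ω := by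
    intro n
    rw [lintegral_indicator_one (himm n)]
  simp_rw [h2]
  rw [← lintegral_tsum (fun n => (measurable_one.indicator (himm n)).aemeasurable)]
  have h3 : (d : ENNReal) * volume B = ∫⁻ ω, B.indicator (fun _ => (d : ENNReal)) ω := by
    rw [lintegral_indicator_const hB]
  rw [h3]
  refine lintegral_mono (fun ω => ?_)
  apply ENNReal.tsum_le_of_sum_range_le
  intro N
  set T : Finset ℕ := (Finset.range N).filter (fun n => ω ∈ g '' S n) with hT
  have h4 : ∑ i ∈ Finset.range N, (g '' S i).indicator (1 : ℂ → ENNReal) ω = (T.card : ENNReal) := by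
    rw [hT, Finset.card_filter]
    push_cast
    refine Finset.sum_congr rfl (fun i _ => ?_)
    by_cases h : ω ∈ g '' S i
    · rw [indicator_of_mem h, if_pos h]; rfl
    · rw [indicator_of_notMem h, if_neg h]
  rw [h4]
  by_cases hTe : T.Nonempty
  · obtain ⟨n₀, hn₀⟩ := hTe
    have hn₀' : ω ∈ g '' S n₀ := (Finset.mem_filter.1 hn₀).2
    obtain ⟨y₀, hy₀, hy₀'⟩ := hn₀'
    have hωB : ω ∈ B := by rw [← hy₀']; exact hy₀.2.2
    rw [indicator_of_mem hωB]
    have hch : ∀ n : ℕ, ∃ y : ℂ, n ∈ T → (y ∈ S n ∧ g y = ω) := by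
      intro n
      by_cases h : n ∈ T
      · obtain ⟨y, hy⟩ := (Finset.mem_filter.1 h).2
        exact ⟨y, fun _ => hy⟩
      · exact ⟨0, fun h' => absurd h' h⟩
    choose y hy using hch
    have hinj : Set.InjOn y (T : Set ℕ) := by
      intro a ha b hb hab
      by_contra hne
      have h5 := hSdis hne
      have h6 : y a ∈ S a := (hy a ha).1
      have h7 : y a ∈ S b := by rw [hab]; exact (hy b hb).1
      exact (Set.disjoint_left.1 h5) h6 h7
    have h8 : (T.image y).card = T.card := Finset.card_image_of_injOn hinj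
    have h9 : (T.image y).card ≤ d := by
      apply hd ω
      intro z hz
      obtain ⟨n, hn, rfl⟩ := Finset.mem_image.1 hz
      exact ⟨(hy n hn).1.2.1.1, (hy n hn).2⟩
    rw [h8] at h9
    exact_mod_cast h9
  · rw [Finset.not_nonempty_iff_eq_empty] at hTe
    rw [hTe]
    simp

/-- differentiation under the integral sign -/
lemma aux_hasDeriv_U7a {κ : ℝ} {h : ℂ → ℂ} (hh : DifferentiableOn ℂ h (ball 0 κ)) {y₀ : ℂ}
    (hy₀ : y₀ ∈ ball (0 : ℂ) κ) (k : ℕ) {y : ℂ} (hy : y ∈ ball (0 : ℂ) κ) :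
    HasDerivAt (fun y => ∫ t in (0 : ℝ)..1, (t : ℂ) ^ k * h (y₀ + t * (y - y₀)))
      (∫ t in (0 : ℝ)..1, (t : ℂ) ^ (k + 1) * deriv h (y₀ + t * (y - y₀))) y := by
  obtain ⟨ρ, hρ1, hρ2⟩ : ∃ ρ, max ‖y₀‖ ‖y‖ < ρ ∧ ρ < κ := by
    apply exists_between
    rw [mem_ball_zero_iff] at hy hy₀
    exact max_lt hy₀ hy
  have hsub : closedBall (0 : ℂ) ρ ⊆ ball 0 κ := closedBall_subset_ball hρ2
  have hin : ∀ z ∈ ball (0 : ℂ) ρ, ∀ t ∈ Icc (0 : ℝ) 1, y₀ + t * (z - y₀) ∈ closedBall (0 : ℂ) ρ := by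
    intro z hz t ht
    have h1 : y₀ ∈ closedBall (0 : ℂ) ρ := by
      rw [mem_closedBall_zero_iff]; exact ((le_max_left _ _).trans_lt hρ1).le
    have h2 : z ∈ closedBall (0 : ℂ) ρ := ball_subset_closedBall hz
    have h3 := (convex_closedBall (0 : ℂ) ρ).add_smul_sub_mem h1 h2 ht
    simpa [Complex.real_smul] using h3
  have hd' : ContinuousOn (deriv h) (ball 0 κ) := (hh.deriv isOpen_ball).continuousOn
  obtain ⟨C, hC⟩ := (isCompact_closedBall (0 : ℂ) ρ).exists_bound_of_continuousOn (hd'.mono hsub)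
  have hyρ : y ∈ ball (0 : ℂ) ρ := by
    rw [mem_ball_zero_iff]; exact (le_max_right _ _).trans_lt hρ1
  have hcontF : ∀ f : ℂ → ℂ, ContinuousOn f (ball 0 κ) → ∀ k : ℕ, ∀ z ∈ ball (0 : ℂ) ρ,
      ContinuousOn (fun t : ℝ => (t : ℂ) ^ k * f (y₀ + t * (z - y₀))) (Icc 0 1) := by
    intro f hf k z hz
    apply ContinuousOn.mul
    · fun_prop
    · refine hf.comp (by fun_prop) ?_
      intro t ht
      exact hsub (hin z hz t ht)
  have huI : Set.uIoc (0 : ℝ) 1 = Ioc 0 1 := Set.uIoc_of_le zero_le_one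
  refine (intervalIntegral.hasDerivAt_integral_of_dominated_loc_of_deriv_le
    (F := fun y t => (t : ℂ) ^ k * h (y₀ + t * (y - y₀)))
    (F' := fun y t => (t : ℂ) ^ (k + 1) * deriv h (y₀ + t * (y - y₀)))
    (bound := fun _ => C) (isOpen_ball.mem_nhds hyρ) ?_ ?_ ?_ ?_ ?_ ?_).2
  · filter_upwards [isOpen_ball.mem_nhds hyρ] with z hz
    rw [huI]
    exact ((hcontF h hh.continuousOn k z hz).mono Ioc_subset_Icc_self).aestronglyMeasurable
      measurableSet_Ioc
  · apply ContinuousOn.intervalIntegrable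
    rw [Set.uIcc_of_le zero_le_one]
    exact hcontF h hh.continuousOn k y hyρ
  · rw [huI]
    exact ((hcontF _ hd' (k + 1) y hyρ).mono Ioc_subset_Icc_self).aestronglyMeasurable
      measurableSet_Ioc
  · refine Eventually.of_forall (fun t ht z hz => ?_)
    rw [huI] at ht
    have ht' : t ∈ Icc (0 : ℝ) 1 := ⟨ht.1.le, ht.2⟩
    have h1 := hC _ (hin z hz t ht')
    have h2 : ‖(t : ℂ) ^ (k + 1)‖ ≤ 1 := by
      rw [norm_pow, Complex.norm_real, Real.norm_of_nonneg ht'.1]
      exact pow_le_one₀ ht'.1 ht'.2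
    calc ‖(t : ℂ) ^ (k + 1) * deriv h (y₀ + t * (z - y₀))‖
        = ‖(t : ℂ) ^ (k + 1)‖ * ‖deriv h (y₀ + t * (z - y₀))‖ := norm_mul _ _
      _ ≤ 1 * C := mul_le_mul h2 h1 (norm_nonneg _) zero_le_one
      _ = C := one_mul C
  · exact intervalIntegrable_const
  · refine Eventually.of_forall (fun t ht z hz => ?_)
    rw [huI] at ht
    have ht' : t ∈ Icc (0 : ℝ) 1 := ⟨ht.1.le, ht.2⟩
    have hz' := hsub (hin z hz t ht')
    have h1 : HasDerivAt h (deriv h (y₀ + t * (z - y₀))) (y₀ + t * (z - y₀)) :=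
      (hh.differentiableAt (isOpen_ball.mem_nhds hz')).hasDerivAt
    have h2 : HasDerivAt (fun z : ℂ => y₀ + (t : ℂ) * (z - y₀)) (t : ℂ) z := by
      have := ((hasDerivAt_id z).sub_const y₀).const_mul (t : ℂ) |>.const_add y₀
      simpa using this
    have h3 := (h1.comp z h2).const_mul ((t : ℂ) ^ k)
    have h4 : (t : ℂ) ^ k * (deriv h (y₀ + t * (z - y₀)) * t) =
        (t : ℂ) ^ (k + 1) * deriv h (y₀ + t * (z - y₀)) := by ring
    rw [h4] at h3
    exact h3

/-- iterated derivatives of the divided difference -/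
lemma aux_iter_U7a {κ : ℝ} {g : ℂ → ℂ} (hg : DifferentiableOn ℂ g (ball 0 κ)) {y₀ : ℂ}
    (hy₀ : y₀ ∈ ball (0 : ℂ) κ) (k : ℕ) : ∀ y ∈ ball (0 : ℂ) κ,
    iteratedDeriv k (fun y => ∫ t in (0 : ℝ)..1, deriv g (y₀ + t * (y - y₀))) y =
      ∫ t in (0 : ℝ)..1, (t : ℂ) ^ k * iteratedDeriv (k + 1) g (y₀ + t * (y - y₀)) := by
  induction k with
  | zero =>
    intro y hy
    simp [iteratedDeriv_zero, iteratedDeriv_one]
  | succ k ih =>
    intro y hy
    rw [iteratedDeriv_succ]
    have hev : (iteratedDeriv k (fun y => ∫ t in (0 : ℝ)..1, deriv g (y₀ + t * (y - y₀)))) =ᶠ[𝓝 y]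
        fun y => ∫ t in (0 : ℝ)..1, (t : ℂ) ^ k * iteratedDeriv (k + 1) g (y₀ + t * (y - y₀)) := by
      filter_upwards [isOpen_ball.mem_nhds hy] with z hz using ih z hz
    rw [hev.deriv_eq]
    have hdiff : ∀ j : ℕ, DifferentiableOn ℂ (iteratedDeriv j g) (ball 0 κ) := by
      intro j
      induction j with
      | zero => simpa using hg
      | succ j ihj =>
        rw [iteratedDeriv_succ]
        exact ihj.deriv isOpen_ball
    have := (aux_hasDeriv_U7a (hdiff (k + 1)) hy₀ k hy).deriv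
    rw [this, iteratedDeriv_succ (n := k + 1)]

lemma aux_valence_U7a : ∀ (d : ℕ) {g : ℂ → ℂ} {κ : ℝ} {c : ℂ}
    (_ : DifferentiableOn ℂ g (ball 0 κ))
    (_ : ∀ y ∈ ball (0 : ℂ) κ, 0 < (c * iteratedDeriv d g y).re) (s : Finset ℂ)
    (_ : ∀ y ∈ s, y ∈ ball (0 : ℂ) κ ∧ g y = 0), s.card ≤ d := by
  intro d
  induction d with
  | zero =>
    intro g κ c hg hc s hs
    by_contra h
    push Not at h
    obtain ⟨y, hy⟩ := Finset.card_pos.1 h
    have h1 := hc y (hs y hy).1
    rw [iteratedDeriv_zero, (hs y hy).2] at h1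
    simp at h1
  | succ d ih =>
    intro g κ c hg hc s hs
    by_cases hne : s.Nonempty
    · obtain ⟨y₀, hy₀⟩ := hne
      have hy₀b := (hs y₀ hy₀).1
      set v : ℂ → ℂ := fun y => ∫ t in (0 : ℝ)..1, deriv g (y₀ + t * (y - y₀)) with hv
      have hd' : DifferentiableOn ℂ (deriv g) (ball 0 κ) := hg.deriv isOpen_ball
      have hvd : DifferentiableOn ℂ v (ball 0 κ) := by
        intro y hy
        have h1 := aux_hasDeriv_U7a hd' hy₀b 0 hy
        simp only [pow_zero, one_mul] at h1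
        exact h1.differentiableAt.differentiableWithinAt
      have hseg : ∀ y ∈ ball (0 : ℂ) κ, ∀ t ∈ Icc (0 : ℝ) 1, y₀ + t * (y - y₀) ∈ ball (0 : ℂ) κ := by
        intro y hy t ht
        have h3 := (convex_ball (0 : ℂ) κ).add_smul_sub_mem hy₀b hy ht
        simpa [Complex.real_smul] using h3
      have hdiff : ∀ j : ℕ, DifferentiableOn ℂ (iteratedDeriv j g) (ball 0 κ) := by
        intro j
        induction j with
        | zero => simpa using hg
        | succ j ihj =>
          rw [iteratedDeriv_succ]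
          exact ihj.deriv isOpen_ball
      have hvc : ∀ y ∈ ball (0 : ℂ) κ, 0 < (c * iteratedDeriv d v y).re := by
        intro y hy
        rw [hv, aux_iter_U7a hg hy₀b d y hy, ← intervalIntegral.integral_const_mul]
        have hcont : ContinuousOn (fun t : ℝ => c * ((t : ℂ) ^ d *
            iteratedDeriv (d + 1) g (y₀ + t * (y - y₀)))) (Icc 0 1) := by
          apply ContinuousOn.mul continuousOn_const
          apply ContinuousOn.mul (by fun_prop)
          refine (hdiff (d + 1)).continuousOn.comp (by fun_prop) ?_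
          intro t ht
          exact hseg y hy t ht
        have hint : IntervalIntegrable (fun t : ℝ => c * ((t : ℂ) ^ d *
            iteratedDeriv (d + 1) g (y₀ + t * (y - y₀)))) volume 0 1 := by
          apply ContinuousOn.intervalIntegrable
          rwa [Set.uIcc_of_le zero_le_one]
        have hre : (∫ t in (0 : ℝ)..1, c * ((t : ℂ) ^ d *
            iteratedDeriv (d + 1) g (y₀ + t * (y - y₀)))).re =
            ∫ t in (0 : ℝ)..1, (c * ((t : ℂ) ^ d *
            iteratedDeriv (d + 1) g (y₀ + t * (y - y₀)))).re := by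
          exact (Complex.reCLM.intervalIntegral_comp_comm hint).symm
        rw [hre]
        apply intervalIntegral.intervalIntegral_pos_of_pos_on
        · apply ContinuousOn.intervalIntegrable
          rw [Set.uIcc_of_le zero_le_one]
          exact Complex.continuous_re.comp_continuousOn hcont
        · intro t ht
          have h1 := hc _ (hseg y hy t ⟨ht.1.le, ht.2.le⟩)
          have h2 : c * ((t : ℂ) ^ d * iteratedDeriv (d + 1) g (y₀ + t * (y - y₀))) =
              ((t ^ d : ℝ) : ℂ) * (c * iteratedDeriv (d + 1) g (y₀ + t * (y - y₀))) := by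
            push_cast; ring
          rw [h2, Complex.re_ofReal_mul]
          exact mul_pos (pow_pos ht.1 d) h1
        · exact zero_lt_one
      have hzero : ∀ y ∈ ball (0 : ℂ) κ, (y - y₀) * v y = g y - g y₀ := by
        intro y hy
        have h1 := intervalIntegral.integral_unitInterval_deriv_eq_sub (𝕜 := ℂ) (E := ℂ) (f := g) (f' := deriv g)
          (z₀ := y₀) (z₁ := y - y₀) ?_ ?_
        · simp only [smul_eq_mul, Complex.real_smul, add_sub_cancel] at h1
          exact h1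
        · refine hd'.continuousOn.comp (by fun_prop) ?_
          intro t ht
          have := hseg y hy t ht
          simpa [Complex.real_smul] using this
        · intro t ht
          have := hseg y hy t ht
          rw [Complex.real_smul]
          exact (hg.differentiableAt (isOpen_ball.mem_nhds this)).hasDerivAt
      have h5 : (s.erase y₀).card ≤ d := by
        refine ih hvd hvc (s.erase y₀) ?_
        intro y hy
        have hys := Finset.mem_of_mem_erase hy
        have hyne := Finset.ne_of_mem_erase hy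
        refine ⟨(hs y hys).1, ?_⟩
        have h6 := hzero y (hs y hys).1
        rw [(hs y hys).2, (hs y₀ hy₀).2, sub_zero] at h6
        exact (mul_eq_zero.1 h6).resolve_left (sub_ne_zero.2 hyne)
      rw [Finset.card_erase_of_mem hy₀] at h5
      omega
    · rw [Finset.not_nonempty_iff_eq_empty] at hne
      simp [hne]

/-- **TARGET 2** -/
theorem valence {g : ℂ → ℂ} {κ : ℝ} {d : ℕ} (hd : 1 ≤ d) {c : ℂ}
    (hg : DifferentiableOn ℂ g (ball 0 κ))
    (hc : ∀ y ∈ ball (0 : ℂ) κ, 0 < (c * iteratedDeriv d g y).re) (ω : ℂ) (s : Finset ℂ)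
    (hs : ∀ y ∈ s, y ∈ ball (0 : ℂ) κ ∧ g y = ω) : s.card ≤ d := by
  refine aux_valence_U7a d (g := fun y => g y - ω) (κ := κ) (c := c) (hg.sub_const ω) ?_ s ?_
  · intro y hy
    have h1 : iteratedDeriv d (fun y => g y - ω) y = iteratedDeriv d g y := by
      obtain ⟨e, rfl⟩ : ∃ e, d = e + 1 := ⟨d - 1, by omega⟩
      rw [iteratedDeriv_succ', iteratedDeriv_succ']
      congr 1
      funext z
      exact deriv_sub_const ω
    rw [h1]
    exact hc y hy
  · intro y hy
    exact ⟨(hs y hy).1, sub_eq_zero.2 (hs y hy).2⟩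

end Pool.Agent.P157C
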