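import Mathlib
import Pool.Agent.P157C.DefsX

/-!
The local model: `B` near a boundary point, in coordinates `(w, y)` with `w = W(z)`; the point with
coordinates `(w, y)` is `(z (w, y), y) ∈ ℂ²`.
-/

set_option autoImplicit false

open MeasureTheory Metric Set Filter Topology Complex

namespace Pool.Agent.P157C

/-- `1 - |Z|²`, `Z = (z (w, y), y)` -/
noncomputable def rho (z : ℂ × ℂ → ℂ) (p : ℂ × ℂ) : ℝ := 1 - ‖z p‖ ^ 2 - ‖p.2‖ ^ 2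

/-- `∂z/∂y` -/
noncomputable def dz (z : ℂ × ℂ → ℂ) (p : ℂ × ℂ) : ℂ := deriv (fun y : ℂ => z (p.1, y)) p.2

/-- the local model -/
structure LM (κ L : ℝ) (z : ℂ × ℂ → ℂ) : Prop where
  κ0 : 0 < κ
  κ1 : κ ≤ 1
  L1 : 1 ≤ L
  diff : DifferentiableOn ℂ z {p | ‖p.1‖ < κ ∧ ‖p.2‖ < κ}
  lo : ∀ p : ℂ × ℂ, ‖p.1‖ < κ → ‖p.2‖ < κ → 1 / 2 ≤ ‖z p‖
  hi : ∀ p : ℂ × ℂ, ‖p.1‖ < κ → ‖p.2‖ < κ → ‖z p‖ ≤ L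
  lip : ∀ p q : ℂ × ℂ, ‖p.1‖ < κ → ‖p.2‖ < κ → ‖q.1‖ < κ → ‖q.2‖ < κ →
    ‖z p - z q‖ ≤ L * (‖p.1 - q.1‖ + ‖p.2 - q.2‖)
  inj : ∀ w w' y : ℂ, ‖w‖ < κ → ‖w'‖ < κ → ‖y‖ < κ → ‖w - w'‖ ≤ L * ‖z (w, y) - z (w', y)‖
  dbd : ∀ p : ℂ × ℂ, ‖p.1‖ < κ → ‖p.2‖ < κ → ‖dz z p‖ ≤ L
  lip2 : ∀ p q : ℂ × ℂ, ‖p.1‖ < κ → ‖p.2‖ < κ → ‖q.1‖ < κ → ‖q.2‖ < κ →
    ‖dz z p - dz z q‖ ≤ L * (‖p.1 - q.1‖ + ‖p.2 - q.2‖)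
  im : ∀ p : ℂ × ℂ, ‖p.1‖ < κ → ‖p.2‖ < κ → 0 < rho z p → 0 < p.1.im

/-- the domain -/
def DD (z : ℂ × ℂ → ℂ) (κ θ : ℝ) : Set (ℂ × ℂ) := {p | ‖p.1‖ < κ ∧ ‖p.2‖ < κ ∧ θ < rho z p}

/-- `1 - ⟨Z(p), Z(s)⟩` -/
noncomputable def Ph (z : ℂ × ℂ → ℂ) (s p : ℂ × ℂ) : ℂ :=
  1 - z p * starRingEnd ℂ (z s) - p.2 * starRingEnd ℂ s.2

/-- `⟨∂Z/∂y, Z⟩` (this is `- ∂ρ/∂y`) -/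
noncomputable def bb (z : ℂ × ℂ → ℂ) (s : ℂ × ℂ) : ℂ :=
  dz z s * starRingEnd ℂ (z s) + starRingEnd ℂ s.2

/-- the divided difference of `z (ζ, ·)` between `η` and `y` -/
noncomputable def qq (z : ℂ × ℂ → ℂ) (s : ℂ × ℂ) (y : ℂ) : ℂ := dslope (fun y : ℂ => z (s.1, y)) s.2 y

/-- the numerator `⟨Z, Z'⟩⟨Q, Z⟩ + ρ ⟨Q, Z'⟩` of the kernel, `Q = (qq, 1)` -/
noncomputable def NN (z : ℂ × ℂ → ℂ) (s : ℂ × ℂ) (y : ℂ) : ℂ :=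
  starRingEnd ℂ (bb z s) * (qq z s y * starRingEnd ℂ (z s) + starRingEnd ℂ s.2) +
    (rho z s : ℂ) * (qq z s y * starRingEnd ℂ (dz z s) + 1)

/-- the slice over `ζ` (of radius `κ / 2` in `η`) -/
def SS (z : ℂ × ℂ → ℂ) (κ : ℝ) (ζ : ℂ) : Set ℂ := {η | ‖η‖ < κ / 2 ∧ 0 < rho z (ζ, η)}

/-- the operator `∂/∂z̄` -/
noncomputable def dbar (f : ℂ → ℂ) (z : ℂ) : ℂ :=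
  (fderiv ℝ f z 1 + Complex.I * fderiv ℝ f z Complex.I) / 2

/-- cutoff function -/
structure Cut (κ B : ℝ) (χ : ℂ → ℝ) : Prop where
  smooth : ContDiff ℝ 1 χ
  one : ∀ η : ℂ, ‖η‖ ≤ κ / 4 → χ η = 1
  zero : ∀ η : ℂ, 3 * κ / 8 ≤ ‖η‖ → χ η = 0
  nn : ∀ η : ℂ, 0 ≤ χ η
  le : ∀ η : ℂ, χ η ≤ 1
  bd : ∀ η : ℂ, ‖dbar (fun η => (χ η : ℂ)) η‖ ≤ B

/-- the kernel: for `s = (ζ, η)`, `p = (w, y)` -/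
noncomputable def KK (z : ℂ × ℂ → ℂ) (χ : ℂ → ℝ) (s p : ℂ × ℂ) : ℂ :=
  dbar (fun η => (χ η : ℂ)) s.2 * (rho z s : ℂ) ^ 2 / (Ph z s p ^ 2 * (p.2 - s.2)) +
    2 * (χ s.2 : ℂ) * (rho z s : ℂ) * NN z s p.2 / Ph z s p ^ 3

/-- Bezout solutions on `D` for `f i (p.1)` and `G p`, bounded by `C` -/
def Sol1 (N : ℕ) (C : ℝ) (D : Set (ℂ × ℂ)) (f : Fin N → ℂ → ℂ) (G : ℂ × ℂ → ℂ) : Prop :=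
  ∃ (g : Fin N → ℂ × ℂ → ℂ) (g₀ : ℂ × ℂ → ℂ),
    (∀ i, DifferentiableOn ℂ (g i) D) ∧ DifferentiableOn ℂ g₀ D ∧
    (∀ i, ∀ p ∈ D, ‖g i p‖ ≤ C) ∧ (∀ p ∈ D, ‖g₀ p‖ ≤ C) ∧
    ∀ p ∈ D, ∑ i, f i p.1 * g i p + G p * g₀ p = 1

/-- the candidate for the extension -/
noncomputable def ee (z : ℂ × ℂ → ℂ) (κ : ℝ) (χ : ℂ → ℝ) (G : ℂ × ℂ → ℂ) (ζ : ℂ) (p : ℂ × ℂ) : ℂ :=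
  open Classical in
  if ‖ζ‖ < κ / 2 ∧ ‖p.1‖ < κ / 8 ∧ ‖p.2‖ < κ / 8 then
    (1 / Real.pi : ℂ) * ∫ η in SS z κ ζ, (G (ζ, η))⁻¹ * KK z χ (ζ, η) p
  else 0

/-- the list of pointwise estimates, `p = (w, y)` -/
structure Pt (C : ℝ) (z : ℂ × ℂ → ℂ) (ζ w y η : ℂ) : Prop where
  im : 0 < ζ.im
  r1 : rho z (ζ, η) ≤ 2 * ‖Ph z (ζ, η) (w, y)‖
  d1 : ‖η - y‖ ^ 2 ≤ 2 * ‖Ph z (ζ, η) (w, y)‖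
  rt : rho z (ζ, η) ≤ C * ζ.im
  bt : ‖bb z (ζ, η)‖ ^ 2 ≤ C * ζ.im
  nn : ‖NN z (ζ, η) y‖ ≤ C * (‖bb z (ζ, η)‖ ^ 2 + ‖Ph z (ζ, η) (w, y)‖)
  dw : ‖w - ζ‖ ≤ C * (√(ζ.im * ‖Ph z (ζ, η) (w, y)‖) + ‖Ph z (ζ, η) (w, y)‖)
  bl : |‖bb z (ζ, η)‖ - ‖bb z (ζ, y)‖| ≤ C * ‖η - y‖
  ex : ‖(z (w, y) - z (ζ, y)) * starRingEnd ℂ (z (ζ, y)) + (y - η) * bb z (ζ, y)‖ ≤
    C * ‖Ph z (ζ, η) (w, y)‖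

end Pool.Agent.P157C
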