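import Mathlib
import Pool.Agent.P157C.Defs
import Pool.Agent.P157C.Area

set_option autoImplicit false

open MeasureTheory Metric Set Filter Topology Complex

namespace Pool.Agent.P157C

/-- derivative in the first variable (auxiliary) -/
private noncomputable def dwa_U7b (z : ℂ × ℂ → ℂ) (p : ℂ × ℂ) : ℂ := deriv (fun x : ℂ => z (x, p.2)) p.1

private lemma a_dz_eq_U7b {G : ℂ × ℂ → ℂ} {p : ℂ × ℂ} (h : DifferentiableAt ℂ G p) :
    dz G p = fderiv ℂ G p (0, 1) := by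
  have h1 : HasDerivAt (fun y : ℂ => ((p.1, y) : ℂ × ℂ)) (0, 1) p.2 :=
    (hasDerivAt_const p.2 p.1).prodMk (hasDerivAt_id p.2)
  have h2 : HasFDerivAt G (fderiv ℂ G p) (p.1, p.2) := h.hasFDerivAt
  exact (h2.comp_hasDerivAt p.2 h1).deriv

private lemma a_dw_eq_U7b {G : ℂ × ℂ → ℂ} {p : ℂ × ℂ} (h : DifferentiableAt ℂ G p) :
    dwa_U7b G p = fderiv ℂ G p (1, 0) := by
  have h1 : HasDerivAt (fun x : ℂ => ((x, p.2) : ℂ × ℂ)) (1, 0) p.1 :=
    (hasDerivAt_id p.1).prodMk (hasDerivAt_const p.1 p.2)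
  have h2 : HasFDerivAt G (fderiv ℂ G p) (p.1, p.2) := h.hasFDerivAt
  exact (h2.comp_hasDerivAt p.1 h1).deriv

private lemma a_fd_U7b {G : ℂ × ℂ → ℂ} {U : Set (ℂ × ℂ)} (hU : IsOpen U) (hG : AnalyticOnNhd ℂ G U)
    (v : ℂ × ℂ) : AnalyticOnNhd ℂ (fun p => fderiv ℂ G p v) U := by
  have h1 := hG.fderiv
  exact (ContinuousLinearMap.apply ℂ ℂ v).comp_analyticOnNhd h1

private lemma a_dz_an_U7b {G : ℂ × ℂ → ℂ} {U : Set (ℂ × ℂ)} (hU : IsOpen U)
    (hG : AnalyticOnNhd ℂ G U) : AnalyticOnNhd ℂ (dz G) U :=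
  (a_fd_U7b hU hG (0, 1)).congr hU (fun p hp => (a_dz_eq_U7b (hG p hp).differentiableAt).symm)

private lemma a_dw_an_U7b {G : ℂ × ℂ → ℂ} {U : Set (ℂ × ℂ)} (hU : IsOpen U)
    (hG : AnalyticOnNhd ℂ G U) : AnalyticOnNhd ℂ (dwa_U7b G) U :=
  (a_fd_U7b hU hG (1, 0)).congr hU (fun p hp => (a_dw_eq_U7b (hG p hp).differentiableAt).symm)

private lemma a_fd_fd_U7b {G : ℂ × ℂ → ℂ} {U : Set (ℂ × ℂ)} (hU : IsOpen U) (hG : AnalyticOnNhd ℂ G U)
    {p : ℂ × ℂ} (hp : p ∈ U) (v w : ℂ × ℂ) :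
    fderiv ℂ (fun q => fderiv ℂ G q v) p w = fderiv ℂ (fderiv ℂ G) p w v := by
  have h1 : DifferentiableAt ℂ (fderiv ℂ G) p := (hG.fderiv p hp).differentiableAt
  have h2 : HasFDerivAt (fun q => fderiv ℂ G q v)
      ((ContinuousLinearMap.apply ℂ ℂ v).comp (fderiv ℂ (fderiv ℂ G) p)) p :=
    (ContinuousLinearMap.apply ℂ ℂ v).hasFDerivAt.comp p h1.hasFDerivAt
  rw [h2.fderiv]
  rfl

private lemma a_comm_U7b {G : ℂ × ℂ → ℂ} {U : Set (ℂ × ℂ)} (hU : IsOpen U)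
    (hG : AnalyticOnNhd ℂ G U) : EqOn (dwa_U7b (dz G)) (dz (dwa_U7b G)) U := by
  intro p hp
  have h1 : dz G =ᶠ[𝓝 p] fun q => fderiv ℂ G q (0, 1) := by
    filter_upwards [hU.mem_nhds hp] with q hq
    exact a_dz_eq_U7b (hG q hq).differentiableAt
  have h2 : dwa_U7b G =ᶠ[𝓝 p] fun q => fderiv ℂ G q (1, 0) := by
    filter_upwards [hU.mem_nhds hp] with q hq
    exact a_dw_eq_U7b (hG q hq).differentiableAt
  rw [a_dw_eq_U7b ((a_dz_an_U7b hU hG) p hp).differentiableAt,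
    a_dz_eq_U7b ((a_dw_an_U7b hU hG) p hp).differentiableAt, h1.fderiv_eq, h2.fderiv_eq,
    a_fd_fd_U7b hU hG hp, a_fd_fd_U7b hU hG hp]
  have h3 : IsSymmSndFDerivAt ℂ G p := by
    have h4 : ContDiffAt ℂ ⊤ G p := (hG p hp).contDiffAt
    exact h4.isSymmSndFDerivAt (by simp)
  exact h3 (1, 0) (0, 1)

private lemma a_dz_congr_U7b {G H : ℂ × ℂ → ℂ} {U : Set (ℂ × ℂ)} (hU : IsOpen U) (h : EqOn G H U) :
    EqOn (dz G) (dz H) U := by
  intro p hp
  have h1 : (fun y : ℂ => G (p.1, y)) =ᶠ[𝓝 p.2] fun y : ℂ => H (p.1, y) := by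
    have hc : Tendsto (fun y : ℂ => ((p.1, y) : ℂ × ℂ)) (𝓝 p.2) (𝓝 p) := by
      have : Continuous (fun y : ℂ => ((p.1, y) : ℂ × ℂ)) := by fun_prop
      exact this.tendsto p.2
    filter_upwards [hc (hU.mem_nhds hp)] with y hy
    exact h hy
  exact h1.deriv_eq

private lemma a_dw_congr_U7b {G H : ℂ × ℂ → ℂ} {U : Set (ℂ × ℂ)} (hU : IsOpen U) (h : EqOn G H U) :
    EqOn (dwa_U7b G) (dwa_U7b H) U := by
  intro p hp
  have h1 : (fun x : ℂ => G (x, p.2)) =ᶠ[𝓝 p.1] fun x : ℂ => H (x, p.2) := by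
    have hc : Tendsto (fun x : ℂ => ((x, p.2) : ℂ × ℂ)) (𝓝 p.1) (𝓝 p) := by
      have : Continuous (fun x : ℂ => ((x, p.2) : ℂ × ℂ)) := by fun_prop
      exact this.tendsto p.1
    filter_upwards [hc (hU.mem_nhds hp)] with y hy
    exact h hy
  exact h1.deriv_eq

private lemma a_dz_iter_an_U7b {G : ℂ × ℂ → ℂ} {U : Set (ℂ × ℂ)} (hU : IsOpen U)
    (hG : AnalyticOnNhd ℂ G U) (d : ℕ) : AnalyticOnNhd ℂ (dz^[d] G) U := by
  induction d with
  | zero => exact hG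
  | succ d ih =>
    rw [Function.iterate_succ_apply']
    exact a_dz_an_U7b hU ih

private lemma a_dw_iter_an_U7b {G : ℂ × ℂ → ℂ} {U : Set (ℂ × ℂ)} (hU : IsOpen U)
    (hG : AnalyticOnNhd ℂ G U) (d : ℕ) : AnalyticOnNhd ℂ (dwa_U7b^[d] G) U := by
  induction d with
  | zero => exact hG
  | succ d ih =>
    rw [Function.iterate_succ_apply']
    exact a_dw_an_U7b hU ih

private lemma a_dz_iter_U7b (G : ℂ × ℂ → ℂ) (d : ℕ) (ζ : ℂ) :
    ∀ η, (dz^[d] G) (ζ, η) = iteratedDeriv d (fun y => G (ζ, y)) η := by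
  induction d with
  | zero => intro η; simp
  | succ d ih =>
    intro η
    rw [Function.iterate_succ_apply', iteratedDeriv_succ]
    show deriv (fun y => (dz^[d] G) (ζ, y)) η = deriv (iteratedDeriv d (fun y => G (ζ, y))) η
    congr 1
    funext y
    exact ih y

private lemma a_dw_iter_U7b (G : ℂ × ℂ → ℂ) (d : ℕ) (η : ℂ) :
    ∀ ζ, (dwa_U7b^[d] G) (ζ, η) = iteratedDeriv d (fun x => G (x, η)) ζ := by
  induction d with
  | zero => intro ζ; simp
  | succ d ih =>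
    intro ζ
    rw [Function.iterate_succ_apply', iteratedDeriv_succ]
    show deriv (fun x => (dwa_U7b^[d] G) (x, η)) ζ = deriv (iteratedDeriv d (fun x => G (x, η))) ζ
    congr 1
    funext y
    exact ih y

private lemma a_comm1_U7b {G : ℂ × ℂ → ℂ} {U : Set (ℂ × ℂ)} (hU : IsOpen U)
    (hG : AnalyticOnNhd ℂ G U) (d : ℕ) : EqOn (dwa_U7b (dz^[d] G)) (dz^[d] (dwa_U7b G)) U := by
  induction d with
  | zero => intro p _; rfl
  | succ d ih =>
    intro p hp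
    rw [Function.iterate_succ_apply', Function.iterate_succ_apply']
    rw [a_comm_U7b hU (a_dz_iter_an_U7b hU hG d) hp]
    exact a_dz_congr_U7b hU ih hp

private lemma a_comm2_U7b {G : ℂ × ℂ → ℂ} {U : Set (ℂ × ℂ)} (hU : IsOpen U)
    (hG : AnalyticOnNhd ℂ G U) (d n : ℕ) :
    EqOn (dwa_U7b^[n] (dz^[d] G)) (dz^[d] (dwa_U7b^[n] G)) U := by
  induction n with
  | zero => intro p _; rfl
  | succ n ih =>
    intro p hp
    rw [Function.iterate_succ_apply', Function.iterate_succ_apply']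
    rw [a_dw_congr_U7b hU ih hp]
    exact a_comm1_U7b hU (a_dw_iter_an_U7b hU hG n) d hp

private lemma a_iter_div_U7b (n : ℕ) (G : ℂ → ℂ) (a : ℂ) :
    ∀ x, iteratedDeriv n (fun y => G y / a) x = iteratedDeriv n G x / a := by
  induction n with
  | zero => intro x; simp
  | succ n ih =>
    intro x
    rw [iteratedDeriv_succ, iteratedDeriv_succ]
    have h : iteratedDeriv n (fun y => G y / a) = fun y => iteratedDeriv n G y / a := by
      funext y
      exact ih y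
    rw [h, deriv_div_const]

private lemma a_pos_U7b (κ : ℝ) (c : ℂ) (m : ℕ) : ∀ v : ℂ → ℂ, DifferentiableOn ℂ v (ball 0 κ) →
    (∀ n < m, iteratedDeriv n v 0 = 0) →
    (∀ w ∈ ball (0 : ℂ) κ, 0 < (c * iteratedDeriv m v w).re) →
    ∀ w ∈ ball (0 : ℂ) κ, w ≠ 0 → 0 < (c * (v w / w ^ m)).re := by
  induction m with
  | zero =>
    intro v _ _ h w hw _
    have := h w hw
    rw [iteratedDeriv_zero] at this
    simpa using this
  | succ m ih =>
    intro v hv h0 hp w hw hw0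
    have h1 := ih (deriv v) (hv.deriv isOpen_ball)
      (fun n hn => by rw [← iteratedDeriv_succ']; exact h0 (n + 1) (by omega))
      (fun x hx => by rw [← iteratedDeriv_succ']; exact hp x hx)
    have hv0 : v 0 = 0 := by
      have := h0 0 (by omega)
      rwa [iteratedDeriv_zero] at this
    have hwn : ‖w‖ < κ := by simpa using hw
    have hin : ∀ t : ℝ, t ∈ Icc (0 : ℝ) 1 → (t : ℂ) * w ∈ ball (0 : ℂ) κ := by
      intro t ht
      rw [mem_ball_zero_iff, norm_mul, Complex.norm_real, Real.norm_of_nonneg ht.1]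
      calc t * ‖w‖ ≤ 1 * ‖w‖ := mul_le_mul_of_nonneg_right ht.2 (norm_nonneg _)
        _ = ‖w‖ := one_mul _
        _ < κ := hwn
    set φ : ℝ → ℝ := fun t => (c * (v ((t : ℂ) * w) / w ^ (m + 1))).re with hφ
    have hder : ∀ t : ℝ, t ∈ Icc (0 : ℝ) 1 →
        HasDerivAt φ ((c * (deriv v ((t : ℂ) * w) * w / w ^ (m + 1))).re) t := by
      intro t ht
      have h2 : HasDerivAt v (deriv v ((t : ℂ) * w)) ((t : ℂ) * w) :=
        (hv.differentiableAt (isOpen_ball.mem_nhds (hin t ht))).hasDerivAt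
      have h3 : HasDerivAt (fun s : ℂ => s * w) (1 * w) (t : ℂ) := (hasDerivAt_id (t : ℂ)).mul_const w
      have h4 : HasDerivAt (fun s : ℂ => v (s * w)) (deriv v ((t : ℂ) * w) * (1 * w)) (t : ℂ) :=
        HasDerivAt.comp (t : ℂ) h2 h3
      have h5 : HasDerivAt (fun s : ℂ => c * (v (s * w) / w ^ (m + 1)))
          (c * (deriv v ((t : ℂ) * w) * (1 * w) / w ^ (m + 1))) (t : ℂ) :=
        (h4.div_const _).const_mul c
      rw [one_mul] at h5
      exact h5.real_of_complex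
    have hmono : StrictMonoOn φ (Icc (0 : ℝ) 1) := by
      refine strictMonoOn_of_deriv_pos (convex_Icc 0 1) ?_ ?_
      · intro t ht
        exact (hder t ht).continuousAt.continuousWithinAt
      · intro t ht
        rw [interior_Icc] at ht
        have ht' : t ∈ Icc (0 : ℝ) 1 := ⟨ht.1.le, ht.2.le⟩
        rw [(hder t ht').deriv]
        have ht0 : (t : ℂ) ≠ 0 := by
          exact_mod_cast ht.1.ne'
        have h6 := h1 ((t : ℂ) * w) (hin t ht') (mul_ne_zero ht0 hw0)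
        have h7 : c * (deriv v ((t : ℂ) * w) * w / w ^ (m + 1)) =
            ((t ^ m : ℝ) : ℂ) * (c * (deriv v ((t : ℂ) * w) / ((t : ℂ) * w) ^ m)) := by
          have hm0 : ((t : ℂ) * w) ^ m ≠ 0 := pow_ne_zero _ (mul_ne_zero ht0 hw0)
          have hw1 : w ^ (m + 1) ≠ 0 := pow_ne_zero _ hw0
          push_cast
          field_simp
          rw [mul_pow]
          ring
        rw [h7, Complex.re_ofReal_mul]
        exact mul_pos (pow_pos ht.1 m) h6
    have h8 := hmono (left_mem_Icc.mpr zero_le_one) (right_mem_Icc.mpr zero_le_one) zero_lt_one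
    have h9 : φ 0 = 0 := by
      simp [hφ, hv0]
    have h10 : φ 1 = (c * (v w / w ^ (m + 1))).re := by
      simp [hφ]
    rw [h9, h10] at h8
    exact h8

private lemma a_taylor_zero_U7b {f : ℂ → ℂ} {r : ℝ} (hf : DifferentiableOn ℂ f (ball 0 r))
    (h : ∀ n, iteratedDeriv n f 0 = 0) : ∀ z ∈ ball (0 : ℂ) r, f z = 0 := by
  intro z hz
  have h1 := Complex.hasSum_taylorSeries_on_ball hf hz
  have h2 : (fun n : ℕ => (n.factorial : ℂ)⁻¹ • (z - 0) ^ n • iteratedDeriv n f 0) = fun _ => 0 := by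
    funext n
    rw [h n, smul_zero, smul_zero]
  rw [h2] at h1
  exact h1.unique hasSum_zero

/-- **TARGET 1** -/
theorem factor {F : ℂ × ℂ → ℂ} (hF : AnalyticAt ℂ F ((0 : ℂ), (0 : ℂ))) :
    (∃ κ : ℝ, 0 < κ ∧ ∀ ζ η : ℂ, ‖ζ‖ < κ → ‖η‖ < κ → dz F (ζ, η) = 0) ∨
    ∃ (κ : ℝ) (m d : ℕ) (c : ℂ) (g : ℂ → ℂ → ℂ), 0 < κ ∧ 1 ≤ d ∧ ∀ ζ : ℂ, ‖ζ‖ < κ →
      DifferentiableOn ℂ (g ζ) (ball 0 κ) ∧
      (∀ η ∈ ball (0 : ℂ) κ, F (ζ, η) = F (ζ, 0) + ζ ^ m * g ζ η) ∧
      ∀ η ∈ ball (0 : ℂ) κ, 0 < (c * iteratedDeriv d (g ζ) η).re := by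
  classical
  obtain ⟨r, hr, hFr⟩ := hF.exists_ball_analyticOnNhd
  rw [← ball_prod_same] at hFr
  set U : Set (ℂ × ℂ) := ball (0 : ℂ) r ×ˢ ball (0 : ℂ) r with hUdef
  have hU : IsOpen U := isOpen_ball.prod isOpen_ball
  have h0r : (0 : ℂ) ∈ ball (0 : ℂ) r := mem_ball_self hr
  have hpre : IsPreconnected (ball (0 : ℂ) r) := (convex_ball (0 : ℂ) r).isPreconnected
  -- the function `u`
  set u : ℂ × ℂ → ℂ := fun p => F p - F (p.1, 0) with hu
  have hu_an : AnalyticOnNhd ℂ u U := by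
    refine hFr.sub ?_
    have h1 : AnalyticOnNhd ℂ (fun p : ℂ × ℂ => ((p.1, (0 : ℂ)) : ℂ × ℂ)) U :=
      AnalyticOnNhd.prod (analyticOnNhd_fst) analyticOnNhd_const
    exact hFr.comp h1 (fun p hp => ⟨hp.1, h0r⟩)
  have hline : ∀ {G : ℂ × ℂ → ℂ}, AnalyticOnNhd ℂ G U → ∀ ζ ∈ ball (0 : ℂ) r,
      AnalyticOnNhd ℂ (fun y => G (ζ, y)) (ball 0 r) := by
    intro G hG ζ hζ
    have h1 : AnalyticOnNhd ℂ (fun y : ℂ => ((ζ, y) : ℂ × ℂ)) (ball 0 r) :=
      AnalyticOnNhd.prod analyticOnNhd_const analyticOnNhd_id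
    exact hG.comp h1 (fun y hy => ⟨hζ, hy⟩)
  have hline' : ∀ {G : ℂ × ℂ → ℂ}, AnalyticOnNhd ℂ G U → ∀ η ∈ ball (0 : ℂ) r,
      AnalyticOnNhd ℂ (fun x => G (x, η)) (ball 0 r) := by
    intro G hG η hη
    have h1 : AnalyticOnNhd ℂ (fun x : ℂ => ((x, η) : ℂ × ℂ)) (ball 0 r) :=
      AnalyticOnNhd.prod analyticOnNhd_id analyticOnNhd_const
    exact hG.comp h1 (fun y hy => ⟨hy, hη⟩)
  by_cases hall : ∀ m : ℕ, ∀ᶠ η in 𝓝 (0 : ℂ), (dwa_U7b^[m] u) (0, η) = 0
  · left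
    refine ⟨r, hr, ?_⟩
    have hzero : ∀ m : ℕ, ∀ η ∈ ball (0 : ℂ) r, (dwa_U7b^[m] u) (0, η) = 0 := by
      intro m η hη
      have h1 := hline (a_dw_iter_an_U7b hU hu_an m) 0 h0r
      exact h1.eqOn_zero_of_preconnected_of_eventuallyEq_zero hpre h0r (hall m) hη
    have hu0 : ∀ ζ ∈ ball (0 : ℂ) r, ∀ η ∈ ball (0 : ℂ) r, u (ζ, η) = 0 := by
      intro ζ hζ η hη
      refine a_taylor_zero_U7b (f := fun x => u (x, η)) (hline' hu_an η hη).differentiableOn ?_ ζ hζ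
      intro n
      rw [← a_dw_iter_U7b]
      exact hzero n η hη
    intro ζ η hζ hη
    have hζ' : ζ ∈ ball (0 : ℂ) r := by simpa using hζ
    have hη' : η ∈ ball (0 : ℂ) r := by simpa using hη
    show deriv (fun y : ℂ => F (ζ, y)) η = 0
    have h1 : (fun y : ℂ => F (ζ, y)) =ᶠ[𝓝 η] fun _ => F (ζ, 0) := by
      filter_upwards [isOpen_ball.mem_nhds hη'] with y hy
      have := hu0 ζ hζ' y hy
      exact sub_eq_zero.mp this
    rw [h1.deriv_eq, deriv_const]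
  · right
    rw [not_forall] at hall
    have hm := Nat.find_spec hall
    have hmin := fun n (hn : n < Nat.find hall) => Nat.find_min hall hn
    set m := Nat.find hall with hmdef
    have hlow : ∀ n < m, ∀ η ∈ ball (0 : ℂ) r, (dwa_U7b^[n] u) (0, η) = 0 := by
      intro n hn η hη
      have h1 := hline (a_dw_iter_an_U7b hU hu_an n) 0 h0r
      have h2 := hmin n hn
      rw [not_not] at h2
      exact h1.eqOn_zero_of_preconnected_of_eventuallyEq_zero hpre h0r h2 hη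
    set a : ℂ → ℂ := fun η => (dwa_U7b^[m] u) (0, η) with ha
    have ha_an : AnalyticOnNhd ℂ a (ball 0 r) := hline (a_dw_iter_an_U7b hU hu_an m) 0 h0r
    have ha0 : a 0 = 0 := by
      show (dwa_U7b^[m] u) (0, 0) = 0
      rw [a_dw_iter_U7b]
      have h1 : (fun x : ℂ => u (x, 0)) = fun _ => (0 : ℂ) := by
        funext x
        simp [hu]
      rw [h1]
      rcases Nat.eq_zero_or_pos m with h2 | h2
      · rw [h2, iteratedDeriv_zero]
      · rw [iteratedDeriv_const]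
        simp
    obtain ⟨d, hd1, hd⟩ : ∃ d, 1 ≤ d ∧ iteratedDeriv d a 0 ≠ 0 := by
      by_contra hcon
      push Not at hcon
      have h1 : ∀ z ∈ ball (0 : ℂ) r, a z = 0 := by
        refine a_taylor_zero_U7b ha_an.differentiableOn ?_
        intro n
        rcases Nat.eq_zero_or_pos n with h2 | h2
        · rw [h2, iteratedDeriv_zero]
          exact ha0
        · exact hcon n h2
      apply hm
      filter_upwards [isOpen_ball.mem_nhds h0r] with η hη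
      exact h1 η hη
    set β : ℂ := iteratedDeriv d a 0 with hβ
    set B : ℂ × ℂ → ℂ := dz^[d] (dwa_U7b^[m] u) with hB
    have hB_an : AnalyticOnNhd ℂ B U := a_dz_iter_an_U7b hU (a_dw_iter_an_U7b hU hu_an m) d
    have hB0 : B (0, 0) = β := by
      rw [hB, a_dz_iter_U7b]
    have hBc : ContinuousAt B (0, 0) := (hB_an (0, 0) ⟨h0r, h0r⟩).continuousAt
    have hev : ∀ᶠ p in 𝓝 ((0 : ℂ), (0 : ℂ)), 0 < ((starRingEnd ℂ) β * B p).re := by
      have h1 : ContinuousAt (fun p => ((starRingEnd ℂ) β * B p).re) (0, 0) :=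
        Complex.continuous_re.continuousAt.comp (continuousAt_const.mul hBc)
      refine h1.eventually (lt_mem_nhds ?_)
      show 0 < ((starRingEnd ℂ) β * B (0, 0)).re
      rw [hB0, mul_comm, Complex.mul_conj]
      rw [Complex.ofReal_re]
      exact Complex.normSq_pos.mpr hd
    obtain ⟨κ, hκ, hκB⟩ := Metric.eventually_nhds_iff_ball.mp
      (hev.and (hU.mem_nhds (⟨h0r, h0r⟩ : ((0 : ℂ), (0 : ℂ)) ∈ U)))
    rw [← ball_prod_same] at hκB
    have hκU : ∀ ζ ∈ ball (0 : ℂ) κ, ∀ η ∈ ball (0 : ℂ) κ, (ζ, η) ∈ U := by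
      intro ζ hζ η hη
      exact (hκB (ζ, η) ⟨hζ, hη⟩).2
    have hκpos : ∀ ζ ∈ ball (0 : ℂ) κ, ∀ η ∈ ball (0 : ℂ) κ,
        0 < ((starRingEnd ℂ) β * B (ζ, η)).re := by
      intro ζ hζ η hη
      exact (hκB (ζ, η) ⟨hζ, hη⟩).1
    have h0κ : (0 : ℂ) ∈ ball (0 : ℂ) κ := mem_ball_self hκ
    have hκr : ball (0 : ℂ) κ ⊆ ball (0 : ℂ) r := fun ζ hζ => (hκU ζ hζ 0 h0κ).1
    refine ⟨κ, m, d, (starRingEnd ℂ) β, fun ζ η => if ζ = 0 then a η else u (ζ, η) / ζ ^ m,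
      hκ, hd1, ?_⟩
    intro ζ hζ
    have hζ' : ζ ∈ ball (0 : ℂ) κ := by simpa using hζ
    by_cases hζ0 : ζ = 0
    · subst hζ0
      simp only [if_true]
      refine ⟨(ha_an.differentiableOn).mono hκr, ?_, ?_⟩
      · intro η hη
        rcases Nat.eq_zero_or_pos m with h2 | h2
        · have h3 : a η = u (0, η) := by
            show (dwa_U7b^[m] u) (0, η) = u (0, η)
            rw [h2]
            rfl
          rw [h3, h2]
          simp [hu]
        · have h3 : u (0, η) = 0 := hlow 0 h2 η (hκr hη)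
          rw [zero_pow (by omega)]
          have h4 : F (0, η) - F (0, 0) = 0 := h3
          linear_combination h4
      · intro η hη
        have h3 : iteratedDeriv d a η = B (0, η) := by
          rw [hB, a_dz_iter_U7b]
        rw [h3]
        exact hκpos 0 hζ' η hη
    · simp only [if_neg hζ0]
      refine ⟨?_, ?_, ?_⟩
      · have h1 := (hline hu_an ζ (hκr hζ')).differentiableOn.mono hκr
        exact h1.div_const _
      · intro η hη
        have h1 : ζ ^ m ≠ 0 := pow_ne_zero _ hζ0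
        rw [mul_div_cancel₀ _ h1]
        show F (ζ, η) = F (ζ, 0) + (F (ζ, η) - F (ζ, 0))
        ring
      · intro η hη
        rw [a_iter_div_U7b]
        have h1 := a_pos_U7b κ ((starRingEnd ℂ) β) m (fun x => (dz^[d] u) (x, η))
          (((hline' (a_dz_iter_an_U7b hU hu_an d) η (hκr hη)).differentiableOn).mono hκr) ?_ ?_ ζ hζ' hζ0
        · rw [← a_dz_iter_U7b]
          exact h1
        · intro n hn
          rw [← a_dw_iter_U7b, a_comm2_U7b hU hu_an d n (⟨h0r, hκr hη⟩ : ((0 : ℂ), η) ∈ U), a_dz_iter_U7b]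
          have h2 : (fun y : ℂ => (dwa_U7b^[n] u) (0, y)) =ᶠ[𝓝 η] fun _ => (0 : ℂ) := by
            filter_upwards [isOpen_ball.mem_nhds (hκr hη)] with y hy
            exact hlow n hn y hy
          rw [h2.iteratedDeriv_eq d, iteratedDeriv_const]
          simp
        · intro w hw
          rw [← a_dw_iter_U7b, a_comm2_U7b hU hu_an d m (hκU w hw η hη)]
          exact hκpos w hw η hη

/-- **TARGET 2** -/
theorem area_le {F : ℂ × ℂ → ℂ} (hF : AnalyticAt ℂ F ((0 : ℂ), (0 : ℂ))) :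
    ∃ κ L : ℝ, 0 < κ ∧ 0 ≤ L ∧ ∀ (ζ b : ℂ) (h : ℝ), ‖ζ‖ < κ → 0 < h →
      ∫⁻ η in {η : ℂ | ‖η‖ < κ ∧ ‖F (ζ, η) - b‖ < h}, ENNReal.ofReal (‖dz F (ζ, η)‖ ^ 2) ≤
        ENNReal.ofReal (L * h ^ 2) := by
  have hz : ∀ (κ : ℝ) (ζ b : ℂ) (h : ℝ), (∀ η : ℂ, ‖η‖ < κ → dz F (ζ, η) = 0) →
      ∫⁻ η in {η : ℂ | ‖η‖ < κ ∧ ‖F (ζ, η) - b‖ < h}, ENNReal.ofReal (‖dz F (ζ, η)‖ ^ 2) = 0 := by
    intro κ ζ b h h0
    have h1 : ∫⁻ η in ball (0 : ℂ) κ, ENNReal.ofReal (‖dz F (ζ, η)‖ ^ 2) = 0 := by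
      rw [setLIntegral_congr_fun (g := fun _ => 0) measurableSet_ball]
      · simp
      · intro η hη
        have h2 : ‖η‖ < κ := by simpa using hη
        simp [h0 η h2]
    refine le_antisymm ?_ (zero_le)
    rw [← h1]
    refine lintegral_mono_set ?_
    intro η hη
    simpa using hη.1
  rcases factor hF with ⟨κ, hκ, h0⟩ | ⟨κ, m, d, c, g, hκ, hd, hg⟩
  · refine ⟨κ, 0, hκ, le_rfl, ?_⟩
    intro ζ b h hζ hh
    rw [hz κ ζ b h (fun η hη => h0 ζ η hζ hη)]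
    exact zero_le
  · refine ⟨κ, d * Real.pi, hκ, by positivity, ?_⟩
    intro ζ b h hζ hh
    obtain ⟨hg1, hg2, hg3⟩ := hg ζ hζ
    have hdz : ∀ η ∈ ball (0 : ℂ) κ, dz F (ζ, η) = ζ ^ m * deriv (g ζ) η := by
      intro η hη
      show deriv (fun y : ℂ => F (ζ, y)) η = _
      have h1 : (fun y : ℂ => F (ζ, y)) =ᶠ[𝓝 η] fun y => F (ζ, 0) + ζ ^ m * g ζ y := by
        filter_upwards [isOpen_ball.mem_nhds hη] with y hy
        exact hg2 y hy
      have h2 : HasDerivAt (g ζ) (deriv (g ζ) η) η :=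
        (hg1.differentiableAt (isOpen_ball.mem_nhds hη)).hasDerivAt
      rw [h1.deriv_eq, ((h2.const_mul (ζ ^ m)).const_add (F (ζ, 0))).deriv]
    by_cases hζm : ζ ^ m = 0
    · rw [hz κ ζ b h]
      · exact zero_le
      · intro η hη
        rw [hdz η (by simpa using hη), hζm, zero_mul]
    · have hpos : 0 < ‖ζ ^ m‖ := norm_pos_iff.mpr hζm
      have hset : {η : ℂ | ‖η‖ < κ ∧ ‖F (ζ, η) - b‖ < h} =
          ball (0 : ℂ) κ ∩ (g ζ) ⁻¹' (ball ((b - F (ζ, 0)) / ζ ^ m) (h / ‖ζ ^ m‖)) := by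
        ext η
        have hiff : ∀ _ : η ∈ ball (0 : ℂ) κ, (‖F (ζ, η) - b‖ < h ↔
            ‖g ζ η - (b - F (ζ, 0)) / ζ ^ m‖ < h / ‖ζ ^ m‖) := by
          intro hη
          rw [hg2 η hη, lt_div_iff₀ hpos, ← norm_mul]
          have h3 : (g ζ η - (b - F (ζ, 0)) / ζ ^ m) * ζ ^ m = F (ζ, 0) + ζ ^ m * g ζ η - b := by
            field_simp
            ring
          rw [h3]
        constructor
        · rintro ⟨h1, h2⟩
          have h4 : η ∈ ball (0 : ℂ) κ := by simpa using h1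
          refine ⟨h4, ?_⟩
          rw [mem_preimage, mem_ball, dist_eq_norm]
          exact (hiff h4).1 h2
        · rintro ⟨h1, h2⟩
          rw [mem_preimage, mem_ball, dist_eq_norm] at h2
          exact ⟨by simpa using h1, (hiff h1).2 h2⟩
      have hmeas : MeasurableSet
          (ball (0 : ℂ) κ ∩ (g ζ) ⁻¹' (ball ((b - F (ζ, 0)) / ζ ^ m) (h / ‖ζ ^ m‖))) :=
        (hg1.continuousOn.isOpen_inter_preimage isOpen_ball isOpen_ball).measurableSet
      rw [hset]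
      have h5 : ∫⁻ η in ball (0 : ℂ) κ ∩ (g ζ) ⁻¹' (ball ((b - F (ζ, 0)) / ζ ^ m) (h / ‖ζ ^ m‖)),
            ENNReal.ofReal (‖dz F (ζ, η)‖ ^ 2) =
          ∫⁻ η in ball (0 : ℂ) κ ∩ (g ζ) ⁻¹' (ball ((b - F (ζ, 0)) / ζ ^ m) (h / ‖ζ ^ m‖)),
            ENNReal.ofReal (‖ζ ^ m‖ ^ 2) * ENNReal.ofReal (‖deriv (g ζ) η‖ ^ 2) := by
        refine setLIntegral_congr_fun hmeas ?_
        intro η hη
        show ENNReal.ofReal (‖dz F (ζ, η)‖ ^ 2) = _
        rw [hdz η hη.1, norm_mul, mul_pow, ENNReal.ofReal_mul (by positivity)]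
      rw [h5, lintegral_const_mul' _ _ ENNReal.ofReal_ne_top]
      have h6 := area_val isOpen_ball hg1 (d := d)
        (fun ω s hs => valence hd hg1 hg3 ω s hs)
        (measurableSet_ball (x := (b - F (ζ, 0)) / ζ ^ m) (ε := h / ‖ζ ^ m‖))
      refine (mul_le_mul_right h6 _).trans ?_
      rw [Complex.volume_ball]
      have h7 : (↑NNReal.pi : ENNReal) = ENNReal.ofReal Real.pi := by
        rw [← NNReal.coe_real_pi, ENNReal.ofReal_coe_nnreal]
      rw [h7, ← ENNReal.ofReal_pow (by positivity), ← ENNReal.ofReal_mul (by positivity),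
        ← ENNReal.ofReal_natCast, ← ENNReal.ofReal_mul (by positivity),
        ← ENNReal.ofReal_mul (by positivity)]
      refine ENNReal.ofReal_le_ofReal (le_of_eq ?_)
      field_simp

end Pool.Agent.P157C
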