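import Mathlib
import Pool.Agent.P157C.Defs

set_option autoImplicit false

open MeasureTheory Metric Set Filter Topology Complex

namespace Pool.Agent.P157C

theorem coord_lin_apply (D : ℂ × ℂ →L[ℂ] ℂ) (u v : ℂ) : D (u, v) = u * D (1, 0) + v * D (0, 1) := by
  have h : ((u, v) : ℂ × ℂ) = u • ((1 : ℂ), (0 : ℂ)) + v • ((0 : ℂ), (1 : ℂ)) := by
    ext <;> simp
  rw [h, map_add, map_smul, map_smul, smul_eq_mul, smul_eq_mul]

/-- the derivative of `(a, b) ↦ (W (a, b), b)` as an equivalence -/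
noncomputable def coord_lin (D : ℂ × ℂ →L[ℂ] ℂ) (h : D (1, 0) ≠ 0) : (ℂ × ℂ) ≃L[ℂ] (ℂ × ℂ) :=
  ContinuousLinearEquiv.equivOfInverse (D.prod (ContinuousLinearMap.snd ℂ ℂ ℂ))
    (((D (1, 0))⁻¹ • (ContinuousLinearMap.fst ℂ ℂ ℂ - (D (0, 1)) • ContinuousLinearMap.snd ℂ ℂ ℂ)).prod
      (ContinuousLinearMap.snd ℂ ℂ ℂ))
    (by
      rintro ⟨u, v⟩
      ext
      · simp [coord_lin_apply D u v]
        field_simp
        ring
      · simp)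
    (by
      rintro ⟨u, v⟩
      ext
      · simp only [ContinuousLinearMap.prod_apply, smul_apply, sub_apply,
          ContinuousLinearMap.coe_fst', ContinuousLinearMap.coe_snd', smul_eq_mul]
        rw [coord_lin_apply]
        field_simp
        ring
      · simp)

theorem coord_dz {z : ℂ × ℂ → ℂ} {p : ℂ × ℂ} (h : DifferentiableAt ℂ z p) :
    dz z p = fderiv ℂ z p (0, 1) := by
  have h1 : HasDerivAt (fun y : ℂ => ((p.1, y) : ℂ × ℂ)) ((0 : ℂ), (1 : ℂ)) p.2 :=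
    (hasDerivAt_const p.2 p.1).prodMk (hasDerivAt_id p.2)
  have h2 : HasFDerivAt z (fderiv ℂ z p) ((fun y : ℂ => ((p.1, y) : ℂ × ℂ)) p.2) := h.hasFDerivAt
  exact (h2.comp_hasDerivAt p.2 h1).deriv

/-- **TARGET** -/
theorem coord {W : ℂ × ℂ → ℂ} {O : Set (ℂ × ℂ)} (hO : IsOpen O) (h1 : ((1 : ℂ), (0 : ℂ)) ∈ O)
    (hW : AnalyticOnNhd ℂ W O) (h0 : W (1, 0) = 0) (hd : deriv (fun a : ℂ => W (a, 0)) 1 ≠ 0)
    (hpos : ∀ q ∈ O, ‖q.1‖ ^ 2 + ‖q.2‖ ^ 2 < 1 → 0 < (W q).im) :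
    ∃ (κ L : ℝ) (z : ℂ × ℂ → ℂ), LM κ L z ∧ z (0, 0) = 1 ∧
      (∀ p : ℂ × ℂ, ‖p.1‖ < κ → ‖p.2‖ < κ → (z p, p.2) ∈ O ∧ W (z p, p.2) = p.1) ∧
      ∀ᶠ q in 𝓝 ((1 : ℂ), (0 : ℂ)), z (W q, q.2) = q.1 := by
  have hWan : AnalyticAt ℂ W (1, 0) := hW _ h1
  set D : ℂ × ℂ →L[ℂ] ℂ := fderiv ℂ W (1, 0) with hDdef
  have hWd : HasFDerivAt W D (1, 0) := hWan.differentiableAt.hasFDerivAt
  have hD10 : D (1, 0) ≠ 0 := by
    have h2 : HasDerivAt (fun a : ℂ => ((a, 0) : ℂ × ℂ)) ((1 : ℂ), (0 : ℂ)) 1 :=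
      (hasDerivAt_id (1 : ℂ)).prodMk (hasDerivAt_const 1 0)
    have h3 : HasDerivAt (fun a : ℂ => W (a, 0)) (D (1, 0)) 1 := hWd.comp_hasDerivAt 1 h2
    rw [h3.deriv] at hd
    exact hd
  let Φ : ℂ × ℂ → ℂ × ℂ := fun q => (W q, q.2)
  have hΦ : ContDiffAt ℂ 2 Φ (1, 0) := (hWan.contDiffAt).prodMk contDiffAt_snd
  have hΦd : HasFDerivAt Φ ((coord_lin D hD10 : (ℂ × ℂ) ≃L[ℂ] (ℂ × ℂ)) : ℂ × ℂ →L[ℂ] ℂ × ℂ) (1, 0) :=
    hWd.prodMk hasFDerivAt_snd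
  have hΦ0 : Φ (1, 0) = (0, 0) := by simp [Φ, h0]
  let e := hΦ.toOpenPartialHomeomorph Φ hΦd two_ne_zero
  have hesrc : ((1 : ℂ), (0 : ℂ)) ∈ e.source := hΦ.mem_toOpenPartialHomeomorph_source hΦd two_ne_zero
  have hecoe : ∀ q, e q = Φ q := fun q => rfl
  have hetgt : ((0 : ℂ), (0 : ℂ)) ∈ e.target := by
    have := e.map_source hesrc
    rw [hecoe, hΦ0] at this
    exact this
  have hes0 : e.symm (0, 0) = (1, 0) := by
    have := e.left_inv hesrc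
    rw [hecoe, hΦ0] at this
    exact this
  have hΨ : ContDiffAt ℂ 2 e.symm (0, 0) := by
    have := hΦ.to_localInverse hΦd two_ne_zero
    rw [hΦ0] at this
    exact this
  let z : ℂ × ℂ → ℂ := fun p => (e.symm p).1
  have hz0 : z (0, 0) = 1 := by simp [z, hes0]
  have hz : ContDiffAt ℂ 2 z (0, 0) := contDiffAt_fst.comp _ hΨ
  have hval : ∀ p ∈ e.target, e.symm p = (z p, p.2) ∧ W (z p, p.2) = p.1 := by
    intro p hp
    have h4 : Φ (e.symm p) = p := by rw [← hecoe]; exact e.right_inv hp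
    have h5 : (e.symm p).2 = p.2 := by
      have := congrArg Prod.snd h4
      exact this
    have h6 : W (e.symm p) = p.1 := by
      have := congrArg Prod.fst h4
      exact this
    have h7 : e.symm p = (z p, p.2) := by
      rw [← h5]
    exact ⟨h7, by rw [← h7]; exact h6⟩
  obtain ⟨K1, t1, ht1, hl1⟩ := (hz.of_le (by norm_num : (1 : WithTop ℕ∞) ≤ 2)).exists_lipschitzOnWith
  have hfz : ContDiffAt ℂ 1 (fderiv ℂ z) (0, 0) := hz.fderiv_right (by norm_num)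
  obtain ⟨K2, t2, ht2, hl2⟩ := hfz.exists_lipschitzOnWith
  obtain ⟨K3, t3, ht3, hl3⟩ := (hWan.contDiffAt (n := 1)).exists_lipschitzOnWith
  have hcont : ContinuousAt e.symm (0, 0) := hΨ.continuousAt
  have ht3O : ∀ᶠ p in 𝓝 ((0 : ℂ), (0 : ℂ)), e.symm p ∈ t3 ∩ O := by
    apply hcont.eventually
    rw [hes0]
    exact Filter.inter_mem ht3 (hO.mem_nhds h1)
  have hzc : ContinuousAt (fun p => ‖z p‖) (0, 0) := hz.continuousAt.norm
  have hzb : ∀ᶠ p in 𝓝 ((0 : ℂ), (0 : ℂ)), 1 / 2 < ‖z p‖ ∧ ‖z p‖ < 2 := by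
    have hm : Set.Ioo (1 / 2 : ℝ) 2 ∈ 𝓝 ‖z (0, 0)‖ := by
      apply Ioo_mem_nhds
      · rw [hz0]; norm_num
      · rw [hz0]; norm_num
    exact hzc hm
  have hfb : ∀ᶠ p in 𝓝 ((0 : ℂ), (0 : ℂ)), ‖fderiv ℂ z p‖ < ‖fderiv ℂ z (0, 0)‖ + 1 := by
    have hc : ContinuousAt (fun p => ‖fderiv ℂ z p‖) (0, 0) := hfz.continuousAt.norm
    have hm : Set.Iio (‖fderiv ℂ z (0, 0)‖ + 1) ∈ 𝓝 ‖fderiv ℂ z (0, 0)‖ := Iio_mem_nhds (by linarith)
    exact hc hm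
  have hzd : ∀ᶠ p in 𝓝 ((0 : ℂ), (0 : ℂ)), DifferentiableAt ℂ z p := by
    have := hz.eventually (by decide)
    filter_upwards [this] with p hp
    exact hp.differentiableAt two_ne_zero
  have hall : ∀ᶠ p in 𝓝 ((0 : ℂ), (0 : ℂ)), p ∈ e.target ∧ p ∈ t1 ∧ p ∈ t2 ∧ (e.symm p ∈ t3 ∩ O) ∧
      (1 / 2 < ‖z p‖ ∧ ‖z p‖ < 2) ∧ ‖fderiv ℂ z p‖ < ‖fderiv ℂ z (0, 0)‖ + 1 ∧ DifferentiableAt ℂ z p := by
    filter_upwards [e.open_target.mem_nhds hetgt, ht1, ht2, ht3O, hzb, hfb, hzd] with p a1 a2 a3 a4 a5 a6 a7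
    exact ⟨a1, a2, a3, a4, a5, a6, a7⟩
  obtain ⟨κ0, hκ0, hball⟩ := Metric.eventually_nhds_iff_ball.1 hall
  set κ : ℝ := min κ0 1 with hκdef
  have hκpos : 0 < κ := lt_min hκ0 one_pos
  have hB : ∀ p : ℂ × ℂ, ‖p.1‖ < κ → ‖p.2‖ < κ → p ∈ e.target ∧ p ∈ t1 ∧ p ∈ t2 ∧ (e.symm p ∈ t3 ∩ O) ∧
      (1 / 2 < ‖z p‖ ∧ ‖z p‖ < 2) ∧ ‖fderiv ℂ z p‖ < ‖fderiv ℂ z (0, 0)‖ + 1 ∧ DifferentiableAt ℂ z p := by
    intro p h4 h5
    apply hball
    rw [mem_ball, show (((0 : ℂ), (0 : ℂ)) : ℂ × ℂ) = 0 from rfl, dist_zero_right, Prod.norm_def]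
    exact max_lt (lt_of_lt_of_le h4 (min_le_left _ _)) (lt_of_lt_of_le h5 (min_le_left _ _))
  set L : ℝ := max (max 2 (K1 : ℝ)) (max (K2 : ℝ) (max (K3 : ℝ) (‖fderiv ℂ z (0, 0)‖ + 1))) with hLdef
  have hL2 : 2 ≤ L := le_trans (le_max_left _ _) (le_max_left _ _)
  have hLK1 : (K1 : ℝ) ≤ L := le_trans (le_max_right _ _) (le_max_left _ _)
  have hLK2 : (K2 : ℝ) ≤ L := le_trans (le_max_left _ _) (le_max_right _ _)
  have hLK3 : (K3 : ℝ) ≤ L := le_trans (le_trans (le_max_left _ _) (le_max_right _ _)) (le_max_right _ _)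
  have hLf : ‖fderiv ℂ z (0, 0)‖ + 1 ≤ L :=
    le_trans (le_trans (le_max_right _ _) (le_max_right _ _)) (le_max_right _ _)
  have hpq : ∀ p q : ℂ × ℂ, dist p q ≤ ‖p.1 - q.1‖ + ‖p.2 - q.2‖ := by
    intro p q
    rw [dist_eq_norm, Prod.norm_def]
    exact max_le (le_add_of_nonneg_right (norm_nonneg _)) (le_add_of_nonneg_left (norm_nonneg _))
  refine ⟨κ, L, z, ?_, hz0, ?_, ?_⟩
  · refine ⟨hκpos, min_le_right _ _, by linarith, ?_, ?_, ?_, ?_, ?_, ?_, ?_, ?_⟩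
    · rintro p ⟨h4, h5⟩
      exact (hB p h4 h5).2.2.2.2.2.2.differentiableWithinAt
    · intro p h4 h5
      exact (hB p h4 h5).2.2.2.2.1.1.le
    · intro p h4 h5
      exact le_trans (hB p h4 h5).2.2.2.2.1.2.le hL2
    · intro p q h4 h5 h6 h7
      have h8 := hl1.dist_le_mul p (hB p h4 h5).2.1 q (hB q h6 h7).2.1
      rw [dist_eq_norm] at h8
      have h9 := hpq p q
      calc ‖z p - z q‖ ≤ (K1 : ℝ) * dist p q := h8
        _ ≤ L * dist p q := mul_le_mul_of_nonneg_right hLK1 dist_nonneg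
        _ ≤ L * (‖p.1 - q.1‖ + ‖p.2 - q.2‖) := mul_le_mul_of_nonneg_left h9 (by linarith)
    · intro w w' y h4 h5 h6
      have a1 := hB (w, y) h4 h6
      have a2 := hB (w', y) h5 h6
      obtain ⟨b1, b2⟩ := hval _ a1.1
      obtain ⟨b3, b4⟩ := hval _ a2.1
      have c1 := a1.2.2.2.1.1
      have c2 := a2.2.2.2.1.1
      rw [b1] at c1
      rw [b3] at c2
      have h8 := hl3.dist_le_mul _ c1 _ c2
      rw [b2, b4, dist_eq_norm] at h8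
      have h9 : dist ((z (w, y), ((w, y) : ℂ × ℂ).2) : ℂ × ℂ) (z (w', y), ((w', y) : ℂ × ℂ).2) = ‖z (w, y) - z (w', y)‖ := by
        rw [Prod.dist_eq, dist_self, dist_eq_norm]
        exact max_eq_left (norm_nonneg _)
      rw [h9] at h8
      exact le_trans h8 (mul_le_mul_of_nonneg_right hLK3 (norm_nonneg _))
    · intro p h4 h5
      have a := hB p h4 h5
      rw [coord_dz a.2.2.2.2.2.2]
      calc ‖fderiv ℂ z p (0, 1)‖ ≤ ‖fderiv ℂ z p‖ * ‖((0 : ℂ), (1 : ℂ))‖ := ContinuousLinearMap.le_opNorm _ _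
        _ = ‖fderiv ℂ z p‖ := by simp [Prod.norm_def]
        _ ≤ L := le_trans a.2.2.2.2.2.1.le hLf
    · intro p q h4 h5 h6 h7
      have a := hB p h4 h5
      have b := hB q h6 h7
      rw [coord_dz a.2.2.2.2.2.2, coord_dz b.2.2.2.2.2.2]
      have h8 := hl2.dist_le_mul p a.2.2.1 q b.2.2.1
      rw [dist_eq_norm] at h8
      have h9 := hpq p q
      calc ‖fderiv ℂ z p (0, 1) - fderiv ℂ z q (0, 1)‖ = ‖(fderiv ℂ z p - fderiv ℂ z q) (0, 1)‖ := by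
            rw [sub_apply]
        _ ≤ ‖fderiv ℂ z p - fderiv ℂ z q‖ * ‖((0 : ℂ), (1 : ℂ))‖ := ContinuousLinearMap.le_opNorm _ _
        _ = ‖fderiv ℂ z p - fderiv ℂ z q‖ := by simp [Prod.norm_def]
        _ ≤ (K2 : ℝ) * dist p q := h8
        _ ≤ L * dist p q := mul_le_mul_of_nonneg_right hLK2 dist_nonneg
        _ ≤ L * (‖p.1 - q.1‖ + ‖p.2 - q.2‖) := mul_le_mul_of_nonneg_left h9 (by linarith)
    · intro p h4 h5 h6
      have a := hB p h4 h5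
      obtain ⟨b1, b2⟩ := hval _ a.1
      have c1 := a.2.2.2.1.2
      rw [b1] at c1
      have h7 := hpos _ c1 (by
        unfold rho at h6
        show ‖z p‖ ^ 2 + ‖p.2‖ ^ 2 < 1
        linarith)
      rw [b2] at h7
      exact h7
  · intro p h4 h5
    have a := hB p h4 h5
    obtain ⟨b1, b2⟩ := hval _ a.1
    have c1 := a.2.2.2.1.2
    rw [b1] at c1
    exact ⟨c1, b2⟩
  · filter_upwards [e.open_source.mem_nhds hesrc] with q hq
    have h4 := e.left_inv hq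
    rw [hecoe] at h4
    show (e.symm (Φ q)).1 = q.1
    rw [h4]

end Pool.Agent.P157C
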