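import Mathlib
import Pool.Agent.Y263.SC.OpX
import Pool.Agent.P157C.Defs

/-!
Secondary functions on the local model, the operator attached to them, extension from slices, local
data at a boundary point for several functions.
-/

set_option autoImplicit false

open MeasureTheory Metric Set Filter Topology Complex

namespace Pool.Agent.P157C

/-- a secondary function `F` on the local model -/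
structure SF (κ L : ℝ) (z F : ℂ × ℂ → ℂ) : Prop where
  diff : DifferentiableOn ℂ F {p | ‖p.1‖ < κ ∧ ‖p.2‖ < κ}
  bd : ∀ p : ℂ × ℂ, ‖p.1‖ < κ → ‖p.2‖ < κ → ‖F p‖ ≤ L
  lip : ∀ p q : ℂ × ℂ, ‖p.1‖ < κ → ‖p.2‖ < κ → ‖q.1‖ < κ → ‖q.2‖ < κ →
    ‖F p - F q‖ ≤ L * (‖p.1 - q.1‖ + ‖p.2 - q.2‖)
  dbd : ∀ p : ℂ × ℂ, ‖p.1‖ < κ → ‖p.2‖ < κ → ‖dz F p‖ ≤ L
  dlip : ∀ p q : ℂ × ℂ, ‖p.1‖ < κ → ‖p.2‖ < κ → ‖q.1‖ < κ → ‖q.2‖ < κ →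
    ‖dz F p - dz F q‖ ≤ L * (‖p.1 - q.1‖ + ‖p.2 - q.2‖)
  pos : ∀ p : ℂ × ℂ, ‖p.1‖ < κ → ‖p.2‖ < κ → 0 < rho z p → rho z p ≤ L * (F p).im
  area : ∀ (ζ b : ℂ) (h : ℝ), ‖ζ‖ < κ → 0 < h →
    ∫⁻ η in {η : ℂ | ‖η‖ < κ / 2 ∧ ‖F (ζ, η) - b‖ < h}, ENNReal.ofReal (‖dz F (ζ, η)‖ ^ 2) ≤
      ENNReal.ofReal (L * h ^ 2)

open Pool.Agent.H720R2 Pool.Agent.H720R2.HP in
/-- the operator attached to the secondary function `F` -/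
noncomputable def VV {ι : Type} (z : ℂ × ℂ → ℂ) (κ : ℝ) (F : ℂ × ℂ → ℂ) (S : Finset ι) (a : ι → ℂ)
    (R : ι → Set ℂ) (μ : ℂ → ℂ) (v : ℂ × ℂ → ℂ) (ζ : ℂ) (p : ℂ × ℂ) : ℂ :=
  (1 / Real.pi : ℂ) * ∫ η in SS z κ ζ,
    (∑ k ∈ S, (R k).indicator (fun ω => μ ω * Wk S a k ω (F p)) (F (ζ, η))) *
      starRingEnd ℂ (dz F (ζ, η)) * v (ζ, η) * ((rho z (ζ, η) : ℂ) / Ph z (ζ, η) p) ^ 2 *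
      (qq F (ζ, η) p.2 / (F p - F (ζ, η)))

/-- bounded extension, with a singular bound, from the slices over `A` of `D` to `D'` -/
def ExtP (A : Set ℂ) (D D' : Set (ℂ × ℂ)) (C : ℝ) : Prop :=
  ∀ (v : ℂ × ℂ → ℂ) (M : ℝ), Measurable v → 0 ≤ M →
    (∀ ζ ∈ A, DifferentiableOn ℂ (fun η => v (ζ, η)) {η | (ζ, η) ∈ D}) →
    (∀ ζ ∈ A, ∀ η : ℂ, (ζ, η) ∈ D → ‖v (ζ, η)‖ ≤ M) →
    ∃ e : ℂ → ℂ × ℂ → ℂ, Measurable (fun q : ℂ × (ℂ × ℂ) => e q.1 q.2) ∧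
      (∀ ζ ∈ A, ∀ y : ℂ, (ζ, y) ∈ D' → e ζ (ζ, y) = v (ζ, y)) ∧
      (∀ ζ ∈ A, DifferentiableOn ℂ (e ζ) D') ∧
      (∀ ζ ∈ A, ∀ p ∈ D', ‖e ζ p‖ ≤ C * M * (1 + √(ζ.im / ‖p.1 - ζ‖))) ∧
      ∃ M' : ℝ, ∀ ζ ∈ A, ∀ p ∈ D', ‖e ζ p‖ ≤ M'

/-- the part of `DD z κ θ` where the functions `f k ∘ F k`, `k ∈ I`, are small -/
def Dm {K : ℕ} (z : ℂ × ℂ → ℂ) (κ θ : ℝ) (F : Fin K → ℂ × ℂ → ℂ) (f : Fin K → ℂ → ℂ)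
    (I : Finset (Fin K)) (ε : ℝ) : Set (ℂ × ℂ) :=
  {p | p ∈ DD z κ θ ∧ ∀ k ∈ I, ‖f k (F k p)‖ < ε}

/-- the box of radius `r` about `(1, 0)` -/
def Bx (r : ℝ) : Set (ℂ × ℂ) := {x | ‖x.1 - 1‖ < r ∧ ‖x.2‖ < r}

/-- `1 - |x|²` -/
noncomputable def rb (x : ℂ × ℂ) : ℝ := 1 - ‖x.1‖ ^ 2 - ‖x.2‖ ^ 2

/-- local data near the boundary point `(1, 0)` of the ball: functions `W k`, coordinates `z k` -/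
structure LC {K : ℕ} (r κ L σ : ℝ) (W z : Fin K → ℂ × ℂ → ℂ) : Prop where
  r0 : 0 < r
  r1 : r ≤ 1
  lm : ∀ k, LM κ L (z k)
  diff : ∀ k, DifferentiableOn ℂ (W k) (Bx r)
  lip : ∀ k, ∀ x ∈ Bx r, ∀ y ∈ Bx r, ‖W k x - W k y‖ ≤ L * (‖x.1 - y.1‖ + ‖x.2 - y.2‖)
  ctr : ∀ k, ‖W k (1, 0)‖ ≤ σ
  pos : ∀ k, ∀ x ∈ Bx r, 0 < rb x → rb x ≤ L * (W k x).im
  z1 : ∀ k, ∀ p : ℂ × ℂ, ‖p.1‖ < κ → ‖p.2‖ < κ → (z k p, p.2) ∈ Bx r ∧ W k (z k p, p.2) = p.1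
  z2 : ∀ k, ∀ x ∈ Bx r, ‖W k x‖ < κ → ‖x.2‖ < κ → z k (W k x, x.2) = x.1
  sf : ∀ j k, SF κ L (z j) (fun p => W k (z j p, p.2))

/-- the part of `Bx r` in the ball where the functions `f k ∘ W k`, `k ∈ I`, are small -/
def DB {K : ℕ} (r : ℝ) (W : Fin K → ℂ × ℂ → ℂ) (f : Fin K → ℂ → ℂ) (I : Finset (Fin K)) (ε : ℝ) :
    Set (ℂ × ℂ) :=
  {x | x ∈ Bx r ∧ 0 < rb x ∧ ∀ k ∈ I, ‖f k (W k x)‖ < ε}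

/-- solutions on `D` of the Bezout equation for `f k ∘ W k` and `G`, with bound `C` -/
def Bz {K : ℕ} (D : Set (ℂ × ℂ)) (W : Fin K → ℂ × ℂ → ℂ) (f : Fin K → ℂ → ℂ) (G : ℂ × ℂ → ℂ)
    (C : ℝ) : Prop :=
  ∃ (g : Fin K → ℂ × ℂ → ℂ) (g₀ : ℂ × ℂ → ℂ),
    (∀ k, DifferentiableOn ℂ (g k) D) ∧ DifferentiableOn ℂ g₀ D ∧
    (∀ k, ∀ x ∈ D, ‖g k x‖ ≤ C) ∧ (∀ x ∈ D, ‖g₀ x‖ ≤ C) ∧
    ∀ x ∈ D, ∑ k, f k (W k x) * g k x + G x * g₀ x = 1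

end Pool.Agent.P157C
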