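import Mathlib
import Pool.Agent.P157C.Defs

set_option autoImplicit false

open MeasureTheory Metric Set Filter Topology Complex

namespace Pool.Agent.P157C

theorem norm_sq_eq (w : ℂ) : ‖w‖ ^ 2 = w.re * w.re + w.im * w.im := by
  rw [Complex.sq_norm, Complex.normSq_apply]

/-- **TARGET 1** -/
theorem Ph_re (z : ℂ × ℂ → ℂ) (s p : ℂ × ℂ) :
    (Ph z s p).re = (rho z s + rho z p + ‖z p - z s‖ ^ 2 + ‖p.2 - s.2‖ ^ 2) / 2 := by
  unfold Ph rho
  simp only [norm_sq_eq, Complex.sub_re, Complex.sub_im, Complex.mul_re, Complex.one_re,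
    Complex.conj_re, Complex.conj_im]
  ring

/-- **TARGET 2** -/
theorem rho_le {κ L : ℝ} {z : ℂ × ℂ → ℂ} (h : LM κ L z) {s : ℂ × ℂ} (h1 : ‖s.1‖ < κ)
    (h2 : ‖s.2‖ < κ) (h3 : 0 < rho z s) : rho z s ≤ 2 * L ^ 2 * s.1.im := by
  have him : 0 < s.1.im := h.im s h1 h2 h3
  have h1' : ‖((s.1.re : ℝ) : ℂ)‖ < κ := by
    rw [Complex.norm_real, Real.norm_eq_abs]
    exact lt_of_le_of_lt (Complex.abs_re_le_norm _) h1
  have hr0 : rho z (((s.1.re : ℝ) : ℂ), s.2) ≤ 0 := by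
    by_contra hc
    push Not at hc
    have := h.im (((s.1.re : ℝ) : ℂ), s.2) h1' h2 hc
    simp at this
  have hd : ‖((s.1.re : ℝ) : ℂ) - s.1‖ = s.1.im := by
    have : ((s.1.re : ℝ) : ℂ) - s.1 = -(s.1.im * Complex.I) := by
      apply Complex.ext <;> simp
    rw [this, norm_neg, norm_mul, Complex.norm_I, mul_one, Complex.norm_real, Real.norm_eq_abs,
      abs_of_pos him]
  have hl : ‖z (((s.1.re : ℝ) : ℂ), s.2) - z s‖ ≤ L * s.1.im := by
    have := h.lip (((s.1.re : ℝ) : ℂ), s.2) s h1' h2 h1 h2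
    simpa [hd] using this
  have hL1 := h.L1
  have ha := h.hi (((s.1.re : ℝ) : ℂ), s.2) h1' h2
  have hb := h.hi s h1 h2
  have ht : ‖z (((s.1.re : ℝ) : ℂ), s.2)‖ - ‖z s‖ ≤ L * s.1.im :=
    le_trans (norm_sub_norm_le _ _) hl
  have hn1 : 0 ≤ ‖z (((s.1.re : ℝ) : ℂ), s.2)‖ := norm_nonneg _
  have hn2 : 0 ≤ ‖z s‖ := norm_nonneg _
  have hkey : ‖z (((s.1.re : ℝ) : ℂ), s.2)‖ ^ 2 - ‖z s‖ ^ 2 ≤ 2 * L ^ 2 * s.1.im := by
    have e : ‖z (((s.1.re : ℝ) : ℂ), s.2)‖ ^ 2 - ‖z s‖ ^ 2 =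
        (‖z (((s.1.re : ℝ) : ℂ), s.2)‖ + ‖z s‖) * (‖z (((s.1.re : ℝ) : ℂ), s.2)‖ - ‖z s‖) := by ring
    rw [e]
    calc (‖z (((s.1.re : ℝ) : ℂ), s.2)‖ + ‖z s‖) * (‖z (((s.1.re : ℝ) : ℂ), s.2)‖ - ‖z s‖)
        ≤ (‖z (((s.1.re : ℝ) : ℂ), s.2)‖ + ‖z s‖) * (L * s.1.im) :=
          mul_le_mul_of_nonneg_left ht (by positivity)
      _ ≤ (L + L) * (L * s.1.im) :=
          mul_le_mul_of_nonneg_right (add_le_add ha hb) (by positivity)
      _ = 2 * L ^ 2 * s.1.im := by ring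
  unfold rho at hr0 ⊢
  simp only at hr0
  linarith

theorem slice_diff {κ L : ℝ} {z : ℂ × ℂ → ℂ} (h : LM κ L z) {w v : ℂ} (h1 : ‖w‖ < κ)
    (h2 : ‖v‖ < κ) : DifferentiableAt ℂ (fun y : ℂ => z (w, y)) v := by
  have ho1 : IsOpen {p : ℂ × ℂ | ‖p.1‖ < κ} := isOpen_lt (by fun_prop) continuous_const
  have ho2 : IsOpen {p : ℂ × ℂ | ‖p.2‖ < κ} := isOpen_lt (by fun_prop) continuous_const
  have ho : IsOpen {p : ℂ × ℂ | ‖p.1‖ < κ ∧ ‖p.2‖ < κ} := ho1.inter ho2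
  have hz : DifferentiableAt ℂ z (w, v) := h.diff.differentiableAt (ho.mem_nhds ⟨h1, h2⟩)
  exact DifferentiableAt.comp v hz ((differentiableAt_const w).prodMk differentiableAt_id)

theorem qq_eq {z : ℂ × ℂ → ℂ} (s : ℂ × ℂ) (y : ℂ) :
    (y - s.2) * qq z s y = z (s.1, y) - z (s.1, s.2) := by
  have := sub_smul_dslope (fun y : ℂ => z (s.1, y)) s.2 y
  simpa [smul_eq_mul, qq] using this

/-- **TARGET 3** -/
theorem qq_sub_dz {κ L : ℝ} {z : ℂ × ℂ → ℂ} (h : LM κ L z) {s : ℂ × ℂ} {y : ℂ} (h1 : ‖s.1‖ < κ)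
    (h2 : ‖s.2‖ < κ) (h3 : ‖y‖ < κ) : ‖qq z s y - dz z s‖ ≤ L * ‖y - s.2‖ := by
  have hL1 := h.L1
  rcases eq_or_ne y s.2 with rfl | hne
  · unfold qq dz
    rw [dslope_same]
    simp
  · have hne' : y - s.2 ≠ 0 := sub_ne_zero.2 hne
    have hpos : 0 < ‖y - s.2‖ := norm_pos_iff.2 hne'
    set S : Set ℂ := ball 0 κ ∩ closedBall s.2 ‖y - s.2‖ with hS
    have hconv : Convex ℝ S := (convex_ball _ _).inter (convex_closedBall _ _)
    have hg : ∀ v ∈ S, HasDerivAt (fun v : ℂ => z (s.1, v) - v * dz z s)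
        (dz z (s.1, v) - dz z s) v := by
      intro v hv
      have hv1 : ‖v‖ < κ := by simpa using hv.1
      have hd := (slice_diff h h1 hv1).hasDerivAt
      have h2 := hd.sub ((hasDerivAt_id v).mul_const (dz z s))
      have e : (1 : ℂ) * dz z s = dz z s := one_mul _
      rw [e] at h2
      exact h2
    have hbd : ∀ v ∈ S, ‖deriv (fun v : ℂ => z (s.1, v) - v * dz z s) v‖ ≤ L * ‖y - s.2‖ := by
      intro v hv
      rw [(hg v hv).deriv]
      have hv1 : ‖v‖ < κ := by simpa using hv.1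
      have hv2 : ‖v - s.2‖ ≤ ‖y - s.2‖ := by simpa [dist_eq_norm] using hv.2
      have := h.lip2 (s.1, v) s h1 hv1 h1 h2
      simp only [sub_self, norm_zero, zero_add] at this
      exact this.trans (mul_le_mul_of_nonneg_left hv2 (by linarith))
    have hy : y ∈ S := ⟨by simpa using h3, by simp [dist_eq_norm]⟩
    have hs : s.2 ∈ S := ⟨by simpa using h2, by simp⟩
    have hmain := Convex.norm_image_sub_le_of_norm_deriv_le
      (fun v hv => (hg v hv).differentiableAt) hbd hconv hs hy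
    have he : qq z s y - dz z s =
        (y - s.2)⁻¹ * ((z (s.1, y) - y * dz z s) - (z (s.1, s.2) - s.2 * dz z s)) := by
      have := qq_eq (z := z) s y
      field_simp
      linear_combination this
    rw [he, norm_mul, norm_inv]
    rw [inv_mul_le_iff₀ hpos]
    calc _ ≤ L * ‖y - s.2‖ * ‖y - s.2‖ := hmain
      _ = ‖y - s.2‖ * (L * ‖y - s.2‖) := by ring

/-- **TARGET 4** -/
theorem qq_le {κ L : ℝ} {z : ℂ × ℂ → ℂ} (h : LM κ L z) {s : ℂ × ℂ} {y : ℂ} (h1 : ‖s.1‖ < κ)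
    (h2 : ‖s.2‖ < κ) (h3 : ‖y‖ < κ) : ‖qq z s y‖ ≤ L := by
  rcases eq_or_ne y s.2 with rfl | hne
  · unfold qq
    rw [dslope_same]
    exact h.dbd s h1 h2
  · have hne' : y - s.2 ≠ 0 := sub_ne_zero.2 hne
    have hpos : 0 < ‖y - s.2‖ := norm_pos_iff.2 hne'
    have hl := h.lip (s.1, y) (s.1, s.2) h1 h3 h1 h2
    simp only [sub_self, norm_zero, zero_add] at hl
    rw [← qq_eq, norm_mul] at hl
    have : ‖y - s.2‖ * ‖qq z s y‖ ≤ ‖y - s.2‖ * L := by linarith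
    exact le_of_mul_le_mul_left this hpos

/-- **TARGET 5** -/
theorem bb_le {κ L : ℝ} (hκ : 0 < κ) (hκ1 : κ ≤ 1) (hL : 1 ≤ L) : ∃ C : ℝ, 1 ≤ C ∧
    ∀ z : ℂ × ℂ → ℂ, LM κ L z → ∀ s : ℂ × ℂ, ‖s.1‖ < κ → ‖s.2‖ < κ / 2 → 0 < rho z s →
      ‖bb z s‖ ^ 2 ≤ C * s.1.im := by
  set M : ℝ := 2 / κ * (2 * L ^ 2 + (3 * L ^ 2 + 1) * κ ^ 2 / 16) with hM
  have hM1 : 1 ≤ M := by
    rw [hM, div_mul_eq_mul_div, le_div_iff₀ hκ]
    nlinarith [sq_nonneg κ, mul_nonneg (sq_nonneg L) (sq_nonneg κ)]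
  refine ⟨M ^ 2, by nlinarith, ?_⟩
  intro z h s h1 h2' h3
  have h2 : ‖s.2‖ < κ := by linarith
  have ht : 0 < s.1.im := h.im s h1 h2 h3
  have ht1 : s.1.im < 1 := by
    have := Complex.abs_im_le_norm s.1
    rw [abs_of_pos ht] at this
    linarith
  set r : ℝ := Real.sqrt s.1.im with hr
  have hr0 : 0 < r := Real.sqrt_pos.2 ht
  have hr2 : r ^ 2 = s.1.im := Real.sq_sqrt ht.le
  have hr1 : r < 1 := by nlinarith
  set B : ℝ := ‖bb z s‖ with hB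
  suffices hBr : B ≤ M * r by
    have hB0 : 0 ≤ B := norm_nonneg _
    calc B ^ 2 ≤ (M * r) ^ 2 := pow_le_pow_left₀ hB0 hBr 2
      _ = M ^ 2 * s.1.im := by rw [mul_pow, hr2]
  rcases (norm_nonneg (bb z s)).eq_or_lt with hB0 | hB0
  · rw [hB, ← hB0]; positivity
  rw [← hB] at hB0
  have hBne : (B : ℂ) ≠ 0 := by exact_mod_cast hB0.ne'
  set c : ℝ := κ / 4 * r with hc
  have hc0 : 0 < c := by positivity
  have hcκ : c < κ / 2 := by
    rw [hc]; nlinarith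
  set η : ℂ := -(c : ℂ) * starRingEnd ℂ (bb z s) / (B : ℂ) with hη
  have hηn : ‖η‖ = c := by
    rw [hη, norm_div, norm_mul, norm_neg, RCLike.norm_conj, Complex.norm_real, Complex.norm_real,
      Real.norm_eq_abs, Real.norm_eq_abs, abs_of_pos hc0, abs_of_pos hB0, ← hB]
    field_simp
  have hηb : (η * bb z s) = ((-(c * B) : ℝ) : ℂ) := by
    have hcc : starRingEnd ℂ (bb z s) * bb z s = ((B ^ 2 : ℝ) : ℂ) := by
      rw [mul_comm, Complex.mul_conj, Complex.normSq_eq_norm_sq]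
    rw [hη]
    have : -(c : ℂ) * starRingEnd ℂ (bb z s) / (B : ℂ) * bb z s =
        -(c : ℂ) * (starRingEnd ℂ (bb z s) * bb z s) / (B : ℂ) := by ring
    rw [this, hcc]
    push_cast
    field_simp
  have hy : ‖s.2 + η‖ < κ := by
    calc ‖s.2 + η‖ ≤ ‖s.2‖ + ‖η‖ := norm_add_le _ _
      _ < κ := by rw [hηn]; linarith
  set q : ℂ := qq z s (s.2 + η) with hq
  have hqe : z (s.1, s.2 + η) = z s + η * q := by
    have := qq_eq (z := z) s (s.2 + η)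
    rw [add_sub_cancel_left] at this
    rw [hq, this]
    simp
  have hq1 : ‖q - dz z s‖ ≤ L * c := by
    have := qq_sub_dz h h1 h2 hy
    rwa [add_sub_cancel_left, hηn] at this
  have hq2 : ‖q‖ ≤ L := qq_le h h1 h2 hy
  have hup : rho z (s.1, s.2 + η) ≤ 2 * L ^ 2 * s.1.im := by
    by_cases hp : 0 < rho z (s.1, s.2 + η)
    · exact rho_le h (s := (s.1, s.2 + η)) h1 hy hp
    · push Not at hp
      exact hp.trans (by positivity)
  have hex : rho z (s.1, s.2 + η) = rho z s -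
      2 * (η * bb z s + η * ((q - dz z s) * starRingEnd ℂ (z s))).re -
      ‖η‖ ^ 2 * (‖q‖ ^ 2 + 1) := by
    have hbb : η * bb z s + η * ((q - dz z s) * starRingEnd ℂ (z s)) =
        η * q * starRingEnd ℂ (z s) + η * starRingEnd ℂ s.2 := by
      unfold bb; ring
    rw [hbb]
    unfold rho
    simp only [hqe]
    simp only [norm_sq_eq, Complex.add_re, Complex.add_im, Complex.mul_re, Complex.mul_im,
      Complex.conj_re, Complex.conj_im]
    ring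
  have hre : (η * bb z s + η * ((q - dz z s) * starRingEnd ℂ (z s))).re ≤
      -(c * B) + L ^ 2 * c ^ 2 := by
    rw [Complex.add_re, hηb, Complex.ofReal_re]
    have h4 : (η * ((q - dz z s) * starRingEnd ℂ (z s))).re ≤ c * (L * c * L) := by
      refine (Complex.re_le_norm _).trans ?_
      rw [norm_mul, norm_mul, hηn, RCLike.norm_conj]
      refine mul_le_mul_of_nonneg_left ?_ hc0.le
      exact mul_le_mul hq1 (h.hi s h1 h2) (norm_nonneg _) (by positivity)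
    nlinarith [h4]
  have hqs : ‖q‖ ^ 2 ≤ L ^ 2 := pow_le_pow_left₀ (norm_nonneg _) hq2 2
  have hq3 : ‖η‖ ^ 2 * (‖q‖ ^ 2 + 1) ≤ c ^ 2 * (L ^ 2 + 1) := by
    rw [hηn]
    exact mul_le_mul_of_nonneg_left (by linarith) (by positivity)
  have hfin : 2 * (c * B) ≤ 2 * L ^ 2 * s.1.im + (3 * L ^ 2 + 1) * c ^ 2 := by
    rw [hex] at hup
    nlinarith [hup, hre, hq3, h3]
  rw [← hr2, hc] at hfin
  have hfin2 : r * (κ / 2 * B) ≤ r * ((2 * L ^ 2 + (3 * L ^ 2 + 1) * κ ^ 2 / 16) * r) := by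
    nlinarith [hfin]
  have hfin3 := le_of_mul_le_mul_left hfin2 hr0
  rw [hM, div_mul_eq_mul_div, div_mul_eq_mul_div, le_div_iff₀ hκ]
  linarith

end Pool.Agent.P157C
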