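import Mathlib
import Pool.Agent.HopfPinch.AnS1
import Pool.Agent.P157C.Pw

set_option autoImplicit false

open MeasureTheory Metric Set Filter Topology Complex

namespace Pool.Agent.P157C

theorem j6_slab (κ : ℝ) : IsOpen {p : ℂ × ℂ | ‖p.1‖ < κ ∧ ‖p.2‖ < κ} :=
  (isOpen_lt continuous_fst.norm continuous_const).inter
    (isOpen_lt continuous_snd.norm continuous_const)

theorem j6_rho_le {z : ℂ × ℂ → ℂ} (s : ℂ × ℂ) : rho z s ≤ 1 := by
  unfold rho
  have h1 := sq_nonneg ‖z s‖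
  have h2 := sq_nonneg ‖s.2‖
  linarith

theorem j6_slice {κ L : ℝ} {z : ℂ × ℂ → ℂ} (h : LM κ L z) {ζ : ℂ} (hζ : ‖ζ‖ < κ / 2) :
    ContinuousOn (fun η => z (ζ, η)) {η | ‖η‖ < κ} := by
  have h0 := h.κ0
  refine h.diff.continuousOn.comp (by fun_prop) ?_
  intro η hη
  exact ⟨by show ‖ζ‖ < κ; linarith, hη⟩

theorem j6_rho_cont {κ L : ℝ} {z : ℂ × ℂ → ℂ} (h : LM κ L z) {ζ : ℂ} (hζ : ‖ζ‖ < κ / 2) :
    ContinuousOn (fun η => rho z (ζ, η)) {η | ‖η‖ < κ} := by
  have h1 := j6_slice h hζ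
  unfold rho
  exact (continuousOn_const.sub (h1.norm.pow 2)).sub (by fun_prop)

theorem j6_SS_open {κ L : ℝ} {z : ℂ × ℂ → ℂ} (h : LM κ L z) {ζ : ℂ} (hζ : ‖ζ‖ < κ / 2) :
    IsOpen (SS z κ ζ) := by
  have h0 := h.κ0
  have hU : IsOpen {η : ℂ | ‖η‖ < κ / 2} := isOpen_lt continuous_norm continuous_const
  have h1 : ContinuousOn (fun η => rho z (ζ, η)) {η : ℂ | ‖η‖ < κ / 2} :=
    (j6_rho_cont h hζ).mono fun η hη => by
      have : ‖η‖ < κ / 2 := hη
      show ‖η‖ < κ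
      linarith
  exact h1.isOpen_inter_preimage hU isOpen_Ioi

theorem j6_sub {z : ℂ × ℂ → ℂ} {κ : ℝ} {ζ : ℂ} (hκ : 0 < κ) {η : ℂ} (hη : η ∈ SS z κ ζ) :
    ‖η‖ < κ := by
  have : ‖η‖ < κ / 2 := hη.1
  linarith

theorem j6_dbar_cont {κ B : ℝ} {χ : ℂ → ℝ} (hχ : Cut κ B χ) :
    Continuous (fun η => dbar (fun η => (χ η : ℂ)) η) := by
  have h1 : ContDiff ℝ 1 (fun η : ℂ => (χ η : ℂ)) := Complex.ofRealCLM.contDiff.comp hχ.smooth
  have h2 : Continuous (fderiv ℝ (fun η : ℂ => (χ η : ℂ))) := h1.continuous_fderiv (by norm_num)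
  unfold dbar
  fun_prop

theorem j6_dbar_zero {κ B : ℝ} {χ : ℂ → ℝ} (hχ : Cut κ B χ) {η : ℂ} (hη : ‖η‖ < κ / 4) :
    dbar (fun η => (χ η : ℂ)) η = 0 := by
  have h1 : (fun η : ℂ => (χ η : ℂ)) =ᶠ[𝓝 η] fun _ => (1 : ℂ) := by
    have hU : IsOpen {η : ℂ | ‖η‖ < κ / 4} := isOpen_lt continuous_norm continuous_const
    filter_upwards [hU.mem_nhds hη] with y hy
    rw [hχ.one y (le_of_lt hy)]
    norm_num
  unfold dbar
  rw [h1.fderiv_eq]
  simp

theorem j6_Ph_ge {z : ℂ × ℂ → ℂ} {s p : ℂ × ℂ} (hs : 0 < rho z s) {θ : ℝ} (hp : θ < rho z p) :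
    θ / 2 < ‖Ph z s p‖ := by
  have h1 := Ph_re z s p
  have h2 := Complex.re_le_norm (Ph z s p)
  have h3 := sq_nonneg ‖z p - z s‖
  have h4 := sq_nonneg ‖p.2 - s.2‖
  linarith

theorem j6_bb_le {κ L : ℝ} {z : ℂ × ℂ → ℂ} (h : LM κ L z) {s : ℂ × ℂ} (h1 : ‖s.1‖ < κ)
    (h2 : ‖s.2‖ < κ) : ‖bb z s‖ ≤ L * L + 1 := by
  have hκ := h.κ1
  have hL := h.L1
  unfold bb
  refine (norm_add_le _ _).trans ?_
  rw [norm_mul, RCLike.norm_conj, RCLike.norm_conj]
  have h3 := mul_le_mul (h.dbd s h1 h2) (h.hi s h1 h2) (norm_nonneg _) (by linarith)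
  linarith

theorem j6_NN_le {κ L : ℝ} {z : ℂ × ℂ → ℂ} (h : LM κ L z) {s : ℂ × ℂ} {y : ℂ} (h1 : ‖s.1‖ < κ)
    (h2 : ‖s.2‖ < κ) (h3 : ‖y‖ < κ) (hs : 0 < rho z s) :
    ‖NN z s y‖ ≤ (L * L + 1) * (L * L + 1) + (L * L + 1) := by
  have hκ := h.κ1
  have hL := h.L1
  have hLL : 0 ≤ L * L := by positivity
  have hq := qq_le h h1 h2 h3
  have hz := h.hi s h1 h2
  have hd := h.dbd s h1 h2
  have hb := j6_bb_le h h1 h2
  unfold NN
  refine (norm_add_le _ _).trans (add_le_add ?_ ?_)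
  · rw [norm_mul, RCLike.norm_conj]
    refine mul_le_mul hb ?_ (norm_nonneg _) (by linarith)
    refine (norm_add_le _ _).trans ?_
    rw [norm_mul, RCLike.norm_conj, RCLike.norm_conj]
    have := mul_le_mul hq hz (norm_nonneg _) (by linarith)
    linarith
  · rw [norm_mul, Complex.norm_real, Real.norm_of_nonneg hs.le]
    have h4 : ‖qq z s y * starRingEnd ℂ (dz z s) + 1‖ ≤ L * L + 1 := by
      refine (norm_add_le _ _).trans ?_
      rw [norm_mul, RCLike.norm_conj, norm_one]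
      have := mul_le_mul hq hd (norm_nonneg _) (by linarith)
      linarith
    calc rho z s * ‖qq z s y * starRingEnd ℂ (dz z s) + 1‖ ≤ 1 * (L * L + 1) :=
          mul_le_mul (j6_rho_le s) h4 (norm_nonneg _) (by norm_num)
      _ = L * L + 1 := one_mul _

theorem j6_KK_le {κ L B θ : ℝ} {z : ℂ × ℂ → ℂ} (h : LM κ L z) {χ : ℂ → ℝ} (hχ : Cut κ B χ)
    (hθ : 0 < θ) {ζ η : ℂ} (hζ : ‖ζ‖ < κ / 2) (hη : η ∈ SS z κ ζ) {p : ℂ × ℂ}
    (hp : p ∈ DD z (κ / 8) θ) :
    ‖KK z χ (ζ, η) p‖ ≤ B / ((θ / 2) ^ 2 * (κ / 8)) +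
      2 * ((L * L + 1) * (L * L + 1) + (L * L + 1)) / (θ / 2) ^ 3 := by
  have hκ := h.κ0
  obtain ⟨p1, p2, p3⟩ := hp
  have hPh := j6_Ph_ge (z := z) (s := (ζ, η)) (p := p) hη.2 p3
  have hPh0 : 0 < θ / 2 := by linarith
  have hP0 : 0 < ‖Ph z (ζ, η) p‖ := by linarith
  have hr0 : 0 ≤ rho z (ζ, η) := hη.2.le
  have hr1 : rho z (ζ, η) ≤ 1 := j6_rho_le _
  have hB : 0 ≤ B := (norm_nonneg _).trans (hχ.bd 0)
  unfold KK
  refine (norm_add_le _ _).trans (add_le_add ?_ ?_)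
  · by_cases h4 : ‖η‖ < κ / 4
    · rw [j6_dbar_zero hχ h4, zero_mul, zero_div, norm_zero]
      positivity
    · have h5 : κ / 8 ≤ ‖p.2 - η‖ := by
        have := norm_sub_norm_le η p.2
        rw [norm_sub_rev] at this
        linarith [not_lt.1 h4]
      rw [norm_div, norm_mul, norm_mul, norm_pow, norm_pow, Complex.norm_real,
        Real.norm_of_nonneg hr0]
      refine div_le_div₀ hB ?_ (by positivity) ?_
      · calc ‖dbar (fun η => (χ η : ℂ)) η‖ * rho z (ζ, η) ^ 2 ≤ B * 1 :=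
            mul_le_mul (hχ.bd η) (pow_le_one₀ hr0 hr1) (by positivity) hB
          _ = B := mul_one B
      · exact mul_le_mul (pow_le_pow_left₀ hPh0.le hPh.le 2) h5 (by positivity) (by positivity)
  · have hN := j6_NN_le h (s := (ζ, η)) (y := p.2) (by show ‖ζ‖ < κ; linarith)
      (j6_sub hκ hη) (by linarith) hη.2
    rw [norm_div, norm_mul, norm_mul, norm_mul, norm_pow, Complex.norm_real, Complex.norm_real,
      Real.norm_of_nonneg hr0, Real.norm_of_nonneg (hχ.nn η)]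
    have h2 : ‖(2 : ℂ)‖ = 2 := by norm_num
    rw [h2]
    refine div_le_div₀ ?_ ?_ (by positivity) (pow_le_pow_left₀ hPh0.le hPh.le 3)
    · have : 0 ≤ ‖NN z (ζ, η) p.2‖ := norm_nonneg _
      linarith
    · have hx0 := hχ.nn η
      have hx1 := hχ.le η
      have h6 : 2 * χ η * rho z (ζ, η) ≤ 2 := by
        have := mul_le_mul hx1 hr1 hr0 (by norm_num)
        nlinarith
      exact mul_le_mul h6 hN (norm_nonneg _) (by norm_num)

theorem j6_qq_ae {κ L : ℝ} {z : ℂ × ℂ → ℂ} (h : LM κ L z) {ζ : ℂ} (hζ : ‖ζ‖ < κ / 2) (y : ℂ) :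
    AEMeasurable (fun η => qq z (ζ, η) y) (volume.restrict (SS z κ ζ)) := by
  have hS := (j6_SS_open h hζ).measurableSet
  have hz : AEMeasurable (fun η => z (ζ, η)) (volume.restrict (SS z κ ζ)) :=
    ((j6_slice h hζ).mono fun η hη => j6_sub h.κ0 hη).aemeasurable hS
  have h1 : AEMeasurable (fun η => (z (ζ, y) - z (ζ, η)) / (y - η))
      (volume.restrict (SS z κ ζ)) :=
    (aemeasurable_const.sub hz).div (aemeasurable_const.sub aemeasurable_id)
  refine h1.congr ?_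
  have h2 : ∀ᵐ η ∂(volume.restrict (SS z κ ζ)), η ≠ y := by
    refine ae_restrict_of_ae ?_
    rw [ae_iff]
    have : {a : ℂ | ¬ a ≠ y} = {y} := by ext a; simp
    rw [this]
    exact measure_singleton y
  filter_upwards [h2] with η hη
  unfold qq
  rw [dslope_of_ne _ (Ne.symm hη), slope_def_field]

theorem j6_dz_ae {κ L : ℝ} {z : ℂ × ℂ → ℂ} (h : LM κ L z) {ζ : ℂ} (hζ : ‖ζ‖ < κ / 2) :
    AEMeasurable (fun η => dz z (ζ, η)) (volume.restrict (SS z κ ζ)) := by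
  have hS := (j6_SS_open h hζ).measurableSet
  have hκ := h.κ0
  refine ContinuousOn.aemeasurable ?_ hS
  have h1 : LipschitzOnWith (Real.toNNReal L) (fun η => dz z (ζ, η)) (SS z κ ζ) := by
    refine LipschitzOnWith.of_dist_le_mul fun x hx y hy => ?_
    rw [dist_eq_norm, dist_eq_norm, Real.coe_toNNReal L (by linarith [h.L1])]
    have := h.lip2 (ζ, x) (ζ, y) (by show ‖ζ‖ < κ; linarith) (j6_sub hκ hx)
      (by show ‖ζ‖ < κ; linarith) (j6_sub hκ hy)
    simpa using this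
  exact h1.continuousOn

theorem j6_conj {f : ℂ → ℂ} {μ : Measure ℂ} (hf : AEMeasurable f μ) :
    AEMeasurable (fun η => starRingEnd ℂ (f η)) μ :=
  Complex.continuous_conj.measurable.comp_aemeasurable hf

/-- **TARGET 1** -/
theorem KK_aesm {κ L B : ℝ} {z : ℂ × ℂ → ℂ} (h : LM κ L z) {χ : ℂ → ℝ} (hχ : Cut κ B χ)
    {G : ℂ × ℂ → ℂ} (hG : ContinuousOn G (DD z κ 0)) {ζ : ℂ} (hζ : ‖ζ‖ < κ / 2)
    {p : ℂ × ℂ} (h1 : ‖p.1‖ < κ / 8) (h2 : ‖p.2‖ < κ / 8) (h3 : 0 < rho z p) :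
    AEStronglyMeasurable (fun η => (G (ζ, η))⁻¹ * KK z χ (ζ, η) p) (volume.restrict (SS z κ ζ)) := by
  have hS := (j6_SS_open h hζ).measurableSet
  have hκ := h.κ0
  have hz : AEMeasurable (fun η => z (ζ, η)) (volume.restrict (SS z κ ζ)) :=
    ((j6_slice h hζ).mono fun η hη => j6_sub h.κ0 hη).aemeasurable hS
  have hdz := j6_dz_ae h hζ
  have hqq := j6_qq_ae h hζ p.2
  have hid : AEMeasurable (fun η : ℂ => η) (volume.restrict (SS z κ ζ)) := aemeasurable_id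
  have hrho : AEMeasurable (fun η => ((rho z (ζ, η) : ℝ) : ℂ)) (volume.restrict (SS z κ ζ)) := by
    refine Complex.measurable_ofReal.comp_aemeasurable ?_
    exact ((j6_rho_cont h hζ).mono fun η hη => j6_sub h.κ0 hη).aemeasurable hS
  have hGm : AEMeasurable (fun η => G (ζ, η)) (volume.restrict (SS z κ ζ)) := by
    refine ContinuousOn.aemeasurable ?_ hS
    refine hG.comp (by fun_prop) ?_
    intro η hη
    exact ⟨by show ‖ζ‖ < κ; linarith, j6_sub hκ hη, hη.2⟩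
  have hdb : AEMeasurable (fun η => dbar (fun η => (χ η : ℂ)) η) (volume.restrict (SS z κ ζ)) :=
    (j6_dbar_cont hχ).measurable.aemeasurable
  have hχm : AEMeasurable (fun η => (χ η : ℂ)) (volume.restrict (SS z κ ζ)) :=
    (Complex.continuous_ofReal.comp hχ.smooth.continuous).measurable.aemeasurable
  have hPh : AEMeasurable (fun η => Ph z (ζ, η) p) (volume.restrict (SS z κ ζ)) := by
    unfold Ph
    exact (aemeasurable_const.sub (aemeasurable_const.mul (j6_conj hz))).sub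
      (aemeasurable_const.mul (j6_conj hid))
  have hbb : AEMeasurable (fun η => bb z (ζ, η)) (volume.restrict (SS z κ ζ)) := by
    unfold bb
    exact (hdz.mul (j6_conj hz)).add (j6_conj hid)
  have hNN : AEMeasurable (fun η => NN z (ζ, η) p.2) (volume.restrict (SS z κ ζ)) := by
    unfold NN
    exact ((j6_conj hbb).mul ((hqq.mul (j6_conj hz)).add (j6_conj hid))).add
      (hrho.mul ((hqq.mul (j6_conj hdz)).add aemeasurable_const))
  refine AEMeasurable.aestronglyMeasurable ?_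
  unfold KK
  refine hGm.inv.mul (AEMeasurable.add ?_ ?_)
  · exact (hdb.mul (hrho.pow_const 2)).div ((hPh.pow_const 2).mul (aemeasurable_const.sub hid))
  · exact (((aemeasurable_const.mul hχm).mul hrho).mul hNN).div (hPh.pow_const 3)

/-- **TARGET 2** -/
theorem ee_qbd {κ L B M θ : ℝ} {z : ℂ × ℂ → ℂ} (h : LM κ L z) {χ : ℂ → ℝ} (hχ : Cut κ B χ)
    (hθ : 0 < θ) : ∃ M' : ℝ, ∀ (G : ℂ × ℂ → ℂ) (ζ : ℂ), ‖ζ‖ < κ / 2 →
      (∀ η ∈ SS z κ ζ, ‖(G (ζ, η))⁻¹‖ ≤ M) → ∀ p ∈ DD z (κ / 8) θ, ‖ee z κ χ G ζ p‖ ≤ M' := by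
  set M1 : ℝ := B / ((θ / 2) ^ 2 * (κ / 8)) +
      2 * ((L * L + 1) * (L * L + 1) + (L * L + 1)) / (θ / 2) ^ 3 with hM1
  have hκ := h.κ0
  have hB : 0 ≤ B := (norm_nonneg _).trans (hχ.bd 0)
  have hM10 : 0 ≤ M1 := by
    have hLL : 0 ≤ L * L := mul_self_nonneg L
    positivity
  refine ⟨(1 / Real.pi) * (|M| * M1 * volume.real (ball (0 : ℂ) 1)), ?_⟩
  intro G ζ hζ hGM p hp
  have hsub : SS z κ ζ ⊆ ball (0 : ℂ) 1 := by
    intro η hη
    rw [mem_ball_zero_iff]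
    have := j6_sub hκ hη
    linarith [h.κ1]
  have hfin : volume (ball (0 : ℂ) 1) < ⊤ := measure_ball_lt_top
  unfold ee
  rw [if_pos ⟨hζ, hp.1, hp.2.1⟩, norm_mul]
  have h1 : ‖(1 / Real.pi : ℂ)‖ = 1 / Real.pi := by
    rw [norm_div, norm_one, Complex.norm_real, Real.norm_of_nonneg Real.pi_pos.le]
  rw [h1]
  refine mul_le_mul_of_nonneg_left ?_ (by positivity)
  refine (norm_setIntegral_le_of_norm_le_const (C := |M| * M1)
    ((measure_mono hsub).trans_lt hfin) (fun η hη => ?_)).trans ?_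
  · rw [norm_mul]
    exact mul_le_mul ((hGM η hη).trans (le_abs_self M)) (j6_KK_le h hχ hθ hζ hη hp)
      (norm_nonneg _) (abs_nonneg M)
  · refine mul_le_mul_of_nonneg_left ?_ (by positivity)
    exact measureReal_mono hsub hfin.ne

/-- **TARGET 3** -/
theorem ee_diff {κ L B M θ : ℝ} {z : ℂ × ℂ → ℂ} (h : LM κ L z) {χ : ℂ → ℝ} (hχ : Cut κ B χ)
    (hθ : 0 < θ) {G : ℂ × ℂ → ℂ} (hG : ContinuousOn G (DD z κ 0)) {ζ : ℂ} (hζ : ‖ζ‖ < κ / 2)
    (hM : ∀ η ∈ SS z κ ζ, ‖(G (ζ, η))⁻¹‖ ≤ M) :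
    DifferentiableOn ℂ (ee z κ χ G ζ) (DD z (κ / 8) θ) := by
  have hκ := h.κ0
  have hS := (j6_SS_open h hζ).measurableSet
  set M1 : ℝ := B / ((θ / 2) ^ 2 * (κ / 8)) +
      2 * ((L * L + 1) * (L * L + 1) + (L * L + 1)) / (θ / 2) ^ 3 with hM1
  have hB : 0 ≤ B := (norm_nonneg _).trans (hχ.bd 0)
  have hM10 : 0 ≤ M1 := by
    have hLL : 0 ≤ L * L := mul_self_nonneg L
    positivity
  have hsub : SS z κ ζ ⊆ ball (0 : ℂ) 1 := by
    intro η hη
    rw [mem_ball_zero_iff]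
    have := j6_sub hκ hη
    linarith [h.κ1]
  have hfin : volume (SS z κ ζ) < ⊤ := (measure_mono hsub).trans_lt measure_ball_lt_top
  have hfm : IsFiniteMeasure (volume.restrict (SS z κ ζ)) := ⟨by
    rw [Measure.restrict_apply_univ]; exact hfin⟩
  -- the domain is open
  have hDo : IsOpen (DD z (κ / 8) θ) := by
    have h1 : ContinuousOn (rho z) {p : ℂ × ℂ | ‖p.1‖ < κ / 8 ∧ ‖p.2‖ < κ / 8} := by
      have h2 : ContinuousOn z {p : ℂ × ℂ | ‖p.1‖ < κ / 8 ∧ ‖p.2‖ < κ / 8} :=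
        h.diff.continuousOn.mono fun p hp => by
          obtain ⟨p1, p2⟩ := hp
          exact ⟨by linarith, by linarith⟩
      unfold rho
      exact (continuousOn_const.sub (h2.norm.pow 2)).sub (by fun_prop)
    have h2 := h1.isOpen_inter_preimage (j6_slab (κ / 8)) (isOpen_Ioi (a := θ))
    have h3 : DD z (κ / 8) θ = {p : ℂ × ℂ | ‖p.1‖ < κ / 8 ∧ ‖p.2‖ < κ / 8} ∩ rho z ⁻¹' Ioi θ := by
      ext p
      simp only [DD, mem_inter_iff, mem_preimage, mem_Ioi, Set.mem_ofPred_eq, and_assoc]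
    rw [h3]
    exact h2
  -- differentiability of the kernel
  have hKd : ∀ η ∈ SS z κ ζ, DifferentiableOn ℂ (fun p => KK z χ (ζ, η) p) (DD z (κ / 8) θ) := by
    intro η hη p hp
    refine DifferentiableAt.differentiableWithinAt ?_
    obtain ⟨p1, p2, p3⟩ := hp
    have hzd : DifferentiableAt ℂ z p := by
      refine (h.diff p ⟨by linarith, by linarith⟩).differentiableAt ?_
      exact (j6_slab κ).mem_nhds ⟨by linarith, by linarith⟩
    have hPhd : DifferentiableAt ℂ (fun p => Ph z (ζ, η) p) p := by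
      unfold Ph
      exact ((differentiableAt_const _).sub (hzd.mul_const _)).sub
        (differentiableAt_snd.mul_const _)
    have hPh0 : Ph z (ζ, η) p ≠ 0 := by
      have h1 := j6_Ph_ge (z := z) (s := (ζ, η)) (p := p) hη.2 p3
      intro h2
      rw [h2, norm_zero] at h1
      linarith
    have hqd : DifferentiableAt ℂ (fun y => qq z (ζ, η) y) p.2 := by
      have hU : IsOpen {y : ℂ | ‖y‖ < κ} := isOpen_lt continuous_norm continuous_const
      have h1 : DifferentiableOn ℂ (fun y => z (ζ, y)) {y : ℂ | ‖y‖ < κ} := by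
        refine h.diff.comp (by fun_prop) ?_
        intro y hy
        exact ⟨by show ‖ζ‖ < κ; linarith, hy⟩
      have h2 := (Complex.differentiableOn_dslope (c := η) (hU.mem_nhds (j6_sub hκ hη))).2 h1
      exact (h2 p.2 (by show ‖p.2‖ < κ; linarith)).differentiableAt
        (hU.mem_nhds (by show ‖p.2‖ < κ; linarith))
    have hqd2 : DifferentiableAt ℂ (fun p : ℂ × ℂ => qq z (ζ, η) p.2) p :=
      DifferentiableAt.comp p (g := fun y => qq z (ζ, η) y) hqd differentiableAt_snd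
    have hNd : DifferentiableAt ℂ (fun p : ℂ × ℂ => NN z (ζ, η) p.2) p := by
      unfold NN
      exact (((hqd2.mul_const _).add_const _).const_mul _).add
        (((hqd2.mul_const _).add_const _).const_mul _)
    unfold KK
    refine DifferentiableAt.add ?_ ?_
    · by_cases h4 : ‖η‖ < κ / 4
      · have h5 : (fun p : ℂ × ℂ => dbar (fun η => (χ η : ℂ)) (ζ, η).2 *
            (rho z (ζ, η) : ℂ) ^ 2 / (Ph z (ζ, η) p ^ 2 * (p.2 - (ζ, η).2))) = fun _ => 0 := by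
          funext p
          show dbar (fun η => (χ η : ℂ)) η * (rho z (ζ, η) : ℂ) ^ 2 / _ = 0
          rw [j6_dbar_zero hχ h4, zero_mul, zero_div]
        rw [h5]
        exact differentiableAt_const _
      · have h5 : p.2 - η ≠ 0 := by
          intro h6
          have h7 : p.2 = η := sub_eq_zero.1 h6
          rw [← h7] at h4
          linarith [not_lt.1 h4]
        have h6 : DifferentiableAt ℂ (fun p : ℂ × ℂ => Ph z (ζ, η) p ^ 2 * (p.2 - η)) p :=
          (hPhd.fun_pow 2).mul (differentiableAt_snd.sub_const η)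
        have h7 : DifferentiableAt ℂ (fun _ : ℂ × ℂ => dbar (fun η => (χ η : ℂ)) η *
          (rho z (ζ, η) : ℂ) ^ 2) p := differentiableAt_const _
        have h8 := h7.mul (h6.inv (mul_ne_zero (pow_ne_zero 2 hPh0) h5))
        simp only [div_eq_mul_inv]
        exact h8
    · have h6 : DifferentiableAt ℂ (fun p : ℂ × ℂ => Ph z (ζ, η) p ^ 3) p := hPhd.fun_pow 3
      have h7 : DifferentiableAt ℂ (fun p : ℂ × ℂ => (2 * (χ η : ℂ) * (rho z (ζ, η) : ℂ)) *
        NN z (ζ, η) p.2) p := hNd.const_mul _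
      have h8 := h7.mul (h6.inv (pow_ne_zero 3 hPh0))
      simp only [div_eq_mul_inv]
      exact h8
  -- the integral
  have hmain := Pool.Agent.HP.differentiableOn_integral (volume.restrict (SS z κ ζ))
    (fun (η : ℂ) (p : ℂ × ℂ) => (SS z κ ζ).indicator (fun η => (G (ζ, η))⁻¹ * KK z χ (ζ, η) p) η)
    (DD z (κ / 8) θ) hDo ?_ ?_ (fun _ => |M| * M1) (integrable_const _) ?_
  · refine (hmain.const_mul (1 / Real.pi : ℂ)).congr ?_
    intro p hp
    unfold ee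
    rw [if_pos ⟨hζ, hp.1, hp.2.1⟩]
    congr 1
    refine (setIntegral_congr_fun hS fun η hη => ?_).symm
    exact indicator_of_mem hη _
  · intro p hp
    have h1 := KK_aesm h hχ hG hζ hp.1 hp.2.1 (hθ.trans hp.2.2)
    refine h1.congr ?_
    refine (ae_restrict_iff' hS).2 (Eventually.of_forall fun η hη => ?_)
    exact (indicator_of_mem hη (fun η => (G (ζ, η))⁻¹ * KK z χ (ζ, η) p)).symm
  · intro η
    by_cases hη : η ∈ SS z κ ζ
    · simp only [indicator_of_mem hη]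
      exact (hKd η hη).const_mul _
    · simp only [indicator_of_notMem hη]
      exact differentiableOn_const _
  · intro η p hp
    by_cases hη : η ∈ SS z κ ζ
    · simp only [indicator_of_mem hη]
      rw [norm_mul]
      exact mul_le_mul ((hM η hη).trans (le_abs_self M)) (j6_KK_le h hχ hθ hζ hη hp)
        (norm_nonneg _) (abs_nonneg M)
    · simp only [indicator_of_notMem hη, norm_zero]
      positivity

end Pool.Agent.P157C
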