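import Mathlib
import Pool.Agent.P157C.Pw

set_option autoImplicit false

open MeasureTheory Metric Set Filter Topology Complex

namespace Pool.Agent.P157C

/-- **TARGET** -/
theorem ee_meas {κ L B : ℝ} {z : ℂ × ℂ → ℂ} (h : LM κ L z) {χ : ℂ → ℝ} (hχ : Cut κ B χ)
    {G : ℂ × ℂ → ℂ} (hG : ContinuousOn G (DD z κ 0)) (y : ℂ) :
    Measurable (fun q : ℂ × ℂ => ee z κ χ G q.1 (q.2, y)) := by
  classical
  have hκ := h.κ0
  set U : Set (ℂ × ℂ) := {p | ‖p.1‖ < κ ∧ ‖p.2‖ < κ} with hU
  have hzU : ContinuousOn z U := h.diff.continuousOn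
  have hdzU : ContinuousOn (dz z) U := by
    have hL : LipschitzOnWith (Real.toNNReal (2 * L)) (dz z) U := by
      refine LipschitzOnWith.of_dist_le_mul fun p hp q hq => ?_
      rw [Real.coe_toNNReal _ (by linarith [h.L1]), dist_eq_norm, dist_eq_norm]
      refine (h.lip2 p q hp.1 hp.2 hq.1 hq.2).trans ?_
      have h1 : ‖p.1 - q.1‖ ≤ ‖p - q‖ := norm_fst_le (p - q)
      have h2 : ‖p.2 - q.2‖ ≤ ‖p - q‖ := norm_snd_le (p - q)
      have h3 : (0 : ℝ) ≤ L := by linarith [h.L1]
      nlinarith
    exact hL.continuousOn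
  have hrU : ContinuousOn (rho z) U := by
    unfold rho
    exact (continuousOn_const.sub (hzU.norm.pow 2)).sub (continuous_snd.norm.pow 2).continuousOn
  by_cases hy : ‖y‖ < κ / 8
  swap
  · have h0 : (fun q : ℂ × ℂ => ee z κ χ G q.1 (q.2, y)) = fun _ => 0 := by
      funext q
      unfold ee
      rw [if_neg]
      rintro ⟨-, -, h3⟩
      exact hy h3
    rw [h0]
    exact measurable_const
  -- the open set
  set V : Set ((ℂ × ℂ) × ℂ) := {t | ‖t.1.1‖ < κ / 2 ∧ ‖t.1.2‖ < κ / 8 ∧ ‖t.2‖ < κ / 2 ∧ t.2 ≠ y}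
    with hV
  have hVo : IsOpen V := by
    have o1 : IsOpen {t : (ℂ × ℂ) × ℂ | ‖t.1.1‖ < κ / 2} :=
      isOpen_lt (by fun_prop) continuous_const
    have o2 : IsOpen {t : (ℂ × ℂ) × ℂ | ‖t.1.2‖ < κ / 8} :=
      isOpen_lt (by fun_prop) continuous_const
    have o3 : IsOpen {t : (ℂ × ℂ) × ℂ | ‖t.2‖ < κ / 2} :=
      isOpen_lt (by fun_prop) continuous_const
    have o4 : IsOpen {t : (ℂ × ℂ) × ℂ | t.2 ≠ y} := isOpen_ne_fun continuous_snd continuous_const
    exact o1.inter (o2.inter (o3.inter o4))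
  have hVU : ∀ t ∈ V, ((t.1.1, t.2) : ℂ × ℂ) ∈ U := by
    intro t ht
    exact ⟨by linarith [ht.1], by linarith [ht.2.2.1]⟩
  have hrV : ContinuousOn (fun t : (ℂ × ℂ) × ℂ => rho z (t.1.1, t.2)) V :=
    hrU.comp (by fun_prop) hVU
  set T : Set ((ℂ × ℂ) × ℂ) := V ∩ (fun t : (ℂ × ℂ) × ℂ => rho z (t.1.1, t.2)) ⁻¹' Ioi 0 with hT
  have hTo : IsOpen T := hrV.isOpen_inter_preimage hVo isOpen_Ioi
  have hTm : MeasurableSet T := hTo.measurableSet
  set f : (ℂ × ℂ) × ℂ → ℂ := fun t => (G (t.1.1, t.2))⁻¹ * KK z χ (t.1.1, t.2) (t.1.2, y) with hf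
  have hfT : Measurable (T.domRestrict f) := by
    have cA : Continuous (fun t : T => ((t.1.1.1, t.1.2) : ℂ × ℂ)) := by fun_prop
    have cB : Continuous (fun t : T => ((t.1.1.2, y) : ℂ × ℂ)) := by fun_prop
    have cC : Continuous (fun t : T => ((t.1.1.1, y) : ℂ × ℂ)) := by fun_prop
    have mA : ∀ t : T, ((t.1.1.1, t.1.2) : ℂ × ℂ) ∈ U := fun t => hVU t.1 t.2.1
    have mB : ∀ t : T, ((t.1.1.2, y) : ℂ × ℂ) ∈ U := fun t =>
      ⟨by linarith [t.2.1.2.1], by linarith⟩
    have mC : ∀ t : T, ((t.1.1.1, y) : ℂ × ℂ) ∈ U := fun t =>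
      ⟨by linarith [t.2.1.1], by linarith⟩
    have gA : Measurable (fun t : T => G (t.1.1.1, t.1.2)) :=
      (hG.comp_continuous cA fun t => ⟨(mA t).1, (mA t).2, t.2.2⟩).measurable
    have zA : Measurable (fun t : T => z (t.1.1.1, t.1.2)) := (hzU.comp_continuous cA mA).measurable
    have zB : Measurable (fun t : T => z (t.1.1.2, y)) := (hzU.comp_continuous cB mB).measurable
    have zC : Measurable (fun t : T => z (t.1.1.1, y)) := (hzU.comp_continuous cC mC).measurable
    have dA : Measurable (fun t : T => dz z (t.1.1.1, t.1.2)) :=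
      (hdzU.comp_continuous cA mA).measurable
    have rA : Measurable (fun t : T => rho z (t.1.1.1, t.1.2)) :=
      (hrU.comp_continuous cA mA).measurable
    have eA : Measurable (fun t : T => t.1.2) := by fun_prop
    have chi : Measurable (fun t : T => χ t.1.2) :=
      (hχ.smooth.continuous.comp (by fun_prop)).measurable
    have cdb : Continuous (dbar (fun η => (χ η : ℂ))) := by
      have h1 : ContDiff ℝ 1 (fun η : ℂ => (χ η : ℂ)) :=
        Complex.ofRealCLM.contDiff.comp hχ.smooth
      have h2 : Continuous (fderiv ℝ (fun η : ℂ => (χ η : ℂ))) := h1.continuous_fderiv (by simp)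
      unfold dbar
      fun_prop
    have db : Measurable (fun t : T => dbar (fun η => (χ η : ℂ)) t.1.2) :=
      (cdb.comp (by fun_prop)).measurable
    have qA : Measurable (fun t : T => qq z (t.1.1.1, t.1.2) y) := by
      have e : (fun t : T => qq z (t.1.1.1, t.1.2) y) =
          fun t : T => (y - t.1.2)⁻¹ * (z (t.1.1.1, y) - z (t.1.1.1, t.1.2)) := by
        funext t
        unfold qq
        rw [dslope_of_ne _ (Ne.symm t.2.1.2.2.2), slope_def_module, smul_eq_mul]
      rw [e]
      exact (measurable_const.sub eA).inv.mul (zC.sub zA)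
    have star : Measurable (fun c : ℂ => starRingEnd ℂ c) := Complex.continuous_conj.measurable
    have szA := star.comp zA
    have sdA := star.comp dA
    have seA := star.comp eA
    have rcA : Measurable (fun t : T => (rho z (t.1.1.1, t.1.2) : ℂ)) :=
      Complex.measurable_ofReal.comp rA
    have ccA : Measurable (fun t : T => (χ t.1.2 : ℂ)) := Complex.measurable_ofReal.comp chi
    have phA : Measurable (fun t : T => Ph z (t.1.1.1, t.1.2) (t.1.1.2, y)) := by
      unfold Ph
      exact (measurable_const.sub (zB.mul szA)).sub (measurable_const.mul seA)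
    have bA : Measurable (fun t : T => bb z (t.1.1.1, t.1.2)) := by
      unfold bb
      exact (dA.mul szA).add seA
    have nA : Measurable (fun t : T => NN z (t.1.1.1, t.1.2) y) := by
      unfold NN
      exact ((star.comp bA).mul ((qA.mul szA).add seA)).add
        (rcA.mul ((qA.mul sdA).add measurable_const))
    have kA : Measurable (fun t : T => KK z χ (t.1.1.1, t.1.2) (t.1.1.2, y)) := by
      unfold KK
      exact ((db.mul (rcA.pow_const 2)).div ((phA.pow_const 2).mul (measurable_const.sub eA))).add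
        ((((measurable_const.mul ccA).mul rcA).mul nA).div (phA.pow_const 3))
    exact gA.inv.mul kA
  have hFm : Measurable (T.indicator f) := by
    refine measurable_of_restrict_of_restrict_compl hTm ?_ ?_
    · have e : T.domRestrict (T.indicator f) = T.domRestrict f := by
        funext t
        simp only [Set.domRestrict_apply]
        rw [Set.indicator_of_mem t.2]
      rw [e]
      exact hfT
    · have e : Tᶜ.domRestrict (T.indicator f) = fun _ => 0 := by
        funext t
        simp only [Set.domRestrict_apply]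
        rw [Set.indicator_of_notMem t.2]
      rw [e]
      exact measurable_const
  have hint : StronglyMeasurable (fun q : ℂ × ℂ => ∫ η : ℂ, T.indicator f (q, η)) :=
    StronglyMeasurable.integral_prod_right (f := fun (q : ℂ × ℂ) (η : ℂ) => T.indicator f (q, η))
      hFm.stronglyMeasurable
  have hee : (fun q : ℂ × ℂ => ee z κ χ G q.1 (q.2, y)) =
      fun q => (1 / Real.pi : ℂ) * ∫ η : ℂ, T.indicator f (q, η) := by
    funext q
    unfold ee
    by_cases hq : ‖q.1‖ < κ / 2 ∧ ‖q.2‖ < κ / 8 ∧ ‖y‖ < κ / 8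
    · rw [if_pos hq]
      congr 1
      have hSo : IsOpen (SS z κ q.1) := by
        have hc : ContinuousOn (fun η : ℂ => rho z (q.1, η)) {η : ℂ | ‖η‖ < κ / 2} :=
          hrU.comp (by fun_prop) fun η (hη : ‖η‖ < κ / 2) =>
            (⟨by linarith [hq.1], by linarith⟩ : ((q.1, η) : ℂ × ℂ) ∈ U)
        exact hc.isOpen_inter_preimage (isOpen_lt (by fun_prop) continuous_const) isOpen_Ioi
      rw [← integral_indicator hSo.measurableSet]
      refine integral_congr_ae ?_
      have hne : ∀ᵐ η : ℂ, η ≠ y := by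
        rw [ae_iff]
        simp
      filter_upwards [hne] with η hη
      by_cases hm : η ∈ SS z κ q.1
      · rw [Set.indicator_of_mem hm, Set.indicator_of_mem]
        exact ⟨⟨hq.1, hq.2.1, hm.1, hη⟩, hm.2⟩
      · rw [Set.indicator_of_notMem hm, Set.indicator_of_notMem]
        rintro ⟨⟨-, -, h3, -⟩, h4⟩
        exact hm ⟨h3, h4⟩
    · rw [if_neg hq]
      have h0 : ∀ η : ℂ, T.indicator f (q, η) = 0 := by
        intro η
        rw [Set.indicator_of_notMem]
        rintro ⟨⟨h1, h2, -, -⟩, -⟩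
        exact hq ⟨h1, h2, hy⟩
      simp [h0]
  rw [hee]
  exact measurable_const.mul hint.measurable

end Pool.Agent.P157C
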