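import Mathlib
import Pool.Agent.P157C.Defs

set_option autoImplicit false

open MeasureTheory Metric Set Filter Topology Complex

namespace Pool.Agent.P157C

theorem ie_rad (p : ℝ) (T : Set ℝ) (hT : MeasurableSet T) (c : ℂ)
    (hI : IntegrableOn (fun y : ℝ => y ^ (1 - p)) (Ioi 0 ∩ T)) :
    Integrable (fun η : ℂ => T.indicator (fun y : ℝ => y ^ (-p)) ‖η - c‖) ∧
    ∫ η : ℂ, T.indicator (fun y : ℝ => y ^ (-p)) ‖η - c‖ =
      2 * Real.pi * ∫ y in Ioi 0 ∩ T, y ^ (1 - p) := by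
  have hd : Module.finrank ℝ ℂ = 2 := Complex.finrank_real_complex
  have hcong : EqOn (fun y : ℝ => y ^ (Module.finrank ℝ ℂ - 1) • T.indicator (fun y : ℝ => y ^ (-p)) y)
      (T.indicator (fun y : ℝ => y ^ (1 - p))) (Ioi 0) := by
    intro y hy
    have hy' : (0 : ℝ) < y := hy
    simp only [hd]
    by_cases h : y ∈ T
    · rw [indicator_of_mem h, indicator_of_mem h, smul_eq_mul, sub_eq_add_neg,
        Real.rpow_add hy', Real.rpow_one]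
      norm_num
    · rw [indicator_of_notMem h, indicator_of_notMem h, smul_zero]
  constructor
  · have h1 : Integrable (fun η : ℂ => T.indicator (fun y : ℝ => y ^ (-p)) ‖η‖) := by
      rw [integrable_fun_norm_addHaar (volume : Measure ℂ) (f := T.indicator (fun y : ℝ => y ^ (-p))),
        integrableOn_congr_fun hcong measurableSet_Ioi]
      unfold IntegrableOn
      rw [integrable_indicator_iff hT]
      unfold IntegrableOn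
      rw [Measure.restrict_restrict hT, inter_comm]
      exact hI
    exact h1.comp_sub_right c
  · have h1 : ∫ η : ℂ, T.indicator (fun y : ℝ => y ^ (-p)) ‖η - c‖ =
        ∫ η : ℂ, T.indicator (fun y : ℝ => y ^ (-p)) ‖η‖ :=
      integral_sub_right_eq_self (fun η : ℂ => T.indicator (fun y : ℝ => y ^ (-p)) ‖η‖) c
    rw [h1, integral_fun_norm_addHaar (volume : Measure ℂ) (T.indicator (fun y : ℝ => y ^ (-p))),
      setIntegral_congr_fun measurableSet_Ioi hcong, setIntegral_indicator hT, hd]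
    have hv : (volume : Measure ℂ).real (ball 0 1) = Real.pi := by
      rw [Measure.real, Complex.volume_ball]
      simp
    rw [hv, smul_eq_mul, nsmul_eq_mul]
    push_cast
    ring

theorem ie_in (p ρ : ℝ) (hp : p < 2) (hρ : 0 ≤ ρ) (c : ℂ) :
    Integrable (fun η : ℂ => (Iic ρ).indicator (fun y : ℝ => y ^ (-p)) ‖η - c‖) ∧
    ∫ η : ℂ, (Iic ρ).indicator (fun y : ℝ => y ^ (-p)) ‖η - c‖ =
      2 * Real.pi * (ρ ^ (2 - p) / (2 - p)) := by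
  have hs : Ioi (0 : ℝ) ∩ Iic ρ = Ioc 0 ρ := rfl
  have hI : IntegrableOn (fun y : ℝ => y ^ (1 - p)) (Ioi 0 ∩ Iic ρ) := by
    rw [hs, ← intervalIntegrable_iff_integrableOn_Ioc_of_le hρ]
    exact intervalIntegral.intervalIntegrable_rpow' (by linarith)
  obtain ⟨h1, h2⟩ := ie_rad p (Iic ρ) measurableSet_Iic c hI
  refine ⟨h1, ?_⟩
  rw [h2, hs, ← intervalIntegral.integral_of_le hρ, integral_rpow (Or.inl (by linarith))]
  rw [show (1 - p + 1 : ℝ) = 2 - p by ring, Real.zero_rpow (by linarith), sub_zero]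

theorem ie_out (p ρ : ℝ) (hp : 2 < p) (hρ : 0 < ρ) (c : ℂ) :
    Integrable (fun η : ℂ => (Ioi ρ).indicator (fun y : ℝ => y ^ (-p)) ‖η - c‖) ∧
    ∫ η : ℂ, (Ioi ρ).indicator (fun y : ℝ => y ^ (-p)) ‖η - c‖ =
      2 * Real.pi * (ρ ^ (2 - p) / (p - 2)) := by
  have hs : Ioi (0 : ℝ) ∩ Ioi ρ = Ioi ρ := by
    apply inter_eq_right.mpr
    intro x hx
    exact hρ.trans hx
  have hI : IntegrableOn (fun y : ℝ => y ^ (1 - p)) (Ioi 0 ∩ Ioi ρ) := by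
    rw [hs]
    exact integrableOn_Ioi_rpow_of_lt (by linarith) hρ
  obtain ⟨h1, h2⟩ := ie_rad p (Ioi ρ) measurableSet_Ioi c hI
  refine ⟨h1, ?_⟩
  rw [h2, hs, integral_Ioi_rpow_of_lt (by linarith) hρ]
  rw [show (1 - p + 1 : ℝ) = 2 - p by ring, show (2 - p : ℝ) = -(p - 2) by ring, neg_div_neg_eq]

theorem ie_p1 (C t Φ r β R : ℝ) (hC : 1 ≤ C) (ht : 0 < t) (hr : 0 < r) (hΦ : 0 < Φ)
    (hR2 : R ^ 2 ≤ 2 * Φ) (hrt : r ≤ C * t) (hβt : β ^ 2 ≤ C * t) (hR : 0 < R) :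
    r * (β ^ 2 + Φ) / Φ ^ 3 ≤
      8 * C ^ 2 * t ^ 2 * R ^ (-(6 : ℝ)) + 4 * C * t * R ^ (-(4 : ℝ)) := by
  have h6 : R ^ (-(6 : ℝ)) = (R ^ 6)⁻¹ := by
    rw [Real.rpow_neg hR.le]
    norm_cast
  have h4 : R ^ (-(4 : ℝ)) = (R ^ 4)⁻¹ := by
    rw [Real.rpow_neg hR.le]
    norm_cast
  rw [h6, h4]
  have hs : 0 < R ^ 2 / 2 := by positivity
  have hsΦ : R ^ 2 / 2 ≤ Φ := by linarith
  have e : r * (β ^ 2 + Φ) / Φ ^ 3 = r * β ^ 2 / Φ ^ 3 + r / Φ ^ 2 := by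
    field_simp
  rw [e]
  have hCt : 0 ≤ C * t := by positivity
  have h1 : r * β ^ 2 / Φ ^ 3 ≤ (C * t) * (C * t) / (R ^ 2 / 2) ^ 3 := by
    apply div_le_div₀ (by positivity)
    · exact mul_le_mul hrt hβt (sq_nonneg _) hCt
    · positivity
    · exact pow_le_pow_left₀ hs.le hsΦ 3
  have h2 : r / Φ ^ 2 ≤ (C * t) / (R ^ 2 / 2) ^ 2 := by
    apply div_le_div₀ (by positivity) hrt
    · positivity
    · exact pow_le_pow_left₀ hs.le hsΦ 2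
  have e1 : (C * t) * (C * t) / (R ^ 2 / 2) ^ 3 = 8 * C ^ 2 * t ^ 2 * (R ^ 6)⁻¹ := by
    field_simp
    ring
  have e2 : (C * t) / (R ^ 2 / 2) ^ 2 = 4 * C * t * (R ^ 4)⁻¹ := by
    field_simp
    ring
  rw [e1] at h1
  rw [e2] at h2
  linarith

theorem ie_p2 (A m Φ r β R : ℝ) (hA : 0 ≤ A) (hm : 0 < m) (_hr : 0 < r) (hmΦ : m ≤ Φ)
    (hR2 : R ^ 2 ≤ 2 * Φ) (hrΦ : r ≤ 2 * Φ) (hβ : β ^ 2 ≤ A * Φ) (hR : 0 < R) :
    r * (β ^ 2 + Φ) / Φ ^ 3 ≤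
      4 * (A + 1) * m ^ (-(1 / 4) : ℝ) * R ^ (-(3 / 2) : ℝ) := by
  have hΦ : 0 < Φ := hm.trans_le hmΦ
  have h1 : r * (β ^ 2 + Φ) / Φ ^ 3 ≤ 2 * (A + 1) * Φ⁻¹ := by
    rw [div_le_iff₀ (by positivity)]
    have e : 2 * (A + 1) * Φ⁻¹ * Φ ^ 3 = (2 * Φ) * ((A + 1) * Φ) := by
      field_simp
    rw [e]
    apply mul_le_mul hrΦ _ (by positivity) (by positivity)
    linarith
  have h2 : Φ⁻¹ = Φ ^ (-(1 / 4) : ℝ) * Φ ^ (-(3 / 4) : ℝ) := by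
    rw [← Real.rpow_add hΦ, ← Real.rpow_neg_one]
    norm_num
  have h3 : Φ ^ (-(1 / 4) : ℝ) ≤ m ^ (-(1 / 4) : ℝ) :=
    Real.rpow_le_rpow_of_nonpos hm hmΦ (by norm_num)
  have h4 : Φ ^ (-(3 / 4) : ℝ) ≤ 2 * R ^ (-(3 / 2) : ℝ) := by
    have h5 : Φ ^ (-(3 / 4) : ℝ) ≤ (R ^ 2 / 2) ^ (-(3 / 4) : ℝ) :=
      Real.rpow_le_rpow_of_nonpos (by positivity) (by linarith) (by norm_num)
    have h6 : (R ^ 2 / 2) ^ (-(3 / 4) : ℝ) = (R ^ 2) ^ (-(3 / 4) : ℝ) * (2⁻¹ : ℝ) ^ (-(3 / 4) : ℝ) := by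
      rw [div_eq_mul_inv, Real.mul_rpow (by positivity) (by norm_num)]
    have h7 : (R ^ 2) ^ (-(3 / 4) : ℝ) = R ^ (-(3 / 2) : ℝ) := by
      rw [← Real.rpow_natCast R 2, ← Real.rpow_mul hR.le]
      norm_num
    have h8 : (2⁻¹ : ℝ) ^ (-(3 / 4) : ℝ) ≤ 2 := by
      rw [Real.inv_rpow (by norm_num), Real.rpow_neg (by norm_num), inv_inv]
      calc (2 : ℝ) ^ ((3 / 4) : ℝ) ≤ 2 ^ (1 : ℝ) :=
            Real.rpow_le_rpow_of_exponent_le (by norm_num) (by norm_num)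
        _ = 2 := Real.rpow_one 2
    rw [h6, h7] at h5
    have h9 : 0 ≤ R ^ (-(3 / 2) : ℝ) := Real.rpow_nonneg hR.le _
    nlinarith
  refine h1.trans ?_
  rw [h2]
  have h5 : Φ ^ (-(1 / 4) : ℝ) * Φ ^ (-(3 / 4) : ℝ) ≤
      m ^ (-(1 / 4) : ℝ) * (2 * R ^ (-(3 / 2) : ℝ)) :=
    mul_le_mul h3 h4 (Real.rpow_nonneg hΦ.le _) (Real.rpow_nonneg hm.le _)
  have h6 : (0 : ℝ) ≤ 2 * (A + 1) := by positivity
  calc 2 * (A + 1) * (Φ ^ (-(1 / 4) : ℝ) * Φ ^ (-(3 / 4) : ℝ)) ≤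
      2 * (A + 1) * (m ^ (-(1 / 4) : ℝ) * (2 * R ^ (-(3 / 2) : ℝ))) := mul_le_mul_of_nonneg_left h5 h6
    _ = 4 * (A + 1) * m ^ (-(1 / 4) : ℝ) * R ^ (-(3 / 2) : ℝ) := by ring

theorem ie_p3 (C m Φ r β B d : ℝ) (hC : 1 ≤ C) (hm : 0 < m) (_hr : 0 < r) (hmΦ : m ≤ Φ)
    (hrΦ : r ≤ 2 * Φ) (hβ : Φ ≤ β ^ 2) (hβ0 : 0 ≤ β) (hB : 0 < B) (hβB : β ≤ 2 * B) (hd : 0 < d)
    (hBd : B * d ≤ C * Φ) :
    r * (β ^ 2 + Φ) / Φ ^ 3 ≤
      16 * C ^ 2 * m ^ (-(1 / 4) : ℝ) * B ^ (1 / 4 : ℝ) * d ^ (-(7 / 4) : ℝ) := by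
  have hΦ : 0 < Φ := hm.trans_le hmΦ
  have hC0 : 0 < C := by linarith
  have h1 : r * (β ^ 2 + Φ) / Φ ^ 3 ≤ 16 * B ^ 2 * (Φ ^ 2)⁻¹ := by
    rw [div_le_iff₀ (by positivity)]
    have e : 16 * B ^ 2 * (Φ ^ 2)⁻¹ * Φ ^ 3 = (2 * Φ) * (8 * B ^ 2) := by
      field_simp
      ring
    rw [e]
    apply mul_le_mul hrΦ _ (by positivity) (by positivity)
    nlinarith
  have h2 : (Φ ^ 2)⁻¹ = Φ ^ (-(1 / 4) : ℝ) * Φ ^ (-(7 / 4) : ℝ) := by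
    rw [← Real.rpow_add hΦ, ← Real.rpow_natCast Φ 2, ← Real.rpow_neg hΦ.le]
    norm_num
  have h3 : Φ ^ (-(1 / 4) : ℝ) ≤ m ^ (-(1 / 4) : ℝ) :=
    Real.rpow_le_rpow_of_nonpos hm hmΦ (by norm_num)
  have h4 : Φ ^ (-(7 / 4) : ℝ) ≤ C ^ 2 * (B ^ (-(7 / 4) : ℝ) * d ^ (-(7 / 4) : ℝ)) := by
    have h5 : Φ ^ (-(7 / 4) : ℝ) ≤ (C⁻¹ * (B * d)) ^ (-(7 / 4) : ℝ) := by
      apply Real.rpow_le_rpow_of_nonpos (by positivity) _ (by norm_num)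
      rw [inv_mul_le_iff₀ hC0]
      exact hBd
    have h6 : (C⁻¹ * (B * d)) ^ (-(7 / 4) : ℝ) =
        (C⁻¹) ^ (-(7 / 4) : ℝ) * (B ^ (-(7 / 4) : ℝ) * d ^ (-(7 / 4) : ℝ)) := by
      rw [Real.mul_rpow (by positivity) (by positivity), Real.mul_rpow hB.le hd.le]
    have h8 : (C⁻¹ : ℝ) ^ (-(7 / 4) : ℝ) ≤ C ^ 2 := by
      rw [Real.inv_rpow hC0.le, Real.rpow_neg hC0.le, inv_inv]
      calc C ^ ((7 / 4) : ℝ) ≤ C ^ (2 : ℝ) :=
            Real.rpow_le_rpow_of_exponent_le hC (by norm_num)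
        _ = C ^ 2 := by norm_cast
    rw [h6] at h5
    refine h5.trans (mul_le_mul_of_nonneg_right h8 ?_)
    exact mul_nonneg (Real.rpow_nonneg hB.le _) (Real.rpow_nonneg hd.le _)
  refine h1.trans ?_
  rw [h2]
  have h5 : Φ ^ (-(1 / 4) : ℝ) * Φ ^ (-(7 / 4) : ℝ) ≤
      m ^ (-(1 / 4) : ℝ) * (C ^ 2 * (B ^ (-(7 / 4) : ℝ) * d ^ (-(7 / 4) : ℝ))) :=
    mul_le_mul h3 h4 (Real.rpow_nonneg hΦ.le _) (Real.rpow_nonneg hm.le _)
  have h6 : B ^ 2 * B ^ (-(7 / 4) : ℝ) = B ^ (1 / 4 : ℝ) := by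
    rw [← Real.rpow_natCast B 2, ← Real.rpow_add hB]
    norm_num
  calc 16 * B ^ 2 * (Φ ^ (-(1 / 4) : ℝ) * Φ ^ (-(7 / 4) : ℝ)) ≤
      16 * B ^ 2 * (m ^ (-(1 / 4) : ℝ) * (C ^ 2 * (B ^ (-(7 / 4) : ℝ) * d ^ (-(7 / 4) : ℝ)))) :=
        mul_le_mul_of_nonneg_left h5 (by positivity)
    _ = 16 * C ^ 2 * m ^ (-(1 / 4) : ℝ) * (B ^ 2 * B ^ (-(7 / 4) : ℝ)) * d ^ (-(7 / 4) : ℝ) := by ring
    _ = _ := by rw [h6]

/-- the fourth root of `t / m` -/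
theorem ie_root (C t δ : ℝ) (hC : 1 ≤ C) (ht : 0 < t) (hδ : 0 < δ) :
    (min (δ / (2 * C)) (δ ^ 2 / (4 * C ^ 2 * t))) ^ (-(1 / 4) : ℝ) * t ^ (1 / 4 : ℝ) ≤
      2 * C * (1 + √(t / δ)) := by
  have hC0 : 0 < C := by linarith
  have hx0 : 0 ≤ √(t / δ) := Real.sqrt_nonneg _
  have hx2 : √(t / δ) ^ 2 = t / δ := Real.sq_sqrt (by positivity)
  have hm : 0 < min (δ / (2 * C)) (δ ^ 2 / (4 * C ^ 2 * t)) := lt_min (by positivity) (by positivity)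
  have key : t / min (δ / (2 * C)) (δ ^ 2 / (4 * C ^ 2 * t)) ≤ (2 * C * (1 + √(t / δ))) ^ 4 := by
    have hC3 : 1 ≤ C ^ 3 := one_le_pow₀ hC
    rcases min_choice (δ / (2 * C)) (δ ^ 2 / (4 * C ^ 2 * t)) with h | h
    · rw [h]
      have e : t / (δ / (2 * C)) = 2 * C * √(t / δ) ^ 2 := by
        rw [hx2]; field_simp
      rw [e]
      generalize √(t / δ) = x at *
      have h1 : x ^ 2 ≤ (1 + x) ^ 4 := by
        have h2 : x ^ 2 ≤ (1 + x) ^ 2 := by nlinarith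
        have h3 : 1 ≤ (1 + x) ^ 2 := by nlinarith
        calc x ^ 2 ≤ (1 + x) ^ 2 * 1 := by linarith
          _ ≤ (1 + x) ^ 2 * (1 + x) ^ 2 := mul_le_mul_of_nonneg_left h3 (by positivity)
          _ = (1 + x) ^ 4 := by ring
      calc 2 * C * x ^ 2 ≤ (2 * C) * (1 + x) ^ 4 := mul_le_mul_of_nonneg_left h1 (by positivity)
        _ ≤ (16 * C ^ 4) * (1 + x) ^ 4 := by
            apply mul_le_mul_of_nonneg_right _ (by positivity)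
            nlinarith
        _ = (2 * C * (1 + x)) ^ 4 := by ring
    · rw [h]
      have e : t / (δ ^ 2 / (4 * C ^ 2 * t)) = 4 * C ^ 2 * (√(t / δ) ^ 2) ^ 2 := by
        rw [hx2]; field_simp
      rw [e]
      generalize √(t / δ) = x at *
      have h1 : x ^ 4 ≤ (1 + x) ^ 4 := pow_le_pow_left₀ hx0 (by linarith) 4
      calc 4 * C ^ 2 * (x ^ 2) ^ 2 = 4 * C ^ 2 * x ^ 4 := by ring
        _ ≤ 4 * C ^ 2 * (1 + x) ^ 4 := mul_le_mul_of_nonneg_left h1 (by positivity)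
        _ ≤ (16 * C ^ 4) * (1 + x) ^ 4 := by
            apply mul_le_mul_of_nonneg_right _ (by positivity)
            nlinarith [one_le_pow₀ (n := 2) hC]
        _ = (2 * C * (1 + x)) ^ 4 := by ring
  have e : (min (δ / (2 * C)) (δ ^ 2 / (4 * C ^ 2 * t))) ^ (-(1 / 4) : ℝ) * t ^ (1 / 4 : ℝ) =
      (t / min (δ / (2 * C)) (δ ^ 2 / (4 * C ^ 2 * t))) ^ (1 / 4 : ℝ) := by
    rw [Real.div_rpow ht.le hm.le, Real.rpow_neg hm.le]
    field_simp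
  rw [e]
  calc _ ≤ ((2 * C * (1 + √(t / δ))) ^ 4) ^ (1 / 4 : ℝ) :=
        Real.rpow_le_rpow (by positivity) key (by norm_num)
    _ = 2 * C * (1 + √(t / δ)) := by
        rw [← Real.rpow_natCast, ← Real.rpow_mul (by positivity)]
        norm_num

theorem ie_broot (C t B : ℝ) (hC : 1 ≤ C) (ht : 0 < t) (hB : 0 ≤ B) (h : B ^ 2 ≤ 9 / 4 * C * t) :
    B ^ (1 / 4 : ℝ) * B ^ (1 / 4 : ℝ) ≤ 2 * C * t ^ (1 / 4 : ℝ) := by
  have hC0 : 0 < C := by linarith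
  have e : B ^ (1 / 4 : ℝ) * B ^ (1 / 4 : ℝ) = (B ^ 2) ^ (1 / 4 : ℝ) := by
    rw [← Real.mul_rpow hB hB, sq]
  rw [e]
  have h1 : B ^ 2 ≤ (2 * C) ^ 4 * t := by
    have hC3 : 1 ≤ C ^ 3 := one_le_pow₀ hC
    refine h.trans (mul_le_mul_of_nonneg_right ?_ ht.le)
    nlinarith
  calc (B ^ 2) ^ (1 / 4 : ℝ) ≤ ((2 * C) ^ 4 * t) ^ (1 / 4 : ℝ) :=
        Real.rpow_le_rpow (by positivity) h1 (by norm_num)
    _ = 2 * C * t ^ (1 / 4 : ℝ) := by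
        rw [Real.mul_rpow (by positivity) ht.le, ← Real.rpow_natCast, ← Real.rpow_mul (by positivity)]
        norm_num

theorem ie_sum4 (F1 F2 F3 F4 : ℂ → ℝ) (a1 a2 a3 a4 : ℝ) (i1 : Integrable F1) (i2 : Integrable F2)
    (i3 : Integrable F3) (i4 : Integrable F4) :
    ∫ η : ℂ, (((a1 * F1 η + a2 * F2 η) + a3 * F3 η) + a4 * F4 η) =
      a1 * (∫ η : ℂ, F1 η) + a2 * (∫ η : ℂ, F2 η) + a3 * (∫ η : ℂ, F3 η) + a4 * (∫ η : ℂ, F4 η) := by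
  have h12 : Integrable (fun η => a1 * F1 η + a2 * F2 η) := (i1.const_mul a1).add (i2.const_mul a2)
  have h123 : Integrable (fun η => (a1 * F1 η + a2 * F2 η) + a3 * F3 η) := h12.add (i3.const_mul a3)
  rw [integral_add h123 (i4.const_mul a4), integral_add h12 (i3.const_mul a3),
    integral_add (i1.const_mul a1) (i2.const_mul a2), integral_const_mul, integral_const_mul,
    integral_const_mul, integral_const_mul]

set_option maxHeartbeats 4000000 in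
theorem int_est_aux (C : ℝ) (hC : 1 ≤ C) : ∃ C' : ℝ, 0 ≤ C' ∧ ∀ (S : Set ℂ), MeasurableSet S →
    S ⊆ ball 0 1 → ∀ (Φ r β : ℂ → ℝ) (y D₀ b : ℂ) (t δ : ℝ), 0 < t → 0 < δ →
    (∀ η ∈ S, 0 < r η) → (∀ η ∈ S, r η ≤ 2 * Φ η) → (∀ η ∈ S, ‖η - y‖ ^ 2 ≤ 2 * Φ η) →
    (∀ η ∈ S, r η ≤ C * t) → (∀ η ∈ S, 0 ≤ β η) → (∀ η ∈ S, β η ^ 2 ≤ C * t) →
    (∀ η ∈ S, |β η - ‖b‖| ≤ C * ‖η - y‖) → (∀ η ∈ S, ‖D₀ + (y - η) * b‖ ≤ C * Φ η) →
    (∀ η ∈ S, δ ≤ C * (√(t * Φ η) + Φ η)) →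
    ∫ η in S, r η * (β η ^ 2 + Φ η) / Φ η ^ 3 ≤ C' * (1 + √(t / δ)) := by
  classical
  have hC0 : 0 < C := by linarith
  refine ⟨4 * Real.pi * C ^ 2 + 4 * Real.pi * C +
    (16 * Real.pi * (8 * C ^ 2 + 1) + 256 * Real.pi * C ^ 3) * (2 * C), by positivity, ?_⟩
  intro S hS _ Φ r β y D₀ b t δ ht hδ hr hrΦ hR hrt hβ0 hβt hβb hD hδΦ
  obtain ⟨m, hm⟩ : ∃ m, m = min (δ / (2 * C)) (δ ^ 2 / (4 * C ^ 2 * t)) := ⟨_, rfl⟩
  have hm0 : 0 < m := by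
    rw [hm]; exact lt_min (by positivity) (by positivity)
  have hroot := ie_root C t δ hC ht hδ
  rw [← hm] at hroot
  have hΦ0 : ∀ η ∈ S, 0 < Φ η := by
    intro η hη
    have h1 := hr η hη
    have h2 := hrΦ η hη
    linarith
  have hmΦ : ∀ η ∈ S, m ≤ Φ η := by
    intro η hη
    have h1 := hδΦ η hη
    have hp := hΦ0 η hη
    rw [hm]
    by_cases h2 : δ / 2 ≤ C * Φ η
    · refine (min_le_left _ _).trans ?_
      rw [div_le_iff₀ (by positivity)]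
      linarith
    · refine (min_le_right _ _).trans ?_
      have h3 : δ / 2 ≤ C * √(t * Φ η) := by
        push Not at h2
        linarith
      have h4 : (δ / 2) ^ 2 ≤ (C * √(t * Φ η)) ^ 2 := pow_le_pow_left₀ (by positivity) h3 2
      rw [mul_pow, Real.sq_sqrt (by positivity)] at h4
      rw [div_le_iff₀ (by positivity)]
      linarith
  obtain ⟨B, hB⟩ : ∃ B, B = ‖b‖ := ⟨_, rfl⟩
  have hB0 : 0 ≤ B := by rw [hB]; exact norm_nonneg _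
  obtain ⟨η', hη'⟩ : ∃ η', η' = y + D₀ / b := ⟨_, rfl⟩
  obtain ⟨M, hM⟩ : ∃ M, M = m ^ (-(1 / 4) : ℝ) := ⟨_, rfl⟩
  have hM0 : 0 ≤ M := by rw [hM]; exact Real.rpow_nonneg hm0.le _
  rw [← hM] at hroot
  obtain ⟨K3, hK3⟩ : ∃ K3 : ℝ, K3 = if B ^ 2 ≤ 9 / 4 * C * t then 16 * C ^ 2 * M * B ^ (1 / 4 : ℝ) else 0 :=
    ⟨_, rfl⟩
  have hK30 : 0 ≤ K3 := by
    rw [hK3]; split_ifs
    · exact mul_nonneg (by positivity) (Real.rpow_nonneg hB0 _)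
    · exact le_rfl
  have hst : 0 < √t := Real.sqrt_pos.mpr ht
  obtain ⟨i1, v1⟩ := ie_out 6 (√t) (by norm_num) hst y
  obtain ⟨i2, v2⟩ := ie_out 4 (√t) (by norm_num) hst y
  obtain ⟨i3, v3⟩ := ie_in (3 / 2) (√t) (by norm_num) hst.le y
  obtain ⟨i4, v4⟩ := ie_in (7 / 4) B (by norm_num) hB0 η'
  obtain ⟨g, hg⟩ : ∃ g : ℂ → ℝ, g = fun η =>
      ((8 * C ^ 2 * t ^ 2 * (Ioi √t).indicator (fun y : ℝ => y ^ (-(6 : ℝ))) ‖η - y‖ +
        4 * C * t * (Ioi √t).indicator (fun y : ℝ => y ^ (-(4 : ℝ))) ‖η - y‖) +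
        4 * (8 * C ^ 2 + 1) * M * (Iic √t).indicator (fun y : ℝ => y ^ (-(3 / 2) : ℝ)) ‖η - y‖) +
        K3 * (Iic B).indicator (fun y : ℝ => y ^ (-(7 / 4) : ℝ)) ‖η - η'‖ := ⟨_, rfl⟩
  have gi : Integrable g := by
    rw [hg]
    exact (((i1.const_mul _).add (i2.const_mul _)).add (i3.const_mul _)).add (i4.const_mul _)
  have ind0 : ∀ (T : Set ℝ) (p x : ℝ), 0 ≤ x → 0 ≤ T.indicator (fun y : ℝ => y ^ p) x := by
    intro T p x hx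
    by_cases h : x ∈ T
    · rw [indicator_of_mem h]; exact Real.rpow_nonneg hx _
    · rw [indicator_of_notMem h]
  have g0 : ∀ η, 0 ≤ g η := by
    intro η
    rw [hg]
    have a1 := ind0 (Ioi √t) (-(6 : ℝ)) ‖η - y‖ (norm_nonneg _)
    have a2 := ind0 (Ioi √t) (-(4 : ℝ)) ‖η - y‖ (norm_nonneg _)
    have a3 := ind0 (Iic √t) (-(3 / 2) : ℝ) ‖η - y‖ (norm_nonneg _)
    have a4 := ind0 (Iic B) (-(7 / 4) : ℝ) ‖η - η'‖ (norm_nonneg _)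
    positivity
  have hpt : ∀ η ∈ S, η ≠ y → η ≠ η' → r η * (β η ^ 2 + Φ η) / Φ η ^ 3 ≤ g η := by
    intro η hη h1 h2
    have hp := hΦ0 η hη
    have hRp : 0 < ‖η - y‖ := norm_pos_iff.mpr (sub_ne_zero.mpr h1)
    have a1 := ind0 (Ioi √t) (-(6 : ℝ)) ‖η - y‖ (norm_nonneg _)
    have a2 := ind0 (Ioi √t) (-(4 : ℝ)) ‖η - y‖ (norm_nonneg _)
    have a3 := ind0 (Iic √t) (-(3 / 2) : ℝ) ‖η - y‖ (norm_nonneg _)
    have a4 := ind0 (Iic B) (-(7 / 4) : ℝ) ‖η - η'‖ (norm_nonneg _)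
    have b1 : 0 ≤ 8 * C ^ 2 * t ^ 2 * (Ioi √t).indicator (fun y : ℝ => y ^ (-(6 : ℝ))) ‖η - y‖ := by
      positivity
    have b2 : 0 ≤ 4 * C * t * (Ioi √t).indicator (fun y : ℝ => y ^ (-(4 : ℝ))) ‖η - y‖ := by
      positivity
    have b3 : 0 ≤ 4 * (8 * C ^ 2 + 1) * M *
        (Iic √t).indicator (fun y : ℝ => y ^ (-(3 / 2) : ℝ)) ‖η - y‖ := by positivity
    have b4 : 0 ≤ K3 * (Iic B).indicator (fun y : ℝ => y ^ (-(7 / 4) : ℝ)) ‖η - η'‖ := by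
      positivity
    rw [hg]
    simp only
    by_cases hI : √t < ‖η - y‖
    · have h3 := ie_p1 C t (Φ η) (r η) (β η) ‖η - y‖ hC ht (hr η hη) hp (hR η hη) (hrt η hη)
        (hβt η hη) hRp
      rw [indicator_of_mem (show ‖η - y‖ ∈ Ioi √t from hI), indicator_of_mem (show ‖η - y‖ ∈ Ioi √t from hI)]
      linarith
    · push Not at hI
      by_cases hIIa : β η ^ 2 ≤ 8 * C ^ 2 * Φ η
      · have h3 := ie_p2 (8 * C ^ 2) m (Φ η) (r η) (β η) ‖η - y‖ (by positivity) hm0 (hr η hη)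
          (hmΦ η hη) (hR η hη) (hrΦ η hη) hIIa hRp
        rw [← hM] at h3
        rw [indicator_of_mem (show ‖η - y‖ ∈ Iic √t from hI)]
        linarith
      · push Not at hIIa
        have hβp : 0 < β η := by
          rcases (hβ0 η hη).lt_or_eq with h | h
          · exact h
          · exfalso
            rw [← h] at hIIa
            have : 0 < 8 * C ^ 2 * Φ η := by positivity
            linarith
        have hRβ : C * ‖η - y‖ ≤ β η / 2 := by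
          have h3 : (C * ‖η - y‖) ^ 2 ≤ (β η / 2) ^ 2 := by
            rw [mul_pow]
            have h4 := hR η hη
            have h5 : C ^ 2 * ‖η - y‖ ^ 2 ≤ C ^ 2 * (2 * Φ η) :=
              mul_le_mul_of_nonneg_left h4 (by positivity)
            linarith
          exact le_of_sq_le_sq h3 (by positivity)
        have h3 := (abs_le.mp (hβb η hη))
        rw [← hB] at h3
        have hB1 : β η ≤ 2 * B := by linarith [h3.2]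
        have hB2 : B ≤ 3 / 2 * β η := by linarith [h3.1]
        have hBp : 0 < B := by linarith
        have hb0 : b ≠ 0 := by
          intro h
          rw [h, norm_zero] at hB
          linarith
        have hcond : B ^ 2 ≤ 9 / 4 * C * t := by
          have h4 := hβt η hη
          have h5 : B ^ 2 ≤ (3 / 2 * β η) ^ 2 := pow_le_pow_left₀ hB0 hB2 2
          linarith
        have hdp : 0 < ‖η - η'‖ := norm_pos_iff.mpr (sub_ne_zero.mpr h2)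
        have hBd : B * ‖η - η'‖ ≤ C * Φ η := by
          have h4 := hD η hη
          have h5 : D₀ + (y - η) * b = -(b * (η - η')) := by
            rw [hη']
            field_simp
            ring
          rw [h5, norm_neg, norm_mul, ← hB] at h4
          exact h4
        have hdB : ‖η - η'‖ ≤ B := by
          have h6 : 8 * C * (B * ‖η - η'‖) ≤ 8 * C * (C * Φ η) :=
            mul_le_mul_of_nonneg_left hBd (by positivity)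
          have h7 : β η ^ 2 ≤ (2 * B) ^ 2 := pow_le_pow_left₀ hβp.le hB1 2
          have h8 : (8 * C * B) * ‖η - η'‖ ≤ (8 * C * B) * B := by
            have h9 : 4 * B ^ 2 ≤ 8 * C * B ^ 2 := by nlinarith [sq_nonneg B]
            nlinarith
          exact le_of_mul_le_mul_left h8 (by positivity)
        have h4 := ie_p3 C m (Φ η) (r η) (β η) B ‖η - η'‖ hC hm0 (hr η hη) (hmΦ η hη)
          (hrΦ η hη) (by nlinarith [one_le_pow₀ (n := 2) hC]) hβp.le hBp hB1 hdp hBd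
        rw [← hM] at h4
        rw [if_pos hcond] at hK3
        rw [← hK3] at h4
        rw [indicator_of_mem (show ‖η - η'‖ ∈ Iic B from hdB)]
        linarith
  have hae : ∀ᵐ η ∂(volume.restrict S), r η * (β η ^ 2 + Φ η) / Φ η ^ 3 ≤ g η := by
    have n1 : ∀ᵐ η ∂(volume.restrict S : Measure ℂ), η ≠ y :=
      ae_restrict_of_ae (compl_mem_ae_iff.mpr (measure_singleton y))
    have n2 : ∀ᵐ η ∂(volume.restrict S : Measure ℂ), η ≠ η' :=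
      ae_restrict_of_ae (compl_mem_ae_iff.mpr (measure_singleton η'))
    filter_upwards [ae_restrict_mem hS, n1, n2] with η h1 h2 h3
    exact hpt η h1 h2 h3
  have hae0 : ∀ᵐ η ∂(volume.restrict S), 0 ≤ r η * (β η ^ 2 + Φ η) / Φ η ^ 3 := by
    filter_upwards [ae_restrict_mem hS] with η h1
    have := hr η h1
    have := hΦ0 η h1
    positivity
  have e1 : ∫ η in S, r η * (β η ^ 2 + Φ η) / Φ η ^ 3 ≤ ∫ η in S, g η :=
    integral_mono_of_nonneg hae0 gi.integrableOn hae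
  have e2 : ∫ η in S, g η ≤ ∫ η, g η :=
    setIntegral_le_integral gi (Filter.Eventually.of_forall g0)
  have e3 : ∫ η, g η = 8 * C ^ 2 * t ^ 2 * (2 * Real.pi * (√t ^ (2 - 6 : ℝ) / (6 - 2))) +
      4 * C * t * (2 * Real.pi * (√t ^ (2 - 4 : ℝ) / (4 - 2))) +
      4 * (8 * C ^ 2 + 1) * M * (2 * Real.pi * (√t ^ (2 - 3 / 2 : ℝ) / (2 - 3 / 2))) +
      K3 * (2 * Real.pi * (B ^ (2 - 7 / 4 : ℝ) / (2 - 7 / 4))) := by
    rw [hg, ← v1, ← v2, ← v3, ← v4]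
    exact ie_sum4 _ _ _ _ _ _ _ _ i1 i2 i3 i4
  have f1 : √t ^ (2 - 6 : ℝ) = (t ^ 2)⁻¹ := by
    rw [Real.sqrt_eq_rpow, ← Real.rpow_mul ht.le, ← Real.rpow_natCast t 2, ← Real.rpow_neg ht.le]
    norm_num
  have f2 : √t ^ (2 - 4 : ℝ) = t⁻¹ := by
    rw [Real.sqrt_eq_rpow, ← Real.rpow_mul ht.le, ← Real.rpow_neg_one]
    norm_num
  have f3 : √t ^ (2 - 3 / 2 : ℝ) = t ^ (1 / 4 : ℝ) := by
    rw [Real.sqrt_eq_rpow, ← Real.rpow_mul ht.le]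
    norm_num
  have f4 : B ^ (2 - 7 / 4 : ℝ) = B ^ (1 / 4 : ℝ) := by norm_num
  rw [f1, f2, f3, f4] at e3
  have k1 : 8 * C ^ 2 * t ^ 2 * (2 * Real.pi * ((t ^ 2)⁻¹ / (6 - 2))) = 4 * Real.pi * C ^ 2 := by
    field_simp
    ring
  have k2 : 4 * C * t * (2 * Real.pi * (t⁻¹ / (4 - 2))) = 4 * Real.pi * C := by
    field_simp
    ring
  have k4 : K3 * (2 * Real.pi * (B ^ (1 / 4 : ℝ) / (2 - 7 / 4))) ≤
      256 * Real.pi * C ^ 3 * (M * t ^ (1 / 4 : ℝ)) := by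
    by_cases hcond : B ^ 2 ≤ 9 / 4 * C * t
    · rw [hK3, if_pos hcond]
      have h1 := ie_broot C t B hC ht hB0 hcond
      have h2 : 16 * C ^ 2 * M * B ^ (1 / 4 : ℝ) * (2 * Real.pi * (B ^ (1 / 4 : ℝ) / (2 - 7 / 4))) =
          128 * Real.pi * C ^ 2 * M * (B ^ (1 / 4 : ℝ) * B ^ (1 / 4 : ℝ)) := by ring
      rw [h2]
      calc 128 * Real.pi * C ^ 2 * M * (B ^ (1 / 4 : ℝ) * B ^ (1 / 4 : ℝ)) ≤
          128 * Real.pi * C ^ 2 * M * (2 * C * t ^ (1 / 4 : ℝ)) :=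
            mul_le_mul_of_nonneg_left h1 (by positivity)
        _ = _ := by ring
    · rw [hK3, if_neg hcond, zero_mul]
      have := Real.rpow_nonneg ht.le (1 / 4 : ℝ)
      positivity
  rw [k1, k2] at e3
  have k3 : 4 * (8 * C ^ 2 + 1) * M * (2 * Real.pi * (t ^ (1 / 4 : ℝ) / (2 - 3 / 2))) =
      16 * Real.pi * (8 * C ^ 2 + 1) * (M * t ^ (1 / 4 : ℝ)) := by ring
  rw [k3] at e3
  have hx0 : 0 ≤ √(t / δ) := Real.sqrt_nonneg _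
  have k5 : 16 * Real.pi * (8 * C ^ 2 + 1) * (M * t ^ (1 / 4 : ℝ)) +
      256 * Real.pi * C ^ 3 * (M * t ^ (1 / 4 : ℝ)) ≤
      (16 * Real.pi * (8 * C ^ 2 + 1) + 256 * Real.pi * C ^ 3) * (2 * C * (1 + √(t / δ))) := by
    rw [← add_mul]
    exact mul_le_mul_of_nonneg_left hroot (by positivity)
  have k6 : 4 * Real.pi * C ^ 2 + 4 * Real.pi * C ≤
      (4 * Real.pi * C ^ 2 + 4 * Real.pi * C) * (1 + √(t / δ)) := by
    have : 0 ≤ 4 * Real.pi * C ^ 2 + 4 * Real.pi * C := by positivity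
    nlinarith
  calc ∫ η in S, r η * (β η ^ 2 + Φ η) / Φ η ^ 3 ≤ ∫ η, g η := e1.trans e2
    _ ≤ (4 * Real.pi * C ^ 2 + 4 * Real.pi * C) * (1 + √(t / δ)) +
        (16 * Real.pi * (8 * C ^ 2 + 1) + 256 * Real.pi * C ^ 3) * (2 * C * (1 + √(t / δ))) := by
          rw [e3]; linarith
    _ = _ := by ring

/-- **TARGET** -/
theorem int_est (C : ℝ) (hC : 1 ≤ C) : ∃ C' : ℝ, 0 ≤ C' ∧ ∀ (S : Set ℂ), MeasurableSet S →
    S ⊆ ball 0 1 → ∀ (Φ r β : ℂ → ℝ) (y D₀ b : ℂ) (t δ : ℝ), 0 < t → 0 < δ →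
    (∀ η ∈ S, 0 < r η) → (∀ η ∈ S, r η ≤ 2 * Φ η) → (∀ η ∈ S, ‖η - y‖ ^ 2 ≤ 2 * Φ η) →
    (∀ η ∈ S, r η ≤ C * t) → (∀ η ∈ S, 0 ≤ β η) → (∀ η ∈ S, β η ^ 2 ≤ C * t) →
    (∀ η ∈ S, |β η - ‖b‖| ≤ C * ‖η - y‖) → (∀ η ∈ S, ‖D₀ + (y - η) * b‖ ≤ C * Φ η) →
    (∀ η ∈ S, δ ≤ C * (√(t * Φ η) + Φ η)) →
    ∫ η in S, r η * (β η ^ 2 + Φ η) / Φ η ^ 3 ≤ C' * (1 + √(t / δ)) := by
  exact int_est_aux C hC

end Pool.Agent.P157C
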