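import Mathlib
import Pool.Agent.P157C.Pw

set_option autoImplicit false

open MeasureTheory Metric Set Filter Topology Complex

namespace Pool.Agent.P157C

/-- a Cauchy-Schwarz step -/
theorem mul_le_sqrt {a b P t C : ℝ} (hC : 1 ≤ C) (hP : 0 ≤ P) (ht : 0 ≤ t)
    (h1 : a ^ 2 ≤ 2 * P) (h2 : b ^ 2 ≤ C * t) : a * b ≤ 2 * C * √(t * P) := by
  have h3 : (a * b) ^ 2 ≤ (2 * C) ^ 2 * (t * P) := by
    have h4 : (a * b) ^ 2 ≤ (2 * P) * (C * t) := by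
      rw [mul_pow]
      exact mul_le_mul h1 h2 (by positivity) (by positivity)
    have h5 : (2 * P) * (C * t) ≤ (2 * C) ^ 2 * (t * P) := by
      have h6 : 0 ≤ t * P := by positivity
      nlinarith [mul_nonneg h6 (sub_nonneg.2 hC), mul_nonneg (mul_nonneg h6 (sub_nonneg.2 hC)) (by linarith : (0:ℝ) ≤ C)]
    exact h4.trans h5
  have h7 : a * b ≤ √((2 * C) ^ 2 * (t * P)) := Real.le_sqrt_of_sq_le h3
  rw [Real.sqrt_mul (by positivity), Real.sqrt_sq (by positivity)] at h7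
  exact h7

/-- **TARGET** -/
theorem pt {κ L : ℝ} (hκ : 0 < κ) (hκ1 : κ ≤ 1) (hL : 1 ≤ L) : ∃ C : ℝ, 1 ≤ C ∧
    ∀ z : ℂ × ℂ → ℂ, LM κ L z → ∀ ζ w y : ℂ, ‖ζ‖ < κ / 2 → ‖w‖ < κ / 2 → ‖y‖ < κ / 2 →
      0 ≤ rho z (w, y) → ∀ η ∈ SS z κ ζ, Pt C z ζ w y η := by
  obtain ⟨C₁, hC₁, hbb⟩ := bb_le hκ hκ1 hL
  have hL2 : 1 ≤ L ^ 2 := by nlinarith
  have hLL : L ≤ L ^ 2 := by nlinarith
  have hLC : L ^ 2 ≤ L ^ 2 * C₁ := by nlinarith
  refine ⟨15 * (L ^ 2 * C₁), by linarith, ?_⟩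
  intro z h ζ w y hζ hw hy hρp η hη
  obtain ⟨hη1, hη2⟩ := hη
  have kζ : ‖ζ‖ < κ := by linarith
  have kw : ‖w‖ < κ := by linarith
  have ky : ‖y‖ < κ := by linarith
  have kη : ‖η‖ < κ := by linarith
  have hre := Ph_re z (ζ, η) (w, y)
  have habs : (Ph z (ζ, η) (w, y)).re ≤ ‖Ph z (ζ, η) (w, y)‖ :=
    (le_abs_self _).trans (Complex.abs_re_le_norm _)
  have hrt := rho_le h (s := (ζ, η)) kζ kη hη2
  have him : 0 < ζ.im := h.im (ζ, η) kζ kη hη2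
  have hbt := hbb z h (ζ, η) kζ hη1 hη2
  have hq := qq_sub_dz h (s := (ζ, η)) (y := y) kζ kη ky
  have hql := qq_le h (s := (ζ, η)) (y := y) kζ kη ky
  have hzs := h.hi (ζ, η) kζ kη
  have hzl := h.lo (ζ, η) kζ kη
  have hd := h.dbd (ζ, η) kζ kη
  have hdy := h.dbd (ζ, y) kζ ky
  have hl1 := h.lip (ζ, y) (ζ, η) kζ ky kζ kη
  have hl2 := h.lip2 (ζ, y) (ζ, η) kζ ky kζ kη
  have hinj := h.inj w ζ y kw kζ ky
  have hz1 : ‖z (ζ, η)‖ ≤ 1 := by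
    have : 0 < rho z (ζ, η) := hη2
    unfold rho at this
    nlinarith [norm_nonneg (z (ζ, η)), sq_nonneg ‖(ζ, η).2‖]
  simp only [sub_self, norm_zero, zero_add] at hl1 hl2
  -- the identity
  have hqd : (y - η) * qq z (ζ, η) y = z (ζ, y) - z (ζ, η) := by
    have := sub_smul_dslope (fun y : ℂ => z (ζ, y)) η y
    simpa [qq] using this
  set P := ‖Ph z (ζ, η) (w, y)‖ with hP
  set r := rho z (ζ, η) with hr
  set b := bb z (ζ, η) with hb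
  set q := qq z (ζ, η) y with hqdef
  have hP0 : 0 ≤ P := norm_nonneg _
  have hr0 : 0 < r := hη2
  simp only [] at hre hrt hbt
  have e1 : r ≤ 2 * P := by
    have := sq_nonneg ‖z (w, y) - z (ζ, η)‖
    have := sq_nonneg ‖y - η‖
    linarith
  have e2 : ‖y - η‖ ^ 2 ≤ 2 * P := by
    have := sq_nonneg ‖z (w, y) - z (ζ, η)‖
    linarith
  have e3 : ‖z (w, y) - z (ζ, η)‖ ^ 2 ≤ 2 * P := by
    have := sq_nonneg ‖y - η‖
    linarith
  set G := q * starRingEnd ℂ (z (ζ, η)) + starRingEnd ℂ η with hG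
  have hGb : G - b = (q - dz z (ζ, η)) * starRingEnd ℂ (z (ζ, η)) := by
    simp only [hG, hb, bb]; ring
  have hGb' : ‖G - b‖ ≤ L * ‖y - η‖ := by
    rw [hGb, norm_mul, RCLike.norm_conj]
    calc _ ≤ (L * ‖y - η‖) * 1 := mul_le_mul hq hz1 (norm_nonneg _) (by positivity)
      _ = _ := mul_one _
  have hGn : ‖G‖ ≤ ‖b‖ + L * ‖y - η‖ := by
    have : ‖G‖ ≤ ‖G - b‖ + ‖b‖ := by
      simpa using norm_add_le (G - b) b
    linarith
  have hPeq : Ph z (ζ, η) (w, y) =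
      (r : ℂ) - (z (w, y) - z (ζ, y)) * starRingEnd ℂ (z (ζ, η)) - (y - η) * G := by
    have n1 : z (ζ, η) * starRingEnd ℂ (z (ζ, η)) = ((‖z (ζ, η)‖ ^ 2 : ℝ) : ℂ) := by
      rw [Complex.mul_conj, Complex.normSq_eq_norm_sq]
    have n2 : η * starRingEnd ℂ η = ((‖η‖ ^ 2 : ℝ) : ℂ) := by
      rw [Complex.mul_conj, Complex.normSq_eq_norm_sq]
    have hrr : (r : ℂ) = 1 - z (ζ, η) * starRingEnd ℂ (z (ζ, η)) - η * starRingEnd ℂ η := by
      rw [n1, n2, hr]; unfold rho; push_cast; ring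
    have hG' : (y - η) * G = (z (ζ, y) - z (ζ, η)) * starRingEnd ℂ (z (ζ, η)) +
        (y - η) * starRingEnd ℂ η := by
      rw [hG, mul_add, ← mul_assoc, hqd]
    rw [hG', hrr]
    unfold Ph
    simp only []
    ring
  set D := z (w, y) - z (ζ, y) with hD
  have hyn : 0 ≤ ‖y - η‖ := norm_nonneg _
  have hbn : 0 ≤ ‖b‖ := norm_nonneg _
  have hmul := mul_le_sqrt hC₁ hP0 him.le e2 hbt
  have hS0 : 0 ≤ √(ζ.im * P) := Real.sqrt_nonneg _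
  -- difference of `bb`
  have hbbd : ‖bb z (ζ, y) - b‖ ≤ (2 * L ^ 2 + 1) * ‖y - η‖ := by
    have h1 : bb z (ζ, y) - b = (dz z (ζ, y) - dz z (ζ, η)) * starRingEnd ℂ (z (ζ, η)) +
        dz z (ζ, y) * starRingEnd ℂ (z (ζ, y) - z (ζ, η)) + starRingEnd ℂ (y - η) := by
      simp only [hb, bb, map_sub]; ring
    rw [h1]
    refine (norm_add_le _ _).trans ?_
    rw [RCLike.norm_conj]
    have h2 : ‖(dz z (ζ, y) - dz z (ζ, η)) * starRingEnd ℂ (z (ζ, η)) +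
        dz z (ζ, y) * starRingEnd ℂ (z (ζ, y) - z (ζ, η))‖ ≤
        (L * ‖y - η‖) * L + L * (L * ‖y - η‖) := by
      refine (norm_add_le _ _).trans (add_le_add ?_ ?_)
      · rw [norm_mul, RCLike.norm_conj]
        exact mul_le_mul hl2 hzs (norm_nonneg _) (by positivity)
      · rw [norm_mul, RCLike.norm_conj]
        exact mul_le_mul hdy hl1 (norm_nonneg _) (by positivity)
    nlinarith
  -- bound of `D`
  have hD1 : ‖D‖ ≤ 2 * (3 * P + 2 * C₁ * √(ζ.im * P) + 2 * L * P) := by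
    have h1 : D * starRingEnd ℂ (z (ζ, η)) = (r : ℂ) - Ph z (ζ, η) (w, y) - (y - η) * G := by
      rw [hPeq]; ring
    have h2 : ‖D‖ * ‖z (ζ, η)‖ ≤ r + P + ‖y - η‖ * ‖G‖ := by
      have h3 : ‖D‖ * ‖z (ζ, η)‖ = ‖D * starRingEnd ℂ (z (ζ, η))‖ := by
        rw [norm_mul, RCLike.norm_conj]
      rw [h3, h1]
      refine (norm_sub_le _ _).trans (add_le_add ((norm_sub_le _ _).trans (add_le_add ?_ le_rfl)) ?_)
      · rw [Complex.norm_real, Real.norm_eq_abs, abs_of_pos hr0]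
      · rw [norm_mul]
    have h4 : ‖y - η‖ * ‖G‖ ≤ ‖y - η‖ * ‖b‖ + L * ‖y - η‖ ^ 2 := by
      have := mul_le_mul_of_nonneg_left hGn hyn
      nlinarith
    have h5 : L * ‖y - η‖ ^ 2 ≤ L * (2 * P) := mul_le_mul_of_nonneg_left e2 (by linarith)
    have h6 : ‖D‖ * (1 / 2) ≤ ‖D‖ * ‖z (ζ, η)‖ := mul_le_mul_of_nonneg_left hzl (norm_nonneg _)
    nlinarith
  have hs2 : √(2 * P) ^ 2 = 2 * P := Real.sq_sqrt (by positivity)
  have hs0 : 0 ≤ √(2 * P) := Real.sqrt_nonneg _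
  have e2' : ‖y - η‖ ≤ √(2 * P) := Real.le_sqrt_of_sq_le e2
  have e3' : ‖z (w, y) - z (ζ, η)‖ ≤ √(2 * P) := Real.le_sqrt_of_sq_le e3
  have hD2 : ‖D‖ ≤ (1 + L) * √(2 * P) := by
    have h1 : D = (z (w, y) - z (ζ, η)) - (z (ζ, y) - z (ζ, η)) := by rw [hD]; ring
    rw [h1]
    refine (norm_sub_le _ _).trans ?_
    have h2 : L * ‖y - η‖ ≤ L * √(2 * P) := mul_le_mul_of_nonneg_left e2' (by linarith)
    linarith
  have hLP : L * P ≤ L ^ 2 * C₁ * P := mul_le_mul_of_nonneg_right (hLL.trans hLC) hP0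
  have hL2P : L ^ 2 * P ≤ L ^ 2 * C₁ * P := mul_le_mul_of_nonneg_right hLC hP0
  have h1P : 1 * P ≤ L ^ 2 * C₁ * P := mul_le_mul_of_nonneg_right (hL2.trans hLC) hP0
  refine
    { im := him
      r1 := e1
      d1 := by rw [norm_sub_rev]; exact e2
      rt := ?_
      bt := ?_
      nn := ?_
      dw := ?_
      bl := ?_
      ex := ?_ }
  · have : L ^ 2 * ζ.im ≤ L ^ 2 * C₁ * ζ.im := mul_le_mul_of_nonneg_right hLC him.le
    nlinarith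
  · have h1 : C₁ * ζ.im ≤ L ^ 2 * C₁ * ζ.im := by
      refine mul_le_mul_of_nonneg_right ?_ him.le
      nlinarith
    nlinarith
  · have h1 : NN z (ζ, η) y = starRingEnd ℂ b * G + (r : ℂ) * (q * starRingEnd ℂ (dz z (ζ, η)) + 1) := rfl
    rw [h1]
    have h2 : ‖starRingEnd ℂ b * G‖ ≤ ‖b‖ * (‖b‖ + L * ‖y - η‖) := by
      rw [norm_mul, RCLike.norm_conj]
      exact mul_le_mul_of_nonneg_left hGn hbn
    have h3 : ‖(r : ℂ) * (q * starRingEnd ℂ (dz z (ζ, η)) + 1)‖ ≤ r * (L * L + 1) := by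
      rw [norm_mul, Complex.norm_real, Real.norm_eq_abs, abs_of_pos hr0]
      refine mul_le_mul_of_nonneg_left ?_ hr0.le
      refine (norm_add_le _ _).trans (add_le_add ?_ (by simp))
      rw [norm_mul, RCLike.norm_conj]
      exact mul_le_mul hql hd (norm_nonneg _) (by linarith)
    have h4 : ‖b‖ * (L * ‖y - η‖) ≤ L * (‖b‖ ^ 2 + ‖y - η‖ ^ 2) / 2 := by
      nlinarith [mul_nonneg (by linarith : (0:ℝ) ≤ L) (sq_nonneg (‖b‖ - ‖y - η‖))]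
    have h5 : r * (L * L + 1) ≤ (2 * P) * (L * L + 1) := mul_le_mul_of_nonneg_right e1 (by positivity)
    have h6 : L * ‖y - η‖ ^ 2 ≤ L * (2 * P) := mul_le_mul_of_nonneg_left e2 (by linarith)
    have h7 : L * ‖b‖ ^ 2 ≤ L ^ 2 * C₁ * ‖b‖ ^ 2 :=
      mul_le_mul_of_nonneg_right (hLL.trans hLC) (by positivity)
    have h8 : 1 * ‖b‖ ^ 2 ≤ L ^ 2 * C₁ * ‖b‖ ^ 2 :=
      mul_le_mul_of_nonneg_right (hL2.trans hLC) (by positivity)
    have h9 := norm_add_le (starRingEnd ℂ b * G) ((r : ℂ) * (q * starRingEnd ℂ (dz z (ζ, η)) + 1))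
    have h10 : 0 ≤ L ^ 2 * C₁ * ‖b‖ ^ 2 := by positivity
    have h11 : 0 ≤ L ^ 2 * C₁ * P := by positivity
    have h12 : ‖b‖ * (‖b‖ + L * ‖y - η‖) = ‖b‖ ^ 2 + ‖b‖ * (L * ‖y - η‖) := by ring
    have h13 : (2 * P) * (L * L + 1) = 2 * (L ^ 2 * P) + 2 * P := by ring
    have h14 : L * (‖b‖ ^ 2 + ‖y - η‖ ^ 2) / 2 = (L * ‖b‖ ^ 2) / 2 + (L * ‖y - η‖ ^ 2) / 2 := by ring
    have h15 : 15 * (L ^ 2 * C₁) * (‖b‖ ^ 2 + P) =
        15 * (L ^ 2 * C₁ * ‖b‖ ^ 2) + 15 * (L ^ 2 * C₁ * P) := by ring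
    have h16 : L * (2 * P) = 2 * (L * P) := by ring
    rw [h15]
    linarith
  · have h1 : L * ‖D‖ ≤ L * (2 * (3 * P + 2 * C₁ * √(ζ.im * P) + 2 * L * P)) :=
      mul_le_mul_of_nonneg_left hD1 (by linarith)
    have h2 : L * (C₁ * √(ζ.im * P)) ≤ L ^ 2 * (C₁ * √(ζ.im * P)) :=
      mul_le_mul_of_nonneg_right hLL (by positivity)
    have h3 : 0 ≤ L ^ 2 * (C₁ * √(ζ.im * P)) := by positivity
    have h11 : 0 ≤ L ^ 2 * C₁ * P := by positivity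
    have h12 : L * (2 * (3 * P + 2 * C₁ * √(ζ.im * P) + 2 * L * P)) =
        6 * (L * P) + 4 * (L * (C₁ * √(ζ.im * P))) + 4 * (L ^ 2 * P) := by ring
    have h15 : 15 * (L ^ 2 * C₁) * (√(ζ.im * P) + P) =
        15 * (L ^ 2 * (C₁ * √(ζ.im * P))) + 15 * (L ^ 2 * C₁ * P) := by ring
    rw [h15]
    have h16 : ‖w - ζ‖ ≤ L * ‖D‖ := hinj
    linarith
  · have h1 : |‖b‖ - ‖bb z (ζ, y)‖| ≤ ‖bb z (ζ, y) - b‖ := by
      rw [norm_sub_rev]; exact abs_norm_sub_norm_le _ _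
    have h2 : (2 * L ^ 2 + 1) * ‖y - η‖ ≤ 15 * (L ^ 2 * C₁) * ‖y - η‖ :=
      mul_le_mul_of_nonneg_right (by linarith) hyn
    rw [norm_sub_rev η y]
    linarith
  · have h1 : D * starRingEnd ℂ (z (ζ, y)) + (y - η) * bb z (ζ, y) =
        ((r : ℂ) - Ph z (ζ, η) (w, y)) + D * starRingEnd ℂ (z (ζ, y) - z (ζ, η)) +
          (y - η) * ((bb z (ζ, y) - b) - (G - b)) := by
      rw [hPeq, map_sub]; ring
    rw [h1]
    have h2 : ‖(r : ℂ) - Ph z (ζ, η) (w, y)‖ ≤ 3 * P := by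
      refine (norm_sub_le _ _).trans ?_
      rw [Complex.norm_real, Real.norm_eq_abs, abs_of_pos hr0]
      linarith
    have h3 : ‖D * starRingEnd ℂ (z (ζ, y) - z (ζ, η))‖ ≤ (1 + L) * L * (2 * P) := by
      rw [norm_mul, RCLike.norm_conj]
      have h4 : ‖z (ζ, y) - z (ζ, η)‖ ≤ L * √(2 * P) :=
        hl1.trans (mul_le_mul_of_nonneg_left e2' (by linarith))
      calc _ ≤ ((1 + L) * √(2 * P)) * (L * √(2 * P)) :=
            mul_le_mul hD2 h4 (norm_nonneg _) (by positivity)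
        _ = (1 + L) * L * √(2 * P) ^ 2 := by ring
        _ = _ := by rw [hs2]
    have h5 : ‖(y - η) * ((bb z (ζ, y) - b) - (G - b))‖ ≤ (2 * L ^ 2 + 1 + L) * (2 * P) := by
      rw [norm_mul]
      have h6 : ‖(bb z (ζ, y) - b) - (G - b)‖ ≤ (2 * L ^ 2 + 1 + L) * ‖y - η‖ := by
        refine (norm_sub_le _ _).trans ?_
        nlinarith
      calc _ ≤ ‖y - η‖ * ((2 * L ^ 2 + 1 + L) * ‖y - η‖) := mul_le_mul_of_nonneg_left h6 hyn
        _ = (2 * L ^ 2 + 1 + L) * ‖y - η‖ ^ 2 := by ring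
        _ ≤ _ := mul_le_mul_of_nonneg_left e2 (by positivity)
    have h9 := norm_add_le ((r : ℂ) - Ph z (ζ, η) (w, y) + D * starRingEnd ℂ (z (ζ, y) - z (ζ, η)))
      ((y - η) * ((bb z (ζ, y) - b) - (G - b)))
    have h10 := norm_add_le ((r : ℂ) - Ph z (ζ, η) (w, y)) (D * starRingEnd ℂ (z (ζ, y) - z (ζ, η)))
    have h11 : (1 + L) * L * (2 * P) = 2 * (L * P) + 2 * (L ^ 2 * P) := by ring
    have h12 : (2 * L ^ 2 + 1 + L) * (2 * P) = 4 * (L ^ 2 * P) + 2 * P + 2 * (L * P) := by ring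
    have h13 : 0 ≤ L ^ 2 * C₁ * P := by positivity
    have h15 : 15 * (L ^ 2 * C₁) * P = 15 * (L ^ 2 * C₁ * P) := by ring
    rw [h15]
    linarith

end Pool.Agent.P157C
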