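import Mathlib
import Pool.Agent.Helper366.IV.CP
import Pool.Agent.Y263.SC.Rep
import Pool.Agent.P157C.Pw

set_option autoImplicit false

open MeasureTheory Metric Set Filter Topology Complex

namespace Pool.Agent.P157C

open Pool.Agent.H720R2.HP (db db_mul db_holo db_congr)

open Pool.Agent.Y263.SC (HDb sq0 sq0_deriv sq0_C1)

/-- hypotheses of the abstract reproducing formula -/
structure RQ (S : Set ℂ) (r : ℂ → ℝ) (b c m : ℂ → ℂ) (χ : ℂ → ℝ) (y : ℂ) (R B D : ℝ) : Prop where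
  op : IsOpen S
  fin : volume S ≠ ⊤
  rC : ContDiffOn ℝ 1 r S
  rd : ∀ η ∈ S, ∀ v, fderiv ℝ r η v = -2 * (b η * v).re
  bC : ContinuousOn b S
  cC : ContDiffOn ℝ 1 c S
  cd : ∀ η ∈ S, db c η = m η
  χC : ContDiff ℝ 1 χ
  χ0 : ∀ η, R < ‖η‖ → χ η = 0
  χ1 : χ y = 1
  χn : ∀ η, 0 ≤ χ η
  χl : ∀ η, χ η ≤ 1
  χB : ∀ η ∈ S, ‖db (fun η => (χ η : ℂ)) η‖ * ‖(y - η)⁻¹‖ ≤ D
  comp : ∀ ε : ℝ, 0 < ε → IsCompact {η | η ∈ S ∧ ε ≤ r η ∧ ‖η‖ ≤ R}
  pos : ∀ η ∈ S, 0 < r η
  mem : y ∈ S
  Re : ∀ η ∈ S, r η + r y ≤ 2 * (((r η : ℝ) : ℂ) - c η * (y - η)).re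
  rB : ∀ η ∈ S, r η ≤ B
  bB : ∀ η ∈ S, ‖b η‖ ≤ B
  cB : ∀ η ∈ S, ‖c η‖ ≤ B
  mB : ∀ η ∈ S, ‖m η‖ ≤ B

section

variable {S : Set ℂ} {r : ℂ → ℝ} {b c m : ℂ → ℂ} {χ : ℂ → ℝ} {y : ℂ} {R B D : ℝ}

/-- the function `u_ε` -/
noncomputable def uu (S : Set ℂ) (r : ℂ → ℝ) (c k : ℂ → ℂ) (χ : ℂ → ℝ) (y : ℂ) (ε : ℝ) : ℂ → ℂ :=
  open scoped Classical in fun η => if η ∈ S then
    ((sq0 ε (r η) : ℝ) : ℂ) * (((χ η : ℂ)) * (k η * ((((r η : ℝ) : ℂ) - ε - c η * (y - η))⁻¹ ^ 2)))
    else 0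

theorem RQ.ne (h : RQ S r b c m χ y R B D) (ε : ℝ) {η : ℂ}
    (hη : η ∈ S) : (r y / 2 - ε) ≤ (((r η : ℝ) : ℂ) - ε - c η * (y - η)).re := by
  have h1 := h.Re η hη
  have h2 := h.pos η hη
  have e : ((r η : ℝ) : ℂ) - ε - c η * (y - η) = (((r η : ℝ) : ℂ) - c η * (y - η)) - (ε : ℂ) := by
    ring
  rw [e, Complex.sub_re (((r η : ℝ) : ℂ) - c η * (y - η)) (ε : ℂ), Complex.ofReal_re]
  linarith

theorem RQ.ne0 (h : RQ S r b c m χ y R B D) {ε : ℝ} (hε2 : ε < r y / 2) {η : ℂ}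
    (hη : η ∈ S) : ((r η : ℝ) : ℂ) - ε - c η * (y - η) ≠ 0 := by
  intro h0
  have := h.ne ε hη
  rw [h0] at this
  simp at this
  linarith

theorem sq0_zero {ε t : ℝ} (h : t ≤ ε) : sq0 ε t = 0 := by
  unfold sq0
  rw [max_eq_right (by linarith)]
  norm_num

/-- `u_ε` vanishes off the compact set -/
theorem RQ.uu0 (h : RQ S r b c m χ y R B D) {k : ℂ → ℂ} {ε : ℝ} {ξ : ℂ}
    (hξ : ξ ∉ {η | η ∈ S ∧ ε ≤ r η ∧ ‖η‖ ≤ R}) : uu S r c k χ y ε ξ = 0 := by
  unfold uu
  by_cases hξS : ξ ∈ S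
  · rw [if_pos hξS]
    by_cases h1 : r ξ < ε
    · rw [sq0_zero h1.le]
      simp
    · have h2 : R < ‖ξ‖ := by
        by_contra hcon
        push Not at hcon h1
        exact hξ ⟨hξS, h1, hcon⟩
      rw [h.χ0 ξ h2]
      simp
  · rw [if_neg hξS]

theorem RQ.db_u (h : RQ S r b c m χ y R B D) {k : ℂ → ℂ} (hk : DifferentiableOn ℂ k S) {ε : ℝ}
    (hε2 : ε < r y / 2) {η : ℂ} (hη : η ∈ S) :
    db (uu S r c k χ y ε) η = k η * db (fun η => (χ η : ℂ)) η * ((max (r η - ε) 0 : ℝ) : ℂ) ^ 2 *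
      (((r η : ℝ) : ℂ) - ε - c η * (y - η))⁻¹ ^ 2 +
      2 * k η * (χ η : ℂ) * ((max (r η - ε) 0 : ℝ) : ℂ) *
      (starRingEnd ℂ (b η) * c η + ((max (r η - ε) 0 : ℝ) : ℂ) * m η) * (y - η) *
      (((r η : ℝ) : ℂ) - ε - c η * (y - η))⁻¹ ^ 3 := by
  have hSn := h.op.mem_nhds hη
  have hdr : DifferentiableAt ℝ r η := (h.rC.differentiableOn one_ne_zero η hη).differentiableAt hSn
  have hr := hdr.hasFDerivAt
  have hk' : DifferentiableAt ℂ k η := (hk η hη).differentiableAt hSn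
  have hc : HDb c (m η) η := ⟨(h.cC.differentiableOn one_ne_zero η hη).differentiableAt hSn,
    h.cd η hη⟩
  have hr1 : HDb (fun η => ((r η : ℝ) : ℂ)) (-(((1 : ℝ) : ℂ) * starRingEnd ℂ (b η))) η :=
    HDb.real (φ := fun t => t) (h.rd η hη) hr (hasDerivAt_id _)
  have hP : HDb (fun η => ((sq0 ε (r η) : ℝ) : ℂ))
      (-(((2 * max (r η - ε) 0 : ℝ) : ℂ) * starRingEnd ℂ (b η))) η :=
    HDb.real (h.rd η hη) hr (sq0_deriv ε (r η))
  have hX : HDb (fun η => (χ η : ℂ)) (db (fun η => (χ η : ℂ)) η) η :=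
    ⟨Complex.ofRealCLM.differentiableAt.comp η (h.χC.differentiable one_ne_zero η), rfl⟩
  have hΨ : HDb (fun η => ((r η : ℝ) : ℂ) - ε - c η * (y - η))
      (-(((1 : ℝ) : ℂ) * starRingEnd ℂ (b η)) - 0 - (c η * 0 + (y - η) * m η)) η := by
    refine (hr1.sub (HDb.holo (f := fun _ => (ε : ℂ)) (differentiableAt_const _))).sub
      (hc.mul (HDb.holo (f := fun η : ℂ => y - η) (by fun_prop)))
  have hne := h.ne0 hε2 hη
  have hQ : HDb (fun η => (((r η : ℝ) : ℂ) - ε - c η * (y - η))⁻¹ ^ 2)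
      ((-2 * (((r η : ℝ) : ℂ) - ε - c η * (y - η))⁻¹ ^ 3) *
        (-(((1 : ℝ) : ℂ) * starRingEnd ℂ (b η)) - 0 - (c η * 0 + (y - η) * m η))) η := by
    refine hΨ.comp (h := fun z : ℂ => z⁻¹ ^ 2) ?_
    have h1 := (hasDerivAt_inv hne).fun_pow 2
    refine h1.congr_deriv ?_
    simp only [Nat.cast_ofNat, Nat.add_one_sub_one, pow_one]
    field_simp
  have hall := hP.mul (hX.mul ((HDb.holo hk').mul hQ))
  have hev : uu S r c k χ y ε =ᶠ[𝓝 η] fun η => ((sq0 ε (r η) : ℝ) : ℂ) *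
      (((χ η : ℂ)) * (k η * ((((r η : ℝ) : ℂ) - ε - c η * (y - η))⁻¹ ^ 2))) := by
    filter_upwards [hSn] with ξ hξ
    unfold uu
    rw [if_pos hξ]
  rw [db_congr hev, hall.2]
  by_cases hc' : r η ≤ ε
  · rw [max_eq_right (by linarith), sq0_zero hc']
    simp
  · push Not at hc'
    have e1 : max (r η - ε) 0 = r η - ε := max_eq_left (by linarith)
    have e2 : sq0 ε (r η) = (r η - ε) ^ 2 := by
      unfold sq0
      rw [e1]
    rw [e1, e2]
    push_cast
    set q : ℂ := ((r η : ℝ) : ℂ) - ε - c η * (y - η) with hq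
    have e3 : ((r η : ℝ) : ℂ) - ε = q + c η * (y - η) := by rw [hq]; ring
    rw [e3]
    field_simp
    ring

theorem RQ.u_C1 (h : RQ S r b c m χ y R B D) {k : ℂ → ℂ} (hk : DifferentiableOn ℂ k S) {ε : ℝ}
    (hε : 0 < ε) (hε2 : ε < r y / 2) : ContDiff ℝ 1 (uu S r c k χ y ε) := by
  rw [contDiff_iff_contDiffAt]
  intro η
  by_cases hη : η ∈ S
  · have hSn := h.op.mem_nhds hη
    have hev : uu S r c k χ y ε =ᶠ[𝓝 η] fun η => ((sq0 ε (r η) : ℝ) : ℂ) *
        (((χ η : ℂ)) * (k η * ((((r η : ℝ) : ℂ) - ε - c η * (y - η))⁻¹ ^ 2))) := by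
      filter_upwards [hSn] with ξ hξ
      unfold uu
      rw [if_pos hξ]
    refine ContDiffAt.congr_of_eventuallyEq ?_ hev
    have hr : ContDiffAt ℝ 1 r η := (h.rC η hη).contDiffAt hSn
    have hc : ContDiffAt ℝ 1 c η := (h.cC η hη).contDiffAt hSn
    have hk1 : ContDiffAt ℝ 1 k η :=
      ((hk.analyticAt hSn).contDiffAt (n := 1)).restrict_scalars ℝ
    have h1 : ContDiffAt ℝ 1 (fun η => ((sq0 ε (r η) : ℝ) : ℂ)) η :=
      Complex.ofRealCLM.contDiff.contDiffAt.comp η ((sq0_C1 ε).contDiffAt.comp η hr)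
    have h2 : ContDiffAt ℝ 1 (fun η => ((r η : ℝ) : ℂ)) η :=
      Complex.ofRealCLM.contDiff.contDiffAt.comp η hr
    have h3 : ContDiffAt ℝ 1 (fun η => ((r η : ℝ) : ℂ) - ε - c η * (y - η)) η :=
      (h2.sub contDiffAt_const).sub (hc.mul (contDiffAt_const.sub contDiffAt_id))
    have h4 : ContDiffAt ℝ 1 (fun η => ((χ η : ℝ) : ℂ)) η :=
      Complex.ofRealCLM.contDiff.contDiffAt.comp η h.χC.contDiffAt
    exact h1.mul (h4.mul (hk1.mul ((h3.inv (h.ne0 hε2 hη)).pow 2)))
  · have hcl := (h.comp ε hε).isClosed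
    have hev : uu S r c k χ y ε =ᶠ[𝓝 η] fun _ => 0 := by
      filter_upwards [hcl.isOpen_compl.mem_nhds (show η ∈ {η | η ∈ S ∧ ε ≤ r η ∧ ‖η‖ ≤ R}ᶜ from
        fun h' => hη h'.1)] with ξ hξ
      exact h.uu0 hξ
    exact contDiffAt_const.congr_of_eventuallyEq hev

/-- the integrand -/
noncomputable def FF (r : ℂ → ℝ) (b c m k : ℂ → ℂ) (χ : ℂ → ℝ) (y : ℂ) (ε : ℝ) (η : ℂ) : ℂ :=
  k η * (db (fun η => (χ η : ℂ)) η * (y - η)⁻¹) * ((max (r η - ε) 0 : ℝ) : ℂ) ^ 2 *
      (((r η : ℝ) : ℂ) - ε - c η * (y - η))⁻¹ ^ 2 +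
      2 * k η * (χ η : ℂ) * ((max (r η - ε) 0 : ℝ) : ℂ) *
      (starRingEnd ℂ (b η) * c η + ((max (r η - ε) 0 : ℝ) : ℂ) * m η) *
      (((r η : ℝ) : ℂ) - ε - c η * (y - η))⁻¹ ^ 3

theorem RQ.eps (h : RQ S r b c m χ y R B D) {k : ℂ → ℂ} (hk : DifferentiableOn ℂ k S) {ε : ℝ}
    (hε : 0 < ε) (hε2 : ε < r y / 2) :
    ∫ η in S, FF r b c m k χ y ε η = Real.pi * k y := by
  have h1 := Pool.Agent.Helper366.IV.cauchy_pompeiu (uu S r c k χ y ε) (h.u_C1 hk hε hε2)
    (HasCompactSupport.intro (h.comp ε hε) (fun ξ hξ => h.uu0 hξ)) y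
  have hy := h.pos y h.mem
  have h2 : uu S r c k χ y ε y = k y := by
    unfold uu
    rw [if_pos h.mem]
    have e1 : sq0 ε (r y) = (r y - ε) ^ 2 := by
      unfold sq0
      rw [max_eq_left (by linarith)]
    have hne : ((r y : ℝ) : ℂ) - ε ≠ 0 := by
      rw [← Complex.ofReal_sub]
      have : r y - ε ≠ 0 := by linarith
      exact_mod_cast this
    rw [e1, sub_self, mul_zero, sub_zero, h.χ1]
    push_cast
    field_simp
  rw [h2] at h1
  rw [← h1]
  have h3 : ∀ w : ℂ, (fderiv ℝ (uu S r c k χ y ε) (y - w) 1 +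
      I * fderiv ℝ (uu S r c k χ y ε) (y - w) I) / 2 / w =
      (fun η => db (uu S r c k χ y ε) η / (y - η)) (y - w) := by
    intro w
    simp only [sub_sub_cancel]
    rfl
  simp only [h3]
  rw [integral_sub_left_eq_self (fun η => db (uu S r c k χ y ε) η / (y - η)) volume y]
  have h4 : ∀ η, η ∉ S → db (uu S r c k χ y ε) η / (y - η) = 0 := by
    intro η hη
    have hcl := (h.comp ε hε).isClosed
    have hev : uu S r c k χ y ε =ᶠ[𝓝 η] fun _ => 0 := by
      filter_upwards [hcl.isOpen_compl.mem_nhds (show η ∈ {η | η ∈ S ∧ ε ≤ r η ∧ ‖η‖ ≤ R}ᶜ from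
        fun h' => hη h'.1)] with ξ hξ
      exact h.uu0 hξ
    rw [db_congr hev, db_holo (differentiableAt_const _), zero_div]
  rw [← setIntegral_eq_integral_of_forall_compl_eq_zero (s := S) h4]
  refine setIntegral_congr_ae h.op.measurableSet ?_
  have hne : ∀ᵐ η ∂(volume : Measure ℂ), η ≠ y :=
    (measure_eq_zero_iff_ae_notMem.1 (measure_singleton (μ := (volume : Measure ℂ)) y)).mono
      (fun x hx => hx)
  filter_upwards [hne] with η hη hηS
  rw [h.db_u hk hε2 hηS]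
  have h5 : y - η ≠ 0 := sub_ne_zero.2 (Ne.symm hη)
  unfold FF
  rw [eq_div_iff h5]
  have h6 : (y - η)⁻¹ * (y - η) = 1 := inv_mul_cancel₀ h5
  linear_combination (k η * db (fun η => (χ η : ℂ)) η * ((max (r η - ε) 0 : ℝ) : ℂ) ^ 2 *
      (((r η : ℝ) : ℂ) - ε - c η * (y - η))⁻¹ ^ 2) * h6

theorem RQ.cont (h : RQ S r b c m χ y R B D) : ContinuousOn m S := by
  have h1 : ContinuousOn (fderiv ℝ c) S := h.cC.continuousOn_fderiv_of_isOpen h.op le_rfl
  have h2 : ContinuousOn (db c) S := by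
    unfold db
    refine ContinuousOn.div_const ?_ 2
    exact (h1.clm_apply continuousOn_const).add
      (continuousOn_const.mul (h1.clm_apply continuousOn_const))
  exact h2.congr (fun η hη => (h.cd η hη).symm)

theorem RQ.contX (h : RQ S r b c m χ y R B D) : Continuous (db (fun η => (χ η : ℂ))) := by
  have h0 : ContDiff ℝ 1 (fun η => (χ η : ℂ)) := Complex.ofRealCLM.contDiff.comp h.χC
  have h1 : Continuous (fderiv ℝ (fun η => (χ η : ℂ))) := h0.continuous_fderiv one_ne_zero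
  unfold db
  exact ((h1.clm_apply continuous_const).add
      (continuous_const.mul (h1.clm_apply continuous_const))).div_const 2

/-- **The abstract reproducing formula.** -/
theorem RQ.repr (h : RQ S r b c m χ y R B D) {k : ℂ → ℂ} (hk : DifferentiableOn ℂ k S) {K : ℝ}
    (hK : ∀ η ∈ S, ‖k η‖ ≤ K) : ∫ η in S, FF r b c m k χ y 0 η = Real.pi * k y := by
  have hy := h.pos y h.mem
  have hSm := h.op.measurableSet
  have hfin : IsFiniteMeasure (volume.restrict S) :=
    ⟨by rw [Measure.restrict_apply_univ]; exact h.fin.lt_top⟩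
  have hK0 : 0 ≤ K := (norm_nonneg _).trans (hK y h.mem)
  have hB0 : 0 ≤ B := hy.le.trans (h.rB y h.mem)
  have hD0 : 0 ≤ D := (mul_nonneg (norm_nonneg _) (norm_nonneg _)).trans (h.χB y h.mem)
  have hmeas : ∀ ε : ℝ, ε < r y / 2 →
      AEStronglyMeasurable (FF r b c m k χ y ε) (volume.restrict S) := by
    intro ε hε2
    have hr : ContinuousOn r S := h.rC.continuousOn
    have hb : ContinuousOn b S := h.bC
    have hc : ContinuousOn c S := h.cC.continuousOn
    have hm := h.cont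
    have h1 : ContinuousOn (fun η => ((max (r η - ε) 0 : ℝ) : ℂ)) S := by
      refine Complex.continuous_ofReal.comp_continuousOn ?_
      exact (hr.sub continuousOn_const).sup continuousOn_const
    have h2 : ContinuousOn (fun η => starRingEnd ℂ (b η) * c η) S :=
      (Complex.continuous_conj.comp_continuousOn hb).mul hc
    have h3 : ContinuousOn (fun η => ((r η : ℝ) : ℂ) - ε - c η * (y - η)) S :=
      ((Complex.continuous_ofReal.comp_continuousOn hr).sub continuousOn_const).sub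
        (hc.mul (continuousOn_const.sub continuousOn_id))
    have h4 : ContinuousOn (fun η => ((χ η : ℝ) : ℂ)) S :=
      (Complex.continuous_ofReal.comp h.χC.continuous).continuousOn
    have h5 : AEStronglyMeasurable (fun η => db (fun η => (χ η : ℂ)) η * (y - η)⁻¹)
        (volume.restrict S) := by
      refine Measurable.aestronglyMeasurable ?_
      exact h.contX.measurable.mul ((measurable_const.sub measurable_id).inv)
    unfold FF
    refine AEStronglyMeasurable.add ?_ ?_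
    · exact (((hk.continuousOn.aestronglyMeasurable hSm).mul h5).mul
        ((h1.pow 2).aestronglyMeasurable hSm)).mul
        (((h3.inv₀ (fun η hη => h.ne0 hε2 hη)).pow 2).aestronglyMeasurable hSm)
    · refine ContinuousOn.aestronglyMeasurable ?_ hSm
      exact (((((continuousOn_const.mul hk.continuousOn).mul h4).mul h1).mul
        (h2.add (h1.mul hm)))).mul ((h3.inv₀ (fun η hη => h.ne0 hε2 hη)).pow 3)
  have hlim : Tendsto (fun ε : ℝ => ∫ η in S, FF r b c m k χ y ε η) (𝓝[>] 0)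
      (𝓝 (∫ η in S, FF r b c m k χ y 0 η)) := by
    refine tendsto_integral_filter_of_dominated_convergence
      (fun _ => K * D * B ^ 2 * (4 / r y) ^ 2 +
        2 * K * 1 * B * (B * B + B * B) * (4 / r y) ^ 3) ?_ ?_ ?_ ?_
    · have : ∀ᶠ ε : ℝ in 𝓝[>] 0, ε < r y / 2 :=
        nhdsWithin_le_nhds (Iio_mem_nhds (by linarith))
      filter_upwards [this] with ε hε
      exact hmeas ε hε
    · have : ∀ᶠ ε : ℝ in 𝓝[>] 0, ε < r y / 4 :=
        nhdsWithin_le_nhds (Iio_mem_nhds (by linarith))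
      filter_upwards [this, self_mem_nhdsWithin] with ε hε hε0
      have hε0' : 0 < ε := hε0
      filter_upwards [ae_restrict_mem hSm] with η hη
      have h1 := h.ne ε hη
      have h2 : r y / 4 ≤ ‖((r η : ℝ) : ℂ) - ε - c η * (y - η)‖ := by
        have := Complex.re_le_norm (((r η : ℝ) : ℂ) - ε - c η * (y - η))
        linarith
      have h3 : ‖(((r η : ℝ) : ℂ) - ε - c η * (y - η))⁻¹‖ ≤ 4 / r y := by
        rw [norm_inv, inv_eq_one_div, div_le_div_iff₀ (by linarith) hy]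
        linarith
      have h4 : max (r η - ε) 0 ≤ B := max_le (by linarith [h.rB η hη]) hB0
      have h5 : 0 ≤ max (r η - ε) 0 := le_max_right _ _
      have h6 : ‖((max (r η - ε) 0 : ℝ) : ℂ)‖ ≤ B := by
        rw [Complex.norm_real, Real.norm_of_nonneg h5]
        exact h4
      have h7 : ‖(starRingEnd ℂ (b η) * c η + ((max (r η - ε) 0 : ℝ) : ℂ) * m η)‖ ≤
          B * B + B * B := by
        refine (norm_add_le _ _).trans (add_le_add ?_ ?_)
        · rw [norm_mul, Complex.norm_conj]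
          exact mul_le_mul (h.bB η hη) (h.cB η hη) (norm_nonneg _) hB0
        · rw [norm_mul]
          exact mul_le_mul h6 (h.mB η hη) (norm_nonneg _) hB0
      have h9 := hK η hη
      have h10 : ‖db (fun η => (χ η : ℂ)) η * (y - η)⁻¹‖ ≤ D := by
        rw [norm_mul]; exact h.χB η hη
      have h11 : ‖((χ η : ℝ) : ℂ)‖ ≤ 1 := by
        rw [Complex.norm_real, Real.norm_of_nonneg (h.χn η)]
        exact h.χl η
      have h8 : ‖(2 : ℂ)‖ = 2 := by simp
      unfold FF
      refine (norm_add_le _ _).trans (add_le_add ?_ ?_)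
      · rw [norm_mul, norm_mul, norm_mul (k η), norm_pow, norm_pow]
        gcongr
      · rw [norm_mul, norm_mul, norm_mul, norm_mul, norm_mul, norm_pow, h8]
        gcongr
    · exact integrable_const _
    · filter_upwards [ae_restrict_mem hSm] with η hη
      have hne := h.ne0 (ε := 0) (by linarith) hη
      have h1 : ContinuousAt (fun ε : ℝ => FF r b c m k χ y ε η) 0 := by
        have c1 : ContinuousAt (fun ε : ℝ => ((max (r η - ε) 0 : ℝ) : ℂ)) 0 := by
          refine Continuous.continuousAt ?_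
          exact Complex.continuous_ofReal.comp ((continuous_const.sub continuous_id).sup
            continuous_const)
        have c2 : ContinuousAt (fun ε : ℝ => (((r η : ℝ) : ℂ) - ε - c η * (y - η))) 0 := by
          refine Continuous.continuousAt ?_
          fun_prop
        unfold FF
        exact ((continuousAt_const.mul (c1.pow 2)).mul ((c2.inv₀ hne).pow 2)).add
          ((((continuousAt_const.mul c1).mul (continuousAt_const.add
          (c1.mul continuousAt_const)))).mul ((c2.inv₀ hne).pow 3))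
      exact h1.tendsto.mono_left nhdsWithin_le_nhds
  have hconst : Tendsto (fun ε : ℝ => ∫ η in S, FF r b c m k χ y ε η) (𝓝[>] 0)
      (𝓝 (Real.pi * k y)) := by
    refine tendsto_const_nhds.congr' ?_
    have : ∀ᶠ ε : ℝ in 𝓝[>] 0, ε < r y / 2 :=
      nhdsWithin_le_nhds (Iio_mem_nhds (by linarith))
    filter_upwards [this, self_mem_nhdsWithin] with ε hε hε0
    exact (h.eps hk hε0 hε).symm
  exact tendsto_nhds_unique hlim hconst

end

section

variable {κ L B : ℝ} {z : ℂ × ℂ → ℂ}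

theorem dslope_symm (f : ℂ → ℂ) (a b : ℂ) : dslope f a b = dslope f b a := by
  by_cases h : a = b
  · rw [h]
  · rw [dslope_of_ne f (Ne.symm h), dslope_of_ne f h, slope_comm]

theorem LM.slice (h : LM κ L z) {ζ : ℂ} (hζ : ‖ζ‖ < κ) :
    DifferentiableOn ℂ (fun y : ℂ => z (ζ, y)) (ball 0 κ) := by
  have h1 : MapsTo (fun y : ℂ => (ζ, y)) (ball 0 κ) {p : ℂ × ℂ | ‖p.1‖ < κ ∧ ‖p.2‖ < κ} := by
    intro y hy
    exact ⟨hζ, by simpa using hy⟩
  exact h.diff.comp (by fun_prop) h1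

/-- the abstract data -/
theorem LM.rq (h : LM κ L z) {χ : ℂ → ℝ} (hχ : Cut κ B χ) {ζ y : ℂ}
    (hζ : ‖ζ‖ < κ / 2) (hy : ‖y‖ < κ / 8) (hρ : 0 < rho z (ζ, y)) :
    RQ (SS z κ ζ) (fun η => rho z (ζ, η)) (fun η => bb z (ζ, η))
      (fun η => qq z (ζ, η) y * starRingEnd ℂ (z (ζ, η)) + starRingEnd ℂ η)
      (fun η => qq z (ζ, η) y * starRingEnd ℂ (dz z (ζ, η)) + 1) χ y (3 * κ / 8) (L * L + 1)
      (B * (8 / κ)) := by
  have hκ := h.κ0
  have hκ1 := h.κ1
  have hL := h.L1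
  have hζ' : ‖ζ‖ < κ := by linarith
  have hyκ : ‖y‖ < κ := by linarith
  set f : ℂ → ℂ := fun y : ℂ => z (ζ, y) with hfdef
  have hf : DifferentiableOn ℂ f (ball 0 κ) := h.slice hζ'
  have hSb : SS z κ ζ ⊆ ball 0 κ := by
    intro η hη
    have : ‖η‖ < κ / 2 := hη.1
    simp only [mem_ball_zero_iff]
    linarith
  have hfd : ∀ η ∈ ball (0 : ℂ) κ, DifferentiableAt ℂ f η := fun η hη =>
    hf.differentiableAt (isOpen_ball.mem_nhds hη)
  have hfC : ContDiffOn ℝ 1 f (ball 0 κ) := by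
    intro η hη
    have : AnalyticAt ℂ f η := hf.analyticAt (isOpen_ball.mem_nhds hη)
    exact ((this.contDiffAt (n := 1)).restrict_scalars ℝ).contDiffWithinAt
  have hf'C : ContDiffOn ℝ 1 (deriv f) (ball 0 κ) := by
    intro η hη
    have : AnalyticAt ℂ (deriv f) η := (hf.analyticAt (isOpen_ball.mem_nhds hη)).deriv
    exact ((this.contDiffAt (n := 1)).restrict_scalars ℝ).contDiffWithinAt
  have hqd : DifferentiableOn ℂ (dslope f y) (ball 0 κ) :=
    (Complex.differentiableOn_dslope (isOpen_ball.mem_nhds (by simpa using hyκ))).2 hf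
  have hqC : ContDiffOn ℝ 1 (dslope f y) (ball 0 κ) := by
    intro η hη
    have : AnalyticAt ℂ (dslope f y) η := hqd.analyticAt (isOpen_ball.mem_nhds hη)
    exact ((this.contDiffAt (n := 1)).restrict_scalars ℝ).contDiffWithinAt
  have hconj : ContDiff ℝ 1 (fun w : ℂ => starRingEnd ℂ w) := Complex.conjCLE.contDiff
  -- the function `r`
  have hr0 : (fun η => rho z (ζ, η)) = fun η => 1 - ‖f η‖ ^ 2 - ‖η‖ ^ 2 := rfl
  have hrC : ContDiffOn ℝ 1 (fun η => rho z (ζ, η)) (ball 0 κ) := by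
    rw [hr0]
    exact (contDiffOn_const.sub (hfC.norm_sq ℝ)).sub (contDiff_id.contDiffOn.norm_sq ℝ)
  have hop : IsOpen (SS z κ ζ) := by
    have h1 : IsOpen (ball (0 : ℂ) κ ∩ (fun η => rho z (ζ, η)) ⁻¹' Ioi 0) :=
      hrC.continuousOn.isOpen_inter_preimage isOpen_ball isOpen_Ioi
    have h2 : SS z κ ζ = ball (0 : ℂ) (κ / 2) ∩
        (ball (0 : ℂ) κ ∩ (fun η => rho z (ζ, η)) ⁻¹' Ioi 0) := by
      ext η
      simp only [SS, mem_ofPred_eq, mem_inter_iff, mem_ball_zero_iff, mem_preimage, mem_Ioi]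
      constructor
      · rintro ⟨a, b⟩
        exact ⟨a, by linarith, b⟩
      · rintro ⟨a, _, b⟩
        exact ⟨a, b⟩
    rw [h2]
    exact isOpen_ball.inter h1
  have hq : ∀ η, qq z (ζ, η) y = dslope f y η := by
    intro η
    unfold qq
    exact dslope_symm f η y
  have hbb : ∀ η, bb z (ζ, η) = deriv f η * starRingEnd ℂ (f η) + starRingEnd ℂ η := fun η => rfl
  have hdz : ∀ η, dz z (ζ, η) = deriv f η := fun η => rfl
  -- the slope bound
  have hqB : ∀ η ∈ SS z κ ζ, ‖dslope f y η‖ ≤ L := by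
    intro η hη
    have hηκ : ‖η‖ < κ := by simpa using hSb hη
    by_cases hne : η = y
    · rw [hne, dslope_same]
      exact h.dbd (ζ, y) hζ' hyκ
    · rw [dslope_of_ne f hne, slope_def_module, norm_smul, norm_inv]
      have h1 := h.lip (ζ, η) (ζ, y) hζ' hηκ hζ' hyκ
      simp only [sub_self, norm_zero, zero_add] at h1
      have h2 : 0 < ‖η - y‖ := norm_pos_iff.2 (sub_ne_zero.2 hne)
      rw [inv_mul_le_iff₀ h2]
      calc ‖f η - f y‖ ≤ L * ‖η - y‖ := h1
        _ = ‖η - y‖ * L := mul_comm _ _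
  have hηn : ∀ η ∈ SS z κ ζ, ‖η‖ ≤ 1 := by
    intro η hη
    have : ‖η‖ < κ / 2 := hη.1
    linarith
  have hΨ : ∀ η, ((rho z (ζ, η) : ℝ) : ℂ) -
      (qq z (ζ, η) y * starRingEnd ℂ (z (ζ, η)) + starRingEnd ℂ η) * (y - η) =
      1 - f y * starRingEnd ℂ (f η) - y * starRingEnd ℂ η := by
    intro η
    have h1 : (y - η) * qq z (ζ, η) y = f y - f η := by
      have := sub_smul_dslope f η y
      simpa [qq, smul_eq_mul] using this
    have h2 : ((rho z (ζ, η) : ℝ) : ℂ) = 1 - f η * starRingEnd ℂ (f η) - η * starRingEnd ℂ η := by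
      rw [Complex.mul_conj, Complex.mul_conj, Complex.normSq_eq_norm_sq, Complex.normSq_eq_norm_sq]
      simp only [rho]
      push_cast
      rfl
    rw [h2]
    linear_combination (-starRingEnd ℂ (f η)) * h1
  refine ⟨hop, ?_, hrC.mono hSb, ?_, ?_, ?_, ?_, hχ.smooth, ?_, hχ.one y (by linarith), hχ.nn,
    hχ.le, ?_, ?_, fun η hη => hη.2, ⟨by linarith, hρ⟩, ?_, ?_, ?_, ?_, ?_⟩
  · -- finite volume
    have h1 : SS z κ ζ ⊆ ball 0 κ := hSb
    exact ((measure_mono h1).trans_lt measure_ball_lt_top).ne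
  · -- the derivative of r
    intro η hη v
    have hF : HasFDerivAt f ((ContinuousLinearMap.toSpanSingleton ℂ (deriv f η)).restrictScalars ℝ)
        η := ((hfd η (hSb hη)).hasDerivAt.hasFDerivAt).restrictScalars ℝ
    have h1 := hF.norm_sq
    have h2 := (hasFDerivAt_id (𝕜 := ℝ) η).norm_sq
    have h3 := ((hasFDerivAt_const (1 : ℝ) η).sub h1).sub h2
    have h4 : HasFDerivAt (fun η => rho z (ζ, η)) _ η := h3
    rw [h4.fderiv, hbb]
    simp only [_root_.sub_apply, _root_.zero_apply, _root_.smul_apply,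
      ContinuousLinearMap.comp_apply, innerSL_apply_apply,
      ContinuousLinearMap.coe_restrictScalars', ContinuousLinearMap.toSpanSingleton_apply,
      smul_eq_mul, ContinuousLinearMap.id_apply, Complex.inner, id]
    simp
    ring
  · -- continuity of b
    have h1 : ContinuousOn (fun η => deriv f η * starRingEnd ℂ (f η) + starRingEnd ℂ η)
        (ball 0 κ) :=
      (hf'C.continuousOn.mul (Complex.continuous_conj.comp_continuousOn hfC.continuousOn)).add
        Complex.continuous_conj.continuousOn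
    exact h1.mono hSb
  · -- smoothness of c
    have h1 : ContDiffOn ℝ 1 (fun η => dslope f y η * starRingEnd ℂ (f η) + starRingEnd ℂ η)
        (ball 0 κ) :=
      (hqC.mul (hconj.comp_contDiffOn hfC)).add hconj.contDiffOn
    refine (h1.mono hSb).congr (fun η _ => ?_)
    rw [hq]
  · -- the derivative of c
    intro η hη
    have e : (fun η => qq z (ζ, η) y * starRingEnd ℂ (z (ζ, η)) + starRingEnd ℂ η) =
        fun η => dslope f y η * starRingEnd ℂ (f η) + starRingEnd ℂ η := by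
      funext η
      rw [hq]
    rw [e, hq, hdz]
    have hq' : DifferentiableAt ℂ (dslope f y) η :=
      hqd.differentiableAt (isOpen_ball.mem_nhds (hSb hη))
    have hF : HasFDerivAt f ((ContinuousLinearMap.toSpanSingleton ℂ (deriv f η)).restrictScalars ℝ)
        η := ((hfd η (hSb hη)).hasDerivAt.hasFDerivAt).restrictScalars ℝ
    have h1 : HasFDerivAt (fun η => starRingEnd ℂ (f η))
        ((Complex.conjCLE : ℂ →L[ℝ] ℂ).comp
          ((ContinuousLinearMap.toSpanSingleton ℂ (deriv f η)).restrictScalars ℝ)) η :=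
      (Complex.conjCLE : ℂ →L[ℝ] ℂ).hasFDerivAt.comp η hF
    have h2 : HasFDerivAt (fun η : ℂ => starRingEnd ℂ η) (Complex.conjCLE : ℂ →L[ℝ] ℂ) η :=
      (Complex.conjCLE : ℂ →L[ℝ] ℂ).hasFDerivAt
    have d1 : HDb (fun η => starRingEnd ℂ (f η)) (starRingEnd ℂ (deriv f η)) η := by
      refine ⟨h1.differentiableAt, ?_⟩
      unfold db
      rw [h1.fderiv]
      simp only [ContinuousLinearMap.comp_apply, ContinuousLinearMap.coe_restrictScalars',
        ContinuousLinearMap.toSpanSingleton_apply, smul_eq_mul, one_mul,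
        ContinuousLinearEquiv.coe_coe, Complex.conjCLE_apply, map_mul, Complex.conj_I]
      linear_combination (-(starRingEnd ℂ (deriv f η)) / 2) * Complex.I_mul_I
    have d2 : HDb (fun η : ℂ => starRingEnd ℂ η) 1 η := by
      refine ⟨h2.differentiableAt, ?_⟩
      unfold db
      rw [h2.fderiv]
      simp only [ContinuousLinearEquiv.coe_coe, Complex.conjCLE_apply, map_one, Complex.conj_I]
      linear_combination (-(1 : ℂ) / 2) * Complex.I_mul_I
    have d3 := (HDb.holo hq').mul d1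
    have d4 : HDb (fun η => dslope f y η * starRingEnd ℂ (f η) + starRingEnd ℂ η)
        ((dslope f y η * starRingEnd ℂ (deriv f η) + starRingEnd ℂ (f η) * 0) + 1) η := by
      refine ⟨d3.1.fun_add d2.1, ?_⟩
      have e1 := d3.2
      have e2 := d2.2
      rw [← e1]
      conv_rhs => rw [← e2]
      unfold db
      rw [fderiv_fun_add d3.1 d2.1]
      simp only [_root_.add_apply]
      ring
    rw [d4.2]
    ring
  · -- vanishing of χ
    intro η hη
    exact hχ.zero η hη.le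
  · -- the bound for the derivative of χ
    intro η hη
    have hB : 0 ≤ B := (norm_nonneg _).trans (hχ.bd η)
    by_cases hc : ‖η‖ < κ / 4
    · have h1 : (fun η => (χ η : ℂ)) =ᶠ[𝓝 η] fun _ => 1 := by
        filter_upwards [isOpen_ball.mem_nhds (show η ∈ ball (0 : ℂ) (κ / 4) by simpa using hc)]
          with ξ hξ
        have : ‖ξ‖ < κ / 4 := by simpa using hξ
        rw [hχ.one ξ this.le]
        simp
      rw [db_congr h1, db_holo (differentiableAt_const _), norm_zero, zero_mul]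
      positivity
    · push Not at hc
      have h1 : κ / 8 ≤ ‖y - η‖ := by
        have := norm_sub_norm_le η y
        rw [norm_sub_rev] at this
        linarith
      have h2 : ‖(y - η)⁻¹‖ ≤ 8 / κ := by
        rw [norm_inv, inv_eq_one_div, div_le_div_iff₀ (by linarith) hκ]
        linarith
      exact mul_le_mul (hχ.bd η) h2 (norm_nonneg _) hB
  · -- compactness
    intro ε hε
    have h1 : {η | η ∈ SS z κ ζ ∧ ε ≤ rho z (ζ, η) ∧ ‖η‖ ≤ 3 * κ / 8} =
        closedBall (0 : ℂ) (3 * κ / 8) ∩ (fun η => rho z (ζ, η)) ⁻¹' Ici ε := by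
      ext η
      simp only [SS, mem_ofPred_eq, mem_inter_iff, mem_closedBall_zero_iff, mem_preimage, mem_Ici]
      constructor
      · rintro ⟨_, b, c⟩
        exact ⟨c, b⟩
      · rintro ⟨c, b⟩
        exact ⟨⟨by linarith, by linarith⟩, b, c⟩
    rw [h1]
    refine (isCompact_closedBall (0 : ℂ) (3 * κ / 8)).of_isClosed_subset ?_ inter_subset_left
    refine ContinuousOn.preimage_isClosed_of_isClosed (hrC.continuousOn.mono ?_)
      isClosed_closedBall isClosed_Ici
    exact closedBall_subset_ball (by linarith)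
  · -- the real part
    intro η hη
    rw [hΨ]
    have e1 : rho z (ζ, η) = 1 - ((f η).re * (f η).re + (f η).im * (f η).im) -
        (η.re * η.re + η.im * η.im) := by
      simp only [rho, ← Complex.normSq_eq_norm_sq, Complex.normSq_apply]
      rfl
    have e2 : rho z (ζ, y) = 1 - ((f y).re * (f y).re + (f y).im * (f y).im) -
        (y.re * y.re + y.im * y.im) := by
      simp only [rho, ← Complex.normSq_eq_norm_sq, Complex.normSq_apply]
      rfl
    rw [e1, e2]
    simp only [Complex.sub_re, Complex.one_re, Complex.mul_re, Complex.conj_re, Complex.conj_im]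
    nlinarith [sq_nonneg ((f y).re - (f η).re), sq_nonneg ((f y).im - (f η).im),
      sq_nonneg (y.re - η.re), sq_nonneg (y.im - η.im)]
  · intro η hη
    have : rho z (ζ, η) ≤ 1 := by
      simp only [rho]
      have := sq_nonneg ‖z (ζ, η)‖
      have := sq_nonneg ‖η‖
      linarith
    nlinarith
  · intro η hη
    have hηκ : ‖η‖ < κ := by simpa using hSb hη
    rw [hbb]
    refine (norm_add_le _ _).trans (add_le_add ?_ ?_)
    · rw [norm_mul, Complex.norm_conj]
      exact mul_le_mul (h.dbd (ζ, η) hζ' hηκ) (h.hi (ζ, η) hζ' hηκ) (norm_nonneg _) (by linarith)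
    · rw [Complex.norm_conj]; exact hηn η hη
  · intro η hη
    have hηκ : ‖η‖ < κ := by simpa using hSb hη
    simp only [hq]
    refine (norm_add_le _ _).trans (add_le_add ?_ ?_)
    · rw [norm_mul, Complex.norm_conj]
      exact mul_le_mul (hqB η hη) (h.hi (ζ, η) hζ' hηκ) (norm_nonneg _) (by linarith)
    · rw [Complex.norm_conj]; exact hηn η hη
  · intro η hη
    have hηκ : ‖η‖ < κ := by simpa using hSb hη
    simp only [hq]
    refine (norm_add_le _ _).trans (add_le_add ?_ ?_)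
    · rw [norm_mul, Complex.norm_conj]
      exact mul_le_mul (hqB η hη) (h.dbd (ζ, η) hζ' hηκ) (norm_nonneg _) (by linarith)
    · simp

end

/-- **TARGET** -/
theorem repro {κ L B : ℝ} {z : ℂ × ℂ → ℂ} (h : LM κ L z) {χ : ℂ → ℝ} (hχ : Cut κ B χ) {ζ y : ℂ}
    (hζ : ‖ζ‖ < κ / 2) (hy : ‖y‖ < κ / 8) (hρ : 0 < rho z (ζ, y)) {H : ℂ → ℂ}
    (hH : DifferentiableOn ℂ H (SS z κ ζ)) {M : ℝ} (hM : ∀ η ∈ SS z κ ζ, ‖H η‖ ≤ M) :
    (1 / Real.pi : ℂ) * ∫ η in SS z κ ζ, H η * KK z χ (ζ, η) (ζ, y) = H y := by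
  have hR := h.rq hχ hζ hy hρ
  have h1 := hR.repr hH hM
  have hL := h.L1
  have h2 : ∫ η in SS z κ ζ, H η * KK z χ (ζ, η) (ζ, y) =
      ∫ η in SS z κ ζ, FF (fun η => rho z (ζ, η)) (fun η => bb z (ζ, η))
      (fun η => qq z (ζ, η) y * starRingEnd ℂ (z (ζ, η)) + starRingEnd ℂ η)
      (fun η => qq z (ζ, η) y * starRingEnd ℂ (dz z (ζ, η)) + 1) H χ y 0 η := by
    refine setIntegral_congr_fun hR.op.measurableSet (fun η hη => ?_)
    have hmax : max (rho z (ζ, η) - 0) 0 = rho z (ζ, η) := by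
      rw [sub_zero]; exact max_eq_left hη.2.le
    have hΨ : ((rho z (ζ, η) : ℝ) : ℂ) - ((0 : ℝ) : ℂ) -
        (qq z (ζ, η) y * starRingEnd ℂ (z (ζ, η)) + starRingEnd ℂ η) * (y - η) =
        Ph z (ζ, η) (ζ, y) := by
      have h1 : (y - η) * qq z (ζ, η) y = z (ζ, y) - z (ζ, η) := by
        have := sub_smul_dslope (fun y : ℂ => z (ζ, y)) η y
        simpa [qq, smul_eq_mul] using this
      have h2 : ((rho z (ζ, η) : ℝ) : ℂ) =
          1 - z (ζ, η) * starRingEnd ℂ (z (ζ, η)) - η * starRingEnd ℂ η := by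
        rw [Complex.mul_conj, Complex.mul_conj, Complex.normSq_eq_norm_sq,
          Complex.normSq_eq_norm_sq]
        simp only [rho]
        push_cast
        rfl
      rw [h2]
      simp only [Ph, Complex.ofReal_zero]
      linear_combination (-starRingEnd ℂ (z (ζ, η))) * h1
    simp only [FF]
    rw [hmax, hΨ]
    simp only [KK, NN]
    have e : dbar (fun η => (χ η : ℂ)) η = db (fun η => (χ η : ℂ)) η := rfl
    rw [e]
    generalize y - η = d
    ring
  rw [h2, h1]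
  have hπ : (Real.pi : ℂ) ≠ 0 := by exact_mod_cast Real.pi_ne_zero
  field_simp

end Pool.Agent.P157C
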