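import Mathlib
import Pool.Agent.P157C.PtE
import Pool.Agent.P157C.IntE
import Pool.Agent.P157C.Rep
import Pool.Agent.P157C.EeM
import Pool.Agent.P157C.EeD

set_option autoImplicit false

open MeasureTheory Metric Set Filter Topology Complex

namespace Pool.Agent.P157C

/-- **TARGET 1** -/
theorem cut_exists {κ : ℝ} (hκ : 0 < κ) : ∃ (B : ℝ) (χ : ℂ → ℝ), 0 ≤ B ∧ Cut κ B χ := by
  let f : ContDiffBump (0 : ℂ) := ⟨κ / 4, 3 * κ / 8, by positivity, by linarith⟩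
  have hfs : ContDiff ℝ 1 (fun η : ℂ => f η) := f.contDiff
  have hfc : ContDiff ℝ 1 (fun η : ℂ => ((f η : ℝ) : ℂ)) := Complex.ofRealCLM.contDiff.comp hfs
  have hcs : HasCompactSupport (fun η : ℂ => ((f η : ℝ) : ℂ)) :=
    f.hasCompactSupport.comp_left (g := fun x : ℝ => (x : ℂ)) (by simp)
  have hc : Continuous (fderiv ℝ (fun η : ℂ => ((f η : ℝ) : ℂ))) := hfc.continuous_fderiv one_ne_zero
  obtain ⟨C, hC⟩ := hc.bounded_above_of_compact_support (hcs.fderiv (𝕜 := ℝ))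
  have hC0 : 0 ≤ C := (norm_nonneg _).trans (hC 0)
  refine ⟨C, fun η => f η, hC0, ⟨hfs, ?_, ?_, fun η => f.nonneg, fun η => f.le_one, ?_⟩⟩
  · intro η h
    exact f.one_of_mem_closedBall (by simpa [f] using h)
  · intro η h
    exact f.zero_of_le_dist (by simpa [f] using h)
  · intro η
    have h1 : ‖fderiv ℝ (fun η : ℂ => ((f η : ℝ) : ℂ)) η 1‖ ≤ C := by
      have := (fderiv ℝ (fun η : ℂ => ((f η : ℝ) : ℂ)) η).le_opNorm 1
      rw [norm_one, mul_one] at this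
      exact this.trans (hC η)
    have h2 : ‖fderiv ℝ (fun η : ℂ => ((f η : ℝ) : ℂ)) η Complex.I‖ ≤ C := by
      have := (fderiv ℝ (fun η : ℂ => ((f η : ℝ) : ℂ)) η).le_opNorm Complex.I
      rw [Complex.norm_I, mul_one] at this
      exact this.trans (hC η)
    unfold dbar
    rw [norm_div, Complex.norm_two, div_le_iff₀ (by norm_num)]
    refine (norm_add_le _ _).trans ?_
    rw [norm_mul, Complex.norm_I, one_mul]
    linarith

theorem dbar_zero {κ B : ℝ} {χ : ℂ → ℝ} (hχ : Cut κ B χ) {η : ℂ} (h : ‖η‖ < κ / 4) :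
    dbar (fun η => (χ η : ℂ)) η = 0 := by
  have h1 : (fun η => (χ η : ℂ)) =ᶠ[𝓝 η] fun _ => (1 : ℂ) := by
    have : ∀ᶠ x in 𝓝 η, ‖x‖ < κ / 4 := (continuous_norm.tendsto η).eventually (gt_mem_nhds h)
    filter_upwards [this] with x hx
    simp [hχ.one x hx.le]
  unfold dbar
  rw [h1.fderiv_eq]
  simp

/-- pointwise bound for the kernel -/
theorem KK_le {κ L B C : ℝ} (hB : 0 ≤ B) {z : ℂ × ℂ → ℂ} (h : LM κ L z) {χ : ℂ → ℝ}
    (hχ : Cut κ B χ) {ζ w y η : ℂ} (hy : ‖y‖ < κ / 8) (hη : η ∈ SS z κ ζ) (hC : 1 ≤ C)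
    (hp : Pt C z ζ w y η) :
    ‖KK z χ (ζ, η) (w, y)‖ ≤ 32 * B / κ + 2 * C * (rho z (ζ, η) *
      (‖bb z (ζ, η)‖ ^ 2 + ‖Ph z (ζ, η) (w, y)‖) / ‖Ph z (ζ, η) (w, y)‖ ^ 3) := by
  have hr : 0 < rho z (ζ, η) := hη.2
  have hκ := h.κ0
  set r := rho z (ζ, η) with hrdef
  set Φ := ‖Ph z (ζ, η) (w, y)‖ with hΦdef
  have hΦ : 0 < Φ := by nlinarith [hp.r1]
  unfold KK
  refine (norm_add_le _ _).trans (add_le_add ?_ ?_)
  · simp only
    rw [norm_div, norm_mul, norm_mul, norm_pow, norm_pow, Complex.norm_real, Real.norm_eq_abs,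
      ← hrdef, abs_of_pos hr, ← hΦdef]
    by_cases hc : ‖η‖ < κ / 4
    · rw [dbar_zero hχ hc]
      simp only [norm_zero, zero_mul, zero_div]
      positivity
    · have hyη : κ / 8 ≤ ‖y - η‖ := by
        have := norm_sub_norm_le η y
        rw [norm_sub_rev] at this
        linarith [not_lt.1 hc]
      have hyη0 : 0 < ‖y - η‖ := lt_of_lt_of_le (by positivity) hyη
      rw [div_le_div_iff₀ (by positivity) hκ]
      have hr2 : r ^ 2 ≤ 4 * Φ ^ 2 := by nlinarith [hp.r1]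
      calc ‖dbar (fun η => (χ η : ℂ)) η‖ * r ^ 2 * κ ≤ B * (4 * Φ ^ 2) * (8 * ‖y - η‖) := by
            gcongr
            · exact hχ.bd η
            · linarith
        _ = 32 * B * (Φ ^ 2 * ‖y - η‖) := by ring
  · simp only
    rw [norm_div, norm_mul, norm_mul, norm_mul, norm_pow, Complex.norm_real, Complex.norm_real,
      Real.norm_eq_abs, Real.norm_eq_abs, ← hrdef, abs_of_pos hr, ← hΦdef, Complex.norm_two,
      abs_of_nonneg (hχ.nn η), ← mul_div_assoc]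
    refine div_le_div_of_nonneg_right ?_ (by positivity)
    calc 2 * χ η * r * ‖NN z (ζ, η) y‖ ≤ 2 * 1 * r * (C * (‖bb z (ζ, η)‖ ^ 2 + Φ)) := by
          gcongr
          · exact hχ.le η
          · exact hp.nn
      _ = 2 * C * (r * (‖bb z (ζ, η)‖ ^ 2 + Φ)) := by ring

theorem SS_open {κ L : ℝ} {z : ℂ × ℂ → ℂ} (h : LM κ L z) {ζ : ℂ} (hζ : ‖ζ‖ < κ) :
    IsOpen (SS z κ ζ) := by
  have hκ := h.κ0
  have hz : ContinuousOn (fun η => z (ζ, η)) {η | ‖η‖ < κ / 2} := by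
    refine h.diff.continuousOn.comp (by fun_prop) ?_
    intro η hη
    exact ⟨hζ, lt_trans hη (by linarith)⟩
  have hr : ContinuousOn (fun η => rho z (ζ, η)) {η | ‖η‖ < κ / 2} := by
    unfold rho
    exact (continuousOn_const.sub (hz.norm.pow 2)).sub (continuous_norm.continuousOn.pow 2)
  have ho : IsOpen {η : ℂ | ‖η‖ < κ / 2} := isOpen_lt continuous_norm continuous_const
  have := hr.isOpen_inter_preimage ho (isOpen_Ioi (a := (0 : ℝ)))
  exact this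

theorem bound_int {κ L C θ : ℝ} {z : ℂ × ℂ → ℂ} (h : LM κ L z) (hθ : 0 < θ) (hC : 1 ≤ C)
    {ζ w y : ℂ} (hζ : ‖ζ‖ < κ) (hw : θ < rho z (w, y))
    (hp : ∀ η ∈ SS z κ ζ, Pt C z ζ w y η) :
    Integrable (fun η => rho z (ζ, η) * (‖bb z (ζ, η)‖ ^ 2 + ‖Ph z (ζ, η) (w, y)‖) /
      ‖Ph z (ζ, η) (w, y)‖ ^ 3) (volume.restrict (SS z κ ζ)) := by
  have hκ := h.κ0
  have hSo := SS_open h hζ
  have hSb : SS z κ ζ ⊆ ball 0 1 := by
    intro η hη
    rw [mem_ball_zero_iff]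
    have := hη.1
    linarith [h.κ1]
  have hfin : volume (SS z κ ζ) ≠ ⊤ :=
    ((measure_mono hSb).trans_lt measure_ball_lt_top).ne
  have : IsFiniteMeasure (volume.restrict (SS z κ ζ)) := ⟨by
    rw [Measure.restrict_apply_univ]; exact hfin.lt_top⟩
  have hsub : ∀ η ∈ SS z κ ζ, ‖η‖ < κ := fun η hη => lt_trans hη.1 (by linarith)
  have hz : ContinuousOn (fun η => z (ζ, η)) (SS z κ ζ) := by
    refine h.diff.continuousOn.comp (by fun_prop) ?_
    intro η hη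
    exact ⟨hζ, hsub η hη⟩
  have hdz : ContinuousOn (fun η => dz z (ζ, η)) (SS z κ ζ) := by
    refine (LipschitzOnWith.of_dist_le_mul (K := L.toNNReal) ?_).continuousOn
    intro a ha b hb
    have := h.lip2 (ζ, a) (ζ, b) hζ (hsub a ha) hζ (hsub b hb)
    rw [dist_eq_norm, dist_eq_norm, Real.coe_toNNReal L (by linarith [h.L1])]
    simpa using this
  have hbb : ContinuousOn (fun η => bb z (ζ, η)) (SS z κ ζ) := by
    unfold bb
    exact (hdz.mul (Complex.continuous_conj.comp_continuousOn hz)).add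
      Complex.continuous_conj.continuousOn
  have hPh : ContinuousOn (fun η => Ph z (ζ, η) (w, y)) (SS z κ ζ) := by
    unfold Ph
    exact (continuousOn_const.sub (continuousOn_const.mul
      (Complex.continuous_conj.comp_continuousOn hz))).sub
      (continuousOn_const.mul Complex.continuous_conj.continuousOn)
  have hrho : ContinuousOn (fun η => rho z (ζ, η)) (SS z κ ζ) := by
    unfold rho
    exact (continuousOn_const.sub (hz.norm.pow 2)).sub (continuous_norm.continuousOn.pow 2)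
  have hΦ : ∀ η ∈ SS z κ ζ, θ / 2 ≤ ‖Ph z (ζ, η) (w, y)‖ := by
    intro η hη
    have h1 := Ph_re z (ζ, η) (w, y)
    have h2 := Complex.re_le_norm (Ph z (ζ, η) (w, y))
    have h3 : 0 < rho z (ζ, η) := hη.2
    rw [h1] at h2
    have h4 : 0 ≤ ‖z (w, y) - z (ζ, η)‖ ^ 2 := by positivity
    have h5 : 0 ≤ ‖(w, y).2 - (ζ, η).2‖ ^ 2 := by positivity
    linarith
  have hcont : ContinuousOn (fun η => rho z (ζ, η) * (‖bb z (ζ, η)‖ ^ 2 +
      ‖Ph z (ζ, η) (w, y)‖) / ‖Ph z (ζ, η) (w, y)‖ ^ 3) (SS z κ ζ) := by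
    refine ContinuousOn.div (hrho.mul ((hbb.norm.pow 2).add hPh.norm)) (hPh.norm.pow 3) ?_
    intro η hη
    have := hΦ η hη
    have : 0 < ‖Ph z (ζ, η) (w, y)‖ := by linarith
    positivity
  refine Integrable.of_bound (hcont.aestronglyMeasurable hSo.measurableSet)
    (C * ζ.im * (C * ζ.im) / (θ / 2) ^ 3 + C * ζ.im / (θ / 2) ^ 2) ?_
  filter_upwards [ae_restrict_mem hSo.measurableSet] with η hη
  have h1 := hΦ η hη
  have h2 := hp η hη
  have h3 : 0 < rho z (ζ, η) := hη.2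
  have him := h2.im
  have hΦ0 : 0 < ‖Ph z (ζ, η) (w, y)‖ := by linarith
  rw [Real.norm_eq_abs, abs_of_nonneg (by positivity)]
  have e1 : rho z (ζ, η) * (‖bb z (ζ, η)‖ ^ 2 + ‖Ph z (ζ, η) (w, y)‖) /
      ‖Ph z (ζ, η) (w, y)‖ ^ 3 = rho z (ζ, η) * ‖bb z (ζ, η)‖ ^ 2 / ‖Ph z (ζ, η) (w, y)‖ ^ 3 +
      rho z (ζ, η) / ‖Ph z (ζ, η) (w, y)‖ ^ 2 := by
    field_simp
  rw [e1]
  have hθ2 : 0 < θ / 2 := by positivity
  have hCi : 0 ≤ C * ζ.im := by positivity
  gcongr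
  · exact h2.rt
  · exact h2.bt
  · exact h2.rt

/-- **TARGET 2** -/
theorem ext_exists {κ L : ℝ} (hκ : 0 < κ) (hκ1 : κ ≤ 1) (hL : 1 ≤ L) : ∃ M0 : ℝ, 0 ≤ M0 ∧
    ∀ z : ℂ × ℂ → ℂ, LM κ L z → ∀ θ : ℝ, 0 < θ → ∀ A : Set ℂ, (∀ ζ ∈ A, ‖ζ‖ < κ / 8) →
    ∀ G : ℂ × ℂ → ℂ, DifferentiableOn ℂ G (DD z κ 0) → ∀ η₀ : ℝ, 0 < η₀ →
      (∀ ζ ∈ A, ∀ η : ℂ, (ζ, η) ∈ DD z κ 0 → η₀ ≤ ‖G (ζ, η)‖) →
      ∃ e : ℂ → ℂ × ℂ → ℂ, ExtS (DD z (κ / 8) θ) A G (M0 / η₀) e := by
  obtain ⟨B, χ, hB, hχ⟩ := cut_exists hκ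
  obtain ⟨C, hC, hpt⟩ := pt hκ hκ1 hL
  obtain ⟨C', hC', hint⟩ := int_est C hC
  set V : ℝ := (volume (ball (0 : ℂ) 1)).toReal with hV
  have hV0 : 0 ≤ V := ENNReal.toReal_nonneg
  have hπ := Real.pi_pos
  have hC0 : 0 ≤ C := by linarith
  refine ⟨1 + (1 / Real.pi) * (32 * B / κ * V + 2 * C * C'), by positivity, ?_⟩
  intro z h θ hθ A hA G hG η₀ hη₀ hGl
  have hA2 : ∀ ζ ∈ A, ‖ζ‖ < κ / 2 := fun ζ hζ => lt_trans (hA ζ hζ) (by linarith)
  have hAκ : ∀ ζ ∈ A, ‖ζ‖ < κ := fun ζ hζ => lt_trans (hA ζ hζ) (by linarith)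
  have hmap : ∀ ζ ∈ A, ∀ η ∈ SS z κ ζ, (ζ, η) ∈ DD z κ 0 := by
    intro ζ hζ η hη
    exact ⟨hAκ ζ hζ, lt_trans hη.1 (by linarith), hη.2⟩
  have hM : ∀ ζ ∈ A, ∀ η ∈ SS z κ ζ, ‖(G (ζ, η))⁻¹‖ ≤ 1 / η₀ := by
    intro ζ hζ η hη
    rw [norm_inv, ← one_div]
    exact one_div_le_one_div_of_le hη₀ (hGl ζ hζ η (hmap ζ hζ η hη))
  have hself : ∀ ζ ∈ A, ∀ y : ℂ, (ζ, y) ∈ DD z (κ / 8) θ →
      ee z κ χ G ζ (ζ, y) = (G (ζ, y))⁻¹ := by
    intro ζ hζ y hy
    unfold ee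
    rw [if_pos ⟨hA2 ζ hζ, hy.1, hy.2.1⟩]
    refine repro h hχ (hA2 ζ hζ) hy.2.1 (hθ.trans hy.2.2) (H := fun η => (G (ζ, η))⁻¹) ?_
      (M := 1 / η₀) (hM ζ hζ)
    refine DifferentiableOn.inv ?_ ?_
    · refine hG.comp (by fun_prop) ?_
      intro η hη
      exact hmap ζ hζ η hη
    · intro η hη h0
      have := hGl ζ hζ η (hmap ζ hζ η hη)
      rw [h0, norm_zero] at this
      linarith
  refine ⟨ee z κ χ G, fun y => ee_meas h hχ hG.continuousOn y, hself, ?_, ?_, ?_⟩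
  · intro ζ hζ
    exact ee_diff h hχ hθ hG.continuousOn (hA2 ζ hζ) (hM ζ hζ)
  · rintro ζ hζ ⟨w, y⟩ hp
    simp only
    have hsq : 0 ≤ √(ζ.im / ‖w - ζ‖) := Real.sqrt_nonneg _
    have hM0 : 0 ≤ (1 / Real.pi) * (32 * B / κ * V + 2 * C * C') := by positivity
    by_cases hwζ : w = ζ
    · subst hwζ
      rw [hself w hζ y hp, norm_inv, ← one_div]
      have hp' : (w, y) ∈ DD z κ 0 :=
        ⟨hAκ w hζ, lt_trans hp.2.1 (by linarith), hθ.trans hp.2.2⟩
      have h1 : 1 / ‖G (w, y)‖ ≤ 1 / η₀ := one_div_le_one_div_of_le hη₀ (hGl w hζ y hp')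
      refine h1.trans ?_
      have h2 : (1 : ℝ) ≤ 1 + √(w.im / ‖w - w‖) := by linarith
      calc 1 / η₀ = 1 / η₀ * 1 := by ring
        _ ≤ (1 + 1 / Real.pi * (32 * B / κ * V + 2 * C * C')) / η₀ *
            (1 + √(w.im / ‖w - w‖)) := by
          gcongr
          linarith
    · have hδ : 0 < ‖w - ζ‖ := norm_pos_iff.2 (sub_ne_zero.2 hwζ)
      unfold ee
      rw [if_pos ⟨hA2 ζ hζ, hp.1, hp.2.1⟩]
      have hw2 : ‖w‖ < κ / 2 := lt_trans hp.1 (by linarith)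
      have hy2 : ‖y‖ < κ / 2 := lt_trans hp.2.1 (by linarith)
      have hρ : θ < rho z (w, y) := hp.2.2
      have hP : ∀ η ∈ SS z κ ζ, Pt C z ζ w y η :=
        hpt z h ζ w y (hA2 ζ hζ) hw2 hy2 (hθ.trans hρ).le
      rcases Set.eq_empty_or_nonempty (SS z κ ζ) with hS | ⟨η₁, hη₁⟩
      · rw [hS]
        simp only [Measure.restrict_empty, integral_zero_measure, mul_zero, norm_zero]
        positivity
      · have him : 0 < ζ.im := (hP η₁ hη₁).im
        have hSo := SS_open h (hAκ ζ hζ)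
        have hSb : SS z κ ζ ⊆ ball 0 1 := by
          intro η hη
          rw [mem_ball_zero_iff]
          have := hη.1
          linarith
        have hfin : volume (SS z κ ζ) ≠ ⊤ :=
          ((measure_mono hSb).trans_lt measure_ball_lt_top).ne
        have : IsFiniteMeasure (volume.restrict (SS z κ ζ)) := ⟨by
          rw [Measure.restrict_apply_univ]; exact hfin.lt_top⟩
        have hbi := bound_int h hθ hC (hAκ ζ hζ) hρ hP
        have hI := hint (SS z κ ζ) hSo.measurableSet hSb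
          (fun η => ‖Ph z (ζ, η) (w, y)‖) (fun η => rho z (ζ, η)) (fun η => ‖bb z (ζ, η)‖)
          y ((z (w, y) - z (ζ, y)) * starRingEnd ℂ (z (ζ, y))) (bb z (ζ, y)) ζ.im ‖w - ζ‖ him hδ
          (fun η hη => hη.2) (fun η hη => (hP η hη).r1) (fun η hη => (hP η hη).d1)
          (fun η hη => (hP η hη).rt) (fun η _ => norm_nonneg _) (fun η hη => (hP η hη).bt)
          (fun η hη => (hP η hη).bl) (fun η hη => (hP η hη).ex) (fun η hη => (hP η hη).dw)
        have hnorm : ‖∫ η in SS z κ ζ, (G (ζ, η))⁻¹ * KK z χ (ζ, η) (w, y)‖ ≤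
            ∫ η in SS z κ ζ, 1 / η₀ * (32 * B / κ + 2 * C * (rho z (ζ, η) *
              (‖bb z (ζ, η)‖ ^ 2 + ‖Ph z (ζ, η) (w, y)‖) / ‖Ph z (ζ, η) (w, y)‖ ^ 3)) := by
          refine norm_integral_le_of_norm_le
            (((integrable_const _).add (hbi.const_mul _)).const_mul _) ?_
          filter_upwards [ae_restrict_mem hSo.measurableSet] with η hη
          rw [norm_mul]
          exact mul_le_mul (hM ζ hζ η hη) (KK_le hB h hχ hp.2.1 hη hC (hP η hη))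
            (norm_nonneg _) (by positivity)
        rw [integral_const_mul, integral_add (integrable_const _) (hbi.const_mul _),
          integral_const_mul, setIntegral_const, smul_eq_mul] at hnorm
        have hvol : volume.real (SS z κ ζ) ≤ V := by
          rw [hV]
          exact ENNReal.toReal_mono measure_ball_lt_top.ne (measure_mono hSb)
        rw [norm_mul, norm_div, norm_one, Complex.norm_real, Real.norm_eq_abs, abs_of_pos hπ]
        set X := √(ζ.im / ‖w - ζ‖) with hX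
        calc 1 / Real.pi * ‖∫ η in SS z κ ζ, (G (ζ, η))⁻¹ * KK z χ (ζ, η) (w, y)‖
            ≤ 1 / Real.pi * (1 / η₀ * (V * (32 * B / κ) + 2 * C * (C' * (1 + X)))) := by
              refine mul_le_mul_of_nonneg_left (hnorm.trans ?_) (by positivity)
              gcongr
          _ = (1 / Real.pi * (32 * B / κ * V) * 1 + 1 / Real.pi * (2 * C * C') * (1 + X)) / η₀ := by
              ring
          _ ≤ (1 / Real.pi * (32 * B / κ * V) * (1 + X) +
              1 / Real.pi * (2 * C * C') * (1 + X)) / η₀ := by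
              gcongr
              linarith
          _ ≤ (1 * (1 + X) + 1 / Real.pi * (32 * B / κ * V) * (1 + X) +
              1 / Real.pi * (2 * C * C') * (1 + X)) / η₀ := by
              gcongr
              linarith
          _ = (1 + 1 / Real.pi * (32 * B / κ * V + 2 * C * C')) / η₀ * (1 + X) := by
              ring
  · obtain ⟨M', hM'⟩ := ee_qbd (M := 1 / η₀) h hχ hθ
    exact ⟨M', fun ζ hζ p hp => hM' G ζ (hA2 ζ hζ) (hM ζ hζ) p hp⟩

end Pool.Agent.P157C
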