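import Mathlib
import Pool.Agent.P157C.Defs2
import Pool.Agent.P157C.ExtE

set_option autoImplicit false

open MeasureTheory Metric Set Filter Topology Complex

namespace Pool.Agent.P157C

/-- the candidate for the extension, for a general function -/
noncomputable def ev_U2a (z : ℂ × ℂ → ℂ) (κ : ℝ) (χ : ℂ → ℝ) (v : ℂ × ℂ → ℂ) (ζ : ℂ) (p : ℂ × ℂ) : ℂ :=
  open Classical in
  if ‖ζ‖ < κ / 2 ∧ ‖p.1‖ < κ / 8 ∧ ‖p.2‖ < κ / 8 then
    (1 / Real.pi : ℂ) * ∫ η in SS z κ ζ, v (ζ, η) * KK z χ (ζ, η) p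
  else 0

theorem ev_eq_ee_U2a (z : ℂ × ℂ → ℂ) (κ : ℝ) (χ : ℂ → ℝ) (v : ℂ × ℂ → ℂ) (ζ : ℂ) (p : ℂ × ℂ) :
    ev_U2a z κ χ v ζ p = ee z κ χ (fun q => (v q)⁻¹) ζ p := by
  unfold ev_U2a ee
  simp only [inv_inv]

/-- joint measurability -/
theorem ev_meas_U2a {κ L B : ℝ} {z : ℂ × ℂ → ℂ} (h : LM κ L z) {χ : ℂ → ℝ} (hχ : Cut κ B χ)
    {v : ℂ × ℂ → ℂ} (hv : Measurable v) :
    Measurable (fun q : ℂ × (ℂ × ℂ) => ev_U2a z κ χ v q.1 q.2) := by
  classical
  have hκ := h.κ0
  set U : Set (ℂ × ℂ) := {p | ‖p.1‖ < κ ∧ ‖p.2‖ < κ} with hU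
  have hzU : ContinuousOn z U := h.diff.continuousOn
  have hdzU : ContinuousOn (dz z) U := by
    have hL : LipschitzOnWith (Real.toNNReal (2 * L)) (dz z) U := by
      refine LipschitzOnWith.of_dist_le_mul fun p hp q hq => ?_
      rw [Real.coe_toNNReal _ (by linarith [h.L1]), dist_eq_norm, dist_eq_norm]
      refine (h.lip2 p q hp.1 hp.2 hq.1 hq.2).trans ?_
      have h1 : ‖p.1 - q.1‖ ≤ ‖p - q‖ := norm_fst_le (p - q)
      have h2 : ‖p.2 - q.2‖ ≤ ‖p - q‖ := norm_snd_le (p - q)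
      have h3 : (0 : ℝ) ≤ L := by linarith [h.L1]
      nlinarith
    exact hL.continuousOn
  have hrU : ContinuousOn (rho z) U := by
    unfold rho
    exact (continuousOn_const.sub (hzU.norm.pow 2)).sub (continuous_snd.norm.pow 2).continuousOn
  -- the open set
  set V : Set ((ℂ × (ℂ × ℂ)) × ℂ) := {t | ‖t.1.1‖ < κ / 2 ∧ ‖t.1.2.1‖ < κ / 8 ∧
    ‖t.1.2.2‖ < κ / 8 ∧ ‖t.2‖ < κ / 2 ∧ t.2 ≠ t.1.2.2} with hV
  have hVo : IsOpen V := by
    have o1 : IsOpen {t : (ℂ × (ℂ × ℂ)) × ℂ | ‖t.1.1‖ < κ / 2} :=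
      isOpen_lt (by fun_prop) continuous_const
    have o2 : IsOpen {t : (ℂ × (ℂ × ℂ)) × ℂ | ‖t.1.2.1‖ < κ / 8} :=
      isOpen_lt (by fun_prop) continuous_const
    have o2' : IsOpen {t : (ℂ × (ℂ × ℂ)) × ℂ | ‖t.1.2.2‖ < κ / 8} :=
      isOpen_lt (by fun_prop) continuous_const
    have o3 : IsOpen {t : (ℂ × (ℂ × ℂ)) × ℂ | ‖t.2‖ < κ / 2} :=
      isOpen_lt (by fun_prop) continuous_const
    have o4 : IsOpen {t : (ℂ × (ℂ × ℂ)) × ℂ | t.2 ≠ t.1.2.2} :=
      isOpen_ne_fun continuous_snd (by fun_prop)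
    exact o1.inter (o2.inter (o2'.inter (o3.inter o4)))
  have hVU : ∀ t ∈ V, ((t.1.1, t.2) : ℂ × ℂ) ∈ U := by
    intro t ht
    exact ⟨by linarith [ht.1], by linarith [ht.2.2.2.1]⟩
  have hrV : ContinuousOn (fun t : (ℂ × (ℂ × ℂ)) × ℂ => rho z (t.1.1, t.2)) V :=
    hrU.comp (by fun_prop) hVU
  set T : Set ((ℂ × (ℂ × ℂ)) × ℂ) :=
    V ∩ (fun t : (ℂ × (ℂ × ℂ)) × ℂ => rho z (t.1.1, t.2)) ⁻¹' Ioi 0 with hT
  have hTo : IsOpen T := hrV.isOpen_inter_preimage hVo isOpen_Ioi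
  have hTm : MeasurableSet T := hTo.measurableSet
  set f : (ℂ × (ℂ × ℂ)) × ℂ → ℂ := fun t => v (t.1.1, t.2) * KK z χ (t.1.1, t.2) t.1.2 with hf
  have hfT : Measurable (T.domRestrict f) := by
    have cA : Continuous (fun t : T => ((t.1.1.1, t.1.2) : ℂ × ℂ)) := by fun_prop
    have cB : Continuous (fun t : T => (t.1.1.2 : ℂ × ℂ)) := by fun_prop
    have cC : Continuous (fun t : T => ((t.1.1.1, t.1.1.2.2) : ℂ × ℂ)) := by fun_prop
    have mA : ∀ t : T, ((t.1.1.1, t.1.2) : ℂ × ℂ) ∈ U := fun t => hVU t.1 t.2.1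
    have mB : ∀ t : T, (t.1.1.2 : ℂ × ℂ) ∈ U := fun t =>
      ⟨by linarith [t.2.1.2.1], by linarith [t.2.1.2.2.1]⟩
    have mC : ∀ t : T, ((t.1.1.1, t.1.1.2.2) : ℂ × ℂ) ∈ U := fun t =>
      ⟨by linarith [t.2.1.1], by linarith [t.2.1.2.2.1]⟩
    have gA : Measurable (fun t : T => v (t.1.1.1, t.1.2)) := hv.comp cA.measurable
    have zA : Measurable (fun t : T => z (t.1.1.1, t.1.2)) := (hzU.comp_continuous cA mA).measurable
    have zB : Measurable (fun t : T => z t.1.1.2) := (hzU.comp_continuous cB mB).measurable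
    have zC : Measurable (fun t : T => z (t.1.1.1, t.1.1.2.2)) :=
      (hzU.comp_continuous cC mC).measurable
    have dA : Measurable (fun t : T => dz z (t.1.1.1, t.1.2)) :=
      (hdzU.comp_continuous cA mA).measurable
    have rA : Measurable (fun t : T => rho z (t.1.1.1, t.1.2)) :=
      (hrU.comp_continuous cA mA).measurable
    have eA : Measurable (fun t : T => t.1.2) := by fun_prop
    have yA : Measurable (fun t : T => t.1.1.2.2) := by fun_prop
    have chi : Measurable (fun t : T => χ t.1.2) :=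
      (hχ.smooth.continuous.comp (by fun_prop)).measurable
    have cdb : Continuous (dbar (fun η => (χ η : ℂ))) := by
      have h1 : ContDiff ℝ 1 (fun η : ℂ => (χ η : ℂ)) :=
        Complex.ofRealCLM.contDiff.comp hχ.smooth
      have h2 : Continuous (fderiv ℝ (fun η : ℂ => (χ η : ℂ))) := h1.continuous_fderiv (by simp)
      unfold dbar
      fun_prop
    have db : Measurable (fun t : T => dbar (fun η => (χ η : ℂ)) t.1.2) :=
      (cdb.comp (by fun_prop)).measurable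
    have qA : Measurable (fun t : T => qq z (t.1.1.1, t.1.2) t.1.1.2.2) := by
      have e : (fun t : T => qq z (t.1.1.1, t.1.2) t.1.1.2.2) =
          fun t : T => (t.1.1.2.2 - t.1.2)⁻¹ * (z (t.1.1.1, t.1.1.2.2) - z (t.1.1.1, t.1.2)) := by
        funext t
        unfold qq
        rw [dslope_of_ne _ (Ne.symm t.2.1.2.2.2.2), slope_def_module, smul_eq_mul]
      rw [e]
      exact (yA.sub eA).inv.mul (zC.sub zA)
    have star : Measurable (fun c : ℂ => starRingEnd ℂ c) := Complex.continuous_conj.measurable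
    have szA := star.comp zA
    have sdA := star.comp dA
    have seA := star.comp eA
    have rcA : Measurable (fun t : T => (rho z (t.1.1.1, t.1.2) : ℂ)) :=
      Complex.measurable_ofReal.comp rA
    have ccA : Measurable (fun t : T => (χ t.1.2 : ℂ)) := Complex.measurable_ofReal.comp chi
    have phA : Measurable (fun t : T => Ph z (t.1.1.1, t.1.2) t.1.1.2) := by
      unfold Ph
      exact (measurable_const.sub (zB.mul szA)).sub (yA.mul seA)
    have bA : Measurable (fun t : T => bb z (t.1.1.1, t.1.2)) := by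
      unfold bb
      exact (dA.mul szA).add seA
    have nA : Measurable (fun t : T => NN z (t.1.1.1, t.1.2) t.1.1.2.2) := by
      unfold NN
      exact ((star.comp bA).mul ((qA.mul szA).add seA)).add
        (rcA.mul ((qA.mul sdA).add measurable_const))
    have kA : Measurable (fun t : T => KK z χ (t.1.1.1, t.1.2) t.1.1.2) := by
      unfold KK
      exact ((db.mul (rcA.pow_const 2)).div ((phA.pow_const 2).mul (yA.sub eA))).add
        ((((measurable_const.mul ccA).mul rcA).mul nA).div (phA.pow_const 3))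
    exact gA.mul kA
  have hFm : Measurable (T.indicator f) := by
    refine measurable_of_restrict_of_restrict_compl hTm ?_ ?_
    · have e : T.domRestrict (T.indicator f) = T.domRestrict f := by
        funext t
        simp only [Set.domRestrict_apply]
        rw [Set.indicator_of_mem t.2]
      rw [e]
      exact hfT
    · have e : Tᶜ.domRestrict (T.indicator f) = fun _ => 0 := by
        funext t
        simp only [Set.domRestrict_apply]
        rw [Set.indicator_of_notMem t.2]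
      rw [e]
      exact measurable_const
  have hint : StronglyMeasurable (fun q : ℂ × (ℂ × ℂ) => ∫ η : ℂ, T.indicator f (q, η)) :=
    StronglyMeasurable.integral_prod_right
      (f := fun (q : ℂ × (ℂ × ℂ)) (η : ℂ) => T.indicator f (q, η)) hFm.stronglyMeasurable
  have hee : (fun q : ℂ × (ℂ × ℂ) => ev_U2a z κ χ v q.1 q.2) =
      fun q => (1 / Real.pi : ℂ) * ∫ η : ℂ, T.indicator f (q, η) := by
    funext q
    unfold ev_U2a
    by_cases hq : ‖q.1‖ < κ / 2 ∧ ‖q.2.1‖ < κ / 8 ∧ ‖q.2.2‖ < κ / 8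
    · rw [if_pos hq]
      congr 1
      have hSo : IsOpen (SS z κ q.1) := by
        have hc : ContinuousOn (fun η : ℂ => rho z (q.1, η)) {η : ℂ | ‖η‖ < κ / 2} :=
          hrU.comp (by fun_prop) fun η (hη : ‖η‖ < κ / 2) =>
            (⟨by linarith [hq.1], by linarith⟩ : ((q.1, η) : ℂ × ℂ) ∈ U)
        exact hc.isOpen_inter_preimage (isOpen_lt (by fun_prop) continuous_const) isOpen_Ioi
      rw [← integral_indicator hSo.measurableSet]
      refine integral_congr_ae ?_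
      have hne : ∀ᵐ η : ℂ, η ≠ q.2.2 := by
        rw [ae_iff]
        simp
      filter_upwards [hne] with η hη
      by_cases hm : η ∈ SS z κ q.1
      · rw [Set.indicator_of_mem hm, Set.indicator_of_mem]
        exact ⟨⟨hq.1, hq.2.1, hq.2.2, hm.1, hη⟩, hm.2⟩
      · rw [Set.indicator_of_notMem hm, Set.indicator_of_notMem]
        rintro ⟨⟨-, -, -, h3, -⟩, h4⟩
        exact hm ⟨h3, h4⟩
    · rw [if_neg hq]
      have h0 : ∀ η : ℂ, T.indicator f (q, η) = 0 := by
        intro η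
        rw [Set.indicator_of_notMem]
        rintro ⟨⟨h1, h2, h3, -, -⟩, -⟩
        exact hq ⟨h1, h2, h3⟩
      simp [h0]
  rw [hee]
  exact measurable_const.mul hint.measurable

theorem ev_aesm_U2a {κ L B : ℝ} {z : ℂ × ℂ → ℂ} (h : LM κ L z) {χ : ℂ → ℝ} (hχ : Cut κ B χ)
    {v : ℂ × ℂ → ℂ} (hv : Measurable v) {ζ : ℂ} (hζ : ‖ζ‖ < κ / 2)
    {p : ℂ × ℂ} (h1 : ‖p.1‖ < κ / 8) (h2 : ‖p.2‖ < κ / 8) (h3 : 0 < rho z p) :
    AEStronglyMeasurable (fun η => v (ζ, η) * KK z χ (ζ, η) p) (volume.restrict (SS z κ ζ)) := by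
  have hk := KK_aesm h hχ (G := fun _ => (1 : ℂ)) continuousOn_const hζ h1 h2 h3
  simp only [inv_one, one_mul] at hk
  have hvm : Measurable (fun η : ℂ => v (ζ, η)) := hv.comp (by fun_prop)
  exact hvm.aestronglyMeasurable.mul hk

theorem ev_qbd_U2a {κ L B M θ : ℝ} {z : ℂ × ℂ → ℂ} (h : LM κ L z) {χ : ℂ → ℝ} (hχ : Cut κ B χ)
    (hθ : 0 < θ) : ∃ M' : ℝ, ∀ (v : ℂ × ℂ → ℂ) (ζ : ℂ), ‖ζ‖ < κ / 2 →
      (∀ η ∈ SS z κ ζ, ‖v (ζ, η)‖ ≤ M) → ∀ p ∈ DD z (κ / 8) θ, ‖ev_U2a z κ χ v ζ p‖ ≤ M' := by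
  obtain ⟨M', hM'⟩ := ee_qbd (M := M) h hχ hθ
  refine ⟨M', fun v ζ hζ hv p hp => ?_⟩
  rw [ev_eq_ee_U2a]
  exact hM' _ ζ hζ (fun η hη => by simpa using hv η hη) p hp

theorem ev_diff_U2a {κ L B M θ : ℝ} {z : ℂ × ℂ → ℂ} (h : LM κ L z) {χ : ℂ → ℝ} (hχ : Cut κ B χ)
    (hθ : 0 < θ) {v : ℂ × ℂ → ℂ} (hv : Measurable v) {ζ : ℂ} (hζ : ‖ζ‖ < κ / 2)
    (hM : ∀ η ∈ SS z κ ζ, ‖v (ζ, η)‖ ≤ M) :
    DifferentiableOn ℂ (ev_U2a z κ χ v ζ) (DD z (κ / 8) θ) := by
  have hκ := h.κ0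
  have hS := (j6_SS_open h hζ).measurableSet
  set M1 : ℝ := B / ((θ / 2) ^ 2 * (κ / 8)) +
      2 * ((L * L + 1) * (L * L + 1) + (L * L + 1)) / (θ / 2) ^ 3 with hM1
  have hB : 0 ≤ B := (norm_nonneg _).trans (hχ.bd 0)
  have hM10 : 0 ≤ M1 := by
    have hLL : 0 ≤ L * L := mul_self_nonneg L
    positivity
  have hsub : SS z κ ζ ⊆ ball (0 : ℂ) 1 := by
    intro η hη
    rw [mem_ball_zero_iff]
    have := j6_sub hκ hη
    linarith [h.κ1]
  have hfin : volume (SS z κ ζ) < ⊤ := (measure_mono hsub).trans_lt measure_ball_lt_top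
  have hfm : IsFiniteMeasure (volume.restrict (SS z κ ζ)) := ⟨by
    rw [Measure.restrict_apply_univ]; exact hfin⟩
  -- the domain is open
  have hDo : IsOpen (DD z (κ / 8) θ) := by
    have h1 : ContinuousOn (rho z) {p : ℂ × ℂ | ‖p.1‖ < κ / 8 ∧ ‖p.2‖ < κ / 8} := by
      have h2 : ContinuousOn z {p : ℂ × ℂ | ‖p.1‖ < κ / 8 ∧ ‖p.2‖ < κ / 8} :=
        h.diff.continuousOn.mono fun p hp => by
          obtain ⟨p1, p2⟩ := hp
          exact ⟨by linarith, by linarith⟩
      unfold rho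
      exact (continuousOn_const.sub (h2.norm.pow 2)).sub (by fun_prop)
    have h2 := h1.isOpen_inter_preimage (j6_slab (κ / 8)) (isOpen_Ioi (a := θ))
    have h3 : DD z (κ / 8) θ = {p : ℂ × ℂ | ‖p.1‖ < κ / 8 ∧ ‖p.2‖ < κ / 8} ∩ rho z ⁻¹' Ioi θ := by
      ext p
      simp only [DD, mem_inter_iff, mem_preimage, mem_Ioi, Set.mem_ofPred_eq, and_assoc]
    rw [h3]
    exact h2
  -- differentiability of the kernel
  have hKd : ∀ η ∈ SS z κ ζ, DifferentiableOn ℂ (fun p => KK z χ (ζ, η) p) (DD z (κ / 8) θ) := by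
    intro η hη p hp
    refine DifferentiableAt.differentiableWithinAt ?_
    obtain ⟨p1, p2, p3⟩ := hp
    have hzd : DifferentiableAt ℂ z p := by
      refine (h.diff p ⟨by linarith, by linarith⟩).differentiableAt ?_
      exact (j6_slab κ).mem_nhds ⟨by linarith, by linarith⟩
    have hPhd : DifferentiableAt ℂ (fun p => Ph z (ζ, η) p) p := by
      unfold Ph
      exact ((differentiableAt_const _).sub (hzd.mul_const _)).sub
        (differentiableAt_snd.mul_const _)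
    have hPh0 : Ph z (ζ, η) p ≠ 0 := by
      have h1 := j6_Ph_ge (z := z) (s := (ζ, η)) (p := p) hη.2 p3
      intro h2
      rw [h2, norm_zero] at h1
      linarith
    have hqd : DifferentiableAt ℂ (fun y => qq z (ζ, η) y) p.2 := by
      have hU : IsOpen {y : ℂ | ‖y‖ < κ} := isOpen_lt continuous_norm continuous_const
      have h1 : DifferentiableOn ℂ (fun y => z (ζ, y)) {y : ℂ | ‖y‖ < κ} := by
        refine h.diff.comp (by fun_prop) ?_
        intro y hy
        exact ⟨by show ‖ζ‖ < κ; linarith, hy⟩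
      have h2 := (Complex.differentiableOn_dslope (c := η) (hU.mem_nhds (j6_sub hκ hη))).2 h1
      exact (h2 p.2 (by show ‖p.2‖ < κ; linarith)).differentiableAt
        (hU.mem_nhds (by show ‖p.2‖ < κ; linarith))
    have hqd2 : DifferentiableAt ℂ (fun p : ℂ × ℂ => qq z (ζ, η) p.2) p :=
      DifferentiableAt.comp p (g := fun y => qq z (ζ, η) y) hqd differentiableAt_snd
    have hNd : DifferentiableAt ℂ (fun p : ℂ × ℂ => NN z (ζ, η) p.2) p := by
      unfold NN
      exact (((hqd2.mul_const _).add_const _).const_mul _).add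
        (((hqd2.mul_const _).add_const _).const_mul _)
    unfold KK
    refine DifferentiableAt.add ?_ ?_
    · by_cases h4 : ‖η‖ < κ / 4
      · have h5 : (fun p : ℂ × ℂ => dbar (fun η => (χ η : ℂ)) (ζ, η).2 *
            (rho z (ζ, η) : ℂ) ^ 2 / (Ph z (ζ, η) p ^ 2 * (p.2 - (ζ, η).2))) = fun _ => 0 := by
          funext p
          show dbar (fun η => (χ η : ℂ)) η * (rho z (ζ, η) : ℂ) ^ 2 / _ = 0
          rw [j6_dbar_zero hχ h4, zero_mul, zero_div]
        rw [h5]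
        exact differentiableAt_const _
      · have h5 : p.2 - η ≠ 0 := by
          intro h6
          have h7 : p.2 = η := sub_eq_zero.1 h6
          rw [← h7] at h4
          linarith [not_lt.1 h4]
        have h6 : DifferentiableAt ℂ (fun p : ℂ × ℂ => Ph z (ζ, η) p ^ 2 * (p.2 - η)) p :=
          (hPhd.fun_pow 2).mul (differentiableAt_snd.sub_const η)
        have h7 : DifferentiableAt ℂ (fun _ : ℂ × ℂ => dbar (fun η => (χ η : ℂ)) η *
          (rho z (ζ, η) : ℂ) ^ 2) p := differentiableAt_const _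
        have h8 := h7.mul (h6.inv (mul_ne_zero (pow_ne_zero 2 hPh0) h5))
        simp only [div_eq_mul_inv]
        exact h8
    · have h6 : DifferentiableAt ℂ (fun p : ℂ × ℂ => Ph z (ζ, η) p ^ 3) p := hPhd.fun_pow 3
      have h7 : DifferentiableAt ℂ (fun p : ℂ × ℂ => (2 * (χ η : ℂ) * (rho z (ζ, η) : ℂ)) *
        NN z (ζ, η) p.2) p := hNd.const_mul _
      have h8 := h7.mul (h6.inv (pow_ne_zero 3 hPh0))
      simp only [div_eq_mul_inv]
      exact h8
  -- the integral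
  have hmain := Pool.Agent.HP.differentiableOn_integral (volume.restrict (SS z κ ζ))
    (fun (η : ℂ) (p : ℂ × ℂ) => (SS z κ ζ).indicator (fun η => v (ζ, η) * KK z χ (ζ, η) p) η)
    (DD z (κ / 8) θ) hDo ?_ ?_ (fun _ => |M| * M1) (integrable_const _) ?_
  · refine (hmain.const_mul (1 / Real.pi : ℂ)).congr ?_
    intro p hp
    unfold ev_U2a
    rw [if_pos ⟨hζ, hp.1, hp.2.1⟩]
    congr 1
    refine (setIntegral_congr_fun hS fun η hη => ?_).symm
    exact indicator_of_mem hη _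
  · intro p hp
    have h1 := ev_aesm_U2a h hχ hv hζ hp.1 hp.2.1 (hθ.trans hp.2.2)
    refine h1.congr ?_
    refine (ae_restrict_iff' hS).2 (Eventually.of_forall fun η hη => ?_)
    exact (indicator_of_mem hη (fun η => v (ζ, η) * KK z χ (ζ, η) p)).symm
  · intro η
    by_cases hη : η ∈ SS z κ ζ
    · simp only [indicator_of_mem hη]
      exact (hKd η hη).const_mul _
    · simp only [indicator_of_notMem hη]
      exact differentiableOn_const _
  · intro η p hp
    by_cases hη : η ∈ SS z κ ζ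
    · simp only [indicator_of_mem hη]
      rw [norm_mul]
      exact mul_le_mul ((hM η hη).trans (le_abs_self M)) (j6_KK_le h hχ hθ hζ hη hp)
        (norm_nonneg _) (abs_nonneg M)
    · simp only [indicator_of_notMem hη, norm_zero]
      positivity

/-- **TARGET** -/
theorem extP_base {κ L : ℝ} (hκ : 0 < κ) (hκ1 : κ ≤ 1) (hL : 1 ≤ L) : ∃ C : ℝ, 0 ≤ C ∧
    ∀ z : ℂ × ℂ → ℂ, LM κ L z → ∀ θ : ℝ, 0 < θ → ∀ A : Set ℂ, (∀ ζ ∈ A, ‖ζ‖ < κ / 8) →
      ExtP A (DD z (κ / 2) 0) (DD z (κ / 8) θ) C := by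
  obtain ⟨B, χ, hB, hχ⟩ := cut_exists hκ
  obtain ⟨C, hC, hpt⟩ := pt hκ hκ1 hL
  obtain ⟨C', hC', hint⟩ := int_est C hC
  set V : ℝ := (volume (ball (0 : ℂ) 1)).toReal with hV
  have hV0 : 0 ≤ V := ENNReal.toReal_nonneg
  have hπ := Real.pi_pos
  have hC0 : 0 ≤ C := by linarith
  refine ⟨1 + (1 / Real.pi) * (32 * B / κ * V + 2 * C * C'), by positivity, ?_⟩
  intro z h θ hθ A hA v M hv hM0 hvd hvb
  have hA2 : ∀ ζ ∈ A, ‖ζ‖ < κ / 2 := fun ζ hζ => lt_trans (hA ζ hζ) (by linarith)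
  have hAκ : ∀ ζ ∈ A, ‖ζ‖ < κ := fun ζ hζ => lt_trans (hA ζ hζ) (by linarith)
  have hmap : ∀ ζ ∈ A, ∀ η ∈ SS z κ ζ, (ζ, η) ∈ DD z (κ / 2) 0 := by
    intro ζ hζ η hη
    exact ⟨hA2 ζ hζ, hη.1, hη.2⟩
  have hM : ∀ ζ ∈ A, ∀ η ∈ SS z κ ζ, ‖v (ζ, η)‖ ≤ M := by
    intro ζ hζ η hη
    exact hvb ζ hζ η (hmap ζ hζ η hη)
  have hself : ∀ ζ ∈ A, ∀ y : ℂ, (ζ, y) ∈ DD z (κ / 8) θ →
      ev_U2a z κ χ v ζ (ζ, y) = v (ζ, y) := by
    intro ζ hζ y hy
    unfold ev_U2a
    rw [if_pos ⟨hA2 ζ hζ, hy.1, hy.2.1⟩]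
    refine repro h hχ (hA2 ζ hζ) hy.2.1 (hθ.trans hy.2.2) (H := fun η => v (ζ, η)) ?_
      (M := M) (hM ζ hζ)
    exact (hvd ζ hζ).mono fun η hη => hmap ζ hζ η hη
  refine ⟨ev_U2a z κ χ v, ev_meas_U2a h hχ hv, hself, ?_, ?_, ?_⟩
  · intro ζ hζ
    exact ev_diff_U2a h hχ hθ hv (hA2 ζ hζ) (hM ζ hζ)
  · rintro ζ hζ ⟨w, y⟩ hp
    simp only
    have hsq : 0 ≤ √(ζ.im / ‖w - ζ‖) := Real.sqrt_nonneg _
    have hM00 : 0 ≤ (1 / Real.pi) * (32 * B / κ * V + 2 * C * C') := by positivity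
    by_cases hwζ : w = ζ
    · subst hwζ
      rw [hself w hζ y hp]
      have hp' : (w, y) ∈ DD z (κ / 2) 0 :=
        ⟨hA2 w hζ, lt_trans hp.2.1 (by linarith), hθ.trans hp.2.2⟩
      refine (hvb w hζ y hp').trans ?_
      have h2 : (1 : ℝ) ≤ 1 + √(w.im / ‖w - w‖) := by linarith
      calc M = 1 * M * 1 := by ring
        _ ≤ (1 + 1 / Real.pi * (32 * B / κ * V + 2 * C * C')) * M *
            (1 + √(w.im / ‖w - w‖)) := by
          gcongr
          linarith
    · have hδ : 0 < ‖w - ζ‖ := norm_pos_iff.2 (sub_ne_zero.2 hwζ)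
      unfold ev_U2a
      rw [if_pos ⟨hA2 ζ hζ, hp.1, hp.2.1⟩]
      have hw2 : ‖w‖ < κ / 2 := lt_trans hp.1 (by linarith)
      have hy2 : ‖y‖ < κ / 2 := lt_trans hp.2.1 (by linarith)
      have hρ : θ < rho z (w, y) := hp.2.2
      have hP : ∀ η ∈ SS z κ ζ, Pt C z ζ w y η :=
        hpt z h ζ w y (hA2 ζ hζ) hw2 hy2 (hθ.trans hρ).le
      rcases Set.eq_empty_or_nonempty (SS z κ ζ) with hS | ⟨η₁, hη₁⟩
      · rw [hS]
        simp only [Measure.restrict_empty, integral_zero_measure, mul_zero, norm_zero]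
        positivity
      · have him : 0 < ζ.im := (hP η₁ hη₁).im
        have hSo := SS_open h (hAκ ζ hζ)
        have hSb : SS z κ ζ ⊆ ball 0 1 := by
          intro η hη
          rw [mem_ball_zero_iff]
          have := hη.1
          linarith
        have hfin : volume (SS z κ ζ) ≠ ⊤ :=
          ((measure_mono hSb).trans_lt measure_ball_lt_top).ne
        have : IsFiniteMeasure (volume.restrict (SS z κ ζ)) := ⟨by
          rw [Measure.restrict_apply_univ]; exact hfin.lt_top⟩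
        have hbi := bound_int h hθ hC (hAκ ζ hζ) hρ hP
        have hI := hint (SS z κ ζ) hSo.measurableSet hSb
          (fun η => ‖Ph z (ζ, η) (w, y)‖) (fun η => rho z (ζ, η)) (fun η => ‖bb z (ζ, η)‖)
          y ((z (w, y) - z (ζ, y)) * starRingEnd ℂ (z (ζ, y))) (bb z (ζ, y)) ζ.im ‖w - ζ‖ him hδ
          (fun η hη => hη.2) (fun η hη => (hP η hη).r1) (fun η hη => (hP η hη).d1)
          (fun η hη => (hP η hη).rt) (fun η _ => norm_nonneg _) (fun η hη => (hP η hη).bt)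
          (fun η hη => (hP η hη).bl) (fun η hη => (hP η hη).ex) (fun η hη => (hP η hη).dw)
        have hnorm : ‖∫ η in SS z κ ζ, v (ζ, η) * KK z χ (ζ, η) (w, y)‖ ≤
            ∫ η in SS z κ ζ, M * (32 * B / κ + 2 * C * (rho z (ζ, η) *
              (‖bb z (ζ, η)‖ ^ 2 + ‖Ph z (ζ, η) (w, y)‖) / ‖Ph z (ζ, η) (w, y)‖ ^ 3)) := by
          refine norm_integral_le_of_norm_le
            (((integrable_const _).add (hbi.const_mul _)).const_mul _) ?_
          filter_upwards [ae_restrict_mem hSo.measurableSet] with η hη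
          rw [norm_mul]
          exact mul_le_mul (hM ζ hζ η hη) (KK_le hB h hχ hp.2.1 hη hC (hP η hη))
            (norm_nonneg _) (by positivity)
        rw [integral_const_mul, integral_add (integrable_const _) (hbi.const_mul _),
          integral_const_mul, setIntegral_const, smul_eq_mul] at hnorm
        have hvol : volume.real (SS z κ ζ) ≤ V := by
          rw [hV]
          exact ENNReal.toReal_mono measure_ball_lt_top.ne (measure_mono hSb)
        rw [norm_mul, norm_div, norm_one, Complex.norm_real, Real.norm_eq_abs, abs_of_pos hπ]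
        set X := √(ζ.im / ‖w - ζ‖) with hX
        calc 1 / Real.pi * ‖∫ η in SS z κ ζ, v (ζ, η) * KK z χ (ζ, η) (w, y)‖
            ≤ 1 / Real.pi * (M * (V * (32 * B / κ) + 2 * C * (C' * (1 + X)))) := by
              refine mul_le_mul_of_nonneg_left (hnorm.trans ?_) (by positivity)
              gcongr
          _ = (1 / Real.pi * (32 * B / κ * V) * 1 + 1 / Real.pi * (2 * C * C') * (1 + X)) * M := by
              ring
          _ ≤ (1 / Real.pi * (32 * B / κ * V) * (1 + X) +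
              1 / Real.pi * (2 * C * C') * (1 + X)) * M := by
              gcongr
              linarith
          _ ≤ (1 * (1 + X) + 1 / Real.pi * (32 * B / κ * V) * (1 + X) +
              1 / Real.pi * (2 * C * C') * (1 + X)) * M := by
              gcongr
              linarith
          _ = (1 + 1 / Real.pi * (32 * B / κ * V + 2 * C * C')) * M * (1 + X) := by
              ring
  · obtain ⟨M', hM'⟩ := ev_qbd_U2a (M := M) h hχ hθ
    exact ⟨M', fun ζ hζ p hp => hM' v ζ (hA2 ζ hζ) (hM ζ hζ) p hp⟩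

end Pool.Agent.P157C
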