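import Mathlib
import Pool.Agent.P157C.DefsX

set_option autoImplicit false

open MeasureTheory Metric Set Filter Topology Complex

namespace Pool.Agent.P157C

theorem u1a_shell_U1a {α : Type*} [MeasurableSpace α] (μ : Measure α) (f : α → ℝ) (G : α → ENNReal)
    (L R : ℝ) (hL : 0 ≤ L) (hR : 0 < R) (hf : Measurable f)
    (h : ∀ t : ℝ, 0 < t → ∫⁻ η in {η | f η < t}, G η ∂μ ≤ ENNReal.ofReal (L * t ^ 2)) :
    ∫⁻ η in {η | 0 < f η ∧ f η < R}, G η * ENNReal.ofReal (1 / f η) ∂μ ≤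
      ENNReal.ofReal (16 * L * R) := by
  set E : ℕ → Set α := fun j => {η | R * (1 / 2) ^ (j + 1) < f η ∧ f η ≤ R * (1 / 2) ^ j} with hE
  have hsub : {η | 0 < f η ∧ f η < R} ⊆ ⋃ j, E j := by
    rintro η ⟨h1, h2⟩
    obtain ⟨n, hn1, hn2⟩ := exists_nat_pow_near_of_lt_one (x := f η / R) (y := (1 / 2 : ℝ))
      (by positivity) ((div_le_one hR).2 h2.le) (by norm_num) (by norm_num)
    rw [mem_iUnion]
    refine ⟨n, ?_, ?_⟩
    · rw [lt_div_iff₀ hR] at hn1
      rwa [mul_comm]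
    · rw [div_le_iff₀ hR] at hn2
      rwa [mul_comm]
  have hEm : ∀ j, MeasurableSet (E j) := by
    intro j
    exact (measurableSet_lt measurable_const hf).inter (measurableSet_le hf measurable_const)
  have hj : ∀ j, ∫⁻ η in E j, G η * ENNReal.ofReal (1 / f η) ∂μ ≤
      ENNReal.ofReal (8 * L * R * (1 / 2) ^ j) := by
    intro j
    have hc : (0 : ℝ) < R * (1 / 2) ^ (j + 1) := by positivity
    calc ∫⁻ η in E j, G η * ENNReal.ofReal (1 / f η) ∂μ
        ≤ ∫⁻ η in E j, G η * ENNReal.ofReal (1 / (R * (1 / 2) ^ (j + 1))) ∂μ := by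
          refine setLIntegral_mono' (hEm j) fun η hη => ?_
          gcongr
          exact hη.1.le
      _ = (∫⁻ η in E j, G η ∂μ) * ENNReal.ofReal (1 / (R * (1 / 2) ^ (j + 1))) :=
          lintegral_mul_const' _ _ ENNReal.ofReal_ne_top
      _ ≤ (∫⁻ η in {η | f η < 2 * (R * (1 / 2) ^ j)}, G η ∂μ) *
            ENNReal.ofReal (1 / (R * (1 / 2) ^ (j + 1))) := by
          gcongr
          intro η hη
          have : (0 : ℝ) < R * (1 / 2) ^ j := by positivity
          have h3 := hη.2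
          show f η < 2 * (R * (1 / 2) ^ j)
          linarith
      _ ≤ ENNReal.ofReal (L * (2 * (R * (1 / 2) ^ j)) ^ 2) *
            ENNReal.ofReal (1 / (R * (1 / 2) ^ (j + 1))) := by
          gcongr
          exact h _ (by positivity)
      _ = ENNReal.ofReal (8 * L * R * (1 / 2) ^ j) := by
          rw [← ENNReal.ofReal_mul (by positivity)]
          congr 1
          have : ((1 / 2 : ℝ)) ^ j ≠ 0 := by positivity
          field_simp
          ring
  calc ∫⁻ η in {η | 0 < f η ∧ f η < R}, G η * ENNReal.ofReal (1 / f η) ∂μ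
      ≤ ∫⁻ η in ⋃ j, E j, G η * ENNReal.ofReal (1 / f η) ∂μ :=
        lintegral_mono_set hsub
    _ ≤ ∑' j, ∫⁻ η in E j, G η * ENNReal.ofReal (1 / f η) ∂μ := lintegral_iUnion_le _ _
    _ ≤ ∑' j : ℕ, ENNReal.ofReal (8 * L * R * (1 / 2) ^ j) := ENNReal.tsum_le_tsum hj
    _ = ENNReal.ofReal (∑' j : ℕ, 8 * L * R * (1 / 2) ^ j) := by
        rw [ENNReal.ofReal_tsum_of_nonneg (fun j => by positivity)]
        exact (summable_geometric_two).mul_left _
    _ = ENNReal.ofReal (16 * L * R) := by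
        rw [tsum_mul_left, tsum_geometric_two]
        congr 1
        ring

theorem u1a_g2_U1a : ∃ K : ℝ, 0 ≤ K ∧ ∀ (H : ℝ) (y : ℂ), 0 < H →
    ∫⁻ η : ℂ, ENNReal.ofReal ((H / (H + ‖η - y‖ ^ 2)) ^ 2) ≤ ENNReal.ofReal (K * H) := by
  have hint : Integrable (fun x : ℂ => ((1 : ℝ) / (1 + ‖x‖ ^ 2)) ^ 2) := by
    have h := integrable_rpow_neg_one_add_norm_sq (E := ℂ) (μ := volume) (r := 4)
      (by rw [Complex.finrank_real_complex]; norm_num)
    refine h.congr (Eventually.of_forall fun x => ?_)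
    show (1 + ‖x‖ ^ 2 : ℝ) ^ (-4 / 2 : ℝ) = ((1 : ℝ) / (1 + ‖x‖ ^ 2)) ^ 2
    have h0 : (0 : ℝ) < 1 + ‖x‖ ^ 2 := by positivity
    rw [show (-4 / 2 : ℝ) = -(2 : ℕ) by norm_num, Real.rpow_neg h0.le, Real.rpow_natCast,
      one_div, inv_pow]
  refine ⟨∫ x : ℂ, ((1 : ℝ) / (1 + ‖x‖ ^ 2)) ^ 2, integral_nonneg fun x => by positivity, ?_⟩
  intro H y hH
  have hs : 0 < Real.sqrt H := Real.sqrt_pos.2 hH
  have e0 : ∀ η : ℂ, (H / (H + ‖η‖ ^ 2)) ^ 2 =
      (fun x : ℂ => ((1 : ℝ) / (1 + ‖x‖ ^ 2)) ^ 2) ((Real.sqrt H)⁻¹ • η) := by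
    intro η
    simp only [norm_smul, norm_inv, Real.norm_eq_abs, abs_of_pos hs, mul_pow, inv_pow,
      Real.sq_sqrt hH.le]
    congr 1
    field_simp
  have hint2 : Integrable (fun η : ℂ => (H / (H + ‖η‖ ^ 2)) ^ 2) := by
    simp_rw [e0]
    exact hint.comp_smul (inv_ne_zero hs.ne')
  have e1 : ∫⁻ η : ℂ, ENNReal.ofReal ((H / (H + ‖η - y‖ ^ 2)) ^ 2) =
      ∫⁻ η : ℂ, ENNReal.ofReal ((H / (H + ‖η‖ ^ 2)) ^ 2) :=
    lintegral_sub_right_eq_self (fun η : ℂ => ENNReal.ofReal ((H / (H + ‖η‖ ^ 2)) ^ 2)) y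
  rw [e1, ← ofReal_integral_eq_lintegral_ofReal hint2
    (Eventually.of_forall fun x => by positivity)]
  apply ENNReal.ofReal_le_ofReal
  have e2 := Measure.integral_comp_inv_smul_of_nonneg (volume : Measure ℂ)
    (fun x : ℂ => ((1 : ℝ) / (1 + ‖x‖ ^ 2)) ^ 2) hs.le
  rw [Complex.finrank_real_complex, Real.sq_sqrt hH.le, smul_eq_mul, mul_comm] at e2
  rw [← e2]
  refine le_of_eq (integral_congr_ae (Eventually.of_forall fun η => ?_))
  exact e0 η

theorem u1a_inv_U1a (y : ℂ) (R : ℝ) (hR : 0 < R) :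
    ∫⁻ η in {η : ℂ | 0 < ‖η - y‖ ∧ ‖η - y‖ < R}, ENNReal.ofReal (1 / ‖η - y‖) ≤
      ENNReal.ofReal (16 * Real.pi * R) := by
  have h := u1a_shell_U1a (volume : Measure ℂ) (fun η => ‖η - y‖) (fun _ => 1) Real.pi R
    Real.pi_pos.le hR (by fun_prop) (by
      intro t ht
      rw [setLIntegral_one]
      have e : {η : ℂ | ‖η - y‖ < t} = ball y t := by
        ext η; simp [dist_eq_norm]
      rw [e, Complex.volume_ball, mul_comm, ENNReal.ofReal_mul Real.pi_pos.le,
        ENNReal.ofReal_pow ht.le, ← NNReal.coe_real_pi, ENNReal.ofReal_coe_nnreal])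
  simpa only [one_mul] using h

theorem u1a_shellS_U1a (S : Set ℂ) (F F' : ℂ → ℂ) (L R : ℝ) (w : ℂ) (hL : 0 ≤ L) (hR : 0 < R)
    (hF : Measurable F)
    (h : ∀ (b : ℂ) (h : ℝ), 0 < h → ∫⁻ η in S ∩ {η | ‖F η - b‖ < h}, ENNReal.ofReal (‖F' η‖ ^ 2) ≤
        ENNReal.ofReal (L * h ^ 2)) :
    ∫⁻ η in S ∩ {η | 0 < ‖w - F η‖ ∧ ‖w - F η‖ < R}, ENNReal.ofReal (‖F' η‖ ^ 2 / ‖w - F η‖) ≤
      ENNReal.ofReal (16 * L * R) := by
  have hm : Measurable fun η => ‖w - F η‖ := (measurable_const.sub hF).norm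
  have h1 := u1a_shell_U1a ((volume : Measure ℂ).restrict S) (fun η => ‖w - F η‖)
    (fun η => ENNReal.ofReal (‖F' η‖ ^ 2)) L R hL hR hm (by
      intro t ht
      rw [Measure.restrict_restrict (measurableSet_lt hm measurable_const), inter_comm]
      refine le_trans (le_of_eq ?_) (h w t ht)
      congr 2
      ext η
      simp only [mem_inter_iff, mem_ofPred_eq, norm_sub_rev])
  have hms : MeasurableSet {η | 0 < ‖w - F η‖ ∧ ‖w - F η‖ < R} :=
    (measurableSet_lt measurable_const hm).inter (measurableSet_lt hm measurable_const)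
  rw [Measure.restrict_restrict hms, inter_comm] at h1
  refine le_trans (le_of_eq ?_) h1
  refine lintegral_congr fun η => ?_
  rw [← ENNReal.ofReal_mul (by positivity)]
  congr 1
  ring

theorem u1a_split_U1a (T : Set ℂ) (I A B : ℂ → ℝ) (c1 c2 M1 M2 : ℝ) (hT : MeasurableSet T)
    (hc1 : 0 ≤ c1) (hc2 : 0 ≤ c2) (hM1 : 0 ≤ M1) (hM2 : 0 ≤ M2) (hB : Measurable B)
    (hI : ∀ η ∈ T, I η ≤ c1 * A η + c2 * B η)
    (h1 : ∫⁻ η in T, ENNReal.ofReal (A η) ≤ ENNReal.ofReal M1)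
    (h2 : ∫⁻ η in T, ENNReal.ofReal (B η) ≤ ENNReal.ofReal M2) :
    ∫⁻ η in T, ENNReal.ofReal (I η) ≤ ENNReal.ofReal (c1 * M1 + c2 * M2) := by
  calc ∫⁻ η in T, ENNReal.ofReal (I η)
      ≤ ∫⁻ η in T, (ENNReal.ofReal c1 * ENNReal.ofReal (A η) +
          ENNReal.ofReal c2 * ENNReal.ofReal (B η)) := by
        refine setLIntegral_mono' hT fun η hη => ?_
        rw [← ENNReal.ofReal_mul hc1, ← ENNReal.ofReal_mul hc2]
        exact (ENNReal.ofReal_le_ofReal (hI η hη)).trans ENNReal.ofReal_add_le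
    _ = ENNReal.ofReal c1 * (∫⁻ η in T, ENNReal.ofReal (A η)) +
          ENNReal.ofReal c2 * (∫⁻ η in T, ENNReal.ofReal (B η)) := by
        rw [lintegral_add_right _ (hB.ennreal_ofReal.const_mul _),
          lintegral_const_mul' _ _ ENNReal.ofReal_ne_top,
          lintegral_const_mul' _ _ ENNReal.ofReal_ne_top]
    _ ≤ ENNReal.ofReal c1 * ENNReal.ofReal M1 + ENNReal.ofReal c2 * ENNReal.ofReal M2 := by
        gcongr
    _ = ENNReal.ofReal (c1 * M1 + c2 * M2) := by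
        rw [← ENNReal.ofReal_mul hc1, ← ENNReal.ofReal_mul hc2,
          ← ENNReal.ofReal_add (by positivity) (by positivity)]

theorem u1a_pt_U1a (r Φ x H : ℝ) (hr : 0 < r) (h1 : r ≤ 2 * Φ) (h2 : x ^ 2 ≤ 2 * Φ) (hH : r ≤ H) :
    (r / Φ) ^ 2 ≤ 4 ∧ (r / Φ) ^ 2 ≤ 16 * (H / (H + x ^ 2)) ^ 2 ∧
      (r / Φ) ^ 4 * x ^ 2 ≤ 256 * (H / (H + x ^ 2)) ^ 2 * r := by
  have hΦ : 0 < Φ := by linarith
  have hH0 : 0 < H := by linarith
  have hx : 0 ≤ x ^ 2 := sq_nonneg x
  have hρ0 : 0 < r / Φ := div_pos hr hΦ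
  have hρ2 : r / Φ ≤ 2 := by
    rw [div_le_iff₀ hΦ]; exact h1
  have hs0 : 0 < r / (r + x ^ 2) := by positivity
  have hρs : r / Φ ≤ 4 * (r / (r + x ^ 2)) := by
    rw [mul_div_assoc', div_le_div_iff₀ hΦ (by positivity)]
    nlinarith
  have hs1 : r / (r + x ^ 2) ≤ 1 := by
    rw [div_le_one (by positivity)]; linarith
  have hsg : r / (r + x ^ 2) ≤ H / (H + x ^ 2) := by
    rw [div_le_div_iff₀ (by positivity) (by positivity)]
    nlinarith
  have hsx : r / (r + x ^ 2) * x ^ 2 ≤ r := by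
    rw [div_mul_eq_mul_div, div_le_iff₀ (by positivity)]
    nlinarith
  set s := r / (r + x ^ 2) with hs
  set g := H / (H + x ^ 2) with hg
  set ρ := r / Φ with hρ
  have hs2g : s ^ 2 ≤ g ^ 2 := by gcongr
  refine ⟨by nlinarith, ?_, ?_⟩
  · calc ρ ^ 2 ≤ (4 * s) ^ 2 := by gcongr
      _ = 16 * s ^ 2 := by ring
      _ ≤ 16 * g ^ 2 := by gcongr
  · calc ρ ^ 4 * x ^ 2 ≤ (4 * s) ^ 4 * x ^ 2 := by gcongr
      _ = 256 * (s ^ 2 * s) * (s * x ^ 2) := by ring
      _ ≤ 256 * (g ^ 2 * 1) * r := by gcongr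
      _ = 256 * g ^ 2 * r := by ring

/-- the algebra in the integrand -/
theorem u1a_alg_U1a (P Q ρ x W L : ℝ) (hP : 0 ≤ P) (hL : 0 ≤ L) (hρ2 : ρ ^ 2 ≤ 4)
    (hQ : Q ≤ P + L * x) (hW : 0 < W) :
    P * ρ ^ 2 * Q / W ≤ (4 + L / 2) * (P ^ 2 / W) + L / 2 * (ρ ^ 4 * x ^ 2) / W := by
  have h1 : P * ρ ^ 2 * Q ≤ (4 + L / 2) * P ^ 2 + L / 2 * (ρ ^ 4 * x ^ 2) := by
    have h2 : P * ρ ^ 2 * Q ≤ P * ρ ^ 2 * (P + L * x) := by gcongr
    have h3 : P * ρ ^ 2 * (P + L * x) = ρ ^ 2 * P ^ 2 + L * (P * (ρ ^ 2 * x)) := by ring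
    have h4 : ρ ^ 2 * P ^ 2 ≤ 4 * P ^ 2 := by gcongr
    have h5 : P * (ρ ^ 2 * x) ≤ (P ^ 2 + (ρ ^ 2 * x) ^ 2) / 2 := by
      nlinarith [sq_nonneg (P - ρ ^ 2 * x)]
    have h6 : L * (P * (ρ ^ 2 * x)) ≤ L * ((P ^ 2 + (ρ ^ 2 * x) ^ 2) / 2) := by gcongr
    have h7 : (ρ ^ 2 * x) ^ 2 = ρ ^ 4 * x ^ 2 := by ring
    rw [h7] at h6
    nlinarith
  calc P * ρ ^ 2 * Q / W ≤ ((4 + L / 2) * P ^ 2 + L / 2 * (ρ ^ 4 * x ^ 2)) / W := by gcongr
    _ = _ := by ring

theorem u1a_conj_U1a (a : ℂ) (h : 0 < a.im) : ‖a - starRingEnd ℂ a‖ = 2 * a.im := by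
  have e : a - starRingEnd ℂ a = ((2 * a.im : ℝ) : ℂ) * I := by
    apply Complex.ext <;> simp
    ring
  rw [e, norm_mul, Complex.norm_I, mul_one, Complex.norm_real, Real.norm_eq_abs,
    abs_of_pos (by positivity)]

theorem u1a_im_U1a (w a : ℂ) : w.im + a.im ≤ ‖w - starRingEnd ℂ a‖ := by
  have h := (le_abs_self _).trans (Complex.abs_im_le_norm (w - starRingEnd ℂ a))
  simpa using h

/-- **TARGET 1** -/
theorem sec_far {L c₀ : ℝ} (hL : 1 ≤ L) (hc : 0 < c₀) (hc1 : c₀ ≤ 1) : ∃ C : ℝ, 0 ≤ C ∧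
    ∀ (S : Set ℂ), MeasurableSet S → S ⊆ ball 0 1 →
    ∀ (F F' q : ℂ → ℂ) (r Φ : ℂ → ℝ) (y w' a : ℂ), Measurable F → Measurable F' → Measurable q →
      Measurable r → Measurable Φ → 0 < a.im → 0 < w'.im →
      (∀ η ∈ S, 0 < r η) → (∀ η ∈ S, r η ≤ 2 * Φ η) → (∀ η ∈ S, ‖η - y‖ ^ 2 ≤ 2 * Φ η) →
      (∀ η ∈ S, r η ≤ L * (F η).im) → (∀ η ∈ S, ‖q η‖ ≤ ‖F' η‖ + L * ‖η - y‖) →
      (∀ (b : ℂ) (h : ℝ), 0 < h → ∫⁻ η in S ∩ {η | ‖F η - b‖ < h}, ENNReal.ofReal (‖F' η‖ ^ 2) ≤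
        ENNReal.ofReal (L * h ^ 2)) →
      (∀ η ∈ S, ‖F η - a‖ ≤ 4 * a.im →
        c₀ * ‖w' - starRingEnd ℂ (F η)‖ ≤ ‖w' - F η‖) →
      ∫⁻ η in S ∩ {η | ‖F η - a‖ ≤ 4 * a.im},
        ENNReal.ofReal (‖F' η‖ * (r η / Φ η) ^ 2 * ‖q η‖ / ‖w' - F η‖) ≤
          ENNReal.ofReal (C * a.im ^ 2 / ‖w' - starRingEnd ℂ a‖) := by
  obtain ⟨K, hK, hKint⟩ := u1a_g2_U1a
  have hL0 : 0 < L := by linarith
  refine ⟨(50 * L * (4 + L / 2) + 6400 * L ^ 3 * K) +
    12 * (320 * L * (4 + L / 2) + 640 * L ^ 3 * K / c₀), by positivity, ?_⟩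
  intro S hS _ F F' q r Φ y w' a hF hF' hq hr hΦ ha hw h0 h1 h2 h3 h4 h5 h6
  set h := a.im with hh
  set D := ‖w' - starRingEnd ℂ a‖ with hD
  have hDpos : 0 < D := by
    have := u1a_im_U1a w' a
    linarith
  set T : Set ℂ := S ∩ {η | ‖F η - a‖ ≤ 4 * h} with hT
  have hTm : MeasurableSet T :=
    hS.inter (measurableSet_le (hF.sub measurable_const).norm measurable_const)
  have hH : 0 < 5 * L * h := by positivity
  -- pointwise facts on T
  have hrH : ∀ η ∈ T, r η ≤ 5 * L * h := by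
    intro η hη
    have e1 := h3 η hη.1
    have e2 : (F η).im ≤ 5 * h := by
      have e3 := (le_abs_self _).trans (Complex.abs_im_le_norm (F η - a))
      have e4 : ‖F η - a‖ ≤ 4 * h := hη.2
      rw [Complex.sub_im] at e3
      linarith
    calc r η ≤ L * (F η).im := e1
      _ ≤ L * (5 * h) := by gcongr
      _ = 5 * L * h := by ring
  have hpt := fun η (hη : η ∈ T) => u1a_pt_U1a (r η) (Φ η) ‖η - y‖ (5 * L * h) (h0 η hη.1) (h1 η hη.1)
    (h2 η hη.1) (hrH η hη)
  have hgm : Measurable fun η : ℂ => (5 * L * h / (5 * L * h + ‖η - y‖ ^ 2)) ^ 2 := by fun_prop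
  have hg : ∫⁻ η in T, ENNReal.ofReal ((5 * L * h / (5 * L * h + ‖η - y‖ ^ 2)) ^ 2) ≤
      ENNReal.ofReal (K * (5 * L * h)) :=
    (setLIntegral_le_lintegral _ _).trans (hKint _ y hH)
  have hca := u1a_conj_U1a a ha
  by_cases hcase : 12 * h ≤ D
  · -- far
    have hW : ∀ η ∈ T, D / 2 ≤ ‖w' - F η‖ := by
      intro η hη
      have e4 : ‖F η - a‖ ≤ 4 * h := hη.2
      have e5 : D ≤ ‖w' - F η‖ + ‖F η - a‖ + ‖a - starRingEnd ℂ a‖ := by
        have : w' - starRingEnd ℂ a = (w' - F η) + (F η - a) + (a - starRingEnd ℂ a) := by ring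
        rw [hD, this]
        exact (norm_add_le _ _).trans (add_le_add_left (norm_add_le _ _) _)
      rw [hca] at e5
      linarith
    have harea : ∫⁻ η in T, ENNReal.ofReal (‖F' η‖ ^ 2) ≤ ENNReal.ofReal (L * (5 * h) ^ 2) := by
      refine le_trans (lintegral_mono_set ?_) (h5 a (5 * h) (by positivity))
      rintro η ⟨e1, e2⟩
      refine ⟨e1, ?_⟩
      have e2' : ‖F η - a‖ ≤ 4 * h := e2
      show ‖F η - a‖ < 5 * h
      linarith
    have hmain := u1a_split_U1a T (fun η => ‖F' η‖ * (r η / Φ η) ^ 2 * ‖q η‖ / ‖w' - F η‖)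
      (fun η => ‖F' η‖ ^ 2) (fun η => (5 * L * h / (5 * L * h + ‖η - y‖ ^ 2)) ^ 2)
      (2 / D * (4 + L / 2)) (2 / D * (L / 2 * 256 * (5 * L * h))) (L * (5 * h) ^ 2)
      (K * (5 * L * h)) hTm (by positivity) (by positivity) (by positivity) (by positivity) hgm
      (by
        intro η hη
        obtain ⟨p1, p2, p3⟩ := hpt η hη
        have hWpos : 0 < ‖w' - F η‖ := by
          have := hW η hη
          linarith
        have halg := u1a_alg_U1a ‖F' η‖ ‖q η‖ (r η / Φ η) ‖η - y‖ ‖w' - F η‖ L (norm_nonneg _)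
          hL0.le p1 (h4 η hη.1) hWpos
        have hinv : 1 / ‖w' - F η‖ ≤ 2 / D := by
          rw [div_le_div_iff₀ hWpos hDpos]
          have := hW η hη
          linarith
        have e1 : (4 + L / 2) * (‖F' η‖ ^ 2 / ‖w' - F η‖) ≤ 2 / D * (4 + L / 2) * ‖F' η‖ ^ 2 := by
          calc (4 + L / 2) * (‖F' η‖ ^ 2 / ‖w' - F η‖)
              = (4 + L / 2) * ‖F' η‖ ^ 2 * (1 / ‖w' - F η‖) := by ring
            _ ≤ (4 + L / 2) * ‖F' η‖ ^ 2 * (2 / D) := by gcongr
            _ = _ := by ring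
        have e2 : L / 2 * ((r η / Φ η) ^ 4 * ‖η - y‖ ^ 2) / ‖w' - F η‖ ≤
            2 / D * (L / 2 * 256 * (5 * L * h)) *
              (5 * L * h / (5 * L * h + ‖η - y‖ ^ 2)) ^ 2 := by
          calc L / 2 * ((r η / Φ η) ^ 4 * ‖η - y‖ ^ 2) / ‖w' - F η‖
              = L / 2 * ((r η / Φ η) ^ 4 * ‖η - y‖ ^ 2) * (1 / ‖w' - F η‖) := by ring
            _ ≤ L / 2 * (256 * (5 * L * h / (5 * L * h + ‖η - y‖ ^ 2)) ^ 2 * (5 * L * h)) *
                  (2 / D) := by
                have e3 : (r η / Φ η) ^ 4 * ‖η - y‖ ^ 2 ≤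
                    256 * (5 * L * h / (5 * L * h + ‖η - y‖ ^ 2)) ^ 2 * (5 * L * h) := by
                  refine p3.trans ?_
                  have := hrH η hη
                  gcongr
                gcongr
            _ = _ := by ring
        linarith)
      harea hg
    refine hmain.trans (ENNReal.ofReal_le_ofReal ?_)
    have e : 2 / D * (4 + L / 2) * (L * (5 * h) ^ 2) +
        2 / D * (L / 2 * 256 * (5 * L * h)) * (K * (5 * L * h)) =
        (50 * L * (4 + L / 2) + 6400 * L ^ 3 * K) * h ^ 2 / D := by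
      field_simp
      ring
    rw [e]
    have : 0 ≤ 12 * (320 * L * (4 + L / 2) + 640 * L ^ 3 * K / c₀) := by positivity
    refine div_le_div_of_nonneg_right (mul_le_mul_of_nonneg_right ?_ (sq_nonneg h)) hDpos.le
    linarith
  · -- near
    push Not at hcase
    have hWr : ∀ η ∈ T, c₀ * r η ≤ L * ‖w' - F η‖ := by
      intro η hη
      have e1 := h6 η hη.1 hη.2
      have e2 := u1a_im_U1a w' (F η)
      have e3 := h3 η hη.1
      have e4 := h0 η hη.1
      have e5 : 0 < (F η).im := by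
        by_contra hcon
        push Not at hcon
        nlinarith
      calc c₀ * r η ≤ c₀ * (L * (F η).im) := by gcongr
        _ = L * (c₀ * (F η).im) := by ring
        _ ≤ L * (c₀ * ‖w' - starRingEnd ℂ (F η)‖) := by
            gcongr
            linarith
        _ ≤ L * ‖w' - F η‖ := by gcongr
    have hWpos : ∀ η ∈ T, 0 < ‖w' - F η‖ := by
      intro η hη
      have e1 := hWr η hη
      have e2 := h0 η hη.1
      by_contra hcon
      push Not at hcon
      have : 0 < c₀ * r η := by positivity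
      nlinarith
    have hWlt : ∀ η ∈ T, ‖w' - F η‖ < 20 * h := by
      intro η hη
      have e4 : ‖F η - a‖ ≤ 4 * h := hη.2
      have e5 : ‖w' - F η‖ ≤ ‖w' - starRingEnd ℂ a‖ + ‖a - starRingEnd ℂ a‖ + ‖F η - a‖ := by
        have : w' - F η = (w' - starRingEnd ℂ a) - (a - starRingEnd ℂ a) - (F η - a) := by ring
        rw [this]
        exact (norm_sub_le _ _).trans (add_le_add_left (norm_sub_le _ _) _)
      rw [hca] at e5
      linarith
    have harea : ∫⁻ η in T, ENNReal.ofReal (‖F' η‖ ^ 2 / ‖w' - F η‖) ≤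
        ENNReal.ofReal (16 * L * (20 * h)) := by
      refine le_trans (lintegral_mono_set ?_)
        (u1a_shellS_U1a S F F' L (20 * h) w' hL0.le (by positivity) hF h5)
      intro η hη
      exact ⟨hη.1, hWpos η hη, hWlt η hη⟩
    have hmain := u1a_split_U1a T (fun η => ‖F' η‖ * (r η / Φ η) ^ 2 * ‖q η‖ / ‖w' - F η‖)
      (fun η => ‖F' η‖ ^ 2 / ‖w' - F η‖) (fun η => (5 * L * h / (5 * L * h + ‖η - y‖ ^ 2)) ^ 2)
      (4 + L / 2) (L / 2 * 256 * (L / c₀)) (16 * L * (20 * h))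
      (K * (5 * L * h)) hTm (by positivity) (by positivity) (by positivity) (by positivity) hgm
      (by
        intro η hη
        obtain ⟨p1, p2, p3⟩ := hpt η hη
        have hWp := hWpos η hη
        have halg := u1a_alg_U1a ‖F' η‖ ‖q η‖ (r η / Φ η) ‖η - y‖ ‖w' - F η‖ L (norm_nonneg _)
          hL0.le p1 (h4 η hη.1) hWp
        have hinv : r η / ‖w' - F η‖ ≤ L / c₀ := by
          rw [div_le_div_iff₀ hWp hc]
          have := hWr η hη
          linarith
        have e2 : L / 2 * ((r η / Φ η) ^ 4 * ‖η - y‖ ^ 2) / ‖w' - F η‖ ≤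
            L / 2 * 256 * (L / c₀) *
              (5 * L * h / (5 * L * h + ‖η - y‖ ^ 2)) ^ 2 := by
          calc L / 2 * ((r η / Φ η) ^ 4 * ‖η - y‖ ^ 2) / ‖w' - F η‖
              ≤ L / 2 * (256 * (5 * L * h / (5 * L * h + ‖η - y‖ ^ 2)) ^ 2 * r η) /
                  ‖w' - F η‖ := by gcongr
            _ = L / 2 * 256 * (5 * L * h / (5 * L * h + ‖η - y‖ ^ 2)) ^ 2 *
                  (r η / ‖w' - F η‖) := by ring
            _ ≤ L / 2 * 256 * (5 * L * h / (5 * L * h + ‖η - y‖ ^ 2)) ^ 2 * (L / c₀) := by gcongr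
            _ = _ := by ring
        linarith)
      harea hg
    refine hmain.trans (ENNReal.ofReal_le_ofReal ?_)
    have e : (4 + L / 2) * (16 * L * (20 * h)) + L / 2 * 256 * (L / c₀) * (K * (5 * L * h)) =
        (320 * L * (4 + L / 2) + 640 * L ^ 3 * K / c₀) * h := by
      field_simp
      ring
    rw [e]
    have hhD : h ≤ 12 * h ^ 2 / D := by
      rw [le_div_iff₀ hDpos]
      nlinarith
    have hpos : 0 ≤ 320 * L * (4 + L / 2) + 640 * L ^ 3 * K / c₀ := by positivity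
    calc (320 * L * (4 + L / 2) + 640 * L ^ 3 * K / c₀) * h
        ≤ (320 * L * (4 + L / 2) + 640 * L ^ 3 * K / c₀) * (12 * h ^ 2 / D) := by gcongr
      _ = (12 * (320 * L * (4 + L / 2) + 640 * L ^ 3 * K / c₀)) * h ^ 2 / D := by ring
      _ ≤ _ := by
          gcongr
          have : 0 ≤ 50 * L * (4 + L / 2) + 6400 * L ^ 3 * K := by positivity
          linarith

/-- **TARGET 2** -/
theorem sec_on {L : ℝ} (hL : 1 ≤ L) : ∃ C : ℝ, 0 ≤ C ∧
    ∀ (S : Set ℂ), MeasurableSet S → S ⊆ ball 0 1 →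
    ∀ (F F' : ℂ → ℂ) (r Φ : ℂ → ℝ) (y a : ℂ), Measurable F → Measurable F' →
      Measurable r → Measurable Φ → 0 < a.im → 0 < (F y).im →
      (∀ η ∈ S, 0 < r η) → (∀ η ∈ S, r η ≤ 2 * Φ η) → (∀ η ∈ S, ‖η - y‖ ^ 2 ≤ 2 * Φ η) →
      (∀ η ∈ S, r η ≤ L * (F η).im) →
      (∀ η ∈ S, ‖F η - F y - (η - y) * F' y‖ ≤ L * ‖η - y‖ ^ 2) →
      (∀ η ∈ S, ‖F' η - F' y‖ ≤ L * ‖η - y‖) →
      (∀ (b : ℂ) (h : ℝ), 0 < h → ∫⁻ η in S ∩ {η | ‖F η - b‖ < h}, ENNReal.ofReal (‖F' η‖ ^ 2) ≤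
        ENNReal.ofReal (L * h ^ 2)) →
      ∫⁻ η in S ∩ {η | ‖F η - a‖ ≤ 4 * a.im},
        ENNReal.ofReal (‖F' η‖ * (r η / Φ η) ^ 2 / ‖y - η‖) ≤
          ENNReal.ofReal (C * a.im ^ 2 / ‖F y - starRingEnd ℂ a‖) := by
  obtain ⟨K, hK, hKint⟩ := u1a_g2_U1a
  have hL0 : 0 < L := by linarith
  have hπ := Real.pi_pos
  refine ⟨(50 * L * (4 + L) + 12800 * L ^ 3 * K) +
    12 * (240 * L ^ 2 * K + 4608 * Real.pi), by positivity, ?_⟩
  intro S hS _ F F' r Φ y a hF hF' hr hΦ ha hw h0 h1 h2 h3 h4 h4' h5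
  set h := a.im with hh
  set D := ‖F y - starRingEnd ℂ a‖ with hD
  have hDpos : 0 < D := by
    have := u1a_im_U1a (F y) a
    linarith
  set T : Set ℂ := S ∩ {η | ‖F η - a‖ ≤ 4 * h} with hT
  have hTm : MeasurableSet T :=
    hS.inter (measurableSet_le (hF.sub measurable_const).norm measurable_const)
  have hH : 0 < 5 * L * h := by positivity
  -- pointwise facts on T
  have hrH : ∀ η ∈ T, r η ≤ 5 * L * h := by
    intro η hη
    have e1 := h3 η hη.1
    have e2 : (F η).im ≤ 5 * h := by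
      have e3 := (le_abs_self _).trans (Complex.abs_im_le_norm (F η - a))
      have e4 : ‖F η - a‖ ≤ 4 * h := hη.2
      rw [Complex.sub_im] at e3
      linarith
    calc r η ≤ L * (F η).im := e1
      _ ≤ L * (5 * h) := by gcongr
      _ = 5 * L * h := by ring
  have hpt := fun η (hη : η ∈ T) => u1a_pt_U1a (r η) (Φ η) ‖η - y‖ (5 * L * h) (h0 η hη.1) (h1 η hη.1)
    (h2 η hη.1) (hrH η hη)
  have hgm : Measurable fun η : ℂ => (5 * L * h / (5 * L * h + ‖η - y‖ ^ 2)) ^ 2 := by fun_prop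
  have hg : ∫⁻ η in T, ENNReal.ofReal ((5 * L * h / (5 * L * h + ‖η - y‖ ^ 2)) ^ 2) ≤
      ENNReal.ofReal (K * (5 * L * h)) :=
    (setLIntegral_le_lintegral _ _).trans (hKint _ y hH)
  have hca := u1a_conj_U1a a ha
  by_cases hcase : 12 * h ≤ D
  · -- far
    have hW : ∀ η ∈ T, D / 2 ≤ ‖F y - F η‖ := by
      intro η hη
      have e4 : ‖F η - a‖ ≤ 4 * h := hη.2
      have e5 : D ≤ ‖F y - F η‖ + ‖F η - a‖ + ‖a - starRingEnd ℂ a‖ := by
        have : F y - starRingEnd ℂ a = (F y - F η) + (F η - a) + (a - starRingEnd ℂ a) := by ring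
        rw [hD, this]
        exact (norm_add_le _ _).trans (add_le_add_left (norm_add_le _ _) _)
      rw [hca] at e5
      linarith
    have hWx : ∀ η ∈ T, ‖F y - F η‖ ≤ ‖η - y‖ * (‖F' η‖ + 2 * L * ‖η - y‖) := by
      intro η hη
      have e1 := h4 η hη.1
      have e2 := h4' η hη.1
      have e3 : ‖F y - F η‖ ≤ ‖F η - F y - (η - y) * F' y‖ + ‖η - y‖ * ‖F' y‖ := by
        rw [← norm_mul, norm_sub_rev (F y)]
        have : F η - F y = (F η - F y - (η - y) * F' y) + (η - y) * F' y := by ring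
        conv_lhs => rw [this]
        exact norm_add_le _ _
      have e4 : ‖F' y‖ ≤ ‖F' η‖ + ‖F' η - F' y‖ := by
        have : F' y = F' η - (F' η - F' y) := by ring
        conv_lhs => rw [this]
        exact norm_sub_le _ _
      calc ‖F y - F η‖ ≤ L * ‖η - y‖ ^ 2 + ‖η - y‖ * (‖F' η‖ + L * ‖η - y‖) := by
            refine e3.trans (add_le_add e1 ?_)
            gcongr
            linarith
        _ = _ := by ring
    have harea : ∫⁻ η in T, ENNReal.ofReal (‖F' η‖ ^ 2) ≤ ENNReal.ofReal (L * (5 * h) ^ 2) := by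
      refine le_trans (lintegral_mono_set ?_) (h5 a (5 * h) (by positivity))
      rintro η ⟨e1, e2⟩
      refine ⟨e1, ?_⟩
      have e2' : ‖F η - a‖ ≤ 4 * h := e2
      show ‖F η - a‖ < 5 * h
      linarith
    have hmain := u1a_split_U1a T (fun η => ‖F' η‖ * (r η / Φ η) ^ 2 / ‖y - η‖)
      (fun η => ‖F' η‖ ^ 2) (fun η => (5 * L * h / (5 * L * h + ‖η - y‖ ^ 2)) ^ 2)
      (2 / D * (4 + L)) (2 / D * (L * 256 * (5 * L * h))) (L * (5 * h) ^ 2)
      (K * (5 * L * h)) hTm (by positivity) (by positivity) (by positivity) (by positivity) hgm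
      (by
        intro η hη
        obtain ⟨p1, p2, p3⟩ := hpt η hη
        have hx0 : 0 < ‖η - y‖ := by
          rcases (norm_nonneg (η - y)).eq_or_lt with e | e
          · exfalso
            have q1 := hW η hη
            have q2 := hWx η hη
            rw [← e] at q2
            linarith
          · exact e
        rw [norm_sub_rev y η]
        have halg := u1a_alg_U1a ‖F' η‖ (‖F' η‖ + 2 * L * ‖η - y‖) (r η / Φ η) ‖η - y‖ 1 (2 * L)
          (norm_nonneg _) (by positivity) p1 le_rfl one_pos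
        have hinv : 1 / ‖η - y‖ ≤ 2 / D * (‖F' η‖ + 2 * L * ‖η - y‖) := by
          rw [div_mul_eq_mul_div, div_le_div_iff₀ hx0 hDpos]
          have q1 := hW η hη
          have q2 := hWx η hη
          nlinarith
        have e3 : (r η / Φ η) ^ 4 * ‖η - y‖ ^ 2 ≤
            256 * (5 * L * h / (5 * L * h + ‖η - y‖ ^ 2)) ^ 2 * (5 * L * h) := by
          refine p3.trans ?_
          have := hrH η hη
          gcongr
        calc ‖F' η‖ * (r η / Φ η) ^ 2 / ‖η - y‖
            = ‖F' η‖ * (r η / Φ η) ^ 2 * (1 / ‖η - y‖) := by ring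
          _ ≤ ‖F' η‖ * (r η / Φ η) ^ 2 * (2 / D * (‖F' η‖ + 2 * L * ‖η - y‖)) := by gcongr
          _ = 2 / D * (‖F' η‖ * (r η / Φ η) ^ 2 * (‖F' η‖ + 2 * L * ‖η - y‖) / 1) := by ring
          _ ≤ 2 / D * ((4 + 2 * L / 2) * (‖F' η‖ ^ 2 / 1) +
                2 * L / 2 * ((r η / Φ η) ^ 4 * ‖η - y‖ ^ 2) / 1) := by gcongr
          _ = 2 / D * ((4 + L) * ‖F' η‖ ^ 2 + L * ((r η / Φ η) ^ 4 * ‖η - y‖ ^ 2)) := by ring
          _ ≤ 2 / D * ((4 + L) * ‖F' η‖ ^ 2 + L *
                (256 * (5 * L * h / (5 * L * h + ‖η - y‖ ^ 2)) ^ 2 * (5 * L * h))) := by gcongr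
          _ = _ := by ring)
      harea hg
    refine hmain.trans (ENNReal.ofReal_le_ofReal ?_)
    have e : 2 / D * (4 + L) * (L * (5 * h) ^ 2) +
        2 / D * (L * 256 * (5 * L * h)) * (K * (5 * L * h)) =
        (50 * L * (4 + L) + 12800 * L ^ 3 * K) * h ^ 2 / D := by
      field_simp
      ring
    rw [e]
    have : 0 ≤ 12 * (240 * L ^ 2 * K + 4608 * Real.pi) := by positivity
    refine div_le_div_of_nonneg_right (mul_le_mul_of_nonneg_right ?_ (sq_nonneg h)) hDpos.le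
    linarith
  · -- near
    push Not at hcase
    set A := ‖F' y‖ with hA
    have hA0 : 0 ≤ A := norm_nonneg _
    set E : Set ℂ := {η | 0 < ‖η - y‖ ∧ ‖η - y‖ < 72 * h / A} with hE
    have hxm : Measurable fun η : ℂ => ‖η - y‖ := by fun_prop
    have hEm : MeasurableSet E :=
      (measurableSet_lt measurable_const hxm).inter (measurableSet_lt hxm measurable_const)
    have hBm : Measurable (E.indicator fun η => 1 / ‖η - y‖) :=
      Measurable.indicator (by fun_prop) hEm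
    have hB0 : ∀ η, 0 ≤ E.indicator (fun η => 1 / ‖η - y‖) η :=
      fun η => indicator_nonneg (fun x _ => by positivity) η
    have hBint : ∫⁻ η in T, ENNReal.ofReal (E.indicator (fun η => 1 / ‖η - y‖) η) ≤
        ENNReal.ofReal (16 * Real.pi * (72 * h / A)) := by
      refine (setLIntegral_le_lintegral _ _).trans ?_
      have e1 : ∀ η, ENNReal.ofReal (E.indicator (fun η => 1 / ‖η - y‖) η) =
          E.indicator (fun η => ENNReal.ofReal (1 / ‖η - y‖)) η := by
        intro η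
        by_cases hη : η ∈ E
        · rw [indicator_of_mem hη, indicator_of_mem hη]
        · rw [indicator_of_notMem hη, indicator_of_notMem hη, ENNReal.ofReal_zero]
      simp_rw [e1]
      rw [lintegral_indicator hEm]
      rcases hA0.eq_or_lt with hA1 | hA1
      · have : E = ∅ := by
          ext η
          simp only [hE, mem_ofPred_eq, mem_empty_iff_false, iff_false, not_and, not_lt]
          intro _
          rw [← hA1, div_zero]
          exact norm_nonneg _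
        rw [this, Measure.restrict_empty, lintegral_zero_measure]
        exact bot_le
      · exact u1a_inv_U1a y _ (by positivity)
    have hmain := u1a_split_U1a T (fun η => ‖F' η‖ * (r η / Φ η) ^ 2 / ‖y - η‖)
      (fun η => (5 * L * h / (5 * L * h + ‖η - y‖ ^ 2)) ^ 2)
      (E.indicator fun η => 1 / ‖η - y‖)
      (48 * L) (4 * A) (K * (5 * L * h)) (16 * Real.pi * (72 * h / A))
      hTm (by positivity) (by positivity) (by positivity) (by positivity) hBm
      (by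
        intro η hη
        obtain ⟨p1, p2, p3⟩ := hpt η hη
        rw [norm_sub_rev y η]
        have hρ2 : 0 ≤ (r η / Φ η) ^ 2 := sq_nonneg _
        rcases (norm_nonneg (η - y)).eq_or_lt with e | hx0
        · rw [← e, div_zero]
          have := hB0 η
          positivity
        have q0 := h4' η hη.1
        have q1 : ‖F' η‖ ≤ A + L * ‖η - y‖ := by
          have : F' η = (F' η - F' y) + F' y := by ring
          rw [this]
          refine (norm_add_le _ _).trans ?_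
          linarith
        have q2 : ‖F' η‖ * (r η / Φ η) ^ 2 / ‖η - y‖ ≤
            A * (r η / Φ η) ^ 2 / ‖η - y‖ + L * (r η / Φ η) ^ 2 := by
          calc ‖F' η‖ * (r η / Φ η) ^ 2 / ‖η - y‖
              ≤ (A + L * ‖η - y‖) * (r η / Φ η) ^ 2 / ‖η - y‖ := by gcongr
            _ = _ := by field_simp
        have q3 : L * (r η / Φ η) ^ 2 ≤
            16 * L * (5 * L * h / (5 * L * h + ‖η - y‖ ^ 2)) ^ 2 := by
          calc L * (r η / Φ η) ^ 2 ≤
              L * (16 * (5 * L * h / (5 * L * h + ‖η - y‖ ^ 2)) ^ 2) := by gcongr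
            _ = _ := by ring
        by_cases hAx : A * ‖η - y‖ ≤ 36 * h
        · -- close
          have q4 : A * (r η / Φ η) ^ 2 / ‖η - y‖ ≤
              4 * A * E.indicator (fun η => 1 / ‖η - y‖) η := by
            rcases hA0.eq_or_lt with hA1 | hA1
            · rw [← hA1]; simp
            · have hmem : η ∈ E := by
                refine ⟨hx0, ?_⟩
                rw [lt_div_iff₀ hA1]
                nlinarith
              rw [indicator_of_mem hmem]
              calc A * (r η / Φ η) ^ 2 / ‖η - y‖ ≤ A * 4 / ‖η - y‖ := by gcongr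
                _ = _ := by ring
          have q5 : 0 ≤ (5 * L * h / (5 * L * h + ‖η - y‖ ^ 2)) ^ 2 := sq_nonneg _
          nlinarith
        · push Not at hAx
          have q4 : A ≤ 2 * L * ‖η - y‖ := by
            by_contra hcon
            push Not at hcon
            have e1 := h4 η hη.1
            have e2 : ‖η - y‖ * A ≤ ‖F η - F y‖ + ‖F η - F y - (η - y) * F' y‖ := by
              rw [hA, ← norm_mul]
              have : (η - y) * F' y = (F η - F y) - (F η - F y - (η - y) * F' y) := by ring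
              conv_lhs => rw [this]
              exact norm_sub_le _ _
            have e3 : ‖F η - F y‖ ≤ ‖F η - a‖ + ‖a - starRingEnd ℂ a‖ + D := by
              have : F η - F y = (F η - a) + (a - starRingEnd ℂ a) - (F y - starRingEnd ℂ a) := by
                ring
              rw [this]
              exact (norm_sub_le _ _).trans (add_le_add_left (norm_add_le _ _) _)
            have e4 : ‖F η - a‖ ≤ 4 * h := hη.2
            rw [hca] at e3
            nlinarith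
          have q5 : A * (r η / Φ η) ^ 2 / ‖η - y‖ ≤ 2 * (L * (r η / Φ η) ^ 2) := by
            rw [div_le_iff₀ hx0]
            calc A * (r η / Φ η) ^ 2 ≤ 2 * L * ‖η - y‖ * (r η / Φ η) ^ 2 := by gcongr
              _ = _ := by ring
          have q6 : 0 ≤ 4 * A * E.indicator (fun η => 1 / ‖η - y‖) η :=
            mul_nonneg (by positivity) (hB0 η)
          linarith)
      hg hBint
    refine hmain.trans (ENNReal.ofReal_le_ofReal ?_)
    have e : 48 * L * (K * (5 * L * h)) + 4 * A * (16 * Real.pi * (72 * h / A)) ≤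
        (240 * L ^ 2 * K + 4608 * Real.pi) * h := by
      rcases hA0.eq_or_lt with hA1 | hA1
      · rw [← hA1]
        have : 0 ≤ 4608 * Real.pi * h := by positivity
        simp only [div_zero, mul_zero, add_zero]
        nlinarith
      · have : 4 * A * (16 * Real.pi * (72 * h / A)) = 4608 * Real.pi * h := by
          field_simp
          ring
        rw [this]
        apply le_of_eq
        ring
    have hhD : h ≤ 12 * h ^ 2 / D := by
      rw [le_div_iff₀ hDpos]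
      nlinarith
    have hpos : 0 ≤ 240 * L ^ 2 * K + 4608 * Real.pi := by positivity
    calc 48 * L * (K * (5 * L * h)) + 4 * A * (16 * Real.pi * (72 * h / A))
        ≤ (240 * L ^ 2 * K + 4608 * Real.pi) * h := e
      _ ≤ (240 * L ^ 2 * K + 4608 * Real.pi) * (12 * h ^ 2 / D) := by gcongr
      _ = (12 * (240 * L ^ 2 * K + 4608 * Real.pi)) * h ^ 2 / D := by ring
      _ ≤ _ := by
          gcongr
          have : 0 ≤ 50 * L * (4 + L) + 12800 * L ^ 3 * K := by positivity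
          linarith

end Pool.Agent.P157C
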