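import Mathlib
import Pool.Agent.Y263.SC.OpX
import Pool.Agent.P157C.Defs2
import Pool.Agent.P157C.Pw
import Pool.Agent.P157C.SecE

set_option autoImplicit false

open MeasureTheory Metric Set Filter Topology Complex

namespace Pool.Agent.P157C

open Pool.Agent.H720R2 Pool.Agent.H720R2.HP

open Pool.Agent.Y263.SC (Den)

theorem meas_ind_U1b {X : Type} [NormedAddCommGroup X] [MeasurableSpace X] [BorelSpace X]
    {U : Set ℂ} (hU : IsOpen U) {f : ℂ → X} (hf : ContinuousOn f U) :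
    Measurable (U.indicator f) := by
  classical
  rw [← Set.piecewise_eq_indicator]
  exact ContinuousOn.measurable_piecewise hf continuousOn_const hU.measurableSet

theorem slice_cont_U1b {κ : ℝ} {F : ℂ × ℂ → ℂ} (hF : DifferentiableOn ℂ F {p | ‖p.1‖ < κ ∧ ‖p.2‖ < κ})
    {ζ : ℂ} (hζ : ‖ζ‖ < κ) : ContinuousOn (fun η => F (ζ, η)) (ball 0 κ) := by
  refine hF.continuousOn.comp (by fun_prop) (fun η hη => ?_)
  rw [mem_ball_zero_iff] at hη
  exact ⟨hζ, hη⟩

theorem slice_diff_U1b {κ : ℝ} {F : ℂ × ℂ → ℂ} (hF : DifferentiableOn ℂ F {p | ‖p.1‖ < κ ∧ ‖p.2‖ < κ})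
    {ζ : ℂ} (hζ : ‖ζ‖ < κ) {η : ℂ} (hη : ‖η‖ < κ) :
    DifferentiableAt ℂ (fun η => F (ζ, η)) η := by
  have hO : IsOpen {p : ℂ × ℂ | ‖p.1‖ < κ ∧ ‖p.2‖ < κ} := by
    refine IsOpen.inter ?_ ?_
    · exact isOpen_lt (continuous_norm.comp continuous_fst) continuous_const
    · exact isOpen_lt (continuous_norm.comp continuous_snd) continuous_const
  have h1 : DifferentiableAt ℂ F (ζ, η) :=
    (hF (ζ, η) ⟨hζ, hη⟩).differentiableAt (hO.mem_nhds ⟨hζ, hη⟩)
  have h2 : DifferentiableAt ℂ (fun η : ℂ => (ζ, η)) η :=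
    (differentiableAt_const _).prodMk differentiableAt_id
  exact DifferentiableAt.comp (g := F) η h1 h2

theorem dslope_symm_U1b (f : ℂ → ℂ) (a b : ℂ) : dslope f a b = dslope f b a := by
  rcases eq_or_ne a b with h | h
  · rw [h]
  · rw [dslope_of_ne f h.symm, dslope_of_ne f h, slope_comm]

theorem qq_cont_U1b {κ : ℝ} {F : ℂ × ℂ → ℂ} (hF : DifferentiableOn ℂ F {p | ‖p.1‖ < κ ∧ ‖p.2‖ < κ})
    {ζ : ℂ} (hζ : ‖ζ‖ < κ) {y : ℂ} (hy : ‖y‖ < κ) :
    ContinuousOn (fun η => qq F (ζ, η) y) (ball 0 κ) := by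
  have h1 : (fun η => qq F (ζ, η) y) = dslope (fun η => F (ζ, η)) y := by
    funext η
    exact dslope_symm_U1b _ _ _
  rw [h1, continuousOn_dslope (isOpen_ball.mem_nhds (mem_ball_zero_iff.2 hy))]
  exact ⟨slice_cont_U1b hF hζ, slice_diff_U1b hF hζ hy⟩

theorem mv_le_U1b {κ L : ℝ} {z F : ℂ × ℂ → ℂ} (hL : 1 ≤ L) (hF : SF κ L z F)
    {ζ : ℂ} (hζ : ‖ζ‖ < κ) {y η : ℂ} (hy : ‖y‖ < κ) (hη : ‖η‖ < κ) :
    ‖qq F (ζ, η) y‖ ≤ ‖dz F (ζ, η)‖ + L * ‖η - y‖ := by
  rcases eq_or_ne y η with h | h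
  · subst h
    unfold qq dz
    simp only [dslope_same, sub_self, norm_zero, mul_zero, add_zero]
    exact le_refl _
  · have h1 : ‖F (ζ, y) - F (ζ, η)‖ ≤ (‖dz F (ζ, η)‖ + L * ‖η - y‖) * ‖y - η‖ := by
      refine Convex.norm_image_sub_le_of_norm_deriv_le (f := fun y => F (ζ, y))
        (s := ball 0 κ ∩ closedBall η ‖y - η‖) (x := η) (y := y) ?_ ?_ ?_ ?_ ?_
      · intro x hx
        exact slice_diff_U1b hF.diff hζ (mem_ball_zero_iff.1 hx.1)
      · intro x hx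
        have hx1 := mem_ball_zero_iff.1 hx.1
        have hx2 := hx.2
        rw [mem_closedBall, dist_eq_norm] at hx2
        have h3 := hF.dlip (ζ, x) (ζ, η) hζ hx1 hζ hη
        simp only [sub_self, norm_zero, zero_add] at h3
        have h4 : ‖dz F (ζ, x)‖ ≤ ‖dz F (ζ, η)‖ + L * ‖x - η‖ := by
          have := norm_add_le (dz F (ζ, x) - dz F (ζ, η)) (dz F (ζ, η))
          rw [sub_add_cancel] at this
          linarith
        have h5 : L * ‖x - η‖ ≤ L * ‖η - y‖ := by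
          rw [norm_sub_rev η y]
          gcongr
        have h6 : deriv (fun y => F (ζ, y)) x = dz F (ζ, x) := rfl
        rw [h6]
        linarith
      · exact (convex_ball _ _).inter (convex_closedBall _ _)
      · exact ⟨mem_ball_zero_iff.2 hη, mem_closedBall_self (norm_nonneg _)⟩
      · exact ⟨mem_ball_zero_iff.2 hy, by rw [mem_closedBall, dist_eq_norm]⟩
    have h2 : qq F (ζ, η) y = (y - η)⁻¹ * (F (ζ, y) - F (ζ, η)) := by
      unfold qq
      rw [dslope_of_ne _ h, slope_def_field, div_eq_inv_mul]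
    have h3 : 0 < ‖y - η‖ := norm_pos_iff.2 (sub_ne_zero.2 h)
    rw [h2, norm_mul, norm_inv, inv_mul_le_iff₀ h3, mul_comm]
    exact h1

theorem mv2_le_U1b {κ L : ℝ} {z F : ℂ × ℂ → ℂ} (hL : 1 ≤ L) (hF : SF κ L z F)
    {ζ : ℂ} (hζ : ‖ζ‖ < κ) {y η : ℂ} (hy : ‖y‖ < κ) (hη : ‖η‖ < κ) :
    ‖F (ζ, η) - F (ζ, y) - (η - y) * dz F (ζ, y)‖ ≤ L * ‖η - y‖ ^ 2 := by
  have h1 : ‖(F (ζ, η) - η * dz F (ζ, y)) - (F (ζ, y) - y * dz F (ζ, y))‖ ≤
      (L * ‖η - y‖) * ‖η - y‖ := by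
    refine Convex.norm_image_sub_le_of_norm_deriv_le
      (f := fun x => F (ζ, x) - x * dz F (ζ, y))
      (s := ball 0 κ ∩ closedBall y ‖η - y‖) (x := y) (y := η) ?_ ?_ ?_ ?_ ?_
    · intro x hx
      exact (slice_diff_U1b hF.diff hζ (mem_ball_zero_iff.1 hx.1)).fun_sub (by fun_prop)
    · intro x hx
      have hx1 := mem_ball_zero_iff.1 hx.1
      have hx2 := hx.2
      rw [mem_closedBall, dist_eq_norm] at hx2
      have h3 := hF.dlip (ζ, x) (ζ, y) hζ hx1 hζ hy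
      simp only [sub_self, norm_zero, zero_add] at h3
      have h5 : L * ‖x - y‖ ≤ L * ‖η - y‖ := by gcongr
      have h6 : deriv (fun x => F (ζ, x) - x * dz F (ζ, y)) x = dz F (ζ, x) - dz F (ζ, y) := by
        rw [deriv_fun_sub (slice_diff_U1b hF.diff hζ hx1) (by fun_prop)]
        congr 1
        simp
      rw [h6]
      linarith
    · exact (convex_ball _ _).inter (convex_closedBall _ _)
    · exact ⟨mem_ball_zero_iff.2 hy, mem_closedBall_self (norm_nonneg _)⟩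
    · exact ⟨mem_ball_zero_iff.2 hη, by rw [mem_closedBall, dist_eq_norm]⟩
  calc ‖F (ζ, η) - F (ζ, y) - (η - y) * dz F (ζ, y)‖ =
      ‖(F (ζ, η) - η * dz F (ζ, y)) - (F (ζ, y) - y * dz F (ζ, y))‖ := by
        congr 1; ring
    _ ≤ (L * ‖η - y‖) * ‖η - y‖ := h1
    _ = L * ‖η - y‖ ^ 2 := by ring

theorem sum_bd_U1b {ι : Type} (S : Finset ι) (c D : ι → ℝ) (X : ℂ → ℝ) (f : ℂ → ℂ) (T0 : Set ℂ)
    (T : ι → Set ℂ) (hc : ∀ k ∈ S, 0 ≤ c k) (hD : ∀ k ∈ S, 0 ≤ D k)
    (hX : Measurable X) (hX0 : ∀ η, 0 ≤ X η) (hT0 : MeasurableSet T0)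
    (hT : ∀ k ∈ S, MeasurableSet (T k))
    (hf : ∀ η ∈ T0, ‖f η‖ ≤ ∑ k ∈ S, (T k).indicator (fun η => c k * X η) η)
    (hI : ∀ k ∈ S, ∫⁻ η in T0 ∩ T k, ENNReal.ofReal (X η) ≤ ENNReal.ofReal (D k)) :
    ‖∫ η in T0, f η‖ ≤ ∑ k ∈ S, c k * D k := by
  have hsum : 0 ≤ ∑ k ∈ S, c k * D k :=
    Finset.sum_nonneg (fun k hk => mul_nonneg (hc k hk) (hD k hk))
  refine (norm_integral_le_lintegral_norm _).trans ?_
  refine ENNReal.toReal_le_of_le_ofReal hsum ?_
  calc ∫⁻ η in T0, ENNReal.ofReal ‖f η‖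
      ≤ ∫⁻ η in T0, ∑ k ∈ S, (T k).indicator
          (fun η => ENNReal.ofReal (c k) * ENNReal.ofReal (X η)) η := by
        refine setLIntegral_mono' hT0 (fun η hη => ?_)
        refine (ENNReal.ofReal_le_ofReal (hf η hη)).trans ?_
        rw [ENNReal.ofReal_sum_of_nonneg (fun k hk =>
          indicator_nonneg (fun η _ => mul_nonneg (hc k hk) (hX0 η)) _)]
        refine Finset.sum_le_sum (fun k hk => ?_)
        by_cases h : η ∈ T k
        · rw [indicator_of_mem h, indicator_of_mem h, ENNReal.ofReal_mul (hc k hk)]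
        · rw [indicator_of_notMem h, indicator_of_notMem h, ENNReal.ofReal_zero]
    _ = ∑ k ∈ S, ∫⁻ η in T0, (T k).indicator
          (fun η => ENNReal.ofReal (c k) * ENNReal.ofReal (X η)) η := by
        refine lintegral_finsetSum' _ (fun k hk => ?_)
        exact (Measurable.indicator (by fun_prop) (hT k hk)).aemeasurable
    _ ≤ ∑ k ∈ S, ENNReal.ofReal (c k) * ENNReal.ofReal (D k) := by
        refine Finset.sum_le_sum (fun k hk => ?_)
        rw [lintegral_indicator (hT k hk), Measure.restrict_restrict (hT k hk),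
          lintegral_const_mul _ (by fun_prop), Set.inter_comm]
        gcongr
        exact hI k hk
    _ = ENNReal.ofReal (∑ k ∈ S, c k * D k) := by
        rw [ENNReal.ofReal_sum_of_nonneg (fun k hk => mul_nonneg (hc k hk) (hD k hk))]
        refine Finset.sum_congr rfl (fun k hk => ?_)
        rw [ENNReal.ofReal_mul (hc k hk)]

theorem rho_cont_U1b {z : ℂ × ℂ → ℂ} {ζ : ℂ} {U : Set ℂ} (h : ContinuousOn (fun η => z (ζ, η)) U) :
    ContinuousOn (fun η => rho z (ζ, η)) U := by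
  unfold rho
  exact (continuousOn_const.sub (h.norm.pow 2)).sub (continuousOn_id.norm.pow 2)

theorem SS_open_U1b {κ L : ℝ} {z : ℂ × ℂ → ℂ} (hz : LM κ L z) {ζ : ℂ} (hζ : ‖ζ‖ < κ) :
    IsOpen (SS z κ ζ) := by
  have hκ := hz.κ0
  have h1 : ContinuousOn (fun η => rho z (ζ, η)) (ball 0 (κ / 2)) :=
    rho_cont_U1b ((slice_cont_U1b hz.diff hζ).mono (ball_subset_ball (by linarith : κ / 2 ≤ κ)))
  have h3 : SS z κ ζ = ball 0 (κ / 2) ∩ (fun η => rho z (ζ, η)) ⁻¹' Ioi 0 := by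
    ext η
    simp [SS]
  rw [h3]
  exact h1.isOpen_inter_preimage isOpen_ball isOpen_Ioi

theorem SS_ball_U1b {κ : ℝ} (hκ1 : κ ≤ 1) (z : ℂ × ℂ → ℂ) (ζ : ℂ) : SS z κ ζ ⊆ ball 0 1 := by
  intro η hη
  rw [mem_ball_zero_iff]
  have := hη.1
  linarith

theorem Ph_ge1_U1b (z : ℂ × ℂ → ℂ) (s p : ℂ × ℂ) (hp : 0 < rho z p) : rho z s ≤ 2 * ‖Ph z s p‖ := by
  have h1 := Ph_re z s p
  have h2 := Complex.re_le_norm (Ph z s p)
  nlinarith [sq_nonneg ‖z p - z s‖, sq_nonneg ‖p.2 - s.2‖]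

theorem Ph_ge2_U1b (z : ℂ × ℂ → ℂ) (s p : ℂ × ℂ) (hp : 0 < rho z p) (hs : 0 < rho z s) :
    ‖s.2 - p.2‖ ^ 2 ≤ 2 * ‖Ph z s p‖ := by
  have h1 := Ph_re z s p
  have h2 := Complex.re_le_norm (Ph z s p)
  rw [norm_sub_rev]
  nlinarith [sq_nonneg ‖z p - z s‖, sq_nonneg ‖p.2 - s.2‖]

theorem dz_cont_U1b {κ L : ℝ} {z F : ℂ × ℂ → ℂ} (hF : SF κ L z F) {ζ : ℂ} (hζ : ‖ζ‖ < κ) :
    ContinuousOn (fun η => dz F (ζ, η)) (ball 0 κ) := by
  have h1 : LipschitzOnWith (Real.toNNReal L) (fun η => dz F (ζ, η)) (ball 0 κ) := by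
    refine LipschitzOnWith.of_dist_le_mul (fun x hx y hy => ?_)
    rw [dist_eq_norm, dist_eq_norm]
    have h2 := hF.dlip (ζ, x) (ζ, y) hζ (mem_ball_zero_iff.1 hx) hζ (mem_ball_zero_iff.1 hy)
    simp only [sub_self, norm_zero, zero_add] at h2
    refine h2.trans ?_
    gcongr
    exact Real.le_coe_toNNReal L
  exact h1.continuousOn

/-- the common integral bound -/
theorem key_U1b {κ L c₀ : ℝ} (hκ : 0 < κ) (hκ1 : κ ≤ 1) (hL : 1 ≤ L) (hc : 0 < c₀) (hc1 : c₀ ≤ 1) :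
    ∃ C : ℝ, 0 ≤ C ∧ ∀ (z F : ℂ × ℂ → ℂ), LM κ L z → SF κ L z F →
    ∀ (μ : ℂ → ℂ), Measurable μ → ∀ (b : ℂ), 0 < b.im →
      ∀ (ζ : ℂ) (p : ℂ × ℂ), ‖ζ‖ < κ / 2 → ‖p.1‖ < κ / 2 → ‖p.2‖ < κ / 2 → 0 < rho z p →
        (p.1 = ζ ∨ ∀ η ∈ SS z κ ζ, μ (F (ζ, η)) ≠ 0 →
          c₀ * ‖F p - starRingEnd ℂ (F (ζ, η))‖ ≤ ‖F p - F (ζ, η)‖) →
      ∫⁻ η in (SS z κ ζ) ∩ {η | μ ((SS z κ ζ).indicator (fun η => F (ζ, η)) η) ≠ 0 ∧
            ‖(SS z κ ζ).indicator (fun η => F (ζ, η)) η - b‖ ≤ 4 * b.im},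
          ENNReal.ofReal (‖(SS z κ ζ).indicator (fun η => dz F (ζ, η)) η‖ *
            ((SS z κ ζ).indicator (fun η => rho z (ζ, η)) η /
              (SS z κ ζ).indicator (fun η => ‖Ph z (ζ, η) p‖) η) ^ 2 *
            ‖(SS z κ ζ).indicator (fun η => qq F (ζ, η) p.2) η /
              (F p - (SS z κ ζ).indicator (fun η => F (ζ, η)) η)‖) ≤
        ENNReal.ofReal (C * b.im ^ 2 / ‖F p - starRingEnd ℂ b‖) := by
  obtain ⟨C1, hC1, hfar⟩ := sec_far hL hc hc1
  obtain ⟨C2, hC2, hon⟩ := sec_on hL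
  refine ⟨C1 + C2, by linarith, ?_⟩
  intro z F hz hF μ hμ b hb ζ p hζ hp1 hp2 hp hsep
  have hζ' : ‖ζ‖ < κ := by linarith
  have hp1' : ‖p.1‖ < κ := by linarith
  have hp2' : ‖p.2‖ < κ := by linarith
  set T := SS z κ ζ with hT
  have hTo : IsOpen T := SS_open_U1b hz hζ'
  have hTb : T ⊆ ball 0 κ := fun η hη => mem_ball_zero_iff.2 (by have := hη.1; linarith)
  have hTk : ∀ η ∈ T, ‖η‖ < κ := fun η hη => mem_ball_zero_iff.1 (hTb hη)
  set f := T.indicator (fun η => F (ζ, η)) with hf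
  set f' := T.indicator (fun η => dz F (ζ, η)) with hf'
  set q := T.indicator (fun η => qq F (ζ, η) p.2) with hq
  set r := T.indicator (fun η => rho z (ζ, η)) with hr
  set Φ := T.indicator (fun η => ‖Ph z (ζ, η) p‖) with hΦ
  have mf : Measurable f := meas_ind_U1b hTo ((slice_cont_U1b hF.diff hζ').mono hTb)
  have mf' : Measurable f' := meas_ind_U1b hTo ((dz_cont_U1b hF hζ').mono hTb)
  have mq : Measurable q := meas_ind_U1b hTo ((qq_cont_U1b hF.diff hζ' hp2').mono hTb)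
  have mr : Measurable r := meas_ind_U1b hTo (rho_cont_U1b ((slice_cont_U1b hz.diff hζ').mono hTb))
  have mΦ : Measurable Φ := by
    refine meas_ind_U1b hTo ?_
    have h2 := (slice_cont_U1b hz.diff hζ').mono hTb
    unfold Ph
    refine ContinuousOn.norm ?_
    refine ContinuousOn.sub (ContinuousOn.sub continuousOn_const
      (ContinuousOn.mul continuousOn_const ?_)) (ContinuousOn.mul continuousOn_const ?_)
    · exact Complex.continuous_conj.comp_continuousOn h2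
    · exact Complex.continuous_conj.continuousOn
  have ef : ∀ η ∈ T, f η = F (ζ, η) := fun η hη => indicator_of_mem hη _
  have ef' : ∀ η ∈ T, f' η = dz F (ζ, η) := fun η hη => indicator_of_mem hη _
  have eq' : ∀ η ∈ T, q η = qq F (ζ, η) p.2 := fun η hη => indicator_of_mem hη _
  have er : ∀ η ∈ T, r η = rho z (ζ, η) := fun η hη => indicator_of_mem hη _
  have eΦ : ∀ η ∈ T, Φ η = ‖Ph z (ζ, η) p‖ := fun η hη => indicator_of_mem hη _
  have hFp : 0 < (F p).im := by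
    have h1 := hF.pos p hp1' hp2' hp
    by_contra h
    have h2 : (F p).im ≤ 0 := not_lt.1 h
    have h3 : L * (F p).im ≤ 0 := mul_nonpos_of_nonneg_of_nonpos (by linarith) h2
    linarith
  have g1 : ∀ η ∈ T, 0 < r η := fun η hη => by rw [er η hη]; exact hη.2
  have g2 : ∀ η ∈ T, r η ≤ 2 * Φ η := fun η hη => by
    rw [er η hη, eΦ η hη]; exact Ph_ge1_U1b z _ p hp
  have g3 : ∀ η ∈ T, ‖η - p.2‖ ^ 2 ≤ 2 * Φ η := fun η hη => by
    rw [eΦ η hη]; exact Ph_ge2_U1b z (ζ, η) p hp hη.2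
  have g4 : ∀ η ∈ T, r η ≤ L * (f η).im := fun η hη => by
    rw [er η hη, ef η hη]; exact hF.pos (ζ, η) hζ' (hTk η hη) hη.2
  have g5 : ∀ η ∈ T, ‖q η‖ ≤ ‖f' η‖ + L * ‖η - p.2‖ := fun η hη => by
    rw [eq' η hη, ef' η hη]; exact mv_le_U1b hL hF hζ' hp2' (hTk η hη)
  have g6 : ∀ T' : Set ℂ, T' ⊆ T → ∀ (b : ℂ) (h : ℝ), 0 < h →
      ∫⁻ η in T' ∩ {η | ‖f η - b‖ < h}, ENNReal.ofReal (‖f' η‖ ^ 2) ≤
        ENNReal.ofReal (L * h ^ 2) := by
    intro T' hT' b h hh
    refine le_trans ?_ (hF.area ζ b h hζ' hh)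
    refine lintegral_mono' (Measure.restrict_mono_set _ ?_) ?_
    · rintro η ⟨hη1, hη2⟩
      refine ⟨(hT' hη1).1, ?_⟩
      have h5 : ‖f η - b‖ < h := hη2
      rw [ef η (hT' hη1)] at h5
      exact h5
    · intro η
      refine ENNReal.ofReal_le_ofReal ?_
      have h6 : ‖f' η‖ ≤ ‖dz F (ζ, η)‖ := norm_indicator_le_norm_self _ _
      gcongr
  rcases hsep with hon' | hfar'
  · -- `p = (ζ, y)`
    have hpT : p.2 ∈ T := ⟨hp2, by rw [← hon']; exact hp⟩
    have hpF : f p.2 = F p := by rw [ef _ hpT, ← hon']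
    have h1 := hon T hTo.measurableSet (SS_ball_U1b hκ1 z ζ) f f' r Φ p.2 b mf mf' mr mΦ hb
      (by rw [hpF]; exact hFp) g1 g2 g3 g4
      (fun η hη => by
        rw [ef η hη, ef _ hpT, ef' _ hpT]; exact mv2_le_U1b hL hF hζ' hp2' (hTk η hη))
      (fun η hη => by
        rw [ef' η hη, ef' _ hpT]
        have h3 := hF.dlip (ζ, η) (ζ, p.2) hζ' (hTk η hη) hζ' hp2'
        simpa only [sub_self, norm_zero, zero_add] using h3)
      (g6 T (subset_refl T))
    rw [hpF] at h1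
    refine le_trans ?_ (h1.trans (ENNReal.ofReal_le_ofReal ?_))
    · have hsub : T ∩ {η | μ (f η) ≠ 0 ∧ ‖f η - b‖ ≤ 4 * b.im} ⊆ T ∩ {η | ‖f η - b‖ ≤ 4 * b.im} :=
        fun η hη => ⟨hη.1, hη.2.2⟩
      refine lintegral_mono' (Measure.restrict_mono_set _ hsub) (fun η => ?_)
      refine ENNReal.ofReal_le_ofReal ?_
      rw [div_eq_mul_inv _ ‖p.2 - η‖]
      gcongr
      by_cases hη : η ∈ T
      · rw [eq' η hη, ef η hη]
        rcases eq_or_ne p.2 η with h | h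
        · have : F p = F (ζ, η) := by rw [← hon', ← h]
          rw [this, sub_self, div_zero, norm_zero]
          positivity
        · unfold qq
          simp only
          rw [dslope_of_ne _ h, slope_def_field, ← hon']
          have h7 : F (p.1, p.2) = F p := rfl
          rw [h7, div_div, mul_comm, ← div_div, norm_div, div_eq_mul_inv]
          refine mul_le_of_le_one_left (by positivity) ?_
          by_cases h8 : F p - F (p.1, η) = 0
          · rw [h8]; simp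
          · rw [div_self h8, norm_one]
      · have : q η = 0 := indicator_of_notMem hη _
        rw [this, zero_div, norm_zero]
        positivity
    · gcongr
      linarith
  · set T' := T ∩ {η | μ (f η) ≠ 0} with hT'
    have hsubT : T' ⊆ T := inter_subset_left
    have hmT' : MeasurableSet T' := by
      refine hTo.measurableSet.inter ?_
      exact (measurableSet_singleton (0 : ℂ)).compl.preimage (hμ.comp mf)
    have h1 := hfar T' hmT' (hsubT.trans (SS_ball_U1b hκ1 z ζ)) f f' q r Φ p.2 (F p) b mf mf' mq mr mΦ hb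
      hFp (fun η hη => g1 η (hsubT hη)) (fun η hη => g2 η (hsubT hη)) (fun η hη => g3 η (hsubT hη))
      (fun η hη => g4 η (hsubT hη)) (fun η hη => g5 η (hsubT hη)) (g6 T' hsubT)
      (fun η hη _ => by
        have h2 := hη.2
        rw [mem_ofPred_eq, ef η (hsubT hη)] at h2
        rw [ef η (hsubT hη)]
        exact hfar' η (hsubT hη) h2)
    refine le_trans ?_ (h1.trans (ENNReal.ofReal_le_ofReal ?_))
    · have hset : T ∩ {η | μ (f η) ≠ 0 ∧ ‖f η - b‖ ≤ 4 * b.im} = T' ∩ {η | ‖f η - b‖ ≤ 4 * b.im} := by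
        ext η
        simp only [hT', mem_inter_iff, mem_ofPred_eq]
        tauto
      rw [hset]
      refine lintegral_mono (fun η => ?_)
      refine ENNReal.ofReal_le_ofReal (le_of_eq ?_)
      rw [norm_div]
      ring
    · gcongr
      linarith

/-- **TARGET** -/
theorem VV_bd {κ L c₀ : ℝ} (hκ : 0 < κ) (hκ1 : κ ≤ 1) (hL : 1 ≤ L) (hc : 0 < c₀) (hc1 : c₀ ≤ 1)
    (Cp : ℝ) : ∃ C : ℝ, 0 ≤ C ∧ ∀ (ι : Type) (z F : ℂ × ℂ → ℂ), LM κ L z → SF κ L z F →
    ∀ (S : Finset ι) (a : ι → ℂ) (R : ι → Set ℂ) (μ : ℂ → ℂ) (K M : ℝ) (v : ℂ × ℂ → ℂ),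
      Fam S a R Cp → Den univ S a R μ K → 0 ≤ M → Measurable v → (∀ s, ‖v s‖ ≤ M) →
      ∀ (ζ : ℂ) (p : ℂ × ℂ), ‖ζ‖ < κ / 2 → ‖p.1‖ < κ / 2 → ‖p.2‖ < κ / 2 → 0 < rho z p →
        (p.1 = ζ ∨ ∀ η ∈ SS z κ ζ, μ (F (ζ, η)) ≠ 0 →
          c₀ * ‖F p - starRingEnd ℂ (F (ζ, η))‖ ≤ ‖F p - F (ζ, η)‖) →
        ‖VV z κ F S a R μ v ζ p‖ ≤ C * K * M := by
  classical
  obtain ⟨C, hC, hkey⟩ := key_U1b hκ hκ1 hL hc hc1
  refine ⟨6 * C * Real.exp Cp, by positivity, ?_⟩
  intro ι z F hz hF S a R μ K M v hFam hD hM _ hvM ζ p hζ hp1 hp2 hp hsep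
  have hζ' : ‖ζ‖ < κ := by linarith
  have hp1' : ‖p.1‖ < κ := by linarith
  have hp2' : ‖p.2‖ < κ := by linarith
  have hK0 := hD.hK0
  have hμ := hD.hμ
  have hkey' := fun k hk => hkey z F hz hF μ hμ (a k) (hFam.ha k hk) ζ p hζ hp1 hp2 hp hsep
  have hTo : IsOpen (SS z κ ζ) := SS_open_U1b hz hζ'
  have hTb : SS z κ ζ ⊆ ball 0 κ :=
    fun η hη => mem_ball_zero_iff.2 (by have := hη.1; linarith)
  have hFp : 0 < (F p).im := by
    have h1 := hF.pos p hp1' hp2' hp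
    by_contra h
    have h2 : (F p).im ≤ 0 := not_lt.1 h
    have h3 : L * (F p).im ≤ 0 := mul_nonpos_of_nonneg_of_nonpos (by linarith) h2
    linarith
  have mf : Measurable ((SS z κ ζ).indicator (fun η => F (ζ, η))) :=
    meas_ind_U1b hTo ((slice_cont_U1b hF.diff hζ').mono hTb)
  have mf' : Measurable ((SS z κ ζ).indicator (fun η => dz F (ζ, η))) :=
    meas_ind_U1b hTo ((dz_cont_U1b hF hζ').mono hTb)
  have mq : Measurable ((SS z κ ζ).indicator (fun η => qq F (ζ, η) p.2)) :=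
    meas_ind_U1b hTo ((qq_cont_U1b hF.diff hζ' hp2').mono hTb)
  have mr : Measurable ((SS z κ ζ).indicator (fun η => rho z (ζ, η))) :=
    meas_ind_U1b hTo (rho_cont_U1b ((slice_cont_U1b hz.diff hζ').mono hTb))
  have mΦ : Measurable ((SS z κ ζ).indicator (fun η => ‖Ph z (ζ, η) p‖)) := by
    refine meas_ind_U1b hTo ?_
    have h2 := (slice_cont_U1b hz.diff hζ').mono hTb
    unfold Ph
    refine ContinuousOn.norm ?_
    refine ContinuousOn.sub (ContinuousOn.sub continuousOn_const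
      (ContinuousOn.mul continuousOn_const ?_)) (ContinuousOn.mul continuousOn_const ?_)
    · exact Complex.continuous_conj.comp_continuousOn h2
    · exact Complex.continuous_conj.continuousOn
  set X : ℂ → ℝ := fun η => ‖(SS z κ ζ).indicator (fun η => dz F (ζ, η)) η‖ *
            ((SS z κ ζ).indicator (fun η => rho z (ζ, η)) η /
              (SS z κ ζ).indicator (fun η => ‖Ph z (ζ, η) p‖) η) ^ 2 *
            ‖(SS z κ ζ).indicator (fun η => qq F (ζ, η) p.2) η /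
              (F p - (SS z κ ζ).indicator (fun η => F (ζ, η)) η)‖ with hX
  have mX : Measurable X := by
    refine (mf'.norm.mul ((mr.div mΦ).pow_const 2)).mul ?_
    exact (mq.div (measurable_const.sub mf)).norm
  have hX0 : ∀ η, 0 ≤ X η := fun η => by simp only [hX]; positivity
  set c : ι → ℝ := fun k => K / (a k).im * M * (6 * (a k).im / ‖F p - starRingEnd ℂ (a k)‖ *
      (Real.exp Cp *
        Real.exp (-∑ j ∈ S.filter (fun j => (a j).im ≤ (a k).im), al (a j) (F p)))) with hcdef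
  have hc0 : ∀ k ∈ S, 0 ≤ c k := by
    intro k hk
    have := hFam.ha k hk
    simp only [hcdef]
    positivity
  set D : ι → ℝ := fun k => C * (a k).im ^ 2 / ‖F p - starRingEnd ℂ (a k)‖ with hDdef
  have hD0 : ∀ k ∈ S, 0 ≤ D k := by
    intro k hk
    simp only [hDdef]
    positivity
  set Tk : ι → Set ℂ := fun k => {η | μ ((SS z κ ζ).indicator (fun η => F (ζ, η)) η) ≠ 0 ∧
            ‖(SS z κ ζ).indicator (fun η => F (ζ, η)) η - a k‖ ≤ 4 * (a k).im} with hTk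
  have hTkm : ∀ k ∈ S, MeasurableSet (Tk k) := by
    intro k _
    refine MeasurableSet.inter ?_ ?_
    · exact (measurableSet_singleton (0 : ℂ)).compl.preimage (hμ.comp mf)
    · exact measurableSet_le (mf.sub_const _).norm measurable_const
  have hmain := sum_bd_U1b S c D X (fun η =>
    (∑ k ∈ S, (R k).indicator (fun ω => μ ω * Wk S a k ω (F p)) (F (ζ, η))) *
      starRingEnd ℂ (dz F (ζ, η)) * v (ζ, η) * ((rho z (ζ, η) : ℂ) / Ph z (ζ, η) p) ^ 2 *
      (qq F (ζ, η) p.2 / (F p - F (ζ, η)))) (SS z κ ζ) Tk hc0 hD0 mX hX0 hTo.measurableSet hTkm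
    (fun η hη => by
      have eX : X η = ‖dz F (ζ, η)‖ * (rho z (ζ, η) / ‖Ph z (ζ, η) p‖) ^ 2 *
          ‖qq F (ζ, η) p.2 / (F p - F (ζ, η))‖ := by
        simp only [hX]
        rw [indicator_of_mem hη, indicator_of_mem hη, indicator_of_mem hη, indicator_of_mem hη,
          indicator_of_mem hη]
      have hnn : ∀ k ∈ S, 0 ≤ (Tk k).indicator (fun η => c k * X η) η := fun k hk =>
        indicator_nonneg (fun _ _ => mul_nonneg (hc0 k hk) (hX0 _)) _
      have hrho : 0 < rho z (ζ, η) := hη.2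
      have hno : ‖(∑ k ∈ S, (R k).indicator (fun ω => μ ω * Wk S a k ω (F p)) (F (ζ, η))) *
          starRingEnd ℂ (dz F (ζ, η)) * v (ζ, η) * ((rho z (ζ, η) : ℂ) / Ph z (ζ, η) p) ^ 2 *
          (qq F (ζ, η) p.2 / (F p - F (ζ, η)))‖ ≤
          ‖∑ k ∈ S, (R k).indicator (fun ω => μ ω * Wk S a k ω (F p)) (F (ζ, η))‖ * M * X η := by
        rw [eX, norm_mul, norm_mul, norm_mul, norm_mul, norm_pow, norm_div _ (Ph z (ζ, η) p),
          Complex.norm_real, Real.norm_of_nonneg hrho.le, RCLike.norm_conj]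
        have := hvM (ζ, η)
        calc _ ≤ ‖∑ k ∈ S, (R k).indicator (fun ω => μ ω * Wk S a k ω (F p)) (F (ζ, η))‖ *
              ‖dz F (ζ, η)‖ * M * (rho z (ζ, η) / ‖Ph z (ζ, η) p‖) ^ 2 *
              ‖qq F (ζ, η) p.2 / (F p - F (ζ, η))‖ := by gcongr
          _ = _ := by ring
      by_cases h : ∀ k ∈ S, F (ζ, η) ∉ R k
      · have h0 : ∑ k ∈ S, (R k).indicator (fun ω => μ ω * Wk S a k ω (F p)) (F (ζ, η)) = 0 :=
          Finset.sum_eq_zero (fun k hk => indicator_of_notMem (h k hk) _)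
        simp only [h0, zero_mul, norm_zero]
        exact Finset.sum_nonneg hnn
      · push Not at h
        obtain ⟨k, hk, hζk⟩ := h
        have h0 : ∑ k ∈ S, (R k).indicator (fun ω => μ ω * Wk S a k ω (F p)) (F (ζ, η)) =
            μ (F (ζ, η)) * Wk S a k (F (ζ, η)) (F p) := by
          rw [Finset.sum_eq_single_of_mem k hk, indicator_of_mem hζk]
          intro j hj hjk
          rw [indicator_of_notMem]
          intro h'
          exact (Set.disjoint_left.1 (hFam.hd j hj k hk hjk)) h' hζk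
        by_cases hμ0 : μ (F (ζ, η)) = 0
        · simp only [h0, hμ0, zero_mul, norm_zero]
          exact Finset.sum_nonneg hnn
        · refine le_trans ?_ (Finset.single_le_sum hnn hk)
          have hmem : η ∈ Tk k := by
            simp only [hTk, mem_ofPred_eq]
            rw [indicator_of_mem hη]
            exact ⟨hμ0, (hFam.hR k hk _ hζk).2⟩
          rw [indicator_of_mem hmem]
          refine hno.trans ?_
          refine mul_le_mul_of_nonneg_right ?_ (hX0 _)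
          rw [h0, norm_mul]
          have h3 := Wk_le hFam hk hζk hFp
          have h4 := hD.hK k hk _ hζk
          have hak := hFam.ha k hk
          calc ‖μ (F (ζ, η))‖ * ‖Wk S a k (F (ζ, η)) (F p)‖ * M
              ≤ (K / (a k).im) * (6 * (a k).im / ‖F p - starRingEnd ℂ (a k)‖ * (Real.exp Cp *
                Real.exp (-∑ j ∈ S.filter (fun j => (a j).im ≤ (a k).im), al (a j) (F p)))) * M := by
                gcongr
            _ = c k := by simp only [hcdef]; ring)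
    (fun k hk => hkey' k hk)
  set g : ι → ℝ := fun k => al (a k) (F p) *
      Real.exp (-∑ j ∈ S.filter (fun j => (a j).im ≤ (a k).im), al (a j) (F p)) with hg
  have h3 : ∀ k ∈ S, c k * D k = (6 * C * Real.exp Cp * K * M) * g k := by
    intro k hk
    have hak := hFam.ha k hk
    have hdk := den_pos hak hFp.le
    simp only [hcdef, hDdef, hg, al]
    field_simp
  have h4 : ∑ k ∈ S, g k ≤ 1 := by
    have h5 := Cor.exp_sum_le S (fun k => -(a k).im) (fun k => al (a k) (F p))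
      (fun k _ => al_nonneg _ _)
    have h6 : ∀ k, S.filter (fun j => -(a k).im ≤ -(a j).im) =
        S.filter (fun j => (a j).im ≤ (a k).im) := by
      intro k
      refine Finset.filter_congr (fun j _ => ?_)
      exact neg_le_neg_iff
    simp only [h6] at h5
    refine h5.trans ?_
    have := Real.exp_pos (-∑ j ∈ S, al (a j) (F p))
    linarith
  rw [Finset.sum_congr rfl h3, ← Finset.mul_sum] at hmain
  have hnn : 0 ≤ 6 * C * Real.exp Cp * K * M := by positivity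
  have hpi := Real.pi_gt_three
  unfold VV
  rw [norm_mul, norm_div, norm_one, Complex.norm_real, Real.norm_of_nonneg Real.pi_pos.le]
  calc 1 / Real.pi * _ ≤ 1 * (6 * C * Real.exp Cp * K * M * ∑ k ∈ S, g k) := by
        refine mul_le_mul ?_ hmain (norm_nonneg _) zero_le_one
        rw [div_le_one Real.pi_pos]
        linarith
    _ ≤ 1 * (6 * C * Real.exp Cp * K * M * 1) := by gcongr
    _ = 6 * C * Real.exp Cp * K * M := by ring


end Pool.Agent.P157C
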