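import Mathlib
import Pool.Agent.Y263.SC.OpX
import Pool.Agent.HopfPinch.AnS1
import Pool.Agent.P157C.Defs2
import Pool.Agent.P157C.Pw

set_option autoImplicit false

open MeasureTheory Metric Set Filter Topology Complex

namespace Pool.Agent.P157C

open Pool.Agent.H720R2 Pool.Agent.H720R2.HP

open Pool.Agent.Y263.SC (Den)

namespace J7949

theorem ind_meas {α : Type} [TopologicalSpace α] [MeasurableSpace α] [OpensMeasurableSpace α]
    {O : Set α} (hO : IsOpen O) {f : α → ℂ} (hf : ContinuousOn f O) :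
    Measurable (O.indicator f) := by
  classical
  rw [← Set.piecewise_eq_indicator]
  exact ContinuousOn.measurable_piecewise hf continuousOn_const hO.measurableSet

theorem polyOpen (κ : ℝ) : IsOpen {p : ℂ × ℂ | ‖p.1‖ < κ ∧ ‖p.2‖ < κ} :=
  IsOpen.and (isOpen_lt (continuous_fst.norm) continuous_const)
    (isOpen_lt (continuous_snd.norm) continuous_const)

/-- the big polydisc -/
def UU (κ : ℝ) : Set ((ℂ × (ℂ × ℂ)) × ℂ) :=
  {x | (‖x.1.1‖ < κ / 2 ∧ ‖x.2‖ < κ / 2) ∧ (‖x.1.2.1‖ < κ / 2 ∧ ‖x.1.2.2‖ < κ / 2)}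

theorem UU_open (κ : ℝ) : IsOpen (UU κ) := by
  refine IsOpen.and (IsOpen.and ?_ ?_) (IsOpen.and ?_ ?_)
  · exact isOpen_lt (continuous_fst.comp continuous_fst).norm continuous_const
  · exact isOpen_lt continuous_snd.norm continuous_const
  · exact isOpen_lt (continuous_fst.comp (continuous_snd.comp continuous_fst)).norm continuous_const
  · exact isOpen_lt (continuous_snd.comp (continuous_snd.comp continuous_fst)).norm continuous_const

/-- the open set over which we integrate -/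
def O3 (z : ℂ × ℂ → ℂ) (κ : ℝ) : Set ((ℂ × (ℂ × ℂ)) × ℂ) :=
  {x | ‖x.1.1‖ < κ / 2 ∧ x.1.2 ∈ DD z (κ / 2) 0 ∧ x.2 ∈ SS z κ x.1.1}

theorem cont_s {κ : ℝ} (hκ : 0 < κ) {f : ℂ × ℂ → ℂ}
    (hf : ContinuousOn f {p | ‖p.1‖ < κ ∧ ‖p.2‖ < κ}) :
    ContinuousOn (fun x : (ℂ × (ℂ × ℂ)) × ℂ => f (x.1.1, x.2)) (UU κ) := by
  refine hf.comp (f := fun x : (ℂ × (ℂ × ℂ)) × ℂ => (x.1.1, x.2)) (by fun_prop) ?_
  rintro x ⟨⟨h1, h2⟩, -⟩
  exact ⟨by simp only; linarith, by simp only; linarith⟩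

theorem cont_p {κ : ℝ} (hκ : 0 < κ) {f : ℂ × ℂ → ℂ}
    (hf : ContinuousOn f {p | ‖p.1‖ < κ ∧ ‖p.2‖ < κ}) :
    ContinuousOn (fun x : (ℂ × (ℂ × ℂ)) × ℂ => f x.1.2) (UU κ) := by
  refine hf.comp (f := fun x : (ℂ × (ℂ × ℂ)) × ℂ => x.1.2) (by fun_prop) ?_
  rintro x ⟨-, ⟨h1, h2⟩⟩
  exact ⟨by linarith, by linarith⟩

theorem cont_sp {κ : ℝ} (hκ : 0 < κ) {f : ℂ × ℂ → ℂ}
    (hf : ContinuousOn f {p | ‖p.1‖ < κ ∧ ‖p.2‖ < κ}) :
    ContinuousOn (fun x : (ℂ × (ℂ × ℂ)) × ℂ => f (x.1.1, x.1.2.2)) (UU κ) := by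
  refine hf.comp (f := fun x : (ℂ × (ℂ × ℂ)) × ℂ => (x.1.1, x.1.2.2)) (by fun_prop) ?_
  rintro x ⟨⟨h1, h2⟩, ⟨h3, h4⟩⟩
  exact ⟨by simp only; linarith, by simp only; linarith⟩

theorem rho_s {κ : ℝ} (hκ : 0 < κ) {z : ℂ × ℂ → ℂ}
    (hf : ContinuousOn z {p | ‖p.1‖ < κ ∧ ‖p.2‖ < κ}) :
    ContinuousOn (fun x : (ℂ × (ℂ × ℂ)) × ℂ => rho z (x.1.1, x.2)) (UU κ) := by
  have h1 := cont_s hκ hf
  unfold rho
  exact (continuousOn_const.sub (h1.norm.pow 2)).sub (by fun_prop)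

theorem rho_p {κ : ℝ} (hκ : 0 < κ) {z : ℂ × ℂ → ℂ}
    (hf : ContinuousOn z {p | ‖p.1‖ < κ ∧ ‖p.2‖ < κ}) :
    ContinuousOn (fun x : (ℂ × (ℂ × ℂ)) × ℂ => rho z x.1.2) (UU κ) := by
  have h1 := cont_p hκ hf
  unfold rho
  exact (continuousOn_const.sub (h1.norm.pow 2)).sub (by fun_prop)

theorem O3_eq (z : ℂ × ℂ → ℂ) (κ : ℝ) : O3 z κ =
    (UU κ ∩ (fun x : (ℂ × (ℂ × ℂ)) × ℂ => rho z (x.1.1, x.2)) ⁻¹' (Ioi 0)) ∩
    (UU κ ∩ (fun x : (ℂ × (ℂ × ℂ)) × ℂ => rho z x.1.2) ⁻¹' (Ioi 0)) := by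
  ext x
  simp only [O3, UU, DD, SS, mem_ofPred_eq, mem_inter_iff, mem_preimage, mem_Ioi]
  tauto

theorem O3_open {κ : ℝ} (hκ : 0 < κ) {z : ℂ × ℂ → ℂ}
    (hf : ContinuousOn z {p | ‖p.1‖ < κ ∧ ‖p.2‖ < κ}) : IsOpen (O3 z κ) := by
  rw [O3_eq]
  exact ((rho_s hκ hf).isOpen_inter_preimage (UU_open κ) isOpen_Ioi).inter
    ((rho_p hκ hf).isOpen_inter_preimage (UU_open κ) isOpen_Ioi)

theorem O3_sub (z : ℂ × ℂ → ℂ) (κ : ℝ) : O3 z κ ⊆ UU κ := by
  rw [O3_eq]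
  exact fun x hx => hx.1.1

theorem SS_open {κ : ℝ} (hκ : 0 < κ) {z : ℂ × ℂ → ℂ}
    (hf : ContinuousOn z {p | ‖p.1‖ < κ ∧ ‖p.2‖ < κ}) {ζ : ℂ} (hζ : ‖ζ‖ < κ / 2) :
    IsOpen (SS z κ ζ) := by
  have h0 : IsOpen {η : ℂ | ‖η‖ < κ / 2} := isOpen_lt (by fun_prop) continuous_const
  have h1 : ContinuousOn (fun η : ℂ => rho z (ζ, η)) {η : ℂ | ‖η‖ < κ / 2} := by
    unfold rho
    have h2 : ContinuousOn (fun η : ℂ => z (ζ, η)) {η : ℂ | ‖η‖ < κ / 2} := by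
      refine hf.comp (f := fun η : ℂ => (ζ, η)) (by fun_prop) ?_
      intro η hη
      have hη' : ‖η‖ < κ / 2 := hη
      exact ⟨by simp only; linarith, by simp only; linarith⟩
    exact (continuousOn_const.sub (h2.norm.pow 2)).sub (by fun_prop)
  exact h1.isOpen_inter_preimage h0 isOpen_Ioi

theorem im_pos {κ L : ℝ} {z F : ℂ × ℂ → ℂ} (h : LM κ L z) (hF : SF κ L z F) {p : ℂ × ℂ}
    (h1 : ‖p.1‖ < κ) (h2 : ‖p.2‖ < κ) (h3 : 0 < rho z p) : 0 < (F p).im := by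
  have h4 := hF.pos p h1 h2 h3
  have h5 := h.L1
  by_contra h6
  push Not at h6
  nlinarith

theorem Ph_lo {z : ℂ × ℂ → ℂ} {s p : ℂ × ℂ} {θ : ℝ} (hs : 0 < rho z s) (hp : θ ≤ rho z p) :
    θ / 2 < (Ph z s p).re := by
  rw [Ph_re]
  have := sq_nonneg ‖z p - z s‖
  have := sq_nonneg ‖p.2 - s.2‖
  linarith

theorem Ph_ne {z : ℂ × ℂ → ℂ} {s p : ℂ × ℂ} (hs : 0 < rho z s) (hp : 0 ≤ rho z p) :
    Ph z s p ≠ 0 := by
  intro h
  have h1 := Ph_lo hs hp
  rw [h] at h1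
  simp at h1

theorem Ph_norm {z : ℂ × ℂ → ℂ} {s p : ℂ × ℂ} {θ : ℝ} (hs : 0 < rho z s) (hp : θ ≤ rho z p) :
    θ / 2 ≤ ‖Ph z s p‖ :=
  (Ph_lo hs hp).le.trans (Complex.re_le_norm _)

section

variable {ι : Type}

/-- the integrand -/
noncomputable def NNd (z : ℂ × ℂ → ℂ) (F : ℂ × ℂ → ℂ) (S : Finset ι) (a : ι → ℂ)
    (R : ι → Set ℂ) (μ : ℂ → ℂ) (v : ℂ × ℂ → ℂ) (x : (ℂ × (ℂ × ℂ)) × ℂ) : ℂ :=
  (∑ k ∈ S, (R k).indicator (fun ω => μ ω * Wk S a k ω (F x.1.2)) (F (x.1.1, x.2))) *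
      starRingEnd ℂ (dz F (x.1.1, x.2)) * v (x.1.1, x.2) *
      ((rho z (x.1.1, x.2) : ℂ) / Ph z (x.1.1, x.2) x.1.2) ^ 2 *
      (qq F (x.1.1, x.2) x.1.2.2 / (F x.1.2 - F (x.1.1, x.2)))

/-- the changed integrand -/
noncomputable def NNd' (z : ℂ × ℂ → ℂ) (F : ℂ × ℂ → ℂ) (S : Finset ι) (a : ι → ℂ)
    (R : ι → Set ℂ) (μ : ℂ → ℂ) (v : ℂ × ℂ → ℂ) (x : (ℂ × (ℂ × ℂ)) × ℂ) : ℂ :=
  (∑ k ∈ S, (R k).indicator (fun ω => μ ω * Wk S a k ω (F x.1.2)) (F (x.1.1, x.2))) *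
      starRingEnd ℂ (dz F (x.1.1, x.2)) * v (x.1.1, x.2) *
      ((rho z (x.1.1, x.2) : ℂ) / Ph z (x.1.1, x.2) x.1.2) ^ 2 *
      (((F (x.1.1, x.1.2.2) - F (x.1.1, x.2)) / (x.1.2.2 - x.2)) / (F x.1.2 - F (x.1.1, x.2)))

theorem NN_eq {z F : ℂ × ℂ → ℂ} {S : Finset ι} {a : ι → ℂ} {R : ι → Set ℂ} {μ : ℂ → ℂ}
    {v : ℂ × ℂ → ℂ} {x : (ℂ × (ℂ × ℂ)) × ℂ} (hx : x.2 ≠ x.1.2.2) :
    NNd z F S a R μ v x = NNd' z F S a R μ v x := by
  have h1 : qq F (x.1.1, x.2) x.1.2.2 =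
      (F (x.1.1, x.1.2.2) - F (x.1.1, x.2)) / (x.1.2.2 - x.2) := by
    unfold qq
    rw [dslope_of_ne _ hx.symm, slope_def_field]
  unfold NNd NNd'
  rw [h1]

theorem NN'_meas {κ L Cp K : ℝ} {z F : ℂ × ℂ → ℂ} (h : LM κ L z)
    (hF : SF κ L z F) {S : Finset ι} {a : ι → ℂ} {R : ι → Set ℂ} {μ : ℂ → ℂ} {v : ℂ × ℂ → ℂ}
    (hfam : Fam S a R Cp) (hD : Den univ S a R μ K) (hv : Measurable v) :
    Measurable ((O3 z κ).indicator (NNd' z F S a R μ v)) := by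
  classical
  have hκ := h.κ0
  have hO := O3_open hκ h.diff.continuousOn
  have hOU := O3_sub z κ
  have hFs := (cont_s hκ hF.diff.continuousOn).mono hOU
  have hFp := (cont_p hκ hF.diff.continuousOn).mono hOU
  have hFsp := (cont_sp hκ hF.diff.continuousOn).mono hOU
  have hzs := (cont_s hκ h.diff.continuousOn).mono hOU
  have hzp := (cont_p hκ h.diff.continuousOn).mono hOU
  have hrs := (rho_s hκ h.diff.continuousOn).mono hOU
  have hdF0 : ContinuousOn (dz F) {p : ℂ × ℂ | ‖p.1‖ < κ ∧ ‖p.2‖ < κ} := by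
    intro p hp
    apply ContinuousAt.continuousWithinAt
    rw [ContinuousAt, tendsto_iff_norm_sub_tendsto_zero]
    have h1 : ∀ᶠ q in 𝓝 p, ‖dz F q - dz F p‖ ≤ L * (‖q.1 - p.1‖ + ‖q.2 - p.2‖) := by
      filter_upwards [(polyOpen κ).mem_nhds hp] with q hq
      exact hF.dlip q p hq.1 hq.2 hp.1 hp.2
    have h2 : Tendsto (fun q : ℂ × ℂ => L * (‖q.1 - p.1‖ + ‖q.2 - p.2‖)) (𝓝 p) (𝓝 0) := by
      have : Continuous (fun q : ℂ × ℂ => L * (‖q.1 - p.1‖ + ‖q.2 - p.2‖)) := by fun_prop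
      have h3 := this.tendsto p
      simpa using h3
    exact squeeze_zero' (Eventually.of_forall fun _ => norm_nonneg _) h1 h2
  have hdF := (cont_s hκ hdF0).mono hOU
  have hims : ∀ x ∈ O3 z κ, 0 < (F (x.1.1, x.2)).im := by
    intro x hx
    have hU := hOU hx
    refine im_pos h hF ?_ ?_ hx.2.2.2
    · have := hU.1.1; simp only; linarith
    · have := hU.1.2; simp only; linarith
  have himp : ∀ x ∈ O3 z κ, 0 < (F x.1.2).im := by
    intro x hx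
    have hU := hOU hx
    refine im_pos h hF ?_ ?_ hx.2.1.2.2
    · have := hU.2.1; linarith
    · have := hU.2.2; linarith
  have hPh : ContinuousOn (fun x : (ℂ × (ℂ × ℂ)) × ℂ => Ph z (x.1.1, x.2) x.1.2) (O3 z κ) := by
    unfold Ph
    refine (continuousOn_const.sub (hzp.mul ?_)).sub ?_
    · exact Complex.continuous_conj.comp_continuousOn hzs
    · refine Continuous.continuousOn ?_
      exact (by fun_prop : Continuous fun x : (ℂ × (ℂ × ℂ)) × ℂ => x.1.2.2).mul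
        (Complex.continuous_conj.comp (by fun_prop : Continuous fun x : (ℂ × (ℂ × ℂ)) × ℂ => x.2))
  have hPh0 : ∀ x ∈ O3 z κ, Ph z (x.1.1, x.2) x.1.2 ≠ 0 := fun x hx =>
    Ph_ne hx.2.2.2 hx.2.1.2.2.le
  -- the factors
  set Ft : (ℂ × (ℂ × ℂ)) × ℂ → ℂ := (O3 z κ).indicator (fun x => F (x.1.1, x.2)) with hFt
  have hFtm : Measurable Ft := ind_meas hO hFs
  have m1 : ∀ k ∈ S, Measurable ((O3 z κ).indicator (fun x : (ℂ × (ℂ × ℂ)) × ℂ =>
      (R k).indicator (fun ω => μ ω * Wk S a k ω (F x.1.2)) (F (x.1.1, x.2)))) := by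
    intro k hk
    have hW : Measurable ((O3 z κ).indicator
        (fun x : (ℂ × (ℂ × ℂ)) × ℂ => Wk S a k (F (x.1.1, x.2)) (F x.1.2))) := by
      refine ind_meas hO ?_
      refine (Wk_cont hfam hk).comp
        (f := fun x : (ℂ × (ℂ × ℂ)) × ℂ => (F (x.1.1, x.2), F x.1.2)) (hFs.prodMk hFp) ?_
      intro x hx
      exact ⟨hims x hx, himp x hx⟩
    have hm : Measurable ((R k).indicator μ) := hD.hμ.indicator (hfam.hm k hk)
    have heq : (O3 z κ).indicator (fun x : (ℂ × (ℂ × ℂ)) × ℂ =>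
      (R k).indicator (fun ω => μ ω * Wk S a k ω (F x.1.2)) (F (x.1.1, x.2))) =
        fun x => (R k).indicator μ (Ft x) * (O3 z κ).indicator
        (fun x : (ℂ × (ℂ × ℂ)) × ℂ => Wk S a k (F (x.1.1, x.2)) (F x.1.2)) x := by
      funext x
      by_cases hx : x ∈ O3 z κ
      · rw [indicator_of_mem hx, indicator_of_mem hx, hFt, indicator_of_mem hx]
        by_cases hr : F (x.1.1, x.2) ∈ R k
        · rw [indicator_of_mem hr, indicator_of_mem hr]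
        · rw [indicator_of_notMem hr, indicator_of_notMem hr, zero_mul]
      · rw [indicator_of_notMem hx, indicator_of_notMem hx, mul_zero]
    rw [heq]
    exact (hm.comp hFtm).mul hW
  have m2 : Measurable ((O3 z κ).indicator (fun x : (ℂ × (ℂ × ℂ)) × ℂ =>
      starRingEnd ℂ (dz F (x.1.1, x.2)))) :=
    ind_meas hO (Complex.continuous_conj.comp_continuousOn hdF)
  have m3 : Measurable (fun x : (ℂ × (ℂ × ℂ)) × ℂ => v (x.1.1, x.2)) :=
    hv.comp (by fun_prop)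
  have m4 : Measurable ((O3 z κ).indicator (fun x : (ℂ × (ℂ × ℂ)) × ℂ =>
      ((rho z (x.1.1, x.2) : ℂ) / Ph z (x.1.1, x.2) x.1.2) ^ 2)) := by
    refine ind_meas hO ?_
    refine ContinuousOn.pow (ContinuousOn.div ?_ hPh hPh0) 2
    exact Complex.continuous_ofReal.comp_continuousOn hrs
  have m5 : Measurable ((O3 z κ).indicator (fun x : (ℂ × (ℂ × ℂ)) × ℂ =>
      F (x.1.1, x.1.2.2) - F (x.1.1, x.2))) := ind_meas hO (hFsp.sub hFs)
  have m6 : Measurable ((O3 z κ).indicator (fun x : (ℂ × (ℂ × ℂ)) × ℂ =>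
      F x.1.2 - F (x.1.1, x.2))) := ind_meas hO (hFp.sub hFs)
  have m7 : Measurable (fun x : (ℂ × (ℂ × ℂ)) × ℂ => x.1.2.2 - x.2) := by fun_prop
  have hfin : (O3 z κ).indicator (NNd' z F S a R μ v) = fun x =>
      (∑ k ∈ S, (O3 z κ).indicator (fun x : (ℂ × (ℂ × ℂ)) × ℂ =>
        (R k).indicator (fun ω => μ ω * Wk S a k ω (F x.1.2)) (F (x.1.1, x.2))) x) *
      (O3 z κ).indicator (fun x : (ℂ × (ℂ × ℂ)) × ℂ => starRingEnd ℂ (dz F (x.1.1, x.2))) x *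
      v (x.1.1, x.2) *
      (O3 z κ).indicator (fun x : (ℂ × (ℂ × ℂ)) × ℂ =>
        ((rho z (x.1.1, x.2) : ℂ) / Ph z (x.1.1, x.2) x.1.2) ^ 2) x *
      (((O3 z κ).indicator (fun x : (ℂ × (ℂ × ℂ)) × ℂ =>
        F (x.1.1, x.1.2.2) - F (x.1.1, x.2)) x / (x.1.2.2 - x.2)) /
        (O3 z κ).indicator (fun x : (ℂ × (ℂ × ℂ)) × ℂ => F x.1.2 - F (x.1.1, x.2)) x) := by
    funext x
    by_cases hx : x ∈ O3 z κ
    · simp only [indicator_of_mem hx]
      rfl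
    · simp only [indicator_of_notMem hx]
      simp
  rw [hfin]
  exact ((((Finset.measurable_fun_sum _ m1).mul m2).mul m3).mul m4).mul ((m5.div m7).div m6)

end

/-- a bound for the divided difference -/
theorem qq_leD {κ L : ℝ} {z F : ℂ × ℂ → ℂ} (hF : SF κ L z F) {ζ η y : ℂ}
    (hζ : ‖ζ‖ < κ) (hη : ‖η‖ < κ) (hy : ‖y‖ < κ) : ‖qq F (ζ, η) y‖ ≤ L := by
  unfold qq
  by_cases hyη : y = η
  · rw [hyη, dslope_same]
    exact hF.dbd (ζ, η) hζ hη
  · rw [dslope_of_ne _ hyη, slope_def_field, norm_div]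
    have h1 := hF.lip (ζ, y) (ζ, η) hζ hy hζ hη
    simp only [sub_self, norm_zero, zero_add] at h1
    have h2 : 0 < ‖y - η‖ := norm_pos_iff.2 (sub_ne_zero.2 hyη)
    rw [div_le_iff₀ h2]
    exact h1

section

variable {ι : Type}

/-- the sum is bounded -/
theorem sum_le {S : Finset ι} {a : ι → ℂ} {R : ι → Set ℂ} {μ : ℂ → ℂ} {Cp K : ℝ}
    (hfam : Fam S a R Cp) (hD : Den univ S a R μ K) {ω w : ℂ} (hw : 0 < w.im) :
    ‖∑ k ∈ S, (R k).indicator (fun ω => μ ω * Wk S a k ω w) ω‖ ≤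
      ∑ k ∈ S, K / (a k).im * (6 * Real.exp Cp) := by
  refine (norm_sum_le _ _).trans (Finset.sum_le_sum fun k hk => ?_)
  have hak := hfam.ha k hk
  have hK0 := hD.hK0
  by_cases hr : ω ∈ R k
  · rw [indicator_of_mem hr, norm_mul]
    have h1 := hD.hK k hk ω hr
    have h2 := Wk_le' hfam hk hr hw
    gcongr
  · rw [indicator_of_notMem hr, norm_zero]
    positivity

theorem sum_zero {S : Finset ι} {a : ι → ℂ} {R : ι → Set ℂ} {μ : ℂ → ℂ} {ω w : ℂ}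
    (hμ : μ ω = 0) : ∑ k ∈ S, (R k).indicator (fun ω => μ ω * Wk S a k ω w) ω = 0 := by
  refine Finset.sum_eq_zero fun k _ => ?_
  by_cases hr : ω ∈ R k
  · rw [indicator_of_mem hr, hμ, zero_mul]
  · rw [indicator_of_notMem hr]

theorem mem_O3 {z : ℂ × ℂ → ℂ} {κ : ℝ} {ζ η : ℂ} {p : ℂ × ℂ} (hζ : ‖ζ‖ < κ / 2)
    (hp : p ∈ DD z (κ / 2) 0) : ((ζ, p), η) ∈ O3 z κ ↔ η ∈ SS z κ ζ :=
  ⟨fun h => h.2.2, fun h => ⟨hζ, hp, h⟩⟩

theorem ind_O3 {z F : ℂ × ℂ → ℂ} {κ : ℝ} {S : Finset ι} {a : ι → ℂ} {R : ι → Set ℂ} {μ : ℂ → ℂ}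
    {v : ℂ × ℂ → ℂ} {ζ : ℂ} {p : ℂ × ℂ} (hζ : ‖ζ‖ < κ / 2) (hp : p ∈ DD z (κ / 2) 0) (η : ℂ) :
    (SS z κ ζ).indicator (fun η => NNd z F S a R μ v ((ζ, p), η)) η =
      (O3 z κ).indicator (NNd z F S a R μ v) ((ζ, p), η) := by
  by_cases hη : η ∈ SS z κ ζ
  · rw [indicator_of_mem hη, indicator_of_mem ((mem_O3 hζ hp).2 hη)]
  · rw [indicator_of_notMem hη, indicator_of_notMem (fun h' => hη ((mem_O3 hζ hp).1 h'))]

theorem ae_eq {z F : ℂ × ℂ → ℂ} {κ : ℝ} {S : Finset ι} {a : ι → ℂ} {R : ι → Set ℂ} {μ : ℂ → ℂ}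
    {v : ℂ × ℂ → ℂ} (q : ℂ × (ℂ × ℂ)) :
    (fun η : ℂ => (O3 z κ).indicator (NNd z F S a R μ v) (q, η)) =ᵐ[volume]
      (fun η : ℂ => (O3 z κ).indicator (NNd' z F S a R μ v) (q, η)) := by
  have h1 : ∀ᵐ η : ℂ ∂volume, η ≠ q.2.2 := by
    rw [ae_iff]
    simp
  filter_upwards [h1] with η hη
  by_cases hx : (q, η) ∈ O3 z κ
  · rw [indicator_of_mem hx, indicator_of_mem hx]
    exact NN_eq hη
  · rw [indicator_of_notMem hx, indicator_of_notMem hx]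

theorem VV_eq {z F : ℂ × ℂ → ℂ} {κ : ℝ} (hκ : 0 < κ)
    (hz : ContinuousOn z {p | ‖p.1‖ < κ ∧ ‖p.2‖ < κ}) {S : Finset ι} {a : ι → ℂ} {R : ι → Set ℂ}
    {μ : ℂ → ℂ} {v : ℂ × ℂ → ℂ} {ζ : ℂ} (hζ : ‖ζ‖ < κ / 2) (p : ℂ × ℂ) :
    VV z κ F S a R μ v ζ p = (1 / Real.pi : ℂ) *
      ∫ η, (SS z κ ζ).indicator (fun η => NNd z F S a R μ v ((ζ, p), η)) η := by
  rw [integral_indicator (SS_open hκ hz hζ).measurableSet]
  rfl

end

end J7949

open J7949

/-- **TARGET 1** -/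
theorem VV_diff {κ L Cp K M θ c₀ : ℝ} {ι : Type} {z F : ℂ × ℂ → ℂ} (h : LM κ L z)
    (hF : SF κ L z F) {S : Finset ι} {a : ι → ℂ} {R : ι → Set ℂ} {μ : ℂ → ℂ} {v : ℂ × ℂ → ℂ}
    (hfam : Fam S a R Cp) (hD : Den univ S a R μ K) (hv : Measurable v) (hM : ∀ s, ‖v s‖ ≤ M)
    (hθ : 0 < θ) (hc : 0 < c₀) {ζ : ℂ} (hζ : ‖ζ‖ < κ / 2) {D : Set (ℂ × ℂ)} (hDo : IsOpen D)
    (hDs : D ⊆ DD z (κ / 2) θ) (hsep : ∀ p ∈ D, ∀ η ∈ SS z κ ζ, μ (F (ζ, η)) ≠ 0 →
      c₀ * ‖F p - starRingEnd ℂ (F (ζ, η))‖ ≤ ‖F p - F (ζ, η)‖) :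
    DifferentiableOn ℂ (VV z κ F S a R μ v ζ) D := by
  classical
  have hκ := h.κ0
  have hL1 := h.L1
  have hL0 : 0 < L := by linarith
  have hK0 := hD.hK0
  have hM0 : 0 ≤ M := (norm_nonneg _).trans (hM 0)
  have hD0 : ∀ p ∈ D, p ∈ DD z (κ / 2) 0 := fun p hp =>
    ⟨(hDs hp).1, (hDs hp).2.1, hθ.trans (hDs hp).2.2⟩
  have hpκ1 : ∀ p ∈ D, ‖p.1‖ < κ := fun p hp => by
    have := (hDs hp).1
    linarith
  have hpκ2 : ∀ p ∈ D, ‖p.2‖ < κ := fun p hp => by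
    have := (hDs hp).2.1
    linarith
  have hζκ : ‖ζ‖ < κ := by linarith
  have himp : ∀ p ∈ D, θ / L ≤ (F p).im := by
    intro p hp
    have h1 := hF.pos p (hpκ1 p hp) (hpκ2 p hp) (hD0 p hp).2.2
    have h2 := (hDs hp).2.2
    rw [div_le_iff₀ hL0]
    linarith
  have himp0 : ∀ p ∈ D, 0 < (F p).im := fun p hp =>
    lt_of_lt_of_le (by positivity) (himp p hp)
  have hηκ : ∀ η ∈ SS z κ ζ, ‖η‖ < κ := fun η hη => by
    have := hη.1
    linarith
  have hims : ∀ η ∈ SS z κ ζ, 0 < (F (ζ, η)).im := fun η hη =>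
    im_pos h hF hζκ (hηκ η hη) hη.2
  have hden : ∀ p ∈ D, ∀ η ∈ SS z κ ζ, μ (F (ζ, η)) ≠ 0 →
      c₀ * (θ / L) ≤ ‖F p - F (ζ, η)‖ := by
    intro p hp η hη hμ
    refine le_trans ?_ (hsep p hp η hη hμ)
    have h1 : (F p).im + (F (ζ, η)).im ≤ ‖F p - starRingEnd ℂ (F (ζ, η))‖ := im_add_le
    have h2 := himp p hp
    have h3 := hims η hη
    have h4 : θ / L ≤ ‖F p - starRingEnd ℂ (F (ζ, η))‖ := by linarith
    gcongr
  set B1 : ℝ := ∑ k ∈ S, K / (a k).im * (6 * Real.exp Cp) with hB1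
  have hB1n : 0 ≤ B1 := Finset.sum_nonneg fun k hk => by
    have := hfam.ha k hk
    positivity
  set B : ℝ := B1 * L * M * (1 / (θ / 2)) ^ 2 * (L / (c₀ * (θ / L))) with hB
  have hBn : 0 ≤ B := by positivity
  have hSm := (SS_open hκ h.diff.continuousOn hζ).measurableSet
  have hfun : VV z κ F S a R μ v ζ = fun p => (1 / Real.pi : ℂ) *
      ∫ η, (SS z κ ζ).indicator (fun η => NNd z F S a R μ v ((ζ, p), η)) η := by
    funext p
    exact VV_eq hκ h.diff.continuousOn hζ p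
  rw [hfun]
  refine DifferentiableOn.const_mul ?_ _
  refine Pool.Agent.HP.differentiableOn_integral (X := ℂ × ℂ) (E := ℂ) volume
    (fun η p => (SS z κ ζ).indicator (fun η => NNd z F S a R μ v ((ζ, p), η)) η) D hDo ?_ ?_
    ((ball (0 : ℂ) (κ / 2)).indicator fun _ => B) ?_ ?_
  · intro p hp
    have h1 : (fun η => (SS z κ ζ).indicator (fun η => NNd z F S a R μ v ((ζ, p), η)) η) =
        fun η => (O3 z κ).indicator (NNd z F S a R μ v) ((ζ, p), η) := by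
      funext η
      exact ind_O3 hζ (hD0 p hp) η
    simp only [h1]
    have h2 : Measurable (fun η : ℂ => (O3 z κ).indicator (NNd' z F S a R μ v) ((ζ, p), η)) :=
      (NN'_meas h hF hfam hD hv).comp (by fun_prop)
    exact h2.aestronglyMeasurable.congr (ae_eq (ζ, p)).symm
  · intro η
    by_cases hη : η ∈ SS z κ ζ
    · simp only [indicator_of_mem hη]
      by_cases hμ : μ (F (ζ, η)) = 0
      · have h1 : (fun p => NNd z F S a R μ v ((ζ, p), η)) = fun _ => 0 := by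
          funext p
          unfold NNd
          simp only
          rw [sum_zero hμ]
          ring
        rw [h1]
        exact differentiableOn_const _
      · have hFd : ∀ p ∈ D, DifferentiableAt ℂ F p := fun p hp =>
          (hF.diff p ⟨hpκ1 p hp, hpκ2 p hp⟩).differentiableAt
            ((polyOpen κ).mem_nhds ⟨hpκ1 p hp, hpκ2 p hp⟩)
        have hzd : ∀ p ∈ D, DifferentiableAt ℂ z p := fun p hp =>
          (h.diff p ⟨hpκ1 p hp, hpκ2 p hp⟩).differentiableAt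
            ((polyOpen κ).mem_nhds ⟨hpκ1 p hp, hpκ2 p hp⟩)
        intro p hp
        apply DifferentiableAt.differentiableWithinAt
        have e1 : DifferentiableAt ℂ (fun p : ℂ × ℂ => ∑ k ∈ S,
            (R k).indicator (fun ω => μ ω * Wk S a k ω (F p)) (F (ζ, η))) p := by
          refine DifferentiableAt.fun_sum fun k hk => ?_
          by_cases hr : F (ζ, η) ∈ R k
          · simp only [indicator_of_mem hr]
            refine DifferentiableAt.const_mul ?_ _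
            exact DifferentiableAt.comp (f := F) p (Wk_diff hfam hk (F (ζ, η)) (himp0 p hp))
              (hFd p hp)
          · simp only [indicator_of_notMem hr]
            exact differentiableAt_const _
        have e2 : DifferentiableAt ℂ (fun p : ℂ × ℂ => Ph z (ζ, η) p) p := by
          unfold Ph
          exact ((differentiableAt_const _).sub ((hzd p hp).mul_const _)).sub
            (differentiableAt_snd.mul_const _)
        have e3 : Ph z (ζ, η) p ≠ 0 := Ph_ne hη.2 (hD0 p hp).2.2.le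
        have e4 : DifferentiableAt ℂ (fun p : ℂ × ℂ => qq F (ζ, η) p.2) p := by
          have e5 : DifferentiableAt ℂ (fun y : ℂ => qq F (ζ, η) y) p.2 := by
            unfold qq
            simp only
            have hbo : IsOpen {y : ℂ | ‖y‖ < κ} := isOpen_lt continuous_norm continuous_const
            have e6 : DifferentiableOn ℂ (fun y : ℂ => F (ζ, y)) {y : ℂ | ‖y‖ < κ} := by
              refine hF.diff.comp (f := fun y : ℂ => (ζ, y)) ?_ ?_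
              · exact ((differentiable_const _).prodMk differentiable_id).differentiableOn
              · intro y hy
                exact ⟨hζκ, hy⟩
            have e7 := (Complex.differentiableOn_dslope
              (hbo.mem_nhds (show ‖η‖ < κ from hηκ η hη))).2 e6
            exact (e7 p.2 (hpκ2 p hp)).differentiableAt (hbo.mem_nhds (hpκ2 p hp))
          exact DifferentiableAt.comp (f := fun p : ℂ × ℂ => p.2) p e5 differentiableAt_snd
        have e8 : F p - F (ζ, η) ≠ 0 := by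
          have := hden p hp η hη hμ
          have h9 : 0 < c₀ * (θ / L) := by positivity
          exact norm_pos_iff.1 (h9.trans_le this)
        unfold NNd
        simp only [div_eq_mul_inv]
        refine DifferentiableAt.fun_mul (DifferentiableAt.fun_mul (DifferentiableAt.fun_mul
          (DifferentiableAt.fun_mul e1 (differentiableAt_const _)) (differentiableAt_const _)) ?_) ?_
        · exact DifferentiableAt.fun_pow ((differentiableAt_const _).fun_mul (e2.fun_inv e3)) 2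
        · exact e4.fun_mul (DifferentiableAt.fun_inv ((hFd p hp).sub_const _) e8)
    · simp only [indicator_of_notMem hη]
      exact differentiableOn_const _
  · refine (integrable_indicator_iff measurableSet_ball).2 ?_
    exact integrableOn_const (by finiteness) (by finiteness)
  · intro η p hp
    by_cases hη : η ∈ SS z κ ζ
    · have hmem : η ∈ ball (0 : ℂ) (κ / 2) := by
        rw [mem_ball_zero_iff]
        exact hη.1
      rw [indicator_of_mem hη, indicator_of_mem hmem]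
      by_cases hμ : μ (F (ζ, η)) = 0
      · unfold NNd
        simp only
        rw [sum_zero hμ]
        simpa using hBn
      · unfold NNd
        simp only
        rw [norm_mul, norm_mul, norm_mul, norm_mul, norm_pow, norm_div, norm_div, RCLike.norm_conj,
          Complex.norm_real]
        have b1 := sum_le (R := R) (μ := μ) hfam hD (ω := F (ζ, η)) (himp0 p hp)
        have b2 : ‖dz F (ζ, η)‖ ≤ L := hF.dbd (ζ, η) hζκ (hηκ η hη)
        have b3 := hM (ζ, η)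
        have b4 : ‖rho z (ζ, η)‖ ≤ 1 := by
          rw [Real.norm_of_nonneg hη.2.le]
          unfold rho
          have := sq_nonneg ‖z (ζ, η)‖
          have := sq_nonneg ‖(ζ, η).2‖
          linarith
        have b5 : θ / 2 ≤ ‖Ph z (ζ, η) p‖ := Ph_norm hη.2 (hDs hp).2.2.le
        have b6 : ‖qq F (ζ, η) p.2‖ ≤ L := qq_leD hF hζκ (hηκ η hη) (hpκ2 p hp)
        have b7 := hden p hp η hη hμ
        have b8 : 0 < c₀ * (θ / L) := by positivity
        rw [hB]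
        gcongr
    · rw [indicator_of_notMem hη, norm_zero]
      exact indicator_nonneg (fun _ _ => hBn) _

/-- **TARGET 2** -/
theorem VV_meas {κ L Cp K M : ℝ} {ι : Type} {z F : ℂ × ℂ → ℂ} (h : LM κ L z)
    (hF : SF κ L z F) {S : Finset ι} {a : ι → ℂ} {R : ι → Set ℂ} {μ : ℂ → ℂ} {v : ℂ × ℂ → ℂ}
    (hfam : Fam S a R Cp) (hD : Den univ S a R μ K) (hv : Measurable v) (hM : ∀ s, ‖v s‖ ≤ M) :
    Measurable (({q : ℂ × (ℂ × ℂ) | ‖q.1‖ < κ / 2 ∧ q.2 ∈ DD z (κ / 2) 0}).indicator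
      (fun q => VV z κ F S a R μ v q.1 q.2)) := by
  classical
  have hκ := h.κ0
  have h1 : StronglyMeasurable (fun q : ℂ × (ℂ × ℂ) =>
      ∫ η : ℂ, (O3 z κ).indicator (NNd' z F S a R μ v) (q, η)) :=
    StronglyMeasurable.integral_prod_right'
      (f := (O3 z κ).indicator (NNd' z F S a R μ v))
      (NN'_meas h hF hfam hD hv).stronglyMeasurable
  have h2 : (({q : ℂ × (ℂ × ℂ) | ‖q.1‖ < κ / 2 ∧ q.2 ∈ DD z (κ / 2) 0}).indicator
      (fun q => VV z κ F S a R μ v q.1 q.2)) = fun q : ℂ × (ℂ × ℂ) => (1 / Real.pi : ℂ) *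
      ∫ η : ℂ, (O3 z κ).indicator (NNd' z F S a R μ v) (q, η) := by
    funext q
    have h3 := integral_congr_ae (ae_eq (z := z) (F := F) (κ := κ) (S := S) (a := a) (R := R)
      (μ := μ) (v := v) q)
    rw [← h3]
    by_cases hq : ‖q.1‖ < κ / 2 ∧ q.2 ∈ DD z (κ / 2) 0
    · rw [indicator_of_mem (show q ∈ {q : ℂ × (ℂ × ℂ) | ‖q.1‖ < κ / 2 ∧ q.2 ∈ DD z (κ / 2) 0}
        from hq), VV_eq hκ h.diff.continuousOn hq.1]
      congr 2
      funext η
      exact ind_O3 hq.1 hq.2 η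
    · rw [indicator_of_notMem (show q ∉ {q : ℂ × (ℂ × ℂ) | ‖q.1‖ < κ / 2 ∧ q.2 ∈ DD z (κ / 2) 0}
        from hq)]
      have h4 : (fun η : ℂ => (O3 z κ).indicator (NNd z F S a R μ v) (q, η)) = fun _ => 0 := by
        funext η
        rw [indicator_of_notMem]
        intro h5
        exact hq ⟨h5.1, h5.2.1⟩
      rw [h4]
      simp
  rw [h2]
  exact (measurable_const.mul h1.measurable)

end Pool.Agent.P157C
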