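import Mathlib
import Pool.Agent.Y263.SC.OpX
import Pool.Agent.P157C.Defs2
import Pool.Agent.P157C.Pw

set_option autoImplicit false

open MeasureTheory Metric Set Filter Topology Complex

namespace Pool.Agent.P157C

open Pool.Agent.H720R2 Pool.Agent.H720R2.HP

open Pool.Agent.Y263.SC (Den)

namespace VVaux

/-- the integrand without the last factor -/
noncomputable def EE {ι : Type} (z : ℂ × ℂ → ℂ) (F : ℂ × ℂ → ℂ) (S : Finset ι) (a : ι → ℂ)
    (R : ι → Set ℂ) (μ : ℂ → ℂ) (v : ℂ × ℂ → ℂ) (ζ η y : ℂ) : ℂ :=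
  (∑ k ∈ S, (R k).indicator (fun ω => μ ω * Wk S a k ω (F (ζ, y))) (F (ζ, η))) *
      starRingEnd ℂ (dz F (ζ, η)) * v (ζ, η) * ((rho z (ζ, η) : ℂ) / Ph z (ζ, η) (ζ, y)) ^ 2

theorem slice_diffC {κ : ℝ} {F : ℂ × ℂ → ℂ}
    (hF : DifferentiableOn ℂ F {p | ‖p.1‖ < κ ∧ ‖p.2‖ < κ}) {ζ : ℂ} (hζ : ‖ζ‖ < κ) :
    DifferentiableOn ℂ (fun η => F (ζ, η)) (ball (0 : ℂ) κ) := by
  have h1 : DifferentiableOn ℂ (fun η : ℂ => (ζ, η)) (ball (0 : ℂ) κ) := by fun_prop
  refine hF.comp h1 ?_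
  intro η hη
  exact ⟨hζ, by simpa using hη⟩

theorem SS_sub {κ L : ℝ} {z : ℂ × ℂ → ℂ} (h : LM κ L z) {ζ η : ℂ} (hη : η ∈ SS z κ ζ) :
    η ∈ ball (0 : ℂ) κ := by
  have h1 := hη.1
  have h2 := h.κ0
  rw [mem_ball_zero_iff]
  linarith

theorem SS_open {κ L : ℝ} {z : ℂ × ℂ → ℂ} (h : LM κ L z) {ζ : ℂ} (hζ : ‖ζ‖ < κ) :
    IsOpen (SS z κ ζ) := by
  have hκ := h.κ0
  have h1 : ContinuousOn (fun η => rho z (ζ, η)) (ball (0 : ℂ) (κ / 2)) := by
    have h2 : ContinuousOn (fun η => z (ζ, η)) (ball (0 : ℂ) (κ / 2)) :=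
      (slice_diffC h.diff hζ).continuousOn.mono (ball_subset_ball (by linarith))
    unfold rho
    exact (continuousOn_const.sub (h2.norm.pow 2)).sub (continuousOn_id.norm.pow 2)
  have h2 := h1.isOpen_inter_preimage isOpen_ball (isOpen_Ioi (a := (0 : ℝ)))
  have h3 : SS z κ ζ = ball (0 : ℂ) (κ / 2) ∩ (fun η => rho z (ζ, η)) ⁻¹' Ioi 0 := by
    ext η
    simp only [SS, mem_setOf_eq, mem_inter_iff, mem_ball_zero_iff, mem_preimage, mem_Ioi]
  rw [h3]
  exact h2

theorem Ph_ge {z : ℂ × ℂ → ℂ} {s p : ℂ × ℂ} (hs : 0 < rho z s) (hp : 0 < rho z p) :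
    rho z s / 2 ≤ ‖Ph z s p‖ := by
  refine le_trans ?_ (Complex.re_le_norm _)
  rw [Ph_re]
  have h1 := sq_nonneg ‖z p - z s‖
  have h2 := sq_nonneg ‖p.2 - s.2‖
  linarith

theorem Ph_ne {z : ℂ × ℂ → ℂ} {s p : ℂ × ℂ} (hs : 0 < rho z s) (hp : 0 < rho z p) :
    Ph z s p ≠ 0 := by
  have := Ph_ge hs hp
  rw [← norm_pos_iff]
  linarith

theorem Ph_self (z : ℂ × ℂ → ℂ) (s : ℂ × ℂ) : Ph z s s = (rho z s : ℂ) := by
  unfold Ph rho
  rw [Complex.mul_conj, Complex.mul_conj, Complex.normSq_eq_norm_sq, Complex.normSq_eq_norm_sq]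
  push_cast
  ring

theorem F_im {κ L : ℝ} {z F : ℂ × ℂ → ℂ} (h : LM κ L z) (hF : SF κ L z F) {ζ η : ℂ}
    (hζ : ‖ζ‖ < κ) (hη : η ∈ SS z κ ζ) : 0 < (F (ζ, η)).im := by
  have h1 := SS_sub h hη
  rw [mem_ball_zero_iff] at h1
  have h2 := hF.pos (ζ, η) hζ h1 hη.2
  have h3 := h.L1
  have h4 := hη.2
  by_contra hcon
  push Not at hcon
  nlinarith

section

variable {κ L Cp K M : ℝ} {ι : Type} {z F : ℂ × ℂ → ℂ}
    {S : Finset ι} {a : ι → ℂ} {R : ι → Set ℂ} {μ : ℂ → ℂ} {v : ℂ × ℂ → ℂ}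

theorem ind_mul (s : Set ℂ) (c : ℂ → ℂ) (ω : ℂ) :
    s.indicator (fun ω => μ ω * c ω) ω = s.indicator μ ω * c ω := by
  by_cases h : ω ∈ s
  · rw [indicator_of_mem h, indicator_of_mem h]
  · rw [indicator_of_notMem h, indicator_of_notMem h, zero_mul]

theorem EE_meas (h : LM κ L z) (hF : SF κ L z F) (hfam : Fam S a R Cp) (hD : Den univ S a R μ K)
    (hv : Measurable v) {ζ : ℂ} (hζ : ‖ζ‖ < κ) :
    Measurable (fun p : ℂ × ℂ => (SS z κ ζ ×ˢ SS z κ ζ).indicator
      (fun p : ℂ × ℂ => EE z F S a R μ v ζ p.1 p.2) p) := by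
  classical
  set Ω := SS z κ ζ with hΩd
  have hΩ : IsOpen Ω := SS_open h hζ
  set Ft : ℂ → ℂ := Ω.indicator (fun η => F (ζ, η)) with hFt
  set zt : ℂ → ℂ := Ω.indicator (fun η => z (ζ, η)) with hzt
  have hFtm : Measurable Ft := by
    rw [hFt, ← Set.piecewise_eq_indicator]
    refine ContinuousOn.measurable_piecewise ?_ continuousOn_const hΩ.measurableSet
    exact (slice_diffC hF.diff hζ).continuousOn.mono (fun η hη => SS_sub h hη)
  have hztm : Measurable zt := by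
    rw [hzt, ← Set.piecewise_eq_indicator]
    refine ContinuousOn.measurable_piecewise ?_ continuousOn_const hΩ.measurableSet
    exact (slice_diffC h.diff hζ).continuousOn.mono (fun η hη => SS_sub h hη)
  set T : Set (ℂ × ℂ) := {p | 0 < p.1.im ∧ 0 < p.2.im} with hT
  have hTo : IsOpen T := by
    refine IsOpen.inter ?_ ?_
    · exact isOpen_lt continuous_const (Complex.continuous_im.comp continuous_fst)
    · exact isOpen_lt continuous_const (Complex.continuous_im.comp continuous_snd)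
  have hWm : ∀ k ∈ S, Measurable (T.indicator (fun p : ℂ × ℂ => Wk S a k p.1 p.2)) := by
    intro k hk
    rw [← Set.piecewise_eq_indicator]
    exact ContinuousOn.measurable_piecewise (Wk_cont hfam hk) continuousOn_const hTo.measurableSet
  have heq : (fun p : ℂ × ℂ => (Ω ×ˢ Ω).indicator
      (fun p : ℂ × ℂ => EE z F S a R μ v ζ p.1 p.2) p) =
      (Ω ×ˢ Ω).indicator (fun p : ℂ × ℂ =>
        (∑ k ∈ S, (R k).indicator μ (Ft p.1) *
          T.indicator (fun p : ℂ × ℂ => Wk S a k p.1 p.2) (Ft p.1, Ft p.2)) *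
        starRingEnd ℂ (deriv (fun y : ℂ => F (ζ, y)) p.1) * v (ζ, p.1) *
        (((1 - ‖zt p.1‖ ^ 2 - ‖p.1‖ ^ 2 : ℝ) : ℂ) /
          (1 - zt p.2 * starRingEnd ℂ (zt p.1) - p.2 * starRingEnd ℂ p.1)) ^ 2) := by
    funext p
    by_cases hp : p ∈ Ω ×ˢ Ω
    · rw [indicator_of_mem hp, indicator_of_mem hp]
      have e1 : Ft p.1 = F (ζ, p.1) := indicator_of_mem hp.1 _
      have e2 : Ft p.2 = F (ζ, p.2) := indicator_of_mem hp.2 _
      have e3 : zt p.1 = z (ζ, p.1) := indicator_of_mem hp.1 _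
      have e4 : zt p.2 = z (ζ, p.2) := indicator_of_mem hp.2 _
      rw [e1, e2, e3, e4]
      have hmem : (F (ζ, p.1), F (ζ, p.2)) ∈ T := ⟨F_im h hF hζ hp.1, F_im h hF hζ hp.2⟩
      simp only [indicator_of_mem hmem]
      unfold EE
      have e5 : ∀ k ∈ S, (R k).indicator (fun ω => μ ω * Wk S a k ω (F (ζ, p.2))) (F (ζ, p.1)) =
          (R k).indicator μ (F (ζ, p.1)) * Wk S a k (F (ζ, p.1)) (F (ζ, p.2)) := fun k _ =>
        ind_mul (R k) (fun ω => Wk S a k ω (F (ζ, p.2))) _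
      rw [Finset.sum_congr rfl e5]
      rfl
    · rw [indicator_of_notMem hp, indicator_of_notMem hp]
  rw [heq]
  refine Measurable.indicator ?_ (hΩ.measurableSet.prod hΩ.measurableSet)
  have m1 : Measurable (fun p : ℂ × ℂ => Ft p.1) := hFtm.comp measurable_fst
  have m2 : Measurable (fun p : ℂ × ℂ => Ft p.2) := hFtm.comp measurable_snd
  have m3 : Measurable (fun p : ℂ × ℂ => zt p.1) := hztm.comp measurable_fst
  have m4 : Measurable (fun p : ℂ × ℂ => zt p.2) := hztm.comp measurable_snd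
  have mc : Measurable (starRingEnd ℂ : ℂ → ℂ) := Complex.continuous_conj.measurable
  have m5 : Measurable (fun p : ℂ × ℂ => ∑ k ∈ S, (R k).indicator μ (Ft p.1) *
          T.indicator (fun p : ℂ × ℂ => Wk S a k p.1 p.2) (Ft p.1, Ft p.2)) := by
    refine Finset.measurable_fun_sum _ (fun k hk => ?_)
    exact ((hD.hμ.indicator (hfam.hm k hk)).comp m1).mul ((hWm k hk).comp (m1.prodMk m2))
  have m6 : Measurable (fun p : ℂ × ℂ => starRingEnd ℂ (deriv (fun y : ℂ => F (ζ, y)) p.1)) :=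
    mc.comp ((measurable_deriv _).comp measurable_fst)
  have m7 : Measurable (fun p : ℂ × ℂ => v (ζ, p.1)) :=
    hv.comp (measurable_const.prodMk measurable_fst)
  have m8 : Measurable (fun p : ℂ × ℂ => ((1 - ‖zt p.1‖ ^ 2 - ‖p.1‖ ^ 2 : ℝ) : ℂ)) := by
    refine Complex.measurable_ofReal.comp ?_
    exact (measurable_const.sub (m3.norm.pow_const 2)).sub (measurable_fst.norm.pow_const 2)
  have m9 : Measurable (fun p : ℂ × ℂ =>
      1 - zt p.2 * starRingEnd ℂ (zt p.1) - p.2 * starRingEnd ℂ p.1) :=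
    (measurable_const.sub (m4.mul (mc.comp m3))).sub (measurable_snd.mul (mc.comp measurable_fst))
  exact ((m5.mul m6).mul m7).mul ((m8.div m9).pow_const 2)

theorem EE_diff (h : LM κ L z) (hF : SF κ L z F) (hfam : Fam S a R Cp)
    {ζ : ℂ} (hζ : ‖ζ‖ < κ) {η : ℂ} (hη : η ∈ SS z κ ζ) :
    DifferentiableOn ℂ (fun y => EE z F S a R μ v ζ η y) (SS z κ ζ) := by
  have hΩ : IsOpen (SS z κ ζ) := SS_open h hζ
  intro y hy
  have hyb := SS_sub h hy
  have hFy : DifferentiableAt ℂ (fun y => F (ζ, y)) y :=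
    (slice_diffC hF.diff hζ).differentiableAt (isOpen_ball.mem_nhds hyb)
  have hzy : DifferentiableAt ℂ (fun y => z (ζ, y)) y :=
    (slice_diffC h.diff hζ).differentiableAt (isOpen_ball.mem_nhds hyb)
  apply DifferentiableAt.differentiableWithinAt
  unfold EE
  refine DifferentiableAt.fun_mul (DifferentiableAt.fun_mul (DifferentiableAt.fun_mul ?_
    (differentiableAt_const _)) (differentiableAt_const _)) ?_
  · refine DifferentiableAt.fun_sum (fun k hk => ?_)
    have e5 : (fun y => (R k).indicator (fun ω => μ ω * Wk S a k ω (F (ζ, y))) (F (ζ, η))) =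
        fun y => (R k).indicator μ (F (ζ, η)) * Wk S a k (F (ζ, η)) (F (ζ, y)) := by
      funext y
      exact ind_mul (R k) (fun ω => Wk S a k ω (F (ζ, y))) _
    rw [e5]
    refine DifferentiableAt.const_mul ?_ _
    exact DifferentiableAt.comp (f := fun y => F (ζ, y)) y
      (Wk_diff hfam hk (F (ζ, η)) (F_im h hF hζ hy)) hFy
  · have hPd : DifferentiableAt ℂ (fun y : ℂ => Ph z (ζ, η) (ζ, y)) y := by
      have e : (fun y : ℂ => Ph z (ζ, η) (ζ, y)) = fun y : ℂ =>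
          1 - z (ζ, y) * starRingEnd ℂ (z (ζ, η)) - y * starRingEnd ℂ η := rfl
      rw [e]
      exact ((differentiableAt_const _).fun_sub (hzy.fun_mul (differentiableAt_const _))).fun_sub
        (differentiableAt_id.fun_mul (differentiableAt_const _))
    exact DifferentiableAt.fun_pow (DifferentiableAt.fun_div (differentiableAt_const _) hPd
      (Ph_ne hη.2 hy.2)) 2

theorem EE_bd (h : LM κ L z) (hF : SF κ L z F) (hfam : Fam S a R Cp) (hD : Den univ S a R μ K)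
    (hM : ∀ s, ‖v s‖ ≤ M) {ζ : ℂ} (hζ : ‖ζ‖ < κ) {η y : ℂ} (hη : η ∈ SS z κ ζ)
    (hy : y ∈ SS z κ ζ) :
    ‖EE z F S a R μ v ζ η y‖ ≤ (∑ k ∈ S, K / |(a k).im| * (6 * Real.exp Cp)) * L * M * 4 := by
  have hK0 := hD.hK0
  have hM0 : 0 ≤ M := (norm_nonneg _).trans (hM (0, 0))
  have hL0 : 0 ≤ L := by linarith [h.L1]
  unfold EE
  rw [norm_mul, norm_mul, norm_mul, norm_pow, RCLike.norm_conj]
  have b1 : ‖∑ k ∈ S, (R k).indicator (fun ω => μ ω * Wk S a k ω (F (ζ, y))) (F (ζ, η))‖ ≤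
      ∑ k ∈ S, K / |(a k).im| * (6 * Real.exp Cp) := by
    refine norm_sum_le_of_le _ (fun k hk => ?_)
    have hak := hfam.ha k hk
    by_cases hm : F (ζ, η) ∈ R k
    · rw [indicator_of_mem hm, norm_mul, abs_of_pos hak]
      have c1 := hD.hK k hk _ hm
      have c2 := Wk_le' hfam hk hm (F_im h hF hζ hy)
      gcongr
    · rw [indicator_of_notMem hm, norm_zero]
      positivity
  have b2 : ‖dz F (ζ, η)‖ ≤ L := by
    have hηb := SS_sub h hη
    rw [mem_ball_zero_iff] at hηb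
    exact hF.dbd (ζ, η) hζ hηb
  have b3 : ‖v (ζ, η)‖ ≤ M := hM _
  have b4 : ‖(rho z (ζ, η) : ℂ) / Ph z (ζ, η) (ζ, y)‖ ≤ 2 := by
    have c1 := Ph_ge (z := z) hη.2 hy.2
    have c2 := hη.2
    rw [norm_div, Complex.norm_real, Real.norm_of_nonneg c2.le, div_le_iff₀ (by linarith)]
    linarith
  have b5 : ‖(rho z (ζ, η) : ℂ) / Ph z (ζ, η) (ζ, y)‖ ^ 2 ≤ 4 := by
    have := pow_le_pow_left₀ (norm_nonneg _) b4 2
    norm_num at this ⊢
    exact this
  have hs0 : 0 ≤ ∑ k ∈ S, K / |(a k).im| * (6 * Real.exp Cp) :=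
    Finset.sum_nonneg fun k _ => by positivity
  gcongr

theorem EE_self (h : LM κ L z) (hF : SF κ L z F) (hfam : Fam S a R Cp) (hD : Den univ S a R μ K)
    {ζ : ℂ} (hζ : ‖ζ‖ < κ) {y : ℂ} (hy : y ∈ SS z κ ζ) :
    EE z F S a R μ v ζ y y = μ (F (ζ, y)) * starRingEnd ℂ (dz F (ζ, y)) * v (ζ, y) := by
  unfold EE
  have hr : (rho z (ζ, y) : ℂ) ≠ 0 := by
    have := hy.2
    exact_mod_cast this.ne'
  rw [Ph_self, div_self hr, one_pow, mul_one]
  congr 2
  have him := F_im h hF hζ hy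
  have e5 : ∀ k ∈ S, (R k).indicator (fun ω => μ ω * Wk S a k ω (F (ζ, y))) (F (ζ, y)) =
      (R k).indicator μ (F (ζ, y)) := by
    intro k hk
    rw [ind_mul (R k) (fun ω => Wk S a k ω (F (ζ, y))) _, Wk_self hfam hk him, mul_one]
  rw [Finset.sum_congr rfl e5]
  by_cases hm : ∀ k ∈ S, F (ζ, y) ∉ R k
  · rw [hD.h0 _ hm]
    exact Finset.sum_eq_zero (fun k hk => indicator_of_notMem (hm k hk) _)
  · push Not at hm
    obtain ⟨k, hk, hmem⟩ := hm
    rw [Finset.sum_eq_single_of_mem k hk, indicator_of_mem hmem]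
    intro j hj hjk
    rw [indicator_of_notMem]
    intro hj'
    exact (Set.disjoint_left.1 (hfam.hd j hj k hk hjk)) hj' hmem

end

end VVaux

open VVaux

/-- **TARGET** -/
theorem VV_weak {κ L Cp K M : ℝ} {ι : Type} {z F : ℂ × ℂ → ℂ} (h : LM κ L z) (hF : SF κ L z F)
    {S : Finset ι} {a : ι → ℂ} {R : ι → Set ℂ} {μ : ℂ → ℂ} {v : ℂ × ℂ → ℂ}
    (hfam : Fam S a R Cp) (hD : Den univ S a R μ K) (hv : Measurable v) (hM : ∀ s, ‖v s‖ ≤ M)
    {ζ : ℂ} (hζ : ‖ζ‖ < κ / 2) :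
    WD (SS z κ ζ) (fun y => VV z κ F S a R μ v ζ (ζ, y))
      (fun y => μ (F (ζ, y)) * starRingEnd ℂ (dz F (ζ, y)) * v (ζ, y)) := by
  have hκ0 := h.κ0
  have hκ1 := h.κ1
  have hζ' : ‖ζ‖ < κ := by linarith
  set Ω := SS z κ ζ with hΩd
  have hΩ : IsOpen Ω := SS_open h hζ'
  set B : ℂ → ℂ → ℂ := fun η y => (Ω ×ˢ Ω).indicator
      (fun p : ℂ × ℂ => EE z F S a R μ v ζ p.1 p.2) (η, y) with hB
  have hBm : Measurable (fun p : ℂ × ℂ => B p.1 p.2) := EE_meas h hF hfam hD hv hζ'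
  have hBin : ∀ η ∈ Ω, ∀ y ∈ Ω, B η y = EE z F S a R μ v ζ η y := by
    intro η hη y hy
    have hp : ((η, y) : ℂ × ℂ) ∈ Ω ×ˢ Ω := ⟨hη, hy⟩
    simp only [hB, indicator_of_mem hp]
  have hBout : ∀ η, η ∉ Ω → ∀ y, B η y = 0 := by
    intro η hη y
    have hp : ((η, y) : ℂ × ℂ) ∉ Ω ×ˢ Ω := fun hp => hη hp.1
    simp only [hB, indicator_of_notMem hp]
  have hBd : ∀ η, DifferentiableOn ℂ (B η) Ω := by
    intro η
    by_cases hη : η ∈ Ω
    · exact (EE_diff h hF hfam hζ' hη).congr (fun y hy => hBin η hη y hy)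
    · have : B η = fun _ => 0 := by
        funext y; exact hBout η hη y
      rw [this]
      exact differentiableOn_const _
  have hM0 : 0 ≤ M := (norm_nonneg _).trans (hM (0, 0))
  have hL0 : 0 ≤ L := by linarith [h.L1]
  have hK0 := hD.hK0
  set M' : ℝ := (∑ k ∈ S, K / |(a k).im| * (6 * Real.exp Cp)) * L * M * 4 with hM'
  have hs0 : 0 ≤ ∑ k ∈ S, K / |(a k).im| * (6 * Real.exp Cp) :=
    Finset.sum_nonneg fun k _ => by positivity
  have hM'0 : 0 ≤ M' := by rw [hM']; positivity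
  have hBb : ∀ η y, ‖B η y‖ ≤ (ball (0 : ℂ) 1).indicator (fun _ => M') η := by
    intro η y
    by_cases hη : η ∈ Ω
    · have hηb : η ∈ ball (0 : ℂ) 1 := by
        have h1 := hη.1
        rw [mem_ball_zero_iff]
        linarith
      rw [indicator_of_mem hηb]
      by_cases hy : y ∈ Ω
      · rw [hBin η hη y hy]
        exact EE_bd h hF hfam hD hM hζ' hη hy
      · have hp : ((η, y) : ℂ × ℂ) ∉ Ω ×ˢ Ω := fun hp => hy hp.2
        simp only [hB, indicator_of_notMem hp, norm_zero]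
        exact hM'0
    · rw [hBout η hη y, norm_zero]
      exact indicator_nonneg (fun _ _ => hM'0) _
  have hweak := CT_weak hΩ zero_le_one hM'0 hBm hBd hBb
  refine hweak.congr hΩ ?_ ?_
  · intro y hy
    have hyb := SS_sub h hy
    unfold CT VV
    congr 1
    have e1 : ∫ η, B η y / (y - η) = ∫ η in Ω, EE z F S a R μ v ζ η y / (y - η) := by
      rw [← integral_indicator hΩ.measurableSet]
      congr 1
      funext η
      by_cases hη : η ∈ Ω
      · rw [indicator_of_mem hη, hBin η hη y hy]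
      · rw [indicator_of_notMem hη, hBout η hη y, zero_div]
    rw [e1]
    refine setIntegral_congr_ae hΩ.measurableSet ?_
    have hne : ∀ᵐ η : ℂ, η ≠ y := by
      have : (volume : Measure ℂ) {y} = 0 := measure_singleton y
      rw [ae_iff]
      simpa using this
    have han : AnalyticOnNhd ℂ (fun η => F (ζ, η) - F (ζ, y)) (ball (0 : ℂ) κ) :=
      ((slice_diffC hF.diff hζ').sub_const _).analyticOnNhd isOpen_ball
    rcases han.eqOn_zero_or_eventually_ne_zero_of_preconnected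
      (convex_ball (0 : ℂ) κ).isPreconnected with hc | hc
    · -- constant slice
      refine Eventually.of_forall (fun η hη => ?_)
      have hηb := SS_sub h hη
      have hd : dz F (ζ, η) = 0 := by
        unfold dz
        have : (fun y : ℂ => F ((ζ, η).1, y)) =ᶠ[𝓝 (ζ, η).2] fun _ => F (ζ, y) := by
          filter_upwards [isOpen_ball.mem_nhds hηb] with w hw
          have := hc hw
          simp only [Pi.zero_apply] at this
          exact sub_eq_zero.1 this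
        rw [this.deriv_eq, deriv_const]
      have hE : EE z F S a R μ v ζ η y = 0 := by
        unfold EE
        rw [hd, map_zero, mul_zero, zero_mul, zero_mul]
      show EE z F S a R μ v ζ η y * _ = EE z F S a R μ v ζ η y / _
      rw [hE, zero_mul, zero_div]
    · have hc2 : ∀ᵐ η ∂(volume.restrict (ball (0 : ℂ) κ)), F (ζ, η) - F (ζ, y) ≠ 0 :=
        ae_restrict_le_codiscreteWithin measurableSet_ball hc
      rw [ae_restrict_iff' measurableSet_ball] at hc2
      filter_upwards [hne, hc2] with η h1 h2 hη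
      have h3 := h2 (SS_sub h hη)
      show EE z F S a R μ v ζ η y * (qq F (ζ, η) y / (F (ζ, y) - F (ζ, η))) = _
      have h4 : F (ζ, y) - F (ζ, η) ≠ 0 := by
        intro h5
        apply h3
        rw [← neg_sub, h5, neg_zero]
      have h5 : y - η ≠ 0 := sub_ne_zero.2 (Ne.symm h1)
      have h6 : qq F (ζ, η) y = (F (ζ, y) - F (ζ, η)) / (y - η) := by
        unfold qq
        rw [dslope_of_ne _ (Ne.symm h1), slope_def_field]
      rw [h6]
      field_simp
  · intro y hy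
    rw [hBin y hy y hy]
    exact (EE_self h hF hfam hD hζ' hy).symm

end Pool.Agent.P157C
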