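import Mathlib
import Pool.Agent.P157C.ExtB
import Pool.Agent.P157C.ExtSt

set_option autoImplicit false

open MeasureTheory Metric Set Filter Topology Complex

namespace Pool.Agent.P157C

/-- **TARGET** -/
theorem extP_all (n : ℕ) {κ L ε : ℝ} (hκ : 0 < κ) (hκ1 : κ ≤ 1) (hL : 1 ≤ L) (hε : 0 < ε)
    (hε1 : ε ≤ 1) :
    ∃ ε' C : ℝ, 0 < ε' ∧ ε' ≤ ε ∧ 0 ≤ C ∧ ∀ (K : ℕ) (z : ℂ × ℂ → ℂ) (F : Fin K → ℂ × ℂ → ℂ)
      (f : Fin K → ℂ → ℂ) (η : ℝ), LM κ L z → (∀ k, SF κ L z (F k)) → 0 < η →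
      (∀ k, DifferentiableOn ℂ (f k) {w : ℂ | -η < w.im}) →
      (∀ k, ∀ w : ℂ, 0 ≤ w.im → ‖f k w‖ ≤ 1) →
      (∀ k, ∃ c : ℂ, Tendsto (f k) (Bornology.cobounded ℂ ⊓ 𝓟 {w : ℂ | 0 ≤ w.im}) (𝓝 c)) →
      ∀ θ : ℝ, 0 < θ → ∀ A : Set ℂ, (∀ ζ ∈ A, ‖ζ‖ < κ / 8) →
      ∀ I : Finset (Fin K), I.card = n →
        ExtP A (Dm z (κ / 2) 0 F f I ε) (Dm z (κ / 8) θ F f I ε') C := by
  induction n with
  | zero =>
    obtain ⟨C, hC, h⟩ := extP_base hκ hκ1 hL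
    refine ⟨ε, C, hε, le_rfl, hC, ?_⟩
    intro K z F f η hz _ _ _ _ _ θ hθ A hA I hI
    have hI' : I = ∅ := Finset.card_eq_zero.mp hI
    subst hI'
    have h1 : Dm z (κ / 2) 0 F f ∅ ε = DD z (κ / 2) 0 := by
      ext p; simp [Dm]
    have h2 : Dm z (κ / 8) θ F f ∅ ε = DD z (κ / 8) θ := by
      ext p; simp [Dm]
    rw [h1, h2]
    exact h z hz θ hθ A hA
  | succ n ih =>
    obtain ⟨ε₁, C₁, hε₁, hε₁', hC₁, h₁⟩ := ih
    obtain ⟨ε', C, hε', hε'', hC, h⟩ := extP_step hκ hκ1 hL hε hε1 hε₁ hε₁' hC₁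
    refine ⟨ε', C, hε', hε''.trans hε₁', hC, ?_⟩
    intro K z F f η hz hF hη hf hfb hfl θ hθ A hA I hI
    obtain ⟨k, hk⟩ : I.Nonempty := by
      rw [← Finset.card_pos, hI]; exact Nat.succ_pos n
    have hcard : (I.erase k).card = n := by
      rw [Finset.card_erase_of_mem hk, hI]; rfl
    have hstep := h K z F f η hz hF hη hf hfb hfl θ hθ A hA (I.erase k) k (Finset.notMem_erase k I)
      (h₁ K z F f η hz hF hη hf hfb hfl θ hθ A hA (I.erase k) hcard)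
    rwa [Finset.insert_erase hk] at hstep

end Pool.Agent.P157C
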