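import Mathlib
import Pool.Agent.TH310.Cor.Whit

set_option autoImplicit false

open Metric Set Filter Topology WeakDual

namespace Pool.Agent.P157C

open Pool.Agent.TH310.Cor

/-- **TARGET** -/
theorem glue {m : ℕ} {I ι : Type} [Fintype ι] {F : I → ι → V m → ℂ} (hF : ∀ i j, HB (F i j))
    {δ : ℝ} (hδ : 0 < δ) (hlow : ∀ i, ∀ z ∈ ball (0 : V m) 1, δ ≤ ∑ j, ‖F i j z‖)
    (hloc : ∀ q : V m, ‖q‖ = 1 → SolvL F q) : Solv F := by
  classical
  by_contra hns
  letI tJ : TopologicalSpace I := ⊥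
  haveI dJ : DiscreteTopology I := ⟨rfl⟩
  obtain ⟨χ, hχ⟩ := exists_zero hF hns
  obtain ⟨q, hq⟩ : ∃ q, q = pt χ := ⟨_, rfl⟩
  have hq1 : ‖q‖ = 1 := by
    rcases lt_or_eq_of_le (pt_norm χ) with h3 | h3
    · exfalso
      have hpt : pt χ ∈ ball (0 : V m) 1 := by rw [mem_ball_zero_iff]; exact h3
      refine char_index (ι := ι) χ (fun o x => F x o (pt χ)) (C := 1)
        (fun o x => (hF x o).2 _ hpt) hδ (fun x => hlow x _ hpt) ?_
      intro o
      have h4 := char_interior χ h3 (El (f := fun x => F x o) (fun x => hF x o))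
      rw [hχ o] at h4
      refine Eq.trans (congrArg χ ?_) h4.symm
      exact ext' fun x => rfl
    · rw [hq]; exact h3
  obtain ⟨C, ρ, hρ, hg⟩ := hloc q hq1
  choose g hgd hgb hid using hg
  obtain ⟨C', hC'⟩ : ∃ C', C' = max C 1 := ⟨_, rfl⟩
  have hC'1 : 1 ≤ C' := by rw [hC']; exact le_max_right _ _
  have hCC' : C ≤ C' := by rw [hC']; exact le_max_left _ _
  have hC'0 : 0 < C' := by linarith
  obtain ⟨K, r, hK, hr, hlg⟩ := lgV (η := ρ ^ 2 / 2) (by positivity)
  have hsub : ∀ z ∈ ball (0 : V m) 1, ‖(inner ℂ q z : ℂ) - 1‖ < ρ ^ 2 / 2 →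
      z ∈ ball (0 : V m) 1 ∩ ball q ρ := by
    intro z hz hzq
    refine ⟨hz, ?_⟩
    rw [mem_ball, dist_eq_norm]
    by_contra hcon
    push Not at hcon
    have h3 := one_sub_inner hq1 (by rw [mem_ball_zero_iff] at hz; exact hz.le) hρ.le hcon
    rw [norm_sub_rev] at h3
    linarith
  have hG : ∀ (j : ι) (x : I), ∃ G : V m → ℂ, DifferentiableOn ℂ G (ball 0 1) ∧
      (∀ z ∈ ball (0 : V m) 1, ‖G z‖ ≤ K) ∧ ∀ ε, 0 < ε → ∀ z ∈ ball (0 : V m) 1,
        ‖(inner ℂ q z : ℂ) - 1‖ < r ε → ‖G z - g x j z / C'‖ ≤ ε := by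
    intro j x
    refine hlg m q hq1 (fun z => g x j z / C') ?_ ?_
    · have h3 : DifferentiableOn ℂ (fun z => g x j z * (C' : ℂ)⁻¹) (ball (0 : V m) 1 ∩ ball q ρ) :=
        (hgd x j).mul_const _
      simp only [div_eq_mul_inv]
      refine h3.mono ?_
      rintro z ⟨hz, hz2⟩
      exact hsub z hz hz2
    · intro z hz hz2
      rw [norm_div, Complex.norm_real, Real.norm_of_nonneg hC'0.le, div_le_one hC'0]
      exact (hgb x j z (hsub z hz hz2)).trans hCC'
  choose G hG1 hG2 hG3 using hG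
  obtain ⟨ε, hε⟩ : ∃ ε : ℝ, ε = 1 / (2 * C' * (Fintype.card ι + 1)) := ⟨_, rfl⟩
  have hε0 : 0 < ε := by rw [hε]; positivity
  have hNε : (Fintype.card ι : ℝ) * (C' * ε) ≤ 1 / 2 := by
    rw [hε]
    have h3 : (Fintype.card ι : ℝ) * (C' * (1 / (2 * C' * (Fintype.card ι + 1)))) =
        (Fintype.card ι / (Fintype.card ι + 1)) * (1 / 2) := by field_simp
    rw [h3]
    have h4 : (Fintype.card ι : ℝ) / (Fintype.card ι + 1) ≤ 1 := by
      rw [div_le_one (by positivity)]; linarith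
    linarith
  have hu0 : χ (∑ j, El (f := fun x => F x j) (fun x => hF x j) *
      (mk (hG1 j) (hG2 j) * Cc (C' : ℂ))) = 0 := by
    rw [map_sum]
    refine Finset.sum_eq_zero fun j _ => ?_
    rw [map_mul, hχ j, zero_mul]
  have hu1 : ‖χ (∑ j, El (f := fun x => F x j) (fun x => hF x j) *
      (mk (hG1 j) (hG2 j) * Cc (C' : ℂ)) - 1)‖ ≤ 1 / 2 := by
    refine char_boundary χ (by rw [← hq]; exact hq1) _ (ρ := min (r ε) (ρ ^ 2 / 2))
      (lt_min (hr ε hε0) (by positivity)) (by norm_num) univ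
      (by rw [Id_univ, map_one]) ?_
    intro x _ z hz
    rw [← hq] at hz
    have hz1 : ‖(inner ℂ q (z : V m) : ℂ) - 1‖ ≤ ‖(z : V m) - q‖ := by
      have h3 : (inner ℂ q (z : V m) : ℂ) - 1 = inner ℂ q ((z : V m) - q) := by
        rw [inner_sub_right, inner_self_eq_norm_sq_to_K, hq1]
        norm_num
      rw [h3]
      refine (norm_inner_le_norm _ _).trans ?_
      rw [hq1, one_mul]
    have hz2 : ‖(inner ℂ q (z : V m) : ℂ) - 1‖ < r ε := by
      have := min_le_left (r ε) (ρ ^ 2 / 2); linarith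
    have hz3 : ‖(inner ℂ q (z : V m) : ℂ) - 1‖ < ρ ^ 2 / 2 := by
      have := min_le_right (r ε) (ρ ^ 2 / 2); linarith
    have hzm := hsub z z.2 hz3
    have h3 : (∑ j, El (f := fun x => F x j) (fun x => hF x j) *
        (mk (hG1 j) (hG2 j) * Cc (C' : ℂ)) - 1 : HI I m).1 (x, z) =
        ∑ j, F x j z * (C' * (G j x z - g x j z / C')) := by
      have h4 : (∑ j, El (f := fun x => F x j) (fun x => hF x j) *
        (mk (hG1 j) (hG2 j) * Cc (C' : ℂ)) - 1 : HI I m).1 (x, z) =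
        (∑ j, El (f := fun x => F x j) (fun x => hF x j) *
        (mk (hG1 j) (hG2 j) * Cc (C' : ℂ)) : HI I m).1 (x, z) - 1 := rfl
      rw [h4, Pool.Agent.TH310.Cor.sum_apply, ← hid x z hzm, ← Finset.sum_sub_distrib]
      refine Finset.sum_congr rfl fun j _ => ?_
      change F x j z * (G j x z * C') - F x j z * g x j z = _
      have h5 : (C' : ℂ) ≠ 0 := by exact_mod_cast hC'0.ne'
      field_simp
    rw [h3]
    refine (norm_sum_le _ _).trans ?_
    have h4 : ∀ j ∈ (Finset.univ : Finset ι),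
        ‖F x j z * (C' * (G j x z - g x j z / C'))‖ ≤ C' * ε := by
      intro j _
      rw [norm_mul, norm_mul, Complex.norm_real, Real.norm_of_nonneg hC'0.le]
      have h5 := (hF x j).2 z z.2
      have h6 := hG3 j x ε hε0 z z.2 hz2
      calc ‖F x j z‖ * (C' * ‖G j x z - g x j z / C'‖) ≤ 1 * (C' * ε) := by
            gcongr
        _ = C' * ε := one_mul _
    refine (Finset.sum_le_sum h4).trans ?_
    rw [Finset.sum_const, Finset.card_univ, nsmul_eq_mul]
    exact hNε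
  rw [map_sub, hu0, map_one, zero_sub, norm_neg, norm_one] at hu1
  norm_num at hu1

end Pool.Agent.P157C
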