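import Mathlib
import Pool.Agent.P157C.Defs

set_option autoImplicit false

open MeasureTheory Metric Set Filter Topology Complex

namespace Pool.Agent.P157C

theorem hopf_normSq (x w : ℂ) : ‖x - (starRingEnd ℂ) w‖ ^ 2 - ‖x - w‖ ^ 2 = 4 * x.im * w.im := by
  rw [← Complex.normSq_eq_norm_sq, ← Complex.normSq_eq_norm_sq, Complex.normSq_apply,
    Complex.normSq_apply]
  simp
  ring

/-- **TARGET** -/
theorem hopf {h : ℂ → ℂ} (h1 : AnalyticAt ℂ h 1) (h0 : h 1 = 0)
    (hpos : ∀ᶠ a in 𝓝 (1 : ℂ), ‖a‖ < 1 → 0 < (h a).im) : deriv h 1 ≠ 0 := by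
  intro hd
  obtain ⟨r₁, hr₁, hb₁⟩ := Metric.eventually_nhds_iff_ball.1 h1.eventually_analyticAt
  obtain ⟨r₂, hr₂, hb₂⟩ := Metric.eventually_nhds_iff_ball.1 hpos
  set r₀ := min r₁ r₂ with hr₀
  have hr₀pos : 0 < r₀ := lt_min hr₁ hr₂
  set r : ℝ := min r₀ 1 / 4 with hr
  have hrpos : 0 < r := by positivity
  have hr1 : r ≤ 1 / 4 := by rw [hr]; have := min_le_right r₀ 1; linarith
  have hr2 : r ≤ r₀ / 4 := by rw [hr]; have := min_le_left r₀ 1; linarith
  set c : ℂ := ((1 - r : ℝ) : ℂ) with hc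
  have hcn : ‖c‖ = 1 - r := by
    rw [hc, Complex.norm_real, Real.norm_eq_abs, abs_of_pos (by linarith)]
  have hc1 : ‖c - 1‖ = r := by
    rw [hc]
    have : ((1 - r : ℝ) : ℂ) - 1 = ((-r : ℝ) : ℂ) := by push_cast; ring
    rw [this, Complex.norm_real, Real.norm_eq_abs, abs_neg, abs_of_pos hrpos]
  have hsub1 : ∀ a ∈ ball c r, ‖a‖ < 1 := by
    intro a ha
    rw [mem_ball, dist_eq_norm] at ha
    calc ‖a‖ = ‖(a - c) + c‖ := by ring_nf
      _ ≤ ‖a - c‖ + ‖c‖ := norm_add_le _ _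
      _ < 1 := by rw [hcn]; linarith
  have hsub2 : ∀ a ∈ ball c r, a ∈ ball (1 : ℂ) r₀ := by
    intro a ha
    rw [mem_ball, dist_eq_norm] at ha ⊢
    calc ‖a - 1‖ = ‖(a - c) + (c - 1)‖ := by ring_nf
      _ ≤ ‖a - c‖ + ‖c - 1‖ := norm_add_le _ _
      _ < r₀ := by rw [hc1]; linarith
  have him : ∀ a ∈ ball c r, 0 < (h a).im := fun a ha =>
    hb₂ a (ball_subset_ball (min_le_right _ _) (hsub2 a ha)) (hsub1 a ha)
  have hcb : c ∈ ball c r := mem_ball_self hrpos
  have hcpos : 0 < (h c).im := him c hcb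
  set w := h c with hw
  set k : ℂ → ℂ := fun a => (h a - w) / (h a - (starRingEnd ℂ) w) with hk
  have hne : ∀ a ∈ ball c r, h a - (starRingEnd ℂ) w ≠ 0 := by
    intro a ha h2
    have := congrArg Complex.im h2
    simp at this
    have := him a ha
    linarith
  have hdk : DifferentiableOn ℂ k (ball c r) := by
    intro a ha
    have hda : DifferentiableAt ℂ h a :=
      (hb₁ a (ball_subset_ball (min_le_left _ _) (hsub2 a ha))).differentiableAt
    exact ((hda.sub_const w).div (hda.sub_const _) (hne a ha)).differentiableWithinAt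
  have hkc : k c = 0 := by simp [hk, hw]
  have hmaps : MapsTo k (ball c r) (ball (k c) 1) := by
    intro a ha
    rw [hkc, mem_ball_zero_iff, hk]
    simp only [norm_div]
    have hn : 0 < ‖h a - (starRingEnd ℂ) w‖ := norm_pos_iff.2 (hne a ha)
    rw [div_lt_one hn]
    have h3 := hopf_normSq (h a) w
    have h4 := mul_pos (mul_pos (by norm_num : (0:ℝ) < 4) (him a ha)) hcpos
    exact lt_of_pow_lt_pow_left₀ 2 hn.le (by linarith)
  have key : ∀ t : ℝ, 0 < t → t < r → t / r * w.im / 4 ≤ ‖h (1 - t)‖ := by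
    intro t ht htr
    have ha : (1 - t : ℂ) ∈ ball c r := by
      rw [mem_ball, dist_eq_norm, hc]
      have : (1 - t : ℂ) - ((1 - r : ℝ) : ℂ) = ((r - t : ℝ) : ℂ) := by push_cast; ring
      rw [this, Complex.norm_real, Real.norm_eq_abs, abs_of_pos (by linarith)]
      linarith
    have h5 := Complex.dist_le_div_mul_dist_of_mapsTo_ball hdk
      (fun x hx => ball_subset_closedBall (hmaps hx)) ha
    have h6 : dist (1 - t : ℂ) c = r - t := by
      rw [dist_eq_norm, hc]
      have : (1 - t : ℂ) - ((1 - r : ℝ) : ℂ) = ((r - t : ℝ) : ℂ) := by push_cast; ring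
      rw [this, Complex.norm_real, Real.norm_eq_abs, abs_of_pos (by linarith)]
    rw [h6, hkc, dist_zero_right] at h5
    have hn : 0 < ‖h (1 - t) - (starRingEnd ℂ) w‖ := norm_pos_iff.2 (hne _ ha)
    have h7 : ‖h (1 - t) - w‖ ≤ (1 - t / r) * ‖h (1 - t) - (starRingEnd ℂ) w‖ := by
      have h8 : ‖k (1 - t)‖ = ‖h (1 - t) - w‖ / ‖h (1 - t) - (starRingEnd ℂ) w‖ := by
        simp [hk]
      rw [h8, div_le_iff₀ hn] at h5
      calc _ ≤ _ := h5
        _ = _ := by field_simp
    have h9 := hopf_normSq (h (1 - t)) w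
    have h10 : 0 < t / r := by positivity
    have h11 : t / r < 1 := (div_lt_one hrpos).2 htr
    have h12 : ‖h (1 - t) - w‖ ^ 2 ≤ (1 - t / r) * ‖h (1 - t) - (starRingEnd ℂ) w‖ ^ 2 := by
      have h13 : ‖h (1 - t) - w‖ ^ 2 ≤ ((1 - t / r) * ‖h (1 - t) - (starRingEnd ℂ) w‖) ^ 2 :=
        pow_le_pow_left₀ (norm_nonneg _) h7 2
      have h14 : (1 - t / r) ^ 2 ≤ 1 - t / r := by nlinarith
      calc _ ≤ _ := h13
        _ = (1 - t / r) ^ 2 * ‖h (1 - t) - (starRingEnd ℂ) w‖ ^ 2 := by ring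
        _ ≤ _ := mul_le_mul_of_nonneg_right h14 (by positivity)
    have h15 : (h (1 - t)).im + w.im ≤ ‖h (1 - t) - (starRingEnd ℂ) w‖ := by
      have := Complex.abs_im_le_norm (h (1 - t) - (starRingEnd ℂ) w)
      have h16 : (h (1 - t) - (starRingEnd ℂ) w).im = (h (1 - t)).im + w.im := by simp
      rw [h16] at this
      exact (le_abs_self _).trans this
    have h17 := him _ ha
    have h18 : w.im ^ 2 ≤ ‖h (1 - t) - (starRingEnd ℂ) w‖ ^ 2 :=
      pow_le_pow_left₀ hcpos.le (by linarith) 2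
    have h19 : t / r * w.im ^ 2 ≤ 4 * (h (1 - t)).im * w.im := by
      calc t / r * w.im ^ 2 ≤ t / r * ‖h (1 - t) - (starRingEnd ℂ) w‖ ^ 2 :=
            mul_le_mul_of_nonneg_left h18 h10.le
        _ ≤ _ := by nlinarith
    have h20 : t / r * w.im / 4 ≤ (h (1 - t)).im := by
      have : (t / r * w.im) * w.im ≤ (4 * (h (1 - t)).im) * w.im := by nlinarith
      have := le_of_mul_le_mul_right this hcpos
      linarith
    exact h20.trans ((le_abs_self _).trans (Complex.abs_im_le_norm _))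
  have hder : HasDerivAt h 0 1 := by
    rw [← hd]; exact h1.differentiableAt.hasDerivAt
  rw [hasDerivAt_iff_isLittleO] at hder
  have hε : 0 < w.im / (8 * r) := by positivity
  have hev := hder.def hε
  obtain ⟨δ, hδ, hball⟩ := Metric.eventually_nhds_iff_ball.1 hev
  set t := min r δ / 2 with ht
  have htpos : 0 < t := by positivity
  have htr : t < r := by rw [ht]; have := min_le_left r δ; linarith
  have htδ : t < δ := by rw [ht]; have := min_le_right r δ; linarith
  have hmem : (1 - t : ℂ) ∈ ball (1 : ℂ) δ := by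
    rw [mem_ball, dist_eq_norm]
    have : (1 - t : ℂ) - 1 = ((-t : ℝ) : ℂ) := by push_cast; ring
    rw [this, Complex.norm_real, Real.norm_eq_abs, abs_neg, abs_of_pos htpos]
    exact htδ
  have h21 := hball _ hmem
  have h22 := key t htpos htr
  have h23 : ‖(1 - t : ℂ) - 1‖ = t := by
    have : (1 - t : ℂ) - 1 = ((-t : ℝ) : ℂ) := by push_cast; ring
    rw [this, Complex.norm_real, Real.norm_eq_abs, abs_neg, abs_of_pos htpos]
  rw [h23, h0] at h21
  simp only [sub_zero, smul_zero] at h21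
  have h24 : t / r * w.im / 4 ≤ w.im / (8 * r) * t := h22.trans h21
  have h25 : w.im / (8 * r) * t = t / r * w.im / 8 := by field_simp
  rw [h25] at h24
  have h26 : 0 < t / r * w.im := by positivity
  linarith

end Pool.Agent.P157C
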