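import Mathlib
import Pool.Agent.P157C.Defs2
import Pool.Agent.P157C.AreaF

-- job 8213 done by helper586; statement unchanged

set_option autoImplicit false

open MeasureTheory Metric Set Filter Topology Complex

namespace Pool.Agent.P157C

theorem u7c_dz_U7c {F : ℂ × ℂ → ℂ} {p : ℂ × ℂ} (h : DifferentiableAt ℂ F p) :
    dz F p = fderiv ℂ F p ((0 : ℂ), (1 : ℂ)) := by
  unfold dz
  have h1 : HasDerivAt (fun y : ℂ => ((p.1, y) : ℂ × ℂ)) ((0 : ℂ), (1 : ℂ)) p.2 :=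
    (hasDerivAt_const _ _).prodMk (hasDerivAt_id _)
  have h2 : HasFDerivAt F (fderiv ℂ F p) ((fun y : ℂ => ((p.1, y) : ℂ × ℂ)) p.2) := by
    exact h.hasFDerivAt
  exact (h2.comp_hasDerivAt p.2 h1).deriv

theorem u7c_lm_U7c {κ L κ' L' : ℝ} {z : ℂ × ℂ → ℂ} (h : LM κ L z) (h0 : 0 < κ') (h1 : κ' ≤ κ)
    (h2 : L ≤ L') : LM κ' L' z where
  κ0 := h0
  κ1 := h1.trans h.κ1
  L1 := h.L1.trans h2
  diff := h.diff.mono (fun _ hp => ⟨lt_of_lt_of_le hp.1 h1, lt_of_lt_of_le hp.2 h1⟩)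
  lo := fun p hp1 hp2 => h.lo p (lt_of_lt_of_le hp1 h1) (lt_of_lt_of_le hp2 h1)
  hi := fun p hp1 hp2 => (h.hi p (lt_of_lt_of_le hp1 h1) (lt_of_lt_of_le hp2 h1)).trans h2
  lip := fun p q hp1 hp2 hq1 hq2 =>
    (h.lip p q (lt_of_lt_of_le hp1 h1) (lt_of_lt_of_le hp2 h1) (lt_of_lt_of_le hq1 h1)
      (lt_of_lt_of_le hq2 h1)).trans (mul_le_mul_of_nonneg_right h2 (by positivity))
  inj := fun w w' y hw hw' hy =>
    (h.inj w w' y (lt_of_lt_of_le hw h1) (lt_of_lt_of_le hw' h1)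
      (lt_of_lt_of_le hy h1)).trans (mul_le_mul_of_nonneg_right h2 (by positivity))
  dbd := fun p hp1 hp2 => (h.dbd p (lt_of_lt_of_le hp1 h1) (lt_of_lt_of_le hp2 h1)).trans h2
  lip2 := fun p q hp1 hp2 hq1 hq2 =>
    (h.lip2 p q (lt_of_lt_of_le hp1 h1) (lt_of_lt_of_le hp2 h1) (lt_of_lt_of_le hq1 h1)
      (lt_of_lt_of_le hq2 h1)).trans (mul_le_mul_of_nonneg_right h2 (by positivity))
  im := fun p hp1 hp2 => h.im p (lt_of_lt_of_le hp1 h1) (lt_of_lt_of_le hp2 h1)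

theorem u7c_lip_U7c {f : ℂ × ℂ → ℂ} {K : NNReal} {t : Set (ℂ × ℂ)} (h : LipschitzOnWith K f t)
    {p q : ℂ × ℂ} (hp : p ∈ t) (hq : q ∈ t) :
    ‖f p - f q‖ ≤ K * (‖p.1 - q.1‖ + ‖p.2 - q.2‖) := by
  have h1 := h.dist_le_mul p hp q hq
  rw [dist_eq_norm] at h1
  refine h1.trans (mul_le_mul_of_nonneg_left ?_ K.2)
  rw [Prod.dist_eq, dist_eq_norm, dist_eq_norm]
  exact max_le (le_add_of_nonneg_right (norm_nonneg _)) (le_add_of_nonneg_left (norm_nonneg _))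

/-- **TARGET** -/
theorem sf_exists {κ L c : ℝ} {z F : ℂ × ℂ → ℂ} (h : LM κ L z)
    (hF : AnalyticAt ℂ F ((0 : ℂ), (0 : ℂ))) (hc : 0 < c)
    (hpos : ∀ᶠ p in 𝓝 ((0 : ℂ), (0 : ℂ)), 0 < rho z p → rho z p ≤ c * (F p).im) :
    ∃ κ₀ L₀ : ℝ, 0 < κ₀ ∧ κ₀ ≤ κ ∧ L ≤ L₀ ∧ ∀ κ' L' : ℝ, 0 < κ' → κ' ≤ κ₀ → L₀ ≤ L' →
      LM κ' L' z ∧ SF κ' L' z F := by
  have hG : AnalyticAt ℂ (fun p : ℂ × ℂ => fderiv ℂ F p ((0 : ℂ), (1 : ℂ))) ((0 : ℂ), (0 : ℂ)) :=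
    ((ContinuousLinearMap.apply ℂ ℂ ((0 : ℂ), (1 : ℂ))).analyticAt _).comp
      (AnalyticAt.fderiv hF)
  set G : ℂ × ℂ → ℂ := fun p : ℂ × ℂ => fderiv ℂ F p ((0 : ℂ), (1 : ℂ)) with hGd
  obtain ⟨K1, t1, ht1, hl1⟩ := (hF.contDiffAt (n := 1)).exists_lipschitzOnWith
  obtain ⟨K2, t2, ht2, hl2⟩ := (hG.contDiffAt (n := 1)).exists_lipschitzOnWith
  obtain ⟨κa, La, hκa, hLa, harea⟩ := area_le hF
  have hbF : ∀ᶠ p in 𝓝 ((0 : ℂ), (0 : ℂ)), ‖F p‖ < ‖F ((0 : ℂ), (0 : ℂ))‖ + 1 :=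
    hF.continuousAt.norm.eventually (Iio_mem_nhds (by linarith))
  have hbG : ∀ᶠ p in 𝓝 ((0 : ℂ), (0 : ℂ)), ‖G p‖ < ‖G ((0 : ℂ), (0 : ℂ))‖ + 1 :=
    hG.continuousAt.norm.eventually (Iio_mem_nhds (by linarith))
  have hev := (hF.eventually_analyticAt.and (hbF.and (hbG.and
    ((show ∀ᶠ p in 𝓝 ((0 : ℂ), (0 : ℂ)), p ∈ t1 from ht1).and
      ((show ∀ᶠ p in 𝓝 ((0 : ℂ), (0 : ℂ)), p ∈ t2 from ht2).and hpos)))))
  obtain ⟨r, hr, hball⟩ := Metric.eventually_nhds_iff.mp hev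
  have hκ0 := h.κ0
  have hL1 := h.L1
  set MF := ‖F ((0 : ℂ), (0 : ℂ))‖ with hMF
  set MG := ‖G ((0 : ℂ), (0 : ℂ))‖ with hMG
  have hMF0 : 0 ≤ MF := norm_nonneg _
  have hMG0 : 0 ≤ MG := norm_nonneg _
  have hK1 : (0 : ℝ) ≤ K1 := K1.2
  have hK2 : (0 : ℝ) ≤ K2 := K2.2
  refine ⟨min κ (min r κa), L + c + K1 + K2 + (MF + 1) + (MG + 1) + La,
    lt_min hκ0 (lt_min hr hκa), min_le_left _ _, by linarith, ?_⟩
  intro κ' L' hκ' hκ'0 hL'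
  have hκ'1 : κ' ≤ κ := hκ'0.trans (min_le_left _ _)
  have hκ'2 : κ' ≤ r := hκ'0.trans ((min_le_right _ _).trans (min_le_left _ _))
  have hκ'3 : κ' ≤ κa := hκ'0.trans ((min_le_right _ _).trans (min_le_right _ _))
  have hb : ∀ p : ℂ × ℂ, ‖p.1‖ < κ' → ‖p.2‖ < κ' → dist p ((0 : ℂ), (0 : ℂ)) < r := by
    intro p h1 h2
    rw [Prod.dist_eq, dist_zero_right, dist_zero_right]
    exact lt_of_lt_of_le (max_lt h1 h2) hκ'2
  have hdz : ∀ p : ℂ × ℂ, ‖p.1‖ < κ' → ‖p.2‖ < κ' → dz F p = G p := by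
    intro p h1 h2
    exact u7c_dz_U7c (hball (hb p h1 h2)).1.differentiableAt
  refine ⟨u7c_lm_U7c h hκ' hκ'1 (by linarith), ?_⟩
  constructor
  · intro p hp
    exact (hball (hb p hp.1 hp.2)).1.differentiableAt.differentiableWithinAt
  · intro p h1 h2
    have := (hball (hb p h1 h2)).2.1
    linarith
  · intro p q h1 h2 h3 h4
    refine (u7c_lip_U7c hl1 (hball (hb p h1 h2)).2.2.2.1 (hball (hb q h3 h4)).2.2.2.1).trans ?_
    exact mul_le_mul_of_nonneg_right (by linarith) (by positivity)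
  · intro p h1 h2
    rw [hdz p h1 h2]
    have := (hball (hb p h1 h2)).2.2.1
    linarith
  · intro p q h1 h2 h3 h4
    rw [hdz p h1 h2, hdz q h3 h4]
    refine (u7c_lip_U7c hl2 (hball (hb p h1 h2)).2.2.2.2.1 (hball (hb q h3 h4)).2.2.2.2.1).trans ?_
    exact mul_le_mul_of_nonneg_right (by linarith) (by positivity)
  · intro p h1 h2 h3
    have h4 := (hball (hb p h1 h2)).2.2.2.2.2 h3
    have h5 : 0 < (F p).im := by
      by_contra hcon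
      push Not at hcon
      have : c * (F p).im ≤ 0 := mul_nonpos_of_nonneg_of_nonpos hc.le hcon
      linarith
    exact h4.trans (mul_le_mul_of_nonneg_right (by linarith) h5.le)
  · intro ζ b hh hζ hhh
    refine le_trans (lintegral_mono_set ?_) ((harea ζ b hh (lt_of_lt_of_le hζ hκ'3) hhh).trans ?_)
    · intro η hη
      exact ⟨by have := hη.1; linarith, hη.2⟩
    · apply ENNReal.ofReal_le_ofReal
      exact mul_le_mul_of_nonneg_right (by linarith) (by positivity)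

end Pool.Agent.P157C
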