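import Mathlib
import Pool.Agent.P157C.SFx
import Pool.Agent.P157C.Hopf

set_option autoImplicit false

open MeasureTheory Metric Set Filter Topology Complex

open scoped ContDiff

namespace Pool.Agent.P157C

private theorem coord_lin_apply'_U7d (D : ℂ × ℂ →L[ℂ] ℂ) (u v : ℂ) : D (u, v) = u * D (1, 0) + v * D (0, 1) := by
  have h : ((u, v) : ℂ × ℂ) = u • ((1 : ℂ), (0 : ℂ)) + v • ((0 : ℂ), (1 : ℂ)) := by
    ext <;> simp
  rw [h, map_add, map_smul, map_smul, smul_eq_mul, smul_eq_mul]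

/-- the derivative of `(a, b) ↦ (W (a, b), b)` as an equivalence -/
private noncomputable def coord_lin'_U7d (D : ℂ × ℂ →L[ℂ] ℂ) (h : D (1, 0) ≠ 0) : (ℂ × ℂ) ≃L[ℂ] (ℂ × ℂ) :=
  ContinuousLinearEquiv.equivOfInverse (D.prod (ContinuousLinearMap.snd ℂ ℂ ℂ))
    (((D (1, 0))⁻¹ • (ContinuousLinearMap.fst ℂ ℂ ℂ - (D (0, 1)) • ContinuousLinearMap.snd ℂ ℂ ℂ)).prod
      (ContinuousLinearMap.snd ℂ ℂ ℂ))
    (by
      rintro ⟨u, v⟩
      ext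
      · simp [coord_lin_apply'_U7d D u v]
        field_simp
        ring
      · simp)
    (by
      rintro ⟨u, v⟩
      ext
      · simp only [ContinuousLinearMap.prod_apply, smul_apply, sub_apply,
          ContinuousLinearMap.coe_fst', ContinuousLinearMap.coe_snd', smul_eq_mul]
        rw [coord_lin_apply'_U7d]
        field_simp
        ring
      · simp)

private theorem coord_dz'_U7d {z : ℂ × ℂ → ℂ} {p : ℂ × ℂ} (h : DifferentiableAt ℂ z p) :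
    dz z p = fderiv ℂ z p (0, 1) := by
  have h1 : HasDerivAt (fun y : ℂ => ((p.1, y) : ℂ × ℂ)) ((0 : ℂ), (1 : ℂ)) p.2 :=
    (hasDerivAt_const p.2 p.1).prodMk (hasDerivAt_id p.2)
  have h2 : HasFDerivAt z (fderiv ℂ z p) ((fun y : ℂ => ((p.1, y) : ℂ × ℂ)) p.2) := h.hasFDerivAt
  exact (h2.comp_hasDerivAt p.2 h1).deriv

/-- **TARGET 1** -/
theorem coord' {W : ℂ × ℂ → ℂ} {O : Set (ℂ × ℂ)} (hO : IsOpen O) (h1 : ((1 : ℂ), (0 : ℂ)) ∈ O)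
    (hW : AnalyticOnNhd ℂ W O) (h0 : W (1, 0) = 0) (hd : deriv (fun a : ℂ => W (a, 0)) 1 ≠ 0)
    (hpos : ∀ q ∈ O, ‖q.1‖ ^ 2 + ‖q.2‖ ^ 2 < 1 → 0 < (W q).im) :
    ∃ (κ L : ℝ) (z : ℂ × ℂ → ℂ), LM κ L z ∧ z (0, 0) = 1 ∧ AnalyticAt ℂ z ((0 : ℂ), (0 : ℂ)) ∧
      (∀ p : ℂ × ℂ, ‖p.1‖ < κ → ‖p.2‖ < κ → (z p, p.2) ∈ O ∧ W (z p, p.2) = p.1) ∧
      ∀ᶠ q in 𝓝 ((1 : ℂ), (0 : ℂ)), z (W q, q.2) = q.1 := by
  have hWan : AnalyticAt ℂ W (1, 0) := hW _ h1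
  set D : ℂ × ℂ →L[ℂ] ℂ := fderiv ℂ W (1, 0) with hDdef
  have hWd : HasFDerivAt W D (1, 0) := hWan.differentiableAt.hasFDerivAt
  have hD10 : D (1, 0) ≠ 0 := by
    have h2 : HasDerivAt (fun a : ℂ => ((a, 0) : ℂ × ℂ)) ((1 : ℂ), (0 : ℂ)) 1 :=
      (hasDerivAt_id (1 : ℂ)).prodMk (hasDerivAt_const 1 0)
    have h3 : HasDerivAt (fun a : ℂ => W (a, 0)) (D (1, 0)) 1 := hWd.comp_hasDerivAt 1 h2
    rw [h3.deriv] at hd
    exact hd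
  let Φ : ℂ × ℂ → ℂ × ℂ := fun q => (W q, q.2)
  have hω : (ω : WithTop ℕ∞) ≠ 0 := by decide
  have hΦ : ContDiffAt ℂ ω Φ (1, 0) := (hWan.contDiffAt).prodMk contDiffAt_snd
  have hΦd : HasFDerivAt Φ ((coord_lin'_U7d D hD10 : (ℂ × ℂ) ≃L[ℂ] (ℂ × ℂ)) : ℂ × ℂ →L[ℂ] ℂ × ℂ) (1, 0) :=
    hWd.prodMk hasFDerivAt_snd
  have hΦ0 : Φ (1, 0) = (0, 0) := by simp [Φ, h0]
  let e := hΦ.toOpenPartialHomeomorph Φ hΦd hω
  have hesrc : ((1 : ℂ), (0 : ℂ)) ∈ e.source := hΦ.mem_toOpenPartialHomeomorph_source hΦd hω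
  have hecoe : ∀ q, e q = Φ q := fun q => rfl
  have hetgt : ((0 : ℂ), (0 : ℂ)) ∈ e.target := by
    have := e.map_source hesrc
    rw [hecoe, hΦ0] at this
    exact this
  have hes0 : e.symm (0, 0) = (1, 0) := by
    have := e.left_inv hesrc
    rw [hecoe, hΦ0] at this
    exact this
  have hΨ : ContDiffAt ℂ ω e.symm (0, 0) := by
    have := hΦ.to_localInverse hΦd hω
    rw [hΦ0] at this
    exact this
  let z : ℂ × ℂ → ℂ := fun p => (e.symm p).1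
  have hz0 : z (0, 0) = 1 := by simp [z, hes0]
  have hzω : ContDiffAt ℂ ω z (0, 0) := contDiffAt_fst.comp _ hΨ
  have hz : ContDiffAt ℂ 2 z (0, 0) := hzω.of_le le_top
  have hval : ∀ p ∈ e.target, e.symm p = (z p, p.2) ∧ W (z p, p.2) = p.1 := by
    intro p hp
    have h4 : Φ (e.symm p) = p := by rw [← hecoe]; exact e.right_inv hp
    have h5 : (e.symm p).2 = p.2 := by
      have := congrArg Prod.snd h4
      exact this
    have h6 : W (e.symm p) = p.1 := by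
      have := congrArg Prod.fst h4
      exact this
    have h7 : e.symm p = (z p, p.2) := by
      rw [← h5]
    exact ⟨h7, by rw [← h7]; exact h6⟩
  obtain ⟨K1, t1, ht1, hl1⟩ := (hz.of_le (by norm_num : (1 : WithTop ℕ∞) ≤ 2)).exists_lipschitzOnWith
  have hfz : ContDiffAt ℂ 1 (fderiv ℂ z) (0, 0) := hz.fderiv_right (by norm_num)
  obtain ⟨K2, t2, ht2, hl2⟩ := hfz.exists_lipschitzOnWith
  obtain ⟨K3, t3, ht3, hl3⟩ := (hWan.contDiffAt (n := 1)).exists_lipschitzOnWith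
  have hcont : ContinuousAt e.symm (0, 0) := hΨ.continuousAt
  have ht3O : ∀ᶠ p in 𝓝 ((0 : ℂ), (0 : ℂ)), e.symm p ∈ t3 ∩ O := by
    apply hcont.eventually
    rw [hes0]
    exact Filter.inter_mem ht3 (hO.mem_nhds h1)
  have hzc : ContinuousAt (fun p => ‖z p‖) (0, 0) := hz.continuousAt.norm
  have hzb : ∀ᶠ p in 𝓝 ((0 : ℂ), (0 : ℂ)), 1 / 2 < ‖z p‖ ∧ ‖z p‖ < 2 := by
    have hm : Set.Ioo (1 / 2 : ℝ) 2 ∈ 𝓝 ‖z (0, 0)‖ := by
      apply Ioo_mem_nhds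
      · rw [hz0]; norm_num
      · rw [hz0]; norm_num
    exact hzc hm
  have hfb : ∀ᶠ p in 𝓝 ((0 : ℂ), (0 : ℂ)), ‖fderiv ℂ z p‖ < ‖fderiv ℂ z (0, 0)‖ + 1 := by
    have hc : ContinuousAt (fun p => ‖fderiv ℂ z p‖) (0, 0) := hfz.continuousAt.norm
    have hm : Set.Iio (‖fderiv ℂ z (0, 0)‖ + 1) ∈ 𝓝 ‖fderiv ℂ z (0, 0)‖ := Iio_mem_nhds (by linarith)
    exact hc hm
  have hzd : ∀ᶠ p in 𝓝 ((0 : ℂ), (0 : ℂ)), DifferentiableAt ℂ z p := by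
    have := hz.eventually (by decide)
    filter_upwards [this] with p hp
    exact hp.differentiableAt two_ne_zero
  have hall : ∀ᶠ p in 𝓝 ((0 : ℂ), (0 : ℂ)), p ∈ e.target ∧ p ∈ t1 ∧ p ∈ t2 ∧ (e.symm p ∈ t3 ∩ O) ∧
      (1 / 2 < ‖z p‖ ∧ ‖z p‖ < 2) ∧ ‖fderiv ℂ z p‖ < ‖fderiv ℂ z (0, 0)‖ + 1 ∧ DifferentiableAt ℂ z p := by
    filter_upwards [e.open_target.mem_nhds hetgt, ht1, ht2, ht3O, hzb, hfb, hzd] with p a1 a2 a3 a4 a5 a6 a7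
    exact ⟨a1, a2, a3, a4, a5, a6, a7⟩
  obtain ⟨κ0, hκ0, hball⟩ := Metric.eventually_nhds_iff_ball.1 hall
  set κ : ℝ := min κ0 1 with hκdef
  have hκpos : 0 < κ := lt_min hκ0 one_pos
  have hB : ∀ p : ℂ × ℂ, ‖p.1‖ < κ → ‖p.2‖ < κ → p ∈ e.target ∧ p ∈ t1 ∧ p ∈ t2 ∧ (e.symm p ∈ t3 ∩ O) ∧
      (1 / 2 < ‖z p‖ ∧ ‖z p‖ < 2) ∧ ‖fderiv ℂ z p‖ < ‖fderiv ℂ z (0, 0)‖ + 1 ∧ DifferentiableAt ℂ z p := by
    intro p h4 h5
    apply hball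
    rw [mem_ball, show (((0 : ℂ), (0 : ℂ)) : ℂ × ℂ) = 0 from rfl, dist_zero_right, Prod.norm_def]
    exact max_lt (lt_of_lt_of_le h4 (min_le_left _ _)) (lt_of_lt_of_le h5 (min_le_left _ _))
  set L : ℝ := max (max 2 (K1 : ℝ)) (max (K2 : ℝ) (max (K3 : ℝ) (‖fderiv ℂ z (0, 0)‖ + 1))) with hLdef
  have hL2 : 2 ≤ L := le_trans (le_max_left _ _) (le_max_left _ _)
  have hLK1 : (K1 : ℝ) ≤ L := le_trans (le_max_right _ _) (le_max_left _ _)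
  have hLK2 : (K2 : ℝ) ≤ L := le_trans (le_max_left _ _) (le_max_right _ _)
  have hLK3 : (K3 : ℝ) ≤ L := le_trans (le_trans (le_max_left _ _) (le_max_right _ _)) (le_max_right _ _)
  have hLf : ‖fderiv ℂ z (0, 0)‖ + 1 ≤ L :=
    le_trans (le_trans (le_max_right _ _) (le_max_right _ _)) (le_max_right _ _)
  have hpq : ∀ p q : ℂ × ℂ, dist p q ≤ ‖p.1 - q.1‖ + ‖p.2 - q.2‖ := by
    intro p q
    rw [dist_eq_norm, Prod.norm_def]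
    exact max_le (le_add_of_nonneg_right (norm_nonneg _)) (le_add_of_nonneg_left (norm_nonneg _))
  refine ⟨κ, L, z, ?_, hz0, hzω.analyticAt, ?_, ?_⟩
  · refine ⟨hκpos, min_le_right _ _, by linarith, ?_, ?_, ?_, ?_, ?_, ?_, ?_, ?_⟩
    · rintro p ⟨h4, h5⟩
      exact (hB p h4 h5).2.2.2.2.2.2.differentiableWithinAt
    · intro p h4 h5
      exact (hB p h4 h5).2.2.2.2.1.1.le
    · intro p h4 h5
      exact le_trans (hB p h4 h5).2.2.2.2.1.2.le hL2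
    · intro p q h4 h5 h6 h7
      have h8 := hl1.dist_le_mul p (hB p h4 h5).2.1 q (hB q h6 h7).2.1
      rw [dist_eq_norm] at h8
      have h9 := hpq p q
      calc ‖z p - z q‖ ≤ (K1 : ℝ) * dist p q := h8
        _ ≤ L * dist p q := mul_le_mul_of_nonneg_right hLK1 dist_nonneg
        _ ≤ L * (‖p.1 - q.1‖ + ‖p.2 - q.2‖) := mul_le_mul_of_nonneg_left h9 (by linarith)
    · intro w w' y h4 h5 h6
      have a1 := hB (w, y) h4 h6
      have a2 := hB (w', y) h5 h6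
      obtain ⟨b1, b2⟩ := hval _ a1.1
      obtain ⟨b3, b4⟩ := hval _ a2.1
      have c1 := a1.2.2.2.1.1
      have c2 := a2.2.2.2.1.1
      rw [b1] at c1
      rw [b3] at c2
      have h8 := hl3.dist_le_mul _ c1 _ c2
      rw [b2, b4, dist_eq_norm] at h8
      have h9 : dist ((z (w, y), ((w, y) : ℂ × ℂ).2) : ℂ × ℂ) (z (w', y), ((w', y) : ℂ × ℂ).2) = ‖z (w, y) - z (w', y)‖ := by
        rw [Prod.dist_eq, dist_self, dist_eq_norm]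
        exact max_eq_left (norm_nonneg _)
      rw [h9] at h8
      exact le_trans h8 (mul_le_mul_of_nonneg_right hLK3 (norm_nonneg _))
    · intro p h4 h5
      have a := hB p h4 h5
      rw [coord_dz'_U7d a.2.2.2.2.2.2]
      calc ‖fderiv ℂ z p (0, 1)‖ ≤ ‖fderiv ℂ z p‖ * ‖((0 : ℂ), (1 : ℂ))‖ := ContinuousLinearMap.le_opNorm _ _
        _ = ‖fderiv ℂ z p‖ := by simp [Prod.norm_def]
        _ ≤ L := le_trans a.2.2.2.2.2.1.le hLf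
    · intro p q h4 h5 h6 h7
      have a := hB p h4 h5
      have b := hB q h6 h7
      rw [coord_dz'_U7d a.2.2.2.2.2.2, coord_dz'_U7d b.2.2.2.2.2.2]
      have h8 := hl2.dist_le_mul p a.2.2.1 q b.2.2.1
      rw [dist_eq_norm] at h8
      have h9 := hpq p q
      calc ‖fderiv ℂ z p (0, 1) - fderiv ℂ z q (0, 1)‖ = ‖(fderiv ℂ z p - fderiv ℂ z q) (0, 1)‖ := by
            rw [sub_apply]
        _ ≤ ‖fderiv ℂ z p - fderiv ℂ z q‖ * ‖((0 : ℂ), (1 : ℂ))‖ := ContinuousLinearMap.le_opNorm _ _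
        _ = ‖fderiv ℂ z p - fderiv ℂ z q‖ := by simp [Prod.norm_def]
        _ ≤ (K2 : ℝ) * dist p q := h8
        _ ≤ L * dist p q := mul_le_mul_of_nonneg_right hLK2 dist_nonneg
        _ ≤ L * (‖p.1 - q.1‖ + ‖p.2 - q.2‖) := mul_le_mul_of_nonneg_left h9 (by linarith)
    · intro p h4 h5 h6
      have a := hB p h4 h5
      obtain ⟨b1, b2⟩ := hval _ a.1
      have c1 := a.2.2.2.1.2
      rw [b1] at c1
      have h7 := hpos _ c1 (by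
        unfold rho at h6
        show ‖z p‖ ^ 2 + ‖p.2‖ ^ 2 < 1
        linarith)
      rw [b2] at h7
      exact h7
  · intro p h4 h5
    have a := hB p h4 h5
    obtain ⟨b1, b2⟩ := hval _ a.1
    have c1 := a.2.2.2.1.2
    rw [b1] at c1
    exact ⟨c1, b2⟩
  · filter_upwards [e.open_source.mem_nhds hesrc] with q hq
    have h4 := e.left_inv hq
    rw [hecoe] at h4
    show (e.symm (Φ q)).1 = q.1
    rw [h4]

/-- **TARGET 2** -/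
theorem lc_exists {K : ℕ} (W : Fin K → ℂ × ℂ → ℂ) (hW : ∀ k, AnalyticAt ℂ (W k) ((1 : ℂ), (0 : ℂ)))
    (h0 : ∀ k, W k (1, 0) = 0) {c : ℝ} (hc : 0 < c)
    (hpos : ∀ k, ∀ᶠ x in 𝓝 ((1 : ℂ), (0 : ℂ)), 0 < rb x → rb x ≤ c * (W k x).im)
    {ρ : ℝ} (hρ : 0 < ρ) :
    ∃ (r κ L : ℝ) (z : Fin K → ℂ × ℂ → ℂ), 0 < r ∧ r ≤ ρ ∧ 0 < κ ∧ κ ≤ 1 ∧ 1 ≤ L ∧
      LC r κ L 0 W z := by
  classical
  have hpt : ∀ k, ∃ O : Set (ℂ × ℂ), IsOpen O ∧ ((1 : ℂ), (0 : ℂ)) ∈ O ∧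
      AnalyticOnNhd ℂ (W k) O ∧ ∀ x ∈ O, 0 < rb x → rb x ≤ c * (W k x).im := by
    intro k
    have h1 : ∀ᶠ x in 𝓝 ((1 : ℂ), (0 : ℂ)), AnalyticAt ℂ (W k) x ∧
        (0 < rb x → rb x ≤ c * (W k x).im) := (hW k).eventually_analyticAt.and (hpos k)
    obtain ⟨O, hO, hOo, hOm⟩ := _root_.eventually_nhds_iff.1 h1
    exact ⟨O, hOo, hOm, fun x hx => (hO x hx).1, fun x hx => (hO x hx).2⟩
  choose O hOo hOm hOa hOp using hpt
  have him : ∀ {b t : ℝ}, 0 < b → b ≤ c * t → 0 < t := by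
    intro b t h1 h2
    have h3 : 0 < c * t := lt_of_lt_of_le h1 h2
    exact (pos_iff_pos_of_mul_pos h3).1 hc
  have hd : ∀ k, deriv (fun a : ℂ => W k (a, 0)) 1 ≠ 0 := by
    intro k
    have hline : AnalyticAt ℂ (fun a : ℂ => ((a, 0) : ℂ × ℂ)) 1 :=
      analyticAt_id.prod analyticAt_const
    refine hopf (AnalyticAt.fun_comp (f := fun a : ℂ => ((a, 0) : ℂ × ℂ)) (g := W k) (x := 1) (hW k) hline) (h0 k) ?_
    have hc1 : ContinuousAt (fun a : ℂ => ((a, 0) : ℂ × ℂ)) 1 := hline.continuousAt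
    have h2 := hc1.eventually (hpos k)
    filter_upwards [h2] with a ha hna
    have h3 : 0 < rb (a, 0) := by
      unfold rb
      have : ‖a‖ ^ 2 < 1 := by
        have h0a := norm_nonneg a
        nlinarith
      simp only [norm_zero]
      nlinarith
    exact him h3 (ha h3)
  have hco : ∀ k, ∃ (κ L : ℝ) (z : ℂ × ℂ → ℂ), LM κ L z ∧ z (0, 0) = 1 ∧
      AnalyticAt ℂ z ((0 : ℂ), (0 : ℂ)) ∧
      (∀ p : ℂ × ℂ, ‖p.1‖ < κ → ‖p.2‖ < κ → (z p, p.2) ∈ O k ∧ W k (z p, p.2) = p.1) ∧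
      ∀ᶠ q in 𝓝 ((1 : ℂ), (0 : ℂ)), z (W k q, q.2) = q.1 := by
    intro k
    refine coord' (hOo k) (hOm k) (hOa k) (h0 k) (hd k) ?_
    intro q hq hq1
    have h3 : 0 < rb q := by unfold rb; linarith
    exact him h3 (hOp k q hq h3)
  choose κ1 L1 z hlm hz0 hzan hzO hzl using hco
  have hlipk : ∀ k, ∃ (C : NNReal), ∃ t ∈ 𝓝 ((1 : ℂ), (0 : ℂ)), LipschitzOnWith C (W k) t := by
    intro k
    exact ((hW k).contDiffAt (n := 1)).exists_lipschitzOnWith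
  choose C t ht hlip using hlipk
  have hgood : ∀ᶠ x in 𝓝 ((1 : ℂ), (0 : ℂ)), ∀ k, DifferentiableAt ℂ (W k) x ∧
      (0 < rb x → rb x ≤ c * (W k x).im) ∧ z k (W k x, x.2) = x.1 ∧ x ∈ t k := by
    refine eventually_all.2 (fun k => ?_)
    filter_upwards [(hW k).eventually_analyticAt, hpos k, hzl k, ht k] with x h1 h2 h3 h4
    exact ⟨h1.differentiableAt, h2, h3, h4⟩
  obtain ⟨r', hr', hball⟩ := Metric.eventually_nhds_iff_ball.1 hgood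
  set r : ℝ := min r' (min ρ 1) with hrdef
  have hr : 0 < r := lt_min hr' (lt_min hρ one_pos)
  have hB : ∀ x ∈ Bx r, ∀ k, DifferentiableAt ℂ (W k) x ∧
      (0 < rb x → rb x ≤ c * (W k x).im) ∧ z k (W k x, x.2) = x.1 ∧ x ∈ t k := by
    rintro x ⟨hx1, hx2⟩
    apply hball
    rw [mem_ball, Prod.dist_eq, dist_eq_norm, dist_zero_right]
    exact max_lt (lt_of_lt_of_le hx1 (min_le_left _ _)) (lt_of_lt_of_le hx2 (min_le_left _ _))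
  -- the maps `p ↦ (z j p, p.2)`
  have hZc : ∀ j, ContinuousAt (fun p : ℂ × ℂ => ((z j p, p.2) : ℂ × ℂ)) ((0 : ℂ), (0 : ℂ)) :=
    fun j => (hzan j).continuousAt.prodMk continuousAt_snd
  have hZa : ∀ j, AnalyticAt ℂ (fun p : ℂ × ℂ => ((z j p, p.2) : ℂ × ℂ)) ((0 : ℂ), (0 : ℂ)) :=
    fun j => (hzan j).prod analyticAt_snd
  have hZ0 : ∀ j, ((z j (0, 0), (((0 : ℂ), (0 : ℂ)) : ℂ × ℂ).2) : ℂ × ℂ) = ((1 : ℂ), (0 : ℂ)) := by
    intro j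
    rw [hz0 j]
  have hT : ∀ j, Tendsto (fun p : ℂ × ℂ => ((z j p, p.2) : ℂ × ℂ)) (𝓝 ((0 : ℂ), (0 : ℂ)))
      (𝓝 ((1 : ℂ), (0 : ℂ))) := by
    intro j
    have h9 := (hZc j).tendsto
    rwa [hZ0 j] at h9
  have hsf : ∀ j k, ∃ κ₀ L₀ : ℝ, 0 < κ₀ ∧ κ₀ ≤ κ1 j ∧ L1 j ≤ L₀ ∧ ∀ κ' L' : ℝ, 0 < κ' →
      κ' ≤ κ₀ → L₀ ≤ L' →
      LM κ' L' (z j) ∧ SF κ' L' (z j) (fun p => W k (z j p, p.2)) := by
    intro j k
    refine sf_exists (hlm j) ?_ hc ?_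
    · refine AnalyticAt.fun_comp (f := fun p : ℂ × ℂ => ((z j p, p.2) : ℂ × ℂ)) (g := W k)
        (x := ((0 : ℂ), (0 : ℂ))) ?_ (hZa j)
      show AnalyticAt ℂ (W k) (z j (0, 0), (((0 : ℂ), (0 : ℂ)) : ℂ × ℂ).2)
      rw [hZ0 j]
      exact hW k
    · exact (hT j).eventually (hpos k)
  choose κ0 L0 hκ0 hκ01 hL01 hsf using hsf
  have hκz : ∀ j, ∃ κ2 : ℝ, 0 < κ2 ∧ ∀ p : ℂ × ℂ, ‖p.1‖ < κ2 → ‖p.2‖ < κ2 → (z j p, p.2) ∈ Bx r := by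
    intro j
    have h1 := hT j
    have h2 : ∀ᶠ x in 𝓝 ((1 : ℂ), (0 : ℂ)), x ∈ Bx r := by
      rw [Metric.eventually_nhds_iff_ball]
      refine ⟨r, hr, fun x hx => ?_⟩
      rw [mem_ball, Prod.dist_eq, dist_eq_norm, dist_zero_right] at hx
      exact ⟨lt_of_le_of_lt (le_max_left _ _) hx, lt_of_le_of_lt (le_max_right _ _) hx⟩
    obtain ⟨κ2, hκ2, hb⟩ := Metric.eventually_nhds_iff_ball.1 (h1.eventually h2)
    refine ⟨κ2, hκ2, fun p h3 h4 => hb p ?_⟩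
    rw [mem_ball, Prod.dist_eq, dist_zero_right, dist_zero_right]
    exact max_lt h3 h4
  choose κ2 hκ2 hκz using hκz
  -- choice of `κ` and `L`
  have hev : ∀ {a : ℝ}, 0 < a → ∀ᶠ s in 𝓝[>] (0 : ℝ), s ≤ a := by
    intro a ha
    have : Set.Iic a ∈ 𝓝 (0 : ℝ) := Iic_mem_nhds ha
    exact mem_nhdsWithin_of_mem_nhds this
  have hκex : ∀ᶠ s in 𝓝[>] (0 : ℝ), 0 < s ∧ s ≤ 1 ∧ (∀ j, s ≤ κ2 j) ∧ ∀ j k, s ≤ κ0 j k := by
    have e1 : ∀ᶠ s in 𝓝[>] (0 : ℝ), 0 < s := self_mem_nhdsWithin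
    have e2 : ∀ᶠ s in 𝓝[>] (0 : ℝ), ∀ j, s ≤ κ2 j := eventually_all.2 (fun j => hev (hκ2 j))
    have e3 : ∀ᶠ s in 𝓝[>] (0 : ℝ), ∀ j k, s ≤ κ0 j k :=
      eventually_all.2 (fun j => eventually_all.2 (fun k => hev (hκ0 j k)))
    filter_upwards [e1, hev one_pos, e2, e3] with s h1 h2 h3 h4
    exact ⟨h1, h2, h3, h4⟩
  obtain ⟨κ, hκ, hκ1, hκ2', hκ0'⟩ := hκex.exists
  have hLex : ∀ᶠ s in (atTop : Filter ℝ), 1 ≤ s ∧ c ≤ s ∧ (∀ k, (C k : ℝ) ≤ s) ∧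
      ∀ j k, L0 j k ≤ s := by
    have e2 : ∀ᶠ s in (atTop : Filter ℝ), ∀ k, (C k : ℝ) ≤ s :=
      eventually_all.2 (fun j => eventually_ge_atTop _)
    have e3 : ∀ᶠ s in (atTop : Filter ℝ), ∀ j k, L0 j k ≤ s :=
      eventually_all.2 (fun j => eventually_all.2 (fun k => eventually_ge_atTop _))
    filter_upwards [eventually_ge_atTop 1, eventually_ge_atTop c, e2, e3] with s h1 h2 h3 h4
    exact ⟨h1, h2, h3, h4⟩
  obtain ⟨L, hL1, hLc, hLC, hL0⟩ := hLex.exists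
  have hpq : ∀ p q : ℂ × ℂ, dist p q ≤ ‖p.1 - q.1‖ + ‖p.2 - q.2‖ := by
    intro p q
    rw [dist_eq_norm, Prod.norm_def]
    exact max_le (le_add_of_nonneg_right (norm_nonneg _)) (le_add_of_nonneg_left (norm_nonneg _))
  refine ⟨r, κ, L, z, hr, (min_le_right _ _).trans (min_le_left _ _), hκ, hκ1, hL1, ?_⟩
  refine ⟨hr, (min_le_right _ _).trans (min_le_right _ _), ?_, ?_, ?_, ?_, ?_, ?_, ?_, ?_⟩
  · intro k
    exact (hsf k k κ L hκ (hκ0' k k) (hL0 k k)).1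
  · intro k x hx
    exact (hB x hx k).1.differentiableWithinAt
  · intro k x hx y hy
    have h8 := (hlip k).dist_le_mul x (hB x hx k).2.2.2 y (hB y hy k).2.2.2
    rw [dist_eq_norm] at h8
    calc ‖W k x - W k y‖ ≤ (C k : ℝ) * dist x y := h8
      _ ≤ L * dist x y := mul_le_mul_of_nonneg_right (hLC k) dist_nonneg
      _ ≤ L * (‖x.1 - y.1‖ + ‖x.2 - y.2‖) := mul_le_mul_of_nonneg_left (hpq x y) (by linarith)
  · intro k
    rw [h0 k, norm_zero]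
  · intro k x hx hrb
    have h1 := (hB x hx k).2.1 hrb
    have h2 := him hrb h1
    exact h1.trans (mul_le_mul_of_nonneg_right hLc h2.le)
  · intro k p h1 h2
    refine ⟨hκz k p (h1.trans_le (hκ2' k)) (h2.trans_le (hκ2' k)), ?_⟩
    exact (hzO k p (h1.trans_le ((hκ0' k k).trans (hκ01 k k)))
      (h2.trans_le ((hκ0' k k).trans (hκ01 k k)))).2
  · intro k x hx _ _
    exact (hB x hx k).2.2.1
  · intro j k
    exact (hsf j k κ L hκ (hκ0' j k) (hL0 j k)).2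

end Pool.Agent.P157C
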