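import Mathlib
import Pool.Agent.Y263.SC.OpX
import Pool.Agent.P157C.DefsX

set_option autoImplicit false

set_option linter.unusedSectionVars false

set_option linter.unusedVariables false

open MeasureTheory Metric Set Filter Topology Complex

open scoped ContDiff

namespace Pool.Agent.P157C

open Pool.Agent.H720R2 Pool.Agent.H720R2.HP Pool.Agent.Y263.SC

variable {E : Type} [NormedAddCommGroup E] [NormedSpace ℂ E] [FiniteDimensional ℂ E]

variable {D : Set (ℂ × E)} {A : Set ℂ} {e : ℂ → ℂ × E → ℂ}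

variable {ι : Type} {S : Finset ι} {a : ι → ℂ} {R : ι → Set ℂ} {Cp : ℝ}

theorem polar_id {y : ℝ} (hy : 0 < y) : y ^ (2 - 1) • (y⁻¹ * √(y⁻¹)) = y ^ (-(1 / 2) : ℝ) := by
  rw [Real.rpow_neg hy.le, ← Real.sqrt_eq_rpow, Real.sqrt_inv]
  have : y ≠ 0 := hy.ne'
  simp only [Nat.add_one_sub_one, pow_one, smul_eq_mul]
  field_simp

theorem inv32_ball_int (w : ℂ) (r : ℝ) :
    IntegrableOn (fun ζ : ℂ => ‖w - ζ‖⁻¹ * √(‖w - ζ‖⁻¹)) (ball w r) := by
  have h : IntegrableOn (fun w : ℂ => ‖w‖⁻¹ * √(‖w‖⁻¹)) (ball 0 r) := by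
    rcases le_or_gt r 0 with hr | hr
    · rw [ball_eq_empty.2 hr]
      exact integrableOn_empty
    rw [integrableOn_fun_norm_addHaar (volume : Measure ℂ) (f := fun y : ℝ => y⁻¹ * √(y⁻¹)) (r := r)]
    rw [Complex.finrank_real_complex]
    have h1 : IntegrableOn (fun y : ℝ => y ^ (-(1 / 2) : ℝ)) (Ioo 0 r) :=
      (intervalIntegral.integrableOn_Ioo_rpow_iff hr).2 (by norm_num)
    refine h1.congr_fun ?_ measurableSet_Ioo
    intro y hy
    exact (polar_id hy.1).symm
  have h2 : Integrable ((ball (0 : ℂ) r).indicator (fun w : ℂ => ‖w‖⁻¹ * √(‖w‖⁻¹))) :=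
    (integrable_indicator_iff measurableSet_ball).2 h
  have h3 := h2.comp_sub_left w
  have h4 : (fun t => (ball (0 : ℂ) r).indicator (fun w : ℂ => ‖w‖⁻¹ * √(‖w‖⁻¹)) (w - t)) =
      (ball w r).indicator (fun ζ : ℂ => ‖w - ζ‖⁻¹ * √(‖w - ζ‖⁻¹)) := by
    funext t
    by_cases ht : t ∈ ball w r
    · have ht' : w - t ∈ ball (0 : ℂ) r := by
        rw [mem_ball, dist_comm, dist_eq_norm] at ht
        rwa [mem_ball_zero_iff]
      rw [indicator_of_mem ht, indicator_of_mem ht']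
    · have ht' : w - t ∉ ball (0 : ℂ) r := by
        rw [mem_ball, dist_comm, dist_eq_norm] at ht
        rwa [mem_ball_zero_iff]
      rw [indicator_of_notMem ht, indicator_of_notMem ht']
  rw [h4] at h3
  exact (integrable_indicator_iff measurableSet_ball).1 h3

theorem inv32_ball_eq (w : ℂ) {r : ℝ} (hr : 0 ≤ r) :
    ∫ ζ in ball w r, ‖w - ζ‖⁻¹ * √(‖w - ζ‖⁻¹) = 4 * Real.pi * √r := by
  have h1 : ∫ ζ in ball w r, ‖w - ζ‖⁻¹ * √(‖w - ζ‖⁻¹) =
      ∫ ζ : ℂ, (Iio r).indicator (fun y : ℝ => y⁻¹ * √(y⁻¹)) ‖ζ‖ := by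
    rw [← integral_indicator measurableSet_ball,
      ← integral_sub_left_eq_self (fun ζ : ℂ => (Iio r).indicator (fun y : ℝ => y⁻¹ * √(y⁻¹)) ‖ζ‖) _ w]
    congr 1
    funext t
    by_cases ht : t ∈ ball w r
    · have ht' : ‖w - t‖ ∈ Iio r := by
        rw [mem_ball, dist_comm, dist_eq_norm] at ht
        exact ht
      rw [indicator_of_mem ht, indicator_of_mem ht']
    · have ht' : ‖w - t‖ ∉ Iio r := by
        rw [mem_ball, dist_comm, dist_eq_norm] at ht
        exact ht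
      rw [indicator_of_notMem ht, indicator_of_notMem ht']
  rw [h1, integral_fun_norm_addHaar (volume : Measure ℂ), Complex.finrank_real_complex]
  have h2 : (volume : Measure ℂ).real (ball 0 1) = Real.pi := by
    rw [Measure.real, Complex.volume_ball]
    simp
  have h3 : ∫ y in Ioi (0 : ℝ), y ^ (2 - 1) • (Iio r).indicator (fun y : ℝ => y⁻¹ * √(y⁻¹)) y =
      2 * √r := by
    have : ∀ y ∈ Ioi (0 : ℝ), y ^ (2 - 1) • (Iio r).indicator (fun y : ℝ => y⁻¹ * √(y⁻¹)) y =
        (Iio r).indicator (fun y : ℝ => y ^ (-(1 / 2) : ℝ)) y := by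
      intro y hy
      by_cases h : y ∈ Iio r
      · rw [indicator_of_mem h, indicator_of_mem h]
        exact polar_id hy
      · rw [indicator_of_notMem h, indicator_of_notMem h, smul_zero]
    rw [setIntegral_congr_fun measurableSet_Ioi this, setIntegral_indicator measurableSet_Iio,
      Ioi_inter_Iio, ← integral_Ioc_eq_integral_Ioo, ← intervalIntegral.integral_of_le hr,
      integral_rpow (Or.inl (by norm_num)), Real.sqrt_eq_rpow]
    have h5 : (-(1 / 2) + 1 : ℝ) = 1 / 2 := by norm_num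
    rw [h5, Real.zero_rpow (by norm_num)]
    ring
  rw [h3, h2]
  simp only [nsmul_eq_mul, smul_eq_mul]
  push_cast
  ring

/-- the singular kernel -/
noncomputable def sk (h : ℝ) (w ζ : ℂ) : ℝ := ‖w - ζ‖⁻¹ * (1 + √(5 * h / ‖w - ζ‖))

theorem sk_nonneg (h : ℝ) (w ζ : ℂ) : 0 ≤ sk h w ζ := by unfold sk; positivity

theorem sk_eq {h : ℝ} (hh : 0 ≤ h) (w ζ : ℂ) :
    sk h w ζ = ‖w - ζ‖⁻¹ + √(5 * h) * (‖w - ζ‖⁻¹ * √(‖w - ζ‖⁻¹)) := by
  unfold sk
  rw [div_eq_mul_inv, Real.sqrt_mul (by positivity)]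
  ring

theorem sk_int {h : ℝ} (hh : 0 ≤ h) (w : ℂ) (r : ℝ) : IntegrableOn (sk h w) (ball w r) := by
  have h1 : sk h w = fun ζ => ‖w - ζ‖⁻¹ + √(5 * h) * (‖w - ζ‖⁻¹ * √(‖w - ζ‖⁻¹)) := by
    funext ζ
    exact sk_eq hh w ζ
  rw [h1]
  exact (inv_ball_int w r).add ((inv32_ball_int w r).const_mul _)

theorem sk_int' {a : ℂ} (ha : 0 < a.im) (w : ℂ) : IntegrableOn (sk a.im w) (ball a (5 * a.im)) := by
  refine (sk_int ha.le w (‖w - a‖ + 5 * a.im)).mono_set (ball_subset_ball' ?_)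
  rw [dist_comm, dist_eq_norm]
  linarith

/-- the area integral of the singular kernel over a disc -/
theorem ball_intS {a w : ℂ} (ha : 0 < a.im) (hw : 0 < w.im) :
    ∫ ζ in ball a (5 * a.im), sk a.im w ζ ≤
      1200 * Real.pi * (a.im ^ 2 / ‖w - starRingEnd ℂ a‖) := by
  have hd := den_pos ha hw.le
  have hpi := Real.pi_pos
  have h0 := ball_int ha hw
  have hq : 0 ≤ Real.pi * (a.im ^ 2 / ‖w - starRingEnd ℂ a‖) := by positivity
  have hsub : ball a (5 * a.im) ⊆ ball w (‖w - a‖ + 5 * a.im) := by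
    refine ball_subset_ball' ?_
    rw [dist_comm, dist_eq_norm]
    linarith
  have hI1 : IntegrableOn (fun ζ : ℂ => ‖w - ζ‖⁻¹) (ball a (5 * a.im)) :=
    (inv_ball_int w (‖w - a‖ + 5 * a.im)).mono_set hsub
  have hI2 : IntegrableOn (fun ζ : ℂ => ‖w - ζ‖⁻¹ * √(‖w - ζ‖⁻¹)) (ball a (5 * a.im)) :=
    (inv32_ball_int w (‖w - a‖ + 5 * a.im)).mono_set hsub
  rcases le_or_gt (10 * a.im) ‖w - a‖ with h | h
  · have h6 : ∫ ζ in ball a (5 * a.im), sk a.im w ζ ≤
        ∫ ζ in ball a (5 * a.im), 2 * ‖w - ζ‖⁻¹ := by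
      refine setIntegral_mono_on (sk_int' ha w) (hI1.const_mul 2) measurableSet_ball ?_
      intro ζ hζ
      rw [mem_ball, dist_eq_norm] at hζ
      have h6 : ‖w - a‖ ≤ ‖w - ζ‖ + ‖ζ - a‖ := by
        have := norm_add_le (w - ζ) (ζ - a)
        rwa [sub_add_sub_cancel] at this
      have h7 : 5 * a.im ≤ ‖w - ζ‖ := by linarith
      have h8 : √(5 * a.im / ‖w - ζ‖) ≤ 1 := by
        have h8' : 5 * a.im / ‖w - ζ‖ ≤ 1 := by
          rw [div_le_one (by linarith)]
          exact h7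
        calc √(5 * a.im / ‖w - ζ‖) ≤ √1 := Real.sqrt_le_sqrt h8'
          _ = 1 := Real.sqrt_one
      unfold sk
      have h9 : 0 ≤ ‖w - ζ‖⁻¹ := by positivity
      nlinarith
    rw [integral_const_mul] at h6
    linarith
  · have h5 : ball a (5 * a.im) ⊆ ball w (15 * a.im) := by
      refine ball_subset_ball' ?_
      rw [dist_comm, dist_eq_norm]
      linarith
    have h4 : ‖w - starRingEnd ℂ a‖ ≤ 12 * a.im := by
      have h3 : ‖a - starRingEnd ℂ a‖ = 2 * a.im := by
        have : a - starRingEnd ℂ a = ((2 * a.im : ℝ) : ℂ) * I := by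
          apply Complex.ext <;> simp
          ring
        rw [this, norm_mul, norm_I, mul_one, Complex.norm_real, Real.norm_of_nonneg (by positivity)]
      have := norm_add_le (w - a) (a - starRingEnd ℂ a)
      rw [sub_add_sub_cancel, h3] at this
      linarith
    have h6 : ∫ ζ in ball a (5 * a.im), ‖w - ζ‖⁻¹ * √(‖w - ζ‖⁻¹) ≤ 4 * Real.pi * √(15 * a.im) := by
      rw [← inv32_ball_eq w (by positivity : 0 ≤ 15 * a.im)]
      exact setIntegral_mono_set (inv32_ball_int w _) (Eventually.of_forall fun ζ => by positivity)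
        h5.eventuallyLE
    have h7 : ∫ ζ in ball a (5 * a.im), sk a.im w ζ =
        (∫ ζ in ball a (5 * a.im), ‖w - ζ‖⁻¹) +
          √(5 * a.im) * ∫ ζ in ball a (5 * a.im), ‖w - ζ‖⁻¹ * √(‖w - ζ‖⁻¹) := by
      rw [← integral_const_mul, ← integral_add hI1 (hI2.const_mul _)]
      refine integral_congr_ae (Eventually.of_forall fun ζ => ?_)
      exact sk_eq ha.le w ζ
    have h8 : √(5 * a.im) * (4 * Real.pi * √(15 * a.im)) ≤ 35 * Real.pi * a.im := by
      have h9 : √(5 * a.im) * √(15 * a.im) ≤ 35 / 4 * a.im := by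
        rw [← Real.sqrt_mul (by positivity)]
        refine Real.sqrt_le_iff.2 ⟨by positivity, ?_⟩
        nlinarith [mul_pos ha ha]
      calc √(5 * a.im) * (4 * Real.pi * √(15 * a.im))
          = 4 * Real.pi * (√(5 * a.im) * √(15 * a.im)) := by ring
        _ ≤ 4 * Real.pi * (35 / 4 * a.im) := by gcongr
        _ = _ := by ring
    have h10 : a.im / 12 ≤ a.im ^ 2 / ‖w - starRingEnd ℂ a‖ := by
      rw [div_le_div_iff₀ (by norm_num) hd]
      nlinarith
    have h11 : √(5 * a.im) * ∫ ζ in ball a (5 * a.im), ‖w - ζ‖⁻¹ * √(‖w - ζ‖⁻¹) ≤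
        √(5 * a.im) * (4 * Real.pi * √(15 * a.im)) := by gcongr
    rw [h7]
    have h12 : 35 * Real.pi * a.im ≤ 420 * (Real.pi * (a.im ^ 2 / ‖w - starRingEnd ℂ a‖)) := by
      nlinarith
    linarith

theorem BK_leS (hr : Ov D) (hF : Fam S a R Cp) {μ : ℂ → ℂ} {K M : ℝ} {G : ℂ × E → ℂ}
    (hX : ExtS D A G M e) (hM0 : 0 ≤ M) (hD : Den A S a R μ K) {y : E} {ζ w : ℂ} {k : ι}
    (hk : k ∈ S) (hζ : ζ ∈ R k) (hw : (w, y) ∈ D) :
    ‖BK D e S a R μ y ζ w‖ ≤
      K / (a k).im * (M * (1 + √(5 * (a k).im / ‖w - ζ‖))) * ‖Wk S a k ζ w‖ := by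
  rw [BK_eq hF hk hζ hw, norm_mul, norm_mul]
  have hak := hF.ha k hk
  have hK0 := hD.hK0
  by_cases h : μ ζ = 0
  · rw [h, norm_zero, zero_mul, zero_mul]
    positivity
  · have h1 := hX.bd ζ (hD.hA ζ h) (w, y) hw
    have h2 : ζ.im ≤ 5 * (a k).im := by
      have h3 := (hF.hR k hk ζ hζ).2
      have h4 : (ζ - a k).im ≤ ‖ζ - a k‖ := (le_abs_self _).trans (Complex.abs_im_le_norm _)
      rw [Complex.sub_im] at h4
      linarith
    have h5 : M * (1 + √(ζ.im / ‖w - ζ‖)) ≤ M * (1 + √(5 * (a k).im / ‖w - ζ‖)) := by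
      gcongr
    have h6 := h1.trans h5
    gcongr
    exact hD.hK k hk ζ hζ

theorem BK_boundS (hr : Ov D) (hF : Fam S a R Cp) {μ : ℂ → ℂ} {K M : ℝ} {G : ℂ × E → ℂ}
    (hX : ExtS D A G M e) (hD : Den A S a R μ K) : ∃ ρ M' : ℝ, 0 ≤ ρ ∧ 0 ≤ M' ∧
      ∀ (y : E) (ζ w : ℂ),
      ‖BK D e S a R μ y ζ w‖ ≤ (ball (0 : ℂ) ρ).indicator (fun _ => M') ζ := by
  have hK0 := hD.hK0
  obtain ⟨M₁, hM₁⟩ := hX.qbd
  refine ⟨∑ k ∈ S, (‖a k‖ + 5 * |(a k).im|), ∑ k ∈ S, K / |(a k).im| * |M₁| * (6 * Real.exp Cp),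
    Finset.sum_nonneg fun k _ => by positivity, Finset.sum_nonneg fun k _ => by positivity,
    fun y ζ w => ?_⟩
  have hnn : 0 ≤ ∑ k ∈ S, K / |(a k).im| * |M₁| * (6 * Real.exp Cp) :=
    Finset.sum_nonneg fun k _ => by positivity
  by_cases h : ∀ k ∈ S, ζ ∉ R k
  · rw [BK_zero h, norm_zero]
    exact indicator_nonneg (fun _ _ => hnn) _
  · push Not at h
    obtain ⟨k, hk, hζ⟩ := h
    have hak := hF.ha k hk
    have hmem : ζ ∈ ball (0 : ℂ) (∑ k ∈ S, (‖a k‖ + 5 * |(a k).im|)) := by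
      rw [mem_ball_zero_iff]
      have h1 := (hF.hR k hk ζ hζ).2
      have h2 := norm_add_le (ζ - a k) (a k)
      rw [sub_add_cancel] at h2
      have h3 : ‖a k‖ + 5 * |(a k).im| ≤ ∑ k ∈ S, (‖a k‖ + 5 * |(a k).im|) :=
        Finset.single_le_sum (f := fun k => ‖a k‖ + 5 * |(a k).im|)
          (fun j _ => by positivity) hk
      rw [abs_of_pos hak] at h3
      linarith
    rw [indicator_of_mem hmem]
    by_cases hw : (w, y) ∈ D
    · have h0 : ‖BK D e S a R μ y ζ w‖ ≤ K / (a k).im * |M₁| * ‖Wk S a k ζ w‖ := by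
        rw [BK_eq hF hk hζ hw, norm_mul, norm_mul]
        by_cases h : μ ζ = 0
        · rw [h, norm_zero, zero_mul, zero_mul]
          positivity
        · have h1 := (hM₁ ζ (hD.hA ζ h) (w, y) hw).trans (le_abs_self M₁)
          gcongr
          exact hD.hK k hk ζ hζ
      refine h0.trans ?_
      have h4 := Wk_le' hF hk hζ (hr.im _ hw)
      have h5 : K / |(a k).im| * |M₁| * (6 * Real.exp Cp) ≤
          ∑ k ∈ S, K / |(a k).im| * |M₁| * (6 * Real.exp Cp) :=
        Finset.single_le_sum (f := fun k => K / |(a k).im| * |M₁| * (6 * Real.exp Cp))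
          (fun j _ => by positivity) hk
      rw [abs_of_pos hak] at h5
      refine le_trans ?_ h5
      gcongr
    · rw [BK_zero' hw, norm_zero]
      exact hnn

theorem BK_diffS (hr : Ov D) (hF : Fam S a R Cp) {μ : ℂ → ℂ} {K M : ℝ} {G : ℂ × E → ℂ}
    (hX : ExtS D A G M e) (hD : Den A S a R μ K) (ζ : ℂ) {w : ℂ} {y : E} (hp : (w, y) ∈ D) :
    DifferentiableAt ℂ (fun p : ℂ × E => BK D e S a R μ p.2 ζ p.1) (w, y) := by
  by_cases h : ∀ k ∈ S, ζ ∉ R k
  · have h1 : (fun p : ℂ × E => BK D e S a R μ p.2 ζ p.1) = fun _ => 0 := by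
      funext p
      exact BK_zero h
    rw [h1]
    exact differentiableAt_const _
  · push Not at h
    obtain ⟨k, hk, hζ⟩ := h
    have hζim := (hF.hR k hk ζ hζ).1
    have hev : (fun p : ℂ × E => BK D e S a R μ p.2 ζ p.1) =ᶠ[𝓝 (w, y)]
        fun p => μ ζ * e ζ p * Wk S a k ζ p.1 := by
      filter_upwards [hr.op.mem_nhds hp] with p hp'
      exact BK_eq hF hk hζ hp'
    refine DifferentiableAt.congr_of_eventuallyEq ?_ hev
    by_cases hμ : μ ζ = 0
    · simp only [hμ, zero_mul]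
      exact differentiableAt_const _
    · have hw : 0 < w.im := hr.im _ hp
      have h5 : DifferentiableAt ℂ (e ζ) (w, y) :=
        (hX.diff ζ (hD.hA ζ hμ) _ hp).differentiableAt (hr.op.mem_nhds hp)
      have h6 : DifferentiableAt ℂ (fun p : ℂ × E => Wk S a k ζ p.1) (w, y) :=
        DifferentiableAt.comp (f := fun p : ℂ × E => p.1) (w, y) (Wk_diff hF hk ζ hw)
          differentiableAt_fst
      exact (h5.const_mul _).fun_mul h6

/-- **TARGET.** The solution operator. -/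
theorem jones_opY (hr : Ov D) (hF : Fam S a R Cp) {μ : ℂ → ℂ} {K M : ℝ} {G : ℂ × E → ℂ}
    (hX : ExtS D A G M e) (hM0 : 0 ≤ M) (hD : Den A S a R μ K) : ∃ V : ℂ × E → ℂ,
      (∀ p ∈ D, ‖V p‖ ≤ 100000 * Real.exp Cp * K * M) ∧
      (∀ y : E, WD {w : ℂ | (w, y) ∈ D} (fun w => V (w, y)) (fun w => μ w * (G (w, y))⁻¹)) ∧
      ∀ w : ℂ, DifferentiableOn ℂ (fun y : E => V (w, y)) {y | (w, y) ∈ D} := by
  classical
  obtain ⟨ρ, M', hρ, hM', hb⟩ := BK_boundS hr hF hX hD
  have hK0 := hD.hK0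
  have hmeas := fun y => BK_meas hr hF hD.hμ hX.meas y
  have hopen : ∀ y : E, IsOpen {w : ℂ | (w, y) ∈ D} := fun y => slice_open hr y
  refine ⟨fun p => CT (BK D e S a R μ p.2) p.1, ?_, ?_, ?_⟩
  · rintro ⟨w, y⟩ hp
    have hw : 0 < w.im := hr.im _ hp
    set g : ι → ℝ := fun k => al (a k) w *
      Real.exp (-∑ j ∈ S.filter (fun j => (a j).im ≤ (a k).im), al (a j) w) with hg
    set c : ι → ℝ := fun k => K / (a k).im * M * (6 * (a k).im / ‖w - starRingEnd ℂ (a k)‖ *
      (Real.exp Cp *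
        Real.exp (-∑ j ∈ S.filter (fun j => (a j).im ≤ (a k).im), al (a j) w))) with hc
    have hc0 : ∀ k ∈ S, 0 ≤ c k := by
      intro k hk
      have := hF.ha k hk
      simp only [hc]
      positivity
    have hint : ∀ k ∈ S, Integrable ((ball (a k) (5 * (a k).im)).indicator
        (fun ζ => c k * sk (a k).im w ζ)) := by
      intro k hk
      refine (integrable_indicator_iff measurableSet_ball).2 ?_
      exact (sk_int' (hF.ha k hk) w).const_mul _
    have h1 : ∀ ζ, ‖BK D e S a R μ y ζ w / (w - ζ)‖ ≤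
        ∑ k ∈ S, (ball (a k) (5 * (a k).im)).indicator (fun ζ => c k * sk (a k).im w ζ) ζ := by
      intro ζ
      have hnn : ∀ k ∈ S, 0 ≤ (ball (a k) (5 * (a k).im)).indicator
          (fun ζ => c k * sk (a k).im w ζ) ζ := fun k hk =>
        indicator_nonneg (fun _ _ => mul_nonneg (hc0 k hk) (sk_nonneg _ _ _)) _
      by_cases h : ∀ k ∈ S, ζ ∉ R k
      · rw [BK_zero h, zero_div, norm_zero]
        exact Finset.sum_nonneg hnn
      · push Not at h
        obtain ⟨k, hk, hζ⟩ := h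
        refine le_trans ?_ (Finset.single_le_sum hnn hk)
        have hak := hF.ha k hk
        have hmem : ζ ∈ ball (a k) (5 * (a k).im) := by
          rw [mem_ball, dist_eq_norm]
          have := (hF.hR k hk ζ hζ).2
          linarith
        rw [indicator_of_mem hmem, norm_div, div_eq_mul_inv]
        have h2 := BK_leS hr hF hX hM0 hD hk hζ hp
        have h3 := Wk_le hF hk hζ hw
        have h4 : ‖BK D e S a R μ y ζ w‖ ≤ c k * (1 + √(5 * (a k).im / ‖w - ζ‖)) := by
          refine h2.trans ?_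
          simp only [hc]
          calc K / (a k).im * (M * (1 + √(5 * (a k).im / ‖w - ζ‖))) * ‖Wk S a k ζ w‖
              ≤ K / (a k).im * (M * (1 + √(5 * (a k).im / ‖w - ζ‖))) *
                (6 * (a k).im / ‖w - starRingEnd ℂ (a k)‖ * (Real.exp Cp *
        Real.exp (-∑ j ∈ S.filter (fun j => (a j).im ≤ (a k).im), al (a j) w))) := by gcongr
            _ = _ := by ring
        calc ‖BK D e S a R μ y ζ w‖ * ‖w - ζ‖⁻¹
            ≤ c k * (1 + √(5 * (a k).im / ‖w - ζ‖)) * ‖w - ζ‖⁻¹ := by gcongr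
          _ = c k * sk (a k).im w ζ := by unfold sk; ring
    have h2 : ‖∫ ζ, BK D e S a R μ y ζ w / (w - ζ)‖ ≤
        ∑ k ∈ S, c k * (1200 * Real.pi * ((a k).im ^ 2 / ‖w - starRingEnd ℂ (a k)‖)) := by
      refine (norm_integral_le_of_norm_le (integrable_finsetSum S (fun k hk => hint k hk))
        (Eventually.of_forall h1)).trans ?_
      rw [integral_finsetSum S (fun k hk => hint k hk)]
      refine Finset.sum_le_sum (fun k hk => ?_)
      rw [integral_indicator measurableSet_ball, integral_const_mul]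
      exact mul_le_mul_of_nonneg_left (ball_intS (hF.ha k hk) hw) (hc0 k hk)
    have h3 : ∀ k ∈ S, c k * (1200 * Real.pi * ((a k).im ^ 2 / ‖w - starRingEnd ℂ (a k)‖)) =
        Real.pi * (7200 * Real.exp Cp * K * M) * g k := by
      intro k hk
      have hak := hF.ha k hk
      have hdk := den_pos hak hw.le
      simp only [hc, hg, al]
      field_simp
      ring
    rw [Finset.sum_congr rfl h3, ← Finset.mul_sum] at h2
    have h4 : ∑ k ∈ S, g k ≤ 1 := by
      have h5 := Cor.exp_sum_le S (fun k => -(a k).im) (fun k => al (a k) w)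
        (fun k _ => al_nonneg _ _)
      have h6 : ∀ k, S.filter (fun j => -(a k).im ≤ -(a j).im) =
          S.filter (fun j => (a j).im ≤ (a k).im) := by
        intro k
        refine Finset.filter_congr (fun j _ => ?_)
        exact neg_le_neg_iff
      simp only [h6] at h5
      refine h5.trans ?_
      have := Real.exp_pos (-∑ j ∈ S, al (a j) w)
      linarith
    simp only [CT]
    rw [norm_mul, norm_div, norm_one, Complex.norm_real, Real.norm_of_nonneg Real.pi_pos.le]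
    have hpi := Real.pi_pos
    calc 1 / Real.pi * ‖∫ ζ, BK D e S a R μ y ζ w / (w - ζ)‖
        ≤ 1 / Real.pi * (Real.pi * (7200 * Real.exp Cp * K * M) * 1) := by
          gcongr
          refine h2.trans ?_
          gcongr
      _ = 7200 * Real.exp Cp * K * M := by field_simp
      _ ≤ _ := by gcongr; norm_num
  · intro y
    have h1 := CT_weak (hopen y) hρ hM' (hmeas y) (fun ζ w hw => by
      have h2 := BK_diffS hr hF hX hD ζ (w := w) (y := y) hw
      have h3 : DifferentiableAt ℂ (fun w : ℂ => (w, y)) w :=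
        differentiableAt_id.prodMk (differentiableAt_const _)
      exact (DifferentiableAt.comp (g := fun p : ℂ × E => BK D e S a R μ p.2 ζ p.1) w h2
        h3).differentiableWithinAt) (fun ζ w => hb y ζ w)
    refine h1.congr (hopen y) (fun _ _ => rfl) (fun z hz => ?_)
    have hz0 : 0 < z.im := hr.im _ hz
    by_cases h : ∀ k ∈ S, z ∉ R k
    · rw [BK_zero h, hD.h0 z h, zero_mul]
    · push Not at h
      obtain ⟨k, hk, hζ⟩ := h
      rw [BK_eq (D := D) hF hk hζ (show (z, y) ∈ D from hz), Wk_self hF hk hz0, mul_one]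
      by_cases hμ : μ z = 0
      · rw [hμ, zero_mul, zero_mul]
      · rw [hX.self z (hD.hA z hμ) y hz]
  · intro w
    have hO : IsOpen {y : E | (w, y) ∈ D} :=
      hr.op.preimage (by fun_prop : Continuous fun y : E => (w, y))
    have h1 := HP.differentiableOn_integral (X := E) (E := ℂ) volume
      (fun ζ y => BK D e S a R μ y ζ w / (w - ζ)) {y : E | (w, y) ∈ D} hO
      (fun y _ => (B_int (hmeas y) (fun ζ w => hb y ζ w) w w).aestronglyMeasurable)
      (fun ζ y hy => by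
        have h2 := BK_diffS hr hF hX hD ζ (w := w) (y := y) hy
        have h3 : DifferentiableAt ℂ (fun y : E => (w, y)) y :=
          (differentiableAt_const _).prodMk differentiableAt_id
        have h4 := DifferentiableAt.comp (g := fun p : ℂ × E => BK D e S a R μ p.2 ζ p.1) y h2 h3
        simp only [div_eq_mul_inv]
        exact (h4.mul_const _).differentiableWithinAt)
      (fun ζ => (ball (0 : ℂ) ρ).indicator (fun _ => M') ζ * ‖w - ζ‖⁻¹) (dom_int w ρ M')
      (fun ζ y _ => by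
        rw [norm_div, div_eq_mul_inv]
        exact mul_le_mul_of_nonneg_right (hb y ζ w) (by positivity))
    exact h1.const_mul _

end Pool.Agent.P157C
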