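import Mathlib
import Pool.Agent.Y263.SC.AsmX
import Pool.Agent.H788R3.Cor2.Base
import Pool.Agent.P157C.ExtA
import Pool.Agent.P157C.SiegZ

set_option autoImplicit false

open MeasureTheory Metric Set Filter Topology Complex

namespace Pool.Agent.P157C

open Pool.Agent.Y263.SC (Ov AA)

theorem s4_div_U4 {S : Set (ℂ × ℂ)} {a b : ℂ × ℂ → ℂ} (ha : DifferentiableOn ℂ a S)
    (hb : DifferentiableOn ℂ b S) (h : ∀ p ∈ S, b p ≠ 0) :
    DifferentiableOn ℂ (fun p => a p / b p) S := by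
  have h1 : (fun p => a p / b p) = fun p => a p * (b p)⁻¹ := by
    funext p
    rw [div_eq_mul_inv]
  rw [h1]
  exact ha.mul (hb.inv h)

theorem s4_addI_U4 {w : ℂ} (hw : 0 ≤ w.im) : 1 ≤ ‖w + I‖ := by
  have h1 := Complex.abs_im_le_norm (w + I)
  rw [Complex.add_im, Complex.I_im] at h1
  rw [abs_of_nonneg (by linarith)] at h1
  linarith

theorem s4_ne_U4 {w : ℂ} (hw : -1 < w.im) : w + I ≠ 0 := by
  intro h
  have h1 := congrArg Complex.im h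
  rw [Complex.add_im, Complex.I_im, Complex.zero_im] at h1
  linarith

theorem s4_norm_le_U4 {w : ℂ} (hw : 0 ≤ w.im) : ‖w‖ ≤ ‖w + I‖ := by
  rw [Complex.norm_def, Complex.norm_def]
  refine Real.sqrt_le_sqrt ?_
  rw [Complex.normSq_apply, Complex.normSq_apply, Complex.add_im, Complex.add_re, Complex.I_im,
    Complex.I_re]
  nlinarith

theorem s4_one_U4 {w : ℂ} (hw : 0 ≤ w.im) : ‖w / (w + I)‖ ≤ 1 := by
  rw [norm_div]
  exact div_le_one_of_le₀ (s4_norm_le_U4 hw) (norm_nonneg _)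

theorem s4_div_le_U4 {w : ℂ} (hw : 0 ≤ w.im) : ‖w / (w + I)‖ ≤ ‖w‖ := by
  rw [norm_div]
  exact div_le_self (norm_nonneg _) (s4_addI_U4 hw)

theorem s4_tend_U4 : Tendsto (fun w : ℂ => w / (w + I))
    (Bornology.cobounded ℂ ⊓ 𝓟 {w : ℂ | 0 ≤ w.im}) (𝓝 1) := by
  have h1 : Tendsto (fun w : ℂ => 1 - I * (w + I)⁻¹) (Bornology.cobounded ℂ) (𝓝 (1 - I * 0)) := by
    refine tendsto_const_nhds.sub (tendsto_const_nhds.mul ?_)
    exact tendsto_inv₀_cobounded.comp (_root_.tendsto_add_const_cobounded I)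
  rw [mul_zero, sub_zero] at h1
  refine (h1.mono_left inf_le_left).congr' ?_
  have h2 : ∀ᶠ w in Bornology.cobounded ℂ ⊓ 𝓟 {w : ℂ | 0 ≤ w.im}, w ∈ {w : ℂ | 0 ≤ w.im} :=
    (mem_inf_of_right (mem_principal_self _))
  filter_upwards [h2] with w hw
  have hw' : 0 ≤ w.im := hw
  have h3 := s4_ne_U4 (w := w) (by linarith)
  field_simp
  ring

theorem s4_small_U4 {δ' κ : ℝ} (h1 : δ' ≤ κ / 16) (hκ : 0 < κ) (hκ1 : κ ≤ 1) {ζ : ℂ}
    (hδ' : 0 < δ') (hζ : 0 < ζ.im) (h : ‖ζ / (ζ + I)‖ ≤ δ' / 2) : ‖ζ‖ < κ / 8 := by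
  rw [norm_div] at h
  have h2 := s4_addI_U4 hζ.le
  rw [div_le_iff₀ (by linarith)] at h
  have h3 : ‖ζ + I‖ ≤ ‖ζ‖ + 1 := by
    refine (norm_add_le _ _).trans ?_
    rw [Complex.norm_I]
  have h4 : δ' / 2 * ‖ζ + I‖ ≤ δ' / 2 * (‖ζ‖ + 1) := by
    exact mul_le_mul_of_nonneg_left h3 (by linarith)
  have h5 : δ' / 2 * ‖ζ‖ ≤ 1 / 2 * ‖ζ‖ :=
    mul_le_mul_of_nonneg_right (by linarith) (norm_nonneg _)
  nlinarith [norm_nonneg ζ]

theorem s4_lm_U4 {κ κ₁ L : ℝ} {z : ℂ × ℂ → ℂ} (h : LM κ L z) (h0 : 0 < κ₁) (h1 : κ₁ ≤ κ) :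
    LM κ₁ L z where
  κ0 := h0
  κ1 := h1.trans h.κ1
  L1 := h.L1
  diff := h.diff.mono fun p hp => ⟨hp.1.trans_le h1, hp.2.trans_le h1⟩
  lo p a b := h.lo p (a.trans_le h1) (b.trans_le h1)
  hi p a b := h.hi p (a.trans_le h1) (b.trans_le h1)
  lip p q a b c d := h.lip p q (a.trans_le h1) (b.trans_le h1) (c.trans_le h1) (d.trans_le h1)
  inj w w' y a b c := h.inj w w' y (a.trans_le h1) (b.trans_le h1) (c.trans_le h1)
  dbd p a b := h.dbd p (a.trans_le h1) (b.trans_le h1)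
  lip2 p q a b c d := h.lip2 p q (a.trans_le h1) (b.trans_le h1) (c.trans_le h1) (d.trans_le h1)
  im p a b c := h.im p (a.trans_le h1) (b.trans_le h1) c

theorem s4_sf_U4 {κ κ₁ L : ℝ} {z F : ℂ × ℂ → ℂ} (h : SF κ L z F) (h1 : κ₁ ≤ κ) :
    SF κ₁ L z F where
  diff := h.diff.mono fun p hp => ⟨hp.1.trans_le h1, hp.2.trans_le h1⟩
  bd p a b := h.bd p (a.trans_le h1) (b.trans_le h1)
  lip p q a b c d := h.lip p q (a.trans_le h1) (b.trans_le h1) (c.trans_le h1) (d.trans_le h1)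
  dbd p a b := h.dbd p (a.trans_le h1) (b.trans_le h1)
  dlip p q a b c d := h.dlip p q (a.trans_le h1) (b.trans_le h1) (c.trans_le h1) (d.trans_le h1)
  pos p a b c := h.pos p (a.trans_le h1) (b.trans_le h1) c
  area ζ b t a c := by
    refine (lintegral_mono_set ?_).trans (h.area ζ b t (a.trans_le h1) c)
    rintro η ⟨h2, h3⟩
    exact ⟨by linarith, h3⟩

theorem s4_box_open_U4 (κ : ℝ) : IsOpen {p : ℂ × ℂ | ‖p.1‖ < κ ∧ ‖p.2‖ < κ} :=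
  (isOpen_lt continuous_fst.norm continuous_const).inter
    (isOpen_lt continuous_snd.norm continuous_const)

theorem s4_DD_open_U4 {κ κ' L θ : ℝ} {z : ℂ × ℂ → ℂ} (h : LM κ L z) (hk : κ' ≤ κ) :
    IsOpen (DD z κ' θ) := by
  have hz : ContinuousOn (rho z) {p : ℂ × ℂ | ‖p.1‖ < κ ∧ ‖p.2‖ < κ} := by
    have h1 := h.diff.continuousOn
    unfold rho
    refine ContinuousOn.sub (ContinuousOn.sub continuousOn_const (h1.norm.pow 2)) ?_
    exact (continuous_snd.norm.pow 2).continuousOn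
  have h2 := (s4_box_open_U4 κ').inter (hz.isOpen_inter_preimage (s4_box_open_U4 κ) (isOpen_Ioi (a := θ)))
  have h3 : DD z κ' θ = {p : ℂ × ℂ | ‖p.1‖ < κ' ∧ ‖p.2‖ < κ'} ∩
      ({p : ℂ × ℂ | ‖p.1‖ < κ ∧ ‖p.2‖ < κ} ∩ rho z ⁻¹' Ioi θ) := by
    apply Set.Subset.antisymm
    · rintro p ⟨h4, h5, h6⟩
      exact ⟨⟨h4, h5⟩, ⟨by linarith, by linarith⟩, h6⟩
    · rintro p ⟨⟨h4, h5⟩, -, h6⟩
      exact ⟨h4, h5, h6⟩
  rw [h3]
  exact h2

theorem s4_fF_U4 {κ κ' L θ η : ℝ} {z F : ℂ × ℂ → ℂ} {f : ℂ → ℂ} (hL : 1 ≤ L) (h : SF κ L z F)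
    (hk : κ' ≤ κ) (hθ : 0 ≤ θ) (hη : 0 < η) (hf : DifferentiableOn ℂ f {w : ℂ | -η < w.im}) :
    DifferentiableOn ℂ (fun p => f (F p)) (DD z κ' θ) ∧ ∀ p ∈ DD z κ' θ, 0 < (F p).im := by
  have him : ∀ p ∈ DD z κ' θ, 0 < (F p).im := by
    rintro p ⟨h1, h2, h3⟩
    have h4 := h.pos p (h1.trans_le hk) (h2.trans_le hk) (hθ.trans_lt h3)
    have h5 : 0 < L * (F p).im := (hθ.trans_lt h3).trans_le h4
    exact (mul_pos_iff_of_pos_left (by linarith : (0:ℝ) < L)).1 h5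
  refine ⟨?_, him⟩
  refine hf.comp (h.diff.mono ?_) ?_
  · rintro p ⟨h1, h2, h3⟩
    exact ⟨h1.trans_le hk, h2.trans_le hk⟩
  · intro p hp
    have := him p hp
    show -η < (F p).im
    linarith

theorem s4_Dm_open_U4 {K : ℕ} {κ κ' L θ ε η : ℝ} {z : ℂ × ℂ → ℂ} {F : Fin K → ℂ × ℂ → ℂ}
    {f : Fin K → ℂ → ℂ} (hL : 1 ≤ L) (h : LM κ L z) (hF : ∀ j, SF κ L z (F j))
    (hk : κ' ≤ κ) (hθ : 0 ≤ θ) (hη : 0 < η) (hf : ∀ j, DifferentiableOn ℂ (f j) {w : ℂ | -η < w.im})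
    (I : Finset (Fin K)) : IsOpen (Dm z κ' θ F f I ε) := by
  rw [isOpen_iff_mem_nhds]
  rintro p ⟨hp, hpI⟩
  have hDo := s4_DD_open_U4 (κ' := κ') (θ := θ) h hk
  have h1 : ∀ᶠ q in 𝓝 p, q ∈ DD z κ' θ := hDo.mem_nhds hp
  have h2 : ∀ᶠ q in 𝓝 p, ∀ j ∈ I, ‖f j (F j q)‖ < ε := by
    rw [Filter.eventually_all_finset]
    intro j hj
    have h3 := (s4_fF_U4 hL (hF j) hk hθ hη (hf j)).1
    have h4 : ContinuousAt (fun q => ‖f j (F j q)‖) p :=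
      ((h3.continuousOn).continuousAt (hDo.mem_nhds hp)).norm
    exact h4.eventually_lt_const (hpI j hj)
  filter_upwards [h1, h2] with q a b
  exact ⟨a, b⟩

/-- **TARGET** -/
theorem step4 (K : ℕ) {r κ L r' ε Q : ℝ} (hr' : 0 < r') (hr : r' ≤ r) (hκ : 0 < κ) (hκ1 : κ ≤ 1)
    (hL : 1 ≤ L) (hε : 0 < ε) (hε1 : ε ≤ 1) (hQ : 0 ≤ Q) :
    ∃ ε₁ C r₁ σ₀ : ℝ, 0 < ε₁ ∧ ε₁ ≤ ε ∧ 0 ≤ C ∧ 0 < r₁ ∧ r₁ ≤ r' ∧ 0 < σ₀ ∧
    ∀ W z : Fin K → ℂ × ℂ → ℂ, LC r κ L σ₀ W z → ∀ (f : Fin K → ℂ → ℂ) (η : ℝ), 0 < η →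
      (∀ k, DifferentiableOn ℂ (f k) {w : ℂ | -η < w.im}) →
      (∀ k, ∀ w : ℂ, 0 ≤ w.im → ‖f k w‖ ≤ 1) →
      (∀ k, ∃ c : ℂ, Tendsto (f k) (Bornology.cobounded ℂ ⊓ 𝓟 {w : ℂ | 0 ≤ w.im}) (𝓝 c)) →
      ∀ G : ℂ × ℂ → ℂ, DifferentiableOn ℂ G {x | x ∈ Bx r ∧ 0 < rb x} →
      (∀ x ∈ Bx r, 0 < rb x → ‖G x‖ ≤ 1) →
      ∀ (I : Finset (Fin K)) (k : Fin K), k ∉ I →
        Bz (DB r' W f (insert k I) ε) W f G Q → Bz (DB r₁ W f I ε₁) W f G C := by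
  classical
  -- constants
  obtain ⟨κ₁, hκ₁⟩ : ∃ κ₁ : ℝ, κ₁ = min κ (r' / (4 * L)) := ⟨_, rfl⟩
  have hL0 : 0 < L := by linarith
  have hκ₁0 : 0 < κ₁ := by rw [hκ₁]; exact lt_min hκ (by positivity)
  have hκ₁κ : κ₁ ≤ κ := by rw [hκ₁]; exact min_le_left _ _
  have hκ₁r : κ₁ ≤ r' / (4 * L) := by rw [hκ₁]; exact min_le_right _ _
  have hκ₁1 : κ₁ ≤ 1 := hκ₁κ.trans hκ1
  have hLκ₁ : L * κ₁ ≤ r' / 4 := by
    calc L * κ₁ ≤ L * (r' / (4 * L)) := mul_le_mul_of_nonneg_left hκ₁r hL0.le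
      _ = r' / 4 := by field_simp
  have hκ₁r' : κ₁ < r' := by
    have : κ₁ ≤ L * κ₁ := le_mul_of_one_le_left hκ₁0.le hL
    linarith
  obtain ⟨ε₂, hε₂⟩ : ∃ ε₂ : ℝ, ε₂ = min ε (κ₁ / 16) := ⟨_, rfl⟩
  have hε₂0 : 0 < ε₂ := by rw [hε₂]; exact lt_min hε (by linarith)
  have hε₂ε : ε₂ ≤ ε := by rw [hε₂]; exact min_le_left _ _
  have hε₂κ : ε₂ ≤ κ₁ / 16 := by rw [hε₂]; exact min_le_right _ _
  have hext := fun n => extP_all n hκ₁0 hκ₁1 hL hε hε1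
  choose εn Cn hεn0 hεnε hCn0 hExt using hext
  obtain ⟨ε₁, hε₁0, hε₁ε, hε₁n⟩ : ∃ ε₁ : ℝ, 0 < ε₁ ∧ ε₁ ≤ ε ∧ ∀ n ≤ K, ε₁ ≤ εn n := by
    obtain ⟨m, hm, hmin⟩ := Finset.exists_min_image (Finset.range (K + 1)) εn ⟨0, by simp⟩
    exact ⟨εn m, hεn0 m, hεnε m, fun n hn => hmin n (Finset.mem_range.2 (by omega))⟩
  obtain ⟨Cm, hCm0, hCmn⟩ : ∃ Cm : ℝ, 0 ≤ Cm ∧ ∀ n ≤ K, Cn n ≤ Cm :=
    ⟨∑ n ∈ Finset.range (K + 1), Cn n, Finset.sum_nonneg fun n _ => hCn0 n, fun n hn =>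
      Finset.single_le_sum (fun i _ => hCn0 i) (Finset.mem_range.2 (by omega))⟩
  obtain ⟨C0, hC0⟩ := siegelZ 2 (Option (Fin K)) (ε := ε₂) (Q := Q) (M := Cm * Q) hε₂0
    (hε₂ε.trans hε1) hQ (mul_nonneg hCm0 hQ)
  obtain ⟨C1, hC1, hC11⟩ : ∃ C : ℝ, C0 ≤ C ∧ 1 ≤ C := ⟨max C0 1, le_max_left _ _, le_max_right _ _⟩
  obtain ⟨κ₂, hκ₂⟩ : ∃ κ₂ : ℝ, κ₂ = min (κ₁ / 8) (1 / (2 * C1)) := ⟨_, rfl⟩
  have hκ₂0 : 0 < κ₂ := by rw [hκ₂]; exact lt_min (by linarith) (by positivity)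
  have hκ₂8 : κ₂ ≤ κ₁ / 8 := by rw [hκ₂]; exact min_le_left _ _
  have hκ₂C : κ₂ ≤ 1 / (2 * C1) := by rw [hκ₂]; exact min_le_right _ _
  refine ⟨ε₁, 4 * C1, min r' (κ₂ / (4 * L)), min (κ₂ / 4) (r' / (2 * L)), hε₁0, hε₁ε,
    by linarith, lt_min hr' (by positivity), min_le_left _ _, lt_min (by linarith) (by positivity),
    ?_⟩
  intro W z hLC f η hη hf1 hf2 hf3 G hG1 hG2 I k hkI hBz
  obtain ⟨g, g₀, hg1, hg2, hg3, hg4, hg5⟩ := hBz
  obtain ⟨σ₀, hσ₀⟩ : ∃ σ₀ : ℝ, σ₀ = min (κ₂ / 4) (r' / (2 * L)) := ⟨_, rfl⟩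
  rw [← hσ₀] at hLC
  have hσ₀κ₂ : σ₀ ≤ κ₂ / 4 := by rw [hσ₀]; exact min_le_left _ _
  have hσ₀r : L * σ₀ ≤ r' / 2 := by
    calc L * σ₀ ≤ L * (r' / (2 * L)) := by
          rw [hσ₀]; exact mul_le_mul_of_nonneg_left (min_le_right _ _) hL0.le
      _ = r' / 2 := by field_simp
  have hσ₀κ : σ₀ < κ := by linarith
  have h10 : ((1 : ℂ), (0 : ℂ)) ∈ Bx r := by
    refine ⟨?_, ?_⟩
    · show ‖(1 : ℂ) - 1‖ < r
      rw [sub_self, norm_zero]
      exact hLC.r0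
    · show ‖(0 : ℂ)‖ < r
      rw [norm_zero]
      exact hLC.r0
  have hn0 : ‖(0 : ℂ)‖ < κ := by rw [norm_zero]; exact hκ
  -- the map `X`
  have hX : ∀ p : ℂ × ℂ, ‖p.1‖ < κ₁ → ‖p.2‖ < κ₁ → (z k p, p.2) ∈ Bx r' := by
    intro p h1 h2
    have h3 := hLC.ctr k
    have h4 : z k (W k (1, 0), 0) = 1 := hLC.z2 k (1, 0) h10 (h3.trans_lt hσ₀κ) hn0
    have h5 := (hLC.lm k).lip p (W k (1, 0), 0) (h1.trans_le hκ₁κ) (h2.trans_le hκ₁κ)
      (h3.trans_lt hσ₀κ) hn0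
    rw [h4] at h5
    simp only [sub_zero] at h5
    refine ⟨?_, h2.trans hκ₁r'⟩
    have h6 : ‖p.1 - W k (1, 0)‖ ≤ ‖p.1‖ + σ₀ := (norm_sub_le _ _).trans (by linarith)
    have h7 : L * ‖p.1‖ ≤ L * κ₁ := mul_le_mul_of_nonneg_left h1.le hL0.le
    have h8 : L * ‖p.2‖ < L * κ₁ := mul_lt_mul_of_pos_left h2 hL0
    have h9 : L * ‖p.1 - W k (1, 0)‖ ≤ L * (‖p.1‖ + σ₀) := mul_le_mul_of_nonneg_left h6 hL0.le
    show ‖z k p - 1‖ < r'
    nlinarith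
  obtain ⟨F, hFdef⟩ : ∃ F : Fin K → ℂ × ℂ → ℂ, ∀ j p, F j p = W j (z k p, p.2) :=
    ⟨fun j p => W j (z k p, p.2), fun _ _ => rfl⟩
  have hFeq : ∀ j, F j = fun p => W j (z k p, p.2) := fun j => funext (hFdef j)
  have hF : ∀ j, SF κ₁ L (z k) (F j) := by
    intro j
    rw [hFeq]
    exact s4_sf_U4 (hLC.sf k j) hκ₁κ
  have hlm : LM κ₁ L (z k) := s4_lm_U4 (hLC.lm k) hκ₁0 hκ₁κ
  have hFk : ∀ p : ℂ × ℂ, ‖p.1‖ < κ₁ → ‖p.2‖ < κ₁ → F k p = p.1 := by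
    intro p h1 h2
    rw [hFdef]
    exact (hLC.z1 k p (h1.trans_le hκ₁κ) (h2.trans_le hκ₁κ)).2
  have hXd : DifferentiableOn ℂ (fun p : ℂ × ℂ => (z k p, p.2)) {p | ‖p.1‖ < κ₁ ∧ ‖p.2‖ < κ₁} :=
    hlm.diff.prodMk differentiableOn_snd
  -- the set `Ω`
  obtain ⟨Ω, hΩdef⟩ : ∃ Ω : Set (ℂ × ℂ), Ω = Dm (z k) (κ₁ / 2) 0 F f (insert k I) ε := ⟨_, rfl⟩
  have hΩo : IsOpen Ω := by
    rw [hΩdef]
    exact s4_Dm_open_U4 hL hlm hF (by linarith) le_rfl hη hf1 _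
  have hΩbox : ∀ p ∈ Ω, ‖p.1‖ < κ₁ ∧ ‖p.2‖ < κ₁ := by
    intro p hp
    rw [hΩdef] at hp
    exact ⟨hp.1.1.trans (by linarith), hp.1.2.1.trans (by linarith)⟩
  have hΩmem : ∀ p ∈ Dm (z k) (κ₁ / 2) 0 F f I ε, ‖f k p.1‖ < ε → p ∈ Ω := by
    rintro p ⟨h1, h2⟩ h3
    rw [hΩdef]
    refine ⟨h1, fun j hj => ?_⟩
    rcases Finset.mem_insert.1 hj with rfl | hj
    · rw [hFk p (h1.1.trans (by linarith)) (h1.2.1.trans (by linarith))]
      exact h3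
    · exact h2 j hj
  have hXΩ : ∀ p ∈ Ω, (z k p, p.2) ∈ DB r' W f (insert k I) ε := by
    intro p hp
    obtain ⟨hb1, hb2⟩ := hΩbox p hp
    rw [hΩdef] at hp
    refine ⟨hX p hb1 hb2, hp.1.2.2, fun j hj => ?_⟩
    rw [← hFdef]
    exact hp.2 j hj
  obtain ⟨gv, hgv⟩ : ∃ gv : Option (Fin K) → ℂ × ℂ → ℂ, (∀ j, gv (some j) = g j) ∧ gv none = g₀ :=
    ⟨fun o => o.elim g₀ g, fun _ => rfl, rfl⟩
  have hgvd : ∀ o, DifferentiableOn ℂ (gv o) (DB r' W f (insert k I) ε) := by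
    rintro (_ | j)
    · rw [hgv.2]; exact hg2
    · rw [hgv.1]; exact hg1 j
  have hgvb : ∀ o, ∀ x ∈ DB r' W f (insert k I) ε, ‖gv o x‖ ≤ Q := by
    rintro (_ | j)
    · rw [hgv.2]; exact hg4
    · rw [hgv.1]; exact hg3 j
  have hgX : ∀ o, DifferentiableOn ℂ (fun p => gv o (z k p, p.2)) Ω := fun o =>
    (hgvd o).comp (hXd.mono hΩbox) hXΩ
  obtain ⟨v, hv1, hvm⟩ : ∃ v : Option (Fin K) → ℂ × ℂ → ℂ,
      (∀ o, ∀ p ∈ Ω, v o p = gv o (z k p, p.2)) ∧ ∀ o, Measurable (v o) := by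
    refine ⟨fun o => Ω.piecewise (fun p => gv o (z k p, p.2)) (fun _ => 0), ?_, ?_⟩
    · intro o p hp
      exact Set.piecewise_eq_of_mem _ _ _ hp
    · intro o
      exact ContinuousOn.measurable_piecewise (hgX o).continuousOn continuousOn_const
        hΩo.measurableSet
  have hvd : ∀ o, DifferentiableOn ℂ (v o) Ω := fun o => (hgX o).congr fun p hp => hv1 o p hp
  have hvb : ∀ o, ∀ p ∈ Ω, ‖v o p‖ ≤ Q := by
    intro o p hp
    rw [hv1 o p hp]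
    exact hgvb o _ (hXΩ p hp)
  -- the localizing functions
  obtain ⟨f', hf'0, hf'1⟩ : ∃ f' : Fin 2 → ℂ → ℂ, f' 0 = f k ∧ f' 1 = fun w => w / (w + Complex.I) :=
    ⟨![f k, fun w => w / (w + Complex.I)], rfl, rfl⟩
  obtain ⟨A, hAdef⟩ : ∃ A : Set ℂ, A = AA f' (ε₂ / 2) := ⟨_, rfl⟩
  have hA : ∀ ζ ∈ A, ‖ζ‖ < κ₁ / 8 ∧ ‖f k ζ‖ < ε := by
    intro ζ hζ
    rw [hAdef] at hζ
    obtain ⟨h1, h2⟩ := hζ
    refine ⟨?_, ?_⟩
    · have h3 := h2 1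
      rw [hf'1] at h3
      exact s4_small_U4 hε₂κ hκ₁0 hκ₁1 hε₂0 h1 h3
    · have h3 := h2 0
      rw [hf'0] at h3
      linarith
  have hIK : I.card ≤ K := by
    have := Finset.card_le_univ I
    rwa [Fintype.card_fin] at this
  -- functions `G'`
  obtain ⟨G', hG's, hG'n⟩ : ∃ G' : Option (Fin K) → ℂ × ℂ → ℂ,
      (∀ j p, G' (some j) p = f j (F j p)) ∧ (∀ p, G' none p = G (z k p, p.2)) :=
    ⟨fun o p => o.elim (G (z k p, p.2)) (fun j => f j (F j p)), fun _ _ => rfl, fun _ => rfl⟩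
  have hXr : ∀ p ∈ DD (z k) κ₁ 0, (z k p, p.2) ∈ {x | x ∈ Bx r ∧ 0 < rb x} := by
    rintro p ⟨h1, h2, h3⟩
    have h4 := hX p h1 h2
    exact ⟨⟨h4.1.trans_le hr, h4.2.trans_le hr⟩, h3⟩
  have hG'd : ∀ o, DifferentiableOn ℂ (G' o) (DD (z k) κ₁ 0) := by
    rintro (_ | j)
    · have h1 : G' none = fun p => G (z k p, p.2) := funext hG'n
      rw [h1]
      exact hG1.comp (hXd.mono fun p hp => ⟨hp.1, hp.2.1⟩) hXr
    · have h1 : G' (some j) = fun p => f j (F j p) := funext (hG's j)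
      rw [h1]
      exact (s4_fF_U4 hL (hF j) le_rfl le_rfl hη (hf1 j)).1
  have hG'b : ∀ o, ∀ p ∈ DD (z k) κ₁ 0, ‖G' o p‖ ≤ 1 := by
    rintro (_ | j) p hp
    · rw [hG'n]
      exact hG2 _ (hXr p hp).1 (hXr p hp).2
    · rw [hG's]
      exact hf2 j _ ((s4_fF_U4 hL (hF j) le_rfl le_rfl hη (hf1 j)).2 p hp).le
  have hDsub : ∀ {κ' θ ε' : ℝ}, κ' ≤ κ₁ → 0 ≤ θ → Dm (z k) κ' θ F f I ε' ⊆ DD (z k) κ₁ 0 := by
    rintro κ' θ ε' h1 h2 p ⟨⟨a, b, c⟩, _⟩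
    exact ⟨a.trans_le h1, b.trans_le h1, h2.trans_lt c⟩
  -- solutions for every `θ`
  have hsol : ∀ θ : ℝ, 0 < θ → ∃ (h : Fin K → ℂ × ℂ → ℂ) (h₀ : ℂ × ℂ → ℂ),
      (∀ i, DifferentiableOn ℂ (h i) (Dm (z k) κ₂ θ F f I ε₁)) ∧
      DifferentiableOn ℂ h₀ (Dm (z k) κ₂ θ F f I ε₁) ∧
      (∀ i, ∀ q ∈ Dm (z k) κ₂ θ F f I ε₁, ‖h i q‖ ≤ 4 * C1) ∧
      (∀ q ∈ Dm (z k) κ₂ θ F f I ε₁, ‖h₀ q‖ ≤ 4 * C1) ∧
      ∀ q ∈ Dm (z k) κ₂ θ F f I ε₁, ∑ i, f i (F i q) * h i q + G (z k q, q.2) * h₀ q = 1 := by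
    intro θ hθ
    obtain ⟨D', hD'⟩ : ∃ D' : Set (ℂ × ℂ), D' = Dm (z k) (κ₁ / 8) θ F f I ε₁ := ⟨_, rfl⟩
    have hD'DD : D' ⊆ DD (z k) κ₁ 0 := by
      rw [hD']
      exact hDsub (by linarith) hθ.le
    have hD'n : D' ⊆ Dm (z k) (κ₁ / 8) θ F f I (εn I.card) := by
      rw [hD']
      rintro p ⟨h1, h2⟩
      exact ⟨h1, fun j hj => (h2 j hj).trans_le (hε₁n _ hIK)⟩
    have hD'2 : D' ⊆ Dm (z k) (κ₁ / 2) 0 F f I ε := by
      rw [hD']
      rintro p ⟨⟨a, b, c⟩, h2⟩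
      exact ⟨⟨a.trans (by linarith), b.trans (by linarith), hθ.trans c⟩,
        fun j hj => (h2 j hj).trans_le hε₁ε⟩
    have hE := hExt I.card K (z k) F f η hlm hF hη hf1 hf2 hf3 θ hθ A (fun ζ hζ => (hA ζ hζ).1) I rfl
    have hE2 : ∀ o : Option (Fin K), ∃ e : ℂ → ℂ × ℂ → ℂ,
        ExtS D' A (fun p => (v o p)⁻¹) (Cm * Q) e := by
      intro o
      obtain ⟨e, he1, he2, he3, he4, he5⟩ := hE (v o) Q (hvm o) hQ
        (by
          intro ζ hζ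
          have h1 : MapsTo (fun η : ℂ => (ζ, η)) {η | (ζ, η) ∈ Dm (z k) (κ₁ / 2) 0 F f I ε} Ω :=
            fun η' hη' => hΩmem _ hη' (hA ζ hζ).2
          have h2 : DifferentiableOn ℂ (fun η : ℂ => (ζ, η))
              {η | (ζ, η) ∈ Dm (z k) (κ₁ / 2) 0 F f I ε} :=
            (differentiableOn_const _).prodMk differentiableOn_id
          exact (hvd o).comp h2 h1)
        (fun ζ hζ η' hη' => hvb o _ (hΩmem _ hη' (hA ζ hζ).2))
      refine ⟨e, ⟨?_, ?_, ?_, ?_, ?_⟩⟩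
      · intro y
        exact he1.comp (by fun_prop : Measurable fun q : ℂ × ℂ => (q.1, (q.2, y)))
      · intro ζ hζ y hy
        rw [inv_inv]
        exact he2 ζ hζ y (hD'n hy)
      · intro ζ hζ
        exact (he3 ζ hζ).mono hD'n
      · intro ζ hζ p hp
        refine (he4 ζ hζ p (hD'n hp)).trans ?_
        exact mul_le_mul_of_nonneg_right (mul_le_mul_of_nonneg_right (hCmn _ hIK) hQ)
          (by positivity)
      · obtain ⟨M', hM'⟩ := he5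
        exact ⟨M', fun ζ hζ p hp => hM' ζ hζ p (hD'n hp)⟩
    choose e he using hE2
    have hOv : Ov D' := by
      refine ⟨?_, ?_⟩
      · rw [hD']
        exact s4_Dm_open_U4 hL hlm hF (by linarith) hθ.le hη hf1 _
      · intro p hp
        have h1 := hD'DD hp
        exact hlm.im p h1.1 h1.2.1 h1.2.2
    have hsmall : ∀ p ∈ D', (∀ i, ‖f' i p.1‖ < ε₂) → p ∈ Ω := by
      intro p hp hi
      refine hΩmem p (hD'2 hp) ?_
      have := hi 0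
      rw [hf'0] at this
      exact this.trans_le hε₂ε
    obtain ⟨g', g₀', a1, a2, a3, a4, a5⟩ := hC0 ℂ D' hOv f' (min η (1 / 2))
      (lt_min hη (by norm_num))
      (by
        intro i
        fin_cases i
        · show DifferentiableOn ℂ (f' 0) _
          rw [hf'0]
          refine (hf1 k).mono ?_
          intro w hw
          have h1 : -min η (1 / 2) < w.im := hw
          have h2 := min_le_left η (1 / 2)
          show -η < w.im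
          linarith
        · show DifferentiableOn ℂ (f' 1) _
          rw [hf'1]
          refine DifferentiableOn.div differentiableOn_id
            (differentiableOn_id.add (differentiableOn_const _)) ?_
          intro w hw
          have h1 : -min η (1 / 2) < w.im := hw
          have h2 := min_le_right η (1 / 2)
          exact s4_ne_U4 (by linarith))
      (by
        intro i w hw
        fin_cases i
        · show ‖f' 0 w‖ ≤ 1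
          rw [hf'0]
          exact hf2 k w hw
        · show ‖f' 1 w‖ ≤ 1
          rw [hf'1]
          exact s4_one_U4 hw)
      (by
        intro i
        fin_cases i
        · show ∃ c : ℂ, Tendsto (f' 0) _ (𝓝 c)
          rw [hf'0]
          exact hf3 k
        · show ∃ c : ℂ, Tendsto (f' 1) _ (𝓝 c)
          rw [hf'1]
          exact ⟨1, s4_tend_U4⟩)
      G' v (fun o => (hG'd o).mono hD'DD) (fun o p hp => hG'b o p (hD'DD hp))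
      (fun o => (hvd o).mono fun p hp => hsmall p hp.1 hp.2)
      (fun o p hp hi => hvb o p (hsmall p hp hi))
      (by
        intro p hp hi
        have hpΩ := hsmall p hp hi
        have h1 := hg5 _ (hXΩ p hpΩ)
        rw [Fintype.sum_option, hG'n, hv1 _ p hpΩ, hgv.2, add_comm, ← h1]
        congr 1
        refine Finset.sum_congr rfl fun j _ => ?_
        rw [hG's, hv1 _ p hpΩ, hgv.1, hFdef])
      e (by rw [← hAdef]; exact he)
    -- the small set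
    have hsub2 : Dm (z k) κ₂ θ F f I ε₁ ⊆ D' := by
      rw [hD']
      rintro p ⟨⟨a, b, c⟩, h2⟩
      exact ⟨⟨a.trans_le hκ₂8, b.trans_le hκ₂8, c⟩, h2⟩
    obtain ⟨w', hw'⟩ : ∃ w' : ℂ × ℂ → ℂ, ∀ p, w' p = 1 - p.1 / (p.1 + Complex.I) * g' 1 p :=
      ⟨fun p => 1 - p.1 / (p.1 + Complex.I) * g' 1 p, fun _ => rfl⟩
    have hw'n : ∀ p ∈ Dm (z k) κ₂ θ F f I ε₁, 1 / 2 ≤ ‖w' p‖ := by
      intro p hp
      have him : 0 < p.1.im := hOv.im p (hsub2 hp)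
      have h1 : ‖p.1 / (p.1 + Complex.I)‖ ≤ 1 / (2 * C1) :=
        (s4_div_le_U4 him.le).trans (hp.1.1.le.trans hκ₂C)
      have h2 : ‖g' 1 p‖ ≤ C1 := (a3 _ p (hsub2 hp)).trans hC1
      have h3 : ‖p.1 / (p.1 + Complex.I) * g' 1 p‖ ≤ 1 / (2 * C1) * C1 := by
        rw [norm_mul]
        exact mul_le_mul h1 h2 (norm_nonneg _) (by positivity)
      have h4 : 1 / (2 * C1) * C1 = 1 / 2 := by
        field_simp
      rw [h4] at h3
      have h5 := norm_sub_norm_le (1 : ℂ) (p.1 / (p.1 + Complex.I) * g' 1 p)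
      rw [norm_one, ← hw'] at h5
      linarith
    have hw'0 : ∀ p ∈ Dm (z k) κ₂ θ F f I ε₁, w' p ≠ 0 := by
      intro p hp h
      have h1 := hw'n p hp
      rw [h, norm_zero] at h1
      linarith
    have hw'd : DifferentiableOn ℂ w' (Dm (z k) κ₂ θ F f I ε₁) := by
      have h1 : w' = fun p => 1 - p.1 / (p.1 + Complex.I) * g' 1 p := funext hw'
      rw [h1]
      refine (differentiableOn_const _).sub (DifferentiableOn.mul ?_ ((a1 _).mono hsub2))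
      refine s4_div_U4 differentiableOn_fst
        (differentiableOn_fst.add (differentiableOn_const _)) ?_
      intro p hp
      have him : 0 < p.1.im := hOv.im p (hsub2 hp)
      exact s4_ne_U4 (by linarith)
    have hbd : ∀ (p : ℂ × ℂ) (_ : p ∈ Dm (z k) κ₂ θ F f I ε₁) (a : ℂ), ‖a‖ ≤ 2 * C1 →
        ‖a / w' p‖ ≤ 4 * C1 := by
      intro p hp a ha
      have h1 := hw'n p hp
      rw [norm_div, div_le_iff₀ (by linarith)]
      nlinarith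
    obtain ⟨h', hh'⟩ : ∃ h' : Fin K → ℂ × ℂ → ℂ, ∀ j p,
        h' j p = (if j = k then g' 0 p else 0) + g₀' (some j) p :=
      ⟨fun j p => (if j = k then g' 0 p else 0) + g₀' (some j) p, fun _ _ => rfl⟩
    refine ⟨fun j p => h' j p / w' p, fun p => g₀' none p / w' p, ?_, ?_, ?_, ?_, ?_⟩
    · intro j
      refine s4_div_U4 ?_ hw'd hw'0
      have h1 : h' j = fun p => (if j = k then g' 0 p else 0) + g₀' (some j) p := funext (hh' j)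
      rw [h1]
      refine DifferentiableOn.add ?_ ((a2 _).mono hsub2)
      by_cases hjk : j = k
      · simp only [if_pos hjk]
        exact (a1 0).mono hsub2
      · simp only [if_neg hjk]
        exact differentiableOn_const _
    · exact s4_div_U4 ((a2 _).mono hsub2) hw'd hw'0
    · intro j p hp
      refine hbd p hp _ ?_
      rw [hh']
      have h1 := (a4 (some j) p (hsub2 hp)).trans hC1
      have h2 : ‖(if j = k then g' 0 p else 0 : ℂ)‖ ≤ C1 := by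
        split_ifs
        · exact (a3 0 p (hsub2 hp)).trans hC1
        · rw [norm_zero]
          linarith
      refine (norm_add_le _ _).trans ?_
      linarith
    · intro p hp
      refine hbd p hp _ ?_
      have h1 := (a4 none p (hsub2 hp)).trans hC1
      linarith
    · intro p hp
      have h1 := a5 p (hsub2 hp)
      rw [Fin.sum_univ_two, hf'0, hf'1, Fintype.sum_option, hG'n] at h1
      have hpb : ‖p.1‖ < κ₁ ∧ ‖p.2‖ < κ₁ :=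
        ⟨hp.1.1.trans (by linarith), hp.1.2.1.trans (by linarith)⟩
      have h2 : ∑ j : Fin K, f j (F j p) * h' j p + G (z k p, p.2) * g₀' none p = w' p := by
        have h3 : ∑ j : Fin K, f j (F j p) * h' j p =
            f k p.1 * g' 0 p + ∑ j : Fin K, G' (some j) p * g₀' (some j) p := by
          simp only [hh', mul_add, Finset.sum_add_distrib, hG's]
          congr 1
          rw [Finset.sum_eq_single k]
          · rw [if_pos rfl, hFk p hpb.1 hpb.2]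
          · intro j _ hj
            rw [if_neg hj, mul_zero]
          · intro h
            exact absurd (Finset.mem_univ k) h
        rw [h3, hw', ← h1]
        ring
      have h3 := hw'0 p hp
      have h4 : ∑ j : Fin K, f j (F j p) * (h' j p / w' p) + G (z k p, p.2) * (g₀' none p / w' p) =
          (∑ j : Fin K, f j (F j p) * h' j p + G (z k p, p.2) * g₀' none p) / w' p := by
        rw [add_div, Finset.sum_div, mul_div_assoc]
        congr 1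
        refine Finset.sum_congr rfl fun j _ => ?_
        rw [mul_div_assoc]
      rw [h4, h2, div_self h3]
  -- exhaustion
  obtain ⟨Bm, hBm⟩ : ∃ Bm : ℕ → Set (ℂ × ℂ), ∀ m, Bm m = Dm (z k) κ₂ (1 / ((m : ℝ) + 1)) F f I ε₁ :=
    ⟨fun m => Dm (z k) κ₂ (1 / ((m : ℝ) + 1)) F f I ε₁, fun _ => rfl⟩
  have hθm : ∀ m : ℕ, 0 < 1 / ((m : ℝ) + 1) := fun m => by positivity
  obtain ⟨h, h₀, b1, b2, b3, b4, b5⟩ := Pool.Agent.H788R3.Cor2.exhaust (N := K) (C := 4 * C1) Bm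
    (by
      intro m
      rw [hBm]
      exact s4_Dm_open_U4 hL hlm hF (by linarith) (hθm m).le hη hf1 _)
    (by
      intro m n hmn
      rw [hBm, hBm]
      rintro p ⟨⟨a, b, c⟩, h2⟩
      refine ⟨⟨a, b, ?_⟩, h2⟩
      refine lt_of_le_of_lt ?_ c
      have h3 : (m : ℝ) ≤ n := by exact_mod_cast hmn
      exact one_div_le_one_div_of_le (by positivity) (by linarith))
    (fun j p => f j (F j p)) (fun p => G (z k p, p.2))
    (by
      intro m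
      rw [hBm]
      exact hsol _ (hθm m))
  have hU : ∀ p ∈ Dm (z k) κ₂ 0 F f I ε₁, p ∈ ⋃ m, Bm m := by
    rintro p ⟨⟨a, b, c⟩, h2⟩
    obtain ⟨m, hm⟩ := exists_nat_one_div_lt c
    rw [mem_iUnion]
    refine ⟨m, ?_⟩
    rw [hBm]
    exact ⟨⟨a, b, hm⟩, h2⟩
  -- back to the ball
  have hr₁r : min r' (κ₂ / (4 * L)) ≤ r := (min_le_left _ _).trans hr
  have hΨ : ∀ x ∈ DB (min r' (κ₂ / (4 * L))) W f I ε₁,
      (z k (W k x, x.2) = x.1) ∧ (W k x, x.2) ∈ ⋃ m, Bm m := by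
    rintro x ⟨⟨h1, h2⟩, h3, h4⟩
    have hxr : x ∈ Bx r := ⟨h1.trans_le hr₁r, h2.trans_le hr₁r⟩
    have h5 := hLC.lip k x hxr (1, 0) h10
    simp only [sub_zero] at h5
    have h6 : ‖W k x‖ ≤ ‖W k x - W k (1, 0)‖ + ‖W k (1, 0)‖ := by
      have := norm_add_le (W k x - W k (1, 0)) (W k (1, 0))
      rwa [sub_add_cancel] at this
    have h7 : κ₂ / (4 * L) * L = κ₂ / 4 := by field_simp
    have h8 : L * ‖x.1 - 1‖ ≤ κ₂ / 4 := by
      have : L * ‖x.1 - 1‖ ≤ L * (κ₂ / (4 * L)) :=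
        mul_le_mul_of_nonneg_left (h1.le.trans (min_le_right _ _)) hL0.le
      linarith
    have h9 : L * ‖x.2‖ ≤ κ₂ / 4 := by
      have : L * ‖x.2‖ ≤ L * (κ₂ / (4 * L)) :=
        mul_le_mul_of_nonneg_left (h2.le.trans (min_le_right _ _)) hL0.le
      linarith
    have h11 := hLC.ctr k
    have hWk : ‖W k x‖ < κ₂ := by
      have h12 : L * (‖x.1 - 1‖ + ‖x.2‖) ≤ κ₂ / 2 := by
        rw [mul_add]
        linarith
      linarith
    have hx2 : ‖x.2‖ < κ₂ := by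
      have h12 : ‖x.2‖ ≤ L * ‖x.2‖ := le_mul_of_one_le_left (norm_nonneg _) hL
      linarith
    have hz2 : z k (W k x, x.2) = x.1 :=
      hLC.z2 k x hxr (hWk.trans (by linarith)) (hx2.trans (by linarith))
    refine ⟨hz2, hU _ ⟨⟨hWk, hx2, ?_⟩, ?_⟩⟩
    · show 0 < 1 - ‖z k (W k x, x.2)‖ ^ 2 - ‖x.2‖ ^ 2
      rw [hz2]
      exact h3
    · intro j hj
      rw [hFdef]
      show ‖f j (W j (z k (W k x, x.2), x.2))‖ < ε₁
      rw [hz2]
      exact h4 j hj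
  have hΨd : DifferentiableOn ℂ (fun x : ℂ × ℂ => (W k x, x.2))
      (DB (min r' (κ₂ / (4 * L))) W f I ε₁) :=
    ((hLC.diff k).mono fun x hx => ⟨hx.1.1.trans_le hr₁r, hx.1.2.trans_le hr₁r⟩).prodMk
      differentiableOn_snd
  have hΨm : MapsTo (fun x : ℂ × ℂ => (W k x, x.2)) (DB (min r' (κ₂ / (4 * L))) W f I ε₁)
      (⋃ m, Bm m) := fun x hx => (hΨ x hx).2
  refine ⟨fun j x => h j (W k x, x.2), fun x => h₀ (W k x, x.2), ?_, ?_, ?_, ?_, ?_⟩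
  · intro j
    exact (b1 j).comp hΨd hΨm
  · exact b2.comp hΨd hΨm
  · intro j x hx
    exact b3 j _ (hΨm hx)
  · intro x hx
    exact b4 _ (hΨm hx)
  · intro x hx
    have h1 := b5 _ (hΨm hx)
    simp only [hFdef, (hΨ x hx).1] at h1
    exact h1

end Pool.Agent.P157C
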