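import Mathlib
import Pool.Agent.P157C.Step4

set_option autoImplicit false

open MeasureTheory Metric Set Filter Topology Complex

namespace Pool.Agent.P157C

theorem LC.mono_σ {K : ℕ} {r κ L σ σ' : ℝ} {W z : Fin K → ℂ × ℂ → ℂ} (h : LC r κ L σ W z)
    (hσ : σ ≤ σ') : LC r κ L σ' W z :=
  { r0 := h.r0, r1 := h.r1, lm := h.lm, diff := h.diff, lip := h.lip,
    ctr := fun k => (h.ctr k).trans hσ, pos := h.pos, z1 := h.z1, z2 := h.z2, sf := h.sf }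

theorem locU_aux_U5 (K : ℕ) {r κ L δ : ℝ} (hr : 0 < r) (hκ : 0 < κ) (hκ1 : κ ≤ 1)
    (hL : 1 ≤ L) (hδ : 0 < δ) (hδ1 : δ ≤ 1) (n : ℕ) :
    ∃ ε C r₁ σ₀ : ℝ, 0 < ε ∧ ε ≤ 1 ∧ 0 ≤ C ∧ 0 < r₁ ∧ r₁ ≤ r ∧ 0 < σ₀ ∧
    ∀ W z : Fin K → ℂ × ℂ → ℂ, LC r κ L σ₀ W z → ∀ (f : Fin K → ℂ → ℂ) (η : ℝ), 0 < η →
      (∀ k, DifferentiableOn ℂ (f k) {w : ℂ | -η < w.im}) →
      (∀ k, ∀ w : ℂ, 0 ≤ w.im → ‖f k w‖ ≤ 1) →
      (∀ k, ∃ c : ℂ, Tendsto (f k) (Bornology.cobounded ℂ ⊓ 𝓟 {w : ℂ | 0 ≤ w.im}) (𝓝 c)) →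
      ∀ G : ℂ × ℂ → ℂ, DifferentiableOn ℂ G {x | x ∈ Bx r ∧ 0 < rb x} →
      (∀ x ∈ Bx r, 0 < rb x → ‖G x‖ ≤ 1) →
      (∀ x ∈ Bx r, 0 < rb x → (∀ k, ‖f k (W k x)‖ < δ) → δ ≤ ‖G x‖) →
      ∀ I : Finset (Fin K), I.card + n = K → Bz (DB r₁ W f I ε) W f G C := by
  induction n with
  | zero =>
    refine ⟨δ, 1 / δ, r, 1, hδ, hδ1, by positivity, hr, le_rfl, one_pos, ?_⟩
    intro W z hLC f η hη hf hfb hfc G hG hGb hGl I hI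
    have hI' : I = Finset.univ := by
      rw [← Finset.card_eq_iff_eq_univ]
      simpa using hI
    subst hI'
    have hGx : ∀ x ∈ DB r W f Finset.univ δ, δ ≤ ‖G x‖ := by
      intro x hx
      exact hGl x hx.1 hx.2.1 (fun k => hx.2.2 k (Finset.mem_univ k))
    have hG0 : ∀ x ∈ DB r W f Finset.univ δ, G x ≠ 0 := by
      intro x hx h0
      have := hGx x hx
      rw [h0, norm_zero] at this
      linarith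
    have hGd : DifferentiableOn ℂ G (DB r W f Finset.univ δ) :=
      hG.mono (fun x hx => ⟨hx.1, hx.2.1⟩)
    refine ⟨fun _ _ => 0, fun x => (G x)⁻¹, fun k => differentiableOn_const 0,
      hGd.inv hG0, ?_, ?_, ?_⟩
    · intro k x hx
      simp only [norm_zero]
      positivity
    · intro x hx
      rw [norm_inv, one_div]
      exact inv_anti₀ hδ (hGx x hx)
    · intro x hx
      simp [hG0 x hx]
  | succ n ih =>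
    obtain ⟨ε, C, r₁, σ₀, hε, hε1, hC, hr₁, hr₁r, hσ₀, H⟩ := ih
    obtain ⟨ε₁, C', r₂, σ₁, hε₁, hε₁ε, hC', hr₂, hr₂r₁, hσ₁, H'⟩ :=
      step4 K hr₁ hr₁r hκ hκ1 hL hε hε1 hC
    refine ⟨ε₁, C', r₂, min σ₀ σ₁, hε₁, hε₁ε.trans hε1, hC', hr₂, hr₂r₁.trans hr₁r,
      lt_min hσ₀ hσ₁, ?_⟩
    intro W z hLC f η hη hf hfb hfc G hG hGb hGl I hI
    have hcard : I.card < Fintype.card (Fin K) := by
      rw [Fintype.card_fin]; omega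
    obtain ⟨k, hk⟩ : ∃ k, k ∉ I := by
      by_contra hcon
      push Not at hcon
      have : I = Finset.univ := Finset.eq_univ_iff_forall.2 hcon
      rw [this, Finset.card_univ] at hcard
      exact lt_irrefl _ hcard
    have h1 := H W z (hLC.mono_σ (min_le_left _ _)) f η hη hf hfb hfc G hG hGb hGl (insert k I)
      (by rw [Finset.card_insert_of_notMem hk]; omega)
    exact H' W z (hLC.mono_σ (min_le_right _ _)) f η hη hf hfb hfc G hG hGb I k hk h1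

/-- **TARGET** -/
theorem locU (K : ℕ) {r κ L δ : ℝ} (hr : 0 < r) (hκ : 0 < κ) (hκ1 : κ ≤ 1)
    (hL : 1 ≤ L) (hδ : 0 < δ) (hδ1 : δ ≤ 1) :
    ∃ C r₁ σ₀ : ℝ, 0 < r₁ ∧ r₁ ≤ r ∧ 0 < σ₀ ∧
    ∀ W z : Fin K → ℂ × ℂ → ℂ, LC r κ L σ₀ W z → ∀ (f : Fin K → ℂ → ℂ) (η : ℝ), 0 < η →
      (∀ k, DifferentiableOn ℂ (f k) {w : ℂ | -η < w.im}) →
      (∀ k, ∀ w : ℂ, 0 ≤ w.im → ‖f k w‖ ≤ 1) →
      (∀ k, ∃ c : ℂ, Tendsto (f k) (Bornology.cobounded ℂ ⊓ 𝓟 {w : ℂ | 0 ≤ w.im}) (𝓝 c)) →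
      ∀ G : ℂ × ℂ → ℂ, DifferentiableOn ℂ G {x | x ∈ Bx r ∧ 0 < rb x} →
      (∀ x ∈ Bx r, 0 < rb x → ‖G x‖ ≤ 1) →
      (∀ x ∈ Bx r, 0 < rb x → (∀ k, ‖f k (W k x)‖ < δ) → δ ≤ ‖G x‖) →
      Bz {x | x ∈ Bx r₁ ∧ 0 < rb x} W f G C := by
  obtain ⟨ε, C, r₁, σ₀, hε, hε1, hC, hr₁, hr₁r, hσ₀, H⟩ := locU_aux_U5 K hr hκ hκ1 hL hδ hδ1 K
  refine ⟨C, r₁, σ₀, hr₁, hr₁r, hσ₀, ?_⟩
  intro W z hLC f η hη hf hfb hfc G hG hGb hGl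
  have h := H W z hLC f η hη hf hfb hfc G hG hGb hGl ∅ (by simp)
  have hD : DB r₁ W f ∅ ε = {x | x ∈ Bx r₁ ∧ 0 < rb x} := by
    ext x
    simp [DB]
  rwa [hD] at h

end Pool.Agent.P157C
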