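import Mathlib
import Pool.Agent.H788R3.Cor2.Base
import Pool.Agent.P157C.LocU

set_option autoImplicit false

open MeasureTheory Metric Set Filter Topology Complex

namespace Pool.Agent.P157C

namespace V6

/-- the map `φ` (with the parameter `-s` it is the map `ψ`) -/
noncomputable def ph (s : ℝ) (w : ℂ) : ℂ := (w + I * s) / (1 - I * s * w)

theorem ph_norm_aux {s : ℝ} {w : ℂ} (hw : ‖w‖ ≤ 1) : ‖I * s * w‖ ≤ |s| := by
  rw [norm_mul, norm_mul, Complex.norm_I, one_mul, Complex.norm_real, Real.norm_eq_abs]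
  calc |s| * ‖w‖ ≤ |s| * 1 := mul_le_mul_of_nonneg_left hw (abs_nonneg s)
    _ = |s| := mul_one _

theorem den_lo {s : ℝ} (hs : |s| ≤ 1 / 16) {w : ℂ} (hw : ‖w‖ ≤ 1) : 15 / 16 ≤ ‖1 - I * s * w‖ := by
  have h1 := ph_norm_aux (s := s) hw
  have h2 := norm_sub_norm_le (1 : ℂ) (I * s * w)
  rw [norm_one] at h2
  linarith

theorem den_hi {s : ℝ} (hs : |s| ≤ 1 / 16) {w : ℂ} (hw : ‖w‖ ≤ 1) : ‖1 - I * s * w‖ ≤ 17 / 16 := by
  have h1 := ph_norm_aux (s := s) hw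
  have h2 := norm_sub_le (1 : ℂ) (I * s * w)
  rw [norm_one] at h2
  linarith

theorem den_ne {s : ℝ} (hs : |s| ≤ 1 / 16) {w : ℂ} (hw : ‖w‖ ≤ 1) : 1 - I * s * w ≠ 0 := by
  intro h
  have := den_lo hs hw
  rw [h, norm_zero] at this
  linarith

theorem ph_sub {s : ℝ} (hs : |s| ≤ 1 / 16) {w : ℂ} (hw : ‖w‖ ≤ 1) : ‖ph s w - w‖ ≤ 4 * |s| := by
  have hne := den_ne hs hw
  have h1 : ph s w - w = I * s * (1 + w ^ 2) / (1 - I * s * w) := by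
    unfold ph
    rw [div_sub' hne, div_left_inj' hne]
    ring
  have h3 : ‖1 + w ^ 2‖ ≤ 2 := by
    refine (norm_add_le _ _).trans ?_
    rw [norm_one, norm_pow]
    have : ‖w‖ ^ 2 ≤ 1 := pow_le_one₀ (norm_nonneg _) hw
    linarith
  have h4 := den_lo hs hw
  rw [h1, norm_div, norm_mul, norm_mul, Complex.norm_I, one_mul, Complex.norm_real,
    Real.norm_eq_abs, div_le_iff₀ (by linarith)]
  have h5 : |s| * ‖1 + w ^ 2‖ ≤ |s| * 2 := mul_le_mul_of_nonneg_left h3 (abs_nonneg s)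
  have h6 : 4 * |s| * (15 / 16) ≤ 4 * |s| * ‖1 - I * s * w‖ :=
    mul_le_mul_of_nonneg_left h4 (by positivity)
  have := abs_nonneg s
  linarith

theorem ph_diff {s : ℝ} (hs : |s| ≤ 1 / 16) {w w' : ℂ} (hw : ‖w‖ ≤ 1) (hw' : ‖w'‖ ≤ 1) :
    ph s w - ph s w' = (1 - (s : ℂ) ^ 2) * (w - w') / ((1 - I * s * w) * (1 - I * s * w')) := by
  have h1 := den_ne hs hw
  have h2 := den_ne hs hw'
  unfold ph
  rw [div_sub_div _ _ h1 h2, div_left_inj' (mul_ne_zero h1 h2)]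
  linear_combination ((s : ℂ) ^ 2 * (w - w')) * Complex.I_sq

theorem s2_lo {s : ℝ} (hs : |s| ≤ 1 / 16) : 255 / 256 ≤ ‖(1 - (s : ℂ) ^ 2 : ℂ)‖ ∧
    ‖(1 - (s : ℂ) ^ 2 : ℂ)‖ ≤ 1 := by
  have h1 : (1 - (s : ℂ) ^ 2 : ℂ) = ((1 - s ^ 2 : ℝ) : ℂ) := by push_cast; ring
  have h2 : s ^ 2 ≤ (1 / 16) ^ 2 := by
    rw [← sq_abs]; exact pow_le_pow_left₀ (abs_nonneg _) hs 2
  rw [h1, Complex.norm_real, Real.norm_of_nonneg (by nlinarith)]
  constructor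
  · nlinarith
  · nlinarith [sq_nonneg s]

theorem ph_lip {s : ℝ} (hs : |s| ≤ 1 / 16) {w w' : ℂ} (hw : ‖w‖ ≤ 1) (hw' : ‖w'‖ ≤ 1) :
    ‖ph s w - ph s w'‖ ≤ 4 * ‖w - w'‖ := by
  obtain ⟨-, h1⟩ := s2_lo hs
  have h2 := den_lo hs hw
  have h3 := den_lo hs hw'
  rw [ph_diff hs hw hw', norm_div, norm_mul, norm_mul]
  have h4 : (15 / 16 : ℝ) * (15 / 16) ≤ ‖1 - I * s * w‖ * ‖1 - I * s * w'‖ :=
    mul_le_mul h2 h3 (by norm_num) (by linarith)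
  rw [div_le_iff₀ (by nlinarith)]
  have h5 : ‖(1 - (s : ℂ) ^ 2 : ℂ)‖ * ‖w - w'‖ ≤ 1 * ‖w - w'‖ :=
    mul_le_mul_of_nonneg_right h1 (norm_nonneg _)
  have h6 : 4 * ‖w - w'‖ * ((15 / 16 : ℝ) * (15 / 16)) ≤
      4 * ‖w - w'‖ * (‖1 - I * s * w‖ * ‖1 - I * s * w'‖) :=
    mul_le_mul_of_nonneg_left h4 (by positivity)
  have := norm_nonneg (w - w')
  nlinarith

theorem ph_inj {s : ℝ} (hs : |s| ≤ 1 / 16) {w w' : ℂ} (hw : ‖w‖ ≤ 1) (hw' : ‖w'‖ ≤ 1) :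
    ‖w - w'‖ ≤ 3 * ‖ph s w - ph s w'‖ := by
  obtain ⟨h1, -⟩ := s2_lo hs
  have h2 := den_lo hs hw
  have h3 := den_lo hs hw'
  have h2' := den_hi hs hw
  have h3' := den_hi hs hw'
  rw [ph_diff hs hw hw', norm_div, norm_mul, norm_mul]
  have h0 : 0 < ‖1 - I * s * w‖ * ‖1 - I * s * w'‖ := by
    apply mul_pos <;> linarith
  have h4 : ‖1 - I * s * w‖ * ‖1 - I * s * w'‖ ≤ (17 / 16 : ℝ) * (17 / 16) :=
    mul_le_mul h2' h3' (norm_nonneg _) (by norm_num)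
  rw [mul_div_assoc', le_div_iff₀ h0]
  have h5 : 255 / 256 * ‖w - w'‖ ≤ ‖(1 - (s : ℂ) ^ 2 : ℂ)‖ * ‖w - w'‖ :=
    mul_le_mul_of_nonneg_right h1 (norm_nonneg _)
  have h6 : ‖w - w'‖ * (‖1 - I * s * w‖ * ‖1 - I * s * w'‖) ≤
      ‖w - w'‖ * ((17 / 16 : ℝ) * (17 / 16)) :=
    mul_le_mul_of_nonneg_left h4 (norm_nonneg _)
  have := norm_nonneg (w - w')
  nlinarith

theorem ph_ps {s : ℝ} (hs : |s| ≤ 1 / 16) {u : ℂ} (hu : ‖u‖ ≤ 1) : ph s (ph (-s) u) = u := by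
  have h1 : 1 - I * ((-s : ℝ) : ℂ) * u ≠ 0 := den_ne (by rwa [abs_neg]) hu
  have h2 : (1 - (s : ℂ) ^ 2 : ℂ) ≠ 0 := by
    intro h
    have := (s2_lo hs).1
    rw [h, norm_zero] at this
    linarith
  have e1 : ph (-s) u + I * s = (1 - (s : ℂ) ^ 2) * u / (1 - I * ((-s : ℝ) : ℂ) * u) := by
    unfold ph
    rw [div_add' _ _ _ h1, div_left_inj' h1]
    push_cast
    linear_combination ((s : ℂ) ^ 2 * u) * Complex.I_sq
  have e2 : 1 - I * s * ph (-s) u = (1 - (s : ℂ) ^ 2) / (1 - I * ((-s : ℝ) : ℂ) * u) := by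
    unfold ph
    rw [mul_div_assoc', sub_div' h1, div_left_inj' h1]
    push_cast
    linear_combination ((s : ℂ) ^ 2) * Complex.I_sq
  have e3 : ph s (ph (-s) u) = (ph (-s) u + I * s) / (1 - I * s * ph (-s) u) := rfl
  rw [e3, e1, e2, div_div_div_cancel_right₀ h1, mul_div_cancel_left₀ _ h2]

theorem ph_dat {s : ℝ} {w : ℂ} (h : 1 - I * s * w ≠ 0) : DifferentiableAt ℂ (ph s) w := by
  unfold ph
  exact DifferentiableAt.div (by fun_prop) (by fun_prop) h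

theorem im_ph {s : ℝ} (hs : 0 < s) (hs1 : s ≤ 1 / 16) {w : ℂ} (hw : -(s / 2) < w.im) :
    1 - I * s * w ≠ 0 ∧ 0 < (ph s w).im := by
  have hre : (1 - I * s * w).re = 1 + s * w.im := by simp
  have hne : 1 - I * s * w ≠ 0 := by
    intro h
    rw [h] at hre
    simp at hre
    nlinarith
  refine ⟨hne, ?_⟩
  have h1 : 0 < Complex.normSq (1 - I * s * w) := Complex.normSq_pos.2 hne
  have h2 : (ph s w).im = ((1 + s ^ 2) * w.im + s * (1 + Complex.normSq w)) /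
      Complex.normSq (1 - I * s * w) := by
    unfold ph
    rw [Complex.div_im, Complex.normSq_apply w]
    rw [← sub_div]
    congr 1
    simp
    ring
  rw [h2]
  apply div_pos _ h1
  have := Complex.normSq_nonneg w
  nlinarith

theorem ph_tendsto {s : ℝ} (hs : 0 < s) :
    Tendsto (ph s) (Bornology.cobounded ℂ) (𝓝 (I / s)) := by
  have hs0 : (s : ℂ) ≠ 0 := by exact_mod_cast hs.ne'
  have h1 : Tendsto (fun w : ℂ => 1 - I * s * w) (Bornology.cobounded ℂ)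
      (Bornology.cobounded ℂ) := by
    rw [← tendsto_norm_atTop_iff_cobounded]
    have h2 : Tendsto (fun w : ℂ => s * ‖w‖ - 1) (Bornology.cobounded ℂ) atTop :=
      tendsto_atTop_add_const_right _ _ (tendsto_norm_cobounded_atTop.const_mul_atTop hs)
    refine tendsto_atTop_mono (fun w => ?_) h2
    have h3 := norm_sub_norm_le (I * s * w) (1 : ℂ)
    rw [norm_sub_rev, norm_one, norm_mul, norm_mul, Complex.norm_I, one_mul, Complex.norm_real,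
      Real.norm_of_nonneg hs.le] at h3
    exact h3
  have h2 : Tendsto (fun w : ℂ => I / s + I * (s - 1 / s) * (1 - I * s * w)⁻¹)
      (Bornology.cobounded ℂ) (𝓝 (I / s + I * (s - 1 / s) * 0)) :=
    tendsto_const_nhds.add (tendsto_const_nhds.mul (tendsto_inv₀_cobounded.comp h1))
  rw [mul_zero, add_zero] at h2
  refine h2.congr' ?_
  have h3 : ∀ᶠ w : ℂ in Bornology.cobounded ℂ, 1 - I * s * w ≠ 0 := by
    have := h1.eventually (Bornology.eventually_ne_cobounded (0 : ℂ))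
    exact this
  filter_upwards [h3] with w hw
  unfold ph
  field_simp
  linear_combination (-(s : ℂ) * w) * Complex.I_sq

section Target1

variable {κ L s lam : ℝ} {z : ℂ × ℂ → ℂ}

/-- the function `z'` -/
noncomputable def zz (z : ℂ × ℂ → ℂ) (s lam : ℝ) (p : ℂ × ℂ) : ℂ :=
  z (ph s p.1, (lam : ℂ) * p.2) / (lam : ℂ)

theorem rho_zz (hl0 : 0 < lam) {c : ℝ} (hl2 : lam ^ 2 = 1 - c * s) (p : ℂ × ℂ) :
    rho (zz z s lam) p * lam ^ 2 = rho z (ph s p.1, (lam : ℂ) * p.2) - c * s := by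
  unfold rho zz
  simp only [norm_div, norm_mul, Complex.norm_real, Real.norm_of_nonneg hl0.le]
  field_simp
  linarith

/-- the constants -/
structure Par (κ L s lam : ℝ) : Prop where
  s0 : 0 < s
  sκ : 16 * s ≤ κ
  s1 : |s| ≤ 1 / 16
  l0 : 0 < lam
  lh : 1 / 2 ≤ lam
  l1 : lam ≤ 1
  l2 : lam ^ 2 = 1 - (8 * L ^ 2 + 1) * s

theorem par (hκ1 : κ ≤ 1) (hs : 0 < s) (hs1 : 16 * s ≤ κ)
    (hs2 : 2 * (8 * L ^ 2 + 1) * s ≤ 1) (hl : lam = √(1 - (8 * L ^ 2 + 1) * s)) :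
    Par κ L s lam := by
  have hL2 : 0 ≤ L ^ 2 := sq_nonneg L
  have hl2 : lam ^ 2 = 1 - (8 * L ^ 2 + 1) * s := by
    rw [hl, Real.sq_sqrt (by linarith)]
  have hl0 : 0 ≤ lam := by rw [hl]; exact Real.sqrt_nonneg _
  have h1 : 1 / 2 ≤ lam := by
    by_contra hcon
    push Not at hcon
    nlinarith
  refine ⟨hs, hs1, ?_, by linarith, h1, ?_, hl2⟩
  · rw [abs_of_pos hs]; linarith
  · by_contra hcon
    push Not at hcon
    have : 0 < (8 * L ^ 2 + 1) * s := by positivity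
    nlinarith

theorem Par.w (h : Par κ L s lam) (hκ1 : κ ≤ 1) {w : ℂ} (hw : ‖w‖ < κ / 2) :
    ‖w‖ ≤ 1 ∧ ‖ph s w‖ < κ := by
  have hw1 : ‖w‖ ≤ 1 := by linarith [h.s0, h.sκ]
  refine ⟨hw1, ?_⟩
  have h1 := ph_sub h.s1 hw1
  rw [abs_of_pos h.s0] at h1
  have h2 : ‖ph s w‖ ≤ ‖ph s w - w‖ + ‖w‖ := by
    have := norm_add_le (ph s w - w) w
    rwa [sub_add_cancel] at this
  linarith [h.s0, h.sκ]

theorem Par.y (h : Par κ L s lam) {y : ℂ} (hy : ‖y‖ < κ / 2) : ‖(lam : ℂ) * y‖ < κ := by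
  rw [norm_mul, Complex.norm_real, Real.norm_of_nonneg h.l0.le]
  have h1 : lam * ‖y‖ ≤ 1 * ‖y‖ := mul_le_mul_of_nonneg_right h.l1 (norm_nonneg _)
  have h2 := h.s0
  have h3 := h.sκ
  linarith

theorem dz_zz (hl0 : lam ≠ 0) (p : ℂ × ℂ) :
    dz (zz z s lam) p = dz z (ph s p.1, (lam : ℂ) * p.2) := by
  have hl : (lam : ℂ) ≠ 0 := by exact_mod_cast hl0
  unfold dz zz
  simp only
  have h1 : (fun y : ℂ => z (ph s p.1, (lam : ℂ) * y) / (lam : ℂ)) =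
      fun y : ℂ => (fun y' : ℂ => z (ph s p.1, y')) ((lam : ℂ) * y) / (lam : ℂ) := rfl
  rw [deriv_div_const, deriv_comp_mul_left (lam : ℂ) (fun y' : ℂ => z (ph s p.1, y')) p.2,
    smul_eq_mul]
  field_simp

theorem lm_s0 (h : LM κ L z) (P : Par κ L s lam) : LM (κ / 2) (8 * L) (zz z s lam) := by
  have hκ := h.κ0
  have hκ1 := h.κ1
  have hL := h.L1
  have hl0 := P.l0
  have hlh := P.lh
  have hl1 := P.l1
  have hlc : (lam : ℂ) ≠ 0 := by exact_mod_cast hl0.ne'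
  have hdiv : ∀ a : ℂ, ‖a / (lam : ℂ)‖ = ‖a‖ / lam := by
    intro a
    rw [norm_div, Complex.norm_real, Real.norm_of_nonneg hl0.le]
  have hy : ∀ {y y' : ℂ}, ‖(lam : ℂ) * y - (lam : ℂ) * y'‖ ≤ ‖y - y'‖ := by
    intro y y'
    rw [← mul_sub, norm_mul, Complex.norm_real, Real.norm_of_nonneg hl0.le]
    have h1 : lam * ‖y - y'‖ ≤ 1 * ‖y - y'‖ := mul_le_mul_of_nonneg_right hl1 (norm_nonneg _)
    linarith
  refine ⟨by linarith, by linarith, by linarith, ?_, ?_, ?_, ?_, ?_, ?_, ?_, ?_⟩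
  · -- differentiability
    have h1 : MapsTo (fun p : ℂ × ℂ => (ph s p.1, (lam : ℂ) * p.2))
        {p : ℂ × ℂ | ‖p.1‖ < κ / 2 ∧ ‖p.2‖ < κ / 2} {p : ℂ × ℂ | ‖p.1‖ < κ ∧ ‖p.2‖ < κ} := by
      intro p hp
      exact ⟨(P.w hκ1 hp.1).2, P.y hp.2⟩
    have h2 : DifferentiableOn ℂ (fun p : ℂ × ℂ => (ph s p.1, (lam : ℂ) * p.2))
        {p : ℂ × ℂ | ‖p.1‖ < κ / 2 ∧ ‖p.2‖ < κ / 2} := by
      intro p hp
      have h3 : DifferentiableAt ℂ (ph s) p.1 := ph_dat (den_ne P.s1 (P.w hκ1 hp.1).1)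
      have h4 : DifferentiableAt ℂ (fun p : ℂ × ℂ => ph s p.1) p :=
        DifferentiableAt.comp p h3 differentiableAt_fst
      exact (h4.prodMk (by fun_prop)).differentiableWithinAt
    have h3 : DifferentiableOn ℂ (fun p : ℂ × ℂ => z (ph s p.1, (lam : ℂ) * p.2))
        {p : ℂ × ℂ | ‖p.1‖ < κ / 2 ∧ ‖p.2‖ < κ / 2} := h.diff.comp h2 h1
    have h4 : DifferentiableOn ℂ (fun p : ℂ × ℂ => z (ph s p.1, (lam : ℂ) * p.2) * (lam : ℂ)⁻¹)
        {p : ℂ × ℂ | ‖p.1‖ < κ / 2 ∧ ‖p.2‖ < κ / 2} := h3.mul_const _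
    exact h4
  · -- lower bound
    intro p h1 h2
    have h3 := h.lo (ph s p.1, (lam : ℂ) * p.2) (P.w hκ1 h1).2 (P.y h2)
    unfold zz
    rw [hdiv, le_div_iff₀ hl0]
    linarith
  · -- upper bound
    intro p h1 h2
    have h3 := h.hi (ph s p.1, (lam : ℂ) * p.2) (P.w hκ1 h1).2 (P.y h2)
    unfold zz
    rw [hdiv, div_le_iff₀ hl0]
    nlinarith
  · -- Lipschitz
    intro p q h1 h2 h3 h4
    have h5 := h.lip (ph s p.1, (lam : ℂ) * p.2) (ph s q.1, (lam : ℂ) * q.2)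
      (P.w hκ1 h1).2 (P.y h2) (P.w hκ1 h3).2 (P.y h4)
    have h6 := ph_lip P.s1 (P.w hκ1 h1).1 (P.w hκ1 h3).1
    have h7 := hy (y := p.2) (y' := q.2)
    simp only at h5
    have h8 : ‖zz z s lam p - zz z s lam q‖ = ‖z (ph s p.1, (lam : ℂ) * p.2) -
        z (ph s q.1, (lam : ℂ) * q.2)‖ / lam := by
      unfold zz
      rw [← sub_div, hdiv]
    rw [h8, div_le_iff₀ hl0]
    have h9 : L * (‖ph s p.1 - ph s q.1‖ + ‖(lam : ℂ) * p.2 - (lam : ℂ) * q.2‖) ≤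
        L * (4 * (‖p.1 - q.1‖ + ‖p.2 - q.2‖)) := by
      refine mul_le_mul_of_nonneg_left ?_ (by linarith)
      have := norm_nonneg (p.2 - q.2)
      linarith
    have h10 : 0 ≤ L * (‖p.1 - q.1‖ + ‖p.2 - q.2‖) := by positivity
    nlinarith
  · -- injectivity
    intro w w' y h1 h2 h3
    have h4 := ph_inj P.s1 (P.w hκ1 h1).1 (P.w hκ1 h2).1
    have h5 := h.inj (ph s w) (ph s w') ((lam : ℂ) * y) (P.w hκ1 h1).2 (P.w hκ1 h2).2 (P.y h3)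
    have h8 : ‖zz z s lam (w, y) - zz z s lam (w', y)‖ = ‖z (ph s w, (lam : ℂ) * y) -
        z (ph s w', (lam : ℂ) * y)‖ / lam := by
      unfold zz
      rw [← sub_div, hdiv]
    rw [h8, mul_div_assoc', le_div_iff₀ hl0]
    have h9 : 0 ≤ ‖w - w'‖ := norm_nonneg _
    have h10 : 0 ≤ L * ‖z (ph s w, (lam : ℂ) * y) - z (ph s w', (lam : ℂ) * y)‖ := by positivity
    nlinarith
  · -- derivative bound
    intro p h1 h2
    rw [dz_zz hl0.ne']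
    have := h.dbd (ph s p.1, (lam : ℂ) * p.2) (P.w hκ1 h1).2 (P.y h2)
    linarith
  · -- second Lipschitz
    intro p q h1 h2 h3 h4
    rw [dz_zz hl0.ne', dz_zz hl0.ne']
    have h5 := h.lip2 (ph s p.1, (lam : ℂ) * p.2) (ph s q.1, (lam : ℂ) * q.2)
      (P.w hκ1 h1).2 (P.y h2) (P.w hκ1 h3).2 (P.y h4)
    have h6 := ph_lip P.s1 (P.w hκ1 h1).1 (P.w hκ1 h3).1
    have h7 := hy (y := p.2) (y' := q.2)
    simp only at h5
    have h9 : L * (‖ph s p.1 - ph s q.1‖ + ‖(lam : ℂ) * p.2 - (lam : ℂ) * q.2‖) ≤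
        L * (4 * (‖p.1 - q.1‖ + ‖p.2 - q.2‖)) := by
      refine mul_le_mul_of_nonneg_left ?_ (by linarith)
      have := norm_nonneg (p.2 - q.2)
      linarith
    have h10 : 0 ≤ L * (‖p.1 - q.1‖ + ‖p.2 - q.2‖) := by positivity
    linarith
  · -- positivity of the imaginary part
    intro p h1 h2 h3
    have h4 := rho_zz (z := z) (s := s) hl0 (c := 8 * L ^ 2 + 1) P.l2 p
    have h5 : 0 < rho (zz z s lam) p * lam ^ 2 := by positivity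
    rw [h4] at h5
    have hw := P.w hκ1 h1
    have hy' := P.y h2
    have hwκ : ‖p.1‖ < κ := by linarith
    have h6 := h.lip (ph s p.1, (lam : ℂ) * p.2) (p.1, (lam : ℂ) * p.2) hw.2 hy' hwκ hy'
    simp only [sub_self, norm_zero, add_zero] at h6
    have h7 := ph_sub P.s1 hw.1
    rw [abs_of_pos P.s0] at h7
    have h8 := h.hi (ph s p.1, (lam : ℂ) * p.2) hw.2 hy'
    have h9 := h.hi (p.1, (lam : ℂ) * p.2) hwκ hy'
    have h10 : 0 < rho z (p.1, (lam : ℂ) * p.2) := by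
      have e1 : rho z (p.1, (lam : ℂ) * p.2) = rho z (ph s p.1, (lam : ℂ) * p.2) +
          (‖z (ph s p.1, (lam : ℂ) * p.2)‖ ^ 2 - ‖z (p.1, (lam : ℂ) * p.2)‖ ^ 2) := by
        unfold rho; ring
      have e2 : -(8 * L ^ 2 * s) ≤
          ‖z (ph s p.1, (lam : ℂ) * p.2)‖ ^ 2 - ‖z (p.1, (lam : ℂ) * p.2)‖ ^ 2 := by
        have a1 : ‖z (p.1, (lam : ℂ) * p.2)‖ - ‖z (ph s p.1, (lam : ℂ) * p.2)‖ ≤
            L * (4 * s) := by
          have b1 := norm_sub_norm_le (z (p.1, (lam : ℂ) * p.2)) (z (ph s p.1, (lam : ℂ) * p.2))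
          rw [norm_sub_rev] at b1
          have b2 : L * ‖ph s p.1 - p.1‖ ≤ L * (4 * s) :=
            mul_le_mul_of_nonneg_left h7 (by linarith)
          linarith
        have a2 : 0 ≤ ‖z (p.1, (lam : ℂ) * p.2)‖ := norm_nonneg _
        have a3 : 0 ≤ ‖z (ph s p.1, (lam : ℂ) * p.2)‖ := norm_nonneg _
        have a4 : 0 ≤ L * (4 * s) := by have := P.s0; positivity
        by_cases hc : ‖z (p.1, (lam : ℂ) * p.2)‖ ≤ ‖z (ph s p.1, (lam : ℂ) * p.2)‖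
        · have a5 : ‖z (p.1, (lam : ℂ) * p.2)‖ ^ 2 ≤ ‖z (ph s p.1, (lam : ℂ) * p.2)‖ ^ 2 :=
            pow_le_pow_left₀ a2 hc 2
          have a6 : 0 ≤ 8 * L ^ 2 * s := by have := P.s0; positivity
          linarith
        · push Not at hc
          have a5 : ‖z (p.1, (lam : ℂ) * p.2)‖ ^ 2 - ‖z (ph s p.1, (lam : ℂ) * p.2)‖ ^ 2 =
              (‖z (p.1, (lam : ℂ) * p.2)‖ - ‖z (ph s p.1, (lam : ℂ) * p.2)‖) *
              (‖z (p.1, (lam : ℂ) * p.2)‖ + ‖z (ph s p.1, (lam : ℂ) * p.2)‖) := by ring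
          have a6 : (‖z (p.1, (lam : ℂ) * p.2)‖ - ‖z (ph s p.1, (lam : ℂ) * p.2)‖) *
              (‖z (p.1, (lam : ℂ) * p.2)‖ + ‖z (ph s p.1, (lam : ℂ) * p.2)‖) ≤
              (L * (4 * s)) * (L + L) :=
            mul_le_mul a1 (add_le_add h9 h8) (by linarith) a4
          nlinarith
      rw [e1]
      have := P.s0
      nlinarith
    exact h.im (p.1, (lam : ℂ) * p.2) hwκ hy' h10

end Target1

theorem gnorm {s : ℝ} {w : ℂ} : ‖I * s * w‖ = |s| * ‖w‖ := by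
  rw [norm_mul, norm_mul, Complex.norm_I, one_mul, Complex.norm_real, Real.norm_eq_abs]

theorem gden_lo {s : ℝ} {w : ℂ} (hw : |s| * ‖w‖ ≤ 1 / 16) : 15 / 16 ≤ ‖1 - I * s * w‖ := by
  have h1 := gnorm (s := s) (w := w)
  have h2 := norm_sub_norm_le (1 : ℂ) (I * s * w)
  rw [norm_one] at h2
  linarith

theorem gden_hi {s : ℝ} {w : ℂ} (hw : |s| * ‖w‖ ≤ 1 / 16) : ‖1 - I * s * w‖ ≤ 17 / 16 := by
  have h1 := gnorm (s := s) (w := w)
  have h2 := norm_sub_le (1 : ℂ) (I * s * w)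
  rw [norm_one] at h2
  linarith

theorem gden_ne {s : ℝ} {w : ℂ} (hw : |s| * ‖w‖ ≤ 1 / 16) : 1 - I * s * w ≠ 0 := by
  intro h
  have := gden_lo hw
  rw [h, norm_zero] at this
  linarith

theorem gph_diff {s : ℝ} {w w' : ℂ} (hw : |s| * ‖w‖ ≤ 1 / 16) (hw' : |s| * ‖w'‖ ≤ 1 / 16) :
    ph s w - ph s w' = (1 - (s : ℂ) ^ 2) * (w - w') / ((1 - I * s * w) * (1 - I * s * w')) := by
  have h1 := gden_ne hw
  have h2 := gden_ne hw'
  unfold ph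
  rw [div_sub_div _ _ h1 h2, div_left_inj' (mul_ne_zero h1 h2)]
  linear_combination ((s : ℂ) ^ 2 * (w - w')) * Complex.I_sq

theorem gph_lip {s : ℝ} (hs : |s| ≤ 1 / 16) {w w' : ℂ} (hw : |s| * ‖w‖ ≤ 1 / 16)
    (hw' : |s| * ‖w'‖ ≤ 1 / 16) : ‖ph s w - ph s w'‖ ≤ 2 * ‖w - w'‖ := by
  obtain ⟨-, h1⟩ := s2_lo hs
  have h2 := gden_lo hw
  have h3 := gden_lo hw'
  rw [gph_diff hw hw', norm_div, norm_mul, norm_mul]
  have h4 : (15 / 16 : ℝ) * (15 / 16) ≤ ‖1 - I * s * w‖ * ‖1 - I * s * w'‖ :=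
    mul_le_mul h2 h3 (by norm_num) (by linarith)
  rw [div_le_iff₀ (by nlinarith)]
  have h5 : ‖(1 - (s : ℂ) ^ 2 : ℂ)‖ * ‖w - w'‖ ≤ 1 * ‖w - w'‖ :=
    mul_le_mul_of_nonneg_right h1 (norm_nonneg _)
  have h6 : 2 * ‖w - w'‖ * ((15 / 16 : ℝ) * (15 / 16)) ≤
      2 * ‖w - w'‖ * (‖1 - I * s * w‖ * ‖1 - I * s * w'‖) :=
    mul_le_mul_of_nonneg_left h4 (by positivity)
  have := norm_nonneg (w - w')
  nlinarith

theorem gph_ps {s : ℝ} (hs : |s| ≤ 1 / 16) {u : ℂ} (hu : |s| * ‖u‖ ≤ 1 / 16) :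
    ph s (ph (-s) u) = u := by
  have h1 : 1 - I * ((-s : ℝ) : ℂ) * u ≠ 0 := gden_ne (by rwa [abs_neg])
  have h2 : (1 - (s : ℂ) ^ 2 : ℂ) ≠ 0 := by
    intro h
    have := (s2_lo hs).1
    rw [h, norm_zero] at this
    linarith
  have e1 : ph (-s) u + I * s = (1 - (s : ℂ) ^ 2) * u / (1 - I * ((-s : ℝ) : ℂ) * u) := by
    unfold ph
    rw [div_add' _ _ _ h1, div_left_inj' h1]
    push_cast
    linear_combination ((s : ℂ) ^ 2 * u) * Complex.I_sq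
  have e2 : 1 - I * s * ph (-s) u = (1 - (s : ℂ) ^ 2) / (1 - I * ((-s : ℝ) : ℂ) * u) := by
    unfold ph
    rw [mul_div_assoc', sub_div' h1, div_left_inj' h1]
    push_cast
    linear_combination ((s : ℂ) ^ 2) * Complex.I_sq
  have e3 : ph s (ph (-s) u) = (ph (-s) u + I * s) / (1 - I * s * ph (-s) u) := rfl
  rw [e3, e1, e2, div_div_div_cancel_right₀ h1, mul_div_cancel_left₀ _ h2]

theorem gph_bd {s : ℝ} (hs : |s| ≤ 1 / 16) {w : ℂ} (hw : |s| * ‖w‖ ≤ 1 / 16) :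
    ‖ph s w‖ ≤ 2 * ‖w‖ + 1 := by
  have h1 := gden_lo hw
  unfold ph
  rw [norm_div, div_le_iff₀ (by linarith)]
  have h2 : ‖w + I * s‖ ≤ ‖w‖ + |s| := by
    refine (norm_add_le _ _).trans ?_
    rw [norm_mul, Complex.norm_I, one_mul, Complex.norm_real, Real.norm_eq_abs]
  have h3 : (2 * ‖w‖ + 1) * (15 / 16) ≤ (2 * ‖w‖ + 1) * ‖1 - I * s * w‖ :=
    mul_le_mul_of_nonneg_left h1 (by positivity)
  have := norm_nonneg w
  linarith

/-- derivative of `ph s` -/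
noncomputable def phd (s : ℝ) (w : ℂ) : ℂ := (1 - (s : ℂ) ^ 2) / (1 - I * s * w) ^ 2

theorem ph_hasDeriv {s : ℝ} {w : ℂ} (h : 1 - I * s * w ≠ 0) : HasDerivAt (ph s) (phd s w) w := by
  have h1 : HasDerivAt (fun w : ℂ => w + I * s) 1 w := (hasDerivAt_id w).add_const _
  have h2 : HasDerivAt (fun w : ℂ => 1 - I * s * w) (-(I * s)) w := by
    have := ((hasDerivAt_id w).const_mul (I * (s : ℂ))).const_sub 1
    simpa using this
  have h3 := h1.div h2 h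
  have e : phd s w = (1 * (1 - I * s * w) - (w + I * s) * -(I * s)) / (1 - I * s * w) ^ 2 := by
    unfold phd
    congr 1
    linear_combination (-(s : ℂ) ^ 2) * Complex.I_sq
  rw [e]
  exact h3

theorem phd_bd {s : ℝ} (hs : |s| ≤ 1 / 16) {w : ℂ} (hw : |s| * ‖w‖ ≤ 1 / 16) : ‖phd s w‖ ≤ 2 := by
  obtain ⟨-, h1⟩ := s2_lo hs
  have h2 := gden_lo hw
  unfold phd
  rw [norm_div, norm_pow, div_le_iff₀ (by positivity)]
  nlinarith

theorem phd_lip {s : ℝ} (hs : |s| ≤ 1 / 16) {w w' : ℂ} (hw : |s| * ‖w‖ ≤ 1 / 16)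
    (hw' : |s| * ‖w'‖ ≤ 1 / 16) : ‖phd s w - phd s w'‖ ≤ ‖w - w'‖ := by
  obtain ⟨-, h1⟩ := s2_lo hs
  have n1 := gden_ne hw
  have n2 := gden_ne hw'
  have l1 := gden_lo hw
  have l2 := gden_lo hw'
  have u1 := gden_hi hw
  have u2 := gden_hi hw'
  have e : phd s w - phd s w' = (1 - (s : ℂ) ^ 2) * ((I * s) * (w - w') *
      ((1 - I * s * w) + (1 - I * s * w'))) / ((1 - I * s * w) ^ 2 * (1 - I * s * w') ^ 2) := by
    unfold phd
    rw [div_sub_div _ _ (pow_ne_zero 2 n1) (pow_ne_zero 2 n2)]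
    congr 1
    ring
  have h3 : ‖(I * s) * (w - w') * ((1 - I * s * w) + (1 - I * s * w'))‖ ≤
      (1 / 16) * ‖w - w'‖ * (17 / 8) := by
    rw [norm_mul, norm_mul]
    have a1 : ‖I * (s : ℂ)‖ ≤ 1 / 16 := by
      rw [norm_mul, Complex.norm_I, one_mul, Complex.norm_real, Real.norm_eq_abs]; exact hs
    have a2 : ‖(1 - I * s * w) + (1 - I * s * w')‖ ≤ 17 / 8 := by
      refine (norm_add_le _ _).trans ?_
      linarith
    exact mul_le_mul (mul_le_mul_of_nonneg_right a1 (norm_nonneg _)) a2 (norm_nonneg _) (by positivity)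
  rw [e, norm_div, norm_mul (1 - (s : ℂ) ^ 2), norm_mul ((1 - I * s * w) ^ 2), norm_pow, norm_pow]
  have b1 : (15 / 16 : ℝ) ^ 2 ≤ ‖1 - I * s * w‖ ^ 2 := pow_le_pow_left₀ (by norm_num) l1 2
  have b2 : (15 / 16 : ℝ) ^ 2 ≤ ‖1 - I * s * w'‖ ^ 2 := pow_le_pow_left₀ (by norm_num) l2 2
  have b3 : (15 / 16 : ℝ) ^ 2 * (15 / 16 : ℝ) ^ 2 ≤ ‖1 - I * s * w‖ ^ 2 * ‖1 - I * s * w'‖ ^ 2 :=
    mul_le_mul b1 b2 (by norm_num) (by positivity)
  rw [div_le_iff₀ (lt_of_lt_of_le (by norm_num) b3)]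
  have c1 : ‖(1 - (s : ℂ) ^ 2 : ℂ)‖ * ‖(I * s) * (w - w') * ((1 - I * s * w) + (1 - I * s * w'))‖ ≤
      1 * ((1 / 16) * ‖w - w'‖ * (17 / 8)) := mul_le_mul h1 h3 (norm_nonneg _) (by norm_num)
  have c2 : ‖w - w'‖ * ((15 / 16 : ℝ) ^ 2 * (15 / 16 : ℝ) ^ 2) ≤
      ‖w - w'‖ * (‖1 - I * s * w‖ ^ 2 * ‖1 - I * s * w'‖ ^ 2) :=
    mul_le_mul_of_nonneg_left b3 (norm_nonneg _)
  have := norm_nonneg (w - w')
  nlinarith

/-- imaginary part of `ph (-s)` -/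
theorem im_phn {s : ℝ} (hs : 0 < s) (hs1 : s ≤ 1 / 16) {u : ℂ} (hu : s * ‖u‖ ≤ 1 / 16) :
    (u.im - s * (1 + ‖u‖ ^ 2)) / 2 ≤ (ph (-s) u).im ∨ u.im - s * (1 + ‖u‖ ^ 2) ≤ 0 := by
  by_cases hneg : u.im - s * (1 + ‖u‖ ^ 2) ≤ 0
  · right; exact hneg
  left
  push Not at hneg
  have hu' : |(-s)| * ‖u‖ ≤ 1 / 16 := by rwa [abs_neg, abs_of_pos hs]
  have hne := gden_ne (s := -s) hu'
  have hhi := gden_hi (s := -s) hu'
  have h1 : 0 < Complex.normSq (1 - I * ((-s : ℝ) : ℂ) * u) := Complex.normSq_pos.2 hne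
  have h2 : (ph (-s) u).im = ((1 + s ^ 2) * u.im - s * (1 + Complex.normSq u)) /
      Complex.normSq (1 - I * ((-s : ℝ) : ℂ) * u) := by
    unfold ph
    rw [Complex.div_im, Complex.normSq_apply u]
    rw [← sub_div]
    congr 1
    simp
    ring
  rw [h2, le_div_iff₀ h1]
  have h3 : Complex.normSq (1 - I * ((-s : ℝ) : ℂ) * u) ≤ 2 := by
    rw [Complex.normSq_eq_norm_sq]
    nlinarith [norm_nonneg (1 - I * ((-s : ℝ) : ℂ) * u)]
  have h4 : Complex.normSq u = ‖u‖ ^ 2 := Complex.normSq_eq_norm_sq u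
  rw [h4]
  have hupos : 0 < u.im := by
    have : 0 ≤ s * (1 + ‖u‖ ^ 2) := by positivity
    linarith
  have h5 : (u.im - s * (1 + ‖u‖ ^ 2)) / 2 * Complex.normSq (1 - I * ((-s : ℝ) : ℂ) * u) ≤
      (u.im - s * (1 + ‖u‖ ^ 2)) / 2 * 2 := mul_le_mul_of_nonneg_left h3 (by linarith)
  have h6 : 0 ≤ s ^ 2 * u.im := by positivity
  linarith

theorem lm_monoK {κ κ₀ L : ℝ} {z : ℂ × ℂ → ℂ} (h : LM κ L z) (h0 : 0 < κ₀) (hk : κ₀ ≤ κ) :
    LM κ₀ L z := by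
  refine ⟨h0, hk.trans h.κ1, h.L1, ?_, ?_, ?_, ?_, ?_, ?_, ?_, ?_⟩
  · exact h.diff.mono (fun p hp => ⟨hp.1.trans_le hk, hp.2.trans_le hk⟩)
  · exact fun p h1 h2 => h.lo p (h1.trans_le hk) (h2.trans_le hk)
  · exact fun p h1 h2 => h.hi p (h1.trans_le hk) (h2.trans_le hk)
  · exact fun p q h1 h2 h3 h4 =>
      h.lip p q (h1.trans_le hk) (h2.trans_le hk) (h3.trans_le hk) (h4.trans_le hk)
  · exact fun w w' y h1 h2 h3 => h.inj w w' y (h1.trans_le hk) (h2.trans_le hk) (h3.trans_le hk)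
  · exact fun p h1 h2 => h.dbd p (h1.trans_le hk) (h2.trans_le hk)
  · exact fun p q h1 h2 h3 h4 =>
      h.lip2 p q (h1.trans_le hk) (h2.trans_le hk) (h3.trans_le hk) (h4.trans_le hk)
  · exact fun p h1 h2 => h.im p (h1.trans_le hk) (h2.trans_le hk)

theorem lm_monoL {κ L L' : ℝ} {z : ℂ × ℂ → ℂ} (h : LM κ L z) (hL : L ≤ L') : LM κ L' z := by
  refine ⟨h.κ0, h.κ1, h.L1.trans hL, h.diff, h.lo, ?_, ?_, ?_, ?_, ?_, h.im⟩
  · exact fun p h1 h2 => (h.hi p h1 h2).trans hL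
  · exact fun p q h1 h2 h3 h4 => (h.lip p q h1 h2 h3 h4).trans
      (mul_le_mul_of_nonneg_right hL (by positivity))
  · exact fun w w' y h1 h2 h3 => (h.inj w w' y h1 h2 h3).trans
      (mul_le_mul_of_nonneg_right hL (by positivity))
  · exact fun p h1 h2 => (h.dbd p h1 h2).trans hL
  · exact fun p q h1 h2 h3 h4 => (h.lip2 p q h1 h2 h3 h4).trans
      (mul_le_mul_of_nonneg_right hL (by positivity))

theorem sf_monoK {κ κ₀ L : ℝ} {z F : ℂ × ℂ → ℂ} (h : SF κ L z F) (hk : κ₀ ≤ κ) :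
    SF κ₀ L z F := by
  refine ⟨?_, ?_, ?_, ?_, ?_, ?_, ?_⟩
  · exact h.diff.mono (fun p hp => ⟨hp.1.trans_le hk, hp.2.trans_le hk⟩)
  · exact fun p h1 h2 => h.bd p (h1.trans_le hk) (h2.trans_le hk)
  · exact fun p q h1 h2 h3 h4 =>
      h.lip p q (h1.trans_le hk) (h2.trans_le hk) (h3.trans_le hk) (h4.trans_le hk)
  · exact fun p h1 h2 => h.dbd p (h1.trans_le hk) (h2.trans_le hk)
  · exact fun p q h1 h2 h3 h4 =>
      h.dlip p q (h1.trans_le hk) (h2.trans_le hk) (h3.trans_le hk) (h4.trans_le hk)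
  · exact fun p h1 h2 => h.pos p (h1.trans_le hk) (h2.trans_le hk)
  · intro ζ b t h1 h2
    refine le_trans (lintegral_mono_set ?_) (h.area ζ b t (h1.trans_le hk) h2)
    rintro η ⟨h3, h4⟩
    exact ⟨by linarith, h4⟩

theorem lc_monoK {K : ℕ} {r κ κ₀ L σ : ℝ} {W z : Fin K → ℂ × ℂ → ℂ} (h : LC r κ L σ W z)
    (h0 : 0 < κ₀) (hk : κ₀ ≤ κ) : LC r κ₀ L σ W z := by
  refine ⟨h.r0, h.r1, fun k => lm_monoK (h.lm k) h0 hk, h.diff, h.lip, h.ctr, h.pos, ?_, ?_, ?_⟩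
  · exact fun k p h1 h2 => h.z1 k p (h1.trans_le hk) (h2.trans_le hk)
  · exact fun k x hx h1 h2 => h.z2 k x hx (h1.trans_le hk) (h2.trans_le hk)
  · exact fun j k => sf_monoK (h.sf j k) hk

/-- the point `z k (0, 0)` -/
theorem z_zero {K : ℕ} {r κ L : ℝ} {W z : Fin K → ℂ × ℂ → ℂ} (h : LC r κ L 0 W z) (k : Fin K) :
    z k (0, 0) = 1 ∧ W k (1, 0) = 0 := by
  have h1 : W k (1, 0) = 0 := by
    have := h.ctr k
    exact norm_le_zero_iff.mp this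
  have h2 : ((1 : ℂ), (0 : ℂ)) ∈ Bx r := by
    refine ⟨?_, ?_⟩
    · simpa using h.r0
    · simpa using h.r0
  have hκ := (h.lm k).κ0
  have h3 := h.z2 k (1, 0) h2 (by rw [h1]; simpa using hκ) (by simpa using hκ)
  rw [h1] at h3
  exact ⟨h3, h1⟩

theorem near {K : ℕ} {r κ L : ℝ} {W z : Fin K → ℂ × ℂ → ℂ} (h : LC r κ L 0 W z)
    (hκ : 16 * L * κ ≤ r) (k : Fin K) {p : ℂ × ℂ} (h1 : ‖p.1‖ < κ) (h2 : ‖p.2‖ < κ) :
    ‖z k p - 1‖ ≤ r / 8 := by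
  have hκ0 := (h.lm k).κ0
  have hL := (h.lm k).L1
  have h3 := (h.lm k).lip p (0, 0) h1 h2 (by simpa using hκ0) (by simpa using hκ0)
  rw [(z_zero h k).1] at h3
  simp only [sub_zero] at h3
  have h4 : L * (‖p.1‖ + ‖p.2‖) ≤ L * (κ + κ) := mul_le_mul_of_nonneg_left (by linarith) (by linarith)
  linarith

/-- the functions `W'` -/
noncomputable def ww (W : ℂ × ℂ → ℂ) (s lam : ℝ) (x : ℂ × ℂ) : ℂ :=
  ph (-s) (W ((lam : ℂ) * x.1, (lam : ℂ) * x.2))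

/-- the smallness conditions -/
structure Sm (r κ L σ s lam c : ℝ) : Prop where
  hc : c = 8 * (2 * L ^ 2) ^ 2 + 1
  P : Par κ (2 * L ^ 2) s lam
  s3 : 64 * L * s ≤ 1
  cs : c * s ≤ r / 16
  sσ : (L * c + 4) * s ≤ σ
  s6 : L * c * s ≤ 1

theorem Sm.l3 {r κ L σ s lam c : ℝ} (S : Sm r κ L σ s lam c) : 1 - lam ≤ c * s := by
  have h1 := S.P.l2
  have h2 := S.P.l1
  have h3 := S.P.l0
  rw [← S.hc] at h1
  nlinarith

/-- bound for `W` -/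
theorem W_bd {K : ℕ} {r κ L : ℝ} {W z : Fin K → ℂ × ℂ → ℂ} (h : LC r κ L 0 W z) (hL : 1 ≤ L)
    (k : Fin K) {x : ℂ × ℂ} (hx : x ∈ Bx r) : ‖W k x‖ ≤ 2 * L := by
  have h2 : ((1 : ℂ), (0 : ℂ)) ∈ Bx r := by
    refine ⟨?_, ?_⟩
    · simpa using h.r0
    · simpa using h.r0
  have h3 := h.lip k x hx (1, 0) h2
  rw [(z_zero h k).2, sub_zero] at h3
  simp only [sub_zero] at h3
  have h4 := hx.1
  have h5 := hx.2
  have h6 := h.r1
  have h7 : L * (‖x.1 - 1‖ + ‖x.2‖) ≤ L * (1 + 1) := mul_le_mul_of_nonneg_left (by linarith) (by linarith)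
  linarith

theorem mem_lam {r κ L σ s lam c : ℝ} (hr1 : 0 < r) (S : Sm r κ L σ s lam c) {x : ℂ × ℂ}
    (hx : x ∈ Bx (r / 2)) : ((lam : ℂ) * x.1, (lam : ℂ) * x.2) ∈ Bx r := by
  have h1 := S.l3
  have h2 := S.cs
  have hl0 := S.P.l0
  have hl1 := S.P.l1
  refine ⟨?_, ?_⟩
  · have e : (lam : ℂ) * x.1 - 1 = (lam : ℂ) * (x.1 - 1) + ((lam - 1 : ℝ) : ℂ) := by push_cast; ring
    simp only
    rw [e]
    refine lt_of_le_of_lt (norm_add_le _ _) ?_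
    rw [norm_mul, Complex.norm_real, Complex.norm_real, Real.norm_of_nonneg hl0.le, Real.norm_eq_abs,
      abs_of_nonpos (by linarith)]
    have h3 := hx.1
    have h4 : lam * ‖x.1 - 1‖ ≤ 1 * ‖x.1 - 1‖ := mul_le_mul_of_nonneg_right hl1 (norm_nonneg _)
    linarith
  · simp only
    rw [norm_mul, Complex.norm_real, Real.norm_of_nonneg hl0.le]
    have h3 := hx.2
    have h4 : lam * ‖x.2‖ ≤ 1 * ‖x.2‖ := mul_le_mul_of_nonneg_right hl1 (norm_nonneg _)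
    linarith

theorem rb_lam {lam c s : ℝ} (hl0 : 0 < lam) (hl2 : lam ^ 2 = 1 - c * s) (x : ℂ × ℂ) :
    rb ((lam : ℂ) * x.1, (lam : ℂ) * x.2) = c * s + lam ^ 2 * rb x := by
  unfold rb
  simp only [norm_mul, Complex.norm_real, Real.norm_of_nonneg hl0.le]
  nlinarith

theorem Sm.u {r κ L σ s lam c : ℝ} (S : Sm r κ L σ s lam c) (hL : 1 ≤ L) {u : ℂ} (hu : ‖u‖ ≤ 4 * L) :
    |s| * ‖u‖ ≤ 1 / 16 := by
  have h1 := S.P.s0
  have h2 := S.s3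
  rw [abs_of_pos h1]
  have h3 : s * ‖u‖ ≤ s * (4 * L) := mul_le_mul_of_nonneg_left hu h1.le
  linarith

/-- the transformed secondary function -/
noncomputable def FF (F : ℂ × ℂ → ℂ) (s lam : ℝ) (p : ℂ × ℂ) : ℂ :=
  ph (-s) (F (ph s p.1, (lam : ℂ) * p.2))

theorem dz_FF {r κ L σ s lam c : ℝ} {z F : ℂ × ℂ → ℂ} (hF : SF κ L z F) (hL : 1 ≤ L)
    (hκ1 : κ ≤ 1) (S : Sm r κ L σ s lam c) {p : ℂ × ℂ} (h1 : ‖p.1‖ < κ / 2) (h2 : ‖p.2‖ < κ / 2) :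
    dz (FF F s lam) p = phd (-s) (F (ph s p.1, (lam : ℂ) * p.2)) *
      (dz F (ph s p.1, (lam : ℂ) * p.2) * (lam : ℂ)) := by
  have hw := S.P.w hκ1 h1
  have hy := S.P.y h2
  have hopen : IsOpen {p : ℂ × ℂ | ‖p.1‖ < κ ∧ ‖p.2‖ < κ} :=
    (isOpen_lt continuous_fst.norm continuous_const).inter
      (isOpen_lt continuous_snd.norm continuous_const)
  have hd : DifferentiableAt ℂ F (ph s p.1, (lam : ℂ) * p.2) :=
    hF.diff.differentiableAt (hopen.mem_nhds ⟨hw.2, hy⟩)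
  have hd2 : DifferentiableAt ℂ (fun y' : ℂ => F (ph s p.1, y')) ((lam : ℂ) * p.2) := by
    have : DifferentiableAt ℂ (fun y' : ℂ => ((ph s p.1, y') : ℂ × ℂ)) ((lam : ℂ) * p.2) := by
      fun_prop
    exact DifferentiableAt.comp ((lam : ℂ) * p.2) hd this
  have h3 : HasDerivAt (fun y' : ℂ => F (ph s p.1, y')) (dz F (ph s p.1, (lam : ℂ) * p.2))
      ((lam : ℂ) * p.2) := hd2.hasDerivAt
  have h4 : HasDerivAt (fun y : ℂ => (lam : ℂ) * y) (lam : ℂ) p.2 := by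
    have := (hasDerivAt_id p.2).const_mul (lam : ℂ)
    simpa using this
  have h5 : HasDerivAt (fun y : ℂ => F (ph s p.1, (lam : ℂ) * y))
      (dz F (ph s p.1, (lam : ℂ) * p.2) * (lam : ℂ)) p.2 := HasDerivAt.comp p.2 h3 h4
  have hb := hF.bd (ph s p.1, (lam : ℂ) * p.2) hw.2 hy
  have hne : 1 - I * ((-s : ℝ) : ℂ) * F (ph s p.1, (lam : ℂ) * p.2) ≠ 0 := by
    apply gden_ne
    rw [abs_neg]
    exact S.u hL (by linarith)
  have h6 := ph_hasDeriv hne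
  have h7 : HasDerivAt (fun y : ℂ => ph (-s) (F (ph s p.1, (lam : ℂ) * y)))
      (phd (-s) (F (ph s p.1, (lam : ℂ) * p.2)) * (dz F (ph s p.1, (lam : ℂ) * p.2) * (lam : ℂ)))
      p.2 := HasDerivAt.comp (h₂ := ph (-s)) (h := fun y : ℂ => F (ph s p.1, (lam : ℂ) * y)) p.2 h6 h5
  exact h7.deriv

/-- change of variables `η' = λ η` -/
theorem lint_scale {lam : ℝ} (hl0 : 0 < lam) (hlh : 1 / 2 ≤ lam) (A B : Set ℂ) (g : ℂ → ENNReal)
    (hAB : ∀ η ∈ A, (lam : ℂ) * η ∈ B) (hB : MeasurableSet B) :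
    ∫⁻ η in A, g ((lam : ℂ) * η) ≤ 4 * ∫⁻ η in B, g η := by
  have hsub : A ⊆ (fun η : ℂ => (lam : ℂ) * η) ⁻¹' B := hAB
  have h1 : ∫⁻ η in A, g ((lam : ℂ) * η) ≤ ∫⁻ η in (fun η : ℂ => (lam : ℂ) * η) ⁻¹' B,
      g ((lam : ℂ) * η) := lintegral_mono_set hsub
  refine h1.trans ?_
  have hm : MeasurableSet ((fun η : ℂ => (lam : ℂ) * η) ⁻¹' B) :=
    hB.preimage (by fun_prop)
  rw [← lintegral_indicator hm, ← lintegral_indicator hB]
  have h2 : ∀ η : ℂ, ((fun η : ℂ => (lam : ℂ) * η) ⁻¹' B).indicator (fun η => g ((lam : ℂ) * η)) η =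
      (B.indicator g) (lam • η) := by
    intro η
    have e : lam • η = (lam : ℂ) * η := by simp
    rw [e]
    by_cases hη : (lam : ℂ) * η ∈ B
    · rw [Set.indicator_of_mem hη, Set.indicator_of_mem (show η ∈ _ from hη)]
    · rw [Set.indicator_of_notMem hη, Set.indicator_of_notMem (show η ∉ _ from hη)]
  simp_rw [h2]
  have hemb : MeasurableEmbedding (fun η : ℂ => lam • η) :=
    (Homeomorph.smulOfNeZero lam hl0.ne').measurableEmbedding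
  have h3 : ∫⁻ η, (B.indicator g) (lam • η) ∂(volume : Measure ℂ) =
      ∫⁻ η, (B.indicator g) η ∂(Measure.map (fun η : ℂ => lam • η) volume) :=
    (hemb.lintegral_map _ ).symm
  have h4 : Measure.map (fun η : ℂ => lam • η) (volume : Measure ℂ) =
      ENNReal.ofReal |(lam ^ Module.finrank ℝ ℂ)⁻¹| • volume := Measure.map_addHaar_smul volume hl0.ne'
  rw [h3, h4, lintegral_smul_measure, smul_eq_mul]
  apply mul_le_mul_left
  rw [Complex.finrank_real_complex]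
  have h5 : |(lam ^ 2)⁻¹| ≤ 4 := by
    rw [abs_of_pos (by positivity)]
    rw [inv_le_comm₀ (by positivity) (by norm_num)]
    nlinarith
  calc ENNReal.ofReal |(lam ^ 2)⁻¹| ≤ ENNReal.ofReal 4 := ENNReal.ofReal_le_ofReal h5
    _ = 4 := by norm_num

theorem lamy {lam : ℝ} (hl0 : 0 ≤ lam) (hl1 : lam ≤ 1) (y y' : ℂ) :
    ‖(lam : ℂ) * y - (lam : ℂ) * y'‖ ≤ ‖y - y'‖ := by
  rw [← mul_sub, norm_mul, Complex.norm_real, Real.norm_of_nonneg hl0]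
  have h1 : lam * ‖y - y'‖ ≤ 1 * ‖y - y'‖ := mul_le_mul_of_nonneg_right hl1 (norm_nonneg _)
  linarith

theorem sf_s {r κ L σ s lam c : ℝ} {z F : ℂ × ℂ → ℂ} (hF : SF κ L z F) (hL : 1 ≤ L)
    (hκ1 : κ ≤ 1) (S : Sm r κ L σ s lam c)
    (hpos : ∀ p : ℂ × ℂ, ‖p.1‖ < κ / 2 → ‖p.2‖ < κ / 2 → 0 < rho (zz z s lam) p →
      rho (zz z s lam) p ≤ 1024 * L ^ 2 * (FF F s lam p).im) :
    SF (κ / 2) (1024 * L ^ 2) (zz z s lam) (FF F s lam) := by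
  have hs1 := S.P.s1
  have hs1' : |(-s)| ≤ 1 / 16 := by rwa [abs_neg]
  have hl0 := S.P.l0
  have hl1 := S.P.l1
  have hLL : L ≤ L ^ 2 := by nlinarith
  have hb : ∀ {p : ℂ × ℂ}, ‖p.1‖ < κ / 2 → ‖p.2‖ < κ / 2 →
      |(-s)| * ‖F (ph s p.1, (lam : ℂ) * p.2)‖ ≤ 1 / 16 ∧
      ‖F (ph s p.1, (lam : ℂ) * p.2)‖ ≤ L := by
    intro p h1 h2
    have h3 := hF.bd (ph s p.1, (lam : ℂ) * p.2) (S.P.w hκ1 h1).2 (S.P.y h2)
    refine ⟨?_, h3⟩
    rw [abs_neg]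
    exact S.u hL (by linarith)
  have hqq : ∀ {p q : ℂ × ℂ}, ‖p.1‖ < κ / 2 → ‖p.2‖ < κ / 2 → ‖q.1‖ < κ / 2 → ‖q.2‖ < κ / 2 →
      L * (‖ph s p.1 - ph s q.1‖ + ‖(lam : ℂ) * p.2 - (lam : ℂ) * q.2‖) ≤
        L * (4 * (‖p.1 - q.1‖ + ‖p.2 - q.2‖)) := by
    intro p q h1 h2 h3 h4
    have h6 := ph_lip hs1 (S.P.w hκ1 h1).1 (S.P.w hκ1 h3).1
    have h7 := lamy hl0.le hl1 p.2 q.2
    refine mul_le_mul_of_nonneg_left ?_ (by linarith)
    have := norm_nonneg (p.2 - q.2)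
    linarith
  refine ⟨?_, ?_, ?_, ?_, ?_, hpos, ?_⟩
  · -- differentiability
    have h1 : MapsTo (fun p : ℂ × ℂ => (ph s p.1, (lam : ℂ) * p.2))
        {p : ℂ × ℂ | ‖p.1‖ < κ / 2 ∧ ‖p.2‖ < κ / 2} {p : ℂ × ℂ | ‖p.1‖ < κ ∧ ‖p.2‖ < κ} := by
      intro p hp
      exact ⟨(S.P.w hκ1 hp.1).2, S.P.y hp.2⟩
    have h2 : DifferentiableOn ℂ (fun p : ℂ × ℂ => (ph s p.1, (lam : ℂ) * p.2))
        {p : ℂ × ℂ | ‖p.1‖ < κ / 2 ∧ ‖p.2‖ < κ / 2} := by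
      intro p hp
      have h3 : DifferentiableAt ℂ (ph s) p.1 := ph_dat (den_ne hs1 (S.P.w hκ1 hp.1).1)
      have h4 : DifferentiableAt ℂ (fun p : ℂ × ℂ => ph s p.1) p :=
        DifferentiableAt.comp p h3 differentiableAt_fst
      exact (h4.prodMk (by fun_prop)).differentiableWithinAt
    have h3 : DifferentiableOn ℂ (fun p : ℂ × ℂ => F (ph s p.1, (lam : ℂ) * p.2))
        {p : ℂ × ℂ | ‖p.1‖ < κ / 2 ∧ ‖p.2‖ < κ / 2} := hF.diff.comp h2 h1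
    intro p hp
    have h5 : DifferentiableAt ℂ (ph (-s)) (F (ph s p.1, (lam : ℂ) * p.2)) :=
      (ph_hasDeriv (gden_ne (hb hp.1 hp.2).1)).differentiableAt
    exact h5.comp_differentiableWithinAt p (h3 p hp)
  · -- bound
    intro p h1 h2
    obtain ⟨h3, h4⟩ := hb h1 h2
    have h5 := gph_bd hs1' h3
    unfold FF
    nlinarith
  · -- Lipschitz
    intro p q h1 h2 h3 h4
    have h5 := gph_lip hs1' (hb h1 h2).1 (hb h3 h4).1
    have h6 := hF.lip (ph s p.1, (lam : ℂ) * p.2) (ph s q.1, (lam : ℂ) * q.2)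
      (S.P.w hκ1 h1).2 (S.P.y h2) (S.P.w hκ1 h3).2 (S.P.y h4)
    have h7 := hqq h1 h2 h3 h4
    simp only at h6
    unfold FF
    have h8 : 0 ≤ ‖p.1 - q.1‖ + ‖p.2 - q.2‖ := by positivity
    have h9 : L * (‖p.1 - q.1‖ + ‖p.2 - q.2‖) ≤ L ^ 2 * (‖p.1 - q.1‖ + ‖p.2 - q.2‖) :=
      mul_le_mul_of_nonneg_right hLL h8
    have h10 : 0 ≤ L ^ 2 * (‖p.1 - q.1‖ + ‖p.2 - q.2‖) := by positivity
    linarith
  · -- derivative bound
    intro p h1 h2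
    rw [dz_FF hF hL hκ1 S h1 h2, norm_mul, norm_mul, Complex.norm_real, Real.norm_of_nonneg hl0.le]
    have h3 := phd_bd hs1' (hb h1 h2).1
    have h4 := hF.dbd (ph s p.1, (lam : ℂ) * p.2) (S.P.w hκ1 h1).2 (S.P.y h2)
    have h5 : ‖dz F (ph s p.1, (lam : ℂ) * p.2)‖ * lam ≤ L * 1 :=
      mul_le_mul h4 hl1 hl0.le (by linarith)
    have h6 : ‖phd (-s) (F (ph s p.1, (lam : ℂ) * p.2))‖ *
        (‖dz F (ph s p.1, (lam : ℂ) * p.2)‖ * lam) ≤ 2 * (L * 1) :=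
      mul_le_mul h3 h5 (by positivity) (by norm_num)
    nlinarith
  · -- second Lipschitz
    intro p q h1 h2 h3 h4
    rw [dz_FF hF hL hκ1 S h1 h2, dz_FF hF hL hκ1 S h3 h4]
    obtain ⟨a, ha⟩ : ∃ a, a = phd (-s) (F (ph s p.1, (lam : ℂ) * p.2)) := ⟨_, rfl⟩
    obtain ⟨a', ha'⟩ : ∃ a', a' = phd (-s) (F (ph s q.1, (lam : ℂ) * q.2)) := ⟨_, rfl⟩
    obtain ⟨b, hb1⟩ : ∃ b, b = dz F (ph s p.1, (lam : ℂ) * p.2) := ⟨_, rfl⟩
    obtain ⟨b', hb1'⟩ : ∃ b', b' = dz F (ph s q.1, (lam : ℂ) * q.2) := ⟨_, rfl⟩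
    rw [← ha, ← ha', ← hb1, ← hb1']
    have k1 : ‖a - a'‖ ≤ 4 * L * (‖p.1 - q.1‖ + ‖p.2 - q.2‖) := by
      rw [ha, ha']
      have h5 := phd_lip hs1' (hb h1 h2).1 (hb h3 h4).1
      have h6 := hF.lip (ph s p.1, (lam : ℂ) * p.2) (ph s q.1, (lam : ℂ) * q.2)
        (S.P.w hκ1 h1).2 (S.P.y h2) (S.P.w hκ1 h3).2 (S.P.y h4)
      have h7 := hqq h1 h2 h3 h4
      simp only at h6
      linarith
    have k2 : ‖b - b'‖ ≤ 4 * L * (‖p.1 - q.1‖ + ‖p.2 - q.2‖) := by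
      rw [hb1, hb1']
      have h6 := hF.dlip (ph s p.1, (lam : ℂ) * p.2) (ph s q.1, (lam : ℂ) * q.2)
        (S.P.w hκ1 h1).2 (S.P.y h2) (S.P.w hκ1 h3).2 (S.P.y h4)
      have h7 := hqq h1 h2 h3 h4
      simp only at h6
      linarith
    have k3 : ‖b‖ ≤ L := by
      rw [hb1]; exact hF.dbd _ (S.P.w hκ1 h1).2 (S.P.y h2)
    have k4 : ‖a'‖ ≤ 2 := by
      rw [ha']; exact phd_bd hs1' (hb h3 h4).1
    have e : a * (b * (lam : ℂ)) - a' * (b' * (lam : ℂ)) =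
        (lam : ℂ) * ((a - a') * b + a' * (b - b')) := by ring
    rw [e, norm_mul, Complex.norm_real, Real.norm_of_nonneg hl0.le]
    have h8 : 0 ≤ ‖p.1 - q.1‖ + ‖p.2 - q.2‖ := by positivity
    have k5 : ‖(a - a') * b‖ ≤ 4 * L * (‖p.1 - q.1‖ + ‖p.2 - q.2‖) * L := by
      rw [norm_mul]
      exact mul_le_mul k1 k3 (norm_nonneg _) (by positivity)
    have k6 : ‖a' * (b - b')‖ ≤ 2 * (4 * L * (‖p.1 - q.1‖ + ‖p.2 - q.2‖)) := by
      rw [norm_mul]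
      exact mul_le_mul k4 k2 (norm_nonneg _) (by norm_num)
    have k7 := norm_add_le ((a - a') * b) (a' * (b - b'))
    have k8 : lam * ‖(a - a') * b + a' * (b - b')‖ ≤ 1 * ‖(a - a') * b + a' * (b - b')‖ :=
      mul_le_mul_of_nonneg_right hl1 (norm_nonneg _)
    have h9 : L * (‖p.1 - q.1‖ + ‖p.2 - q.2‖) ≤ L ^ 2 * (‖p.1 - q.1‖ + ‖p.2 - q.2‖) :=
      mul_le_mul_of_nonneg_right hLL h8
    have h10 : 0 ≤ L ^ 2 * (‖p.1 - q.1‖ + ‖p.2 - q.2‖) := by positivity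
    nlinarith
  · -- the area
    intro ζ b h hζ hh
    have hζ' := S.P.w hκ1 hζ
    by_cases hne : ∃ η₀ : ℂ, ‖η₀‖ < κ / 2 / 2 ∧ ‖FF F s lam (ζ, η₀) - b‖ < h
    swap
    · have hempty : {η : ℂ | ‖η‖ < κ / 2 / 2 ∧ ‖FF F s lam (ζ, η) - b‖ < h} = ∅ := by
        rw [Set.eq_empty_iff_forall_notMem]
        intro η hη
        exact hne ⟨η, hη⟩
      rw [hempty]
      simp
    obtain ⟨η₀, hη₀, hη₀b⟩ := hne
    have hκ0 : 0 < κ := by
      have := norm_nonneg η₀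
      linarith
    have hη₀' : ‖η₀‖ < κ / 2 := by linarith
    obtain ⟨b', hb'⟩ : ∃ b', b' = F (ph s ζ, (lam : ℂ) * η₀) := ⟨_, rfl⟩
    obtain ⟨B, hB⟩ : ∃ B : Set ℂ, B = {η : ℂ | ‖η‖ < κ / 2 ∧ ‖F (ph s ζ, η) - b'‖ < 8 * h} := ⟨_, rfl⟩
    have hBo : IsOpen B := by
      have h1 : ContinuousOn (fun η : ℂ => F (ph s ζ, η)) {η : ℂ | ‖η‖ < κ / 2} := by
        refine hF.diff.continuousOn.comp (by fun_prop) ?_
        intro η hη
        exact ⟨hζ'.2, lt_trans hη (by linarith)⟩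
      have h2 : ContinuousOn (fun η : ℂ => ‖F (ph s ζ, η) - b'‖) {η : ℂ | ‖η‖ < κ / 2} :=
        (h1.sub continuousOn_const).norm
      have h3 := h2.isOpen_inter_preimage (isOpen_lt continuous_norm continuous_const)
        (isOpen_Iio (a := 8 * h))
      rw [hB]
      exact h3
    obtain ⟨A, hA⟩ : ∃ A : Set ℂ, A = {η : ℂ | ‖η‖ < κ / 2 / 2} ∩ (fun η : ℂ => (lam : ℂ) * η) ⁻¹' B :=
      ⟨_, rfl⟩
    have hAm : MeasurableSet A := by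
      rw [hA]
      exact ((isOpen_lt continuous_norm continuous_const).inter
        (hBo.preimage (by fun_prop))).measurableSet
    have hsub : {η : ℂ | ‖η‖ < κ / 2 / 2 ∧ ‖FF F s lam (ζ, η) - b‖ < h} ⊆ A := by
      rintro η ⟨h1, h2⟩
      have h1' : ‖η‖ < κ / 2 := by linarith
      have hu := hb (p := (ζ, η)) hζ h1'
      have hu₀ := hb (p := (ζ, η₀)) hζ hη₀'
      simp only at hu hu₀
      rw [hA]
      refine ⟨h1, ?_⟩
      show (lam : ℂ) * η ∈ B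
      rw [hB]
      refine ⟨?_, ?_⟩
      · have := lamy hl0.le hl1 η 0
        simp only [mul_zero, sub_zero] at this
        linarith
      · have e1 : F (ph s ζ, (lam : ℂ) * η) = ph s (FF F s lam (ζ, η)) := by
          unfold FF
          rw [gph_ps hs1 (by have := hu.1; rwa [abs_neg] at this)]
        have e2 : b' = ph s (FF F s lam (ζ, η₀)) := by
          rw [hb']
          unfold FF
          rw [gph_ps hs1 (by have := hu₀.1; rwa [abs_neg] at this)]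
        have k1 : ‖FF F s lam (ζ, η)‖ ≤ 4 * L := by
          have := gph_bd hs1' hu.1
          unfold FF
          simp only
          linarith [hu.2]
        have k2 : ‖FF F s lam (ζ, η₀)‖ ≤ 4 * L := by
          have := gph_bd hs1' hu₀.1
          unfold FF
          simp only
          linarith [hu₀.2]
        have k3 := gph_lip hs1 (S.u hL k1) (S.u hL k2)
        have k4 : ‖FF F s lam (ζ, η) - FF F s lam (ζ, η₀)‖ < 2 * h := by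
          have e3 : FF F s lam (ζ, η) - FF F s lam (ζ, η₀) =
              (FF F s lam (ζ, η) - b) - (FF F s lam (ζ, η₀) - b) := by ring
          rw [e3]
          refine lt_of_le_of_lt (norm_sub_le _ _) ?_
          linarith
        show ‖F (ph s ζ, (lam : ℂ) * η) - b'‖ < 8 * h
        rw [e1, e2]
        linarith
    have hpt : ∀ η ∈ A, ENNReal.ofReal (‖dz (FF F s lam) (ζ, η)‖ ^ 2) ≤
        4 * ENNReal.ofReal (‖dz F (ph s ζ, (lam : ℂ) * η)‖ ^ 2) := by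
      intro η hη
      rw [hA] at hη
      have h1 : ‖η‖ < κ / 2 := by
        have : ‖η‖ < κ / 2 / 2 := hη.1
        linarith
      rw [dz_FF (p := (ζ, η)) hF hL hκ1 S hζ h1]
      simp only
      have h3 := phd_bd hs1' (hb (p := (ζ, η)) hζ h1).1
      simp only at h3
      have e4 : (4 : ENNReal) = ENNReal.ofReal 4 := by norm_num
      rw [e4, ← ENNReal.ofReal_mul (by norm_num)]
      apply ENNReal.ofReal_le_ofReal
      rw [norm_mul, norm_mul, Complex.norm_real, Real.norm_of_nonneg hl0.le]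
      have h5 : ‖phd (-s) (F (ph s ζ, (lam : ℂ) * η))‖ *
          (‖dz F (ph s ζ, (lam : ℂ) * η)‖ * lam) ≤ 2 * (‖dz F (ph s ζ, (lam : ℂ) * η)‖ * 1) :=
        mul_le_mul h3 (mul_le_mul_of_nonneg_left hl1 (norm_nonneg _)) (by positivity) (by norm_num)
      calc (‖phd (-s) (F (ph s ζ, (lam : ℂ) * η))‖ *
          (‖dz F (ph s ζ, (lam : ℂ) * η)‖ * lam)) ^ 2
          ≤ (2 * (‖dz F (ph s ζ, (lam : ℂ) * η)‖ * 1)) ^ 2 := pow_le_pow_left₀ (by positivity) h5 2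
        _ = 4 * ‖dz F (ph s ζ, (lam : ℂ) * η)‖ ^ 2 := by ring
    calc ∫⁻ η in {η : ℂ | ‖η‖ < κ / 2 / 2 ∧ ‖FF F s lam (ζ, η) - b‖ < h},
          ENNReal.ofReal (‖dz (FF F s lam) (ζ, η)‖ ^ 2)
        ≤ ∫⁻ η in A, ENNReal.ofReal (‖dz (FF F s lam) (ζ, η)‖ ^ 2) := lintegral_mono_set hsub
      _ ≤ ∫⁻ η in A, 4 * ENNReal.ofReal (‖dz F (ph s ζ, (lam : ℂ) * η)‖ ^ 2) :=
          setLIntegral_mono' hAm hpt
      _ = 4 * ∫⁻ η in A, ENNReal.ofReal (‖dz F (ph s ζ, (lam : ℂ) * η)‖ ^ 2) :=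
          lintegral_const_mul' _ _ (by norm_num)
      _ ≤ 4 * (4 * ∫⁻ η in B, ENNReal.ofReal (‖dz F (ph s ζ, η)‖ ^ 2)) := by
          gcongr
          exact lint_scale hl0 S.P.lh A B (fun η => ENNReal.ofReal (‖dz F (ph s ζ, η)‖ ^ 2))
            (fun η hη => by rw [hA] at hη; exact hη.2) hBo.measurableSet
      _ ≤ 4 * (4 * ENNReal.ofReal (L * (8 * h) ^ 2)) := by
          gcongr
          rw [hB]
          exact hF.area (ph s ζ) b' (8 * h) hζ'.2 (by linarith)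
      _ = ENNReal.ofReal (16 * (L * (8 * h) ^ 2)) := by
          rw [ENNReal.ofReal_mul (by norm_num : (0 : ℝ) ≤ 16)]
          rw [← mul_assoc]
          congr 1
          norm_num
      _ ≤ ENNReal.ofReal (1024 * L ^ 2 * h ^ 2) := by
          apply ENNReal.ofReal_le_ofReal
          have : L * h ^ 2 ≤ L ^ 2 * h ^ 2 := mul_le_mul_of_nonneg_right hLL (by positivity)
          nlinarith

theorem ww_pos {K : ℕ} {r κ L σ s lam c : ℝ} {W z : Fin K → ℂ × ℂ → ℂ} (h : LC r κ L 0 W z)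
    (hL : 1 ≤ L) (S : Sm r κ L σ s lam c) (k : Fin K) {x : ℂ × ℂ} (hx : x ∈ Bx (r / 2))
    (hp : 0 < rb x) : rb x ≤ 1024 * L ^ 2 * (ww (W k) s lam x).im := by
  have hs := S.P.s0
  have hl0 := S.P.l0
  have hlh := S.P.lh
  have hl1 := S.P.l1
  have hs16 : s ≤ 1 / 16 := by
    have := S.P.s1
    rwa [abs_of_pos hs] at this
  have hm := mem_lam h.r0 S hx
  have hl2 := S.P.l2
  rw [← S.hc] at hl2
  have h1 := rb_lam hl0 hl2 x
  have hc : L + 4 * L ^ 3 ≤ c := by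
    rw [S.hc]
    have a1 : L ≤ L ^ 3 := by nlinarith [mul_self_nonneg (L - 1), mul_self_nonneg (L + 1)]
    have a2 : L ^ 3 ≤ L ^ 4 := by
      have : (0 : ℝ) ≤ L ^ 3 := by positivity
      nlinarith
    have a3 : (0 : ℝ) ≤ L ^ 4 := by positivity
    have a4 : 8 * (2 * L ^ 2) ^ 2 = 32 * L ^ 4 := by ring
    rw [a4]
    linarith
  have hc0 : 0 ≤ c := by
    have : (0 : ℝ) ≤ L ^ 3 := by positivity
    linarith
  have h2 : 0 < rb ((lam : ℂ) * x.1, (lam : ℂ) * x.2) := by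
    rw [h1]
    have : 0 ≤ c * s := by positivity
    have : 0 < lam ^ 2 * rb x := by positivity
    linarith
  have h3 := h.pos k _ hm h2
  rw [h1] at h3
  obtain ⟨u, hu⟩ : ∃ u, u = W k ((lam : ℂ) * x.1, (lam : ℂ) * x.2) := ⟨_, rfl⟩
  have h4 : ‖u‖ ≤ 2 * L := by rw [hu]; exact W_bd h hL k hm
  rw [← hu] at h3
  have h5 : s * ‖u‖ ≤ 1 / 16 := by
    have := S.u hL (u := u) (by linarith)
    rwa [abs_of_pos hs] at this
  have h6 : (ww (W k) s lam x) = ph (-s) u := by rw [hu]; rfl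
  rw [h6]
  have h7 : ‖u‖ ^ 2 ≤ 4 * L ^ 2 := by
    calc ‖u‖ ^ 2 ≤ (2 * L) ^ 2 := pow_le_pow_left₀ (norm_nonneg _) h4 2
      _ = 4 * L ^ 2 := by ring
  have h8 : lam ^ 2 * rb x ≤ L * (u.im - s * (1 + ‖u‖ ^ 2)) := by
    have b1 : L * s * (1 + ‖u‖ ^ 2) ≤ L * s * (1 + 4 * L ^ 2) :=
      mul_le_mul_of_nonneg_left (by linarith) (by positivity)
    have b2 : (L + 4 * L ^ 3) * s ≤ c * s := mul_le_mul_of_nonneg_right hc hs.le
    nlinarith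
  have h9 : 1 / 4 * rb x ≤ lam ^ 2 * rb x := by
    refine mul_le_mul_of_nonneg_right ?_ hp.le
    nlinarith
  rcases im_phn hs hs16 h5 with h10 | h10
  · have h11 : 1 / 4 * rb x ≤ L * (2 * (ph (-s) u).im) := by
      have : L * (u.im - s * (1 + ‖u‖ ^ 2)) ≤ L * (2 * (ph (-s) u).im) :=
        mul_le_mul_of_nonneg_left (by linarith) (by linarith)
      linarith
    have h12 : 0 < L * (ph (-s) u).im := by linarith
    have h13 : 0 < (ph (-s) u).im := by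
      by_contra hcon
      push Not at hcon
      nlinarith
    have h14 : L * (ph (-s) u).im ≤ L ^ 2 * (ph (-s) u).im :=
      mul_le_mul_of_nonneg_right (by nlinarith) h13.le
    linarith
  · exfalso
    have : L * (u.im - s * (1 + ‖u‖ ^ 2)) ≤ 0 := mul_nonpos_of_nonneg_of_nonpos (by linarith) h10
    linarith

theorem zz_mem {K : ℕ} {r κ L σ s lam c : ℝ} {W z : Fin K → ℂ × ℂ → ℂ} (h : LC r κ L 0 W z)
    (hL : 1 ≤ L) (hκ1 : κ ≤ 1) (hκr : 16 * L * κ ≤ r) (S : Sm r κ L σ s lam c) (k : Fin K)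
    {p : ℂ × ℂ} (h1 : ‖p.1‖ < κ / 2) (h2 : ‖p.2‖ < κ / 2) :
    (zz (z k) s lam p, p.2) ∈ Bx (r / 2) := by
  have hl0 := S.P.l0
  have hlh := S.P.lh
  have hl1 := S.P.l1
  have hlc : (lam : ℂ) ≠ 0 := by exact_mod_cast hl0.ne'
  have hr0 := h.r0
  have h3 := near h hκr k (p := (ph s p.1, (lam : ℂ) * p.2)) (S.P.w hκ1 h1).2 (S.P.y h2)
  have h4 := S.l3
  have h5 := S.cs
  refine ⟨?_, ?_⟩
  · simp only
    have e : zz (z k) s lam p - 1 = ((z k (ph s p.1, (lam : ℂ) * p.2) - 1) +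
        ((1 - lam : ℝ) : ℂ)) / (lam : ℂ) := by
      unfold zz
      rw [eq_div_iff hlc, sub_mul, div_mul_cancel₀ _ hlc]
      push_cast
      ring
    rw [e, norm_div, Complex.norm_real, Real.norm_of_nonneg hl0.le, div_lt_iff₀ hl0]
    have h6 := norm_add_le (z k (ph s p.1, (lam : ℂ) * p.2) - 1) ((1 - lam : ℝ) : ℂ)
    rw [Complex.norm_real, Real.norm_of_nonneg (by linarith)] at h6
    nlinarith
  · simp only
    have hκ0 := (h.lm k).κ0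
    nlinarith

theorem lc_s {K : ℕ} {r κ L σ s lam c : ℝ} {W z : Fin K → ℂ × ℂ → ℂ} (h : LC r κ L 0 W z)
    (hL : 1 ≤ L) (hκ1 : κ ≤ 1) (hκr : 16 * L * κ ≤ r) (S : Sm r κ L σ s lam c) :
    LC (r / 2) (κ / 2) (1024 * L ^ 2) σ (fun k => ww (W k) s lam)
      (fun k => zz (z k) s lam) := by
  have hs := S.P.s0
  have hs1 := S.P.s1
  have hs1' : |(-s)| ≤ 1 / 16 := by rwa [abs_neg]
  have hl0 := S.P.l0
  have hlh := S.P.lh
  have hl1 := S.P.l1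
  have hlc : (lam : ℂ) ≠ 0 := by exact_mod_cast hl0.ne'
  have hr0 := h.r0
  have hr1 := h.r1
  have hLL : L ≤ L ^ 2 := by nlinarith
  have hWu : ∀ (k : Fin K) {x : ℂ × ℂ}, x ∈ Bx (r / 2) →
      |(-s)| * ‖W k ((lam : ℂ) * x.1, (lam : ℂ) * x.2)‖ ≤ 1 / 16 := by
    intro k x hx
    rw [abs_neg]
    have := W_bd h hL k (mem_lam hr0 S hx)
    exact S.u hL (by linarith)
  have hcan : ∀ (j : Fin K) (p : ℂ × ℂ), (lam : ℂ) * zz (z j) s lam p =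
      z j (ph s p.1, (lam : ℂ) * p.2) := by
    intro j p
    unfold zz
    exact mul_div_cancel₀ _ hlc
  refine ⟨by linarith, by linarith, ?_, ?_, ?_, ?_, ?_, ?_, ?_, ?_⟩
  · intro k
    exact lm_monoL (lm_s0 (lm_monoL (h.lm k) (by linarith)) S.P) (by nlinarith)
  · -- differentiability
    intro k
    have h1 : MapsTo (fun x : ℂ × ℂ => ((lam : ℂ) * x.1, (lam : ℂ) * x.2)) (Bx (r / 2)) (Bx r) :=
      fun x hx => mem_lam hr0 S hx
    have h2 : DifferentiableOn ℂ (fun x : ℂ × ℂ => ((lam : ℂ) * x.1, (lam : ℂ) * x.2))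
        (Bx (r / 2)) := by fun_prop
    have h3 : DifferentiableOn ℂ (fun x : ℂ × ℂ => W k ((lam : ℂ) * x.1, (lam : ℂ) * x.2))
        (Bx (r / 2)) := (h.diff k).comp h2 h1
    intro x hx
    have h5 : DifferentiableAt ℂ (ph (-s)) (W k ((lam : ℂ) * x.1, (lam : ℂ) * x.2)) :=
      (ph_hasDeriv (gden_ne (hWu k hx))).differentiableAt
    exact h5.comp_differentiableWithinAt x (h3 x hx)
  · -- Lipschitz
    intro k x hx y hy
    have h1 := gph_lip hs1' (hWu k hx) (hWu k hy)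
    have h2 := h.lip k _ (mem_lam hr0 S hx) _ (mem_lam hr0 S hy)
    have h3 := lamy hl0.le hl1 x.1 y.1
    have h4 := lamy hl0.le hl1 x.2 y.2
    simp only at h2
    have h5 : L * (‖(lam : ℂ) * x.1 - (lam : ℂ) * y.1‖ + ‖(lam : ℂ) * x.2 - (lam : ℂ) * y.2‖) ≤
        L * (‖x.1 - y.1‖ + ‖x.2 - y.2‖) := mul_le_mul_of_nonneg_left (by linarith) (by linarith)
    have h6 : L * (‖x.1 - y.1‖ + ‖x.2 - y.2‖) ≤ L ^ 2 * (‖x.1 - y.1‖ + ‖x.2 - y.2‖) :=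
      mul_le_mul_of_nonneg_right hLL (by positivity)
    have h7 : 0 ≤ L ^ 2 * (‖x.1 - y.1‖ + ‖x.2 - y.2‖) := by positivity
    show ‖ph (-s) (W k ((lam : ℂ) * x.1, (lam : ℂ) * x.2)) -
      ph (-s) (W k ((lam : ℂ) * y.1, (lam : ℂ) * y.2))‖ ≤ _
    linarith
  · -- centre
    intro k
    have h10 : ((1 : ℂ), (0 : ℂ)) ∈ Bx (r / 2) := by
      refine ⟨?_, ?_⟩
      · simpa using hr0
      · simpa using hr0
    have h1r : ((1 : ℂ), (0 : ℂ)) ∈ Bx r := by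
      refine ⟨?_, ?_⟩
      · simpa using hr0
      · simpa using hr0
    have h1 := h.lip k _ (mem_lam hr0 S h10) _ h1r
    rw [(z_zero h k).2, sub_zero] at h1
    simp only [mul_one, mul_zero, sub_zero, norm_zero, add_zero] at h1
    have h2 : ‖(lam : ℂ) - 1‖ = 1 - lam := by
      have e : (lam : ℂ) - 1 = ((lam - 1 : ℝ) : ℂ) := by push_cast; ring
      rw [e, Complex.norm_real, Real.norm_eq_abs, abs_of_nonpos (by linarith)]
      ring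
    rw [h2] at h1
    have h3 : L * (1 - lam) ≤ L * (c * s) := mul_le_mul_of_nonneg_left S.l3 (by linarith)
    have h4 := S.s6
    have h5 := S.sσ
    have h6 : ‖W k ((lam : ℂ), 0)‖ ≤ 1 := by linarith
    have h7 := ph_sub hs1' h6
    rw [abs_neg, abs_of_pos hs] at h7
    have h8 : ‖ph (-s) (W k ((lam : ℂ), 0))‖ ≤
        ‖ph (-s) (W k ((lam : ℂ), 0)) - W k ((lam : ℂ), 0)‖ + ‖W k ((lam : ℂ), 0)‖ := by
      have := norm_add_le (ph (-s) (W k ((lam : ℂ), 0)) - W k ((lam : ℂ), 0)) (W k ((lam : ℂ), 0))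
      rwa [sub_add_cancel] at this
    show ‖ph (-s) (W k ((lam : ℂ) * 1, (lam : ℂ) * 0))‖ ≤ σ
    rw [mul_one, mul_zero]
    linarith
  · intro k x hx hp
    exact ww_pos h hL S k hx hp
  · -- z1
    intro k p h1 h2
    refine ⟨zz_mem h hL hκ1 hκr S k h1 h2, ?_⟩
    show ph (-s) (W k ((lam : ℂ) * zz (z k) s lam p, (lam : ℂ) * p.2)) = p.1
    rw [hcan]
    have h3 := (h.z1 k (ph s p.1, (lam : ℂ) * p.2) (S.P.w hκ1 h1).2 (S.P.y h2)).2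
    simp only at h3
    rw [h3]
    have h4 := ph_ps hs1' (S.P.w hκ1 h1).1
    rwa [neg_neg] at h4
  · -- z2
    intro k x hx h1 h2
    have e1 : ph s (ww (W k) s lam x) = W k ((lam : ℂ) * x.1, (lam : ℂ) * x.2) := by
      unfold ww
      exact gph_ps hs1 (by have := hWu k hx; rwa [abs_neg] at this)
    have h1' : ‖ww (W k) s lam x‖ < κ / 2 := h1
    have h3 := (S.P.w hκ1 h1').2
    rw [e1] at h3
    have h4 := h.z2 k _ (mem_lam hr0 S hx) h3 (S.P.y h2)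
    show z k (ph s (ww (W k) s lam x), (lam : ℂ) * x.2) / (lam : ℂ) = x.1
    simp only at h4
    rw [e1, h4]
    exact mul_div_cancel_left₀ _ hlc
  · -- sf
    intro j k
    have e : (fun p : ℂ × ℂ => ww (W k) s lam (zz (z j) s lam p, p.2)) =
        FF (fun p => W k (z j p, p.2)) s lam := by
      funext p
      show ph (-s) (W k ((lam : ℂ) * zz (z j) s lam p, (lam : ℂ) * p.2)) =
        ph (-s) (W k (z j (ph s p.1, (lam : ℂ) * p.2), (lam : ℂ) * p.2))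
      rw [hcan]
    show SF (κ / 2) (1024 * L ^ 2) (zz (z j) s lam)
      (fun p : ℂ × ℂ => ww (W k) s lam (zz (z j) s lam p, p.2))
    rw [e]
    refine sf_s (h.sf j k) hL hκ1 S ?_
    intro p h1 h2 h3
    have e2 : FF (fun p : ℂ × ℂ => W k (z j p, p.2)) s lam p =
        ww (W k) s lam (zz (z j) s lam p, p.2) := (congrFun e p).symm
    have e3 : rho (zz (z j) s lam) p = rb (zz (z j) s lam p, p.2) := rfl
    rw [e3] at h3 ⊢
    rw [e2]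
    exact ww_pos h hL S k (zz_mem h hL hκ1 hκr S j h1 h2) h3

theorem key_s {K : ℕ} {r κ L σ s lam c δ C r₁ : ℝ} {W z : Fin K → ℂ × ℂ → ℂ}
    (h : LC r κ L 0 W z)
    (hL : 1 ≤ L) (hκ1 : κ ≤ 1) (hκr : 16 * L * κ ≤ r) (S : Sm r κ L σ s lam c)
    (hr₁ : 0 < r₁) (hr₁' : r₁ ≤ r / 2) (hcs : 8 * (c * s) ≤ r₁)
    (H : ∀ W z : Fin K → ℂ × ℂ → ℂ, LC (r / 2) (κ / 2) (1024 * L ^ 2) σ W z →
      ∀ (f : Fin K → ℂ → ℂ) (η : ℝ), 0 < η →
      (∀ k, DifferentiableOn ℂ (f k) {w : ℂ | -η < w.im}) →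
      (∀ k, ∀ w : ℂ, 0 ≤ w.im → ‖f k w‖ ≤ 1) →
      (∀ k, ∃ c : ℂ, Tendsto (f k) (Bornology.cobounded ℂ ⊓ 𝓟 {w : ℂ | 0 ≤ w.im}) (𝓝 c)) →
      ∀ G : ℂ × ℂ → ℂ, DifferentiableOn ℂ G {x | x ∈ Bx (r / 2) ∧ 0 < rb x} →
      (∀ x ∈ Bx (r / 2), 0 < rb x → ‖G x‖ ≤ 1) →
      (∀ x ∈ Bx (r / 2), 0 < rb x → (∀ k, ‖f k (W k x)‖ < δ) → δ ≤ ‖G x‖) →
      Bz {x | x ∈ Bx r₁ ∧ 0 < rb x} W f G C)
    (f : Fin K → ℂ → ℂ) (hf : ∀ k, DifferentiableOn ℂ (f k) {w : ℂ | 0 < w.im})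
    (hfb : ∀ k, ∀ w : ℂ, 0 < w.im → ‖f k w‖ ≤ 1)
    (G : ℂ × ℂ → ℂ) (hG : DifferentiableOn ℂ G {x | x ∈ Bx r ∧ 0 < rb x})
    (hGb : ∀ x ∈ Bx r, 0 < rb x → ‖G x‖ ≤ 1)
    (hlow : ∀ x ∈ Bx r, 0 < rb x → (∀ k, ‖f k (W k x)‖ < δ) → δ ≤ ‖G x‖) :
    Bz {x | x ∈ Bx (r₁ / 4) ∧ c * s < rb x} W f G C := by
  have hs := S.P.s0
  have hs1 := S.P.s1
  have hs16 : s ≤ 1 / 16 := by rwa [abs_of_pos hs] at hs1
  have hl0 := S.P.l0
  have hlh := S.P.lh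
  have hl1 := S.P.l1
  have hlc : (lam : ℂ) ≠ 0 := by exact_mod_cast hl0.ne'
  have hr0 := h.r0
  have hl2 : lam ^ 2 = 1 - c * s := by
    have := S.P.l2
    rwa [← S.hc] at this
  have hc0 : 0 < c := by
    rw [S.hc]
    positivity
  have hcan : ∀ (k : Fin K) {x : ℂ × ℂ}, x ∈ Bx (r / 2) →
      ph s (ww (W k) s lam x) = W k ((lam : ℂ) * x.1, (lam : ℂ) * x.2) := by
    intro k x hx
    unfold ww
    refine gph_ps hs1 ?_
    have := W_bd h hL k (mem_lam hr0 S hx)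
    exact S.u hL (by linarith)
  have hrb : ∀ x : ℂ × ℂ, 0 < rb x → 0 < rb ((lam : ℂ) * x.1, (lam : ℂ) * x.2) := by
    intro x hx
    rw [rb_lam hl0 hl2 x]
    positivity
  have hmapG : DifferentiableOn ℂ (fun x : ℂ × ℂ => ((lam : ℂ) * x.1, (lam : ℂ) * x.2))
      {x | x ∈ Bx (r / 2) ∧ 0 < rb x} := by fun_prop
  obtain ⟨g, g₀, hg, hg0, hgb, hg0b, hid⟩ := H (fun k => ww (W k) s lam)
    (fun k => zz (z k) s lam) (lc_s h hL hκ1 hκr S)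
    (fun k w => f k (ph s w)) (s / 2) (by linarith)
    (fun k w hw => by
      have h1 := im_ph hs hs16 (w := w) hw
      have h2 : DifferentiableAt ℂ (f k) (ph s w) :=
        (hf k).differentiableAt
          ((isOpen_lt continuous_const Complex.continuous_im).mem_nhds h1.2)
      exact (DifferentiableAt.comp w h2 (ph_dat h1.1)).differentiableWithinAt)
    (fun k w hw => hfb k _ (im_ph hs hs16 (by linarith)).2)
    (fun k => by
      refine ⟨f k (I / s), ?_⟩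
      have h1 : 0 < (I / (s : ℂ)).im := by
        rw [Complex.div_ofReal_im, Complex.I_im]
        positivity
      have h2 : DifferentiableAt ℂ (f k) (I / s) :=
        (hf k).differentiableAt ((isOpen_lt continuous_const Complex.continuous_im).mem_nhds h1)
      exact (h2.continuousAt.tendsto.comp (ph_tendsto hs)).mono_left inf_le_left)
    (fun x => G ((lam : ℂ) * x.1, (lam : ℂ) * x.2))
    (hG.comp hmapG (fun x hx => ⟨mem_lam hr0 S hx.1, hrb x hx.2⟩))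
    (fun x hx hp => hGb _ (mem_lam hr0 S hx) (hrb x hp))
    (fun x hx hp hlt => hlow _ (mem_lam hr0 S hx) (hrb x hp) (fun k => by
      have h9 : ‖f k (ph s (ww (W k) s lam x))‖ < δ := hlt k
      rwa [hcan k hx] at h9))
  have hmap : ∀ x ∈ {x : ℂ × ℂ | x ∈ Bx (r₁ / 4) ∧ c * s < rb x},
      (x.1 / (lam : ℂ), x.2 / (lam : ℂ)) ∈ {x : ℂ × ℂ | x ∈ Bx r₁ ∧ 0 < rb x} := by
    rintro x ⟨⟨h1, h2⟩, h3⟩
    have hl3 := S.l3
    refine ⟨⟨?_, ?_⟩, ?_⟩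
    · show ‖x.1 / (lam : ℂ) - 1‖ < r₁
      have e : x.1 / (lam : ℂ) - 1 = ((x.1 - 1) + ((1 - lam : ℝ) : ℂ)) / (lam : ℂ) := by
        rw [eq_div_iff hlc, sub_mul, div_mul_cancel₀ _ hlc]
        push_cast
        ring
      rw [e, norm_div, Complex.norm_real, Real.norm_of_nonneg hl0.le, div_lt_iff₀ hl0]
      have h6 := norm_add_le (x.1 - 1) ((1 - lam : ℝ) : ℂ)
      rw [Complex.norm_real, Real.norm_of_nonneg (by linarith)] at h6
      nlinarith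
    · show ‖x.2 / (lam : ℂ)‖ < r₁
      rw [norm_div, Complex.norm_real, Real.norm_of_nonneg hl0.le, div_lt_iff₀ hl0]
      nlinarith
    · have e := rb_lam hl0 hl2 (x.1 / (lam : ℂ), x.2 / (lam : ℂ))
      simp only [mul_div_cancel₀ _ hlc] at e
      have e2 : rb (x.1, x.2) = rb x := rfl
      rw [e2] at e
      show 0 < rb (x.1 / (lam : ℂ), x.2 / (lam : ℂ))
      by_contra hcon
      push Not at hcon
      have : lam ^ 2 * rb (x.1 / (lam : ℂ), x.2 / (lam : ℂ)) ≤ 0 :=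
        mul_nonpos_of_nonneg_of_nonpos (by positivity) hcon
      linarith
  have hmap2 : DifferentiableOn ℂ (fun x : ℂ × ℂ => (x.1 / (lam : ℂ), x.2 / (lam : ℂ)))
      {x : ℂ × ℂ | x ∈ Bx (r₁ / 4) ∧ c * s < rb x} := by
    intro p _
    have h4 : DifferentiableAt ℂ (fun p : ℂ × ℂ => p.1 * (lam : ℂ)⁻¹) p := by fun_prop
    have h5 : DifferentiableAt ℂ (fun p : ℂ × ℂ => p.2 * (lam : ℂ)⁻¹) p := by fun_prop
    exact (h4.prodMk h5).differentiableWithinAt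
  refine ⟨fun k x => g k (x.1 / (lam : ℂ), x.2 / (lam : ℂ)),
    fun x => g₀ (x.1 / (lam : ℂ), x.2 / (lam : ℂ)), fun k => (hg k).comp hmap2 hmap,
    hg0.comp hmap2 hmap, fun k x hx => hgb k _ (hmap x hx), fun x hx => hg0b _ (hmap x hx), ?_⟩
  intro x hx
  have h1 := hmap x hx
  have h2 := hid _ h1
  have h3 : (x.1 / (lam : ℂ), x.2 / (lam : ℂ)) ∈ Bx (r / 2) := by
    refine ⟨h1.1.1.trans_le hr₁', h1.1.2.trans_le hr₁'⟩
  have h4 : ∀ k, ph s (ww (W k) s lam (x.1 / (lam : ℂ), x.2 / (lam : ℂ))) = W k x := by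
    intro k
    rw [hcan k h3]
    simp only [mul_div_cancel₀ _ hlc]
  simp only [h4, mul_div_cancel₀ _ hlc] at h2
  exact h2

theorem isOpen_rb (ρ t : ℝ) : IsOpen {x : ℂ × ℂ | x ∈ Bx ρ ∧ t < rb x} := by
  have h1 : IsOpen {x : ℂ × ℂ | ‖x.1 - 1‖ < ρ} := isOpen_lt (by fun_prop) continuous_const
  have h2 : IsOpen {x : ℂ × ℂ | ‖x.2‖ < ρ} := isOpen_lt (by fun_prop) continuous_const
  have h3 : IsOpen {x : ℂ × ℂ | t < rb x} := by
    unfold rb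
    exact isOpen_lt continuous_const (by fun_prop)
  exact (h1.inter h2).inter h3

/-- the proof of the target -/
theorem locV0 (K : ℕ) {r κ L δ : ℝ} (hr : 0 < r) (hκ : 0 < κ) (hκ1 : κ ≤ 1)
    (hL : 1 ≤ L) (hδ : 0 < δ) (hδ1 : δ ≤ 1) :
    ∃ C r₁ : ℝ, 0 < r₁ ∧ r₁ ≤ r ∧
    ∀ W z : Fin K → ℂ × ℂ → ℂ, LC r κ L 0 W z → ∀ f : Fin K → ℂ → ℂ,
      (∀ k, DifferentiableOn ℂ (f k) {w : ℂ | 0 < w.im}) →
      (∀ k, ∀ w : ℂ, 0 < w.im → ‖f k w‖ ≤ 1) →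
      ∀ G : ℂ × ℂ → ℂ, DifferentiableOn ℂ G {x | x ∈ Bx r ∧ 0 < rb x} →
      (∀ x ∈ Bx r, 0 < rb x → ‖G x‖ ≤ 1) →
      (∀ x ∈ Bx r, 0 < rb x → (∀ k, ‖f k (W k x)‖ < δ) → δ ≤ ‖G x‖) →
      Bz {x | x ∈ Bx r₁ ∧ 0 < rb x} W f G C := by
  obtain ⟨κ₀, hκ₀def⟩ : ∃ κ₀ : ℝ, κ₀ = min κ (r / (16 * L)) := ⟨_, rfl⟩
  have hκ₀ : 0 < κ₀ := by
    rw [hκ₀def]
    exact lt_min hκ (by positivity)
  have hκ₀1 : κ₀ ≤ κ := by rw [hκ₀def]; exact min_le_left _ _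
  have hκ₀2 : 16 * L * κ₀ ≤ r := by
    have h1 : κ₀ ≤ r / (16 * L) := by rw [hκ₀def]; exact min_le_right _ _
    rw [le_div_iff₀ (by positivity)] at h1
    linarith
  obtain ⟨C, r₁, σ₀, hr₁, hr₁', hσ₀, H⟩ := locU K (r := r / 2) (κ := κ₀ / 2) (L := 1024 * L ^ 2)
    (δ := δ) (by linarith) (by linarith) (by linarith) (by nlinarith) hδ hδ1
  refine ⟨C, r₁ / 4, by linarith, by linarith, ?_⟩
  intro W z h0 f hf hfb G hG hGb hlow
  have h : LC r κ₀ L 0 W z := lc_monoK h0 hκ₀ hκ₀1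
  obtain ⟨c, hcdef⟩ : ∃ c : ℝ, c = 8 * (2 * L ^ 2) ^ 2 + 1 := ⟨_, rfl⟩
  have hc : 0 < c := by rw [hcdef]; positivity
  obtain ⟨T, hT⟩ : ∃ T : ℝ, T = 16 / κ₀ + 2 * c + 64 * L + 16 * c / r + (L * c + 4) / σ₀ +
    L * c + 8 * c / r₁ := ⟨_, rfl⟩
  have t1 : 0 < 16 / κ₀ := by positivity
  have t2 : 0 < 64 * L := by positivity
  have t3 : 0 < 16 * c / r := by positivity
  have t4 : 0 < (L * c + 4) / σ₀ := by positivity
  have t5 : 0 < L * c := by positivity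
  have t6 : 0 < 8 * c / r₁ := by positivity
  have hTpos : 0 < T := by rw [hT]; positivity
  obtain ⟨s₀, hs₀def⟩ : ∃ s₀ : ℝ, s₀ = 1 / T := ⟨_, rfl⟩
  have hs₀ : 0 < s₀ := by rw [hs₀def]; positivity
  have hSm : ∀ s : ℝ, 0 < s → s ≤ s₀ →
      (∃ lam, Sm r κ₀ L σ₀ s lam c) ∧ 8 * (c * s) ≤ r₁ := by
    intro s hs hss
    have hsT : s * T ≤ 1 := by
      rw [hs₀def, le_div_iff₀ hTpos] at hss
      exact hss
    have hle : ∀ a : ℝ, a ≤ T → s * a ≤ 1 := fun a ha =>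
      (mul_le_mul_of_nonneg_left ha hs.le).trans hsT
    have u1 := hle (16 / κ₀) (by rw [hT]; linarith)
    have u2 := hle (2 * c) (by rw [hT]; linarith)
    have u3 := hle (64 * L) (by rw [hT]; linarith)
    have u4 := hle (16 * c / r) (by rw [hT]; linarith)
    have u5 := hle ((L * c + 4) / σ₀) (by rw [hT]; linarith)
    have u6 := hle (L * c) (by rw [hT]; linarith)
    have u7 := hle (8 * c / r₁) (by rw [hT]; linarith)
    rw [mul_div_assoc', div_le_iff₀ hκ₀] at u1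
    rw [mul_div_assoc', div_le_iff₀ hr] at u4
    rw [mul_div_assoc', div_le_iff₀ hσ₀] at u5
    rw [mul_div_assoc', div_le_iff₀ hr₁] at u7
    refine ⟨⟨√(1 - c * s), hcdef, ?_, by linarith, by linarith, by linarith, by linarith⟩,
      by linarith⟩
    refine par (by linarith) hs (by linarith) ?_ ?_
    · rw [← hcdef]; linarith
    · rw [← hcdef]
  have key : ∀ s : ℝ, 0 < s → s ≤ s₀ → Bz {x | x ∈ Bx (r₁ / 4) ∧ c * s < rb x} W f G C := by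
    intro s hs hss
    obtain ⟨⟨lam, S⟩, h8⟩ := hSm s hs hss
    exact key_s h hL (by linarith) hκ₀2 S hr₁ hr₁' h8 H f hf hfb G hG hGb hlow
  have hsm : ∀ m : ℕ, 0 < s₀ / ((m : ℝ) + 1) := fun m => by positivity
  have hsm1 : ∀ m : ℕ, s₀ / ((m : ℝ) + 1) ≤ s₀ := fun m => by
    rw [div_le_iff₀ (by positivity)]
    have : (0 : ℝ) ≤ m := Nat.cast_nonneg m
    nlinarith
  have hanti : ∀ m m' : ℕ, m ≤ m' → s₀ / ((m' : ℝ) + 1) ≤ s₀ / ((m : ℝ) + 1) := by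
    intro m m' hm
    have : (m : ℝ) ≤ m' := by exact_mod_cast hm
    exact div_le_div_of_nonneg_left hs₀.le (by positivity) (by linarith)
  have hex := Pool.Agent.H788R3.Cor2.exhaust (C := C)
    (fun m : ℕ => {x : ℂ × ℂ | x ∈ Bx (r₁ / 4) ∧ c * (s₀ / ((m : ℝ) + 1)) < rb x})
    (fun m => isOpen_rb _ _)
    (fun m m' hm x hx => ⟨hx.1, lt_of_le_of_lt
      (mul_le_mul_of_nonneg_left (hanti m m' hm) hc.le) hx.2⟩)
    (fun k x => f k (W k x)) G (fun m => key _ (hsm m) (hsm1 m))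
  have hU : (⋃ m : ℕ, {x : ℂ × ℂ | x ∈ Bx (r₁ / 4) ∧ c * (s₀ / ((m : ℝ) + 1)) < rb x}) =
      {x : ℂ × ℂ | x ∈ Bx (r₁ / 4) ∧ 0 < rb x} := by
    ext x
    simp only [mem_iUnion]
    constructor
    · rintro ⟨m, hx⟩
      refine ⟨hx.1, lt_trans ?_ hx.2⟩
      have := hsm m
      positivity
    · intro hx
      have h0 : 0 < rb x := hx.2
      obtain ⟨m, hm⟩ := exists_nat_gt (c * s₀ / rb x)
      refine ⟨m, hx.1, ?_⟩
      rw [div_lt_iff₀ h0] at hm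
      rw [mul_div_assoc', div_lt_iff₀ (by positivity)]
      nlinarith
  rw [hU] at hex
  exact hex

end V6

/-- **TARGET** -/
theorem locV (K : ℕ) {r κ L δ : ℝ} (hr : 0 < r) (hκ : 0 < κ) (hκ1 : κ ≤ 1)
    (hL : 1 ≤ L) (hδ : 0 < δ) (hδ1 : δ ≤ 1) :
    ∃ C r₁ : ℝ, 0 < r₁ ∧ r₁ ≤ r ∧
    ∀ W z : Fin K → ℂ × ℂ → ℂ, LC r κ L 0 W z → ∀ f : Fin K → ℂ → ℂ,
      (∀ k, DifferentiableOn ℂ (f k) {w : ℂ | 0 < w.im}) →
      (∀ k, ∀ w : ℂ, 0 < w.im → ‖f k w‖ ≤ 1) →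
      ∀ G : ℂ × ℂ → ℂ, DifferentiableOn ℂ G {x | x ∈ Bx r ∧ 0 < rb x} →
      (∀ x ∈ Bx r, 0 < rb x → ‖G x‖ ≤ 1) →
      (∀ x ∈ Bx r, 0 < rb x → (∀ k, ‖f k (W k x)‖ < δ) → δ ≤ ‖G x‖) →
      Bz {x | x ∈ Bx r₁ ∧ 0 < rb x} W f G C :=
  V6.locV0 K hr hκ hκ1 hL hδ hδ1

end Pool.Agent.P157C
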