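import Mathlib
import Pool.Agent.P157C.LocV
import Pool.Agent.P157C.LCx

set_option autoImplicit false

open MeasureTheory Metric Set Filter Topology Complex

namespace Pool.Agent.P157C

/-- an orthonormal frame with first vector `p` -/
theorem locK_frame_U8a (p : EuclideanSpace ℂ (Fin 2)) (hp : ‖p‖ = 1) :
    ∃ q : EuclideanSpace ℂ (Fin 2), (∀ a b : ℂ, ‖a • p + b • q‖ ^ 2 = ‖a‖ ^ 2 + ‖b‖ ^ 2) ∧
      (∀ x : EuclideanSpace ℂ (Fin 2), (inner ℂ p x : ℂ) • p + (inner ℂ q x : ℂ) • q = x) ∧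
      inner ℂ p p = (1 : ℂ) ∧ inner ℂ q p = (0 : ℂ) := by
  have hpp : (inner ℂ p p : ℂ) = 1 := by
    rw [inner_self_eq_norm_sq_to_K, hp]; simp
  have hpp2 : p 0 * (starRingEnd ℂ) (p 0) + p 1 * (starRingEnd ℂ) (p 1) = 1 := by
    rw [PiLp.inner_apply, Fin.sum_univ_two] at hpp
    exact hpp
  refine ⟨!₂[-(starRingEnd ℂ) (p 1), (starRingEnd ℂ) (p 0)], ?_, ?_, hpp, ?_⟩
  · intro a b
    have h0 : (inner ℂ p (!₂[-(starRingEnd ℂ) (p 1), (starRingEnd ℂ) (p 0)] :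
        EuclideanSpace ℂ (Fin 2)) : ℂ) = 0 := by
      rw [PiLp.inner_apply, Fin.sum_univ_two]
      simp
      ring
    have hq : ‖(!₂[-(starRingEnd ℂ) (p 1), (starRingEnd ℂ) (p 0)] :
        EuclideanSpace ℂ (Fin 2))‖ ^ 2 = 1 := by
      rw [EuclideanSpace.norm_sq_eq, Fin.sum_univ_two]
      have := EuclideanSpace.norm_sq_eq p
      rw [hp, Fin.sum_univ_two] at this
      simp
      linarith
    rw [@norm_add_sq ℂ, inner_smul_left, inner_smul_right, h0, norm_smul, norm_smul, mul_pow,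
      mul_pow, hq, hp]
    simp
  · intro x
    ext i
    fin_cases i
    · simp only [PiLp.inner_apply, Fin.sum_univ_two]
      simp
      linear_combination (x 0) * hpp2
    · simp only [PiLp.inner_apply, Fin.sum_univ_two]
      simp
      linear_combination (x 1) * hpp2
  · rw [PiLp.inner_apply, Fin.sum_univ_two]
    simp
    ring

/-- Cayley map -/
noncomputable def locK_cay_U8a (u : ℂ) : ℂ := I * (1 - u) / (1 + u)

/-- inverse of the Cayley map -/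
noncomputable def locK_cayI_U8a (w : ℂ) : ℂ := (I - w) / (I + w)

theorem locK_cay_im_U8a (u : ℂ) : (locK_cay_U8a u).im = (1 - ‖u‖ ^ 2) / ‖1 + u‖ ^ 2 := by
  unfold locK_cay_U8a
  rw [Complex.div_im, Complex.sq_norm, Complex.sq_norm]
  rw [← sub_div]
  congr 1
  rw [Complex.normSq_apply]
  simp only [Complex.mul_im, Complex.mul_re, Complex.I_re, Complex.I_im, Complex.sub_re,
    Complex.sub_im, Complex.add_re, Complex.add_im, Complex.one_re, Complex.one_im]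
  ring

theorem locK_cayI_cay_U8a {u : ℂ} (hu : 1 + u ≠ 0) : locK_cayI_U8a (locK_cay_U8a u) = u := by
  unfold locK_cayI_U8a locK_cay_U8a
  have h2 : I + I * (1 - u) / (1 + u) ≠ 0 := by
    have : I + I * (1 - u) / (1 + u) = 2 * I / (1 + u) := by
      field_simp
      ring
    rw [this]
    exact div_ne_zero (mul_ne_zero two_ne_zero I_ne_zero) hu
  rw [div_eq_iff h2]
  field_simp
  ring

theorem locK_half_ne_U8a {w : ℂ} (hw : 0 < w.im) : I + w ≠ 0 := by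
  intro h
  have := congrArg Complex.im h
  simp at this
  linarith

theorem locK_cayI_norm_U8a {w : ℂ} (hw : 0 < w.im) : ‖locK_cayI_U8a w‖ < 1 := by
  unfold locK_cayI_U8a
  rw [norm_div, div_lt_one (norm_pos_iff.mpr (locK_half_ne_U8a hw))]
  have h1 : ‖I - w‖ ^ 2 < ‖I + w‖ ^ 2 := by
    rw [Complex.sq_norm, Complex.sq_norm, Complex.normSq_apply, Complex.normSq_apply]
    simp
    nlinarith
  exact lt_of_pow_lt_pow_left₀ 2 (norm_nonneg _) h1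

theorem locK_cayI_diff_U8a : DifferentiableOn ℂ locK_cayI_U8a {w : ℂ | 0 < w.im} := by
  intro w hw
  apply DifferentiableAt.differentiableWithinAt
  unfold locK_cayI_U8a
  exact ((differentiableAt_const _).sub differentiableAt_id).div
    ((differentiableAt_const _).add differentiableAt_id) (locK_half_ne_U8a hw)

/-- **TARGET** -/
theorem locK (K : ℕ) {δ ρ₀ c : ℝ} (hδ : 0 < δ) (hδ1 : δ ≤ 1) (hρ₀ : 0 < ρ₀) (hc : 0 < c)
    {ψ : Fin K → EuclideanSpace ℂ (Fin 2) → ℂ} {p : EuclideanSpace ℂ (Fin 2)} (hp : ‖p‖ = 1)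
    (hψ : ∀ k, AnalyticAt ℂ (ψ k) p)
    (hψ1 : ∀ k, ∀ᶠ x in 𝓝 p, ‖x‖ < 1 → c * (1 - ‖x‖ ^ 2) ≤ 1 - ‖ψ k x‖ ^ 2)
    (hψp : ∀ k, ‖ψ k p‖ = 1) :
    ∃ C ρ : ℝ, 0 < ρ ∧ ρ ≤ ρ₀ ∧
      ∀ f : Fin K → ℂ → ℂ, (∀ k, DifferentiableOn ℂ (f k) (ball 0 1)) →
      (∀ k, ∀ w ∈ ball (0 : ℂ) 1, ‖f k w‖ ≤ 1) →
      ∀ G : EuclideanSpace ℂ (Fin 2) → ℂ, DifferentiableOn ℂ G (ball 0 1 ∩ ball p ρ₀) →
      (∀ x ∈ ball (0 : EuclideanSpace ℂ (Fin 2)) 1 ∩ ball p ρ₀, ‖G x‖ ≤ 1) →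
      (∀ x ∈ ball (0 : EuclideanSpace ℂ (Fin 2)) 1 ∩ ball p ρ₀,
        (∀ k, ‖f k (ψ k x)‖ < δ) → δ ≤ ‖G x‖) →
      ∃ (g : Fin K → EuclideanSpace ℂ (Fin 2) → ℂ) (g₀ : EuclideanSpace ℂ (Fin 2) → ℂ),
        (∀ k, DifferentiableOn ℂ (g k) (ball 0 1 ∩ ball p ρ)) ∧
        DifferentiableOn ℂ g₀ (ball 0 1 ∩ ball p ρ) ∧
        (∀ k, ∀ x ∈ ball (0 : EuclideanSpace ℂ (Fin 2)) 1 ∩ ball p ρ, ‖g k x‖ ≤ C) ∧
        (∀ x ∈ ball (0 : EuclideanSpace ℂ (Fin 2)) 1 ∩ ball p ρ, ‖g₀ x‖ ≤ C) ∧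
        ∀ x ∈ ball (0 : EuclideanSpace ℂ (Fin 2)) 1 ∩ ball p ρ,
          ∑ k, f k (ψ k x) * g k x + G x * g₀ x = 1 := by
  obtain ⟨q, hq1, hq2, hpp, hqp⟩ := locK_frame_U8a p hp
  have hψ0 : ∀ k, ψ k p ≠ 0 := by
    intro k h
    have := hψp k
    rw [h, norm_zero] at this
    exact zero_ne_one this
  -- the linear maps
  have hΦd : ∀ t : ℂ × ℂ, DifferentiableAt ℂ (fun t : ℂ × ℂ => t.1 • p + t.2 • q) t := by
    intro t
    exact (differentiableAt_fst.smul_const p).add (differentiableAt_snd.smul_const q)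
  have hΦa : ∀ t : ℂ × ℂ, AnalyticAt ℂ (fun t : ℂ × ℂ => t.1 • p + t.2 • q) t := by
    intro t
    exact (analyticAt_fst.smul analyticAt_const).add (analyticAt_snd.smul analyticAt_const)
  have hΦc : Continuous (fun t : ℂ × ℂ => t.1 • p + t.2 • q) := by fun_prop
  have hAd : ∀ x : EuclideanSpace ℂ (Fin 2), DifferentiableAt ℂ
      (fun x : EuclideanSpace ℂ (Fin 2) => ((inner ℂ p x : ℂ), (inner ℂ q x : ℂ))) x := by
    intro x
    exact ((innerSL ℂ p).differentiableAt).prodMk ((innerSL ℂ q).differentiableAt)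
  have hA1 : ((inner ℂ p p : ℂ), (inner ℂ q p : ℂ)) = ((1 : ℂ), (0 : ℂ)) := by
    rw [hpp, hqp]
  have hΦ1 : (1 : ℂ) • p + (0 : ℂ) • q = p := by simp
  -- the functions `W k`
  set W : Fin K → ℂ × ℂ → ℂ := fun k t => locK_cay_U8a (ψ k (t.1 • p + t.2 • q) / ψ k p) with hWdef
  have hcay : ∀ u : ℂ, 1 + u ≠ 0 → AnalyticAt ℂ locK_cay_U8a u := by
    intro u hu
    unfold locK_cay_U8a
    exact (analyticAt_const.mul (analyticAt_const.sub analyticAt_id)).div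
      (analyticAt_const.add analyticAt_id) hu
  have hψt : ∀ k, AnalyticAt ℂ (fun t : ℂ × ℂ => ψ k (t.1 • p + t.2 • q) / ψ k p) (1, 0) := by
    intro k
    apply AnalyticAt.div _ analyticAt_const (hψ0 k)
    apply AnalyticAt.fun_comp _ (hΦa (1, 0))
    simpa using hψ k
  have hWa : ∀ k, AnalyticAt ℂ (W k) (1, 0) := by
    intro k
    rw [hWdef]
    apply AnalyticAt.fun_comp _ (hψt k)
    apply hcay
    simp only [hΦ1, div_self (hψ0 k)]
    norm_num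
  have hW0 : ∀ k, W k (1, 0) = 0 := by
    intro k
    rw [hWdef]
    simp only [hΦ1, div_self (hψ0 k)]
    simp [locK_cay_U8a]
  have hΦt : Tendsto (fun t : ℂ × ℂ => t.1 • p + t.2 • q) (𝓝 ((1 : ℂ), (0 : ℂ))) (𝓝 p) := by
    have := hΦc.tendsto ((1 : ℂ), (0 : ℂ))
    simpa using this
  have hrb : ∀ t : ℂ × ℂ, 1 - ‖t.1 • p + t.2 • q‖ ^ 2 = rb t := by
    intro t
    rw [hq1]
    unfold rb
    ring
  have hlt : ∀ t : ℂ × ℂ, 0 < rb t → ‖t.1 • p + t.2 • q‖ < 1 := by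
    intro t ht
    rw [← hrb] at ht
    exact (sq_lt_one_iff₀ (norm_nonneg _)).mp (by linarith)
  have hcont : ∀ k, ContinuousAt (fun t : ℂ × ℂ => 1 + ψ k (t.1 • p + t.2 • q) / ψ k p) (1, 0) :=
    fun k => continuousAt_const.add (hψt k).continuousAt
  have hne : ∀ k, ∀ᶠ t in 𝓝 ((1 : ℂ), (0 : ℂ)), 1 + ψ k (t.1 • p + t.2 • q) / ψ k p ≠ 0 := by
    intro k
    apply (hcont k).eventually_ne
    simp only [hΦ1, div_self (hψ0 k)]
    norm_num
  have hle8 : ∀ k, ∀ᶠ t in 𝓝 ((1 : ℂ), (0 : ℂ)),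
      ‖1 + ψ k (t.1 • p + t.2 • q) / ψ k p‖ ^ 2 < 8 := by
    intro k
    have h1 : Tendsto (fun t : ℂ × ℂ => ‖1 + ψ k (t.1 • p + t.2 • q) / ψ k p‖ ^ 2)
        (𝓝 ((1 : ℂ), (0 : ℂ))) (𝓝 4) := by
      have h2 : Tendsto (fun t : ℂ × ℂ => ‖1 + ψ k (t.1 • p + t.2 • q) / ψ k p‖ ^ 2)
          (𝓝 ((1 : ℂ), (0 : ℂ))) (𝓝 (‖1 + ψ k ((1 : ℂ) • p + (0 : ℂ) • q) / ψ k p‖ ^ 2)) :=
        (hcont k).norm.tendsto.pow 2
      have e : ‖1 + ψ k ((1 : ℂ) • p + (0 : ℂ) • q) / ψ k p‖ ^ 2 = 4 := by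
        rw [hΦ1, div_self (hψ0 k), show (1 : ℂ) + 1 = ((2 : ℝ) : ℂ) by norm_num,
          Complex.norm_real]
        norm_num
      rw [e] at h2
      exact h2
    exact h1.eventually (gt_mem_nhds (by norm_num))
  have hWpos : ∀ k, ∀ᶠ t in 𝓝 ((1 : ℂ), (0 : ℂ)), 0 < rb t → rb t ≤ (8 / c) * (W k t).im := by
    intro k
    filter_upwards [hΦt.eventually (hψ1 k), hle8 k, hne k] with t ht ht8 htn ht1
    have h1 := ht (hlt t ht1)
    rw [hrb] at h1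
    have h2 : (W k t).im = (1 - ‖ψ k (t.1 • p + t.2 • q)‖ ^ 2) /
        ‖1 + ψ k (t.1 • p + t.2 • q) / ψ k p‖ ^ 2 := by
      rw [hWdef]
      simp only
      rw [locK_cay_im_U8a, norm_div, hψp k, div_one]
    have h3 : 0 < ‖1 + ψ k (t.1 • p + t.2 • q) / ψ k p‖ ^ 2 := by
      have := norm_pos_iff.mpr htn
      positivity
    have h4 : c * rb t / 8 ≤ (W k t).im := by
      rw [h2]
      apply div_le_div₀ _ h1 h3 ht8.le
      exact le_trans (by positivity) h1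
    calc rb t = (8 / c) * (c * rb t / 8) := by field_simp
      _ ≤ (8 / c) * (W k t).im := mul_le_mul_of_nonneg_left h4 (by positivity)
  have hball : ∀ᶠ t in 𝓝 ((1 : ℂ), (0 : ℂ)), t.1 • p + t.2 • q ∈ ball p ρ₀ :=
    hΦt.eventually (ball_mem_nhds p hρ₀)
  have hAn : ∀ᶠ t in 𝓝 ((1 : ℂ), (0 : ℂ)), ∀ k, 1 + ψ k (t.1 • p + t.2 • q) / ψ k p ≠ 0 :=
    Filter.eventually_all.mpr hne
  obtain ⟨ρ', hρ', hρ's⟩ := Metric.eventually_nhds_iff_ball.mp (hball.and hAn)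
  obtain ⟨r, κ, L, z, hr, hrρ, hκ, hκ1, hL, hLC⟩ :=
    lc_exists W hWa hW0 (c := 8 / c) (by positivity) hWpos hρ'
  obtain ⟨C, r₁, hr₁, hr₁r, hloc⟩ := locV K (r := r) (κ := κ) (L := L) (δ := δ) hr hκ hκ1 hL hδ hδ1
  have hBx : ∀ t : ℂ × ℂ, ∀ s : ℝ, 0 < s → (t ∈ Bx s ↔ t ∈ ball ((1 : ℂ), (0 : ℂ)) s) := by
    intro t s hs
    rw [mem_ball, Prod.dist_eq, max_lt_iff, dist_eq_norm, dist_eq_norm]
    simp [Bx]
  have hBr : ∀ t ∈ Bx r, t.1 • p + t.2 • q ∈ ball p ρ₀ ∧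
      ∀ k, 1 + ψ k (t.1 • p + t.2 • q) / ψ k p ≠ 0 := by
    intro t ht
    apply hρ's
    rw [hBx t r hr] at ht
    exact ball_subset_ball hrρ ht
  -- the neighbourhood of `p`
  have hAt : Tendsto (fun x : EuclideanSpace ℂ (Fin 2) =>
      ((inner ℂ p x : ℂ), (inner ℂ q x : ℂ))) (𝓝 p) (𝓝 ((1 : ℂ), (0 : ℂ))) := by
    have := (hAd p).continuousAt.tendsto
    rw [hA1] at this
    exact this
  have hall := hAt.eventually (ball_mem_nhds ((1 : ℂ), (0 : ℂ)) hr₁)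
  obtain ⟨ρ₁, hρ₁, hρ₁s⟩ := Metric.eventually_nhds_iff_ball.mp hall
  refine ⟨C, min ρ₀ ρ₁, lt_min hρ₀ hρ₁, min_le_left _ _, ?_⟩
  intro f hf hf1 G hG hG1 hGδ
  -- points of the domain
  have hin : ∀ t : ℂ × ℂ, t ∈ Bx r → 0 < rb t → t.1 • p + t.2 • q ∈
      ball (0 : EuclideanSpace ℂ (Fin 2)) 1 ∩ ball p ρ₀ := by
    intro t ht1 ht2
    refine ⟨?_, (hBr t ht1).1⟩
    rw [mem_ball_zero_iff]
    exact hlt t ht2
  have hval : ∀ k, ∀ t ∈ Bx r, ψ k p * locK_cayI_U8a (W k t) = ψ k (t.1 • p + t.2 • q) := by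
    intro k t ht
    have h7 : locK_cayI_U8a (W k t) = ψ k (t.1 • p + t.2 • q) / ψ k p :=
      locK_cayI_cay_U8a ((hBr t ht).2 k)
    rw [h7, mul_div_cancel₀ _ (hψ0 k)]
  have hsol : Bz {x | x ∈ Bx r₁ ∧ 0 < rb x} W (fun k w => f k (ψ k p * locK_cayI_U8a w))
      (fun t => G (t.1 • p + t.2 • q)) C := by
    refine hloc W z hLC (fun k w => f k (ψ k p * locK_cayI_U8a w)) ?_ ?_
      (fun t => G (t.1 • p + t.2 • q)) ?_ ?_ ?_
    · intro k
      apply (hf k).comp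
      · exact (differentiableOn_const _).mul locK_cayI_diff_U8a
      · intro w hw
        rw [mem_ball_zero_iff, norm_mul, hψp k, one_mul]
        exact locK_cayI_norm_U8a hw
    · intro k w hw
      apply hf1 k
      rw [mem_ball_zero_iff, norm_mul, hψp k, one_mul]
      exact locK_cayI_norm_U8a hw
    · apply hG.comp
      · intro t _
        exact (hΦd t).differentiableWithinAt
      · intro t ht
        exact hin t ht.1 ht.2
    · intro t ht ht2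
      exact hG1 _ (hin t ht ht2)
    · intro t ht ht2 h1
      apply hGδ _ (hin t ht ht2)
      intro k
      have h2 : ‖f k (ψ k p * locK_cayI_U8a (W k t))‖ < δ := h1 k
      rw [hval k t ht] at h2
      exact h2
  obtain ⟨g, g₀, hg1, hg2, hg3, hg4, hg5⟩ := hsol
  have hP : ∀ x ∈ ball (0 : EuclideanSpace ℂ (Fin 2)) 1 ∩ ball p (min ρ₀ ρ₁),
      ((inner ℂ p x : ℂ), (inner ℂ q x : ℂ)) ∈ {x | x ∈ Bx r₁ ∧ 0 < rb x} := by
    rintro x ⟨hx1, hx2⟩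
    have h1 := hρ₁s x (ball_subset_ball (min_le_right _ _) hx2)
    refine ⟨(hBx _ r₁ hr₁).mpr h1, ?_⟩
    rw [← hrb]
    simp only
    rw [hq2 x]
    rw [mem_ball_zero_iff] at hx1
    have := norm_nonneg x
    nlinarith
  have hPr : ∀ x ∈ ball (0 : EuclideanSpace ℂ (Fin 2)) 1 ∩ ball p (min ρ₀ ρ₁),
      ((inner ℂ p x : ℂ), (inner ℂ q x : ℂ)) ∈ Bx r := by
    intro x hx
    have h1 := (hP x hx).1
    exact ⟨lt_of_lt_of_le h1.1 hr₁r, lt_of_lt_of_le h1.2 hr₁r⟩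
  refine ⟨fun k x => g k ((inner ℂ p x : ℂ), (inner ℂ q x : ℂ)),
    fun x => g₀ ((inner ℂ p x : ℂ), (inner ℂ q x : ℂ)), ?_, ?_, ?_, ?_, ?_⟩
  · intro k
    exact (hg1 k).comp (fun x _ => (hAd x).differentiableWithinAt) (fun x hx => hP x hx)
  · exact hg2.comp (fun x _ => (hAd x).differentiableWithinAt) (fun x hx => hP x hx)
  · intro k x hx
    exact hg3 k _ (hP x hx)
  · intro x hx
    exact hg4 _ (hP x hx)
  · intro x hx
    have h4 := hg5 _ (hP x hx)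
    simp only at h4
    rw [hq2 x] at h4
    rw [← h4]
    congr 1
    apply Finset.sum_congr rfl
    intro k _
    rw [hval k _ (hPr x hx)]
    simp only
    rw [hq2 x]

end Pool.Agent.P157C
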