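import Mathlib
import Pool.Agent.TH310.Cor.Whit
import Pool.Agent.P157C.LocK
import Pool.Agent.P157C.Glue

set_option autoImplicit false

open Metric Set Filter Topology WeakDual

namespace Pool.Agent.P157C

open Pool.Agent.TH310.Cor

theorem uni_sp_U8b {ψ : V 2 → ℂ} (hψ : DifferentiableOn ℂ ψ (ball 0 1))
    (hψ1 : ∀ x ∈ ball (0 : V 2) 1, ‖ψ x‖ < 1) {x : V 2} (hx : x ∈ ball (0 : V 2) 1) :
    (1 - ‖ψ 0‖) / 2 * (1 - ‖x‖ ^ 2) ≤ 1 - ‖ψ x‖ ^ 2 := by
  have h0 : (0 : V 2) ∈ ball (0 : V 2) 1 := mem_ball_self one_pos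
  set a : ℂ := ψ 0 with ha
  have ha1 : ‖a‖ < 1 := hψ1 0 h0
  have ha0 : 0 ≤ ‖a‖ := norm_nonneg a
  have hden : ∀ y ∈ ball (0 : V 2) 1, 1 - ‖a‖ ≤ ‖1 - (starRingEnd ℂ) a * ψ y‖ := by
    intro y hy
    have h1 := norm_sub_norm_le (1 : ℂ) ((starRingEnd ℂ) a * ψ y)
    rw [norm_one, norm_mul, RCLike.norm_conj] at h1
    have h2 : ‖a‖ * ‖ψ y‖ ≤ ‖a‖ * 1 := mul_le_mul_of_nonneg_left (hψ1 y hy).le ha0
    linarith
  have hden0 : ∀ y ∈ ball (0 : V 2) 1, 1 - (starRingEnd ℂ) a * ψ y ≠ 0 := by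
    intro y hy h
    have := hden y hy
    rw [h, norm_zero] at this
    linarith
  have hid : ∀ b : ℂ, ‖1 - (starRingEnd ℂ) a * b‖ ^ 2 - ‖b - a‖ ^ 2 = (1 - ‖a‖ ^ 2) * (1 - ‖b‖ ^ 2) := by
    intro b
    rw [← Complex.normSq_eq_norm_sq, ← Complex.normSq_eq_norm_sq, ← Complex.normSq_eq_norm_sq,
      ← Complex.normSq_eq_norm_sq]
    simp only [Complex.normSq_apply, Complex.sub_re, Complex.sub_im, Complex.one_re, Complex.one_im,
      Complex.mul_re, Complex.mul_im, Complex.conj_re, Complex.conj_im]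
    ring
  have hmd : DifferentiableOn ℂ (fun y => (ψ y - a) / (1 - (starRingEnd ℂ) a * ψ y)) (ball 0 1) := by
    simp only [div_eq_mul_inv]
    exact (hψ.sub_const a).mul (((hψ.const_mul _).const_sub 1).inv hden0)
  have hle : ∀ y ∈ ball (0 : V 2) 1, ‖ψ y - a‖ ≤ ‖1 - (starRingEnd ℂ) a * ψ y‖ := by
    intro y hy
    have h1 := hid (ψ y)
    have h2 : 0 ≤ (1 - ‖a‖ ^ 2) * (1 - ‖ψ y‖ ^ 2) := by
      apply mul_nonneg
      · nlinarith
      · have := hψ1 y hy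
        have := norm_nonneg (ψ y)
        nlinarith
    have h3 : ‖ψ y - a‖ ^ 2 ≤ ‖1 - (starRingEnd ℂ) a * ψ y‖ ^ 2 := by linarith
    exact (pow_le_pow_iff_left₀ (norm_nonneg _) (norm_nonneg _) (by norm_num)).mp h3
  have hmm : MapsTo (fun y => (ψ y - a) / (1 - (starRingEnd ℂ) a * ψ y)) (ball 0 1)
      (closedBall 0 1) := by
    intro y hy
    rw [mem_closedBall_zero_iff, norm_div]
    exact div_le_one_of_le₀ (hle y hy) (norm_nonneg _)
  have hs := Complex.norm_le_norm_of_mapsTo_ball hmd hmm (by simp [ha]) (mem_ball_zero_iff.mp hx)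
  rw [norm_div, div_le_iff₀ (norm_pos_iff.mpr (hden0 x hx))] at hs
  have h1 := hid (ψ x)
  have h2 := hden x hx
  have hx1 : ‖x‖ < 1 := mem_ball_zero_iff.mp hx
  have hx0 := norm_nonneg x
  set N1 : ℝ := ‖1 - (starRingEnd ℂ) a * ψ x‖ with hN1
  set N2 : ℝ := ‖ψ x - a‖ with hN2
  have hN20 : 0 ≤ N2 := norm_nonneg _
  have h3 : N2 ^ 2 ≤ (‖x‖ * N1) ^ 2 := pow_le_pow_left₀ hN20 hs 2
  have h4 : (1 - ‖a‖) ^ 2 ≤ N1 ^ 2 := pow_le_pow_left₀ (by linarith) h2 2
  have h5 : (1 - ‖x‖ ^ 2) * (1 - ‖a‖) ^ 2 ≤ (1 - ‖a‖ ^ 2) * (1 - ‖ψ x‖ ^ 2) := by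
    have h6 : 0 ≤ 1 - ‖x‖ ^ 2 := by nlinarith
    calc (1 - ‖x‖ ^ 2) * (1 - ‖a‖) ^ 2 ≤ (1 - ‖x‖ ^ 2) * N1 ^ 2 := mul_le_mul_of_nonneg_left h4 h6
      _ = N1 ^ 2 - (‖x‖ * N1) ^ 2 := by ring
      _ ≤ N1 ^ 2 - N2 ^ 2 := by linarith
      _ = _ := h1
  have h7 : (1 - ‖a‖) * ((1 - ‖x‖ ^ 2) * (1 - ‖a‖)) ≤ (1 - ‖a‖) * ((1 + ‖a‖) * (1 - ‖ψ x‖ ^ 2)) := by
    nlinarith
  have h8 := le_of_mul_le_mul_left h7 (by linarith : 0 < 1 - ‖a‖)
  have h9 : 0 ≤ 1 - ‖ψ x‖ ^ 2 := by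
    have := hψ1 x hx
    have := norm_nonneg (ψ x)
    nlinarith
  nlinarith

theorem uni_close_U8b {f : ℂ → ℂ} (hf : DifferentiableOn ℂ f (ball 0 1))
    (hf1 : ∀ w ∈ ball (0 : ℂ) 1, ‖f w‖ ≤ 1) {w₀ w : ℂ} (hw₀ : ‖w₀‖ < 1) (hw : ‖w - w₀‖ < 1 - ‖w₀‖) :
    ‖f w - f w₀‖ ≤ 2 / (1 - ‖w₀‖) * ‖w - w₀‖ := by
  have hsub : ball w₀ (1 - ‖w₀‖) ⊆ ball (0 : ℂ) 1 := by
    intro z hz
    rw [mem_ball_iff_norm] at hz
    rw [mem_ball_zero_iff]
    have := norm_le_norm_add_norm_sub' z w₀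
    linarith
  have hmaps : MapsTo f (ball w₀ (1 - ‖w₀‖)) (closedBall (f w₀) 2) := by
    intro z hz
    rw [mem_closedBall_iff_norm]
    have h1 := hf1 z (hsub hz)
    have h2 := hf1 w₀ (mem_ball_zero_iff.mpr hw₀)
    have h3 := norm_sub_le (f z) (f w₀)
    linarith
  have := Complex.dist_le_div_mul_dist_of_mapsTo_ball (hf.mono hsub) hmaps
    (mem_ball_iff_norm.mpr hw)
  rwa [dist_eq_norm, dist_eq_norm] at this

/-- **TARGET** -/
theorem uni (K : ℕ) {δ : ℝ} (hδ : 0 < δ) (ψ : Fin K → V 2 → ℂ)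
    (hψ : ∀ k, AnalyticOnNhd ℂ (ψ k) (closedBall 0 1))
    (hψ1 : ∀ k, ∀ x ∈ ball (0 : V 2) 1, ‖ψ k x‖ < 1) :
    ∃ C : ℝ, ∀ f : Fin K → ℂ → ℂ, (∀ k, DifferentiableOn ℂ (f k) (ball 0 1)) →
      (∀ k, ∀ w ∈ ball (0 : ℂ) 1, ‖f k w‖ ≤ 1) →
      ∀ G : V 2 → ℂ, DifferentiableOn ℂ G (ball 0 1) → (∀ x ∈ ball (0 : V 2) 1, ‖G x‖ ≤ 1) →
      (∀ x ∈ ball (0 : V 2) 1, δ ≤ ∑ k, ‖f k (ψ k x)‖ + ‖G x‖) →
      ∃ (g : Fin K → V 2 → ℂ) (g₀ : V 2 → ℂ), (∀ k, DifferentiableOn ℂ (g k) (ball 0 1)) ∧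
        DifferentiableOn ℂ g₀ (ball 0 1) ∧ (∀ k, ∀ x ∈ ball (0 : V 2) 1, ‖g k x‖ ≤ C) ∧
        (∀ x ∈ ball (0 : V 2) 1, ‖g₀ x‖ ≤ C) ∧
        ∀ x ∈ ball (0 : V 2) 1, ∑ k, f k (ψ k x) * g k x + G x * g₀ x = 1 := by
  classical
  have hψd : ∀ k, DifferentiableOn ℂ (ψ k) (ball 0 1) := fun k =>
    (hψ k).differentiableOn.mono ball_subset_closedBall
  let I : Type := {p : (Fin K → ℂ → ℂ) × (V 2 → ℂ) //
    (∀ k, DifferentiableOn ℂ (p.1 k) (ball 0 1)) ∧ (∀ k, ∀ w ∈ ball (0 : ℂ) 1, ‖p.1 k w‖ ≤ 1) ∧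
    DifferentiableOn ℂ p.2 (ball 0 1) ∧ (∀ x ∈ ball (0 : V 2) 1, ‖p.2 x‖ ≤ 1) ∧
    (∀ x ∈ ball (0 : V 2) 1, δ ≤ ∑ k, ‖p.1 k (ψ k x)‖ + ‖p.2 x‖)}
  let F : I → Option (Fin K) → V 2 → ℂ := fun i o => o.elim i.1.2 (fun k x => i.1.1 k (ψ k x))
  have hmt : ∀ k, MapsTo (ψ k) (ball 0 1) (ball 0 1) := fun k x hx =>
    mem_ball_zero_iff.mpr (hψ1 k x hx)
  have hcomp : ∀ (i : I) (k : Fin K), DifferentiableOn ℂ (fun x => i.1.1 k (ψ k x)) (ball 0 1) :=
    fun i k => (i.2.1 k).comp (hψd k) (hmt k)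
  have hF : ∀ i j, HB (F i j) := by
    rintro i (_ | k)
    · exact ⟨i.2.2.2.1, i.2.2.2.2.1⟩
    · exact ⟨hcomp i k, fun x hx => i.2.2.1 k _ (hmt k hx)⟩
  have hlow : ∀ i : I, ∀ z ∈ ball (0 : V 2) 1, δ ≤ ∑ j, ‖F i j z‖ := by
    intro i z hz
    rw [Fintype.sum_option]
    have := i.2.2.2.2.2 z hz
    change δ ≤ ‖i.1.2 z‖ + ∑ k, ‖i.1.1 k (ψ k z)‖
    linarith
  have hloc : ∀ q : V 2, ‖q‖ = 1 → SolvL F q := by
    intro q hq
    have hqcl : q ∈ closedBall (0 : V 2) 1 := by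
      rw [mem_closedBall_zero_iff, hq]
    have hcont : ∀ k, ContinuousAt (ψ k) q := fun k => (hψ k q hqcl).continuousAt
    have hψq : ∀ k, ‖ψ k q‖ ≤ 1 := by
      intro k
      have hqc : q ∈ closure (ball (0 : V 2) 1) := by
        rw [closure_ball _ one_ne_zero]
        exact hqcl
      have hmem : ∃ᶠ x in 𝓝 q, x ∈ ball (0 : V 2) 1 := mem_closure_iff_frequently.mp hqc
      by_contra hcon
      push Not at hcon
      have h1 : ∀ᶠ x in 𝓝 q, 1 < ‖ψ k x‖ := (hcont k).norm.eventually (lt_mem_nhds hcon)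
      obtain ⟨x, hx, hx1⟩ := (hmem.and_eventually h1).exists
      have := hψ1 k x hx
      linarith
    set δ' : ℝ := min (δ / (4 * (K + 1))) 1 with hδ'
    have hK0 : (0 : ℝ) ≤ (K : ℝ) := Nat.cast_nonneg K
    have hδ'0 : 0 < δ' := lt_min (by positivity) one_pos
    have hδ'1 : δ' ≤ 1 := min_le_right _ _
    have hδ'2 : 4 * (K + 1) * δ' ≤ δ := by
      have h1 : δ' ≤ δ / (4 * (K + 1)) := min_le_left _ _
      have h2 : (0 : ℝ) < 4 * (K + 1) := by positivity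
      calc 4 * (K + 1) * δ' ≤ 4 * (K + 1) * (δ / (4 * (K + 1))) := mul_le_mul_of_nonneg_left h1 h2.le
        _ = δ := by field_simp
    -- the common neighbourhood
    have hev : ∀ᶠ x in 𝓝 q, ∀ k, ‖ψ k q‖ < 1 → ‖ψ k x - ψ k q‖ < (1 - ‖ψ k q‖) * (δ' / 4) := by
      rw [Filter.eventually_all]
      intro k
      by_cases hk : ‖ψ k q‖ < 1
      · have h1 : 0 < (1 - ‖ψ k q‖) * (δ' / 4) := mul_pos (by linarith) (by linarith)
        have h2 : ∀ᶠ x in 𝓝 q, dist (ψ k x) (ψ k q) < (1 - ‖ψ k q‖) * (δ' / 4) :=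
          (hcont k).eventually (ball_mem_nhds _ h1)
        filter_upwards [h2] with x hx _
        rwa [dist_eq_norm] at hx
      · exact Eventually.of_forall fun x h => absurd h hk
    obtain ⟨ρ₀, hρ₀, hρ⟩ := Metric.eventually_nhds_iff_ball.mp hev
    have hclose : ∀ (i : I) (k : Fin K), ‖ψ k q‖ < 1 → ∀ x ∈ ball q ρ₀,
        ‖i.1.1 k (ψ k x) - i.1.1 k (ψ k q)‖ ≤ δ' / 2 := by
      intro i k hk x hx
      have h1 := hρ x hx k hk
      have h2 : 0 < 1 - ‖ψ k q‖ := by linarith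
      have h3 : ‖ψ k x - ψ k q‖ < 1 - ‖ψ k q‖ := by
        have : (1 - ‖ψ k q‖) * (δ' / 4) ≤ (1 - ‖ψ k q‖) * 1 :=
          mul_le_mul_of_nonneg_left (by linarith) h2.le
        linarith
      have h4 := uni_close_U8b (i.2.1 k) (i.2.2.1 k) hk h3
      calc ‖i.1.1 k (ψ k x) - i.1.1 k (ψ k q)‖ ≤ 2 / (1 - ‖ψ k q‖) * ‖ψ k x - ψ k q‖ := h4
        _ ≤ 2 / (1 - ‖ψ k q‖) * ((1 - ‖ψ k q‖) * (δ' / 4)) :=
            mul_le_mul_of_nonneg_left h1.le (by positivity)
        _ = δ' / 2 := by field_simp; ring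
    -- first case: some `f k (ψ k q)` is not small
    have hcaseA : ∀ (i : I) (k : Fin K), ‖ψ k q‖ < 1 → δ' ≤ ‖i.1.1 k (ψ k q)‖ →
        ∃ g : Option (Fin K) → V 2 → ℂ,
          (∀ j, DifferentiableOn ℂ (g j) (ball 0 1 ∩ ball q ρ₀)) ∧
          (∀ j, ∀ z ∈ ball (0 : V 2) 1 ∩ ball q ρ₀, ‖g j z‖ ≤ 2 / δ') ∧
          ∀ z ∈ ball (0 : V 2) 1 ∩ ball q ρ₀, ∑ j, F i j z * g j z = 1 := by
      intro i k hk hbig
      have hlow2 : ∀ z ∈ ball (0 : V 2) 1 ∩ ball q ρ₀, δ' / 2 ≤ ‖i.1.1 k (ψ k z)‖ := by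
        rintro z ⟨-, hz⟩
        have h1 := hclose i k hk z hz
        have h2 := norm_sub_norm_le (i.1.1 k (ψ k q)) (i.1.1 k (ψ k z))
        rw [norm_sub_rev] at h2
        linarith
      have hne : ∀ z ∈ ball (0 : V 2) 1 ∩ ball q ρ₀, i.1.1 k (ψ k z) ≠ 0 := by
        intro z hz h
        have := hlow2 z hz
        rw [h, norm_zero] at this
        linarith
      refine ⟨fun j => if j = some k then fun z => (i.1.1 k (ψ k z))⁻¹ else fun _ => 0, ?_, ?_, ?_⟩
      · intro j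
        by_cases hj : j = some k
        · simp only [hj, if_true]
          exact ((hcomp i k).mono inter_subset_left).inv hne
        · simp only [hj, if_false]
          exact differentiableOn_const 0
      · intro j z hz
        by_cases hj : j = some k
        · simp only [hj, if_true]
          rw [norm_inv]
          have h1 := hlow2 z hz
          rw [inv_le_comm₀ (by linarith) (by positivity)]
          rw [inv_div]
          exact h1
        · simp only [hj, if_false, norm_zero]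
          positivity
      · intro z hz
        rw [Finset.sum_eq_single (some k)]
        · simp only [if_true]
          exact mul_inv_cancel₀ (hne z hz)
        · intro b _ hb
          simp only [hb, if_false, mul_zero]
        · intro h
          exact absurd (Finset.mem_univ _) h
    -- second case
    have hcaseB : ∀ (i : I), (∀ k, ‖ψ k q‖ < 1 → ‖i.1.1 k (ψ k q)‖ < δ') →
        ∀ x ∈ ball (0 : V 2) 1 ∩ ball q ρ₀, (∀ k, ¬ ‖ψ k q‖ < 1 → ‖i.1.1 k (ψ k x)‖ < δ') →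
        δ' ≤ ‖i.1.2 x‖ := by
      intro i hsm x hx hT
      have h1 : ∀ k, ‖i.1.1 k (ψ k x)‖ ≤ 2 * δ' := by
        intro k
        by_cases hk : ‖ψ k q‖ < 1
        · have h2 := hclose i k hk x hx.2
          have h3 := hsm k hk
          have h4 := norm_le_norm_add_norm_sub' (i.1.1 k (ψ k x)) (i.1.1 k (ψ k q))
          linarith
        · have := hT k hk
          linarith
      have h2 : ∑ k, ‖i.1.1 k (ψ k x)‖ ≤ K * (2 * δ') := by
        have := Finset.sum_le_card_nsmul Finset.univ (fun k => ‖i.1.1 k (ψ k x)‖) (2 * δ')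
          (fun k _ => h1 k)
        rw [Finset.card_univ, Fintype.card_fin, nsmul_eq_mul] at this
        exact this
      have h3 := i.2.2.2.2.2 x hx.1
      nlinarith
    by_cases hT : ∃ k₀, ¬ ‖ψ k₀ q‖ < 1
    · obtain ⟨k₀, hk₀⟩ := hT
      have heq : ∀ k, ¬ ‖ψ k q‖ < 1 → ‖ψ k q‖ = 1 := fun k hk => le_antisymm (hψq k) (not_lt.mp hk)
      let ψ' : Fin K → V 2 → ℂ := fun k => if ‖ψ k q‖ < 1 then ψ k₀ else ψ k
      have hψ' : ∀ k, ∃ l, ψ' k = ψ l ∧ ¬ ‖ψ l q‖ < 1 := by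
        intro k
        by_cases hk : ‖ψ k q‖ < 1
        · exact ⟨k₀, by simp [ψ', hk], hk₀⟩
        · exact ⟨k, by simp [ψ', hk], hk⟩
      obtain ⟨c, hc0, hc⟩ : ∃ c : ℝ, 0 < c ∧ ∀ k, c ≤ (1 - ‖ψ k 0‖) / 2 := by
        have h0 : (0 : V 2) ∈ ball (0 : V 2) 1 := mem_ball_self one_pos
        have hne : (Finset.univ : Finset (Fin K)).Nonempty := ⟨k₀, Finset.mem_univ _⟩
        obtain ⟨k₁, -, hk₁⟩ := Finset.exists_min_image Finset.univ (fun k => (1 - ‖ψ k 0‖) / 2) hne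
        refine ⟨(1 - ‖ψ k₁ 0‖) / 2, ?_, fun k => hk₁ k (Finset.mem_univ k)⟩
        have := hψ1 k₁ 0 h0
        linarith
      obtain ⟨C, ρ, hρ1, hρ2, hsol⟩ := locK K hδ'0 hδ'1 hρ₀ hc0 (ψ := ψ') (p := q) hq
        (fun k => by
          obtain ⟨l, hl, -⟩ := hψ' k
          rw [hl]
          exact hψ l q hqcl)
        (fun k => by
          obtain ⟨l, hl, -⟩ := hψ' k
          rw [hl]
          refine Eventually.of_forall fun x hx => ?_
          have hxb : x ∈ ball (0 : V 2) 1 := mem_ball_zero_iff.mpr hx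
          have h1 := uni_sp_U8b (hψd l) (hψ1 l) hxb
          have h2 : 0 ≤ 1 - ‖x‖ ^ 2 := by
            have := norm_nonneg x
            nlinarith
          have h3 := mul_le_mul_of_nonneg_right (hc l) h2
          linarith)
        (fun k => by
          obtain ⟨l, hl, hl2⟩ := hψ' k
          rw [hl]
          exact heq l hl2)
      have hsub : ball (0 : V 2) 1 ∩ ball q ρ ⊆ ball (0 : V 2) 1 ∩ ball q ρ₀ :=
        inter_subset_inter_right _ (ball_subset_ball hρ2)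
      refine ⟨max C (2 / δ'), ρ, hρ1, fun i => ?_⟩
      by_cases hA : ∃ k, ‖ψ k q‖ < 1 ∧ δ' ≤ ‖i.1.1 k (ψ k q)‖
      · obtain ⟨k, hk1, hk2⟩ := hA
        obtain ⟨g, hg1, hg2, hg3⟩ := hcaseA i k hk1 hk2
        exact ⟨g, fun j => (hg1 j).mono hsub, fun j z hz => (hg2 j z (hsub hz)).trans (le_max_right _ _),
          fun z hz => hg3 z (hsub hz)⟩
      · push Not at hA
        have hB := hcaseB i hA
        let f' : Fin K → ℂ → ℂ := fun k => if ‖ψ k q‖ < 1 then fun _ => 0 else i.1.1 k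
        obtain ⟨g, g₀, hg1, hg2, hg3, hg4, hg5⟩ := hsol f'
          (fun k => by
            by_cases hk : ‖ψ k q‖ < 1
            · simp only [f', hk, if_true]
              exact differentiableOn_const 0
            · simp only [f', hk, if_false]
              exact i.2.1 k)
          (fun k w hw => by
            by_cases hk : ‖ψ k q‖ < 1
            · simp only [f', hk, if_true, norm_zero]
              exact zero_le_one
            · simp only [f', hk, if_false]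
              exact i.2.2.1 k w hw)
          i.1.2 (i.2.2.2.1.mono inter_subset_left) (fun x hx => i.2.2.2.2.1 x hx.1)
          (fun x hx h => hB x hx (fun k hk => by
            have := h k
            simpa only [f', ψ', hk, if_false] using this))
        have hterm : ∀ k x, f' k (ψ' k x) * g k x =
            i.1.1 k (ψ k x) * (if ‖ψ k q‖ < 1 then 0 else g k x) := by
          intro k x
          by_cases hk : ‖ψ k q‖ < 1
          · simp only [f', hk, if_true, zero_mul, mul_zero]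
          · simp only [f', ψ', hk, if_false]
        refine ⟨fun o => o.elim g₀ (fun k x => if ‖ψ k q‖ < 1 then 0 else g k x), ?_, ?_, ?_⟩
        · rintro (_ | k)
          · exact hg2
          · by_cases hk : ‖ψ k q‖ < 1
            · simp only [Option.elim_some, hk, if_true]
              exact differentiableOn_const 0
            · simp only [Option.elim_some, hk, if_false]
              exact hg1 k
        · rintro (_ | k) z hz
          · exact (hg4 z hz).trans (le_max_left _ _)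
          · by_cases hk : ‖ψ k q‖ < 1
            · simp only [Option.elim_some, hk, if_true, norm_zero]
              exact (by positivity : (0 : ℝ) ≤ 2 / δ').trans (le_max_right _ _)
            · simp only [Option.elim_some, hk, if_false]
              exact (hg3 k z hz).trans (le_max_left _ _)
        · intro z hz
          have h5 := hg5 z hz
          rw [Fintype.sum_option]
          have h6 : ∑ k, f' k (ψ' k z) * g k z =
              ∑ k, i.1.1 k (ψ k z) * (if ‖ψ k q‖ < 1 then 0 else g k z) :=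
            Finset.sum_congr rfl fun k _ => hterm k z
          rw [h6] at h5
          change i.1.2 z * g₀ z + ∑ k, i.1.1 k (ψ k z) * (if ‖ψ k q‖ < 1 then 0 else g k z) = 1
          rw [add_comm]
          exact h5
    · push Not at hT
      refine ⟨2 / δ', ρ₀, hρ₀, fun i => ?_⟩
      by_cases hA : ∃ k, ‖ψ k q‖ < 1 ∧ δ' ≤ ‖i.1.1 k (ψ k q)‖
      · obtain ⟨k, hk1, hk2⟩ := hA
        exact hcaseA i k hk1 hk2
      · push Not at hA
        have hB : ∀ x ∈ ball (0 : V 2) 1 ∩ ball q ρ₀, δ' ≤ ‖i.1.2 x‖ := fun x hx =>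
          hcaseB i hA x hx (fun k hk => absurd (hT k) hk)
        have hne : ∀ x ∈ ball (0 : V 2) 1 ∩ ball q ρ₀, i.1.2 x ≠ 0 := by
          intro x hx h
          have := hB x hx
          rw [h, norm_zero] at this
          linarith
        refine ⟨fun o => o.elim (fun z => (i.1.2 z)⁻¹) (fun _ _ => 0), ?_, ?_, ?_⟩
        · rintro (_ | k)
          · exact (i.2.2.2.1.mono inter_subset_left).inv hne
          · exact differentiableOn_const 0
        · rintro (_ | k) z hz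
          · simp only [Option.elim_none]
            rw [norm_inv]
            have h1 := hB z hz
            rw [inv_le_comm₀ (by linarith) (by positivity), inv_div]
            linarith
          · simp only [Option.elim_some, norm_zero]
            positivity
        · intro z hz
          rw [Fintype.sum_option]
          simp only [Option.elim_none, Option.elim_some, mul_zero, Finset.sum_const_zero, add_zero]
          exact mul_inv_cancel₀ (hne z hz)
  obtain ⟨C, hC⟩ := glue hF hδ hlow hloc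
  refine ⟨C, ?_⟩
  intro f hf hf1 G hG hG1 hl
  obtain ⟨g, hg1, hg2, hg3⟩ := hC ⟨(f, G), hf, hf1, hG, hG1, hl⟩
  refine ⟨fun k => g (some k), g none, fun k => hg1 _, hg1 _, fun k => hg2 _, hg2 _, ?_⟩
  intro x hx
  have := hg3 x hx
  rw [Fintype.sum_option] at this
  rw [add_comm]
  exact this

end Pool.Agent.P157C
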