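import Mathlib
import Pool.Agent.P157C.Uni
import Pool.Agent.Y263.LF.Char

/-!
The local corona theorem for families of data.
-/

set_option autoImplicit false

open Metric Set Filter Topology WeakDual

namespace Pool.Agent.P157C

open Pool.Agent.TH310.Cor
open Pool.Agent.H326R3.CB (Bt)

/-- `ψ` is holomorphic in a neighbourhood of the closed ball and maps the open ball to the unit
disc. -/
def Symb (ψ : V 2 → ℂ) : Prop :=
  AnalyticOnNhd ℂ ψ (closedBall 0 1) ∧ ∀ z ∈ ball (0 : V 2) 1, ‖ψ z‖ < 1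

/-- the algebra of families generated by the family `G` and all families `f i ∘ ψ` -/
inductive FAlg {I : Type} (G : I → V 2 → ℂ) : (I → V 2 → ℂ) → Prop
  | gen : FAlg G G
  | comp (f : I → ℂ → ℂ) (ψ : V 2 → ℂ) (hf : ∀ i, DifferentiableOn ℂ (f i) (ball 0 1))
      (hb : ∃ C : ℝ, ∀ i, ∀ w ∈ ball (0 : ℂ) 1, ‖f i w‖ ≤ C) (hψ : Symb ψ) :
      FAlg G (fun i z => f i (ψ z))
  | add (h k : I → V 2 → ℂ) (hh : FAlg G h) (hk : FAlg G k) : FAlg G (fun i z => h i z + k i z)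
  | mul (h k : I → V 2 → ℂ) (hh : FAlg G h) (hk : FAlg G k) : FAlg G (fun i z => h i z * k i z)

section
variable {m : ℕ} {I : Type} [TopologicalSpace I]

/-- evaluation -/
noncomputable def evI (x : I × Bt m) : HI I m →ₐ[ℂ] ℂ where
  toFun φ := φ.1 x
  map_one' := rfl
  map_mul' _ _ := rfl
  map_zero' := rfl
  map_add' _ _ := rfl
  commutes' _ := rfl

theorem evI_apply (x : I × Bt m) (φ : HI I m) : evI x φ = φ.1 x := rfl

theorem evI_le (x : I × Bt m) (φ : HI I m) : ‖evI x φ‖ ≤ ‖φ‖ := le_norm φ x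

end

variable {I : Type} [TopologicalSpace I] [DiscreteTopology I]

/-- the families `f i ∘ ψ` as elements of the algebra -/
def RI (I : Type) [TopologicalSpace I] : Set (HI I 2) :=
  {a | ∃ (f : I → ℂ → ℂ) (ψ : V 2 → ℂ), (∀ i, DifferentiableOn ℂ (f i) (ball 0 1)) ∧
    (∃ C : ℝ, ∀ i, ∀ w ∈ ball (0 : ℂ) 1, ‖f i w‖ ≤ C) ∧ Symb ψ ∧
    ∀ x : I × Bt 2, a.1 x = f x.1 (ψ x.2)}

theorem tupI (G : HI I 2) (t : Finset (HI I 2)) (ht : ∀ h ∈ t, h ∈ RI I) (c : HI I 2 → ℂ) (c0 : ℂ)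
    (δ : ℝ) (hδ : 0 < δ)
    (hlow : ∀ x : I × Bt 2, δ ≤ ∑ h ∈ t, ‖evI x h - c h‖ + ‖evI x G - c0‖) :
    ∃ (g : HI I 2 → HI I 2) (g0 : HI I 2),
      ∑ h ∈ t, (h - algebraMap ℂ (HI I 2) (c h)) * g h + (G - algebraMap ℂ (HI I 2) c0) * g0 = 1 := by
  classical
  choose! f ψ hf hfb hψ hfψ using ht
  choose! Cf hCf using hfb
  choose G' hG' hG2 using G.2
  set e := t.equivFin.symm with he
  set R : ℝ := ‖G‖ + ‖c0‖ + ∑ h ∈ t, (|Cf h| + ‖c h‖) + 1 with hR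
  have hsn : 0 ≤ ∑ h ∈ t, (|Cf h| + ‖c h‖) := Finset.sum_nonneg (fun _ _ => by positivity)
  have hR0 : 0 < R := by positivity
  have hRc : (R : ℂ) ≠ 0 := by exact_mod_cast hR0.ne'
  have hRn : ‖(R : ℂ)‖ = R := by rw [Complex.norm_real, Real.norm_of_nonneg hR0.le]
  obtain ⟨C, H⟩ := uni t.card (δ := δ / R) (by positivity) (fun k => ψ (e k))
    (fun k => (hψ _ (e k).2).1) (fun k => (hψ _ (e k).2).2)
  have H2 : ∀ i : I, ∃ (g : Fin t.card → V 2 → ℂ) (g₀ : V 2 → ℂ),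
      (∀ k, DifferentiableOn ℂ (g k) (ball 0 1)) ∧
        DifferentiableOn ℂ g₀ (ball 0 1) ∧ (∀ k, ∀ x ∈ ball (0 : V 2) 1, ‖g k x‖ ≤ C) ∧
        (∀ x ∈ ball (0 : V 2) 1, ‖g₀ x‖ ≤ C) ∧
        ∀ x ∈ ball (0 : V 2) 1, ∑ k, (f (e k) i (ψ (e k) x) - c (e k)) * (R : ℂ)⁻¹ * g k x +
          (G' i x - c0) * (R : ℂ)⁻¹ * g₀ x = 1 := by
    intro i
    refine H (fun k w => (f (e k) i w - c (e k)) * (R : ℂ)⁻¹)
      (fun k => ((hf _ (e k).2 i).sub_const _).mul_const _) (fun k w hw => ?_)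
      (fun z => (G' i z - c0) * (R : ℂ)⁻¹) (((hG' i).sub_const _).mul_const _) (fun z hz => ?_)
      (fun z hz => ?_)
    · rw [norm_mul, norm_inv, hRn, ← div_eq_mul_inv, div_le_one hR0]
      refine (norm_sub_le _ _).trans ?_
      have h1 := hCf _ (e k).2 i w hw
      have h2 := Finset.single_le_sum (f := fun h => |Cf h| + ‖c h‖)
        (fun _ _ => by positivity) (e k).2
      have h3 := le_abs_self (Cf (e k))
      have h4 := norm_nonneg G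
      have h5 := norm_nonneg c0
      linarith
    · rw [norm_mul, norm_inv, hRn, ← div_eq_mul_inv, div_le_one hR0]
      refine (norm_sub_le _ _).trans ?_
      have h1 := le_norm G (i, ⟨z, hz⟩)
      rw [hG2] at h1
      have h2 : ‖G' i z‖ ≤ ‖G‖ := h1
      linarith
    · have h1 := hlow (i, ⟨z, hz⟩)
      have h2 : (∑ h ∈ t, ‖evI ((i, ⟨z, hz⟩) : I × Bt 2) h - c h‖ : ℝ) =
          ∑ k : Fin t.card, ‖f (e k) i (ψ (e k) z) - c (e k)‖ := by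
        rw [← Finset.sum_coe_sort t, ← Equiv.sum_comp e]
        refine Finset.sum_congr rfl (fun k _ => ?_)
        rw [evI_apply, hfψ _ (e k).2]
      have h3 : evI ((i, ⟨z, hz⟩) : I × Bt 2) G = G' i z := hG2 i ⟨z, hz⟩
      rw [h2, h3] at h1
      have h4 : ∑ k : Fin t.card, ‖(f (e k) i (ψ (e k) z) - c (e k)) * (R : ℂ)⁻¹‖ +
          ‖(G' i z - c0) * (R : ℂ)⁻¹‖ =
          (∑ k : Fin t.card, ‖f (e k) i (ψ (e k) z) - c (e k)‖ + ‖G' i z - c0‖) / R := by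
        rw [add_div, Finset.sum_div]
        simp only [norm_mul, norm_inv, hRn, div_eq_mul_inv]
      rw [h4]
      exact div_le_div_of_nonneg_right h1 hR0.le
  choose g g0 h1 h2 h3 h4 h5 using H2
  refine ⟨fun a => if ha : a ∈ t then
      mk (f := fun i z => g i (e.symm ⟨a, ha⟩) z) (fun i => h1 i _) (C := C) (fun i => h3 i _) *
        Cc (R : ℂ)⁻¹ else 0,
    mk (f := g0) h2 (C := C) h4 * Cc (R : ℂ)⁻¹, ?_⟩
  refine ext' (fun x => ?_)
  have h6 := h5 x.1 x.2 x.2.2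
  have hext : ∀ a b : HI I 2, evI x a = evI x b → a.1 x = b.1 x := fun _ _ hab => hab
  apply hext
  rw [map_one, map_add, map_sum, map_mul, map_sub]
  rw [← h6]
  congr 1
  · rw [← Finset.sum_coe_sort t, ← Equiv.sum_comp e]
    refine Finset.sum_congr rfl (fun k _ => ?_)
    beta_reduce
    rw [map_mul, map_sub, dif_pos (e k).2]
    have h7 : e.symm ⟨(e k : HI I 2), (e k).2⟩ = k := by simp
    rw [h7]
    have h8 : evI x ((e k : HI I 2)) = f (e k) x.1 (ψ (e k) x.2) := hfψ _ (e k).2 x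
    rw [h8]
    change (f (e k) x.1 (ψ (e k) x.2) - c (e k)) * (g x.1 k x.2 * (R : ℂ)⁻¹) = _
    ring
  · have h7 : evI x G = G' x.1 x.2 := hG2 x.1 x.2
    rw [h7]
    change (G' x.1 x.2 - c0) * (g0 x.1 x.2 * (R : ℂ)⁻¹) = _
    ring

theorem falg_mem {G : I → V 2 → ℂ} {G' : HI I 2} (hG : ∀ x : I × Bt 2, G'.1 x = G x.1 x.2)
    {h : I → V 2 → ℂ} (hh : FAlg G h) :
    ∃ b ∈ Algebra.adjoin ℂ (insert G' (RI I)), ∀ x : I × Bt 2, evI x b = h x.1 x.2 := by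
  induction hh with
  | gen => exact ⟨G', Algebra.subset_adjoin (mem_insert _ _), hG⟩
  | comp f ψ hf hb hψ =>
    obtain ⟨C, hC⟩ := hb
    have h1 : MapsTo ψ (ball (0 : V 2) 1) (ball (0 : ℂ) 1) := fun z hz =>
      mem_ball_zero_iff.2 (hψ.2 z hz)
    have h2 : ∀ i, DifferentiableOn ℂ (fun z => f i (ψ z)) (ball 0 1) := fun i =>
      (hf i).comp (hψ.1.differentiableOn.mono ball_subset_closedBall) h1
    refine ⟨mk (f := fun i z => f i (ψ z)) h2 (C := C) (fun i z hz => hC i _ (h1 hz)),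
      Algebra.subset_adjoin (mem_insert_of_mem _ ?_), fun x => rfl⟩
    exact ⟨f, ψ, hf, ⟨C, hC⟩, hψ, fun x => rfl⟩
  | add h k _ _ ih ik =>
    obtain ⟨b, hb, hb2⟩ := ih
    obtain ⟨d, hd, hd2⟩ := ik
    exact ⟨b + d, Subalgebra.add_mem _ hb hd, fun z => by rw [map_add, hb2, hd2]⟩
  | mul h k _ _ ih ik =>
    obtain ⟨b, hb, hb2⟩ := ih
    obtain ⟨d, hd, hd2⟩ := ik
    exact ⟨b * d, Subalgebra.mul_mem _ hb hd, fun z => by rw [map_mul, hb2, hd2]⟩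

theorem linI (u : V 2) : (Lw u : HI I 2) ∈ RI I := by
  have h1 : (0 : ℝ) < 1 + ‖u‖ := by positivity
  have h1c : ((1 + ‖u‖ : ℝ) : ℂ) ≠ 0 := by exact_mod_cast h1.ne'
  have hn : ‖((1 + ‖u‖ : ℝ) : ℂ)⁻¹‖ = (1 + ‖u‖)⁻¹ := by
    rw [norm_inv, Complex.norm_real, Real.norm_of_nonneg h1.le]
  set α : V 2 →L[ℂ] ℂ := (((1 + ‖u‖ : ℝ) : ℂ)⁻¹) • innerSL ℂ u with hα
  have hαz : ∀ z, α z = ((1 + ‖u‖ : ℝ) : ℂ)⁻¹ * inner ℂ u z := fun z => by simp [hα]
  refine ⟨fun _ w => ((1 + ‖u‖ : ℝ) : ℂ) * w, fun z => α z, fun _ => by fun_prop,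
    ⟨‖((1 + ‖u‖ : ℝ) : ℂ)‖, fun _ w hw => ?_⟩, ⟨α.analyticOnNhd _, fun z hz => ?_⟩, fun x => ?_⟩
  · rw [norm_mul]
    have := (mem_ball_zero_iff.1 hw).le
    calc _ ≤ ‖((1 + ‖u‖ : ℝ) : ℂ)‖ * 1 := by gcongr
      _ = _ := mul_one _
  · simp only
    rw [hαz, norm_mul, hn, inv_mul_lt_iff₀ h1, mul_one]
    have h2 : ‖(inner ℂ u z : ℂ)‖ ≤ ‖u‖ * ‖z‖ := norm_inner_le_norm _ _
    have h3 := (mem_ball_zero_iff.1 hz).le
    have h4 : ‖u‖ * ‖z‖ ≤ ‖u‖ * 1 := mul_le_mul_of_nonneg_left h3 (norm_nonneg _)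
    linarith
  · rw [Lw_apply]
    simp only
    rw [hαz, mul_inv_cancel_left₀ h1c]

omit [TopologicalSpace I] [DiscreteTopology I] in
/-- **The local corona theorem for families.** -/
theorem famU {N : ℕ} {F : I → Fin N → V 2 → ℂ} (hF : ∀ i j, HB (F i j))
    {δ : ℝ} (hδ : 0 < δ) (hlow : ∀ i, ∀ z ∈ ball (0 : V 2) 1, δ ≤ ∑ j, ‖F i j z‖)
    (hloc : ∀ p : V 2, ‖p‖ = 1 → ∃ (G : I → V 2 → ℂ) (S : Finset (Fin N))
      (h : Fin N → I → V 2 → ℂ) (c ε r : ℝ),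
      (∀ i, DifferentiableOn ℂ (G i) (ball 0 1)) ∧
      (∃ C : ℝ, ∀ i, ∀ z ∈ ball (0 : V 2) 1, ‖G i z‖ ≤ C) ∧ 0 < r ∧ 0 ≤ ε ∧ 2 * S.card * ε < c ∧
      (∀ i, ∀ z ∈ ball (0 : V 2) 1 ∩ ball p r, c ≤ ∑ j ∈ S, ‖F i j z‖) ∧
      ∀ j ∈ S, FAlg G (h j) ∧ ∀ i, ∀ z ∈ ball (0 : V 2) 1 ∩ ball p r, ‖F i j z - h j i z‖ ≤ ε) :
    Solv F := by
  classical
  by_contra hns
  letI tJ : TopologicalSpace I := ⊥
  haveI dJ : DiscreteTopology I := ⟨rfl⟩
  obtain ⟨χ, hχ⟩ := exists_zero hF hns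
  obtain ⟨q, hq⟩ : ∃ q, q = Pool.Agent.TH310.Cor.pt χ := ⟨_, rfl⟩
  have hq1 : ‖q‖ = 1 := by
    rcases lt_or_eq_of_le (pt_norm χ) with h3 | h3
    · exfalso
      have hpt : Pool.Agent.TH310.Cor.pt χ ∈ ball (0 : V 2) 1 := by rw [mem_ball_zero_iff]; exact h3
      refine char_index (ι := Fin N) χ (fun o x => F x o (Pool.Agent.TH310.Cor.pt χ)) (C := 1)
        (fun o x => (hF x o).2 _ hpt) hδ (fun x => hlow x _ hpt) ?_
      intro o
      have h4 := char_interior χ h3 (El (f := fun x => F x o) (fun x => hF x o))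
      rw [hχ o] at h4
      refine Eq.trans (congrArg χ ?_) h4.symm
      exact ext' fun x => rfl
    · rw [hq]; exact h3
  obtain ⟨G, S, h, c, ε, r, hG1, ⟨CG, hCG⟩, hr, hε, hcε, hc, hh⟩ := hloc q hq1
  obtain ⟨ℱ, hne, hℱ⟩ := Pool.Agent.Y263.LF.char_ct evI evI_le (RI I)
    (mk (f := G) hG1 (C := CG) hCG)
    (fun t ht c c0 δ hδ hlow => tupI _ t ht c c0 δ hδ hlow) χ
  have hb : ∀ j ∈ S, ∃ b : HI I 2, b ∈ Algebra.adjoin ℂ
      (insert (mk (f := G) hG1 (C := CG) hCG) (RI I)) ∧ ∀ x : I × Bt 2, evI x b = h j x.1 x.2 := by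
    intro j hj
    obtain ⟨b, hb1, hb2⟩ := falg_mem (G' := mk (f := G) hG1 (C := CG) hCG) (fun x => rfl) (hh j hj).1
    exact ⟨b, hb1, hb2⟩
  choose! b hb1 hb2 using hb
  -- the point
  have hpt : ∀ᶠ x in ℱ, ‖((x.2 : Bt 2) : V 2) - q‖ < r := by
    have h1 := hℱ (Lw q) (Subalgebra.le_topologicalClosure _
      (Algebra.subset_adjoin (mem_insert_of_mem _ (linI q))))
    have h2 : χ (Lw q) = 1 := by
      rw [char_Lw, ← hq, inner_self_eq_norm_sq_to_K, hq1]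
      norm_num
    rw [h2] at h1
    have h3 : ∀ᶠ x in ℱ, ‖evI x (Lw q) - 1‖ < r ^ 2 / 2 := by
      have := (tendsto_iff_norm_sub_tendsto_zero.1 h1)
      exact this.eventually_lt_const (by positivity)
    filter_upwards [h3] with x hx
    have h4 : evI x (Lw q) = inner ℂ q ((x.2 : Bt 2) : V 2) := Lw_apply q x
    rw [h4] at hx
    have h5 : ‖((x.2 : Bt 2) : V 2) - q‖ ^ 2 ≤ 2 * ‖(inner ℂ q ((x.2 : Bt 2) : V 2) : ℂ) - 1‖ := by
      have h6 := norm_sub_sq (𝕜 := ℂ) ((x.2 : Bt 2) : V 2) q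
      have h7 : ‖((x.2 : Bt 2) : V 2)‖ ≤ 1 := (mem_ball_zero_iff.1 x.2.2).le
      have h8 : RCLike.re (inner ℂ ((x.2 : Bt 2) : V 2) q : ℂ) =
          RCLike.re (inner ℂ q ((x.2 : Bt 2) : V 2) : ℂ) := by
        rw [← inner_conj_symm, RCLike.conj_re]
      have h9 := Complex.abs_re_le_norm ((inner ℂ q ((x.2 : Bt 2) : V 2) : ℂ) - 1)
      have h10 := neg_abs_le ((inner ℂ q ((x.2 : Bt 2) : V 2) : ℂ) - 1).re
      have h11 : ((inner ℂ q ((x.2 : Bt 2) : V 2) : ℂ) - 1).re =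
          RCLike.re (inner ℂ q ((x.2 : Bt 2) : V 2) : ℂ) - 1 := by simp
      rw [h11] at h9 h10
      rw [h6, h8, hq1]
      have h12 := norm_nonneg ((x.2 : Bt 2) : V 2)
      nlinarith
    by_contra hcon
    push Not at hcon
    have h6 : r ^ 2 ≤ ‖((x.2 : Bt 2) : V 2) - q‖ ^ 2 := by gcongr
    linarith
  -- the elements
  have hsm : ∀ j ∈ S, ‖χ (b j)‖ ≤ ε := by
    intro j hj
    have h1 : χ (El (f := fun i => F i j) (fun i => hF i j) - b j) = - χ (b j) := by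
      rw [map_sub, hχ j, zero_sub]
    rw [← norm_neg, ← h1]
    refine char_boundary χ (by rw [← hq]; exact hq1) _ hr hε univ (by rw [Id_univ, map_one]) ?_
    intro k _ z hz
    rw [← hq] at hz
    have h2 : (El (f := fun i => F i j) (fun i => hF i j) - b j : HI I 2).1 (k, z) =
        F k j z - h j k z := by
      have h3 := hb2 j hj (k, z)
      change F k j z - evI (k, z) (b j) = _
      rw [h3]
    rw [h2]
    exact (hh j hj).2 k z ⟨z.2, mem_ball_iff_norm.2 hz⟩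
  set η : ℝ := (c - 2 * S.card * ε) / (2 * (S.card + 1)) with hη
  have hη0 : 0 < η := by
    have : 0 < c - 2 * S.card * ε := by linarith
    positivity
  have hev : ∀ᶠ x in ℱ, ∀ j ∈ S, ‖evI x (b j)‖ < ε + η := by
    rw [Filter.eventually_all_finset]
    intro j hj
    have h1 := (hℱ (b j) (Subalgebra.le_topologicalClosure _ (hb1 j hj))).norm
    exact h1.eventually_lt_const (by have := hsm j hj; linarith)
  obtain ⟨x, hx1, hx2⟩ := (hpt.and hev).exists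
  have hxm : ((x.2 : Bt 2) : V 2) ∈ ball (0 : V 2) 1 ∩ ball q r := ⟨x.2.2, mem_ball_iff_norm.2 hx1⟩
  have h1 := hc x.1 _ hxm
  have h2 : ∑ j ∈ S, ‖F x.1 j ((x.2 : Bt 2) : V 2)‖ ≤ ∑ j ∈ S, (2 * ε + η) := by
    refine Finset.sum_le_sum fun j hj => ?_
    have h3 := hx2 j hj
    rw [hb2 j hj x] at h3
    have h4 := (hh j hj).2 x.1 _ hxm
    have h5 := norm_le_norm_add_norm_sub' (F x.1 j ((x.2 : Bt 2) : V 2)) (h j x.1 ((x.2 : Bt 2) : V 2))
    linarith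
  rw [Finset.sum_const, nsmul_eq_mul] at h2
  have h3 : (S.card : ℝ) * η ≤ (c - 2 * S.card * ε) / 2 := by
    rw [hη]
    have h4 : (S.card : ℝ) * ((c - 2 * S.card * ε) / (2 * (S.card + 1))) =
        (S.card / (S.card + 1)) * ((c - 2 * S.card * ε) / 2) := by field_simp
    rw [h4]
    have h5 : (S.card : ℝ) / (S.card + 1) ≤ 1 := by
      rw [div_le_one (by positivity)]; linarith
    have h6 : 0 ≤ (c - 2 * S.card * ε) / 2 := by linarith
    nlinarith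
  nlinarith

end Pool.Agent.P157C
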