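import Mathlib
import Pool.Agent.P157C.FamU

/-!
The corona theorem on the unit ball `B` of `ℂ²` for families of data which near every boundary point
are close to elements of the algebra generated by all functions `f ∘ ψ`, where `f` is an arbitrary bounded
holomorphic function on the disc and `ψ` an arbitrary function holomorphic near the closed ball with
`|ψ| < 1` on `B`, and one arbitrary bounded holomorphic function.

In particular (`tuples`): data `f_1 ∘ ψ_1, …, f_K ∘ ψ_K, G` with arbitrary `f_k` and `G` have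
solutions with a bound depending on `ψ_1, …, ψ_K` and the lower bound `δ` only. The fibres of the `ψ_k` are
arbitrary complex curves, and no position of the `ψ_k` relative to each other is assumed.

Files (all in `Pool/Agent/P157C`):

* `Pw, PtE, IntE, Rep`: an explicit support function, pointwise and integral estimates, and a
  reproducing kernel for the curves `{W = ζ}` in the ball near a boundary point.
* `EeM, EeD, ExtE, ExtB, ExtSt, ExtA, SecE, VVb, VVw, VVd`: bounded holomorphic extension from the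
  curves, with a weighted estimate which is stable under division by the other functions.
* `OpY, SiegY, SiegZ, Step4`: a solution operator of P. Jones type built from these extensions.
* `LocN, LocG, LocU, LocV`: one function after another is removed from the data.
* `Hopf, Coord, Area, AreaF, SFx, LCx`: local coordinates given by the `ψ_k`; area estimates for the
  other maps on the fibres of one of them.
* `Loc1, LocK, Glue, Uni, FamU`: the local theorem, gluing by characters, closed algebras.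
-/

set_option autoImplicit false

open Metric Set Filter Topology

namespace Pool.Agent.P157C.HolSymb

/-- `ℂ²` with the euclidean norm; `ball (0 : V) 1` is the unit ball `B`. -/
abbrev V := EuclideanSpace ℂ (Fin 2)

/-- `ψ` is holomorphic in a neighbourhood of the closed ball and maps the open ball to the unit
disc. -/
def Symbol (ψ : V → ℂ) : Prop :=
  AnalyticOnNhd ℂ ψ (closedBall 0 1) ∧ ∀ z ∈ ball (0 : V) 1, ‖ψ z‖ < 1

/-- `G` is a uniformly bounded family of holomorphic functions on the ball. -/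
def BddFamily {I : Type} (G : I → V → ℂ) : Prop :=
  (∀ i, DifferentiableOn ℂ (G i) (ball 0 1)) ∧ ∃ C : ℝ, ∀ i, ∀ z ∈ ball (0 : V) 1, ‖G i z‖ ≤ C

/-- The algebra of families generated by the family `G` and all families `f_i ∘ ψ`, where `ψ` is a
symbol and `f_i` a uniformly bounded family of holomorphic functions on the unit disc. -/
inductive Alg {I : Type} (G : I → V → ℂ) : (I → V → ℂ) → Prop
  | gen : Alg G G
  | comp (f : I → ℂ → ℂ) (ψ : V → ℂ) (hf : ∀ i, DifferentiableOn ℂ (f i) (ball 0 1))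
      (hb : ∃ C : ℝ, ∀ i, ∀ w ∈ ball (0 : ℂ) 1, ‖f i w‖ ≤ C) (hψ : Symbol ψ) :
      Alg G (fun i z => f i (ψ z))
  | add (h k : I → V → ℂ) (hh : Alg G h) (hk : Alg G k) : Alg G (fun i z => h i z + k i z)
  | mul (h k : I → V → ℂ) (hh : Alg G h) (hk : Alg G k) : Alg G (fun i z => h i z * k i z)

theorem Alg.falg {I : Type} {G h : I → V → ℂ} (hh : Alg G h) : Pool.Agent.P157C.FAlg G h := by
  induction hh with
  | gen => exact .gen
  | comp f ψ hf hb hψ => exact .comp f ψ hf hb hψ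
  | add h k _ _ ih ik => exact .add h k ih ik
  | mul h k _ _ ih ik => exact .mul h k ih ik

/-- **Corona theorem on the ball of `ℂ²`, local form.** Let `(F_{i,1}, …, F_{i,N})`, `i ∈ I`, be corona
data on the ball `B` of `ℂ²`, `|F_{i,j}| ≤ 1`, `∑_j |F_{i,j}| ≥ δ > 0`. Suppose that for every
boundary point `p` there are a bounded family `G_i` of holomorphic functions on `B`, a set `S` of
indices, and `c > 2 |S| ε ≥ 0`, such that on `B` near `p` one has `∑_{j ∈ S} |F_{i,j}| ≥ c`, and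
`|F_{i,j} - h_{i,j}| ≤ ε` for `j ∈ S`, with a family `h_{i,j}` in the algebra generated by `G` and all
families `f_i ∘ ψ`. Then there are holomorphic functions `g_{i,j}` on `B`, bounded by a constant not
depending on `i`, with `∑_j F_{i,j} g_{i,j} = 1`. -/
theorem result {I : Type} (N : ℕ) (F : I → Fin N → V → ℂ)
    (hF : ∀ i j, DifferentiableOn ℂ (F i j) (ball 0 1) ∧ ∀ z ∈ ball (0 : V) 1, ‖F i j z‖ ≤ 1)
    (δ : ℝ) (hδ : 0 < δ) (hlow : ∀ i, ∀ z ∈ ball (0 : V) 1, δ ≤ ∑ j, ‖F i j z‖)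
    (hloc : ∀ p : V, ‖p‖ = 1 → ∃ (G : I → V → ℂ) (S : Finset (Fin N)) (h : Fin N → I → V → ℂ)
      (c ε r : ℝ), BddFamily G ∧ 0 < r ∧ 0 ≤ ε ∧ 2 * S.card * ε < c ∧
      (∀ i, ∀ z ∈ ball (0 : V) 1 ∩ ball p r, c ≤ ∑ j ∈ S, ‖F i j z‖) ∧
      ∀ j ∈ S, Alg G (h j) ∧ ∀ i, ∀ z ∈ ball (0 : V) 1 ∩ ball p r, ‖F i j z - h j i z‖ ≤ ε) :
    ∃ C : ℝ, ∀ i, ∃ g : Fin N → V → ℂ, (∀ j, DifferentiableOn ℂ (g j) (ball 0 1)) ∧
      (∀ j, ∀ z ∈ ball (0 : V) 1, ‖g j z‖ ≤ C) ∧ ∀ z ∈ ball (0 : V) 1, ∑ j, F i j z * g j z = 1 := by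
  refine Pool.Agent.P157C.famU hF hδ hlow ?_
  intro p hp
  obtain ⟨G, S, h, c, ε, r, hG, hr, hε, hc, hlow, hS⟩ := hloc p hp
  exact ⟨G, S, h, c, ε, r, hG.1, hG.2, hr, hε, hc, hlow, fun j hj => ⟨(hS j hj).1.falg, (hS j hj).2⟩⟩

/-- The special case of tuples `f_1 ∘ ψ_1, …, f_K ∘ ψ_K, G`, with constants. -/
theorem tuples (K : ℕ) (ψ : Fin K → V → ℂ) (hψ : ∀ k, Symbol (ψ k)) (δ : ℝ) (hδ : 0 < δ) :
    ∃ C : ℝ, ∀ f : Fin K → ℂ → ℂ, (∀ k, DifferentiableOn ℂ (f k) (ball 0 1)) →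
      (∀ k, ∀ w ∈ ball (0 : ℂ) 1, ‖f k w‖ ≤ 1) →
      ∀ G : V → ℂ, DifferentiableOn ℂ G (ball 0 1) → (∀ z ∈ ball (0 : V) 1, ‖G z‖ ≤ 1) →
      (∀ z ∈ ball (0 : V) 1, δ ≤ ∑ k, ‖f k (ψ k z)‖ + ‖G z‖) →
      ∃ (g : Fin K → V → ℂ) (g₀ : V → ℂ), (∀ k, DifferentiableOn ℂ (g k) (ball 0 1)) ∧
        DifferentiableOn ℂ g₀ (ball 0 1) ∧ (∀ k, ∀ z ∈ ball (0 : V) 1, ‖g k z‖ ≤ C) ∧
        (∀ z ∈ ball (0 : V) 1, ‖g₀ z‖ ≤ C) ∧
        ∀ z ∈ ball (0 : V) 1, ∑ k, f k (ψ k z) * g k z + G z * g₀ z = 1 :=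
  Pool.Agent.P157C.uni K hδ ψ (fun k => (hψ k).1) (fun k => (hψ k).2)

end Pool.Agent.P157C.HolSymb
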