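import Mathlib
import Pool.Agent.H720R2.HP.CutN
import Pool.Agent.Y263.SC.AsmX
import Pool.Agent.P157C.OpY

set_option autoImplicit false

set_option linter.unusedSectionVars false

open MeasureTheory Metric Set Filter Topology Complex

open scoped ContDiff

namespace Pool.Agent.P157C

open Pool.Agent.H720R2 Pool.Agent.H720R2.HP Pool.Agent.Y263.SC

open Pool.Agent.H788R3.Cor2 (osgood2)

section

variable {E : Type} [NormedAddCommGroup E] [NormedSpace ℂ E] [FiniteDimensional ℂ E]

variable {D : Set (ℂ × E)} {A : Set ℂ} {e : ℂ → ℂ × E → ℂ}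

variable {ι : Type} {S : Finset ι} {a : ι → ℂ} {R : ι → Set ℂ} {Cp : ℝ}

end

section

variable {E : Type} [NormedAddCommGroup E] [NormedSpace ℂ E] [FiniteDimensional ℂ E]

variable {D : Set (ℂ × E)} {e : ℂ → ℂ × E → ℂ}

variable {N : ℕ} {f : Fin N → ℂ → ℂ} {ε ε' C : ℝ} {ι : Type} {S : Finset ι} {a : ι → ℂ}
  {R : ι → Set ℂ} {χ : Option (Fin N) → ℂ → ℂ}

theorem ov_UH (hr : Ov D) {y : E} {w : ℂ} (hw : w ∈ {w : ℂ | (w, y) ∈ D}) : w ∈ UH :=
  hr.im (w, y) hw

theorem extS_one (D : Set (ℂ × E)) : ExtS D univ (fun _ => 1) 1 (fun _ _ => (1 : ℂ)) := by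
  refine ⟨fun _ => measurable_const, fun _ _ _ _ => by simp, fun _ _ => differentiableOn_const _,
    fun ζ _ p _ => ?_, 1, fun _ _ _ _ => by simp⟩
  have h := Real.sqrt_nonneg (ζ.im / ‖p.1 - ζ‖)
  rw [norm_one, one_mul]
  linarith

/-- **Solutions of the Bezout equation.** -/
theorem solveY (hr : Ov D) (h : CutP f ε ε' C S a R χ) (hε' : 0 < ε') (hC : 0 ≤ C)
    (hf : ∀ i, DifferentiableOn ℂ (f i) UH) (hfb : ∀ i, ∀ w ∈ UH, ‖f i w‖ ≤ 1)
    {G : ℂ × E → ℂ} (hG : DifferentiableOn ℂ G (D)) (hGb : ∀ p ∈ D, ‖G p‖ ≤ 1)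
    {η : ℝ} (hη : 0 < η) (hlow : ∀ p ∈ D, (∀ i, ‖f i p.1‖ ≤ ε) → η ≤ ‖G p‖)
    {M : ℝ} (hM0 : 0 ≤ M) (hX : ExtS D (AA f ε) G M e) :
    ∃ g : Fin N → ℂ × E → ℂ, ∃ g0 : ℂ × E → ℂ, (∀ i, DifferentiableOn ℂ (g i) (D)) ∧
      DifferentiableOn ℂ g0 (D) ∧
      (∀ i, ∀ p ∈ D, ‖g i p‖ ≤ 1 / ε' + 100000 * Real.exp C * (C / ε') * M +
        N * (2 * (100000 * Real.exp C * (2 * C / ε' ^ 2) * 1))) ∧
      (∀ p ∈ D, ‖g0 p‖ ≤ 1 / η + N * (100000 * Real.exp C * (C / ε') * M)) ∧
      ∀ p ∈ D, ∑ i, f i p.1 * g i p + G p * g0 p = 1 := by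
  choose V hV1 hV2 hV3 using fun i => jones_opY hr h.fam hX hM0 (den1' h hε' hC hf i)
  choose B hB1 hB2 hB3 using fun i j => jones_opY hr h.fam (extS_one D) zero_le_one
    (den2' h hε' hC hf i j)
  set C1 : ℝ := 100000 * Real.exp C * (C / ε') * M with hC1
  set C2 : ℝ := 100000 * Real.exp C * (2 * C / ε' ^ 2) * 1 with hC2
  have hC10 : 0 ≤ C1 := by positivity
  have hC20 : 0 ≤ C2 := by positivity
  -- zeros of `G`
  have hGne : ∀ p ∈ D, χ none p.1 ≠ 0 → η ≤ ‖G p‖ := by
    intro p hp hχ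
    exact hlow p hp (h.small p.1 (hr.im _ hp) hχ)
  have hfne : ∀ i, ∀ w ∈ UH, χ (some i) w ≠ 0 → f i w ≠ 0 := by
    intro i w hw hχ
    exact norm_pos_iff.1 (lt_of_lt_of_le hε' (h.large w hw i hχ))
  have hslice : ∀ y : E, DifferentiableOn ℂ (fun w => G (w, y)) {w : ℂ | (w, y) ∈ D} := by
    intro y w hw
    have h1 : DifferentiableAt ℂ G (w, y) := hG.differentiableAt (hr.op.mem_nhds hw)
    have h2 : DifferentiableAt ℂ (fun w : ℂ => (w, y)) w :=
      differentiableAt_id.prodMk (differentiableAt_const _)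
    exact (DifferentiableAt.comp w h1 h2).differentiableWithinAt
  have hslice2 : ∀ w : ℂ, DifferentiableOn ℂ (fun y : E => G (w, y)) {y | (w, y) ∈ D} := by
    intro w y hy
    have h1 : DifferentiableAt ℂ G (w, y) := hG.differentiableAt (hr.op.mem_nhds hy)
    have h2 : DifferentiableAt ℂ (fun y : E => (w, y)) y :=
      (differentiableAt_const _).prodMk differentiableAt_id
    exact (DifferentiableAt.comp y h1 h2).differentiableWithinAt
  have hG0 : ∀ y : E, ∀ w ∈ {w : ℂ | (w, y) ∈ D}, G (w, y) = 0 → ∀ᶠ z in 𝓝 w, χ none z = 0 := by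
    intro y w hw h0
    have hc : ContinuousAt (fun w => G (w, y)) w :=
      ((hslice y).differentiableAt ((slice_open hr y).mem_nhds hw)).continuousAt
    have h1 : ∀ᶠ z in 𝓝 w, ‖G (z, y)‖ < η :=
      hc.norm.eventually (gt_mem_nhds (by
        change ‖G (w, y)‖ < η
        rw [h0, norm_zero]; exact hη))
    filter_upwards [h1, (slice_open hr y).mem_nhds hw] with z hz1 hz2
    by_contra hne
    exact absurd (hGne (z, y) hz2 hne) (not_le.2 hz1)
  have hf0 : ∀ i, ∀ w ∈ UH, f i w = 0 → ∀ᶠ z in 𝓝 w, χ (some i) z = 0 := by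
    intro i w hw h0
    have hc : ContinuousAt (f i) w := ((hf i).differentiableAt (isOpen_UH.mem_nhds hw)).continuousAt
    have h1 : ∀ᶠ z in 𝓝 w, ‖f i z‖ < ε' :=
      hc.norm.eventually (gt_mem_nhds (by
        change ‖f i w‖ < ε'
        rw [h0, norm_zero]; exact hε'))
    filter_upwards [h1, isOpen_UH.mem_nhds hw] with z hz1 hz2
    by_contra hne
    exact absurd (h.large z hz2 i hne) (not_le.2 hz1)
  -- the functions
  set g0 : ℂ × E → ℂ := fun p => χ none p.1 / G p + ∑ i, -f i p.1 * V i p with hg0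
  set g : Fin N → ℂ × E → ℂ := fun i p => χ (some i) p.1 / f i p.1 + G p * V i p +
    ∑ j, (f j p.1 * B j i p + -f j p.1 * B i j p) with hg
  have hχle : ∀ o, ∀ w ∈ UH, ∀ (c : ℂ) (κ : ℝ), 0 < κ → (χ o w ≠ 0 → κ ≤ ‖c‖) →
      ‖χ o w / c‖ ≤ 1 / κ := by
    intro o w hw c κ hκ hc
    by_cases hχ : χ o w = 0
    · rw [hχ, zero_div, norm_zero]
      positivity
    · rw [norm_div]
      have h1 := hc hχ
      have h2 := h.bd o w hw
      gcongr
  have hg0b : ∀ p ∈ D, ‖g0 p‖ ≤ 1 / η + N * C1 := by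
    intro p hp
    refine (norm_add_le _ _).trans (add_le_add ?_ ?_)
    · exact hχle none p.1 (hr.im _ hp) (G p) η hη (hGne p hp)
    · refine (norm_sum_le _ _).trans ?_
      have h1 : ∀ i ∈ Finset.univ, ‖-f i p.1 * V i p‖ ≤ C1 := by
        intro i _
        rw [norm_mul, norm_neg]
        have h2 := hfb i p.1 (hr.im _ hp)
        have h3 := hV1 i p hp
        calc ‖f i p.1‖ * ‖V i p‖ ≤ 1 * C1 := by gcongr
          _ = C1 := one_mul _
      refine (Finset.sum_le_sum h1).trans (le_of_eq ?_)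
      simp
  have hgb : ∀ i, ∀ p ∈ D, ‖g i p‖ ≤ 1 / ε' + C1 + N * (2 * C2) := by
    intro i p hp
    refine (norm_add_le _ _).trans (add_le_add ((norm_add_le _ _).trans (add_le_add ?_ ?_)) ?_)
    · exact hχle (some i) p.1 (hr.im _ hp) (f i p.1) ε' hε' (h.large p.1 (hr.im _ hp) i)
    · rw [norm_mul]
      have h2 := hGb p hp
      have h3 := hV1 i p hp
      calc ‖G p‖ * ‖V i p‖ ≤ 1 * C1 := by gcongr
        _ = C1 := one_mul _
    · refine (norm_sum_le _ _).trans ?_
      have h1 : ∀ j ∈ Finset.univ, ‖f j p.1 * B j i p + -f j p.1 * B i j p‖ ≤ 2 * C2 := by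
        intro j _
        refine (norm_add_le _ _).trans ?_
        rw [norm_mul, norm_mul, norm_neg]
        have h2 := hfb j p.1 (hr.im _ hp)
        have h3 := hB1 j i p hp
        have h4 := hB1 i j p hp
        calc ‖f j p.1‖ * ‖B j i p‖ + ‖f j p.1‖ * ‖B i j p‖ ≤ 1 * C2 + 1 * C2 := by gcongr
          _ = 2 * C2 := by ring
      refine (Finset.sum_le_sum h1).trans (le_of_eq ?_)
      simp
  refine ⟨g, g0, ?_, ?_, hgb, hg0b, ?_⟩
  · intro i
    refine osgood2 hr.op (hgb i) ?_ ?_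
    · intro y
      change DifferentiableOn ℂ (fun w => g i (w, y)) {w : ℂ | (w, y) ∈ D}
      obtain ⟨hc1, hc2⟩ := inv_C1 (slice_open hr y) (fun w hw => ov_UH hr hw)
        ((hf i).mono (fun w hw => ov_UH hr hw)) (h.smooth (some i))
        (fun w hw => hf0 i w (ov_UH hr hw))
      have hw1 : WD {w : ℂ | (w, y) ∈ D} (fun w => χ (some i) w / f i w) (fun w => db (χ (some i)) w / f i w) :=
        (WD.of_C1 (slice_open hr y) hc1).congr (slice_open hr y) (fun _ _ => rfl)
          (fun w hw => (hc2 w hw).symm)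
      have hw2 := (hV2 i y).mul_holo (slice_open hr y) (hslice y)
      have hw3 := WD.sum (slice_open hr y) (Finset.univ : Finset (Fin N))
        (V := fun j w => f j w * B j i (w, y) + -f j w * B i j (w, y))
        (ν := fun j w => f j w * (mu2 f S R χ j i w * (1 : ℂ)⁻¹) +
          -f j w * (mu2 f S R χ i j w * (1 : ℂ)⁻¹))
        (fun j _ => ((hB2 j i y).mul_holo (slice_open hr y)
          ((hf j).mono (fun w hw => ov_UH hr hw))).add (slice_open hr y)
          ((hB2 i j y).mul_holo (slice_open hr y) ((hf j).mono (fun w hw => ov_UH hr hw)).neg))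
      refine ((hw1.add (slice_open hr y) hw2).add (slice_open hr y) hw3).holo (slice_open hr y) ?_
      intro w hw
      have hwU := ov_UH hr hw
      have e1 : G (w, y) * (mu1 f S R χ i w * (G (w, y))⁻¹) =
          starRingEnd ℂ (f i w) / (DD f w : ℂ) * db (χ none) w := by
        rw [mu1_eq h hwU]
        by_cases hd : db (χ none) w = 0
        · rw [hd]
          simp
        · have h2 := hlow (w, y) hw (fun i => h.d_none hf hwU (db_ne hd) i)
          have h3 : G (w, y) ≠ 0 := norm_pos_iff.1 (lt_of_lt_of_le hη h2)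
          field_simp
      have e2 : ∑ j, (f j w * (mu2 f S R χ j i w * (1 : ℂ)⁻¹) +
          -f j w * (mu2 f S R χ i j w * (1 : ℂ)⁻¹)) = -ee f χ i w := by
        simp only [inv_one, mul_one, mu2_eq h hε' hf hwU]
        rw [Finset.sum_add_distrib]
        have h1 : ∑ j, f j w * (starRingEnd ℂ (f i w) / (DD f w : ℂ) * ee f χ j w) = 0 := by
          have h2 : ∀ j, f j w * (starRingEnd ℂ (f i w) / (DD f w : ℂ) * ee f χ j w) =
              (starRingEnd ℂ (f i w) / (DD f w : ℂ)) * (f j w * ee f χ j w) := fun j => by ring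
          simp only [h2]
          rw [← Finset.mul_sum, sum_ee h hε' hf hwU, mul_zero]
        have h3 : ∑ j, -f j w * (starRingEnd ℂ (f j w) / (DD f w : ℂ) * ee f χ i w) = -ee f χ i w := by
          by_cases he : ee f χ i w = 0
          · rw [he]
            simp
          · have h4 := (ee_ne h hε' hf hwU he).1
            have h5 : (DD f w : ℂ) ≠ 0 := by
              have : 0 < DD f w := lt_of_lt_of_le (by positivity) h4
              exact_mod_cast this.ne'
            have h6 : ∀ j, -f j w * (starRingEnd ℂ (f j w) / (DD f w : ℂ) * ee f χ i w) =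
                (f j w * starRingEnd ℂ (f j w)) * (-((DD f w : ℂ)⁻¹ * ee f χ i w)) := fun j => by ring
            simp only [h6]
            rw [← Finset.sum_mul, conj_sum, mul_neg, ← mul_assoc, mul_inv_cancel₀ h5, one_mul]
        rw [h1, h3, zero_add]
      rw [e1, e2]
      unfold ee
      ring
    · intro w
      have hV := hV3 i w
      have hsum : DifferentiableOn ℂ (fun y : E => ∑ j, (f j w * B j i (w, y) +
          -f j w * B i j (w, y))) {y | (w, y) ∈ D} :=
        DifferentiableOn.fun_sum (fun j _ => ((hB3 j i w).const_mul _).fun_add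
          ((hB3 i j w).const_mul _))
      exact ((differentiableOn_const (χ (some i) w / f i w)).fun_add
        ((hslice2 w).fun_mul hV)).fun_add hsum
  · refine osgood2 hr.op hg0b ?_ ?_
    · intro y
      change DifferentiableOn ℂ (fun w => g0 (w, y)) {w : ℂ | (w, y) ∈ D}
      obtain ⟨hc1, hc2⟩ := inv_C1 (slice_open hr y) (fun w hw => ov_UH hr hw) (hslice y)
        (h.smooth none) (hG0 y)
      have hw1 : WD {w : ℂ | (w, y) ∈ D} (fun w => χ none w / G (w, y)) (fun w => db (χ none) w / G (w, y)) :=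
        (WD.of_C1 (slice_open hr y) hc1).congr (slice_open hr y) (fun _ _ => rfl)
          (fun w hw => (hc2 w hw).symm)
      have hw3 := WD.sum (slice_open hr y) (Finset.univ : Finset (Fin N))
        (V := fun i w => -f i w * V i (w, y))
        (ν := fun i w => -f i w * (mu1 f S R χ i w * (G (w, y))⁻¹))
        (fun i _ => (hV2 i y).mul_holo (slice_open hr y) ((hf i).mono (fun w hw => ov_UH hr hw)).neg)
      refine (hw1.add (slice_open hr y) hw3).holo (slice_open hr y) ?_
      intro w hw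
      have hwU := ov_UH hr hw
      simp only [mu1_eq h hwU]
      have h1 : ∀ i, -f i w * (starRingEnd ℂ (f i w) / (DD f w : ℂ) * db (χ none) w * (G (w, y))⁻¹) =
          (f i w * (starRingEnd ℂ (f i w) / (DD f w : ℂ) * db (χ none) w)) * (-(G (w, y))⁻¹) :=
        fun i => by ring
      simp only [h1]
      rw [← Finset.sum_mul, sum_mu1 h hε' hf hwU]
      ring
    · intro w
      have hsum : DifferentiableOn ℂ (fun y : E => ∑ i, -f i w * V i (w, y))
          {y | (w, y) ∈ D} :=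
        DifferentiableOn.fun_sum (fun i _ => (hV3 i w).const_mul _)
      have h1 : DifferentiableOn ℂ (fun y : E => χ none w / G (w, y)) {y | (w, y) ∈ D} := by
        by_cases hχ : χ none w = 0
        · simp only [hχ, zero_div]
          exact differentiableOn_const _
        · simp only [div_eq_mul_inv]
          refine DifferentiableOn.const_mul (DifferentiableOn.fun_inv (hslice2 w) ?_) _
          intro y hy
          exact norm_pos_iff.1 (lt_of_lt_of_le hη (hGne (w, y) hy hχ))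
      exact h1.fun_add hsum
  · intro p hp
    have hw := hr.im _ hp
    have e1 : G p * (χ none p.1 / G p) = χ none p.1 := by
      by_cases hχ : χ none p.1 = 0
      · rw [hχ, zero_div, mul_zero]
      · have h3 : G p ≠ 0 := norm_pos_iff.1 (lt_of_lt_of_le hη (hGne p hp hχ))
        field_simp
    have e2 : ∀ i, f i p.1 * (χ (some i) p.1 / f i p.1) = χ (some i) p.1 := by
      intro i
      by_cases hχ : χ (some i) p.1 = 0
      · rw [hχ, zero_div, mul_zero]
      · have h3 := hfne i p.1 hw hχ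
        field_simp
    have e3 : ∀ i, f i p.1 * g i p = χ (some i) p.1 + G p * (f i p.1 * V i p) +
        ∑ j, (f i p.1 * f j p.1 * B j i p - f j p.1 * f i p.1 * B i j p) := by
      intro i
      simp only [hg]
      rw [mul_add, mul_add, e2, Finset.mul_sum]
      congr 1
      · ring
      · refine Finset.sum_congr rfl (fun j _ => ?_)
        ring
    have e4 : ∑ i, ∑ j, (f i p.1 * f j p.1 * B j i p - f j p.1 * f i p.1 * B i j p) = 0 := by
      simp only [Finset.sum_sub_distrib]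
      rw [sub_eq_zero]
      exact Finset.sum_comm
    have e5 : G p * g0 p = χ none p.1 - G p * ∑ i, f i p.1 * V i p := by
      simp only [hg0]
      rw [mul_add, e1, sub_eq_add_neg, ← mul_neg, ← Finset.sum_neg_distrib]
      congr 2
      refine Finset.sum_congr rfl (fun i _ => ?_)
      ring
    have e6 := h.sum p.1 hw
    rw [Fintype.sum_option] at e6
    simp only [e3]
    rw [Finset.sum_add_distrib, Finset.sum_add_distrib, e4, e5, ← Finset.mul_sum]
    linear_combination e6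

end

/-- corona theorem on domains over the half plane with singular extensions, for nice `f i` -/
def SiegelY (N : ℕ) (δ M C : ℝ) : Prop :=
  ∀ (E : Type) [NormedAddCommGroup E] [NormedSpace ℂ E] [FiniteDimensional ℂ E]
    (D : Set (ℂ × E)), Ov D → ∀
    (f : Fin N → ℂ → ℂ) (η : ℝ), 0 < η →
    (∀ i, DifferentiableOn ℂ (f i) {w : ℂ | -η < w.im}) →
    (∀ i, ∀ w : ℂ, 0 ≤ w.im → ‖f i w‖ ≤ 1) →
    (∀ i, ∃ c : ℂ, Tendsto (f i) (Bornology.cobounded ℂ ⊓ 𝓟 {w : ℂ | 0 ≤ w.im}) (𝓝 c)) →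
    ∀ G : ℂ × E → ℂ, DifferentiableOn ℂ G D →
    (∀ p ∈ D, ‖G p‖ ≤ 1) →
    (∀ p ∈ D, (∀ i, ‖f i p.1‖ ≤ δ / 2) → δ ≤ ‖G p‖) →
    ∀ e : ℂ → ℂ × E → ℂ, ExtS D (AA f (δ / 2)) G M e →
    ∃ (g : Fin N → ℂ × E → ℂ) (g₀ : ℂ × E → ℂ),
      (∀ i, DifferentiableOn ℂ (g i) D) ∧
      DifferentiableOn ℂ g₀ D ∧
      (∀ i, ∀ p ∈ D, ‖g i p‖ ≤ C) ∧
      (∀ p ∈ D, ‖g₀ p‖ ≤ C) ∧
      ∀ p ∈ D, ∑ i, f i p.1 * g i p + G p * g₀ p = 1

/-- **TARGET** -/
theorem siegelY (N : ℕ) {δ M : ℝ} (hδ : 0 < δ) (hδ1 : δ ≤ 1) (hM : 0 ≤ M) :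
    ∃ C : ℝ, SiegelY N δ M C := by
  obtain ⟨ε', C, hε', hC, hcut⟩ := cutN N (ε := δ / 2) (by positivity) (by linarith)
  refine ⟨max (1 / ε' + 100000 * Real.exp C * (C / ε') * M +
        N * (2 * (100000 * Real.exp C * (2 * C / ε' ^ 2) * 1)))
        (1 / δ + N * (100000 * Real.exp C * (C / ε') * M)), ?_⟩
  intro E _ _ _ D hr f η hη hf hfb hlim G hG hGb hlow e he
  obtain ⟨S, a, R, χ, hP⟩ := hcut f η (fun i => ⟨hη, hf i, hfb i⟩) hlim
  obtain ⟨g, g0, h1, h2, h3, h4, h5⟩ := solveY hr hP hε' hC.le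
    (fun i => (hf i).mono (fun w hw => by
      change -η < w.im
      have : (0 : ℝ) < w.im := hw
      linarith)) (fun i w hw => hfb i w (le_of_lt hw)) hG hGb hδ hlow hM he
  exact ⟨g, g0, h1, h2, fun i p hp => (h3 i p hp).trans (le_max_left _ _),
    fun p hp => (h4 p hp).trans (le_max_right _ _), h5⟩

end Pool.Agent.P157C
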