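import Mathlib
import Pool.Agent.Y263.SC.AsmX
import Pool.Agent.P157C.SiegY
import Pool.Agent.P157C.ExtE

set_option autoImplicit false

open MeasureTheory Metric Set Filter Topology Complex

namespace Pool.Agent.P157C

open Pool.Agent.Y263.SC (Ov AA)

theorem ln_ov {κ L : ℝ} {z : ℂ × ℂ → ℂ} (h : LM κ L z) {θ : ℝ} (hθ : 0 < θ) :
    Ov (DD z (κ / 8) θ) := by
  have hκ := h.κ0
  refine ⟨?_, ?_⟩
  · have hz : ContinuousOn (rho z) {p : ℂ × ℂ | ‖p.1‖ < κ ∧ ‖p.2‖ < κ} := by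
      have h1 := h.diff.continuousOn
      unfold rho
      refine ContinuousOn.sub (ContinuousOn.sub continuousOn_const (h1.norm.pow 2)) ?_
      exact (continuous_snd.norm.pow 2).continuousOn
    have hU : IsOpen {p : ℂ × ℂ | ‖p.1‖ < κ ∧ ‖p.2‖ < κ} :=
      (isOpen_lt continuous_fst.norm continuous_const).inter
        (isOpen_lt continuous_snd.norm continuous_const)
    have hV : IsOpen {p : ℂ × ℂ | ‖p.1‖ < κ / 8 ∧ ‖p.2‖ < κ / 8} :=
      (isOpen_lt continuous_fst.norm continuous_const).inter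
        (isOpen_lt continuous_snd.norm continuous_const)
    have h2 := hV.inter (hz.isOpen_inter_preimage hU (isOpen_Ioi (a := θ)))
    have h3 : DD z (κ / 8) θ = {p : ℂ × ℂ | ‖p.1‖ < κ / 8 ∧ ‖p.2‖ < κ / 8} ∩
        ({p : ℂ × ℂ | ‖p.1‖ < κ ∧ ‖p.2‖ < κ} ∩ rho z ⁻¹' Ioi θ) := by
      apply Set.Subset.antisymm
      · rintro p ⟨h4, h5, h6⟩
        exact ⟨⟨h4, h5⟩, ⟨by linarith, by linarith⟩, h6⟩
      · rintro p ⟨⟨h4, h5⟩, -, h6⟩
        exact ⟨h4, h5, h6⟩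
    rw [h3]
    exact h2
  · rintro p ⟨h1, h2, h3⟩
    exact h.im p (by linarith) (by linarith) (hθ.trans h3)

theorem ln_div {S : Set (ℂ × ℂ)} {a b : ℂ × ℂ → ℂ} (ha : DifferentiableOn ℂ a S)
    (hb : DifferentiableOn ℂ b S) (h : ∀ p ∈ S, b p ≠ 0) :
    DifferentiableOn ℂ (fun p => a p / b p) S := by
  have h1 : (fun p => a p / b p) = fun p => a p * (b p)⁻¹ := by
    funext p
    rw [div_eq_mul_inv]
  rw [h1]
  exact ha.mul (hb.inv h)

theorem ln_addI {w : ℂ} (hw : 0 ≤ w.im) : 1 ≤ ‖w + I‖ := by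
  have h1 := Complex.abs_im_le_norm (w + I)
  rw [Complex.add_im, Complex.I_im] at h1
  rw [abs_of_nonneg (by linarith)] at h1
  linarith

theorem ln_ne {w : ℂ} (hw : -1 < w.im) : w + I ≠ 0 := by
  intro h
  have h1 := congrArg Complex.im h
  rw [Complex.add_im, Complex.I_im, Complex.zero_im] at h1
  linarith

theorem ln_norm_le {w : ℂ} (hw : 0 ≤ w.im) : ‖w‖ ≤ ‖w + I‖ := by
  rw [Complex.norm_def, Complex.norm_def]
  refine Real.sqrt_le_sqrt ?_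
  rw [Complex.normSq_apply, Complex.normSq_apply, Complex.add_im, Complex.add_re, Complex.I_im,
    Complex.I_re]
  nlinarith

theorem ln_one {w : ℂ} (hw : 0 ≤ w.im) : ‖w / (w + I)‖ ≤ 1 := by
  rw [norm_div]
  exact div_le_one_of_le₀ (ln_norm_le hw) (norm_nonneg _)

theorem ln_div_le {w : ℂ} (hw : 0 ≤ w.im) : ‖w / (w + I)‖ ≤ ‖w‖ := by
  rw [norm_div]
  exact div_le_self (norm_nonneg _) (ln_addI hw)

theorem ln_tend : Tendsto (fun w : ℂ => w / (w + I))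
    (Bornology.cobounded ℂ ⊓ 𝓟 {w : ℂ | 0 ≤ w.im}) (𝓝 1) := by
  have h1 : Tendsto (fun w : ℂ => 1 - I * (w + I)⁻¹) (Bornology.cobounded ℂ) (𝓝 (1 - I * 0)) := by
    refine tendsto_const_nhds.sub (tendsto_const_nhds.mul ?_)
    exact tendsto_inv₀_cobounded.comp (_root_.tendsto_add_const_cobounded I)
  rw [mul_zero, sub_zero] at h1
  refine (h1.mono_left inf_le_left).congr' ?_
  have h2 : ∀ᶠ w in Bornology.cobounded ℂ ⊓ 𝓟 {w : ℂ | 0 ≤ w.im}, w ∈ {w : ℂ | 0 ≤ w.im} :=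
    (mem_inf_of_right (mem_principal_self _))
  filter_upwards [h2] with w hw
  have hw' : 0 ≤ w.im := hw
  have h3 := ln_ne (w := w) (by linarith)
  field_simp
  ring

theorem ln_small {δ' κ : ℝ} (h1 : δ' ≤ κ / 16) (hκ : 0 < κ) (hκ1 : κ ≤ 1) (hδ' : 0 < δ') {ζ : ℂ}
    (hζ : 0 < ζ.im) (h : ‖ζ / (ζ + I)‖ ≤ δ' / 2) : ‖ζ‖ < κ / 8 := by
  rw [norm_div] at h
  have h2 := ln_addI hζ.le
  rw [div_le_iff₀ (by linarith)] at h
  have h3 : ‖ζ + I‖ ≤ ‖ζ‖ + 1 := by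
    refine (norm_add_le _ _).trans ?_
    rw [Complex.norm_I]
  have h4 : δ' / 2 * ‖ζ + I‖ ≤ δ' / 2 * (‖ζ‖ + 1) := by
    exact mul_le_mul_of_nonneg_left h3 (by linarith)
  have h5 : δ' / 2 * ‖ζ‖ ≤ 1 / 2 * ‖ζ‖ :=
    mul_le_mul_of_nonneg_right (by linarith) (norm_nonneg _)
  nlinarith [norm_nonneg ζ]

/-- **TARGET** -/
theorem locN (N : ℕ) {κ L δ : ℝ} (hκ : 0 < κ) (hκ1 : κ ≤ 1) (hL : 1 ≤ L) (hδ : 0 < δ)
    (hδ1 : δ ≤ 1) : ∃ C κ' : ℝ, 0 < κ' ∧ κ' ≤ κ ∧ ∀ z : ℂ × ℂ → ℂ, LM κ L z →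
    ∀ θ : ℝ, 0 < θ → ∀ (f : Fin N → ℂ → ℂ) (η : ℝ), 0 < η →
      (∀ i, DifferentiableOn ℂ (f i) {w : ℂ | -η < w.im}) →
      (∀ i, ∀ w : ℂ, 0 ≤ w.im → ‖f i w‖ ≤ 1) →
      (∀ i, ∃ c : ℂ, Tendsto (f i) (Bornology.cobounded ℂ ⊓ 𝓟 {w : ℂ | 0 ≤ w.im}) (𝓝 c)) →
      ∀ G : ℂ × ℂ → ℂ, DifferentiableOn ℂ G (DD z κ 0) → (∀ p ∈ DD z κ 0, ‖G p‖ ≤ 1) →
      (∀ p ∈ DD z κ 0, (∀ i, ‖f i p.1‖ < δ) → δ ≤ ‖G p‖) →
      Sol1 N C (DD z κ' θ) f G := by
  obtain ⟨δ', hδ'def⟩ : ∃ δ' : ℝ, δ' = min δ (κ / 16) := ⟨_, rfl⟩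
  have hδ'0 : 0 < δ' := by rw [hδ'def]; exact lt_min hδ (by linarith)
  have hδ'δ : δ' ≤ δ := by rw [hδ'def]; exact min_le_left _ _
  have hδ'κ : δ' ≤ κ / 16 := by rw [hδ'def]; exact min_le_right _ _
  obtain ⟨M0, hM0, hext⟩ := ext_exists hκ hκ1 hL
  obtain ⟨C0, hC0⟩ := siegelY (N + 1) (δ := δ') (M := M0 / δ) hδ'0 (by linarith)
    (div_nonneg hM0 hδ.le)
  obtain ⟨C, hC, hC1⟩ : ∃ C : ℝ, C0 ≤ C ∧ 1 ≤ C := ⟨max C0 1, le_max_left _ _, le_max_right _ _⟩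
  refine ⟨2 * C, min (κ / 8) (1 / (2 * C)), lt_min (by linarith) (by positivity),
    (min_le_left _ _).trans (by linarith), ?_⟩
  intro z hz θ hθ f η hη hf1 hf2 hf3 G hG1 hG2 hG3
  obtain ⟨f', hf'⟩ : ∃ f' : Fin (N + 1) → ℂ → ℂ,
      f' = Fin.snoc (α := fun _ => ℂ → ℂ) f (fun w => w / (w + I)) := ⟨_, rfl⟩
  have hfc : ∀ i : Fin N, f' i.castSucc = f i := fun i => by
    rw [hf']; exact Fin.snoc_castSucc (α := fun _ => ℂ → ℂ) _ _ _
  have hfl : f' (Fin.last N) = fun w => w / (w + I) := by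
    rw [hf']; exact Fin.snoc_last (α := fun _ => ℂ → ℂ) _ _
  have hsub : DD z (κ / 8) θ ⊆ DD z κ 0 := by
    rintro p ⟨h1, h2, h3⟩
    exact ⟨by linarith, by linarith, hθ.trans h3⟩
  have hA : ∀ ζ ∈ AA f' (δ' / 2), ‖ζ‖ < κ / 8 ∧ ∀ i, ‖f i ζ‖ < δ := by
    rintro ζ ⟨h1, h2⟩
    constructor
    · have h3 := h2 (Fin.last N)
      rw [hfl] at h3
      exact ln_small hδ'κ hκ hκ1 hδ'0 h1 h3
    · intro i
      have h3 := h2 i.castSucc
      rw [hfc] at h3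
      linarith
  obtain ⟨e, he⟩ := hext z hz θ hθ (AA f' (δ' / 2)) (fun ζ hζ => (hA ζ hζ).1) G hG1 δ hδ
    (fun ζ hζ y hy => hG3 (ζ, y) hy (hA ζ hζ).2)
  obtain ⟨g', g₀', hg1, hg2, hg3, hg4, hg5⟩ := hC0 ℂ (DD z (κ / 8) θ) (ln_ov hz hθ) f'
    (min η (1 / 2)) (lt_min hη (by norm_num))
    (by
      intro i
      refine Fin.lastCases ?_ (fun i => ?_) i
      · rw [hfl]
        refine DifferentiableOn.div differentiableOn_id
          (differentiableOn_id.add (differentiableOn_const _)) ?_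
        intro w hw
        have h1 : -min η (1 / 2) < w.im := hw
        have h2 := min_le_right η (1 / 2)
        exact ln_ne (by linarith)
      · rw [hfc]
        refine (hf1 i).mono ?_
        intro w hw
        have h1 : -min η (1 / 2) < w.im := hw
        have h2 := min_le_left η (1 / 2)
        show -η < w.im
        linarith)
    (by
      intro i
      refine Fin.lastCases ?_ (fun i => ?_) i
      · intro w hw
        rw [hfl]
        exact ln_one hw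
      · rw [hfc]
        exact hf2 i)
    (by
      intro i
      refine Fin.lastCases ?_ (fun i => ?_) i
      · rw [hfl]
        exact ⟨1, ln_tend⟩
      · rw [hfc]
        exact hf3 i)
    G (hG1.mono hsub) (fun p hp => hG2 p (hsub hp))
    (by
      intro p hp h
      refine hδ'δ.trans (hG3 p (hsub hp) fun i => ?_)
      have h3 := h i.castSucc
      rw [hfc] at h3
      linarith)
    e he
  have hsub2 : DD z (min (κ / 8) (1 / (2 * C))) θ ⊆ DD z (κ / 8) θ := by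
    rintro p ⟨h1, h2, h3⟩
    exact ⟨h1.trans_le (min_le_left _ _), h2.trans_le (min_le_left _ _), h3⟩
  obtain ⟨v, hv⟩ : ∃ v : ℂ × ℂ → ℂ, ∀ p, v p = 1 - p.1 / (p.1 + I) * g' (Fin.last N) p :=
    ⟨fun p => 1 - p.1 / (p.1 + I) * g' (Fin.last N) p, fun _ => rfl⟩
  have hvn : ∀ p ∈ DD z (min (κ / 8) (1 / (2 * C))) θ, 1 / 2 ≤ ‖v p‖ := by
    intro p hp
    have him : 0 < p.1.im := (ln_ov hz hθ).im p (hsub2 hp)
    have h1 : ‖p.1 / (p.1 + I)‖ ≤ 1 / (2 * C) :=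
      (ln_div_le him.le).trans (hp.1.le.trans (min_le_right _ _))
    have h2 : ‖g' (Fin.last N) p‖ ≤ C := (hg3 _ p (hsub2 hp)).trans hC
    have h3 : ‖p.1 / (p.1 + I) * g' (Fin.last N) p‖ ≤ 1 / (2 * C) * C := by
      rw [norm_mul]
      exact mul_le_mul h1 h2 (norm_nonneg _) (by positivity)
    have h4 : 1 / (2 * C) * C = 1 / 2 := by
      field_simp
    rw [h4] at h3
    have h5 := norm_sub_norm_le (1 : ℂ) (p.1 / (p.1 + I) * g' (Fin.last N) p)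
    rw [norm_one, ← hv] at h5
    linarith
  have hv0 : ∀ p ∈ DD z (min (κ / 8) (1 / (2 * C))) θ, v p ≠ 0 := by
    intro p hp h
    have h1 := hvn p hp
    rw [h, norm_zero] at h1
    linarith
  have hvd : DifferentiableOn ℂ v (DD z (min (κ / 8) (1 / (2 * C))) θ) := by
    have h1 : v = fun p => 1 - p.1 / (p.1 + I) * g' (Fin.last N) p := funext hv
    rw [h1]
    refine (differentiableOn_const _).sub (DifferentiableOn.mul ?_ ((hg1 _).mono hsub2))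
    refine ln_div differentiableOn_fst
      (differentiableOn_fst.add (differentiableOn_const _)) ?_
    intro p hp
    have him : 0 < p.1.im := (ln_ov hz hθ).im p (hsub2 hp)
    exact ln_ne (by linarith)
  have hbd : ∀ (p : ℂ × ℂ) (_ : p ∈ DD z (min (κ / 8) (1 / (2 * C))) θ) (a : ℂ), ‖a‖ ≤ C0 →
      ‖a / v p‖ ≤ 2 * C := by
    intro p hp a ha
    have h1 := hvn p hp
    rw [norm_div, div_le_iff₀ (by linarith)]
    nlinarith
  refine ⟨fun i p => g' i.castSucc p / v p, fun p => g₀' p / v p, ?_, ?_, ?_, ?_, ?_⟩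
  · intro i
    exact ln_div ((hg1 _).mono hsub2) hvd hv0
  · exact ln_div (hg2.mono hsub2) hvd hv0
  · intro i p hp
    exact hbd p hp _ (hg3 _ p (hsub2 hp))
  · intro p hp
    exact hbd p hp _ (hg4 p (hsub2 hp))
  · intro p hp
    have h1 := hg5 p (hsub2 hp)
    rw [Fin.sum_univ_castSucc, hfl] at h1
    have h2 : ∑ i : Fin N, f i p.1 * g' i.castSucc p + G p * g₀' p = v p := by
      rw [hv, ← h1]
      simp only [hfc]
      ring
    have h3 := hv0 p hp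
    have h4 : ∑ i : Fin N, f i p.1 * (g' i.castSucc p / v p) + G p * (g₀' p / v p) =
        (∑ i : Fin N, f i p.1 * g' i.castSucc p + G p * g₀' p) / v p := by
      rw [add_div, Finset.sum_div, mul_div_assoc]
      congr 1
      refine Finset.sum_congr rfl fun i _ => ?_
      rw [mul_div_assoc]
    rw [h4, h2, div_self h3]

end Pool.Agent.P157C
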