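import Mathlib
import Pool.Agent.H788R3.Cor2.Base
import Pool.Agent.P157C.LocN

set_option autoImplicit false

open MeasureTheory Metric Set Filter Topology Complex

namespace Pool.Agent.P157C

/-- the map `φ` (with the parameter `-s` it is the map `ψ`) -/
noncomputable def ph (s : ℝ) (w : ℂ) : ℂ := (w + I * s) / (1 - I * s * w)

theorem ph_norm_aux {s : ℝ} {w : ℂ} (hw : ‖w‖ ≤ 1) : ‖I * s * w‖ ≤ |s| := by
  rw [norm_mul, norm_mul, Complex.norm_I, one_mul, Complex.norm_real, Real.norm_eq_abs]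
  calc |s| * ‖w‖ ≤ |s| * 1 := mul_le_mul_of_nonneg_left hw (abs_nonneg s)
    _ = |s| := mul_one _

theorem den_lo {s : ℝ} (hs : |s| ≤ 1 / 16) {w : ℂ} (hw : ‖w‖ ≤ 1) : 15 / 16 ≤ ‖1 - I * s * w‖ := by
  have h1 := ph_norm_aux (s := s) hw
  have h2 := norm_sub_norm_le (1 : ℂ) (I * s * w)
  rw [norm_one] at h2
  linarith

theorem den_hi {s : ℝ} (hs : |s| ≤ 1 / 16) {w : ℂ} (hw : ‖w‖ ≤ 1) : ‖1 - I * s * w‖ ≤ 17 / 16 := by
  have h1 := ph_norm_aux (s := s) hw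
  have h2 := norm_sub_le (1 : ℂ) (I * s * w)
  rw [norm_one] at h2
  linarith

theorem den_ne {s : ℝ} (hs : |s| ≤ 1 / 16) {w : ℂ} (hw : ‖w‖ ≤ 1) : 1 - I * s * w ≠ 0 := by
  intro h
  have := den_lo hs hw
  rw [h, norm_zero] at this
  linarith

theorem ph_sub {s : ℝ} (hs : |s| ≤ 1 / 16) {w : ℂ} (hw : ‖w‖ ≤ 1) : ‖ph s w - w‖ ≤ 4 * |s| := by
  have hne := den_ne hs hw
  have h1 : ph s w - w = I * s * (1 + w ^ 2) / (1 - I * s * w) := by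
    unfold ph
    rw [div_sub' hne, div_left_inj' hne]
    ring
  have h3 : ‖1 + w ^ 2‖ ≤ 2 := by
    refine (norm_add_le _ _).trans ?_
    rw [norm_one, norm_pow]
    have : ‖w‖ ^ 2 ≤ 1 := pow_le_one₀ (norm_nonneg _) hw
    linarith
  have h4 := den_lo hs hw
  rw [h1, norm_div, norm_mul, norm_mul, Complex.norm_I, one_mul, Complex.norm_real,
    Real.norm_eq_abs, div_le_iff₀ (by linarith)]
  have h5 : |s| * ‖1 + w ^ 2‖ ≤ |s| * 2 := mul_le_mul_of_nonneg_left h3 (abs_nonneg s)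
  have h6 : 4 * |s| * (15 / 16) ≤ 4 * |s| * ‖1 - I * s * w‖ :=
    mul_le_mul_of_nonneg_left h4 (by positivity)
  have := abs_nonneg s
  linarith

theorem ph_diff {s : ℝ} (hs : |s| ≤ 1 / 16) {w w' : ℂ} (hw : ‖w‖ ≤ 1) (hw' : ‖w'‖ ≤ 1) :
    ph s w - ph s w' = (1 - (s : ℂ) ^ 2) * (w - w') / ((1 - I * s * w) * (1 - I * s * w')) := by
  have h1 := den_ne hs hw
  have h2 := den_ne hs hw'
  unfold ph
  rw [div_sub_div _ _ h1 h2, div_left_inj' (mul_ne_zero h1 h2)]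
  linear_combination ((s : ℂ) ^ 2 * (w - w')) * Complex.I_sq

theorem s2_lo {s : ℝ} (hs : |s| ≤ 1 / 16) : 255 / 256 ≤ ‖(1 - (s : ℂ) ^ 2 : ℂ)‖ ∧
    ‖(1 - (s : ℂ) ^ 2 : ℂ)‖ ≤ 1 := by
  have h1 : (1 - (s : ℂ) ^ 2 : ℂ) = ((1 - s ^ 2 : ℝ) : ℂ) := by push_cast; ring
  have h2 : s ^ 2 ≤ (1 / 16) ^ 2 := by
    rw [← sq_abs]; exact pow_le_pow_left₀ (abs_nonneg _) hs 2
  rw [h1, Complex.norm_real, Real.norm_of_nonneg (by nlinarith)]
  constructor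
  · nlinarith
  · nlinarith [sq_nonneg s]

theorem ph_lip {s : ℝ} (hs : |s| ≤ 1 / 16) {w w' : ℂ} (hw : ‖w‖ ≤ 1) (hw' : ‖w'‖ ≤ 1) :
    ‖ph s w - ph s w'‖ ≤ 4 * ‖w - w'‖ := by
  obtain ⟨-, h1⟩ := s2_lo hs
  have h2 := den_lo hs hw
  have h3 := den_lo hs hw'
  rw [ph_diff hs hw hw', norm_div, norm_mul, norm_mul]
  have h4 : (15 / 16 : ℝ) * (15 / 16) ≤ ‖1 - I * s * w‖ * ‖1 - I * s * w'‖ :=
    mul_le_mul h2 h3 (by norm_num) (by linarith)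
  rw [div_le_iff₀ (by nlinarith)]
  have h5 : ‖(1 - (s : ℂ) ^ 2 : ℂ)‖ * ‖w - w'‖ ≤ 1 * ‖w - w'‖ :=
    mul_le_mul_of_nonneg_right h1 (norm_nonneg _)
  have h6 : 4 * ‖w - w'‖ * ((15 / 16 : ℝ) * (15 / 16)) ≤
      4 * ‖w - w'‖ * (‖1 - I * s * w‖ * ‖1 - I * s * w'‖) :=
    mul_le_mul_of_nonneg_left h4 (by positivity)
  have := norm_nonneg (w - w')
  nlinarith

theorem ph_inj {s : ℝ} (hs : |s| ≤ 1 / 16) {w w' : ℂ} (hw : ‖w‖ ≤ 1) (hw' : ‖w'‖ ≤ 1) :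
    ‖w - w'‖ ≤ 3 * ‖ph s w - ph s w'‖ := by
  obtain ⟨h1, -⟩ := s2_lo hs
  have h2 := den_lo hs hw
  have h3 := den_lo hs hw'
  have h2' := den_hi hs hw
  have h3' := den_hi hs hw'
  rw [ph_diff hs hw hw', norm_div, norm_mul, norm_mul]
  have h0 : 0 < ‖1 - I * s * w‖ * ‖1 - I * s * w'‖ := by
    apply mul_pos <;> linarith
  have h4 : ‖1 - I * s * w‖ * ‖1 - I * s * w'‖ ≤ (17 / 16 : ℝ) * (17 / 16) :=
    mul_le_mul h2' h3' (norm_nonneg _) (by norm_num)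
  rw [mul_div_assoc', le_div_iff₀ h0]
  have h5 : 255 / 256 * ‖w - w'‖ ≤ ‖(1 - (s : ℂ) ^ 2 : ℂ)‖ * ‖w - w'‖ :=
    mul_le_mul_of_nonneg_right h1 (norm_nonneg _)
  have h6 : ‖w - w'‖ * (‖1 - I * s * w‖ * ‖1 - I * s * w'‖) ≤
      ‖w - w'‖ * ((17 / 16 : ℝ) * (17 / 16)) :=
    mul_le_mul_of_nonneg_left h4 (norm_nonneg _)
  have := norm_nonneg (w - w')
  nlinarith

theorem ph_ps {s : ℝ} (hs : |s| ≤ 1 / 16) {u : ℂ} (hu : ‖u‖ ≤ 1) : ph s (ph (-s) u) = u := by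
  have h1 : 1 - I * ((-s : ℝ) : ℂ) * u ≠ 0 := den_ne (by rwa [abs_neg]) hu
  have h2 : (1 - (s : ℂ) ^ 2 : ℂ) ≠ 0 := by
    intro h
    have := (s2_lo hs).1
    rw [h, norm_zero] at this
    linarith
  have e1 : ph (-s) u + I * s = (1 - (s : ℂ) ^ 2) * u / (1 - I * ((-s : ℝ) : ℂ) * u) := by
    unfold ph
    rw [div_add' _ _ _ h1, div_left_inj' h1]
    push_cast
    linear_combination ((s : ℂ) ^ 2 * u) * Complex.I_sq
  have e2 : 1 - I * s * ph (-s) u = (1 - (s : ℂ) ^ 2) / (1 - I * ((-s : ℝ) : ℂ) * u) := by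
    unfold ph
    rw [mul_div_assoc', sub_div' h1, div_left_inj' h1]
    push_cast
    linear_combination ((s : ℂ) ^ 2) * Complex.I_sq
  have e3 : ph s (ph (-s) u) = (ph (-s) u + I * s) / (1 - I * s * ph (-s) u) := rfl
  rw [e3, e1, e2, div_div_div_cancel_right₀ h1, mul_div_cancel_left₀ _ h2]

theorem ph_dat {s : ℝ} {w : ℂ} (h : 1 - I * s * w ≠ 0) : DifferentiableAt ℂ (ph s) w := by
  unfold ph
  exact DifferentiableAt.div (by fun_prop) (by fun_prop) h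

theorem im_ph {s : ℝ} (hs : 0 < s) (hs1 : s ≤ 1 / 16) {w : ℂ} (hw : -(s / 2) < w.im) :
    1 - I * s * w ≠ 0 ∧ 0 < (ph s w).im := by
  have hre : (1 - I * s * w).re = 1 + s * w.im := by simp
  have hne : 1 - I * s * w ≠ 0 := by
    intro h
    rw [h] at hre
    simp at hre
    nlinarith
  refine ⟨hne, ?_⟩
  have h1 : 0 < Complex.normSq (1 - I * s * w) := Complex.normSq_pos.2 hne
  have h2 : (ph s w).im = ((1 + s ^ 2) * w.im + s * (1 + Complex.normSq w)) /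
      Complex.normSq (1 - I * s * w) := by
    unfold ph
    rw [Complex.div_im, Complex.normSq_apply w]
    rw [← sub_div]
    congr 1
    simp
    ring
  rw [h2]
  apply div_pos _ h1
  have := Complex.normSq_nonneg w
  nlinarith

theorem ph_tendsto {s : ℝ} (hs : 0 < s) :
    Tendsto (ph s) (Bornology.cobounded ℂ) (𝓝 (I / s)) := by
  have hs0 : (s : ℂ) ≠ 0 := by exact_mod_cast hs.ne'
  have h1 : Tendsto (fun w : ℂ => 1 - I * s * w) (Bornology.cobounded ℂ)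
      (Bornology.cobounded ℂ) := by
    rw [← tendsto_norm_atTop_iff_cobounded]
    have h2 : Tendsto (fun w : ℂ => s * ‖w‖ - 1) (Bornology.cobounded ℂ) atTop :=
      tendsto_atTop_add_const_right _ _ (tendsto_norm_cobounded_atTop.const_mul_atTop hs)
    refine tendsto_atTop_mono (fun w => ?_) h2
    have h3 := norm_sub_norm_le (I * s * w) (1 : ℂ)
    rw [norm_sub_rev, norm_one, norm_mul, norm_mul, Complex.norm_I, one_mul, Complex.norm_real,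
      Real.norm_of_nonneg hs.le] at h3
    exact h3
  have h2 : Tendsto (fun w : ℂ => I / s + I * (s - 1 / s) * (1 - I * s * w)⁻¹)
      (Bornology.cobounded ℂ) (𝓝 (I / s + I * (s - 1 / s) * 0)) :=
    tendsto_const_nhds.add (tendsto_const_nhds.mul (tendsto_inv₀_cobounded.comp h1))
  rw [mul_zero, add_zero] at h2
  refine h2.congr' ?_
  have h3 : ∀ᶠ w : ℂ in Bornology.cobounded ℂ, 1 - I * s * w ≠ 0 := by
    have := h1.eventually (Bornology.eventually_ne_cobounded (0 : ℂ))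
    exact this
  filter_upwards [h3] with w hw
  unfold ph
  field_simp
  linear_combination (-(s : ℂ) * w) * Complex.I_sq

section Target1

variable {κ L s lam : ℝ} {z : ℂ × ℂ → ℂ}

/-- the function `z'` -/
noncomputable def zz (z : ℂ × ℂ → ℂ) (s lam : ℝ) (p : ℂ × ℂ) : ℂ :=
  z (ph s p.1, (lam : ℂ) * p.2) / (lam : ℂ)

theorem rho_zz (hl0 : 0 < lam) {c : ℝ} (hl2 : lam ^ 2 = 1 - c * s) (p : ℂ × ℂ) :
    rho (zz z s lam) p * lam ^ 2 = rho z (ph s p.1, (lam : ℂ) * p.2) - c * s := by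
  unfold rho zz
  simp only [norm_div, norm_mul, Complex.norm_real, Real.norm_of_nonneg hl0.le]
  field_simp
  linarith

/-- the constants -/
structure Par (κ L s lam : ℝ) : Prop where
  s0 : 0 < s
  sκ : 16 * s ≤ κ
  s1 : |s| ≤ 1 / 16
  l0 : 0 < lam
  lh : 1 / 2 ≤ lam
  l1 : lam ≤ 1
  l2 : lam ^ 2 = 1 - (8 * L ^ 2 + 1) * s

theorem par (hκ1 : κ ≤ 1) (hs : 0 < s) (hs1 : 16 * s ≤ κ)
    (hs2 : 2 * (8 * L ^ 2 + 1) * s ≤ 1) (hl : lam = √(1 - (8 * L ^ 2 + 1) * s)) :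
    Par κ L s lam := by
  have hL2 : 0 ≤ L ^ 2 := sq_nonneg L
  have hl2 : lam ^ 2 = 1 - (8 * L ^ 2 + 1) * s := by
    rw [hl, Real.sq_sqrt (by linarith)]
  have hl0 : 0 ≤ lam := by rw [hl]; exact Real.sqrt_nonneg _
  have h1 : 1 / 2 ≤ lam := by
    by_contra hcon
    push Not at hcon
    nlinarith
  refine ⟨hs, hs1, ?_, by linarith, h1, ?_, hl2⟩
  · rw [abs_of_pos hs]; linarith
  · by_contra hcon
    push Not at hcon
    have : 0 < (8 * L ^ 2 + 1) * s := by positivity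
    nlinarith

theorem Par.w (h : Par κ L s lam) (hκ1 : κ ≤ 1) {w : ℂ} (hw : ‖w‖ < κ / 2) :
    ‖w‖ ≤ 1 ∧ ‖ph s w‖ < κ := by
  have hw1 : ‖w‖ ≤ 1 := by linarith [h.s0, h.sκ]
  refine ⟨hw1, ?_⟩
  have h1 := ph_sub h.s1 hw1
  rw [abs_of_pos h.s0] at h1
  have h2 : ‖ph s w‖ ≤ ‖ph s w - w‖ + ‖w‖ := by
    have := norm_add_le (ph s w - w) w
    rwa [sub_add_cancel] at this
  linarith [h.s0, h.sκ]

theorem Par.y (h : Par κ L s lam) {y : ℂ} (hy : ‖y‖ < κ / 2) : ‖(lam : ℂ) * y‖ < κ := by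
  rw [norm_mul, Complex.norm_real, Real.norm_of_nonneg h.l0.le]
  have h1 : lam * ‖y‖ ≤ 1 * ‖y‖ := mul_le_mul_of_nonneg_right h.l1 (norm_nonneg _)
  have h2 := h.s0
  have h3 := h.sκ
  linarith

theorem dz_zz (hl0 : lam ≠ 0) (p : ℂ × ℂ) :
    dz (zz z s lam) p = dz z (ph s p.1, (lam : ℂ) * p.2) := by
  have hl : (lam : ℂ) ≠ 0 := by exact_mod_cast hl0
  unfold dz zz
  simp only
  have h1 : (fun y : ℂ => z (ph s p.1, (lam : ℂ) * y) / (lam : ℂ)) =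
      fun y : ℂ => (fun y' : ℂ => z (ph s p.1, y')) ((lam : ℂ) * y) / (lam : ℂ) := rfl
  rw [deriv_div_const, deriv_comp_mul_left (lam : ℂ) (fun y' : ℂ => z (ph s p.1, y')) p.2,
    smul_eq_mul]
  field_simp

theorem lm_s0 (h : LM κ L z) (P : Par κ L s lam) : LM (κ / 2) (8 * L) (zz z s lam) := by
  have hκ := h.κ0
  have hκ1 := h.κ1
  have hL := h.L1
  have hl0 := P.l0
  have hlh := P.lh
  have hl1 := P.l1
  have hlc : (lam : ℂ) ≠ 0 := by exact_mod_cast hl0.ne'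
  have hdiv : ∀ a : ℂ, ‖a / (lam : ℂ)‖ = ‖a‖ / lam := by
    intro a
    rw [norm_div, Complex.norm_real, Real.norm_of_nonneg hl0.le]
  have hy : ∀ {y y' : ℂ}, ‖(lam : ℂ) * y - (lam : ℂ) * y'‖ ≤ ‖y - y'‖ := by
    intro y y'
    rw [← mul_sub, norm_mul, Complex.norm_real, Real.norm_of_nonneg hl0.le]
    have h1 : lam * ‖y - y'‖ ≤ 1 * ‖y - y'‖ := mul_le_mul_of_nonneg_right hl1 (norm_nonneg _)
    linarith
  refine ⟨by linarith, by linarith, by linarith, ?_, ?_, ?_, ?_, ?_, ?_, ?_, ?_⟩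
  · -- differentiability
    have h1 : MapsTo (fun p : ℂ × ℂ => (ph s p.1, (lam : ℂ) * p.2))
        {p : ℂ × ℂ | ‖p.1‖ < κ / 2 ∧ ‖p.2‖ < κ / 2} {p : ℂ × ℂ | ‖p.1‖ < κ ∧ ‖p.2‖ < κ} := by
      intro p hp
      exact ⟨(P.w hκ1 hp.1).2, P.y hp.2⟩
    have h2 : DifferentiableOn ℂ (fun p : ℂ × ℂ => (ph s p.1, (lam : ℂ) * p.2))
        {p : ℂ × ℂ | ‖p.1‖ < κ / 2 ∧ ‖p.2‖ < κ / 2} := by
      intro p hp
      have h3 : DifferentiableAt ℂ (ph s) p.1 := ph_dat (den_ne P.s1 (P.w hκ1 hp.1).1)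
      have h4 : DifferentiableAt ℂ (fun p : ℂ × ℂ => ph s p.1) p :=
        DifferentiableAt.comp p h3 differentiableAt_fst
      exact (h4.prodMk (by fun_prop)).differentiableWithinAt
    have h3 : DifferentiableOn ℂ (fun p : ℂ × ℂ => z (ph s p.1, (lam : ℂ) * p.2))
        {p : ℂ × ℂ | ‖p.1‖ < κ / 2 ∧ ‖p.2‖ < κ / 2} := h.diff.comp h2 h1
    have h4 : DifferentiableOn ℂ (fun p : ℂ × ℂ => z (ph s p.1, (lam : ℂ) * p.2) * (lam : ℂ)⁻¹)
        {p : ℂ × ℂ | ‖p.1‖ < κ / 2 ∧ ‖p.2‖ < κ / 2} := h3.mul_const _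
    exact h4
  · -- lower bound
    intro p h1 h2
    have h3 := h.lo (ph s p.1, (lam : ℂ) * p.2) (P.w hκ1 h1).2 (P.y h2)
    unfold zz
    rw [hdiv, le_div_iff₀ hl0]
    linarith
  · -- upper bound
    intro p h1 h2
    have h3 := h.hi (ph s p.1, (lam : ℂ) * p.2) (P.w hκ1 h1).2 (P.y h2)
    unfold zz
    rw [hdiv, div_le_iff₀ hl0]
    nlinarith
  · -- Lipschitz
    intro p q h1 h2 h3 h4
    have h5 := h.lip (ph s p.1, (lam : ℂ) * p.2) (ph s q.1, (lam : ℂ) * q.2)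
      (P.w hκ1 h1).2 (P.y h2) (P.w hκ1 h3).2 (P.y h4)
    have h6 := ph_lip P.s1 (P.w hκ1 h1).1 (P.w hκ1 h3).1
    have h7 := hy (y := p.2) (y' := q.2)
    simp only at h5
    have h8 : ‖zz z s lam p - zz z s lam q‖ = ‖z (ph s p.1, (lam : ℂ) * p.2) -
        z (ph s q.1, (lam : ℂ) * q.2)‖ / lam := by
      unfold zz
      rw [← sub_div, hdiv]
    rw [h8, div_le_iff₀ hl0]
    have h9 : L * (‖ph s p.1 - ph s q.1‖ + ‖(lam : ℂ) * p.2 - (lam : ℂ) * q.2‖) ≤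
        L * (4 * (‖p.1 - q.1‖ + ‖p.2 - q.2‖)) := by
      refine mul_le_mul_of_nonneg_left ?_ (by linarith)
      have := norm_nonneg (p.2 - q.2)
      linarith
    have h10 : 0 ≤ L * (‖p.1 - q.1‖ + ‖p.2 - q.2‖) := by positivity
    nlinarith
  · -- injectivity
    intro w w' y h1 h2 h3
    have h4 := ph_inj P.s1 (P.w hκ1 h1).1 (P.w hκ1 h2).1
    have h5 := h.inj (ph s w) (ph s w') ((lam : ℂ) * y) (P.w hκ1 h1).2 (P.w hκ1 h2).2 (P.y h3)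
    have h8 : ‖zz z s lam (w, y) - zz z s lam (w', y)‖ = ‖z (ph s w, (lam : ℂ) * y) -
        z (ph s w', (lam : ℂ) * y)‖ / lam := by
      unfold zz
      rw [← sub_div, hdiv]
    rw [h8, mul_div_assoc', le_div_iff₀ hl0]
    have h9 : 0 ≤ ‖w - w'‖ := norm_nonneg _
    have h10 : 0 ≤ L * ‖z (ph s w, (lam : ℂ) * y) - z (ph s w', (lam : ℂ) * y)‖ := by positivity
    nlinarith
  · -- derivative bound
    intro p h1 h2
    rw [dz_zz hl0.ne']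
    have := h.dbd (ph s p.1, (lam : ℂ) * p.2) (P.w hκ1 h1).2 (P.y h2)
    linarith
  · -- second Lipschitz
    intro p q h1 h2 h3 h4
    rw [dz_zz hl0.ne', dz_zz hl0.ne']
    have h5 := h.lip2 (ph s p.1, (lam : ℂ) * p.2) (ph s q.1, (lam : ℂ) * q.2)
      (P.w hκ1 h1).2 (P.y h2) (P.w hκ1 h3).2 (P.y h4)
    have h6 := ph_lip P.s1 (P.w hκ1 h1).1 (P.w hκ1 h3).1
    have h7 := hy (y := p.2) (y' := q.2)
    simp only at h5
    have h9 : L * (‖ph s p.1 - ph s q.1‖ + ‖(lam : ℂ) * p.2 - (lam : ℂ) * q.2‖) ≤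
        L * (4 * (‖p.1 - q.1‖ + ‖p.2 - q.2‖)) := by
      refine mul_le_mul_of_nonneg_left ?_ (by linarith)
      have := norm_nonneg (p.2 - q.2)
      linarith
    have h10 : 0 ≤ L * (‖p.1 - q.1‖ + ‖p.2 - q.2‖) := by positivity
    linarith
  · -- positivity of the imaginary part
    intro p h1 h2 h3
    have h4 := rho_zz (z := z) (s := s) hl0 (c := 8 * L ^ 2 + 1) P.l2 p
    have h5 : 0 < rho (zz z s lam) p * lam ^ 2 := by positivity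
    rw [h4] at h5
    have hw := P.w hκ1 h1
    have hy' := P.y h2
    have hwκ : ‖p.1‖ < κ := by linarith
    have h6 := h.lip (ph s p.1, (lam : ℂ) * p.2) (p.1, (lam : ℂ) * p.2) hw.2 hy' hwκ hy'
    simp only [sub_self, norm_zero, add_zero] at h6
    have h7 := ph_sub P.s1 hw.1
    rw [abs_of_pos P.s0] at h7
    have h8 := h.hi (ph s p.1, (lam : ℂ) * p.2) hw.2 hy'
    have h9 := h.hi (p.1, (lam : ℂ) * p.2) hwκ hy'
    have h10 : 0 < rho z (p.1, (lam : ℂ) * p.2) := by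
      have e1 : rho z (p.1, (lam : ℂ) * p.2) = rho z (ph s p.1, (lam : ℂ) * p.2) +
          (‖z (ph s p.1, (lam : ℂ) * p.2)‖ ^ 2 - ‖z (p.1, (lam : ℂ) * p.2)‖ ^ 2) := by
        unfold rho; ring
      have e2 : -(8 * L ^ 2 * s) ≤
          ‖z (ph s p.1, (lam : ℂ) * p.2)‖ ^ 2 - ‖z (p.1, (lam : ℂ) * p.2)‖ ^ 2 := by
        have a1 : ‖z (p.1, (lam : ℂ) * p.2)‖ - ‖z (ph s p.1, (lam : ℂ) * p.2)‖ ≤
            L * (4 * s) := by
          have b1 := norm_sub_norm_le (z (p.1, (lam : ℂ) * p.2)) (z (ph s p.1, (lam : ℂ) * p.2))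
          rw [norm_sub_rev] at b1
          have b2 : L * ‖ph s p.1 - p.1‖ ≤ L * (4 * s) :=
            mul_le_mul_of_nonneg_left h7 (by linarith)
          linarith
        have a2 : 0 ≤ ‖z (p.1, (lam : ℂ) * p.2)‖ := norm_nonneg _
        have a3 : 0 ≤ ‖z (ph s p.1, (lam : ℂ) * p.2)‖ := norm_nonneg _
        have a4 : 0 ≤ L * (4 * s) := by have := P.s0; positivity
        by_cases hc : ‖z (p.1, (lam : ℂ) * p.2)‖ ≤ ‖z (ph s p.1, (lam : ℂ) * p.2)‖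
        · have a5 : ‖z (p.1, (lam : ℂ) * p.2)‖ ^ 2 ≤ ‖z (ph s p.1, (lam : ℂ) * p.2)‖ ^ 2 :=
            pow_le_pow_left₀ a2 hc 2
          have a6 : 0 ≤ 8 * L ^ 2 * s := by have := P.s0; positivity
          linarith
        · push Not at hc
          have a5 : ‖z (p.1, (lam : ℂ) * p.2)‖ ^ 2 - ‖z (ph s p.1, (lam : ℂ) * p.2)‖ ^ 2 =
              (‖z (p.1, (lam : ℂ) * p.2)‖ - ‖z (ph s p.1, (lam : ℂ) * p.2)‖) *
              (‖z (p.1, (lam : ℂ) * p.2)‖ + ‖z (ph s p.1, (lam : ℂ) * p.2)‖) := by ring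
          have a6 : (‖z (p.1, (lam : ℂ) * p.2)‖ - ‖z (ph s p.1, (lam : ℂ) * p.2)‖) *
              (‖z (p.1, (lam : ℂ) * p.2)‖ + ‖z (ph s p.1, (lam : ℂ) * p.2)‖) ≤
              (L * (4 * s)) * (L + L) :=
            mul_le_mul a1 (add_le_add h9 h8) (by linarith) a4
          nlinarith
      rw [e1]
      have := P.s0
      nlinarith
    exact h.im (p.1, (lam : ℂ) * p.2) hwκ hy' h10

end Target1

/-- **TARGET 1** -/
theorem lm_s {κ L s lam : ℝ} {z : ℂ × ℂ → ℂ} (h : LM κ L z) (hs : 0 < s) (hs1 : 16 * s ≤ κ)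
    (hs2 : 2 * (8 * L ^ 2 + 1) * s ≤ 1) (hl : lam = √(1 - (8 * L ^ 2 + 1) * s)) :
    LM (κ / 2) (8 * L) (fun p : ℂ × ℂ =>
      z ((p.1 + I * s) / (1 - I * s * p.1), (lam : ℂ) * p.2) / (lam : ℂ)) :=
  lm_s0 h (par h.κ1 hs hs1 hs2 hl)

theorem isOpen_DD {κ L κ' θ : ℝ} {z : ℂ × ℂ → ℂ} (h : LM κ L z) (hk : κ' ≤ κ) :
    IsOpen (DD z κ' θ) := by
  have hU1 : IsOpen {p : ℂ × ℂ | ‖p.1‖ < κ'} := isOpen_lt (by fun_prop) continuous_const
  have hU2 : IsOpen {p : ℂ × ℂ | ‖p.2‖ < κ'} := isOpen_lt (by fun_prop) continuous_const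
  have hU : IsOpen {p : ℂ × ℂ | ‖p.1‖ < κ' ∧ ‖p.2‖ < κ'} := hU1.inter hU2
  have hz : ContinuousOn z {p : ℂ × ℂ | ‖p.1‖ < κ' ∧ ‖p.2‖ < κ'} :=
    h.diff.continuousOn.mono (fun p hp => ⟨hp.1.trans_le hk, hp.2.trans_le hk⟩)
  have hr : ContinuousOn (rho z) {p : ℂ × ℂ | ‖p.1‖ < κ' ∧ ‖p.2‖ < κ'} := by
    unfold rho
    exact (continuousOn_const.sub (hz.norm.pow 2)).sub (by fun_prop)
  have h1 := hr.isOpen_inter_preimage hU (isOpen_Ioi (a := θ))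
  have h2 : DD z κ' θ = {p : ℂ × ℂ | ‖p.1‖ < κ' ∧ ‖p.2‖ < κ'} ∩ rho z ⁻¹' Ioi θ := by
    ext p
    simp only [DD, mem_ofPred_eq, mem_inter_iff, mem_preimage, mem_Ioi, and_assoc]
  rw [h2]
  exact h1

/-- the solutions on the smaller domains -/
theorem key_s {N : ℕ} {κ L δ C κ₁ : ℝ} {z : ℂ × ℂ → ℂ} (h : LM κ L z) (hκ₁ : 0 < κ₁)
    (hκ₁' : κ₁ ≤ κ / 2)
    (H : ∀ z : ℂ × ℂ → ℂ, LM (κ / 2) (8 * L) z →
      ∀ θ : ℝ, 0 < θ → ∀ (f : Fin N → ℂ → ℂ) (η : ℝ), 0 < η →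
      (∀ i, DifferentiableOn ℂ (f i) {w : ℂ | -η < w.im}) →
      (∀ i, ∀ w : ℂ, 0 ≤ w.im → ‖f i w‖ ≤ 1) →
      (∀ i, ∃ c : ℂ, Tendsto (f i) (Bornology.cobounded ℂ ⊓ 𝓟 {w : ℂ | 0 ≤ w.im}) (𝓝 c)) →
      ∀ G : ℂ × ℂ → ℂ, DifferentiableOn ℂ G (DD z (κ / 2) 0) →
      (∀ p ∈ DD z (κ / 2) 0, ‖G p‖ ≤ 1) →
      (∀ p ∈ DD z (κ / 2) 0, (∀ i, ‖f i p.1‖ < δ) → δ ≤ ‖G p‖) →
      Sol1 N C (DD z κ₁ θ) f G)
    (f : Fin N → ℂ → ℂ) (hf : ∀ i, DifferentiableOn ℂ (f i) {w : ℂ | 0 < w.im})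
    (hfb : ∀ i, ∀ w : ℂ, 0 < w.im → ‖f i w‖ ≤ 1)
    (G : ℂ × ℂ → ℂ) (hG : DifferentiableOn ℂ G (DD z κ 0)) (hGb : ∀ p ∈ DD z κ 0, ‖G p‖ ≤ 1)
    (hlow : ∀ p ∈ DD z κ 0, (∀ i, ‖f i p.1‖ < δ) → δ ≤ ‖G p‖)
    {s : ℝ} (hs : 0 < s) (hs1 : 16 * s ≤ κ₁) (hs2 : 2 * (8 * L ^ 2 + 1) * s ≤ 1) :
    Sol1 N C (DD z (κ₁ / 4) ((1 + (8 * L ^ 2 + 1)) * s)) f G := by
  obtain ⟨lam, hl⟩ : ∃ lam : ℝ, lam = √(1 - (8 * L ^ 2 + 1) * s) := ⟨_, rfl⟩
  have hκ := h.κ0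
  have hκ1 := h.κ1
  have P : Par κ L s lam := par hκ1 hs (by linarith) hs2 hl
  have hl0 := P.l0
  have hlh := P.lh
  have hl1 := P.l1
  have hlc : (lam : ℂ) ≠ 0 := by exact_mod_cast hl0.ne'
  have hs16 : s ≤ 1 / 16 := by linarith
  have hDD : ∀ p ∈ DD (zz z s lam) (κ / 2) 0, (ph s p.1, (lam : ℂ) * p.2) ∈ DD z κ 0 := by
    intro p hp
    refine ⟨(P.w hκ1 hp.1).2, P.y hp.2.1, ?_⟩
    have h4 := rho_zz (z := z) (s := s) hl0 (c := 8 * L ^ 2 + 1) P.l2 p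
    have h5 : 0 < rho (zz z s lam) p * lam ^ 2 := by
      have := hp.2.2
      positivity
    rw [h4] at h5
    have h6 : 0 < (8 * L ^ 2 + 1) * s := by positivity
    linarith
  have hmap1 : DifferentiableOn ℂ (fun p : ℂ × ℂ => (ph s p.1, (lam : ℂ) * p.2))
      (DD (zz z s lam) (κ / 2) 0) := by
    intro p hp
    have h3 : DifferentiableAt ℂ (ph s) p.1 := ph_dat (den_ne P.s1 (P.w hκ1 hp.1).1)
    have h4 : DifferentiableAt ℂ (fun p : ℂ × ℂ => ph s p.1) p :=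
      DifferentiableAt.comp p h3 differentiableAt_fst
    exact (h4.prodMk (by fun_prop)).differentiableWithinAt
  obtain ⟨g, g₀, hg, hg0, hgb, hg0b, hid⟩ := H (zz z s lam) (lm_s0 h P) s hs
    (fun i w => f i (ph s w)) (s / 2) (by linarith)
    (fun i w hw => by
      have h1 := im_ph hs hs16 (w := w) hw
      have h2 : DifferentiableAt ℂ (f i) (ph s w) :=
        (hf i).differentiableAt
          ((isOpen_lt continuous_const Complex.continuous_im).mem_nhds h1.2)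
      exact (DifferentiableAt.comp w h2 (ph_dat h1.1)).differentiableWithinAt)
    (fun i w hw => hfb i _ (im_ph hs hs16 (by linarith)).2)
    (fun i => by
      refine ⟨f i (I / s), ?_⟩
      have h1 : 0 < (I / (s : ℂ)).im := by
        rw [Complex.div_ofReal_im, Complex.I_im]
        positivity
      have h2 : DifferentiableAt ℂ (f i) (I / s) :=
        (hf i).differentiableAt ((isOpen_lt continuous_const Complex.continuous_im).mem_nhds h1)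
      exact (h2.continuousAt.tendsto.comp (ph_tendsto hs)).mono_left inf_le_left)
    (fun p => G (ph s p.1, (lam : ℂ) * p.2)) (hG.comp hmap1 hDD) (fun p hp => hGb _ (hDD p hp))
    (fun p hp hlt => hlow _ (hDD p hp) hlt)
  have hmap : ∀ p ∈ DD z (κ₁ / 4) ((1 + (8 * L ^ 2 + 1)) * s),
      ‖p.1‖ ≤ 1 ∧ (ph (-s) p.1, p.2 / (lam : ℂ)) ∈ DD (zz z s lam) κ₁ s ∧
      ph s (ph (-s) p.1) = p.1 ∧ (lam : ℂ) * (p.2 / (lam : ℂ)) = p.2 := by
    intro p hp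
    obtain ⟨h1, h2, h3⟩ := hp
    have hp1 : ‖p.1‖ ≤ 1 := by linarith
    have e1 : ph s (ph (-s) p.1) = p.1 := ph_ps P.s1 hp1
    have e2 : (lam : ℂ) * (p.2 / (lam : ℂ)) = p.2 := mul_div_cancel₀ _ hlc
    refine ⟨hp1, ⟨?_, ?_, ?_⟩, e1, e2⟩
    · have h4 := ph_sub (s := -s) (by rw [abs_neg]; exact P.s1) hp1
      rw [abs_neg, abs_of_pos hs] at h4
      have h5 : ‖ph (-s) p.1‖ ≤ ‖ph (-s) p.1 - p.1‖ + ‖p.1‖ := by
        have := norm_add_le (ph (-s) p.1 - p.1) p.1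
        rwa [sub_add_cancel] at this
      simp only
      linarith
    · simp only
      rw [norm_div, Complex.norm_real, Real.norm_of_nonneg hl0.le, div_lt_iff₀ hl0]
      nlinarith
    · have h4 := rho_zz (z := z) (s := s) hl0 (c := 8 * L ^ 2 + 1) P.l2
        (ph (-s) p.1, p.2 / (lam : ℂ))
      simp only [e1, e2] at h4
      have h5 : s < rho (zz z s lam) (ph (-s) p.1, p.2 / (lam : ℂ)) * lam ^ 2 := by
        rw [h4]
        have : rho z (p.1, p.2) = rho z p := rfl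
        rw [this]
        linarith
      have h6 : lam ^ 2 ≤ 1 := pow_le_one₀ hl0.le hl1
      by_contra hcon
      push Not at hcon
      have h7 : 0 < lam ^ 2 := by positivity
      have h8 : rho (zz z s lam) (ph (-s) p.1, p.2 / (lam : ℂ)) * lam ^ 2 ≤ s * lam ^ 2 :=
        mul_le_mul_of_nonneg_right hcon h7.le
      nlinarith
  have hmap2 : DifferentiableOn ℂ (fun p : ℂ × ℂ => (ph (-s) p.1, p.2 / (lam : ℂ)))
      (DD z (κ₁ / 4) ((1 + (8 * L ^ 2 + 1)) * s)) := by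
    intro p hp
    have h3 : DifferentiableAt ℂ (ph (-s)) p.1 :=
      ph_dat (den_ne (by rw [abs_neg]; exact P.s1) (hmap p hp).1)
    have h4 : DifferentiableAt ℂ (fun p : ℂ × ℂ => ph (-s) p.1) p :=
      DifferentiableAt.comp p h3 differentiableAt_fst
    have h5 : DifferentiableAt ℂ (fun p : ℂ × ℂ => p.2 * (lam : ℂ)⁻¹) p := by fun_prop
    exact (h4.prodMk h5).differentiableWithinAt
  refine ⟨fun i p => g i (ph (-s) p.1, p.2 / (lam : ℂ)),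
    fun p => g₀ (ph (-s) p.1, p.2 / (lam : ℂ)), fun i => (hg i).comp hmap2
      (fun p hp => (hmap p hp).2.1), hg0.comp hmap2 (fun p hp => (hmap p hp).2.1),
    fun i p hp => hgb i _ (hmap p hp).2.1, fun p hp => hg0b _ (hmap p hp).2.1, ?_⟩
  intro p hp
  obtain ⟨-, h2, h3, h4⟩ := hmap p hp
  have := hid _ h2
  simp only [h3, h4] at this
  exact this

/-- **TARGET 2** -/
theorem locG (N : ℕ) {κ L δ : ℝ} (hκ : 0 < κ) (hκ1 : κ ≤ 1) (hL : 1 ≤ L) (hδ : 0 < δ)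
    (hδ1 : δ ≤ 1) : ∃ C κ' : ℝ, 0 < κ' ∧ κ' ≤ κ ∧ ∀ z : ℂ × ℂ → ℂ, LM κ L z →
    ∀ f : Fin N → ℂ → ℂ, (∀ i, DifferentiableOn ℂ (f i) {w : ℂ | 0 < w.im}) →
      (∀ i, ∀ w : ℂ, 0 < w.im → ‖f i w‖ ≤ 1) →
      ∀ G : ℂ × ℂ → ℂ, DifferentiableOn ℂ G (DD z κ 0) → (∀ p ∈ DD z κ 0, ‖G p‖ ≤ 1) →
      (∀ p ∈ DD z κ 0, (∀ i, ‖f i p.1‖ < δ) → δ ≤ ‖G p‖) →
      Sol1 N C (DD z κ' 0) f G := by
  obtain ⟨C, κ₁, hκ₁, hκ₁', H⟩ := locN N (κ := κ / 2) (L := 8 * L) (δ := δ) (by linarith)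
    (by linarith) (by linarith) hδ hδ1
  refine ⟨C, κ₁ / 4, by linarith, by linarith, ?_⟩
  intro z h f hf hfb G hG hGb hlow
  obtain ⟨c, hcdef⟩ : ∃ c : ℝ, c = 8 * L ^ 2 + 1 := ⟨_, rfl⟩
  have hc : 0 < c := by rw [hcdef]; positivity
  obtain ⟨s₀, hs₀def⟩ : ∃ s₀ : ℝ, s₀ = min (κ₁ / 16) (1 / (2 * c)) := ⟨_, rfl⟩
  have hs₀ : 0 < s₀ := by
    rw [hs₀def]
    exact lt_min (by positivity) (by positivity)
  have key : ∀ s : ℝ, 0 < s → s ≤ s₀ → Sol1 N C (DD z (κ₁ / 4) ((1 + c) * s)) f G := by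
    intro s hs hs1
    rw [hcdef]
    have h1 : s ≤ κ₁ / 16 := by
      refine hs1.trans ?_
      rw [hs₀def]; exact min_le_left _ _
    have h2 : s ≤ 1 / (2 * c) := by
      refine hs1.trans ?_
      rw [hs₀def]; exact min_le_right _ _
    refine key_s h hκ₁ hκ₁' H f hf hfb G hG hGb hlow hs (by linarith) ?_
    rw [← hcdef]
    rw [le_div_iff₀ (by positivity)] at h2
    linarith
  have hsm : ∀ m : ℕ, 0 < s₀ / ((m : ℝ) + 1) := fun m => by positivity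
  have hsm1 : ∀ m : ℕ, s₀ / ((m : ℝ) + 1) ≤ s₀ := fun m => by
    rw [div_le_iff₀ (by positivity)]
    have : (0 : ℝ) ≤ m := Nat.cast_nonneg m
    nlinarith
  have hanti : ∀ m m' : ℕ, m ≤ m' → s₀ / ((m' : ℝ) + 1) ≤ s₀ / ((m : ℝ) + 1) := by
    intro m m' hm
    have : (m : ℝ) ≤ m' := by exact_mod_cast hm
    exact div_le_div_of_nonneg_left hs₀.le (by positivity) (by linarith)
  have hex := Pool.Agent.H788R3.Cor2.exhaust (C := C)
    (fun m : ℕ => DD z (κ₁ / 4) ((1 + c) * (s₀ / ((m : ℝ) + 1))))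
    (fun m => isOpen_DD h (by linarith))
    (fun m m' hm p hp => ⟨hp.1, hp.2.1, lt_of_le_of_lt
      (mul_le_mul_of_nonneg_left (hanti m m' hm) (by linarith)) hp.2.2⟩)
    (fun i p => f i p.1) G (fun m => key _ (hsm m) (hsm1 m))
  have hU : (⋃ m : ℕ, DD z (κ₁ / 4) ((1 + c) * (s₀ / ((m : ℝ) + 1)))) = DD z (κ₁ / 4) 0 := by
    ext p
    simp only [mem_iUnion]
    constructor
    · rintro ⟨m, hp⟩
      refine ⟨hp.1, hp.2.1, lt_trans ?_ hp.2.2⟩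
      have := hsm m
      positivity
    · intro hp
      have h0 : 0 < rho z p := hp.2.2
      obtain ⟨m, hm⟩ := exists_nat_gt ((1 + c) * s₀ / rho z p)
      refine ⟨m, hp.1, hp.2.1, ?_⟩
      rw [div_lt_iff₀ h0] at hm
      rw [mul_div_assoc', div_lt_iff₀ (by positivity)]
      nlinarith
  rw [hU] at hex
  exact hex

end Pool.Agent.P157C
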