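import Mathlib
import Pool.Agent.P157C.LocG
import Pool.Agent.P157C.Hopf
import Pool.Agent.P157C.Coord

set_option autoImplicit false

open MeasureTheory Metric Set Filter Topology Complex

namespace Pool.Agent.P157C

/-- an orthonormal frame with first vector `p` -/
theorem g2_frame (p : EuclideanSpace ℂ (Fin 2)) (hp : ‖p‖ = 1) :
    ∃ q : EuclideanSpace ℂ (Fin 2), (∀ a b : ℂ, ‖a • p + b • q‖ ^ 2 = ‖a‖ ^ 2 + ‖b‖ ^ 2) ∧
      (∀ x : EuclideanSpace ℂ (Fin 2), (inner ℂ p x : ℂ) • p + (inner ℂ q x : ℂ) • q = x) ∧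
      inner ℂ p p = (1 : ℂ) ∧ inner ℂ q p = (0 : ℂ) := by
  have hpp : (inner ℂ p p : ℂ) = 1 := by
    rw [inner_self_eq_norm_sq_to_K, hp]; simp
  have hpp2 : p 0 * (starRingEnd ℂ) (p 0) + p 1 * (starRingEnd ℂ) (p 1) = 1 := by
    rw [PiLp.inner_apply, Fin.sum_univ_two] at hpp
    exact hpp
  refine ⟨!₂[-(starRingEnd ℂ) (p 1), (starRingEnd ℂ) (p 0)], ?_, ?_, hpp, ?_⟩
  · intro a b
    have h0 : (inner ℂ p (!₂[-(starRingEnd ℂ) (p 1), (starRingEnd ℂ) (p 0)] :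
        EuclideanSpace ℂ (Fin 2)) : ℂ) = 0 := by
      rw [PiLp.inner_apply, Fin.sum_univ_two]
      simp
      ring
    have hq : ‖(!₂[-(starRingEnd ℂ) (p 1), (starRingEnd ℂ) (p 0)] :
        EuclideanSpace ℂ (Fin 2))‖ ^ 2 = 1 := by
      rw [EuclideanSpace.norm_sq_eq, Fin.sum_univ_two]
      have := EuclideanSpace.norm_sq_eq p
      rw [hp, Fin.sum_univ_two] at this
      simp
      linarith
    rw [@norm_add_sq ℂ, inner_smul_left, inner_smul_right, h0, norm_smul, norm_smul, mul_pow,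
      mul_pow, hq, hp]
    simp
  · intro x
    ext i
    fin_cases i
    · simp only [PiLp.inner_apply, Fin.sum_univ_two]
      simp
      linear_combination (x 0) * hpp2
    · simp only [PiLp.inner_apply, Fin.sum_univ_two]
      simp
      linear_combination (x 1) * hpp2
  · rw [PiLp.inner_apply, Fin.sum_univ_two]
    simp
    ring

/-- Cayley map -/
noncomputable def g2_cay (u : ℂ) : ℂ := I * (1 - u) / (1 + u)

/-- inverse of the Cayley map -/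
noncomputable def g2_cayI (w : ℂ) : ℂ := (I - w) / (I + w)

theorem g2_ne {u : ℂ} (hu : ‖u‖ < 1) : 1 + u ≠ 0 := by
  intro h
  have h1 : u = -1 := by linear_combination h
  rw [h1] at hu
  simp at hu

theorem g2_cay_im {u : ℂ} (hu : ‖u‖ < 1) : 0 < (g2_cay u).im := by
  have hne := g2_ne hu
  have h1 : 0 < Complex.normSq (1 + u) := Complex.normSq_pos.mpr hne
  have h2 : u.re ^ 2 + u.im ^ 2 < 1 := by
    have h3 := Complex.sq_norm u
    rw [Complex.normSq_apply] at h3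
    have h4 : ‖u‖ ^ 2 < 1 := by
      have := norm_nonneg u
      nlinarith
    nlinarith
  unfold g2_cay
  rw [Complex.div_im]
  simp only [Complex.mul_im, Complex.mul_re, Complex.I_re, Complex.I_im, Complex.sub_re,
    Complex.sub_im, Complex.add_re, Complex.add_im, Complex.one_re, Complex.one_im]
  rw [← sub_div]
  apply div_pos _ h1
  nlinarith

theorem g2_cayI_cay {u : ℂ} (hu : 1 + u ≠ 0) : g2_cayI (g2_cay u) = u := by
  unfold g2_cayI g2_cay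
  have h2 : I + I * (1 - u) / (1 + u) ≠ 0 := by
    have : I + I * (1 - u) / (1 + u) = 2 * I / (1 + u) := by
      field_simp
      ring
    rw [this]
    exact div_ne_zero (mul_ne_zero two_ne_zero I_ne_zero) hu
  rw [div_eq_iff h2]
  field_simp
  ring

theorem g2_half_ne {w : ℂ} (hw : 0 < w.im) : I + w ≠ 0 := by
  intro h
  have := congrArg Complex.im h
  simp at this
  linarith

theorem g2_cayI_norm {w : ℂ} (hw : 0 < w.im) : ‖g2_cayI w‖ < 1 := by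
  unfold g2_cayI
  rw [norm_div, div_lt_one (norm_pos_iff.mpr (g2_half_ne hw))]
  have h1 : ‖I - w‖ ^ 2 < ‖I + w‖ ^ 2 := by
    rw [Complex.sq_norm, Complex.sq_norm, Complex.normSq_apply, Complex.normSq_apply]
    simp
    nlinarith
  exact lt_of_pow_lt_pow_left₀ 2 (norm_nonneg _) h1

theorem g2_cayI_diff : DifferentiableOn ℂ g2_cayI {w : ℂ | 0 < w.im} := by
  intro w hw
  apply DifferentiableAt.differentiableWithinAt
  unfold g2_cayI
  exact ((differentiableAt_const _).sub differentiableAt_id).div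
    ((differentiableAt_const _).add differentiableAt_id) (g2_half_ne hw)

/-- **TARGET** -/
theorem loc1 (N : ℕ) {δ ρ₀ : ℝ} (hδ : 0 < δ) (hδ1 : δ ≤ 1) (hρ₀ : 0 < ρ₀)
    {ψ : EuclideanSpace ℂ (Fin 2) → ℂ} {p : EuclideanSpace ℂ (Fin 2)} (hp : ‖p‖ = 1)
    (hψ : AnalyticAt ℂ ψ p) (hψ1 : ∀ᶠ x in 𝓝 p, ‖x‖ < 1 → ‖ψ x‖ < 1) (hψp : ‖ψ p‖ = 1) :
    ∃ C ρ : ℝ, 0 < ρ ∧ ρ ≤ ρ₀ ∧
      ∀ f : Fin N → ℂ → ℂ, (∀ i, DifferentiableOn ℂ (f i) (ball 0 1)) →
      (∀ i, ∀ w ∈ ball (0 : ℂ) 1, ‖f i w‖ ≤ 1) →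
      ∀ G : EuclideanSpace ℂ (Fin 2) → ℂ, DifferentiableOn ℂ G (ball 0 1 ∩ ball p ρ₀) →
      (∀ x ∈ ball (0 : EuclideanSpace ℂ (Fin 2)) 1 ∩ ball p ρ₀, ‖G x‖ ≤ 1) →
      (∀ x ∈ ball (0 : EuclideanSpace ℂ (Fin 2)) 1 ∩ ball p ρ₀,
        (∀ i, ‖f i (ψ x)‖ < δ) → δ ≤ ‖G x‖) →
      ∃ (g : Fin N → EuclideanSpace ℂ (Fin 2) → ℂ) (g₀ : EuclideanSpace ℂ (Fin 2) → ℂ),
        (∀ i, DifferentiableOn ℂ (g i) (ball 0 1 ∩ ball p ρ)) ∧
        DifferentiableOn ℂ g₀ (ball 0 1 ∩ ball p ρ) ∧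
        (∀ i, ∀ x ∈ ball (0 : EuclideanSpace ℂ (Fin 2)) 1 ∩ ball p ρ, ‖g i x‖ ≤ C) ∧
        (∀ x ∈ ball (0 : EuclideanSpace ℂ (Fin 2)) 1 ∩ ball p ρ, ‖g₀ x‖ ≤ C) ∧
        ∀ x ∈ ball (0 : EuclideanSpace ℂ (Fin 2)) 1 ∩ ball p ρ,
          ∑ i, f i (ψ x) * g i x + G x * g₀ x = 1 := by
  obtain ⟨q, hq1, hq2, hpp, hqp⟩ := g2_frame p hp
  have hψ0 : ψ p ≠ 0 := by
    intro h
    rw [h, norm_zero] at hψp
    exact zero_ne_one hψp
  -- the linear maps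
  have hΦd : ∀ t : ℂ × ℂ, DifferentiableAt ℂ (fun t : ℂ × ℂ => t.1 • p + t.2 • q) t := by
    intro t
    exact (differentiableAt_fst.smul_const p).add (differentiableAt_snd.smul_const q)
  have hΦa : ∀ t : ℂ × ℂ, AnalyticAt ℂ (fun t : ℂ × ℂ => t.1 • p + t.2 • q) t := by
    intro t
    exact (analyticAt_fst.smul analyticAt_const).add (analyticAt_snd.smul analyticAt_const)
  have hΦc : Continuous (fun t : ℂ × ℂ => t.1 • p + t.2 • q) := by fun_prop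
  have hAd : ∀ x : EuclideanSpace ℂ (Fin 2), DifferentiableAt ℂ
      (fun x : EuclideanSpace ℂ (Fin 2) => ((inner ℂ p x : ℂ), (inner ℂ q x : ℂ))) x := by
    intro x
    exact ((innerSL ℂ p).differentiableAt).prodMk ((innerSL ℂ q).differentiableAt)
  have hA1 : ((inner ℂ p p : ℂ), (inner ℂ q p : ℂ)) = ((1 : ℂ), (0 : ℂ)) := by
    rw [hpp, hqp]
  have hΦ1 : (1 : ℂ) • p + (0 : ℂ) • q = p := by simp
  -- the function `W`
  set W : ℂ × ℂ → ℂ := fun t => g2_cay (ψ (t.1 • p + t.2 • q) / ψ p) with hWdef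
  have hcay : ∀ u : ℂ, 1 + u ≠ 0 → AnalyticAt ℂ g2_cay u := by
    intro u hu
    unfold g2_cay
    exact (analyticAt_const.mul (analyticAt_const.sub analyticAt_id)).div
      (analyticAt_const.add analyticAt_id) hu
  have hψt : AnalyticAt ℂ (fun t : ℂ × ℂ => ψ (t.1 • p + t.2 • q) / ψ p) (1, 0) := by
    apply AnalyticAt.div _ analyticAt_const hψ0
    apply AnalyticAt.fun_comp _ (hΦa (1, 0))
    simpa using hψ
  have hWa : AnalyticAt ℂ W (1, 0) := by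
    rw [hWdef]
    apply AnalyticAt.fun_comp _ hψt
    apply hcay
    simp only [hΦ1, div_self hψ0]
    norm_num
  have hW0 : W (1, 0) = 0 := by
    rw [hWdef]
    simp only [hΦ1, div_self hψ0]
    simp [g2_cay]
  have hΦt : Tendsto (fun t : ℂ × ℂ => t.1 • p + t.2 • q) (𝓝 ((1 : ℂ), (0 : ℂ))) (𝓝 p) := by
    have := hΦc.tendsto ((1 : ℂ), (0 : ℂ))
    simpa using this
  have hlt : ∀ t : ℂ × ℂ, ‖t.1‖ ^ 2 + ‖t.2‖ ^ 2 < 1 → ‖t.1 • p + t.2 • q‖ < 1 := by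
    intro t ht
    rw [← hq1] at ht
    exact (sq_lt_one_iff₀ (norm_nonneg _)).mp ht
  have hWpos : ∀ᶠ t in 𝓝 ((1 : ℂ), (0 : ℂ)), ‖t.1‖ ^ 2 + ‖t.2‖ ^ 2 < 1 → 0 < (W t).im := by
    filter_upwards [hΦt.eventually hψ1] with t ht ht1
    apply g2_cay_im
    rw [norm_div, hψp, div_one]
    exact ht (hlt t ht1)
  have hball : ∀ᶠ t in 𝓝 ((1 : ℂ), (0 : ℂ)), t.1 • p + t.2 • q ∈ ball p ρ₀ :=
    hΦt.eventually (ball_mem_nhds p hρ₀)
  have hne : ∀ᶠ t in 𝓝 ((1 : ℂ), (0 : ℂ)), 1 + ψ (t.1 • p + t.2 • q) / ψ p ≠ 0 := by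
    have h1 : ContinuousAt (fun t : ℂ × ℂ => 1 + ψ (t.1 • p + t.2 • q) / ψ p) (1, 0) :=
      continuousAt_const.add hψt.continuousAt
    apply h1.eventually_ne
    simp only [hΦ1, div_self hψ0]
    norm_num
  have hOev := (hWa.eventually_analyticAt.and hWpos).and (hball.and hne)
  obtain ⟨O, hO, hOopen, hO1⟩ := _root_.eventually_nhds_iff.mp hOev
  -- Hopf
  have hd : deriv (fun a : ℂ => W (a, 0)) 1 ≠ 0 := by
    have hta : Tendsto (fun a : ℂ => ((a, (0 : ℂ)) : ℂ × ℂ)) (𝓝 1) (𝓝 ((1 : ℂ), (0 : ℂ))) :=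
      (Continuous.prodMk_left (0 : ℂ)).tendsto 1
    apply hopf (h := fun a : ℂ => W (a, 0))
    · exact AnalyticAt.fun_comp (f := fun a : ℂ => ((a, (0 : ℂ)) : ℂ × ℂ)) hWa
        (analyticAt_id.prod analyticAt_const)
    · exact hW0
    · filter_upwards [hta.eventually hWpos] with a ha ha1
      apply ha
      simp only [norm_zero]
      have := norm_nonneg a
      nlinarith
  obtain ⟨κ, L, z, hLM, hz0, hz1, hz2⟩ := coord hOopen hO1
    (fun t ht => (hO t ht).1.1) hW0 hd (fun t ht => (hO t ht).1.2)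
  obtain ⟨C, κ', hκ', hκκ, hloc⟩ := locG N (δ := δ) hLM.κ0 hLM.κ1 hLM.L1 hδ hδ1
  -- the neighbourhood of `p`
  have hAt : Tendsto (fun x : EuclideanSpace ℂ (Fin 2) =>
      ((inner ℂ p x : ℂ), (inner ℂ q x : ℂ))) (𝓝 p) (𝓝 ((1 : ℂ), (0 : ℂ))) := by
    have := (hAd p).continuousAt.tendsto
    rw [hA1] at this
    exact this
  have hWs : ∀ᶠ t in 𝓝 ((1 : ℂ), (0 : ℂ)), ‖W t‖ < κ' := by
    have h1 : Tendsto (fun t => ‖W t‖) (𝓝 ((1 : ℂ), (0 : ℂ))) (𝓝 0) := by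
      have := hWa.continuousAt.norm.tendsto
      rw [hW0, norm_zero] at this
      exact this
    exact h1.eventually (gt_mem_nhds hκ')
  have hbs : ∀ᶠ t in 𝓝 ((1 : ℂ), (0 : ℂ)), ‖t.2‖ < κ' := by
    have h1 : Tendsto (fun t : ℂ × ℂ => ‖t.2‖) (𝓝 ((1 : ℂ), (0 : ℂ))) (𝓝 0) := by
      have := (continuous_snd (X := ℂ) (Y := ℂ)).norm.tendsto ((1 : ℂ), (0 : ℂ))
      simpa using this
    exact h1.eventually (gt_mem_nhds hκ')
  have hOn : ∀ᶠ t in 𝓝 ((1 : ℂ), (0 : ℂ)), t ∈ O := hOopen.mem_nhds hO1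
  have hall := hAt.eventually ((hOn.and hz2).and (hWs.and hbs))
  obtain ⟨ρ₁, hρ₁, hρ₁s⟩ := Metric.eventually_nhds_iff_ball.mp hall
  refine ⟨C, min ρ₀ ρ₁, lt_min hρ₀ hρ₁, min_le_left _ _, ?_⟩
  intro f hf hf1 G hG hG1 hGδ
  have hsub : ∀ x ∈ ball p (min ρ₀ ρ₁), x ∈ ball p ρ₁ :=
    fun x hx => ball_subset_ball (min_le_right _ _) hx
  -- points of the domain
  have hDD : ∀ t ∈ DD z κ 0, z t • p + t.2 • q ∈
      ball (0 : EuclideanSpace ℂ (Fin 2)) 1 ∩ ball p ρ₀ ∧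
      ψ p * g2_cayI t.1 = ψ (z t • p + t.2 • q) := by
    rintro t ⟨ht1, ht2, ht3⟩
    obtain ⟨hz3, hz4⟩ := hz1 t ht1 ht2
    obtain ⟨⟨_, _⟩, h5, h6⟩ := hO _ hz3
    refine ⟨⟨?_, h5⟩, ?_⟩
    · rw [mem_ball_zero_iff]
      apply hlt (z t, t.2)
      unfold rho at ht3
      simp only
      linarith
    · have h7 : g2_cayI (W (z t, t.2)) = ψ (z t • p + t.2 • q) / ψ p := g2_cayI_cay h6
      rw [hz4] at h7
      rw [h7, mul_div_cancel₀ _ hψ0]
  have hsol : Sol1 N C (DD z κ' 0) (fun i w => f i (ψ p * g2_cayI w))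
      (fun t => G (z t • p + t.2 • q)) := by
    refine hloc z hLM (fun i w => f i (ψ p * g2_cayI w)) ?_ ?_
      (fun t => G (z t • p + t.2 • q)) ?_ ?_ ?_
    · intro i
      apply (hf i).comp
      · exact (differentiableOn_const _).mul g2_cayI_diff
      · intro w hw
        rw [mem_ball_zero_iff, norm_mul, hψp, one_mul]
        exact g2_cayI_norm hw
    · intro i w hw
      apply hf1 i
      rw [mem_ball_zero_iff, norm_mul, hψp, one_mul]
      exact g2_cayI_norm hw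
    · apply hG.comp
      · intro t ht
        have h1 : DifferentiableWithinAt ℂ z (DD z κ 0) t :=
          (hLM.diff t ⟨ht.1, ht.2.1⟩).mono (fun s hs => ⟨hs.1, hs.2.1⟩)
        exact (h1.smul_const p).add (differentiableWithinAt_snd.smul_const q)
      · intro t ht
        exact (hDD t ht).1
    · intro t ht
      exact hG1 _ (hDD t ht).1
    · intro t ht h1
      apply hGδ _ (hDD t ht).1
      intro i
      have h2 : ‖f i (ψ p * g2_cayI t.1)‖ < δ := h1 i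
      rw [(hDD t ht).2] at h2
      exact h2
  obtain ⟨g, g₀, hg1, hg2, hg3, hg4, hg5⟩ := hsol
  have hP : ∀ x ∈ ball (0 : EuclideanSpace ℂ (Fin 2)) 1 ∩ ball p (min ρ₀ ρ₁),
      (W ((inner ℂ p x : ℂ), (inner ℂ q x : ℂ)), (inner ℂ q x : ℂ)) ∈ DD z κ' 0 ∧
      ψ p * g2_cayI (W ((inner ℂ p x : ℂ), (inner ℂ q x : ℂ))) = ψ x ∧
      z (W ((inner ℂ p x : ℂ), (inner ℂ q x : ℂ)), (inner ℂ q x : ℂ)) = inner ℂ p x ∧
      DifferentiableAt ℂ (fun x : EuclideanSpace ℂ (Fin 2) =>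
        (W ((inner ℂ p x : ℂ), (inner ℂ q x : ℂ)), (inner ℂ q x : ℂ))) x := by
    rintro x ⟨hx1, hx2⟩
    obtain ⟨⟨h1, h2⟩, h3, h4⟩ := hρ₁s x (hsub x hx2)
    obtain ⟨⟨h5, h6⟩, h7, h8⟩ := hO _ h1
    simp only at h2 h3 h4 h5 h6 h7 h8
    refine ⟨⟨h3, h4, ?_⟩, ?_, h2, ?_⟩
    · unfold rho
      rw [h2]
      simp only
      have h9 := hq1 (inner ℂ p x) (inner ℂ q x)
      rw [hq2 x] at h9
      rw [mem_ball_zero_iff] at hx1
      have := norm_nonneg x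
      nlinarith
    · have h9 : g2_cayI (W ((inner ℂ p x : ℂ), (inner ℂ q x : ℂ))) =
          ψ ((inner ℂ p x : ℂ) • p + (inner ℂ q x : ℂ) • q) / ψ p := g2_cayI_cay h8
      rw [h9, hq2 x, mul_div_cancel₀ _ hψ0]
    · exact (DifferentiableAt.comp x h5.differentiableAt (hAd x)).prodMk
        ((innerSL ℂ q).differentiableAt)
  refine ⟨fun i x => g i (W ((inner ℂ p x : ℂ), (inner ℂ q x : ℂ)), (inner ℂ q x : ℂ)),
    fun x => g₀ (W ((inner ℂ p x : ℂ), (inner ℂ q x : ℂ)), (inner ℂ q x : ℂ)), ?_, ?_, ?_, ?_,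
    ?_⟩
  · intro i
    exact (hg1 i).comp (fun x hx => (hP x hx).2.2.2.differentiableWithinAt)
      (fun x hx => (hP x hx).1)
  · exact hg2.comp (fun x hx => (hP x hx).2.2.2.differentiableWithinAt)
      (fun x hx => (hP x hx).1)
  · intro i x hx
    exact hg3 i _ (hP x hx).1
  · intro x hx
    exact hg4 _ (hP x hx).1
  · intro x hx
    obtain ⟨h1, h2, h3, _⟩ := hP x hx
    have h4 := hg5 _ h1
    simp only at h4
    rw [h2, h3, hq2 x] at h4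
    exact h4

end Pool.Agent.P157C
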